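import Mathlib

namespace H80T

/-- evaluation of a trilinear form given by its coefficients -/
def tri {j : ℕ} (A : Fin j → Fin j → Fin j → ℂ) (u v w : Fin j → ℂ) : ℂ :=
  ∑ a, ∑ b, ∑ c, A a b c * (u a * v b * w c)

/-- evaluation of a bilinear form given by its coefficients -/
def bil {W : Type*} [Fintype W] (B : W → W → ℂ) (u v : W → ℂ) : ℂ :=
  ∑ a, ∑ b, B a b * (u a * v b)

/-- symmetric trilinear forms (cubic forms) -/
def Sym3 {j : ℕ} (A : Fin j → Fin j → Fin j → ℂ) : Prop :=
  (∀ a b c, A a b c = A b a c) ∧ ∀ a b c, A a b c = A a c b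

theorem Sym3.add {j : ℕ} {A B : Fin j → Fin j → Fin j → ℂ} (hA : Sym3 A) (hB : Sym3 B) :
    Sym3 (A + B) :=
  ⟨fun a b c => by simp [hA.1 a b c, hB.1 a b c], fun a b c => by simp [hA.2 a b c, hB.2 a b c]⟩

theorem Sym3.smul {j : ℕ} (t : ℂ) {A : Fin j → Fin j → Fin j → ℂ} (hA : Sym3 A) :
    Sym3 (t • A) :=
  ⟨fun a b c => by simp [hA.1 a b c], fun a b c => by simp [hA.2 a b c]⟩

theorem Sym3.zero {j : ℕ} : Sym3 (0 : Fin j → Fin j → Fin j → ℂ) :=
  ⟨fun _ _ _ => rfl, fun _ _ _ => rfl⟩

theorem tri_add {j : ℕ} (A B : Fin j → Fin j → Fin j → ℂ) (u v w : Fin j → ℂ) :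
    tri (A + B) u v w = tri A u v w + tri B u v w := by
  simp only [tri, Pi.add_apply, add_mul, Finset.sum_add_distrib]

theorem tri_smul {j : ℕ} (t : ℂ) (A : Fin j → Fin j → Fin j → ℂ) (u v w : Fin j → ℂ) :
    tri (t • A) u v w = t * tri A u v w := by
  simp only [tri, Pi.smul_apply, smul_eq_mul, Finset.mul_sum, mul_assoc]

@[simp] theorem tri_zero {j : ℕ} (u v w : Fin j → ℂ) :
    tri (0 : Fin j → Fin j → Fin j → ℂ) u v w = 0 := by
  simp [tri]

theorem bil_add {W : Type*} [Fintype W] (A B : W → W → ℂ) (u v : W → ℂ) :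
    bil (A + B) u v = bil A u v + bil B u v := by
  simp only [bil, Pi.add_apply, add_mul, Finset.sum_add_distrib]

theorem bil_smul {W : Type*} [Fintype W] (t : ℂ) (A : W → W → ℂ) (u v : W → ℂ) :
    bil (t • A) u v = t * bil A u v := by
  simp only [bil, Pi.smul_apply, smul_eq_mul, Finset.mul_sum, mul_assoc]

@[simp] theorem bil_zero {W : Type*} [Fintype W] (u v : W → ℂ) :
    bil (0 : W → W → ℂ) u v = 0 := by
  simp [bil]

/-- Cubic forms killed by a family of triples of vectors. -/
def TSys {j : ℕ} {ι : Type} (U V W : ι → Fin j → ℂ) :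
    Submodule ℂ (Fin j → Fin j → Fin j → ℂ) where
  carrier := {A | Sym3 A ∧ ∀ i, tri A (U i) (V i) (W i) = 0}
  add_mem' := fun hA hB => ⟨hA.1.add hB.1, fun i => by rw [tri_add, hA.2 i, hB.2 i, add_zero]⟩
  zero_mem' := ⟨Sym3.zero, fun i => tri_zero _ _ _⟩
  smul_mem' := fun t _ hA => ⟨hA.1.smul t, fun i => by rw [tri_smul, hA.2 i, mul_zero]⟩

/-- Quadratic forms (symmetric matrices) killed by a family of pairs of vectors. -/
def BSys {W ι : Type} [Fintype W] (U V : ι → W → ℂ) : Submodule ℂ (W → W → ℂ) where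
  carrier := {B | (∀ a b, B a b = B b a) ∧ ∀ i, bil B (U i) (V i) = 0}
  add_mem' := fun {A B} hA hB => ⟨fun a b => by simp [hA.1 a b, hB.1 a b],
    fun i => by rw [bil_add, hA.2 i, hB.2 i, add_zero]⟩
  zero_mem' := ⟨fun _ _ => rfl, fun i => bil_zero _ _⟩
  smul_mem' := fun t A hA => ⟨fun a b => by simp [hA.1 a b],
    fun i => by rw [bil_smul, hA.2 i, mul_zero]⟩

/-- The system of conditions on a cubic form: double points `P s`; braid conditions
`A (H v - H w) = 0` for `E v w`; pair conditions `A (P s, P t, Y s - Y t) = 0` for `F s t`. -/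
structure InSys {j : ℕ} {D V : Type} (E : V → V → Prop) (F : D → D → Prop)
    (P Y : D → Fin j → ℂ) (H : V → Fin j → ℂ) (A : Fin j → Fin j → Fin j → ℂ) : Prop where
  sym : Sym3 A
  dbl : ∀ s (u : Fin j → ℂ), tri A (P s) (P s) u = 0
  brd : ∀ v w, E v w → tri A (H v - H w) (H v - H w) (H v - H w) = 0
  par : ∀ s t, F s t → tri A (P s) (P t) (Y s - Y t) = 0

/-- The space of cubic forms satisfying `InSys`. -/
def Sys {j : ℕ} {D V : Type} (E : V → V → Prop) (F : D → D → Prop)
    (P Y : D → Fin j → ℂ) (H : V → Fin j → ℂ) :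
    Submodule ℂ (Fin j → Fin j → Fin j → ℂ) where
  carrier := {A | InSys E F P Y H A}
  add_mem' := fun hA hB => ⟨hA.sym.add hB.sym,
    fun s u => by rw [tri_add, hA.dbl, hB.dbl, add_zero],
    fun v w h => by rw [tri_add, hA.brd v w h, hB.brd v w h, add_zero],
    fun v w h => by rw [tri_add, hA.par v w h, hB.par v w h, add_zero]⟩
  zero_mem' := ⟨Sym3.zero, fun _ _ => tri_zero _ _ _, fun _ _ _ => tri_zero _ _ _,
    fun _ _ _ => tri_zero _ _ _⟩
  smul_mem' := fun t _ hA => ⟨hA.sym.smul t,
    fun s u => by rw [tri_smul, hA.dbl, mul_zero],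
    fun v w h => by rw [tri_smul, hA.brd v w h, mul_zero],
    fun v w h => by rw [tri_smul, hA.par v w h, mul_zero]⟩

/-- The system of conditions has dimension at most `d` for some (hence for general)
parameters. -/
def Good (j : ℕ) (D V : Type) (E : V → V → Prop) (F : D → D → Prop) (d : ℕ) : Prop :=
  ∃ (P Y : D → Fin j → ℂ) (H : V → Fin j → ℂ), Module.finrank ℂ (Sys E F P Y H) ≤ d

/-- The residual system of quadratic forms. -/
structure InQS {j : ℕ} {D O V : Type} (Eo : V → V → Prop) (Fo : D → D → Prop) (col : V → ℕ)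
    (h : O → Fin j → ℂ) (P : D → Fin j → ℂ) (H : V → Fin j → ℂ)
    (B : Fin (j + 1) → Fin (j + 1) → ℂ) : Prop where
  sym : ∀ a b, B a b = B b a
  van : ∀ o (u : Fin (j + 1) → ℂ), bil B (Fin.snoc (h o) 1) u = 0
  dbl : ∀ s, bil B (Fin.snoc (P s) 0) (Fin.snoc (P s) 0) = 0
  brd : ∀ v w, Eo v w → bil B (Fin.snoc (H v) (col v : ℂ) - Fin.snoc (H w) (col w : ℂ))
    (Fin.snoc (H v) (col v : ℂ) - Fin.snoc (H w) (col w : ℂ)) = 0
  par : ∀ s t, Fo s t → bil B (Fin.snoc (P s) 0) (Fin.snoc (P t) 0) = 0

/-- The space of quadratic forms satisfying `InQS`. -/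
def QS {j : ℕ} {D O V : Type} (Eo : V → V → Prop) (Fo : D → D → Prop) (col : V → ℕ)
    (h : O → Fin j → ℂ) (P : D → Fin j → ℂ) (H : V → Fin j → ℂ) :
    Submodule ℂ (Fin (j + 1) → Fin (j + 1) → ℂ) where
  carrier := {B | InQS Eo Fo col h P H B}
  add_mem' := fun {A B} hA hB => ⟨fun a b => by simp [hA.sym a b, hB.sym a b],
    fun s u => by rw [bil_add, hA.van, hB.van, add_zero],
    fun s => by rw [bil_add, hA.dbl, hB.dbl, add_zero],
    fun v w h => by rw [bil_add, hA.brd v w h, hB.brd v w h, add_zero],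
    fun v w h => by rw [bil_add, hA.par v w h, hB.par v w h, add_zero]⟩
  zero_mem' := ⟨fun _ _ => rfl, fun _ _ => bil_zero _ _, fun _ => bil_zero _ _,
    fun _ _ _ => bil_zero _ _, fun _ _ _ => bil_zero _ _⟩
  smul_mem' := fun t A hA => ⟨fun a b => by simp [hA.sym a b],
    fun s u => by rw [bil_smul, hA.van, mul_zero],
    fun s => by rw [bil_smul, hA.dbl, mul_zero],
    fun v w h => by rw [bil_smul, hA.brd v w h, mul_zero],
    fun v w h => by rw [bil_smul, hA.par v w h, mul_zero]⟩

/-- The residual system has dimension at most `d` for some (hence for general) parameters. -/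
def QGood (j : ℕ) (D O V : Type) (Eo : V → V → Prop) (Fo : D → D → Prop) (col : V → ℕ)
    (d : ℕ) : Prop :=
  ∃ (h : O → Fin j → ℂ) (P : D → Fin j → ℂ) (H : V → Fin j → ℂ),
    Module.finrank ℂ (QS Eo Fo col h P H) ≤ d

/-- Add a complete class `O` to a relation. -/
def joinR {V : Type} (O : Type) (R : V → V → Prop) : V ⊕ O → V ⊕ O → Prop
  | .inl v, .inl w => R v w
  | .inr _, .inr _ => True
  | _, _ => False

/-- Extend a relation by isolated points. -/
def liftR {D : Type} (O : Type) (F : D → D → Prop) : D ⊕ O → D ⊕ O → Prop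
  | .inl s, .inl t => F s t
  | _, _ => False

/-- Vertices of a list of classes with prescribed sizes. -/
def VT : List ℕ → Type
  | [] => Empty
  | b :: bs => Fin b ⊕ VT bs

/-- Two vertices are in the same class. -/
def VE : (bs : List ℕ) → VT bs → VT bs → Prop
  | _ :: _, .inl _, .inl _ => True
  | _ :: bs, .inr v, .inr w => VE bs v w
  | _, _, _ => False

instance instFintypeVT : (bs : List ℕ) → Fintype (VT bs)
  | [] => inferInstanceAs (Fintype Empty)
  | b :: bs => by
    have : Fintype (VT bs) := instFintypeVT bs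
    exact inferInstanceAs (Fintype (Fin b ⊕ VT bs))

/-- The number of pairs of vertices in the same class. -/
def pairs (bs : List ℕ) : ℕ := (bs.map (fun b => b.choose 2)).sum

/-- `Spl e bs' bs c`: the classes of sizes `bs'` are obtained from the classes of sizes `bs` by
keeping some of them and by replacing each of the others by a disjoint union of subsets;
`c` is the sum of the numbers `b - e` over the classes which are not kept. -/
inductive Spl (e : ℕ) : List ℕ → List ℕ → ℕ → Prop
  | nil : Spl e [] [] 0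
  | keep (b : ℕ) {bs' bs : List ℕ} {c : ℕ} (h : Spl e bs' bs c) :
      Spl e (b :: bs') (b :: bs) c
  | split (l : List ℕ) (b : ℕ) (hl : l.sum ≤ b) {bs' bs : List ℕ} {c : ℕ}
      (h : Spl e bs' bs c) : Spl e (l ++ bs') (b :: bs) (c + (b - e))

/-- The state with `x` double points, braid classes of sizes `bs` and pair classes of sizes `gs`
(whose vertices are among the double points) has dimension at most `d`. -/
def GoodL (j x : ℕ) (bs gs : List ℕ) (d : ℕ) : Prop :=
  gs.sum ≤ x ∧ Good j (VT gs ⊕ Fin (x - gs.sum)) (VT bs) (VE bs)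
    (liftR (Fin (x - gs.sum)) (VE gs)) d

/-- symmetric matrices -/
def SM (W : Type) : Submodule ℂ (W → W → ℂ) where
  carrier := {B | ∀ a b, B a b = B b a}
  add_mem' := fun {A B} hA hB a b => by simp [hA a b, hB a b]
  zero_mem' := fun _ _ => rfl
  smul_mem' := fun t A hA a b => by simp [hA a b]

/-- the subspace of symmetric matrices with the braid conditions for pairs of vertices of
different colours -/
def braidSp {V W : Type} [Fintype W] (E : V → V → Prop) (col : V → ℕ) (u : V → W → ℂ) :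
    Submodule ℂ (W → W → ℂ) where
  carrier := {B | (∀ a b, B a b = B b a) ∧
    ∀ v w, E v w → col v ≠ col w → bil B (u v - u w) (u v - u w) = 0}
  add_mem' := fun {A B} hA hB => ⟨fun a b => by simp [hA.1 a b, hB.1 a b],
    fun v w h h' => by rw [bil_add, hA.2 v w h h', hB.2 v w h h', add_zero]⟩
  zero_mem' := ⟨fun _ _ => rfl, fun _ _ _ _ => bil_zero _ _⟩
  smul_mem' := fun t A hA => ⟨fun a b => by simp [hA.1 a b],
    fun v w h h' => by rw [bil_smul, hA.2 v w h h', mul_zero]⟩

/-- the subspace of symmetric matrices with the pair conditions, `act` being the set of active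
vertices -/
def pairSp {V W : Type} [Fintype W] (E : V → V → Prop) (col : V → ℕ) (act : V → Prop)
    (u : V → W → ℂ) : Submodule ℂ (W → W → ℂ) where
  carrier := {B | (∀ a b, B a b = B b a) ∧ (∀ v, act v → bil B (u v) (u v) = 0) ∧
    ∀ v w, E v w → col v ≠ col w → bil B (u v) (u w) = 0}
  add_mem' := fun {A B} hA hB => ⟨fun a b => by simp [hA.1 a b, hB.1 a b],
    fun v h => by rw [bil_add, hA.2.1 v h, hB.2.1 v h, add_zero],
    fun v w h h' => by rw [bil_add, hA.2.2 v w h h', hB.2.2 v w h h', add_zero]⟩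
  zero_mem' := ⟨fun _ _ => rfl, fun _ _ => bil_zero _ _, fun _ _ _ _ => bil_zero _ _⟩
  smul_mem' := fun t A hA => ⟨fun a b => by simp [hA.1 a b],
    fun v h => by rw [bil_smul, hA.2.1 v h, mul_zero],
    fun v w h h' => by rw [bil_smul, hA.2.2 v w h h', mul_zero]⟩

/-- Apply a splitting to a list of classes: for each class, `none` if it is kept, `some l` if it
is split into classes of sizes `l` (and single vertices). The result is the new list and the
cost. -/
def applySpl (e : ℕ) : List ℕ → List (Option (List ℕ)) → Option (List ℕ × ℕ)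
  | [], _ => some ([], 0)
  | b :: bs, [] => (applySpl e bs []).map (fun p => (p.1, p.2 + (b - e)))
  | b :: bs, none :: os => (applySpl e bs os).map (fun p => (b :: p.1, p.2))
  | b :: bs, some l :: os =>
    if l.sum ≤ b then (applySpl e bs os).map (fun p => (l ++ p.1, p.2 + (b - e))) else none

/-- Run a certificate; the result is the total defect. -/
def runC : ℕ → ℕ → List ℕ → List ℕ →
    List (ℕ × List (Option (List ℕ)) × List (Option (List ℕ))) → Option ℕ
  | 0, x, _, gs, _ => if gs.sum ≤ x then some 0 else none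
  | 1, x, bs, gs, [] =>
    if gs.sum ≤ x then (if 1 ≤ x ∨ 1 ≤ pairs bs then some 0 else some 1) else none
  | _ + 1, _, _, _, [] => none
  | j + 1, x, bs, gs, (α, o₁, o₂) :: L =>
    match applySpl 1 bs o₁, applySpl 0 gs o₂ with
    | some (bs', c₁), some (gs', c₂) =>
      if 1 ≤ α ∧ α ≤ x ∧ gs.sum ≤ x - α ∧ c₁ + c₂ + α ≤ j + 1 then
        (runC j (x - α) (α :: bs') gs' L).map (fun d =>
          d + ((j + 2 - α).choose 2 + pairs bs' + pairs gs' - (x - α + pairs bs + pairs gs)))
      else none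
    | _, _ => none

end H80T
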