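import Mathlib
import Pool.Agent.H80T.Defs
import Pool.Agent.H80R.Sing

namespace H80T

open Module

/-- Cubic forms on `ℂ^n` with double points `l s`, `p s`, and the pair conditions of the tangent
vectors `y s` of `ℂ^(n+1)` based at `l s`. -/
def tahS {n a b : ℕ} (l : Fin a → Fin n → ℂ) (p : Fin b → Fin n → ℂ)
    (y : Fin a → Fin (n + 1) → ℂ) : Submodule ℂ (Fin n → Fin n → Fin n → ℂ) where
  carrier := {A | Sym3 A ∧ (∀ s u, tri A (l s) (l s) u = 0) ∧ (∀ s u, tri A (p s) (p s) u = 0) ∧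
    ∀ s t, tri A (l s) (l t) (fun m => y t (Fin.last n) * y s m.castSucc -
      y s (Fin.last n) * y t m.castSucc) = 0}
  add_mem' := fun hA hB => ⟨hA.1.add hB.1,
    fun s u => by rw [tri_add, hA.2.1, hB.2.1, add_zero],
    fun s u => by rw [tri_add, hA.2.2.1, hB.2.2.1, add_zero],
    fun s t => by rw [tri_add, hA.2.2.2, hB.2.2.2, add_zero]⟩
  zero_mem' := ⟨Sym3.zero, fun _ _ => tri_zero _ _ _, fun _ _ => tri_zero _ _ _,
    fun _ _ => tri_zero _ _ _⟩
  smul_mem' := fun t _ hA => ⟨hA.1.smul t,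
    fun s u => by rw [tri_smul, hA.2.1, mul_zero],
    fun s u => by rw [tri_smul, hA.2.2.1, mul_zero],
    fun s t => by rw [tri_smul, hA.2.2.2, mul_zero]⟩

/-- generic version -/
def TahLe (n a b t : ℕ) : Prop :=
  ∀ (l : Fin a → Fin n → ℂ) (p : Fin b → Fin n → ℂ) (y : Fin a → Fin (n + 1) → ℂ),
    AlgebraicIndependent ℚ (Sum.elim (fun q : Fin a × Fin n => l q.1 q.2)
      (Sum.elim (fun q : Fin b × Fin n => p q.1 q.2)
        (fun q : Fin a × Fin (n + 1) => y q.1 q.2))) → finrank ℂ (tahS l p y) ≤ t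

/-- the canonical number of double points -/
def XX (j : ℕ) : ℕ := (3 * j ^ 2 + 8 * j + 7) / 18

end H80T
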