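import Mathlib
import Pool.Agent.H80T.Defs2
import Pool.Agent.H80R.Hyper2

namespace H80T

open Module

/-- cubic forms with double points `w j` -/
def dpS {ι : Type} {N : ℕ} (w : ι → Fin N → ℂ) : Submodule ℂ (Fin N → Fin N → Fin N → ℂ) where
  carrier := {A | Sym3 A ∧ ∀ j u, tri A (w j) (w j) u = 0}
  add_mem' := fun hA hB => ⟨hA.1.add hB.1, fun s u => by rw [tri_add, hA.2, hB.2, add_zero]⟩
  zero_mem' := ⟨Sym3.zero, fun _ _ => tri_zero _ _ _⟩
  smul_mem' := fun t _ hA => ⟨hA.1.smul t, fun s u => by rw [tri_smul, hA.2, mul_zero]⟩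

variable {n k a b r : ℕ}

/-- the summands which are not on the hyperplane -/
abbrev JJ (T : H80R.Dec n k a b r) : Type := {j : Fin r // T.w j (Fin.last n) ≠ 0}

/-- number of summands off the hyperplane -/
noncomputable def uu (T : H80R.Dec n k a b r) : ℕ := Nat.card (JJ T)

/-- the span of the summands off the hyperplane -/
def PJ (T : H80R.Dec n k a b r) : Submodule ℂ (Fin (n + 1) → ℂ) :=
  Submodule.span ℂ (Set.range (fun j : JJ T => T.w j.1))

/-- the base points of the tangent vectors, as points of `ℂ^(n+1)` -/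
def LL (T : H80R.Dec n k a b r) (s : Fin a) : Fin (n + 1) → ℂ := Fin.snoc (T.pl s) 0

/-- the simple points, as points of `ℂ^(n+1)` -/
def QQ (T : H80R.Dec n k a b r) (s : Fin b) : Fin (n + 1) → ℂ := Fin.snoc (T.pp s) 0

/-- the contraction of the tensor with the last coordinate, for `k = 3` -/
def Phi (T : H80R.Dec n 3 a b r) : Matrix (Fin (n + 1)) (Fin (n + 1)) ℂ :=
  Matrix.of fun l m => ∑ s, T.py s (Fin.last n) * (LL T s l * LL T s m)

/-- values of the derivations killing `Phi` -/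
def E1 (T : H80R.Dec n 3 a b r) : Submodule ℂ (Fin r → Fin (n + 1) → ℂ) where
  carrier := {v | ∃ D : Derivation ℚ ℂ ℂ, (∀ l m, D (Phi T l m) = 0) ∧ ∀ j l, v j l = D (T.w j l)}
  add_mem' := by
    rintro v v' ⟨D, h1, h2⟩ ⟨D', h1', h2'⟩
    exact ⟨D + D', fun l m => by simp [h1, h1'], fun j l => by simp [h2, h2']⟩
  zero_mem' := ⟨0, fun l m => by simp, fun j l => by simp⟩
  smul_mem' := by
    rintro c v ⟨D, h1, h2⟩
    exact ⟨c • D, fun l m => by simp [h1], fun j l => by simp [h2]⟩

end H80T
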