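import Mathlib
import Pool.Agent.H80T.Defs3

/-! KEY3: derivations applied to the decomposition, `k = 3`. -/

namespace H80T

open Module

variable {n a b r : ℕ}

/-- contraction with a fixed tensor, as a linear functional -/
def key3_ctr {N : ℕ} (A : Fin N → Fin N → Fin N → ℂ) :
    (Fin N → Fin N → Fin N → ℂ) →ₗ[ℂ] ℂ where
  toFun t := ∑ l, ∑ m, ∑ q, A l m q * t l m q
  map_add' t t' := by
    simp only [Pi.add_apply, mul_add, Finset.sum_add_distrib]
  map_smul' c t := by
    simp only [Pi.smul_apply, smul_eq_mul, Finset.mul_sum, RingHom.id_apply]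
    refine Finset.sum_congr rfl fun _ _ => Finset.sum_congr rfl fun _ _ =>
      Finset.sum_congr rfl fun _ _ => ?_
    ring

/-- rank one tensors -/
def key3_o {N : ℕ} (u v w : Fin N → ℂ) : Fin N → Fin N → Fin N → ℂ :=
  fun l m q => u l * v m * w q

theorem key3_ctr_o {N : ℕ} (A : Fin N → Fin N → Fin N → ℂ) (u v w : Fin N → ℂ) :
    key3_ctr A (key3_o u v w) = tri A u v w := rfl

theorem tri_swap12 {N : ℕ} {A : Fin N → Fin N → Fin N → ℂ} (hA : Sym3 A) (u v w : Fin N → ℂ) :
    tri A u v w = tri A v u w := by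
  unfold tri
  rw [Finset.sum_comm]
  refine Finset.sum_congr rfl fun p _ => Finset.sum_congr rfl fun q _ =>
      Finset.sum_congr rfl fun t _ => ?_
  rw [hA.1 q p t]
  ring

theorem tri_swap23 {N : ℕ} {A : Fin N → Fin N → Fin N → ℂ} (hA : Sym3 A) (u v w : Fin N → ℂ) :
    tri A u v w = tri A u w v := by
  unfold tri
  refine Finset.sum_congr rfl fun p _ => ?_
  rw [Finset.sum_comm]
  refine Finset.sum_congr rfl fun q _ => Finset.sum_congr rfl fun t _ => ?_
  rw [hA.2 p t q]
  ring

theorem key3_pw {N : ℕ} (w : Fin N → ℂ) (l m q : Fin N) :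
    H80R.pw 3 w ![l, m, q] = w l * w m * w q := by
  simp [H80R.pw, Fin.prod_univ_three]

theorem key3_tt {N : ℕ} (x y : Fin N → ℂ) (l m q : Fin N) :
    H80R.tt 3 x y ![l, m, q] =
      y l * (x m * x q) + y m * (x l * x q) + y q * (x l * x m) := by
  have e0 : (Finset.univ : Finset (Fin 3)).erase 0 = {1, 2} := by decide
  have e1 : (Finset.univ : Finset (Fin 3)).erase 1 = {0, 2} := by decide
  have e2 : (Finset.univ : Finset (Fin 3)).erase 2 = {0, 1} := by decide
  simp [H80R.tt, Fin.sum_univ_three, e0, e1, e2]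

theorem key3_eq (T : H80R.Dec n 3 a b r) (l m q : Fin (n + 1)) :
    ∑ s, (T.py s l * (LL T s m * LL T s q) + T.py s m * (LL T s l * LL T s q) +
      T.py s q * (LL T s l * LL T s m)) + ∑ s, QQ T s l * QQ T s m * QQ T s q =
      ∑ j, T.w j l * T.w j m * T.w j q := by
  have h := T.hT ![l, m, q]
  simp only [key3_pw, key3_tt] at h
  exact h

/-- Apply a derivation to the decomposition and contract with a symmetric `A`. -/
theorem key3 (T : H80R.Dec n 3 a b r) (D : Derivation ℚ ℂ ℂ)
    {A : Fin (n + 1) → Fin (n + 1) → Fin (n + 1) → ℂ} (hA : Sym3 A) :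
    ∑ s, (tri A (LL T s) (LL T s) (fun l => D (T.py s l)) +
      2 * tri A (LL T s) (fun l => D (LL T s l)) (T.py s)) +
      ∑ s, tri A (QQ T s) (QQ T s) (fun l => D (QQ T s l)) =
      ∑ j, tri A (T.w j) (T.w j) (fun l => D (T.w j l)) := by
  have h1 : ∑ s, ((key3_o (fun l => D (T.py s l)) (LL T s) (LL T s) +
      key3_o (T.py s) (fun l => D (LL T s l)) (LL T s) +
      key3_o (T.py s) (LL T s) (fun l => D (LL T s l))) +
      (key3_o (LL T s) (fun l => D (T.py s l)) (LL T s) +
      key3_o (fun l => D (LL T s l)) (T.py s) (LL T s) +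
      key3_o (LL T s) (T.py s) (fun l => D (LL T s l))) +
      (key3_o (LL T s) (LL T s) (fun l => D (T.py s l)) +
      key3_o (fun l => D (LL T s l)) (LL T s) (T.py s) +
      key3_o (LL T s) (fun l => D (LL T s l)) (T.py s))) +
      ∑ s, (key3_o (fun l => D (QQ T s l)) (QQ T s) (QQ T s) +
        key3_o (QQ T s) (fun l => D (QQ T s l)) (QQ T s) +
        key3_o (QQ T s) (QQ T s) (fun l => D (QQ T s l))) =
      ∑ j, (key3_o (fun l => D (T.w j l)) (T.w j) (T.w j) +
        key3_o (T.w j) (fun l => D (T.w j l)) (T.w j) +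
        key3_o (T.w j) (T.w j) (fun l => D (T.w j l))) := by
    funext l m q
    have h := congrArg D (key3_eq T l m q)
    simp only [map_add, map_sum, Derivation.leibniz, smul_eq_mul] at h
    simp only [Pi.add_apply, Finset.sum_apply, key3_o]
    refine Eq.trans (congrArg₂ (· + ·) ?_ ?_) (h.trans ?_)
    · exact Finset.sum_congr rfl fun s _ => by ring
    · exact Finset.sum_congr rfl fun s _ => by ring
    · exact Finset.sum_congr rfl fun s _ => by ring
  have h2 := congrArg (key3_ctr A) h1
  simp only [map_add, map_sum, key3_ctr_o] at h2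
  have h3 : ∀ x y z : Fin (n + 1) → ℂ, tri A x y z = tri A z y x := by
    intro x y z
    rw [tri_swap12 hA, tri_swap23 hA, tri_swap12 hA]
  have h4 : ∀ x y : Fin (n + 1) → ℂ, tri A y x x = tri A x x y := fun x y => h3 y x x
  have h5 : ∀ x y : Fin (n + 1) → ℂ, tri A x y x = tri A x x y := fun x y =>
    tri_swap23 hA x y x
  have h6 : (3 : ℂ) * (∑ s, (tri A (LL T s) (LL T s) (fun l => D (T.py s l)) +
      2 * tri A (LL T s) (fun l => D (LL T s l)) (T.py s)) +
      ∑ s, tri A (QQ T s) (QQ T s) (fun l => D (QQ T s l))) =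
      3 * ∑ j, tri A (T.w j) (T.w j) (fun l => D (T.w j l)) := by
    rw [mul_add, Finset.mul_sum, Finset.mul_sum, Finset.mul_sum]
    refine Eq.trans (congrArg₂ (· + ·) ?_ ?_) (h2.trans ?_)
    · refine Finset.sum_congr rfl fun s _ => ?_
      rw [h4 (LL T s), h5 (LL T s), h3 (T.py s) (fun l => D (LL T s l)) (LL T s),
        h3 (T.py s) (LL T s) (fun l => D (LL T s l)),
        tri_swap12 hA (fun l => D (LL T s l)) (T.py s) (LL T s),
        tri_swap23 hA (LL T s) (T.py s) (fun l => D (LL T s l)),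
        tri_swap12 hA (fun l => D (LL T s l)) (LL T s) (T.py s),
        h3 (T.py s) (fun l => D (LL T s l)) (LL T s)]
      ring
    · refine Finset.sum_congr rfl fun s _ => ?_
      rw [h4, h5]
      ring
    · refine Finset.sum_congr rfl fun s _ => ?_
      rw [h4, h5]
      ring
  exact mul_left_cancel₀ (by norm_num) h6

/-- The contraction of the tensor with the last coordinate. -/
theorem phi_eq (T : H80R.Dec n 3 a b r) (l m : Fin (n + 1)) :
    Phi T l m = ∑ j, T.w j (Fin.last n) * (T.w j l * T.w j m) := by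
  have h := key3_eq T (Fin.last n) l m
  have e1 : ∀ s, LL T s (Fin.last n) = 0 := fun s => by simp [LL]
  have e2 : ∀ s, QQ T s (Fin.last n) = 0 := fun s => by simp [QQ]
  simp only [e1, e2, zero_mul, mul_zero, add_zero, Finset.sum_const_zero, mul_assoc] at h
  rw [← h]
  rfl

/-- The contraction with the square of the last coordinate. -/
theorem rel_eq (T : H80R.Dec n 3 a b r) (l : Fin (n + 1)) :
    ∑ j, T.w j (Fin.last n) ^ 2 * T.w j l = 0 := by
  have h := phi_eq T (Fin.last n) l
  have e1 : ∀ s, LL T s (Fin.last n) = 0 := fun s => by simp [LL]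
  have h0 : Phi T (Fin.last n) l = 0 := by
    simp [Phi, e1]
  rw [h0] at h
  rw [h]
  refine Finset.sum_congr rfl fun j _ => ?_
  ring

end H80T
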