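import Mathlib
import Pool.Agent.H80T.Defs3

/-! Auxiliary lemmas on trilinear forms and on derivations applied to a decomposition. -/

namespace H80T

namespace TriAux

open Module

variable {N : ℕ}

theorem tri_add1 (A : Fin N → Fin N → Fin N → ℂ) (u u' v w : Fin N → ℂ) :
    tri A (u + u') v w = tri A u v w + tri A u' v w := by
  simp only [tri, Pi.add_apply, ← Finset.sum_add_distrib]
  refine Finset.sum_congr rfl fun a _ => Finset.sum_congr rfl fun b _ =>
    Finset.sum_congr rfl fun c _ => ?_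
  ring

theorem tri_add2 (A : Fin N → Fin N → Fin N → ℂ) (u v v' w : Fin N → ℂ) :
    tri A u (v + v') w = tri A u v w + tri A u v' w := by
  simp only [tri, Pi.add_apply, ← Finset.sum_add_distrib]
  refine Finset.sum_congr rfl fun a _ => Finset.sum_congr rfl fun b _ =>
    Finset.sum_congr rfl fun c _ => ?_
  ring

theorem tri_add3 (A : Fin N → Fin N → Fin N → ℂ) (u v w w' : Fin N → ℂ) :
    tri A u v (w + w') = tri A u v w + tri A u v w' := by
  simp only [tri, Pi.add_apply, ← Finset.sum_add_distrib]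
  refine Finset.sum_congr rfl fun a _ => Finset.sum_congr rfl fun b _ =>
    Finset.sum_congr rfl fun c _ => ?_
  ring

theorem tri_smul1 (A : Fin N → Fin N → Fin N → ℂ) (t : ℂ) (u v w : Fin N → ℂ) :
    tri A (t • u) v w = t * tri A u v w := by
  simp only [tri, Pi.smul_apply, smul_eq_mul, Finset.mul_sum]
  refine Finset.sum_congr rfl fun a _ => Finset.sum_congr rfl fun b _ =>
    Finset.sum_congr rfl fun c _ => ?_
  ring

theorem tri_smul2 (A : Fin N → Fin N → Fin N → ℂ) (t : ℂ) (u v w : Fin N → ℂ) :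
    tri A u (t • v) w = t * tri A u v w := by
  simp only [tri, Pi.smul_apply, smul_eq_mul, Finset.mul_sum]
  refine Finset.sum_congr rfl fun a _ => Finset.sum_congr rfl fun b _ =>
    Finset.sum_congr rfl fun c _ => ?_
  ring

theorem tri_smul3 (A : Fin N → Fin N → Fin N → ℂ) (t : ℂ) (u v w : Fin N → ℂ) :
    tri A u v (t • w) = t * tri A u v w := by
  simp only [tri, Pi.smul_apply, smul_eq_mul, Finset.mul_sum]
  refine Finset.sum_congr rfl fun a _ => Finset.sum_congr rfl fun b _ =>
    Finset.sum_congr rfl fun c _ => ?_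
  ring

@[simp] theorem tri_zero1 (A : Fin N → Fin N → Fin N → ℂ) (v w : Fin N → ℂ) :
    tri A 0 v w = 0 := by simp [tri]

@[simp] theorem tri_zero2 (A : Fin N → Fin N → Fin N → ℂ) (u w : Fin N → ℂ) :
    tri A u 0 w = 0 := by simp [tri]

@[simp] theorem tri_zero3 (A : Fin N → Fin N → Fin N → ℂ) (u v : Fin N → ℂ) :
    tri A u v 0 = 0 := by simp [tri]

theorem tri_swap12 {A : Fin N → Fin N → Fin N → ℂ} (hA : Sym3 A) (u v w : Fin N → ℂ) :
    tri A u v w = tri A v u w := by
  unfold tri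
  rw [Finset.sum_comm]
  refine Finset.sum_congr rfl fun a _ => Finset.sum_congr rfl fun b _ =>
    Finset.sum_congr rfl fun c _ => ?_
  rw [hA.1 b a c]
  ring

theorem tri_swap23 {A : Fin N → Fin N → Fin N → ℂ} (hA : Sym3 A) (u v w : Fin N → ℂ) :
    tri A u v w = tri A u w v := by
  unfold tri
  refine Finset.sum_congr rfl fun a _ => ?_
  rw [Finset.sum_comm]
  refine Finset.sum_congr rfl fun b _ => Finset.sum_congr rfl fun c _ => ?_
  rw [hA.2 a c b]
  ring

theorem tri_single (A : Fin N → Fin N → Fin N → ℂ) (l m q : Fin N) :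
    tri A (Pi.single l 1) (Pi.single m 1) (Pi.single q 1) = A l m q := by
  unfold tri
  rw [Finset.sum_eq_single l, Finset.sum_eq_single m, Finset.sum_eq_single q]
  · simp
  · intro c _ hc; simp [hc]
  · simp
  · intro b _ hb; simp [hb]
  · simp
  · intro a _ ha; simp [ha]
  · simp

theorem bil_add1 {W : Type*} [Fintype W] (B : W → W → ℂ) (u u' v : W → ℂ) :
    bil B (u + u') v = bil B u v + bil B u' v := by
  simp only [bil, Pi.add_apply, ← Finset.sum_add_distrib]
  refine Finset.sum_congr rfl fun a _ => Finset.sum_congr rfl fun b _ => ?_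
  ring

theorem bil_smul1 {W : Type*} [Fintype W] (B : W → W → ℂ) (t : ℂ) (u v : W → ℂ) :
    bil B (t • u) v = t * bil B u v := by
  simp only [bil, Pi.smul_apply, smul_eq_mul, Finset.mul_sum]
  refine Finset.sum_congr rfl fun a _ => Finset.sum_congr rfl fun b _ => ?_
  ring

theorem bil_symm {W : Type*} [Fintype W] {B : W → W → ℂ} (hB : ∀ l m, B l m = B m l)
    (u v : W → ℂ) : bil B u v = bil B v u := by
  unfold bil
  rw [Finset.sum_comm]
  refine Finset.sum_congr rfl fun a _ => Finset.sum_congr rfl fun b _ => ?_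
  rw [hB b a]
  ring

theorem bil_single {W : Type*} [Fintype W] [DecidableEq W] (B : W → W → ℂ) (l m : W) :
    bil B (Pi.single l 1) (Pi.single m 1) = B l m := by
  unfold bil
  rw [Finset.sum_eq_single l, Finset.sum_eq_single m]
  · simp
  · intro c _ hc; simp [hc]
  · simp
  · intro b _ hb; simp [hb]
  · simp

variable {n a b r : ℕ}

/-- a derivation with prescribed values on the parameters -/
theorem exists_der {k : ℕ} (T : H80R.Dec n k a b r) (cl : Fin a → Fin n → ℂ)
    (cp : Fin b → Fin n → ℂ) (cy : Fin a → Fin (n + 1) → ℂ) :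
    ∃ D : Derivation ℚ ℂ ℂ, (∀ s, (fun l => D (LL T s l)) = (Fin.snoc (cl s) 0 : Fin (n + 1) → ℂ)) ∧
      (∀ s, (fun l => D (QQ T s l)) = (Fin.snoc (cp s) 0 : Fin (n + 1) → ℂ)) ∧
      (∀ s, (fun l => D (T.py s l)) = cy s) := by
  obtain ⟨D, hD⟩ := H80R.exists_derivation _ T.halg
    (Sum.elim (fun q : Fin a × Fin n => cl q.1 q.2)
    (Sum.elim (fun q : Fin b × Fin n => cp q.1 q.2)
      (fun q : Fin a × Fin (n + 1) => cy q.1 q.2)))
  refine ⟨D, ?_, ?_, ?_⟩
  · intro s
    ext l
    refine Fin.lastCases ?_ (fun l => ?_) l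
    · simp [LL]
    · simp only [LL, Fin.snoc_castSucc]
      exact hD (Sum.inl (s, l))
  · intro s
    ext l
    refine Fin.lastCases ?_ (fun l => ?_) l
    · simp [QQ]
    · simp only [QQ, Fin.snoc_castSucc]
      exact hD (Sum.inr (Sum.inl (s, l)))
  · intro s
    ext l
    exact hD (Sum.inr (Sum.inr (s, l)))

@[simp] theorem snoc_zero : (Fin.snoc (0 : Fin n → ℂ) 0 : Fin (n + 1) → ℂ) = 0 := by
  ext l
  refine Fin.lastCases ?_ (fun l => ?_) l <;> simp

theorem snoc_neg (c : Fin n → ℂ) :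
    (Fin.snoc (-c) 0 : Fin (n + 1) → ℂ) = (-1 : ℂ) • (Fin.snoc c 0 : Fin (n + 1) → ℂ) := by
  ext l
  refine Fin.lastCases ?_ (fun l => ?_) l <;> simp

theorem snoc_smul (t : ℂ) (c : Fin n → ℂ) :
    (Fin.snoc (t • c) 0 : Fin (n + 1) → ℂ) = t • (Fin.snoc c 0 : Fin (n + 1) → ℂ) := by
  ext l
  refine Fin.lastCases ?_ (fun l => ?_) l <;> simp

/-- trilinear form on three vectors of the hyperplane -/
theorem tri_snoc (A : Fin (n + 1) → Fin (n + 1) → Fin (n + 1) → ℂ) (u v w : Fin n → ℂ) :
    tri A (Fin.snoc u 0) (Fin.snoc v 0) (Fin.snoc w 0) =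
      tri (fun l m q : Fin n => A l.castSucc m.castSucc q.castSucc) u v w := by
  simp [tri, Fin.sum_univ_castSucc]

end TriAux

end H80T
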