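import Mathlib
import Pool.Agent.H80T.Key3
import Pool.Agent.H80T.TriAux

/-! LOW3: lower bound for the dimension of the space of values of derivations, `k = 3`. -/

namespace H80T

open Module TriAux

variable {n a b r : ℕ}

namespace Low3

/-- the space of cubic forms -/
def S3 (n : ℕ) : Submodule ℂ (Fin n → Fin n → Fin n → ℂ) where
  carrier := {A | Sym3 A}
  add_mem' := fun hA hB => hA.add hB
  zero_mem' := Sym3.zero
  smul_mem' := fun t _ hA => hA.smul t

/-- the cubic form with given coefficients -/
def ofSym (n : ℕ) : (Sym (Fin n) 3 → ℂ) →ₗ[ℂ] S3 n where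
  toFun f := ⟨fun l m q => f (l ::ₛ m ::ₛ q ::ₛ Sym.nil), by
    constructor
    · intro l m q
      change f (l ::ₛ m ::ₛ q ::ₛ Sym.nil) = f (m ::ₛ l ::ₛ q ::ₛ Sym.nil)
      rw [Sym.cons_swap]
    · intro l m q
      change f (l ::ₛ m ::ₛ q ::ₛ Sym.nil) = f (l ::ₛ q ::ₛ m ::ₛ Sym.nil)
      rw [Sym.cons_swap m q]⟩
  map_add' f g := rfl
  map_smul' t f := rfl

theorem multichoose_le (n : ℕ) : n.multichoose 3 ≤ finrank ℂ (S3 n) := by
  have h1 : finrank ℂ (Sym (Fin n) 3 → ℂ) = n.multichoose 3 := by
    rw [finrank_fintype_fun_eq_card, Sym.card_sym_eq_multichoose, Fintype.card_fin]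
  rw [← h1]
  apply LinearMap.finrank_le_finrank_of_injective (f := ofSym n)
  intro f g hfg
  funext s
  obtain ⟨l, s1, rfl⟩ := s.exists_eq_cons_of_succ
  obtain ⟨m, s2, rfl⟩ := s1.exists_eq_cons_of_succ
  obtain ⟨q, s3, rfl⟩ := s2.exists_eq_cons_of_succ
  have h2 : s3 = Sym.nil := Subsingleton.elim _ _
  subst h2
  have h3 := congrArg Subtype.val hfg
  exact congrFun (congrFun (congrFun h3 l) m) q

/-- extension by zero -/
def ex0 (A : Fin n → Fin n → Fin n → ℂ) : Fin (n + 1) → Fin (n + 1) → Fin (n + 1) → ℂ :=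
  fun l m q => Fin.lastCases (motive := fun _ => ℂ) 0
    (fun l' => Fin.lastCases (motive := fun _ => ℂ) 0
      (fun m' => Fin.lastCases (motive := fun _ => ℂ) 0 (fun q' => A l' m' q') q) m) l

@[simp] theorem ex0_cast (A : Fin n → Fin n → Fin n → ℂ) (l m q : Fin n) :
    ex0 A l.castSucc m.castSucc q.castSucc = A l m q := by
  simp [ex0]

@[simp] theorem ex0_last1 (A : Fin n → Fin n → Fin n → ℂ) (m q : Fin (n + 1)) :
    ex0 A (Fin.last n) m q = 0 := by
  simp [ex0]

@[simp] theorem ex0_last2 (A : Fin n → Fin n → Fin n → ℂ) (l q : Fin (n + 1)) :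
    ex0 A l (Fin.last n) q = 0 := by
  refine Fin.lastCases ?_ (fun l => ?_) l
  · simp
  · simp [ex0]

@[simp] theorem ex0_last3 (A : Fin n → Fin n → Fin n → ℂ) (l m : Fin (n + 1)) :
    ex0 A l m (Fin.last n) = 0 := by
  refine Fin.lastCases ?_ (fun l => ?_) l
  · simp
  · refine Fin.lastCases ?_ (fun m => ?_) m
    · simp
    · simp [ex0]

theorem ex0_sym {A : Fin n → Fin n → Fin n → ℂ} (hA : Sym3 A) : Sym3 (ex0 A) := by
  constructor
  · intro l m q
    refine Fin.lastCases ?_ (fun l => ?_) l
    · simp
    · refine Fin.lastCases ?_ (fun m => ?_) m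
      · simp
      · refine Fin.lastCases ?_ (fun q => ?_) q
        · simp
        · simp only [ex0_cast]
          exact hA.1 _ _ _
  · intro l m q
    refine Fin.lastCases ?_ (fun l => ?_) l
    · simp
    · refine Fin.lastCases ?_ (fun m => ?_) m
      · simp
      · refine Fin.lastCases ?_ (fun q => ?_) q
        · simp
        · simp only [ex0_cast]
          exact hA.2 _ _ _

theorem tri_ex0 (A : Fin n → Fin n → Fin n → ℂ) (u v w : Fin (n + 1) → ℂ) :
    tri (ex0 A) u v w = tri A (fun l => u l.castSucc) (fun l => v l.castSucc)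
      (fun l => w l.castSucc) := by
  simp [tri, Fin.sum_univ_castSucc]

theorem ex0_add (A B : Fin n → Fin n → Fin n → ℂ) : ex0 (A + B) = ex0 A + ex0 B := by
  funext l m q
  refine Fin.lastCases ?_ (fun l => ?_) l
  · simp
  · refine Fin.lastCases ?_ (fun m => ?_) m
    · simp
    · refine Fin.lastCases ?_ (fun q => ?_) q
      · simp
      · simp

theorem ex0_smul (t : ℂ) (A : Fin n → Fin n → Fin n → ℂ) : ex0 (t • A) = t • ex0 A := by
  funext l m q
  refine Fin.lastCases ?_ (fun l => ?_) l
  · simp
  · refine Fin.lastCases ?_ (fun m => ?_) m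
    · simp
    · refine Fin.lastCases ?_ (fun q => ?_) q
      · simp
      · simp

/-- the pairing of cubic forms and values of derivations -/
noncomputable def pairing (T : H80R.Dec n 3 a b r) : S3 n →ₗ[ℂ] Dual ℂ (E1 T) where
  toFun A :=
    { toFun := fun v => ∑ j, tri (ex0 A.1) (T.w j) (T.w j) (v.1 j)
      map_add' := by
        intro v v'
        rw [← Finset.sum_add_distrib]
        exact Finset.sum_congr rfl fun j _ => tri_add3 _ _ _ _ _
      map_smul' := by
        intro t v
        simp only [RingHom.id_apply, smul_eq_mul]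
        rw [Finset.mul_sum]
        exact Finset.sum_congr rfl fun j _ => tri_smul3 _ _ _ _ _ }
  map_add' A B := by
    ext v
    change ∑ j, tri (ex0 (A.1 + B.1)) (T.w j) (T.w j) (v.1 j) =
      ∑ j, tri (ex0 A.1) (T.w j) (T.w j) (v.1 j) + ∑ j, tri (ex0 B.1) (T.w j) (T.w j) (v.1 j)
    rw [← Finset.sum_add_distrib, ex0_add]
    exact Finset.sum_congr rfl fun j _ => tri_add _ _ _ _ _
  map_smul' t A := by
    ext v
    change ∑ j, tri (ex0 (t • A.1)) (T.w j) (T.w j) (v.1 j) =
      t * ∑ j, tri (ex0 A.1) (T.w j) (T.w j) (v.1 j)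
    rw [Finset.mul_sum, ex0_smul]
    exact Finset.sum_congr rfl fun j _ => tri_smul _ _ _ _ _

/-- the derivation kills the contraction -/
theorem der_phi (T : H80R.Dec n 3 a b r) (D : Derivation ℚ ℂ ℂ) (l m : Fin (n + 1)) :
    D (Phi T l m) = ∑ s, (D (T.py s (Fin.last n)) * (LL T s l * LL T s m) +
      T.py s (Fin.last n) * (D (LL T s l) * LL T s m + LL T s l * D (LL T s m))) := by
  simp only [Phi, Matrix.of_apply, map_sum, Derivation.leibniz, smul_eq_mul]
  refine Finset.sum_congr rfl fun s _ => ?_
  ring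

theorem ker_sub (T : H80R.Dec n 3 a b r) (A : S3 n) (hA : pairing T A = 0) :
    A.1 ∈ tahS T.pl T.pp T.py := by
  classical
  have hS : Sym3 A.1 := A.2
  have hL : ∀ s, (fun l : Fin n => LL T s l.castSucc) = T.pl s := by
    intro s; ext l; simp [LL]
  have hQ : ∀ s, (fun l : Fin n => QQ T s l.castSucc) = T.pp s := by
    intro s; ext l; simp [QQ]
  have key : ∀ (cl : Fin a → Fin n → ℂ) (cp : Fin b → Fin n → ℂ) (cy : Fin a → Fin (n + 1) → ℂ),
      (∀ l m, ∑ s, (cy s (Fin.last n) * (LL T s l * LL T s m) +
        T.py s (Fin.last n) * ((Fin.snoc (cl s) 0 : Fin (n + 1) → ℂ) l * LL T s m +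
          LL T s l * (Fin.snoc (cl s) 0 : Fin (n + 1) → ℂ) m)) = 0) →
      ∑ s, (tri A.1 (T.pl s) (T.pl s) (fun l => cy s l.castSucc) +
        2 * tri A.1 (T.pl s) (cl s) (fun l => T.py s l.castSucc)) +
        ∑ s, tri A.1 (T.pp s) (T.pp s) (cp s) = 0 := by
    intro cl cp cy hphi
    obtain ⟨D, h1, h2, h3⟩ := exists_der T cl cp cy
    have h4 := key3 T D (ex0_sym hS)
    simp only [h1, h2, h3] at h4
    have h5 : (fun j l => D (T.w j l)) ∈ E1 T := by
      refine ⟨D, ?_, fun j l => rfl⟩
      intro l m
      rw [der_phi]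
      have h6 := hphi l m
      have e1 : ∀ s l, D (LL T s l) = (Fin.snoc (cl s) 0 : Fin (n + 1) → ℂ) l :=
        fun s l => congrFun (h1 s) l
      have e3 : ∀ s l, D (T.py s l) = cy s l := fun s l => congrFun (h3 s) l
      simp only [e1, e3]
      exact h6
    have h6 := congrArg (fun f => f ⟨_, h5⟩) hA
    change ∑ j, tri (ex0 A.1) (T.w j) (T.w j) (fun l => D (T.w j l)) = 0 at h6
    rw [h6] at h4
    simp only [tri_ex0, hL, hQ, Fin.snoc_castSucc] at h4
    exact h4
  refine ⟨hS, ?_, ?_, ?_⟩
  · intro s u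
    have h := key 0 0 (Pi.single s (Fin.snoc u 0)) (by
      intro l m
      apply Finset.sum_eq_zero
      intro t _
      have h1 : (Pi.single s (Fin.snoc u 0 : Fin (n + 1) → ℂ) : Fin a → Fin (n + 1) → ℂ) t
          (Fin.last n) = 0 := by
        by_cases ht : t = s
        · subst ht; simp
        · simp [ht]
      rw [h1]
      simp)
    rw [Finset.sum_eq_single s] at h
    · simpa using h
    · intro t _ ht
      have h0 : (fun l : Fin n => (Pi.single s (Fin.snoc u 0 : Fin (n + 1) → ℂ) :
        Fin a → Fin (n + 1) → ℂ) t l.castSucc) = 0 := by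
        ext l; simp [ht]
      rw [h0]
      simp
    · simp
  · intro s u
    have h := key 0 (Pi.single s u) 0 (by
      intro l m
      apply Finset.sum_eq_zero
      intro t _
      simp)
    have h0 : ∑ s, (tri A.1 (T.pl s) (T.pl s) (fun l => (0 : Fin a → Fin (n + 1) → ℂ) s
        l.castSucc) + 2 * tri A.1 (T.pl s) ((0 : Fin a → Fin n → ℂ) s)
          (fun l => T.py s l.castSucc)) = 0 := by
      apply Finset.sum_eq_zero
      intro t _
      have h1 : (fun l : Fin n => (0 : Fin a → Fin (n + 1) → ℂ) t l.castSucc) = 0 := rfl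
      rw [h1]
      simp
    rw [h0, zero_add, Finset.sum_eq_single s] at h
    · simpa using h
    · intro t _ ht
      simp [ht]
    · simp
  · intro s t
    by_cases hst : s = t
    · subst hst
      have h0 : (fun m : Fin n => T.py s (Fin.last n) * T.py s m.castSucc -
          T.py s (Fin.last n) * T.py s m.castSucc) = 0 := by
        ext m; simp
      rw [h0]
      simp
    · have h := key (Pi.single s (T.py t (Fin.last n) • T.pl t) +
        Pi.single t (-(T.py s (Fin.last n)) • T.pl s)) 0 0 (by
        intro l m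
        have hv : ∀ q : Fin a, q ≠ s → q ≠ t → (Pi.single s (T.py t (Fin.last n) • T.pl t) +
          Pi.single t (-(T.py s (Fin.last n)) • T.pl s) : Fin a → Fin n → ℂ) q = 0 := by
          intro q h1 h2
          simp [h1, h2]
        rw [← Finset.sum_subset (Finset.subset_univ {s, t})]
        · rw [Finset.sum_pair hst]
          have e1 : (Pi.single s (T.py t (Fin.last n) • T.pl t) +
            Pi.single t (-(T.py s (Fin.last n)) • T.pl s) : Fin a → Fin n → ℂ) s =
            T.py t (Fin.last n) • T.pl t := by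
            simp [hst]
          have e2 : (Pi.single s (T.py t (Fin.last n) • T.pl t) +
            Pi.single t (-(T.py s (Fin.last n)) • T.pl s) : Fin a → Fin n → ℂ) t =
            -(T.py s (Fin.last n)) • T.pl s := by
            simp [Ne.symm hst]
          rw [e1, e2, snoc_smul, snoc_smul]
          simp only [LL, Pi.smul_apply, smul_eq_mul, Pi.zero_apply, zero_mul, zero_add]
          ring
        · intro q _ hq
          simp only [Finset.mem_insert, Finset.mem_singleton, not_or] at hq
          rw [hv q hq.1 hq.2]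
          simp)
      have h0 : ∑ s, tri A.1 (T.pp s) (T.pp s) ((0 : Fin b → Fin n → ℂ) s) = 0 := by
        apply Finset.sum_eq_zero
        intro q _
        simp
      rw [h0, add_zero, ← Finset.sum_subset (Finset.subset_univ {s, t})] at h
      · rw [Finset.sum_pair hst] at h
        have e1 : (Pi.single s (T.py t (Fin.last n) • T.pl t) +
            Pi.single t (-(T.py s (Fin.last n)) • T.pl s) : Fin a → Fin n → ℂ) s =
            T.py t (Fin.last n) • T.pl t := by
            simp [hst]
        have e2 : (Pi.single s (T.py t (Fin.last n) • T.pl t) +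
            Pi.single t (-(T.py s (Fin.last n)) • T.pl s) : Fin a → Fin n → ℂ) t =
            -(T.py s (Fin.last n)) • T.pl s := by
            simp [Ne.symm hst]
        have e0 : ∀ q, (fun l : Fin n => (0 : Fin a → Fin (n + 1) → ℂ) q l.castSucc) = 0 :=
          fun q => rfl
        rw [e1, e2, e0, e0, tri_zero3, tri_zero3, tri_smul2, tri_smul2,
          tri_swap12 hS (T.pl t) (T.pl s)] at h
        have e3 : (fun m : Fin n => T.py t (Fin.last n) * T.py s m.castSucc -
            T.py s (Fin.last n) * T.py t m.castSucc) =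
            T.py t (Fin.last n) • (fun m : Fin n => T.py s m.castSucc) +
            (-(T.py s (Fin.last n))) • (fun m : Fin n => T.py t m.castSucc) := by
          ext m
          simp
          ring
        rw [e3, tri_add3, tri_smul3, tri_smul3]
        linear_combination h / 2
      · intro q _ hq
        simp only [Finset.mem_insert, Finset.mem_singleton, not_or] at hq
        have e0 : (fun l : Fin n => (0 : Fin a → Fin (n + 1) → ℂ) q l.castSucc) = 0 := rfl
        have hv : (Pi.single s (T.py t (Fin.last n) • T.pl t) +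
          Pi.single t (-(T.py s (Fin.last n)) • T.pl s) : Fin a → Fin n → ℂ) q = 0 := by
          simp [hq.1, hq.2]
        rw [e0, hv]
        simp

end Low3

open Low3 in
theorem E1_lower (T : H80R.Dec n 3 a b r) (t : ℕ)
    (ht : finrank ℂ (tahS T.pl T.pp T.py) ≤ t) :
    n.multichoose 3 ≤ t + finrank ℂ (E1 T) := by
  have h1 := multichoose_le n
  have h2 := (pairing T).finrank_range_add_finrank_ker
  have h3 : finrank ℂ (LinearMap.range (pairing T)) ≤ finrank ℂ (E1 T) := by
    rw [← Subspace.dual_finrank_eq (K := ℂ) (V := E1 T)]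
    exact Submodule.finrank_le _
  have h4 : finrank ℂ (LinearMap.ker (pairing T)) ≤ finrank ℂ (tahS T.pl T.pp T.py) := by
    let f : LinearMap.ker (pairing T) →ₗ[ℂ] tahS T.pl T.pp T.py :=
      { toFun := fun A => ⟨A.1.1, ker_sub T A.1 A.2⟩
        map_add' := fun A B => rfl
        map_smul' := fun t A => rfl }
    apply LinearMap.finrank_le_finrank_of_injective (f := f)
    intro A B hAB
    apply Subtype.ext
    apply Subtype.ext
    have h5 := congrArg (fun z : tahS T.pl T.pp T.py => z.1) hAB
    exact h5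
  omega

end H80T
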