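import Mathlib
import Pool.Agent.H80T.Key3
import Pool.Agent.H80T.TriAux

/-! INJ3: restriction of cubic forms singular at the summands to the hyperplane. -/

namespace H80T

open Module TriAux

variable {n a b r : ℕ}

theorem res_dp (T : H80R.Dec n 3 a b r) {A : Fin (n + 1) → Fin (n + 1) → Fin (n + 1) → ℂ}
    (hA : A ∈ dpS T.w) :
    (fun l m q : Fin n => A l.castSucc m.castSucc q.castSucc) ∈ tahS T.pl T.pp T.py := by
  classical
  obtain ⟨hS, hw⟩ := hA
  have key : ∀ (cl : Fin a → Fin n → ℂ) (cp : Fin b → Fin n → ℂ) (cy : Fin a → Fin (n + 1) → ℂ),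
      ∑ s, (tri A (LL T s) (LL T s) (cy s) +
        2 * tri A (LL T s) (Fin.snoc (cl s) 0) (T.py s)) +
        ∑ s, tri A (QQ T s) (QQ T s) (Fin.snoc (cp s) 0) = 0 := by
    intro cl cp cy
    obtain ⟨D, h1, h2, h3⟩ := exists_der T cl cp cy
    have h4 := key3 T D hS
    simp only [h1, h2, h3, hw, Finset.sum_const_zero] at h4
    exact h4
  have k1 : ∀ s (c : Fin (n + 1) → ℂ), tri A (LL T s) (LL T s) c = 0 := by
    intro s c
    have h := key 0 0 (Pi.single s c)
    rw [Finset.sum_eq_single s] at h
    · simpa using h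
    · intro t _ ht
      simp [ht]
    · simp
  have k2 : ∀ s (c : Fin n → ℂ), tri A (QQ T s) (QQ T s) (Fin.snoc c 0) = 0 := by
    intro s c
    have h := key 0 (Pi.single s c) 0
    have h0 : ∑ s, (tri A (LL T s) (LL T s) ((0 : Fin a → Fin (n + 1) → ℂ) s) +
        2 * tri A (LL T s) (Fin.snoc ((0 : Fin a → Fin n → ℂ) s) 0) (T.py s)) = 0 := by
      apply Finset.sum_eq_zero
      intro t _
      simp
    rw [h0, zero_add, Finset.sum_eq_single s] at h
    · simpa using h
    · intro t _ ht
      simp [ht]
    · simp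
  have k3 : ∀ s (c : Fin n → ℂ), tri A (LL T s) (Fin.snoc c 0) (T.py s) = 0 := by
    intro s c
    have h := key (Pi.single s c) 0 0
    have h0 : ∑ s, tri A (QQ T s) (QQ T s) (Fin.snoc ((0 : Fin b → Fin n → ℂ) s) 0) = 0 := by
      apply Finset.sum_eq_zero
      intro t _
      simp
    rw [h0, add_zero, Finset.sum_eq_single s] at h
    · simpa using h
    · intro t _ ht
      simp [ht]
    · simp
  have hy : ∀ s, T.py s = (Fin.snoc (fun m : Fin n => T.py s m.castSucc) 0 : Fin (n + 1) → ℂ) +
      T.py s (Fin.last n) • (Pi.single (Fin.last n) 1 : Fin (n + 1) → ℂ) := by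
    intro s
    ext l
    refine Fin.lastCases ?_ (fun l => ?_) l
    · simp
    · simp [(Fin.castSucc_lt_last l).ne]
  have k4 : ∀ s (c : Fin n → ℂ), tri A (LL T s) (Fin.snoc c 0)
      (Fin.snoc (fun m : Fin n => T.py s m.castSucc) 0) =
      -(T.py s (Fin.last n) * tri A (LL T s) (Fin.snoc c 0) (Pi.single (Fin.last n) 1)) := by
    intro s c
    have h := k3 s c
    rw [hy s, tri_add3, tri_smul3] at h
    linear_combination h
  refine ⟨⟨fun l m q => hS.1 _ _ _, fun l m q => hS.2 _ _ _⟩, ?_, ?_, ?_⟩
  · intro s u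
    rw [← tri_snoc]
    exact k1 s _
  · intro s u
    rw [← tri_snoc]
    exact k2 s _
  · intro s t
    rw [← tri_snoc]
    have h1 : (Fin.snoc (fun m => T.py t (Fin.last n) * T.py s m.castSucc -
        T.py s (Fin.last n) * T.py t m.castSucc) 0 : Fin (n + 1) → ℂ) =
        T.py t (Fin.last n) • (Fin.snoc (fun m : Fin n => T.py s m.castSucc) 0 :
          Fin (n + 1) → ℂ) + (-(T.py s (Fin.last n))) •
          (Fin.snoc (fun m : Fin n => T.py t m.castSucc) 0 : Fin (n + 1) → ℂ) := by
      ext l
      refine Fin.lastCases ?_ (fun l => ?_) l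
      · simp
      · simp
        ring
    rw [h1, tri_add3, tri_smul3, tri_smul3]
    have h2 := k4 s (T.pl t)
    have h3 := k4 t (T.pl s)
    have h4 : tri A (LL T s) (Fin.snoc (T.pl t) 0)
        (Fin.snoc (fun m : Fin n => T.py t m.castSucc) 0) =
        tri A (LL T t) (Fin.snoc (T.pl s) 0)
          (Fin.snoc (fun m : Fin n => T.py t m.castSucc) 0) := by
      rw [tri_swap12 hS]
      rfl
    have h5 : tri A (LL T s) (Fin.snoc (T.pl t) 0) (Pi.single (Fin.last n) 1) =
        tri A (LL T t) (Fin.snoc (T.pl s) 0) (Pi.single (Fin.last n) 1) := by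
      rw [tri_swap12 hS]
      rfl
    change T.py t (Fin.last n) * tri A (LL T s) (Fin.snoc (T.pl t) 0) _ +
      -(T.py s (Fin.last n)) * tri A (LL T s) (Fin.snoc (T.pl t) 0) _ = 0
    rw [h4, h2, h3, h5]
    ring

/-- A cubic form vanishing on the hyperplane is `x_n` times a quadratic form. -/
theorem exists_quad {A : Fin (n + 1) → Fin (n + 1) → Fin (n + 1) → ℂ} (hA : Sym3 A)
    (h0 : ∀ l m q : Fin n, A l.castSucc m.castSucc q.castSucc = 0) :
    ∃ B : Fin (n + 1) → Fin (n + 1) → ℂ, (∀ l m, B l m = B m l) ∧ (B = 0 → A = 0) ∧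
      ∀ u v w : Fin (n + 1) → ℂ, tri A u v w = u (Fin.last n) * bil B v w +
        v (Fin.last n) * bil B u w + w (Fin.last n) * bil B u v := by
  classical
  let z := Fin.last n
  let cc : Fin (n + 1) → Fin (n + 1) → ℂ := fun l m =>
    if l = z then (if m = z then 1 / 3 else 1 / 2) else (if m = z then 1 / 2 else 1)
  let B : Fin (n + 1) → Fin (n + 1) → ℂ := fun l m => cc l m * A z l m
  have hB : ∀ l m, B l m = B m l := by
    intro l m
    have h1 : cc l m = cc m l := by
      simp only [cc]
      split_ifs <;> rfl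
    simp only [B]
    rw [h1, hA.2]
  have key : ∀ u v w : Fin (n + 1) → ℂ, tri A u v w = u (Fin.last n) * bil B v w +
        v (Fin.last n) * bil B u w + w (Fin.last n) * bil B u v := by
    intro u v w
    have e1 : ∀ l m : Fin n, B l.castSucc m.castSucc = A z l.castSucc m.castSucc := by
      intro l m
      simp [B, cc, z, (Fin.castSucc_lt_last _).ne]
    have e2 : ∀ l : Fin n, B l.castSucc z = 1 / 2 * A z z l.castSucc := by
      intro l
      simp only [B, cc, z, (Fin.castSucc_lt_last _).ne, if_false, if_true]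
      rw [hA.2]
    have e3 : ∀ l : Fin n, B z l.castSucc = 1 / 2 * A z z l.castSucc := by
      intro l
      rw [hB, e2]
    have e4 : B z z = 1 / 3 * A z z z := by
      simp [B, cc]
    have f1 : ∀ l m : Fin n, A l.castSucc z m.castSucc = A z l.castSucc m.castSucc :=
      fun l m => hA.1 _ _ _
    have f2 : ∀ l m : Fin n, A l.castSucc m.castSucc z = A z l.castSucc m.castSucc := by
      intro l m
      rw [hA.2, hA.1]
    have f3 : ∀ l : Fin n, A l.castSucc z z = A z z l.castSucc := by
      intro l
      rw [hA.1, hA.2]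
    have f4 : ∀ l : Fin n, A z l.castSucc z = A z z l.castSucc := fun l => hA.2 _ _ _
    have hs : ∀ x y : Fin (n + 1) → ℂ, bil B x y =
        ∑ l : Fin n, ∑ m : Fin n, A z l.castSucc m.castSucc * (x l.castSucc * y m.castSucc) +
        (1 / 2 * y z * ∑ l : Fin n, A z z l.castSucc * x l.castSucc) +
        (1 / 2 * x z * ∑ l : Fin n, A z z l.castSucc * y l.castSucc) +
        1 / 3 * A z z z * (x z * y z) := by
      intro x y
      unfold bil
      rw [Fin.sum_univ_castSucc]
      simp only [Fin.sum_univ_castSucc]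
      change ∑ l : Fin n, (∑ m : Fin n, B l.castSucc m.castSucc * (x l.castSucc * y m.castSucc) +
        B l.castSucc z * (x l.castSucc * y z)) + (∑ m : Fin n, B z m.castSucc *
          (x z * y m.castSucc) + B z z * (x z * y z)) = _
      simp only [e1, e2, e3, e4, Finset.sum_add_distrib, Finset.mul_sum]
      have g1 : ∀ l : Fin n, 1 / 2 * A z z l.castSucc * (x l.castSucc * y z) =
        1 / 2 * y z * (A z z l.castSucc * x l.castSucc) := fun l => by ring
      have g2 : ∀ l : Fin n, 1 / 2 * A z z l.castSucc * (x z * y l.castSucc) =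
        1 / 2 * x z * (A z z l.castSucc * y l.castSucc) := fun l => by ring
      simp only [g1, g2]
      ring
    have ht : tri A u v w =
        (w z * ∑ l : Fin n, ∑ m : Fin n, A z l.castSucc m.castSucc *
          (u l.castSucc * v m.castSucc)) +
        (v z * ∑ l : Fin n, ∑ m : Fin n, A z l.castSucc m.castSucc *
          (u l.castSucc * w m.castSucc)) +
        (u z * ∑ l : Fin n, ∑ m : Fin n, A z l.castSucc m.castSucc *
          (v l.castSucc * w m.castSucc)) +
        (v z * w z * ∑ l : Fin n, A z z l.castSucc * u l.castSucc) +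
        (u z * w z * ∑ l : Fin n, A z z l.castSucc * v l.castSucc) +
        (u z * v z * ∑ l : Fin n, A z z l.castSucc * w l.castSucc) +
        A z z z * (u z * v z * w z) := by
      unfold tri
      rw [Fin.sum_univ_castSucc]
      simp only [Fin.sum_univ_castSucc]
      change ∑ l : Fin n, (∑ m : Fin n, (∑ q : Fin n, A l.castSucc m.castSucc q.castSucc *
          (u l.castSucc * v m.castSucc * w q.castSucc) + A l.castSucc m.castSucc z *
          (u l.castSucc * v m.castSucc * w z)) +
        (∑ q : Fin n, A l.castSucc z q.castSucc * (u l.castSucc * v z * w q.castSucc) +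
          A l.castSucc z z * (u l.castSucc * v z * w z))) +
        (∑ m : Fin n, (∑ q : Fin n, A z m.castSucc q.castSucc *
          (u z * v m.castSucc * w q.castSucc) + A z m.castSucc z *
          (u z * v m.castSucc * w z)) +
        (∑ q : Fin n, A z z q.castSucc * (u z * v z * w q.castSucc) +
          A z z z * (u z * v z * w z))) = _
      simp only [h0, f1, f2, f3, f4, zero_mul, Finset.sum_const_zero, zero_add,
        Finset.sum_add_distrib, Finset.mul_sum]
      have g1 : ∀ l m : Fin n, A z l.castSucc m.castSucc * (u l.castSucc * v m.castSucc * w z) =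
        w z * (A z l.castSucc m.castSucc * (u l.castSucc * v m.castSucc)) := fun l m => by ring
      have g2 : ∀ l m : Fin n, A z l.castSucc m.castSucc * (u l.castSucc * v z * w m.castSucc) =
        v z * (A z l.castSucc m.castSucc * (u l.castSucc * w m.castSucc)) := fun l m => by ring
      have g3 : ∀ l m : Fin n, A z l.castSucc m.castSucc * (u z * v l.castSucc * w m.castSucc) =
        u z * (A z l.castSucc m.castSucc * (v l.castSucc * w m.castSucc)) := fun l m => by ring
      have g4 : ∀ l : Fin n, A z z l.castSucc * (u l.castSucc * v z * w z) =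
        v z * w z * (A z z l.castSucc * u l.castSucc) := fun l => by ring
      have g5 : ∀ l : Fin n, A z z l.castSucc * (u z * v l.castSucc * w z) =
        u z * w z * (A z z l.castSucc * v l.castSucc) := fun l => by ring
      have g6 : ∀ l : Fin n, A z z l.castSucc * (u z * v z * w l.castSucc) =
        u z * v z * (A z z l.castSucc * w l.castSucc) := fun l => by ring
      simp only [g1, g2, g3, g4, g5, g6]
      ring
    rw [ht, hs, hs, hs]
    change _ = u z * _ + v z * _ + w z * _
    ring
  refine ⟨B, hB, ?_, key⟩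
  intro hB0
  funext l m q
  rw [← tri_single A l m q, key, hB0]
  simp

theorem inj_case (T : H80R.Dec n 3 a b r) (hP : PJ T = ⊤) :
    finrank ℂ (dpS T.w) ≤ finrank ℂ (tahS T.pl T.pp T.py) := by
  classical
  let ρ : dpS T.w →ₗ[ℂ] tahS T.pl T.pp T.py :=
    { toFun := fun A => ⟨fun l m q : Fin n => A.1 l.castSucc m.castSucc q.castSucc,
        res_dp T A.2⟩
      map_add' := fun A B => rfl
      map_smul' := fun t A => rfl }
  apply LinearMap.finrank_le_finrank_of_injective (f := ρ)
  rw [injective_iff_map_eq_zero]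
  rintro ⟨A, hA⟩ hA0
  have h0 : ∀ l m q : Fin n, A l.castSucc m.castSucc q.castSucc = 0 := by
    intro l m q
    have h1 := congrArg Subtype.val hA0
    exact congrFun (congrFun (congrFun h1 l) m) q
  obtain ⟨B, hB, hBA, hq⟩ := exists_quad hA.1 h0
  have h1 : ∀ (j : JJ T) v, bil B (T.w j.1) v = 0 := by
    rintro ⟨j, hj⟩ v
    simp only
    have h2 : ∀ v, 2 * T.w j (Fin.last n) * bil B (T.w j) v +
        v (Fin.last n) * bil B (T.w j) (T.w j) = 0 := by
      intro v
      have h3 := hA.2 j v
      rw [hq] at h3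
      linear_combination h3
    have h3 := h2 (T.w j)
    have h4 : bil B (T.w j) (T.w j) = 0 := by
      have h5 : 3 * T.w j (Fin.last n) * bil B (T.w j) (T.w j) = 0 := by
        linear_combination h3
      rcases mul_eq_zero.mp h5 with h6 | h6
      · exact absurd h6 (mul_ne_zero (by norm_num) hj)
      · exact h6
    have h5 := h2 v
    rw [h4, mul_zero, add_zero] at h5
    rcases mul_eq_zero.mp h5 with h6 | h6
    · exact absurd h6 (mul_ne_zero (by norm_num) hj)
    · exact h6
  have h2 : ∀ u ∈ PJ T, ∀ v, bil B u v = 0 := by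
    intro u hu v
    unfold PJ at hu
    induction hu using Submodule.span_induction with
    | mem x hx =>
      obtain ⟨j, rfl⟩ := hx
      exact h1 j v
    | zero => simp [bil]
    | add x y _ _ hx hy => rw [bil_add1, hx, hy, add_zero]
    | smul c x _ hx => rw [bil_smul1, hx, mul_zero]
  apply Subtype.ext
  apply hBA
  funext l m
  rw [← bil_single B l m]
  exact h2 _ (by rw [hP]; trivial) _

end H80T
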