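import Mathlib
import Pool.Agent.H80T.Defs

/-! SYMD: dimensions of spaces of symmetric matrices. -/

namespace H80T

open Module

/-- Symmetric matrices are functions on unordered pairs. -/
noncomputable def symEquiv (W : Type) : SM W ≃ₗ[ℂ] (Sym2 W → ℂ) where
  toFun B := fun z => Sym2.lift ⟨fun a b => B.1 a b, fun a b => B.2 a b⟩ z
  invFun f := ⟨fun a b => f s(a, b), fun a b => by
    show f s(a, b) = f s(b, a)
    rw [Sym2.eq_swap]⟩
  map_add' := fun B C => by
    funext z
    induction z using Sym2.inductionOn with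
    | hf a b => rfl
  map_smul' := fun t B => by
    funext z
    induction z using Sym2.inductionOn with
    | hf a b => rfl
  left_inv := fun B => by
    apply Subtype.ext
    funext a b
    rfl
  right_inv := fun f => by
    funext z
    induction z using Sym2.inductionOn with
    | hf a b => rfl

theorem finrank_SM (W : Type) [Fintype W] :
    finrank ℂ (SM W) = (Fintype.card W + 1).choose 2 := by
  classical
  rw [(symEquiv W).finrank_eq, finrank_fintype_fun_eq_card, Sym2.card]

theorem bil_single_single {W : Type} [Fintype W] [DecidableEq W] (B : W → W → ℂ) (a b : W) :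
    bil B (Pi.single a 1) (Pi.single b 1) = B a b := by
  unfold bil
  rw [Finset.sum_eq_single a, Finset.sum_eq_single b]
  · simp
  · intro c _ hc
    simp [Pi.single_apply, hc]
  · intro h
    exact absurd (Finset.mem_univ _) h
  · intro c _ hc
    simp [Pi.single_apply, hc]
  · intro h
    exact absurd (Finset.mem_univ _) h

theorem bil_add_add {W : Type} [Fintype W] (B : W → W → ℂ) (u v : W → ℂ) :
    bil B (u + v) (u + v) = bil B u u + bil B u v + bil B v u + bil B v v := by
  unfold bil
  rw [← Finset.sum_add_distrib, ← Finset.sum_add_distrib, ← Finset.sum_add_distrib]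
  refine Finset.sum_congr rfl (fun a _ => ?_)
  rw [← Finset.sum_add_distrib, ← Finset.sum_add_distrib, ← Finset.sum_add_distrib]
  refine Finset.sum_congr rfl (fun b _ => ?_)
  simp only [Pi.add_apply]
  ring

/-- A symmetric bilinear form whose quadratic form vanishes is zero. -/
theorem eq_zero_of_quad {W : Type} [Fintype W] (B : W → W → ℂ) (hB : ∀ a b, B a b = B b a)
    (h : ∀ p : W → ℂ, bil B p p = 0) : B = 0 := by
  classical
  have h1 : ∀ a, B a a = 0 := fun a => by
    have := h (Pi.single a 1)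
    rwa [bil_single_single] at this
  funext a b
  have h2 := h (Pi.single a 1 + Pi.single b 1)
  rw [bil_add_add, bil_single_single, bil_single_single, bil_single_single, bil_single_single,
    h1, h1, ← hB a b] at h2
  have h3 : (2 : ℂ) * B a b = 0 := by linear_combination h2
  rcases mul_eq_zero.1 h3 with h4 | h4
  · norm_num at h4
  · exact h4

/-- Imposing the vanishing at sufficiently general vectors. -/
theorem exists_general {W : Type} [Fintype W] (S : Submodule ℂ (W → W → ℂ))
    (hS : ∀ B ∈ S, ∀ a b, B a b = B b a) (m : ℕ) :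
    ∃ p : Fin m → W → ℂ, ∃ S' : Submodule ℂ (W → W → ℂ),
      (∀ B, B ∈ S' ↔ B ∈ S ∧ ∀ i, bil B (p i) (p i) = 0) ∧
      finrank ℂ S' ≤ finrank ℂ S - m := by
  induction m with
  | zero =>
    refine ⟨fun i => i.elim0, S, fun B => ⟨fun h => ⟨h, fun i => i.elim0⟩, fun h => h.1⟩, ?_⟩
    simp
  | succ m ih =>
    obtain ⟨p, S', hS', hd⟩ := ih
    by_cases h0 : S' = ⊥
    · refine ⟨Fin.snoc p 0, S', fun B => ⟨fun h => ?_, fun h => ?_⟩, ?_⟩
      · have hB : B = 0 := by
          rw [h0] at h
          exact (Submodule.mem_bot ℂ).1 h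
        subst hB
        exact ⟨S.zero_mem, fun i => bil_zero _ _⟩
      · rw [hS']
        refine ⟨h.1, fun i => ?_⟩
        have := h.2 i.castSucc
        rwa [Fin.snoc_castSucc] at this
      · rw [h0, finrank_bot]
        exact Nat.zero_le _
    · obtain ⟨B₀, hB₀, hne⟩ := Submodule.exists_mem_ne_zero_of_ne_bot h0
      have hsym : ∀ B ∈ S', ∀ a b, B a b = B b a := fun B hB => hS B ((hS' B).1 hB).1
      have hex : ∃ q : W → ℂ, bil B₀ q q ≠ 0 := by
        by_contra hcon
        push Not at hcon
        exact hne (eq_zero_of_quad B₀ (hsym B₀ hB₀) hcon)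
      obtain ⟨q, hq⟩ := hex
      let S'' : Submodule ℂ (W → W → ℂ) :=
        { carrier := {B | B ∈ S' ∧ bil B q q = 0}
          add_mem' := fun {A B} hA hB => ⟨S'.add_mem hA.1 hB.1, by
            rw [bil_add, hA.2, hB.2, add_zero]⟩
          zero_mem' := ⟨S'.zero_mem, bil_zero _ _⟩
          smul_mem' := fun t A hA => ⟨S'.smul_mem t hA.1, by
            rw [bil_smul, hA.2, mul_zero]⟩ }
      have hmem : ∀ B, B ∈ S'' ↔ B ∈ S' ∧ bil B q q = 0 := fun B => Iff.rfl
      refine ⟨Fin.snoc p q, S'', fun B => ?_, ?_⟩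
      · rw [hmem, hS']
        constructor
        · rintro ⟨⟨h1, h2⟩, h3⟩
          refine ⟨h1, fun i => ?_⟩
          refine Fin.lastCases ?_ (fun i => ?_) i
          · rw [Fin.snoc_last]
            exact h3
          · rw [Fin.snoc_castSucc]
            exact h2 i
        · rintro ⟨h1, h2⟩
          refine ⟨⟨h1, fun i => ?_⟩, ?_⟩
          · have := h2 i.castSucc
            rwa [Fin.snoc_castSucc] at this
          · have := h2 (Fin.last m)
            rwa [Fin.snoc_last] at this
      · have hlt : S'' < S' := by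
          refine lt_of_le_of_ne (fun B hB => ((hmem B).1 hB).1) (fun heq => ?_)
          have : B₀ ∈ S'' := by
            rw [heq]
            exact hB₀
          exact hq ((hmem B₀).1 this).2
        have hfin := Submodule.finrank_lt_finrank_of_lt hlt
        omega

/-- Removing conditions: if `S ⊓ {conditions}` is small then `S` is small. -/
theorem finrank_le_add_card {M : Type} [AddCommGroup M] [Module ℂ M] [FiniteDimensional ℂ M]
    (S T : Submodule ℂ M) {ι : Type} [Fintype ι] (f : ι → M →ₗ[ℂ] ℂ)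
    (hT : ∀ x ∈ S, (∀ i, f i x = 0) → x ∈ T) :
    finrank ℂ S ≤ finrank ℂ T + Fintype.card ι := by
  let g : S →ₗ[ℂ] (ι → ℂ) := (LinearMap.pi f).comp S.subtype
  have h1 := g.finrank_range_add_finrank_ker
  have h2 : finrank ℂ (LinearMap.range g) ≤ Fintype.card ι := by
    have := Submodule.finrank_le (LinearMap.range g)
    rwa [finrank_fintype_fun_eq_card] at this
  have h3 : finrank ℂ (LinearMap.ker g) ≤ finrank ℂ T := by
    let e : LinearMap.ker g →ₗ[ℂ] T :=
      { toFun := fun x => ⟨x.1.1, hT x.1.1 x.1.2 (fun i => by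
          have hx : g x.1 = 0 := x.2
          exact congrFun hx i)⟩
        map_add' := fun x y => rfl
        map_smul' := fun t x => rfl }
    refine LinearMap.finrank_le_finrank_of_injective (f := e) (fun x y hxy => ?_)
    apply Subtype.ext
    apply Subtype.ext
    exact congrArg (fun z : T => z.1) hxy
  omega

/-- Blocks: a space of symmetric matrices on `W₁ ⊕ W₂` whose diagonal blocks lie in `S₁`, `S₂`. -/
theorem finrank_blocks {W₁ W₂ : Type} [Fintype W₁] [Fintype W₂]
    (S : Submodule ℂ (W₁ ⊕ W₂ → W₁ ⊕ W₂ → ℂ)) (S₁ : Submodule ℂ (W₁ → W₁ → ℂ))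
    (S₂ : Submodule ℂ (W₂ → W₂ → ℂ)) (hS : ∀ B ∈ S, ∀ a b, B a b = B b a)
    (h₁ : ∀ B ∈ S, (fun a b => B (.inl a) (.inl b)) ∈ S₁)
    (h₂ : ∀ B ∈ S, (fun a b => B (.inr a) (.inr b)) ∈ S₂) :
    finrank ℂ S ≤ finrank ℂ S₁ + finrank ℂ S₂ + Fintype.card W₁ * Fintype.card W₂ := by
  let e : S →ₗ[ℂ] (S₁ × S₂) × (W₁ → W₂ → ℂ) :=
    { toFun := fun B => ((⟨fun a b => B.1 (.inl a) (.inl b), h₁ B.1 B.2⟩,
        ⟨fun a b => B.1 (.inr a) (.inr b), h₂ B.1 B.2⟩), fun a b => B.1 (.inl a) (.inr b))
      map_add' := fun x y => rfl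
      map_smul' := fun t x => rfl }
  have hinj : Function.Injective e := by
    intro x y hxy
    have e1 : ∀ a b, x.1 (.inl a) (.inl b) = y.1 (.inl a) (.inl b) := fun a b =>
      congrFun (congrFun (congrArg (fun z : (S₁ × S₂) × (W₁ → W₂ → ℂ) => z.1.1.1) hxy) a) b
    have e2 : ∀ a b, x.1 (.inr a) (.inr b) = y.1 (.inr a) (.inr b) := fun a b =>
      congrFun (congrFun (congrArg (fun z : (S₁ × S₂) × (W₁ → W₂ → ℂ) => z.1.2.1) hxy) a) b
    have e3 : ∀ a b, x.1 (.inl a) (.inr b) = y.1 (.inl a) (.inr b) := fun a b =>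
      congrFun (congrFun (congrArg (fun z : (S₁ × S₂) × (W₁ → W₂ → ℂ) => z.2) hxy) a) b
    apply Subtype.ext
    funext a b
    rcases a with a | a <;> rcases b with b | b
    · exact e1 a b
    · exact e3 a b
    · rw [hS x.1 x.2, hS y.1 y.2]
      exact e3 b a
    · exact e2 a b
  have h := LinearMap.finrank_le_finrank_of_injective hinj
  have hp : finrank ℂ (W₁ → W₂ → ℂ) = Fintype.card W₁ * Fintype.card W₂ := by
    rw [Module.finrank_pi_fintype]
    simp
  rw [Module.finrank_prod, Module.finrank_prod, hp] at h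
  exact h

end H80T
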