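import Mathlib
import Pool.Agent.H80T.Inj3
import Pool.Agent.H80T.SymD

/-! TIE3: the borderline case, `k = 3`. -/

namespace H80T

open Module

variable {n a b r : ℕ}

/-- Descent: a linear system with coefficients in a subfield which has a nonzero solution has a
nonzero solution with entries in the subfield. -/
theorem exists_sol_subfield {ι κ : Type} [Fintype κ] (K : Subfield ℂ) (M : ι → κ → ℂ)
    (hM : ∀ i l, M i l ∈ K) (x : κ → ℂ) (hx : x ≠ 0) (h : ∀ i, ∑ l, M i l * x l = 0) :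
    ∃ y : κ → ℂ, y ≠ 0 ∧ (∀ l, y l ∈ K) ∧ ∀ i, ∑ l, M i l * y l = 0 := by
  obtain ⟨l₀, hl₀⟩ := Function.ne_iff.1 hx
  have h1 : ∃ φ : Module.Dual K ℂ, φ (x l₀) ≠ 0 := by
    by_contra hcon
    push Not at hcon
    exact hl₀ ((Module.forall_dual_apply_eq_zero_iff K (x l₀)).1 hcon)
  obtain ⟨φ, hφ⟩ := h1
  refine ⟨fun l => (φ (x l) : ℂ), ?_, fun l => (φ (x l)).2, fun i => ?_⟩
  · intro hcon
    apply hφ
    have := congrFun hcon l₀
    exact Subtype.ext this
  · have h2 : ∀ l, M i l * (φ (x l) : ℂ) = (φ (M i l * x l) : ℂ) := by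
      intro l
      have h3 : M i l * x l = (⟨M i l, hM i l⟩ : K) • x l := rfl
      rw [h3, map_smul]
      rfl
    simp only [h2]
    have h4 : ∑ l, (φ (M i l * x l) : ℂ) = ((∑ l, φ (M i l * x l) : K) : ℂ) := by
      push_cast
      rfl
    rw [h4, ← map_sum, h i, map_zero]
    rfl

/-- the bilinear map of a matrix -/
def tieB {N : ℕ} (B : Fin N → Fin N → ℂ) : (Fin N → ℂ) →ₗ[ℂ] (Fin N → ℂ) →ₗ[ℂ] ℂ :=
  LinearMap.mk₂ ℂ (bil B)
    (fun u u' v => by
      simp only [bil, Pi.add_apply, add_mul, mul_add, Finset.sum_add_distrib])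
    (fun t u v => by
      simp only [bil, Pi.smul_apply, smul_eq_mul, Finset.mul_sum]
      refine Finset.sum_congr rfl fun a _ => Finset.sum_congr rfl fun b _ => ?_
      ring)
    (fun u v v' => by
      simp only [bil, Pi.add_apply, mul_add, Finset.sum_add_distrib])
    (fun t u v => by
      simp only [bil, Pi.smul_apply, smul_eq_mul, Finset.mul_sum]
      refine Finset.sum_congr rfl fun a _ => Finset.sum_congr rfl fun b _ => ?_
      ring)

theorem tieB_apply {N : ℕ} (B : Fin N → Fin N → ℂ) (u v : Fin N → ℂ) :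
    tieB B u v = bil B u v := rfl

theorem tie_symm {N : ℕ} {B : Fin N → Fin N → ℂ} (hB : ∀ a b, B a b = B b a)
    (u v : Fin N → ℂ) : bil B u v = bil B v u := by
  unfold bil
  rw [Finset.sum_comm]
  refine Finset.sum_congr rfl fun a _ => Finset.sum_congr rfl fun b _ => ?_
  rw [hB b a]
  ring

theorem tie_zero {N : ℕ} {B : Fin N → Fin N → ℂ} (h : ∀ u v, bil B u v = 0) : B = 0 := by
  funext a b
  have := h (Pi.single a 1) (Pi.single b 1)
  rwa [bil_single_single] at this

/-- the dimension of the space of symmetric forms with a given radical -/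
theorem tie_dim {N : ℕ} (P : Submodule ℂ (Fin N → ℂ)) (S : Submodule ℂ (Fin N → Fin N → ℂ))
    (hsym : ∀ B ∈ S, ∀ a b, B a b = B b a) (hP : ∀ B ∈ S, ∀ u ∈ P, ∀ v, bil B u v = 0) :
    finrank ℂ S ≤ (N - finrank ℂ P + 1).choose 2 := by
  obtain ⟨Q, hQ⟩ := Submodule.exists_isCompl P
  have hdim : finrank ℂ Q = N - finrank ℂ P := by
    have := Submodule.finrank_add_eq_of_isCompl hQ
    rw [Module.finrank_fintype_fun_eq_card, Fintype.card_fin] at this
    omega
  let q := Module.finBasis ℂ Q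
  let f : S →ₗ[ℂ] SM (Fin (finrank ℂ Q)) :=
    { toFun := fun B => ⟨fun i j => bil B.1 (q i) (q j), fun i j => tie_symm (hsym B.1 B.2) _ _⟩
      map_add' := fun A B => by
        apply Subtype.ext
        funext i j
        exact bil_add A.1 B.1 (q i : Fin N → ℂ) (q j)
      map_smul' := fun t B => by
        apply Subtype.ext
        funext i j
        exact bil_smul t B.1 (q i : Fin N → ℂ) (q j) }
  have hf : Function.Injective f := by
    rw [← LinearMap.ker_eq_bot, LinearMap.ker_eq_bot']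
    intro B hB
    have h1 : ∀ i j, bil B.1 (q i) (q j) = 0 := by
      intro i j
      have := congrArg Subtype.val hB
      exact congrFun (congrFun this i) j
    have h2 : (tieB B.1).compl₁₂ Q.subtype Q.subtype = 0 := by
      refine LinearMap.ext_basis q q fun i j => ?_
      exact h1 i j
    have h3 : ∀ u ∈ Q, ∀ v ∈ Q, bil B.1 u v = 0 := by
      intro u hu v hv
      exact LinearMap.congr_fun (LinearMap.congr_fun h2 ⟨u, hu⟩) ⟨v, hv⟩
    apply Subtype.ext
    apply tie_zero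
    intro u v
    have hu : u ∈ P ⊔ Q := by rw [hQ.sup_eq_top]; trivial
    have hv : v ∈ P ⊔ Q := by rw [hQ.sup_eq_top]; trivial
    obtain ⟨u1, hu1, u2, hu2, rfl⟩ := Submodule.mem_sup.1 hu
    obtain ⟨v1, hv1, v2, hv2, rfl⟩ := Submodule.mem_sup.1 hv
    rw [← tieB_apply]
    simp only [map_add, LinearMap.add_apply]
    rw [tieB_apply, tieB_apply, tieB_apply, tieB_apply, hP B.1 B.2 u1 hu1, hP B.1 B.2 u1 hu1,
      tie_symm (hsym B.1 B.2) u2 v1, hP B.1 B.2 v1 hv1, h3 u2 hu2 v2 hv2]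
    simp
  have h4 := LinearMap.finrank_le_finrank_of_injective hf
  rw [finrank_SM, Fintype.card_fin, hdim] at h4
  exact h4

/-- the space of quadratic forms with the summands off the hyperplane in the radical, vanishing at
the summands with index in `I` -/
def tieS (T : H80R.Dec n 3 a b r) (I : Finset (Fin r)) :
    Submodule ℂ (Fin (n + 1) → Fin (n + 1) → ℂ) where
  carrier := {B | (∀ a b, B a b = B b a) ∧
    (∀ i, T.w i (Fin.last n) ≠ 0 → ∀ u, bil B (T.w i) u = 0) ∧ ∀ i ∈ I, bil B (T.w i) (T.w i) = 0}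
  add_mem' := fun {A B} hA hB => ⟨fun a b => by simp [hA.1 a b, hB.1 a b],
    fun i hi u => by rw [bil_add, hA.2.1 i hi, hB.2.1 i hi, add_zero],
    fun i hi => by rw [bil_add, hA.2.2 i hi, hB.2.2 i hi, add_zero]⟩
  zero_mem' := ⟨fun _ _ => rfl, fun _ _ _ => bil_zero _ _, fun _ _ => bil_zero _ _⟩
  smul_mem' := fun t A hA => ⟨fun a b => by simp [hA.1 a b],
    fun i hi u => by rw [bil_smul, hA.2.1 i hi, mul_zero],
    fun i hi => by rw [bil_smul, hA.2.2 i hi, mul_zero]⟩

theorem tie_empty (T : H80R.Dec n 3 a b r) :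
    finrank ℂ (tieS T ∅) ≤ (n + 1 - finrank ℂ (PJ T) + 1).choose 2 := by
  refine tie_dim (PJ T) (tieS T ∅) (fun B hB => hB.1) fun B hB u hu v => ?_
  have h1 : ∀ u ∈ PJ T, tieB B u v = 0 := by
    intro u hu
    unfold PJ at hu
    induction hu using Submodule.span_induction with
    | mem x hx =>
      obtain ⟨j, rfl⟩ := hx
      exact hB.2.1 j.1 j.2 v
    | zero => simp
    | add x y _ _ hx hy => rw [map_add, LinearMap.add_apply, hx, hy, add_zero]
    | smul t x _ hx => rw [map_smul, LinearMap.smul_apply, hx, smul_zero]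
  exact h1 u hu

theorem tie_chain (T : H80R.Dec n 3 a b r)
    (h : ∀ (I : Finset (Fin r)) (j : Fin r), j ∉ I → T.w j (Fin.last n) = 0 →
      ∃ B ∈ tieS T I, bil B (T.w j) (T.w j) ≠ 0) (I : Finset (Fin r)) :
    (∀ i ∈ I, T.w i (Fin.last n) = 0) → finrank ℂ (tieS T I) + I.card ≤ finrank ℂ (tieS T ∅) := by
  classical
  induction I using Finset.induction_on with
  | empty =>
    intro _
    simp
  | insert j I hj ih =>
    intro hI
    have h1 := ih fun i hi => hI i (Finset.mem_insert_of_mem hi)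
    obtain ⟨B, hB, hB2⟩ := h I j hj (hI j (Finset.mem_insert_self _ _))
    have h2 : tieS T (insert j I) < tieS T I := by
      refine lt_of_le_of_ne ?_ ?_
      · intro C hC
        exact ⟨hC.1, hC.2.1, fun i hi => hC.2.2 i (Finset.mem_insert_of_mem hi)⟩
      · intro hcon
        rw [← hcon] at hB
        exact hB2 (hB.2.2 j (Finset.mem_insert_self _ _))
    have h3 := Submodule.finrank_lt_finrank_of_lt h2
    rw [Finset.card_insert_of_notMem hj]
    omega

/-- the field of constants of the derivations killing the given summands -/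
def tieK (T : H80R.Dec n 3 a b r) (J : Set (Fin r)) : Subfield ℂ where
  carrier := {x | ∀ D : Derivation ℚ ℂ ℂ, (∀ i ∈ J, ∀ l, D (T.w i l) = 0) → D x = 0}
  mul_mem' := fun {x y} hx hy D hD => by
    rw [Derivation.leibniz, hx D hD, hy D hD, smul_zero, smul_zero, add_zero]
  one_mem' := fun D _ => D.map_one_eq_zero
  add_mem' := fun {x y} hx hy D hD => by rw [map_add, hx D hD, hy D hD, add_zero]
  zero_mem' := fun D _ => map_zero D
  neg_mem' := fun {x} hx D hD => by rw [map_neg, hx D hD, neg_zero]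
  inv_mem' := fun x hx D hD => by
    rw [Derivation.leibniz_inv, hx D hD, smul_zero]

theorem tie_der (D : Derivation ℚ ℂ ℂ) {N : ℕ} {B : Fin N → Fin N → ℂ}
    (hB : ∀ a b, D (B a b) = 0) (u v : Fin N → ℂ) :
    D (bil B u v) = bil B (fun l => D (u l)) v + bil B u (fun l => D (v l)) := by
  unfold bil
  rw [map_sum, ← Finset.sum_add_distrib]
  refine Finset.sum_congr rfl fun a _ => ?_
  rw [map_sum, ← Finset.sum_add_distrib]
  refine Finset.sum_congr rfl fun b _ => ?_
  rw [Derivation.leibniz, Derivation.leibniz, hB a b]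
  simp only [smul_eq_mul]
  ring

/-- the final contradiction -/
theorem tie_final (T : H80R.Dec n 3 a b r)
    (hE : ∀ v : Fin r → Fin (n + 1) → ℂ, (∀ j, T.w j (Fin.last n) ≠ 0 → v j = 0) →
      (∀ j, v j (Fin.last n) = 0) → v ∈ E1 T) {i₀ : Fin r} (hi₀ : T.w i₀ (Fin.last n) ≠ 0)
    (I : Finset (Fin r)) {j : Fin r} (hjI : j ∉ I) (hj : T.w j (Fin.last n) = 0)
    (hall : ∀ B ∈ tieS T I, bil B (T.w j) (T.w j) = 0) {B : Fin (n + 1) → Fin (n + 1) → ℂ}
    (hB : B ∈ tieS T I) : B = 0 := by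
  classical
  by_contra hB0
  set J : Set (Fin r) := {i | T.w i (Fin.last n) ≠ 0 ∨ i ∈ I} with hJ
  set K := tieK T J with hK
  have hjJ : j ∉ J := by
    rintro (h | h)
    · exact h hj
    · exact hjI h
  have hwK : ∀ i ∈ J, ∀ l, T.w i l ∈ K := fun i hi l D hD => hD i hi l
  -- descent
  let κ : Type := Fin (n + 1) × Fin (n + 1)
  let ι : Type := {R : κ → ℂ // (∀ l, R l ∈ K) ∧ ∀ C ∈ tieS T I, ∑ l : κ, R l * C l.1 l.2 = 0}
  obtain ⟨y, hy0, hyK, hy⟩ := exists_sol_subfield (ι := ι) (κ := κ) K (fun R => R.1)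
    (fun R l => R.2.1 l) (fun l => B l.1 l.2) (by
      intro hcon
      apply hB0
      funext a b
      exact congrFun hcon (a, b)) (fun R => R.2.2 B hB)
  set B₁ : Fin (n + 1) → Fin (n + 1) → ℂ := fun a b => y (a, b) with hB₁
  have hsum : ∀ (R : κ → ℂ) (C : Fin (n + 1) → Fin (n + 1) → ℂ),
      ∑ l : κ, R l * C l.1 l.2 = ∑ a, ∑ b, R (a, b) * C a b := fun R C =>
    Fintype.sum_prod_type _
  have hbil : ∀ (C : Fin (n + 1) → Fin (n + 1) → ℂ) (u v : Fin (n + 1) → ℂ),
      bil C u v = ∑ l : κ, (u l.1 * v l.2) * C l.1 l.2 := by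
    intro C u v
    rw [hsum (fun l => u l.1 * v l.2) C]
    unfold bil
    refine Finset.sum_congr rfl fun a _ => Finset.sum_congr rfl fun b _ => ?_
    ring
  have hsingle : ∀ c : Fin (n + 1), ∀ l : Fin (n + 1), (Pi.single c (1 : ℂ) : Fin (n + 1) → ℂ) l ∈ K := by
    intro c l
    by_cases h : l = c
    · subst h
      rw [Pi.single_eq_same]
      exact K.one_mem
    · rw [Pi.single_eq_of_ne h]
      exact K.zero_mem
  have hrow : ∀ (u v : Fin (n + 1) → ℂ), (∀ l, u l ∈ K) → (∀ l, v l ∈ K) →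
      (∀ C ∈ tieS T I, bil C u v = 0) → bil B₁ u v = 0 := by
    intro u v hu hv h
    rw [hbil]
    exact hy ⟨fun l => u l.1 * v l.2, fun l => K.mul_mem (hu _) (hv _), fun C hC => by
      rw [← hbil]
      exact h C hC⟩
  have hB₁K : ∀ a b, B₁ a b ∈ K := fun a b => hyK (a, b)
  have hB₁0 : B₁ ≠ 0 := by
    intro hcon
    apply hy0
    funext l
    exact congrFun (congrFun hcon l.1) l.2
  have hsym : ∀ a b, B₁ a b = B₁ b a := by
    intro a b
    have h1 : ∀ C : Fin (n + 1) → Fin (n + 1) → ℂ, ∑ l : κ,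
        (((Pi.single a (1 : ℂ) : Fin (n + 1) → ℂ) l.1 * (Pi.single b (1 : ℂ) : Fin (n + 1) → ℂ) l.2) -
        ((Pi.single b (1 : ℂ) : Fin (n + 1) → ℂ) l.1 * (Pi.single a (1 : ℂ) : Fin (n + 1) → ℂ) l.2)) *
          C l.1 l.2 = C a b - C b a := by
      intro C
      simp only [sub_mul]
      rw [Finset.sum_sub_distrib, ← hbil, ← hbil, bil_single_single, bil_single_single]
    have h2 := hy ⟨fun l => ((Pi.single a (1 : ℂ) : Fin (n + 1) → ℂ) l.1 *
        (Pi.single b (1 : ℂ) : Fin (n + 1) → ℂ) l.2) -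
        ((Pi.single b (1 : ℂ) : Fin (n + 1) → ℂ) l.1 * (Pi.single a (1 : ℂ) : Fin (n + 1) → ℂ) l.2),
      fun l => K.sub_mem (K.mul_mem (hsingle _ _) (hsingle _ _))
        (K.mul_mem (hsingle _ _) (hsingle _ _)), fun C hC => by
        rw [h1, hC.1 a b, sub_self]⟩
    have h3 := (h1 B₁).symm.trans h2
    exact sub_eq_zero.1 h3
  have hexp : ∀ u v : Fin (n + 1) → ℂ, bil B₁ u v = ∑ c, v c * bil B₁ u (Pi.single c 1) := by
    intro u v
    have h1 : v = ∑ c, v c • (Pi.single c (1 : ℂ) : Fin (n + 1) → ℂ) := by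
      funext l
      simp [Finset.sum_apply, Pi.single_apply]
    conv_lhs => rw [h1]
    rw [← tieB_apply, map_sum]
    refine Finset.sum_congr rfl fun c _ => ?_
    rw [map_smul, tieB_apply, smul_eq_mul]
  have hrad : ∀ i, T.w i (Fin.last n) ≠ 0 → ∀ u, bil B₁ (T.w i) u = 0 := by
    intro i hi u
    rw [hexp]
    refine Finset.sum_eq_zero fun c _ => ?_
    rw [hrow (T.w i) (Pi.single c 1) (hwK i (Or.inl hi)) (hsingle c)
      (fun C hC => hC.2.1 i hi _), mul_zero]
  have hmem : B₁ ∈ tieS T I := ⟨hsym, hrad, fun i hi =>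
    hrow _ _ (hwK i (Or.inr hi)) (hwK i (Or.inr hi)) fun C hC => hC.2.2 i hi⟩
  -- derivations
  have hder : ∀ v : Fin (n + 1) → ℂ, v (Fin.last n) = 0 → ∃ D : Derivation ℚ ℂ ℂ,
      (∀ l, D (T.w j l) = v l) ∧ ∀ x ∈ K, D x = 0 := by
    intro v hv
    obtain ⟨D, _, hD⟩ := hE (Pi.single j v) (fun i hi => by
      apply Pi.single_eq_of_ne
      rintro rfl
      exact hi hj) (fun i => by
      by_cases h : i = j
      · subst h
        rw [Pi.single_eq_same]
        exact hv
      · rw [Pi.single_eq_of_ne h]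
        rfl)
    refine ⟨D, fun l => ?_, fun x hx => hx D fun i hi l => ?_⟩
    · rw [← hD j l, Pi.single_eq_same]
    · rw [← hD i l, Pi.single_eq_of_ne (by rintro rfl; exact hjJ hi)]
      rfl
  have h1 : ∀ v : Fin (n + 1) → ℂ, v (Fin.last n) = 0 → bil B₁ (T.w j) v = 0 := by
    intro v hv
    obtain ⟨D, hD1, hD2⟩ := hder v hv
    have h2 := tie_der D (fun a b => hD2 _ (hB₁K a b)) (T.w j) (T.w j)
    rw [hall B₁ hmem, map_zero] at h2
    have h3 : (fun l => D (T.w j l)) = v := funext hD1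
    rw [h3, tie_symm hsym v (T.w j)] at h2
    have h4 : 2 * bil B₁ (T.w j) v = 0 := by rw [two_mul]; exact h2.symm
    rcases mul_eq_zero.1 h4 with h5 | h5
    · norm_num at h5
    · exact h5
  have h2 : ∀ v : Fin (n + 1) → ℂ, v (Fin.last n) = 0 → ∀ c : Fin (n + 1), c ≠ Fin.last n →
      bil B₁ v (Pi.single c 1) = 0 := by
    intro v hv c hc
    obtain ⟨D, hD1, hD2⟩ := hder v hv
    have h3 := tie_der D (fun a b => hD2 _ (hB₁K a b)) (T.w j) (Pi.single c 1)
    rw [h1 (Pi.single c 1) (Pi.single_eq_of_ne hc.symm 1), map_zero] at h3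
    have h4 : (fun l => D (T.w j l)) = v := funext hD1
    have h5 : (fun l => D ((Pi.single c (1 : ℂ) : Fin (n + 1) → ℂ) l)) = 0 :=
      funext fun l => hD2 _ (hsingle c l)
    rw [h4, h5] at h3
    have h6 : bil B₁ (T.w j) 0 = 0 := by
      rw [← tieB_apply, map_zero]
    rw [h6, add_zero] at h3
    exact h3.symm
  have h3 : ∀ u v : Fin (n + 1) → ℂ, u (Fin.last n) = 0 → v (Fin.last n) = 0 →
      bil B₁ u v = 0 := by
    intro u v hu hv
    rw [hexp]
    refine Finset.sum_eq_zero fun c _ => ?_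
    by_cases hc : c = Fin.last n
    · rw [hc, hv, zero_mul]
    · rw [h2 u hu c hc, mul_zero]
  apply hB₁0
  apply tie_zero
  intro u v
  have hproj : ∀ u : Fin (n + 1) → ℂ, ∃ t : ℂ, ∃ h : Fin (n + 1) → ℂ, h (Fin.last n) = 0 ∧
      u = t • T.w i₀ + h := by
    intro u
    refine ⟨u (Fin.last n) / T.w i₀ (Fin.last n),
      u - (u (Fin.last n) / T.w i₀ (Fin.last n)) • T.w i₀, ?_, ?_⟩
    · simp only [Pi.sub_apply, Pi.smul_apply, smul_eq_mul]
      field_simp
      ring
    · abel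
  obtain ⟨t, h, hh, rfl⟩ := hproj u
  obtain ⟨t', h', hh', rfl⟩ := hproj v
  rw [← tieB_apply]
  simp only [map_add, LinearMap.add_apply, map_smul, LinearMap.smul_apply]
  rw [tieB_apply, tieB_apply, tieB_apply, tieB_apply, hrad i₀ hi₀, hrad i₀ hi₀,
    tie_symm hsym h, hrad i₀ hi₀, h3 h h' hh hh']
  simp

theorem tie_case (T : H80R.Dec n 3 a b r) (ht : finrank ℂ (tahS T.pl T.pp T.py) = 0)
    (hp : finrank ℂ (PJ T) ≤ n) (hp0 : 1 ≤ finrank ℂ (PJ T))
    (hE : ∀ v : Fin r → Fin (n + 1) → ℂ, (∀ j, T.w j (Fin.last n) ≠ 0 → v j = 0) →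
      (∀ j, v j (Fin.last n) = 0) → v ∈ E1 T)
    (hcount : (n + 2 - finrank ℂ (PJ T)).choose 2 + uu T ≤ r) :
    finrank ℂ (dpS T.w) = 0 := by
  classical
  have htah : tahS T.pl T.pp T.py = ⊥ := Submodule.finrank_eq_zero.1 ht
  rw [Submodule.finrank_eq_zero, Submodule.eq_bot_iff]
  intro A hA
  by_contra hA0
  have hres := res_dp T hA
  rw [htah, Submodule.mem_bot] at hres
  obtain ⟨B, hBsym, hB0, hBA⟩ := exists_quad hA.1
    (fun l m q => congrFun (congrFun (congrFun hres l) m) q)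
  have hBne : B ≠ 0 := fun h => hA0 (hB0 h)
  have hdp : ∀ j u, 2 * T.w j (Fin.last n) * bil B (T.w j) u +
      u (Fin.last n) * bil B (T.w j) (T.w j) = 0 := by
    intro j u
    have h1 := hA.2 j u
    rw [hBA] at h1
    rw [← h1]
    ring
  have hself : ∀ j, bil B (T.w j) (T.w j) = 0 := by
    intro j
    by_cases hj : T.w j (Fin.last n) = 0
    · have h1 := hdp j (Pi.single (Fin.last n) 1)
      rw [hj, Pi.single_eq_same] at h1
      simpa using h1
    · have h1 := hdp j (T.w j)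
      have h2 : (3 * T.w j (Fin.last n)) * bil B (T.w j) (T.w j) = 0 := by
        rw [← h1]; ring
      rcases mul_eq_zero.1 h2 with h3 | h3
      · rcases mul_eq_zero.1 h3 with h4 | h4
        · norm_num at h4
        · exact absurd h4 hj
      · exact h3
  have hrad : ∀ j, T.w j (Fin.last n) ≠ 0 → ∀ u, bil B (T.w j) u = 0 := by
    intro j hj u
    have h1 := hdp j u
    rw [hself j, mul_zero, add_zero] at h1
    rcases mul_eq_zero.1 h1 with h3 | h3
    · rcases mul_eq_zero.1 h3 with h4 | h4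
      · norm_num at h4
      · exact absurd h4 hj
    · exact h3
  have hBI : ∀ I : Finset (Fin r), B ∈ tieS T I := fun I => ⟨hBsym, hrad, fun i _ => hself i⟩
  -- a summand off the hyperplane
  obtain ⟨i₀, hi₀⟩ : ∃ i₀, T.w i₀ (Fin.last n) ≠ 0 := by
    by_contra hcon
    push Not at hcon
    have h1 : PJ T = ⊥ := by
      unfold PJ
      rw [Submodule.span_eq_bot]
      rintro _ ⟨j, rfl⟩
      exact absurd (hcon j.1) j.2
    rw [h1, finrank_bot] at hp0
    omega
  -- the chain
  by_cases hch : ∀ (I : Finset (Fin r)) (j : Fin r), j ∉ I → T.w j (Fin.last n) = 0 →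
      ∃ B ∈ tieS T I, bil B (T.w j) (T.w j) ≠ 0
  · set I₀ : Finset (Fin r) := Finset.univ.filter fun i => T.w i (Fin.last n) = 0 with hI₀
    have h1 := tie_chain T hch I₀ (fun i hi => (Finset.mem_filter.1 hi).2)
    have h2 := tie_empty T
    have h3 : n + 1 - finrank ℂ (PJ T) + 1 = n + 2 - finrank ℂ (PJ T) := by omega
    rw [h3] at h2
    have h4 : I₀.card + uu T = r := by
      have h5 : uu T = (Finset.univ.filter fun i => ¬ T.w i (Fin.last n) = 0).card := by
        unfold uu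
        rw [Nat.card_eq_fintype_card, Fintype.card_subtype]
      rw [h5, hI₀, Finset.card_filter_add_card_filter_not, Finset.card_univ, Fintype.card_fin]
    have h6 : finrank ℂ (tieS T I₀) = 0 := by omega
    rw [Submodule.finrank_eq_zero, Submodule.eq_bot_iff] at h6
    exact hBne (h6 B (hBI I₀))
  · push Not at hch
    obtain ⟨I, j, hjI, hj, hall⟩ := hch
    exact hBne (tie_final T hE hi₀ I hjI hj hall (hBI I))

end H80T
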