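import Mathlib
import Pool.Agent.H80T.Key3

/-! GEO3: position of the summands, `k = 3`. -/

namespace H80T

open Module

variable {n a b r : ℕ}

/-- minors of a generic matrix do not vanish -/
theorem geo3_det {ι ι' κ : Type} [Fintype κ] [DecidableEq κ] (v : ι → ι' → ℂ)
    (h : AlgebraicIndependent ℚ (fun q : ι × ι' => v q.1 q.2)) (e : κ → ι)
    (he : Function.Injective e) (f : κ → ι') (hf : Function.Injective f) :
    (Matrix.of fun i j : κ => v (e i) (f j)).det ≠ 0 := by
  have h1 : AlgebraicIndependent ℚ (fun q : κ × κ => (Matrix.of fun i j : κ => v (e i) (f j))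
      q.1 q.2) := by
    have := h.comp (fun q : κ × κ => (e q.1, f q.2)) (by
      rintro ⟨x, y⟩ ⟨x', y'⟩ hxy
      simp only [Prod.mk.injEq] at hxy
      exact Prod.ext (he hxy.1) (hf hxy.2))
    exact this
  intro h0
  have h2 := Matrix.mvPolynomialX_mapMatrix_aeval ℚ (Matrix.of fun i j : κ => v (e i) (f j))
  rw [← h2, ← AlgHom.map_det] at h0
  exact Matrix.det_mvPolynomialX_ne_zero κ ℚ (h1.eq_zero_of_aeval_eq_zero _ h0)

/-- the coordinates of the points of the hyperplane are algebraically independent -/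
theorem geo3_alg {k : ℕ} (T : H80R.Dec n k a b r) :
    AlgebraicIndependent ℚ (fun q : (Fin a ⊕ Fin b) × Fin n =>
      (Sum.elim T.pl T.pp : Fin a ⊕ Fin b → Fin n → ℂ) q.1 q.2) := by
  have h := T.halg.comp (fun q : (Fin a ⊕ Fin b) × Fin n =>
    (Sum.elim (fun s => Sum.inl (s, q.2)) (fun s => Sum.inr (Sum.inl (s, q.2))) q.1 :
      (Fin a × Fin n) ⊕ ((Fin b × Fin n) ⊕ (Fin a × Fin (n + 1))))) (by
    rintro ⟨x | x, y⟩ ⟨x' | x', y'⟩ hxy <;> simp_all)
  convert h using 1
  funext ⟨x, y⟩
  rcases x with x | x <;> rfl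

/-- the general points `pl s` are linearly independent -/
theorem li_pl {k : ℕ} (T : H80R.Dec n k a b r) (ha : a ≤ n) : LinearIndependent ℂ T.pl := by
  classical
  have h1 := geo3_det _ (geo3_alg T) (fun i : Fin a => (Sum.inl i : Fin a ⊕ Fin b))
    Sum.inl_injective (Fin.castLE ha) (Fin.castLE_injective ha)
  have h2 : LinearIndependent ℂ (fun i : Fin a => (fun j : Fin a => T.pl i (Fin.castLE ha j))) := by
    have h3 := Matrix.linearIndependent_rows_of_det_ne_zero h1
    exact h3
  exact LinearIndependent.of_comp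
    (LinearMap.funLeft ℂ ℂ (Fin.castLE ha)) h2

/-- the last coordinates of the tangent directions are not zero -/
theorem geo3_eta (T : H80R.Dec n 3 a b r) (s : Fin a) : T.py s (Fin.last n) ≠ 0 :=
  T.halg.ne_zero (Sum.inr (Sum.inr (s, Fin.last n)))

theorem geo3_li (T : H80R.Dec n 3 a b r) (ha : a ≤ n) : LinearIndependent ℂ (LL T) := by
  have h := li_pl T ha
  refine LinearIndependent.of_comp (LinearMap.funLeft ℂ ℂ (Fin.castSucc : Fin n → Fin (n + 1))) ?_
  convert h using 1
  funext s
  ext l
  simp [LL, LinearMap.funLeft]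

/-- the vector `η_t L_t` is the value of `Phi` at some vector -/
theorem geo3_dual (T : H80R.Dec n 3 a b r) (ha : a ≤ n) :
    ∃ th : Fin a → Fin (n + 1) → ℂ, ∀ t,
      (Phi T).mulVec (th t) = T.py t (Fin.last n) • LL T t := by
  classical
  obtain ⟨B, hB⟩ := H80R.exists_dual_family (geo3_li T ha)
  refine ⟨B, fun t => ?_⟩
  ext l
  simp only [Matrix.mulVec, dotProduct, Phi, Matrix.of_apply, Finset.sum_mul, Pi.smul_apply,
    smul_eq_mul]
  rw [Finset.sum_comm]
  have h1 : ∀ s, ∑ m, T.py s (Fin.last n) * (LL T s l * LL T s m) * B t m =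
      T.py s (Fin.last n) * LL T s l * (if s = t then 1 else 0) := by
    intro s
    rw [← hB s t, Finset.mul_sum]
    refine Finset.sum_congr rfl fun m _ => ?_
    ring
  simp only [h1]
  simp

theorem rank_phi (T : H80R.Dec n 3 a b r) (ha : a ≤ n) : a ≤ (Phi T).rank := by
  classical
  obtain ⟨th, hth⟩ := geo3_dual T ha
  have h1 : finrank ℂ (Submodule.span ℂ (Set.range (LL T))) = a := by
    rw [finrank_span_eq_card (geo3_li T ha), Fintype.card_fin]
  rw [Matrix.rank]
  calc a = finrank ℂ (Submodule.span ℂ (Set.range (LL T))) := h1.symm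
    _ ≤ _ := by
      apply Submodule.finrank_mono
      rw [Submodule.span_le]
      rintro _ ⟨s, rfl⟩
      have h2 : LL T s = (Phi T).mulVecLin ((T.py s (Fin.last n))⁻¹ • th s) := by
        rw [map_smul, Matrix.mulVecLin_apply, hth s, smul_smul, inv_mul_cancel₀ (geo3_eta T s),
          one_smul]
      rw [SetLike.mem_coe, h2]
      exact LinearMap.mem_range_self _ _

/-- `Phi` maps to the span of the summands off the hyperplane -/
theorem geo3_mem (T : H80R.Dec n 3 a b r) (x : Fin (n + 1) → ℂ) :
    (Phi T).mulVec x ∈ PJ T := by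
  classical
  have h1 : (Phi T).mulVec x =
      ∑ j, (T.w j (Fin.last n) * ∑ m, T.w j m * x m) • T.w j := by
    ext l
    simp only [Matrix.mulVec, dotProduct, phi_eq, Finset.sum_mul, Finset.sum_apply,
      Pi.smul_apply, smul_eq_mul]
    rw [Finset.sum_comm]
    refine Finset.sum_congr rfl fun j _ => ?_
    rw [Finset.mul_sum, Finset.sum_mul]
    refine Finset.sum_congr rfl fun m _ => ?_
    ring
  rw [h1]
  refine Submodule.sum_mem _ fun j _ => ?_
  by_cases hj : T.w j (Fin.last n) = 0
  · rw [hj, zero_mul, zero_smul]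
    exact Submodule.zero_mem _
  · exact Submodule.smul_mem _ _ (Submodule.subset_span ⟨⟨j, hj⟩, rfl⟩)

theorem geo3_LL_mem (T : H80R.Dec n 3 a b r) (ha : a ≤ n) (s : Fin a) : LL T s ∈ PJ T := by
  obtain ⟨th, hth⟩ := geo3_dual T ha
  have h1 := geo3_mem T (th s)
  rw [hth s] at h1
  exact (Submodule.smul_mem_iff _ (geo3_eta T s)).mp h1

theorem geo3_nonempty (T : H80R.Dec n 3 a b r) (h1 : 1 ≤ a) (ha : a ≤ n) : Nonempty (JJ T) := by
  by_contra hc
  rw [not_nonempty_iff] at hc
  have h0 : ∀ j, T.w j (Fin.last n) = 0 := by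
    intro j
    by_contra hj
    exact hc.false ⟨j, hj⟩
  have h2 : Phi T = 0 := by
    ext l m
    rw [phi_eq]
    simp [h0]
  have h3 := rank_phi T ha
  rw [h2, Matrix.rank_zero] at h3
  omega

theorem a_lt_p (T : H80R.Dec n 3 a b r) (h1 : 1 ≤ a) (ha : a ≤ n) :
    a + 1 ≤ finrank ℂ (PJ T) := by
  classical
  obtain ⟨j0⟩ := geo3_nonempty T h1 ha
  have h2 : finrank ℂ (Submodule.span ℂ (Set.range (LL T))) = a := by
    rw [finrank_span_eq_card (geo3_li T ha), Fintype.card_fin]
  suffices hlt : Submodule.span ℂ (Set.range (LL T)) < PJ T by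
    have h3 := Submodule.finrank_lt_finrank_of_lt hlt
    omega
  refine lt_of_le_of_ne ?_ ?_
  · rw [Submodule.span_le]
    rintro _ ⟨s, rfl⟩
    exact geo3_LL_mem T ha s
  · intro h3
    have h4 : T.w j0.1 ∈ Submodule.span ℂ (Set.range (LL T)) := by
      rw [h3]
      exact Submodule.subset_span ⟨j0, rfl⟩
    have h5 : Submodule.span ℂ (Set.range (LL T)) ≤
        LinearMap.ker (LinearMap.proj (R := ℂ) (φ := fun _ : Fin (n + 1) => ℂ) (Fin.last n)) := by
      rw [Submodule.span_le]
      rintro _ ⟨s, rfl⟩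
      simp [LL]
    exact j0.2 (h5 h4)

theorem p_lt_u (T : H80R.Dec n 3 a b r) (h1 : 1 ≤ a) (ha : a ≤ n) :
    finrank ℂ (PJ T) + 1 ≤ uu T := by
  classical
  obtain ⟨j0⟩ := geo3_nonempty T h1 ha
  have hcard : uu T = Fintype.card (JJ T) := Nat.card_eq_fintype_card
  have h2 : ¬ LinearIndependent ℂ (fun j : JJ T => T.w j.1) := by
    intro hli
    rw [Fintype.linearIndependent_iff] at hli
    have h3 := hli (fun j => T.w j.1 (Fin.last n) ^ 2) (by
      ext l
      have h5 : ∑ j : JJ T, T.w j.1 (Fin.last n) ^ 2 * T.w j.1 l =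
          ∑ j, T.w j (Fin.last n) ^ 2 * T.w j l := by
        rw [← Finset.sum_subtype (Finset.univ.filter (fun j => T.w j (Fin.last n) ≠ 0))
          (by simp) (fun j => T.w j (Fin.last n) ^ 2 * T.w j l)]
        apply Finset.sum_filter_of_ne
        intro j _ h h0
        apply h
        rw [h0]
        ring
      rw [rel_eq T l] at h5
      rw [Finset.sum_apply, Pi.zero_apply]
      exact h5) j0
    exact j0.2 (pow_eq_zero_iff (by norm_num) |>.mp h3)
  rw [linearIndependent_iff_card_le_finrank_span] at h2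
  rw [hcard]
  have h3 : finrank ℂ (PJ T) = (Set.range (fun j : JJ T => T.w j.1)).finrank ℂ := rfl
  omega

theorem u_le_r {k : ℕ} (T : H80R.Dec n k a b r) : uu T ≤ r := by
  classical
  have hcard : uu T = Fintype.card (JJ T) := Nat.card_eq_fintype_card
  rw [hcard]
  have h := Fintype.card_subtype_le (fun j : Fin r => T.w j (Fin.last n) ≠ 0)
  rw [Fintype.card_fin] at h
  exact h

/-- If the span is not everything and there are sufficiently many points then some summand lies on
the hyperplane. -/
theorem u_lt_r (T : H80R.Dec n 3 a b r) (h1 : 1 ≤ a) (ha : a ≤ n) (hab : n ≤ a + b)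
    (hp : finrank ℂ (PJ T) ≤ n) : uu T < r := by
  classical
  refine lt_of_le_of_ne (u_le_r T) fun hu => ?_
  have hcard : uu T = Fintype.card (JJ T) := Nat.card_eq_fintype_card
  obtain ⟨j0⟩ := geo3_nonempty T h1 ha
  have hall : ∀ j, T.w j (Fin.last n) ≠ 0 := by
    by_contra hc
    push Not at hc
    obtain ⟨j, hj⟩ := hc
    have h2 := Fintype.card_subtype_lt (p := fun j : Fin r => T.w j (Fin.last n) ≠ 0)
      (x := j) (by simpa using hj)
    rw [Fintype.card_fin] at h2
    have h3 : uu T < r := by
      rw [hcard]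
      exact h2
    omega
  have hlt : PJ T < ⊤ := by
    refine lt_of_le_of_ne le_top fun h => ?_
    rw [h, finrank_top] at hp
    simp at hp
  obtain ⟨f, hf0, hf⟩ := Submodule.exists_le_ker_of_lt_top _ hlt
  let th : Fin (n + 1) → ℂ := fun l => f (Pi.single l 1)
  have hth : ∀ x : Fin (n + 1) → ℂ, ∑ l, th l * x l = f x := by
    intro x
    have h2 : x = ∑ l, x l • (Pi.single l 1 : Fin (n + 1) → ℂ) := by
      ext m
      simp [Finset.sum_apply, Pi.single_apply]
    conv_rhs => rw [h2]
    rw [map_sum]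
    refine Finset.sum_congr rfl fun l _ => ?_
    rw [map_smul, smul_eq_mul, mul_comm]
  have hthw : ∀ j, ∑ l, th l * T.w j l = 0 := by
    intro j
    rw [hth]
    exact hf (Submodule.subset_span ⟨⟨j, hall j⟩, rfl⟩)
  have hthL : ∀ s, ∑ l, th l * LL T s l = 0 := by
    intro s
    rw [hth]
    exact hf (geo3_LL_mem T ha s)
  have hn : 0 < n := by omega
  let i0 : Fin n := ⟨0, hn⟩
  let ps : Fin (n + 1) → ℂ := Pi.single i0.castSucc 1
  have hps : ∀ x : Fin (n + 1) → ℂ, ∑ l, ps l * x l = x i0.castSucc := by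
    intro x
    simp [ps, Pi.single_apply]
  let A : Fin (n + 1) → Fin (n + 1) → Fin (n + 1) → ℂ := fun l m q =>
    th l * th m * ps q + th l * ps m * th q + ps l * th m * th q
  have hA : Sym3 A := by
    constructor
    · intro x y z
      simp only [A]
      ring
    · intro x y z
      simp only [A]
      ring
  have hprod : ∀ (p1 p2 p3 u v w : Fin (n + 1) → ℂ),
      ∑ l, ∑ m, ∑ q, (p1 l * p2 m * p3 q) * (u l * v m * w q) =
      (∑ l, p1 l * u l) * (∑ m, p2 m * v m) * (∑ q, p3 q * w q) := by
    intro p1 p2 p3 u v w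
    rw [Finset.sum_mul_sum, Finset.sum_mul]
    refine Finset.sum_congr rfl fun l _ => ?_
    rw [Finset.sum_mul]
    refine Finset.sum_congr rfl fun m _ => ?_
    rw [Finset.mul_sum]
    refine Finset.sum_congr rfl fun q _ => ?_
    ring
  have htri : ∀ u v w : Fin (n + 1) → ℂ, tri A u v w =
      f u * f v * w i0.castSucc + f u * v i0.castSucc * f w + u i0.castSucc * f v * f w := by
    intro u v w
    unfold tri
    simp only [A, add_mul, Finset.sum_add_distrib, hprod, hth, hps]
  have hQ : ∀ s, f (QQ T s) = 0 := by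
    intro s
    obtain ⟨D, hD⟩ := H80R.exists_derivation _ T.halg
      (Sum.elim (fun _ : Fin a × Fin n => 0)
      (Sum.elim (fun q : Fin b × Fin n => if q.1 = s then T.pp q.1 q.2 else 0)
        (fun _ : Fin a × Fin (n + 1) => 0)))
    have hDl : ∀ t, (fun l => D (LL T t l)) = 0 := by
      intro t
      ext l
      refine Fin.lastCases ?_ (fun l => ?_) l
      · simp [LL]
      · simp only [LL, Fin.snoc_castSucc]
        exact hD (Sum.inl (t, l))
    have hDp : ∀ t, (fun l => D (QQ T t l)) = if t = s then QQ T s else 0 := by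
      intro t
      ext l
      refine Fin.lastCases ?_ (fun l => ?_) l
      · by_cases hts : t = s <;> simp [QQ, hts]
      · have h2 := hD (Sum.inr (Sum.inl (t, l)))
        simp only [Sum.elim_inr, Sum.elim_inl] at h2
        by_cases hts : t = s
        · subst hts
          simpa [QQ] using h2
        · simpa [QQ, hts] using h2
    have hDy : ∀ t, (fun l => D (T.py t l)) = 0 := by
      intro t
      ext l
      exact hD (Sum.inr (Sum.inr (t, l)))
    have hk := key3 T D hA
    have hw0 : ∀ j, f (T.w j) = 0 := fun j => by rw [← hth]; exact hthw j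
    simp only [hDl, hDp, hDy, htri, hw0, map_zero, Pi.zero_apply, mul_zero, zero_mul, add_zero,
      Finset.sum_const_zero, zero_add] at hk
    rw [Finset.sum_eq_single s] at hk
    · simp only [if_true] at hk
      have h3 : (3 : ℂ) * (f (QQ T s) ^ 2 * QQ T s i0.castSucc) = 0 := by
        rw [← hk]
        ring
      have h4 : QQ T s i0.castSucc ≠ 0 := by
        simp only [QQ, Fin.snoc_castSucc]
        exact T.halg.ne_zero (Sum.inr (Sum.inl (s, i0)))
      have h5 : f (QQ T s) ^ 2 = 0 := by
        rcases mul_eq_zero.mp h3 with h | h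
        · norm_num at h
        · exact (mul_eq_zero.mp h).resolve_right h4
      exact pow_eq_zero_iff (by norm_num) |>.mp h5
    · intro t _ hts
      simp [hts]
    · simp
  -- the form vanishes on the hyperplane
  have hH : ∀ l : Fin n, th l.castSucc = 0 := by
    have hcd : Fintype.card (Fin n) ≤ Fintype.card (Fin a ⊕ Fin b) := by simpa using hab
    obtain ⟨e⟩ := Function.Embedding.nonempty_of_card_le hcd
    have hdet := geo3_det _ (geo3_alg T) e e.injective (id : Fin n → Fin n)
      Function.injective_id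
    have h2 : (Matrix.of fun i j : Fin n =>
        (Sum.elim T.pl T.pp : Fin a ⊕ Fin b → Fin n → ℂ) (e i) (id j)).mulVec
        (fun l => th l.castSucc) = 0 := by
      ext i
      simp only [Matrix.mulVec, dotProduct, Matrix.of_apply, id, Pi.zero_apply]
      rcases h3 : e i with s | s
      · have h4 := hthL s
        rw [Fin.sum_univ_castSucc] at h4
        simp only [LL, Fin.snoc_castSucc, Fin.snoc_last, mul_zero, add_zero] at h4
        rw [← h4]
        exact Finset.sum_congr rfl fun l _ => by simp [mul_comm]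
      · have h4 := hQ s
        rw [← hth, Fin.sum_univ_castSucc] at h4
        simp only [QQ, Fin.snoc_castSucc, Fin.snoc_last, mul_zero, add_zero] at h4
        rw [← h4]
        exact Finset.sum_congr rfl fun l _ => by simp [mul_comm]
    have h3 := Matrix.eq_zero_of_mulVec_eq_zero hdet h2
    exact fun l => congrFun h3 l
  have hlast : th (Fin.last n) = 0 := by
    have h2 := hthw j0.1
    rw [Fin.sum_univ_castSucc] at h2
    simp only [hH, zero_mul, Finset.sum_const_zero, zero_add] at h2
    exact (mul_eq_zero.mp h2).resolve_right j0.2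
  apply hf0
  apply LinearMap.ext
  intro x
  rw [← hth, Fin.sum_univ_castSucc]
  simp [hH, hlast]

end H80T
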