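import Mathlib
import Pool.Agent.H80T.SymD

/-! LIN3: a linear algebra estimate. -/

namespace H80T

open Module

/-- bilinear consequences of the coordinatewise relation -/
theorem lin3_bil {N : ℕ} {ι : Type} [Fintype ι] (w v : ι → Fin N → ℂ)
    (ξ : (Fin N → ℂ) →ₗ[ℂ] ℂ)
    (h2 : ∀ l m, ∑ j, (ξ (v j) * (w j l * w j m) +
      ξ (w j) * (v j l * w j m + w j l * v j m)) = 0)
    (θ θ' : (Fin N → ℂ) →ₗ[ℂ] ℂ) :
    ∑ j, (ξ (v j) * (θ (w j) * θ' (w j)) +
      ξ (w j) * (θ (v j) * θ' (w j) + θ (w j) * θ' (v j))) = 0 := by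
  classical
  have key : ∀ x y : Fin N → ℂ, θ x * θ' y =
      ∑ l, ∑ m, (θ (fun j => if l = j then 1 else 0) * θ' (fun j => if m = j then 1 else 0)) *
        (x l * y m) := by
    intro x y
    rw [LinearMap.pi_apply_eq_sum_univ θ x, LinearMap.pi_apply_eq_sum_univ θ' y,
      Finset.sum_mul_sum]
    refine Finset.sum_congr rfl (fun l _ => Finset.sum_congr rfl (fun m _ => ?_))
    simp only [smul_eq_mul]
    ring
  have e1 : ∀ j, ξ (v j) * (θ (w j) * θ' (w j)) +
      ξ (w j) * (θ (v j) * θ' (w j) + θ (w j) * θ' (v j)) =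
      ∑ l, ∑ m, (θ (fun j => if l = j then 1 else 0) * θ' (fun j => if m = j then 1 else 0)) *
        (ξ (v j) * (w j l * w j m) + ξ (w j) * (v j l * w j m + w j l * v j m)) := by
    intro j
    rw [key, key, key]
    simp only [Finset.mul_sum, ← Finset.sum_add_distrib]
    refine Finset.sum_congr rfl (fun l _ => Finset.sum_congr rfl (fun m _ => ?_))
    ring
  rw [Finset.sum_congr rfl (fun j _ => e1 j), Finset.sum_comm]
  refine Finset.sum_eq_zero (fun l _ => ?_)
  rw [Finset.sum_comm]
  refine Finset.sum_eq_zero (fun m _ => ?_)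
  rw [← Finset.mul_sum, h2, mul_zero]

section Sym

variable {P : Type} [AddCommGroup P] [Module ℂ P] {p : ℕ}

/-- the symmetrised product with a fixed vector -/
noncomputable def syL (b : Basis (Fin p) ℂ P) (x : P) : P →ₗ[ℂ] SM (Fin p) where
  toFun y := ⟨fun α β => b.repr x α * b.repr y β + b.repr x β * b.repr y α, fun α β => by ring⟩
  map_add' := fun y z => by
    apply Subtype.ext
    funext α β
    simp only [map_add, Finsupp.add_apply, Submodule.coe_add, Pi.add_apply]
    ring
  map_smul' := fun t y => by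
    apply Subtype.ext
    funext α β
    simp only [map_smul, Finsupp.smul_apply, smul_eq_mul, RingHom.id_apply, Submodule.coe_smul,
      Pi.smul_apply]
    ring

theorem syL_apply (b : Basis (Fin p) ℂ P) (x y : P) (α β : Fin p) :
    (syL b x y).1 α β = b.repr x α * b.repr y β + b.repr x β * b.repr y α := rfl

/-- the derivative map -/
noncomputable def dm {ι : Type} [Fintype ι] (b : Basis (Fin p) ℂ P) (w : ι → P)
    (ξ : P →ₗ[ℂ] ℂ) : (ι → P) →ₗ[ℂ] SM (Fin p) where
  toFun v := ⟨fun α β => ∑ j, (ξ (v j) * (b.repr (w j) α * b.repr (w j) β) +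
      ξ (w j) * (b.repr (v j) α * b.repr (w j) β + b.repr (w j) α * b.repr (v j) β)),
    fun α β => Finset.sum_congr rfl (fun j _ => by ring)⟩
  map_add' := fun y z => by
    apply Subtype.ext
    funext α β
    simp only [map_add, Finsupp.add_apply, Submodule.coe_add, Pi.add_apply,
      ← Finset.sum_add_distrib]
    refine Finset.sum_congr rfl (fun j _ => ?_)
    ring
  map_smul' := fun t y => by
    apply Subtype.ext
    funext α β
    simp only [map_smul, Finsupp.smul_apply, smul_eq_mul, RingHom.id_apply, Submodule.coe_smul,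
      Pi.smul_apply, Finset.mul_sum]
    refine Finset.sum_congr rfl (fun j _ => ?_)
    ring

theorem dm_apply {ι : Type} [Fintype ι] (b : Basis (Fin p) ℂ P) (w : ι → P)
    (ξ : P →ₗ[ℂ] ℂ) (v : ι → P) (α β : Fin p) :
    (dm b w ξ v).1 α β = ∑ j, (ξ (v j) * (b.repr (w j) α * b.repr (w j) β) +
      ξ (w j) * (b.repr (v j) α * b.repr (w j) β + b.repr (w j) α * b.repr (v j) β)) := rfl

theorem dm_single {ι : Type} [Fintype ι] [DecidableEq ι] (b : Basis (Fin p) ℂ P) (w : ι → P)
    (ξ : P →ₗ[ℂ] ℂ) (j : ι) (x : P) :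
    dm b w ξ (Pi.single j x) = (ξ x / 2) • syL b (w j) (w j) + ξ (w j) • syL b x (w j) := by
  apply Subtype.ext
  funext α β
  rw [dm_apply, Finset.sum_eq_single j]
  · simp only [Pi.single_eq_same, Submodule.coe_add, Submodule.coe_smul, Pi.add_apply,
      Pi.smul_apply, smul_eq_mul, syL_apply]
    ring
  · intro i _ hi
    simp [Pi.single_eq_of_ne hi]
  · intro h
    exact absurd (Finset.mem_univ _) h

theorem sm_eq_sum (b : Basis (Fin p) ℂ P) (B : SM (Fin p)) :
    B = ∑ α, ∑ β, (B.1 α β / 2) • syL b (b α) (b β) := by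
  classical
  apply Subtype.ext
  funext γ δ
  have hcoe : ((∑ α, ∑ β, (B.1 α β / 2) • syL b (b α) (b β) : SM (Fin p)) :
      Fin p → Fin p → ℂ) γ δ = ∑ α, ∑ β, (B.1 α β / 2) * ((syL b (b α) (b β)).1 γ δ) := by
    simp only [AddSubmonoidClass.coe_finsetSum, Submodule.coe_smul, Finset.sum_apply,
      Pi.smul_apply, smul_eq_mul]
  rw [hcoe]
  simp only [syL_apply, Basis.repr_self, Finsupp.single_apply, mul_add, Finset.sum_add_distrib]
  have e1 : ∑ α, ∑ β, B.1 α β / 2 * ((if α = γ then (1 : ℂ) else 0) * if β = δ then 1 else 0) =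
      B.1 γ δ / 2 := by
    rw [Finset.sum_eq_single γ, Finset.sum_eq_single δ]
    · simp
    · intro c _ hc
      simp [hc]
    · intro h
      exact absurd (Finset.mem_univ _) h
    · intro c _ hc
      simp [hc]
    · intro h
      exact absurd (Finset.mem_univ _) h
  have e2 : ∑ α, ∑ β, B.1 α β / 2 * ((if α = δ then (1 : ℂ) else 0) * if β = γ then 1 else 0) =
      B.1 δ γ / 2 := by
    rw [Finset.sum_eq_single δ, Finset.sum_eq_single γ]
    · simp
    · intro c _ hc
      simp [hc]
    · intro h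
      exact absurd (Finset.mem_univ _) h
    · intro c _ hc
      simp [hc]
    · intro h
      exact absurd (Finset.mem_univ _) h
  rw [e1, e2, ← B.2 γ δ]
  ring

theorem syL_comm (b : Basis (Fin p) ℂ P) (x y : P) : syL b x y = syL b y x := by
  apply Subtype.ext
  funext α β
  rw [syL_apply, syL_apply]
  ring

theorem dm_surjective {ι : Type} [Fintype ι] (b : Basis (Fin p) ℂ P) (w : ι → P)
    (hw : Submodule.span ℂ (Set.range w) = ⊤) (ξ : P →ₗ[ℂ] ℂ) (hc : ∀ j, ξ (w j) ≠ 0) :
    LinearMap.range (dm b w ξ) = ⊤ := by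
  classical
  by_contra hne
  obtain ⟨φ, hφ, hle⟩ := Submodule.exists_le_ker_of_lt_top _ (lt_top_iff_ne_top.2 hne)
  apply hφ
  have hs : ∀ j x, (ξ x / 2) * φ (syL b (w j) (w j)) + ξ (w j) * φ (syL b x (w j)) = 0 := by
    intro j x
    have h1 : dm b w ξ (Pi.single j x) ∈ LinearMap.ker φ :=
      hle (LinearMap.mem_range_self _ _)
    rw [LinearMap.mem_ker, dm_single, map_add, map_smul, map_smul] at h1
    exact h1
  have h0 : ∀ j, φ (syL b (w j) (w j)) = 0 := by
    intro j
    have h1 := hs j (w j)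
    have h2 : (ξ (w j) * (3 / 2)) * φ (syL b (w j) (w j)) = 0 := by linear_combination h1
    rcases mul_eq_zero.1 h2 with h3 | h3
    · exfalso
      rcases mul_eq_zero.1 h3 with h4 | h4
      · exact hc j h4
      · norm_num at h4
    · exact h3
  have h1 : ∀ j x, φ (syL b x (w j)) = 0 := by
    intro j x
    have h2 := hs j x
    rw [h0, mul_zero, zero_add] at h2
    exact (mul_eq_zero.1 h2).resolve_left (hc j)
  have h3 : ∀ x y, φ (syL b x y) = 0 := by
    intro x y
    have h4 : Submodule.span ℂ (Set.range w) ≤ LinearMap.ker (φ.comp (syL b x)) := by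
      rw [Submodule.span_le]
      rintro _ ⟨j, rfl⟩
      exact h1 j x
    have h5 : y ∈ Submodule.span ℂ (Set.range w) := by
      rw [hw]
      exact Submodule.mem_top
    exact h4 h5
  refine LinearMap.ext (fun B => ?_)
  rw [sm_eq_sum b B, map_sum]
  simp only [map_sum, map_smul, h3, smul_zero, Finset.sum_const_zero, LinearMap.zero_apply]

theorem finrank_ker_dm {ι : Type} [Fintype ι] [FiniteDimensional ℂ P] (b : Basis (Fin p) ℂ P)
    (w : ι → P) (hw : Submodule.span ℂ (Set.range w) = ⊤) (ξ : P →ₗ[ℂ] ℂ)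
    (hc : ∀ j, ξ (w j) ≠ 0) :
    finrank ℂ (LinearMap.ker (dm b w ξ)) + (p + 1).choose 2 = Fintype.card ι * p := by
  have h1 := (dm b w ξ).finrank_range_add_finrank_ker
  rw [dm_surjective b w hw ξ hc, finrank_top, finrank_SM, Module.finrank_pi_fintype,
    Module.finrank_eq_card_basis b] at h1
  simp only [Fintype.card_fin, Finset.sum_const, Finset.card_univ, smul_eq_mul] at h1
  omega

end Sym

/-- the space of scalar families -/
def I0 {N : ℕ} {ι : Type} [Fintype ι] (w : ι → Fin N → ℂ) : Submodule ℂ (ι → ℂ) where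
  carrier := {ζ | ∀ c : ι → ℂ, ∑ j, c j • w j = 0 → ∑ j, c j * ζ j = 0}
  add_mem' := fun {x y} hx hy c hc => by
    simp only [Pi.add_apply, mul_add, Finset.sum_add_distrib]
    rw [hx c hc, hy c hc, add_zero]
  zero_mem' := fun c _ => by simp
  smul_mem' := fun t x hx c hc => by
    have h : ∑ j, c j * (t • x) j = t * ∑ j, c j * x j := by
      rw [Finset.mul_sum]
      refine Finset.sum_congr rfl (fun j _ => ?_)
      rw [Pi.smul_apply, smul_eq_mul]
      ring
    rw [h, hx c hc, mul_zero]

theorem finrank_I0 {N : ℕ} {ι : Type} [Fintype ι] (w : ι → Fin N → ℂ) :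
    finrank ℂ (I0 w) ≤ finrank ℂ (Submodule.span ℂ (Set.range w)) := by
  classical
  let W : (ι → ℂ) →ₗ[ℂ] (Fin N → ℂ) := Fintype.linearCombination ℂ w
  have hW : ∀ c, W c = ∑ j, c j • w j := fun c => rfl
  have h1 := W.finrank_range_add_finrank_ker
  have h2 : LinearMap.range W = Submodule.span ℂ (Set.range w) :=
    Fintype.range_linearCombination ℂ w
  rw [h2] at h1
  have h3 := Subspace.finrank_add_finrank_dualAnnihilator_eq (LinearMap.ker W)
  let e : I0 w →ₗ[ℂ] (LinearMap.ker W).dualAnnihilator :=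
    { toFun := fun ζ => ⟨∑ j, ζ.1 j • LinearMap.proj j, by
        rw [Submodule.mem_dualAnnihilator]
        intro c hc
        have h := ζ.2 c hc
        simp only [LinearMap.sum_apply, LinearMap.smul_apply, LinearMap.proj_apply, smul_eq_mul]
        rw [← h]
        exact Finset.sum_congr rfl (fun j _ => mul_comm _ _)⟩
      map_add' := fun x y => by
        apply Subtype.ext
        simp only [Submodule.coe_add, Pi.add_apply, add_smul, Finset.sum_add_distrib]
      map_smul' := fun t x => by
        apply Subtype.ext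
        simp only [Submodule.coe_smul, Pi.smul_apply, smul_eq_mul, RingHom.id_apply,
          Finset.smul_sum, mul_smul] }
  have hinj : Function.Injective e := by
    intro x y hxy
    apply Subtype.ext
    funext j
    have h4 := congrArg (fun z : (LinearMap.ker W).dualAnnihilator => z.1 (Pi.single j 1)) hxy
    have h5 : ∀ z : I0 w, (e z).1 (Pi.single j 1) = z.1 j := by
      intro z
      show (∑ i, z.1 i • LinearMap.proj i : (ι → ℂ) →ₗ[ℂ] ℂ) (Pi.single j 1) = z.1 j
      simp only [LinearMap.sum_apply, LinearMap.smul_apply, LinearMap.proj_apply, smul_eq_mul]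
      rw [Finset.sum_eq_single j]
      · simp
      · intro i _ hi
        rw [Pi.single_eq_of_ne hi, mul_zero]
      · intro h
        exact absurd (Finset.mem_univ _) h
    simp only [h5] at h4
    exact h4
  have h6 := LinearMap.finrank_le_finrank_of_injective hinj
  omega

/-- the space of scalar families killed by the weighted sum -/
def I1 {N : ℕ} {ι : Type} [Fintype ι] (w : ι → Fin N → ℂ) (c : ι → ℂ) :
    Submodule ℂ (ι → ℂ) where
  carrier := {ζ | ζ ∈ I0 w ∧ ∀ m, ∑ j, c j * (ζ j * w j m) = 0}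
  add_mem' := fun {x y} hx hy => ⟨(I0 w).add_mem hx.1 hy.1, fun m => by
    simp only [Pi.add_apply, add_mul, mul_add, Finset.sum_add_distrib]
    rw [hx.2 m, hy.2 m, add_zero]⟩
  zero_mem' := ⟨(I0 w).zero_mem, fun m => by simp⟩
  smul_mem' := fun t x hx => ⟨(I0 w).smul_mem t hx.1, fun m => by
    have h : ∑ j, c j * ((t • x) j * w j m) = t * ∑ j, c j * (x j * w j m) := by
      rw [Finset.mul_sum]
      refine Finset.sum_congr rfl (fun j _ => ?_)
      rw [Pi.smul_apply, smul_eq_mul]
      ring
    rw [h, hx.2 m, mul_zero]⟩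

theorem finrank_I1 {N a : ℕ} {ι : Type} [Fintype ι] (w : ι → Fin N → ℂ) (c : ι → ℂ)
    (ha : a ≤ (Matrix.of fun l m : Fin N => ∑ j, c j * (w j l * w j m)).rank) :
    finrank ℂ (I1 w c) + a ≤ finrank ℂ (Submodule.span ℂ (Set.range w)) := by
  classical
  let g : I0 w →ₗ[ℂ] (Fin N → ℂ) :=
    { toFun := fun ζ m => ∑ j, c j * (ζ.1 j * w j m)
      map_add' := fun x y => by
        funext m
        simp only [Submodule.coe_add, Pi.add_apply, add_mul, mul_add, Finset.sum_add_distrib]
      map_smul' := fun t x => by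
        funext m
        simp only [Submodule.coe_smul, Pi.smul_apply, smul_eq_mul, RingHom.id_apply,
          Finset.mul_sum]
        refine Finset.sum_congr rfl (fun j _ => ?_)
        ring }
  have hg : ∀ ζ m, g ζ m = ∑ j, c j * (ζ.1 j * w j m) := fun _ _ => rfl
  have h1 := g.finrank_range_add_finrank_ker
  have h2 := finrank_I0 w
  have h3 : a ≤ finrank ℂ (LinearMap.range g) := by
    refine le_trans ha ?_
    rw [Matrix.rank]
    apply Submodule.finrank_mono
    rintro _ ⟨φ, rfl⟩
    refine ⟨⟨fun j => ∑ m, w j m * φ m, ?_⟩, ?_⟩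
    · intro d hd
      simp only [Finset.mul_sum]
      rw [Finset.sum_comm]
      refine Finset.sum_eq_zero (fun m _ => ?_)
      have h4 := congrFun hd m
      simp only [Finset.sum_apply, Pi.smul_apply, smul_eq_mul, Pi.zero_apply] at h4
      have h5 : ∑ j, d j * (w j m * φ m) = (∑ j, d j * w j m) * φ m := by
        rw [Finset.sum_mul]
        exact Finset.sum_congr rfl (fun j _ => by ring)
      rw [h5, h4, zero_mul]
    · funext m
      rw [hg, Matrix.mulVecLin_apply, Matrix.mulVec, dotProduct]
      simp only [Matrix.of_apply, Finset.sum_mul, Finset.mul_sum]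
      rw [Finset.sum_comm]
      refine Finset.sum_congr rfl (fun j _ => Finset.sum_congr rfl (fun i _ => ?_))
      ring
  have h4 : finrank ℂ (I1 w c) ≤ finrank ℂ (LinearMap.ker g) := by
    let e : I1 w c →ₗ[ℂ] LinearMap.ker g :=
      { toFun := fun x => ⟨⟨x.1, x.2.1⟩, by
          rw [LinearMap.mem_ker]
          funext m
          exact x.2.2 m⟩
        map_add' := fun x y => rfl
        map_smul' := fun t x => rfl }
    refine LinearMap.finrank_le_finrank_of_injective (f := e) (fun x y hxy => ?_)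
    apply Subtype.ext
    exact congrArg (fun z : LinearMap.ker g => z.1.1) hxy
  omega

/-- families in a vector space all whose scalar images lie in a given space -/
theorem finrank_le_mul {ι : Type} [Fintype ι] {X : Type} [AddCommGroup X] [Module ℂ X]
    [FiniteDimensional ℂ X] (I : Submodule ℂ (ι → X)) (J : Submodule ℂ (ι → ℂ))
    (h : ∀ z ∈ I, ∀ ψ : X →ₗ[ℂ] ℂ, (fun j => ψ (z j)) ∈ J) :
    finrank ℂ I ≤ finrank ℂ J * finrank ℂ X := by
  let b := Module.finBasis ℂ X
  let e : I →ₗ[ℂ] (Fin (finrank ℂ X) → J) :=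
    { toFun := fun z k => ⟨fun j => b.coord k (z.1 j), h z.1 z.2 (b.coord k)⟩
      map_add' := fun x y => by
        funext k
        apply Subtype.ext
        funext j
        exact map_add (b.coord k) (x.1 j) (y.1 j)
      map_smul' := fun t x => by
        funext k
        apply Subtype.ext
        funext j
        exact map_smul (b.coord k) t (x.1 j) }
  have hinj : Function.Injective e := by
    intro x y hxy
    apply Subtype.ext
    funext j
    refine b.ext_elem (fun k => ?_)
    have h1 := congrFun hxy k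
    have h2 := congrArg (fun z : J => z.1 j) h1
    exact h2
  have h1 := LinearMap.finrank_le_finrank_of_injective hinj
  rw [Module.finrank_pi_fintype] at h1
  simp only [Finset.sum_const, Finset.card_univ, Fintype.card_fin, smul_eq_mul] at h1
  rwa [mul_comm] at h1

theorem lin3 {N a : ℕ} {ι : Type} [Fintype ι] (w : ι → Fin N → ℂ)
    (ξ : (Fin N → ℂ) →ₗ[ℂ] ℂ) (hc : ∀ j, ξ (w j) ≠ 0)
    (S : Submodule ℂ (ι → Fin N → ℂ))
    (h1 : ∀ v ∈ S, ∀ c : ι → ℂ, ∑ j, c j • w j = 0 →
      ∑ j, c j • v j ∈ Submodule.span ℂ (Set.range w))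
    (h2 : ∀ v ∈ S, ∀ l m, ∑ j, (ξ (v j) * (w j l * w j m) +
      ξ (w j) * (v j l * w j m + w j l * v j m)) = 0)
    (ha : a ≤ (Matrix.of fun l m : Fin N => ∑ j, ξ (w j) * (w j l * w j m)).rank) :
    finrank ℂ S + (finrank ℂ (Submodule.span ℂ (Set.range w)) + 1).choose 2 ≤
      (finrank ℂ (Submodule.span ℂ (Set.range w)) - a) *
        (N - finrank ℂ (Submodule.span ℂ (Set.range w))) +
      Fintype.card ι * finrank ℂ (Submodule.span ℂ (Set.range w)) := by
  classical
  set P : Submodule ℂ (Fin N → ℂ) := Submodule.span ℂ (Set.range w) with hP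
  set p : ℕ := finrank ℂ P with hp
  have hwP : ∀ j, w j ∈ P := fun j => Submodule.subset_span ⟨j, rfl⟩
  let wP : ι → P := fun j => ⟨w j, hwP j⟩
  have hspan : Submodule.span ℂ (Set.range wP) = ⊤ := by
    rw [eq_top_iff]
    rintro ⟨x, hx⟩ _
    have h3 : ∀ y ∈ P, ∀ hy : y ∈ P, (⟨y, hy⟩ : P) ∈ Submodule.span ℂ (Set.range wP) := by
      intro y hy0
      rw [hP] at hy0
      induction hy0 using Submodule.span_induction with
      | mem z hz =>
        intro hy
        obtain ⟨j, rfl⟩ := hz
        exact Submodule.subset_span ⟨j, rfl⟩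
      | zero =>
        intro hy
        have : (⟨0, hy⟩ : P) = 0 := rfl
        rw [this]
        exact Submodule.zero_mem _
      | add u v hu hv ihu ihv =>
        intro hy
        have : (⟨u + v, hy⟩ : P) = ⟨u, hu⟩ + ⟨v, hv⟩ := rfl
        rw [this]
        exact Submodule.add_mem _ (ihu _) (ihv _)
      | smul t u hu ihu =>
        intro hy
        have : (⟨t • u, hy⟩ : P) = t • ⟨u, hu⟩ := rfl
        rw [this]
        exact Submodule.smul_mem _ _ (ihu _)
    exact h3 x hx hx
  let b : Basis (Fin p) ℂ P := Module.finBasis ℂ P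
  have hker := finrank_ker_dm b wP hspan (ξ.comp P.subtype) (fun j => hc j)
  -- the map to the quotient
  let g : S →ₗ[ℂ] (ι → (Fin N → ℂ) ⧸ P) :=
    { toFun := fun v j => P.mkQ (v.1 j)
      map_add' := fun x y => rfl
      map_smul' := fun t x => rfl }
  have hg : ∀ v j, g v j = P.mkQ (v.1 j) := fun _ _ => rfl
  have hrn := g.finrank_range_add_finrank_ker
  have hK : finrank ℂ (LinearMap.ker g) ≤
      finrank ℂ (LinearMap.ker (dm b wP (ξ.comp P.subtype))) := by
    have hmem : ∀ v : LinearMap.ker g, ∀ j, v.1.1 j ∈ P := by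
      intro v j
      have h3 : g v.1 = 0 := v.2
      have h4 := congrFun h3 j
      rw [hg] at h4
      exact (Submodule.Quotient.mk_eq_zero P).1 h4
    let e : LinearMap.ker g →ₗ[ℂ] LinearMap.ker (dm b wP (ξ.comp P.subtype)) :=
      { toFun := fun v => ⟨fun j => ⟨v.1.1 j, hmem v j⟩, by
          rw [LinearMap.mem_ker]
          apply Subtype.ext
          funext α β
          rw [dm_apply]
          obtain ⟨θ, hθ⟩ := LinearMap.exists_extend (b.coord α)
          obtain ⟨θ', hθ'⟩ := LinearMap.exists_extend (b.coord β)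
          have e1 : ∀ x : P, b.repr x α = θ x.1 := fun x => by
            have := LinearMap.congr_fun hθ x
            exact this.symm
          have e2 : ∀ x : P, b.repr x β = θ' x.1 := fun x => by
            have := LinearMap.congr_fun hθ' x
            exact this.symm
          have h3 := lin3_bil w v.1.1 ξ (h2 v.1.1 v.1.2) θ θ'
          simp only [e1, e2]
          exact h3⟩
        map_add' := fun x y => rfl
        map_smul' := fun t x => rfl }
    refine LinearMap.finrank_le_finrank_of_injective (f := e) (fun x y hxy => ?_)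
    apply Subtype.ext
    apply Subtype.ext
    funext j
    have h3 := congrArg (fun z : LinearMap.ker (dm b wP (ξ.comp P.subtype)) => (z.1 j).1) hxy
    exact h3
  have hI : finrank ℂ (LinearMap.range g) ≤
      finrank ℂ (I1 w (fun j => ξ (w j))) * finrank ℂ ((Fin N → ℂ) ⧸ P) := by
    apply finrank_le_mul
    rintro z ⟨v, rfl⟩ ψ
    have hψ : ∀ x ∈ P, ψ (P.mkQ x) = 0 := by
      intro x hx
      rw [Submodule.mkQ_apply, (Submodule.Quotient.mk_eq_zero P).2 hx, map_zero]
    refine ⟨?_, ?_⟩
    · intro c hcz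
      have h3 := hψ _ (h1 v.1 v.2 c hcz)
      rw [map_sum, map_sum] at h3
      rw [← h3]
      refine Finset.sum_congr rfl (fun j _ => ?_)
      rw [map_smul, map_smul, smul_eq_mul]
      rfl
    · intro m
      have h3 := lin3_bil w v.1 ξ (h2 v.1 v.2) (ψ.comp P.mkQ) (LinearMap.proj m)
      rw [← h3]
      refine Finset.sum_congr rfl (fun j _ => ?_)
      have h4 : (ψ.comp P.mkQ) (w j) = 0 := hψ _ (hwP j)
      rw [h4]
      simp only [LinearMap.comp_apply, LinearMap.proj_apply, hg]
      ring
  have hJ := finrank_I1 w (fun j => ξ (w j)) ha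
  have hq : finrank ℂ ((Fin N → ℂ) ⧸ P) = N - p := by
    have h3 := Submodule.finrank_quotient_add_finrank P
    rw [Module.finrank_fin_fun] at h3
    omega
  rw [hq] at hI
  have hJ' : finrank ℂ (I1 w (fun j => ξ (w j))) ≤ p - a := by
    have : finrank ℂ (I1 w (fun j => ξ (w j))) + a ≤ p := hJ
    omega
  have hI' := Nat.mul_le_mul_right (N - p) hJ'
  omega

end H80T
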