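import Mathlib
import Pool.Agent.H80T.Geo3
import Pool.Agent.H80T.Lin3

/-! UP3: upper bound for the dimension of the space of values of derivations, `k = 3`. -/

namespace H80T

open Module

variable {n a b r : ℕ}

/-- families supported off `JJ` with vanishing last coordinates -/
def KN (T : H80R.Dec n 3 a b r) : Submodule ℂ (Fin r → Fin (n + 1) → ℂ) where
  carrier := {v | (∀ j, T.w j (Fin.last n) ≠ 0 → v j = 0) ∧ ∀ j, v j (Fin.last n) = 0}
  add_mem' := fun {x y} hx hy => ⟨fun j hj => by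
    rw [Pi.add_apply, hx.1 j hj, hy.1 j hj, add_zero], fun j => by
    rw [Pi.add_apply, Pi.add_apply, hx.2 j, hy.2 j, add_zero]⟩
  zero_mem' := ⟨fun j _ => rfl, fun j => rfl⟩
  smul_mem' := fun t x hx => ⟨fun j hj => by
    rw [Pi.smul_apply, hx.1 j hj, smul_zero], fun j => by
    rw [Pi.smul_apply, Pi.smul_apply, hx.2 j, smul_zero]⟩

theorem finrank_KN (T : H80R.Dec n 3 a b r) : finrank ℂ (KN T) ≤ (r - uu T) * n := by
  classical
  let e : KN T →ₗ[ℂ] ({j : Fin r // ¬ T.w j (Fin.last n) ≠ 0} → Fin n → ℂ) :=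
    { toFun := fun v j l => v.1 j.1 l.castSucc
      map_add' := fun x y => rfl
      map_smul' := fun t x => rfl }
  have hinj : Function.Injective e := by
    intro x y hxy
    apply Subtype.ext
    funext j l
    by_cases hj : T.w j (Fin.last n) ≠ 0
    · rw [x.2.1 j hj, y.2.1 j hj]
    · refine Fin.lastCases ?_ (fun l => ?_) l
      · rw [x.2.2 j, y.2.2 j]
      · exact congrFun (congrFun hxy ⟨j, hj⟩) l
  have h1 := LinearMap.finrank_le_finrank_of_injective hinj
  rw [Module.finrank_pi_fintype] at h1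
  simp only [Module.finrank_fin_fun, Finset.sum_const, Finset.card_univ, smul_eq_mul] at h1
  have h2 : Fintype.card {j : Fin r // ¬ T.w j (Fin.last n) ≠ 0} = r - uu T := by
    rw [Fintype.card_subtype_compl, Fintype.card_fin, uu, Nat.card_eq_fintype_card]
  rwa [h2] at h1

/-- restriction to the summands off the hyperplane -/
def gJ (T : H80R.Dec n 3 a b r) : E1 T →ₗ[ℂ] (JJ T → Fin (n + 1) → ℂ) where
  toFun := fun v j => v.1 j.1
  map_add' := fun _ _ => rfl
  map_smul' := fun _ _ => rfl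

theorem gJ_apply (T : H80R.Dec n 3 a b r) (v : E1 T) (j : JJ T) : gJ T v j = v.1 j.1 := rfl

theorem sum_JJ (T : H80R.Dec n 3 a b r) [Fintype (JJ T)] (f : Fin r → ℂ)
    (hf : ∀ j, T.w j (Fin.last n) = 0 → f j = 0) : ∑ j : JJ T, f j.1 = ∑ j, f j := by
  classical
  rw [← Finset.sum_subtype (Finset.univ.filter (fun j => T.w j (Fin.last n) ≠ 0))
    (fun x => by simp) f]
  refine Finset.sum_filter_of_ne (fun j _ hj h0 => hj (hf j h0))

theorem range_gJ (T : H80R.Dec n 3 a b r) (ha : a ≤ n) :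
    finrank ℂ (LinearMap.range (gJ T)) + (finrank ℂ (PJ T) + 1).choose 2 ≤
      (finrank ℂ (PJ T) - a) * (n + 1 - finrank ℂ (PJ T)) + uu T * finrank ℂ (PJ T) := by
  classical
  have hphi : ∀ l m, Phi T l m =
      ∑ j : JJ T, T.w j.1 (Fin.last n) * (T.w j.1 l * T.w j.1 m) := by
    intro l m
    rw [phi_eq, sum_JJ T (fun j => T.w j (Fin.last n) * (T.w j l * T.w j m))]
    intro j hj
    rw [hj, zero_mul]
  have h := lin3 (N := n + 1) (a := a) (fun j : JJ T => T.w j.1) (LinearMap.proj (Fin.last n))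
    (fun j => j.2) (LinearMap.range (gJ T)) ?_ ?_ ?_
  · have hu : uu T = Fintype.card (JJ T) := by
      rw [uu, Nat.card_eq_fintype_card]
    rw [hu]
    exact h
  · rintro _ ⟨⟨v, D, hD1, hD2⟩, rfl⟩ c hc
    have e1 : ∑ j : JJ T, c j • gJ T ⟨v, D, hD1, hD2⟩ j =
        ∑ j : JJ T, (-D (c j)) • T.w j.1 := by
      funext l
      have h1 : ∑ j : JJ T, c j * T.w j.1 l = 0 := by
        have := congrFun hc l
        simpa only [Finset.sum_apply, Pi.smul_apply, smul_eq_mul, Pi.zero_apply] using this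
      have h2 := congrArg D h1
      rw [map_sum, map_zero] at h2
      simp only [Derivation.leibniz, smul_eq_mul, Finset.sum_add_distrib] at h2
      simp only [Finset.sum_apply, Pi.smul_apply, smul_eq_mul, gJ_apply, hD2, neg_mul,
        Finset.sum_neg_distrib]
      have h3 : ∑ j : JJ T, D (c j) * T.w j.1 l = ∑ j : JJ T, T.w j.1 l * D (c j) :=
        Finset.sum_congr rfl (fun j _ => mul_comm _ _)
      rw [h3]
      linear_combination h2
    rw [e1]
    exact Submodule.sum_mem _ (fun j _ => Submodule.smul_mem _ _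
      (Submodule.subset_span ⟨j, rfl⟩))
  · rintro _ ⟨⟨v, D, hD1, hD2⟩, rfl⟩ l m
    have h1 := hD1 l m
    rw [hphi, map_sum] at h1
    refine Eq.trans ?_ h1
    refine Finset.sum_congr rfl (fun j _ => ?_)
    simp only [Derivation.leibniz, smul_eq_mul, gJ_apply, hD2, LinearMap.proj_apply]
    ring
  · have h1 := rank_phi T ha
    have h2 : (Matrix.of fun l m : Fin (n + 1) => ∑ j : JJ T,
        (LinearMap.proj (Fin.last n) : (Fin (n + 1) → ℂ) →ₗ[ℂ] ℂ) (T.w j.1) *
          (T.w j.1 l * T.w j.1 m)) = Phi T := by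
      ext l m
      rw [hphi]
      rfl
    rw [h2]
    exact h1

theorem ker_gJ (T : H80R.Dec n 3 a b r) :
    finrank ℂ (LinearMap.ker (gJ T)) ≤ finrank ℂ (E1 T ⊓ KN T : Submodule ℂ _) := by
  have hmem : ∀ v : LinearMap.ker (gJ T), v.1.1 ∈ E1 T ⊓ KN T := by
    intro v
    refine ⟨v.1.2, fun j hj => ?_, fun j => ?_⟩
    · have h1 : gJ T v.1 = 0 := v.2
      exact congrFun h1 ⟨j, hj⟩
    · by_cases hj : T.w j (Fin.last n) ≠ 0
      · have h1 : gJ T v.1 = 0 := v.2
        have h2 : v.1.1 j = 0 := congrFun h1 ⟨j, hj⟩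
        rw [h2]
        rfl
      · rw [not_not] at hj
        obtain ⟨D, hD1, hD2⟩ := v.1.2
        rw [hD2, hj, map_zero]
  let e : LinearMap.ker (gJ T) →ₗ[ℂ] (E1 T ⊓ KN T : Submodule ℂ _) :=
    { toFun := fun v => ⟨v.1.1, hmem v⟩
      map_add' := fun x y => rfl
      map_smul' := fun t x => rfl }
  refine LinearMap.finrank_le_finrank_of_injective (f := e) (fun x y hxy => ?_)
  apply Subtype.ext
  apply Subtype.ext
  exact congrArg (fun z : (E1 T ⊓ KN T : Submodule ℂ _) => z.1) hxy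

theorem E1_upper (T : H80R.Dec n 3 a b r) (ha : a ≤ n) :
    finrank ℂ (E1 T) + (finrank ℂ (PJ T) + 1).choose 2 ≤
      (r - uu T) * n + (finrank ℂ (PJ T) - a) * (n + 1 - finrank ℂ (PJ T)) +
        uu T * finrank ℂ (PJ T) := by
  have h1 := (gJ T).finrank_range_add_finrank_ker
  have h2 := range_gJ T ha
  have h3 := ker_gJ T
  have h4 : finrank ℂ (E1 T ⊓ KN T : Submodule ℂ _) ≤ finrank ℂ (KN T) :=
    Submodule.finrank_mono inf_le_right
  have h5 := finrank_KN T
  omega

/-- the case of equality -/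
theorem E1_full (T : H80R.Dec n 3 a b r) (ha : a ≤ n)
    (h : (r - uu T) * n + (finrank ℂ (PJ T) - a) * (n + 1 - finrank ℂ (PJ T)) +
        uu T * finrank ℂ (PJ T) ≤ finrank ℂ (E1 T) + (finrank ℂ (PJ T) + 1).choose 2)
    (v : Fin r → Fin (n + 1) → ℂ) (hv1 : ∀ j, T.w j (Fin.last n) ≠ 0 → v j = 0)
    (hv2 : ∀ j, v j (Fin.last n) = 0) : v ∈ E1 T := by
  have h1 := (gJ T).finrank_range_add_finrank_ker
  have h2 := range_gJ T ha
  have h3 := ker_gJ T
  have h5 := finrank_KN T
  have h6 : E1 T ⊓ KN T = KN T :=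
    Submodule.eq_of_le_of_finrank_le inf_le_right (by omega)
  have h7 : v ∈ KN T := ⟨hv1, hv2⟩
  rw [← h6] at h7
  exact h7.1

end H80T
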