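import Mathlib
import Pool.Agent.H80T.Up3
import Pool.Agent.H80T.Low3
import Pool.Agent.H80T.Tie3

/-! ASM3: assembly, `k = 3`. -/

namespace H80T

open Module

variable {n a b r : ℕ}

theorem choose_two_succ (m : ℕ) : 2 * (m + 1).choose 2 = m * (m + 1) := by
  rw [Nat.choose_two_right, Nat.add_sub_cancel, mul_comm (m + 1) m]
  exact Nat.mul_div_cancel' (Nat.even_mul_succ_self m).two_dvd

theorem rank3 (T : H80R.Dec n 3 a b r) (h1 : 1 ≤ a) (ha : a ≤ n) (t : ℕ)
    (ht : finrank ℂ (tahS T.pl T.pp T.py) ≤ t) (hW : t < finrank ℂ (dpS T.w))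
    (hP : a = n ∨ r * n + 2 + t + (a + 1).choose 2 ≤ n.multichoose 3 + (a + 1) * n ∨
      (t = 0 ∧ r * n + 1 + (a + 1).choose 2 ≤ n.multichoose 3 + (a + 1) * n ∧
        a + 2 + (n + 1 - a).choose 2 ≤ r ∧ n ≤ a + b)) : False := by
  by_cases hPt : PJ T = ⊤
  · have := inj_case T hPt
    omega
  have hp : finrank ℂ (PJ T) ≤ n := by
    have h2 : finrank ℂ (PJ T) < finrank ℂ (Fin (n + 1) → ℂ) := Submodule.finrank_lt hPt
    simp at h2
    omega
  have hap := a_lt_p T h1 ha
  have hpu := p_lt_u T h1 ha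
  have hur := u_le_r T
  have hlow := E1_lower T t ht
  have hup := E1_upper T ha
  have hfull := E1_full T ha
  have htie := fun h0 => tie_case T h0 hp (by omega)
  have hlt := fun hab => u_lt_r T h1 ha hab hp
  set p := finrank ℂ (PJ T) with hpdef
  set u := uu T with hudef
  set e1 := finrank ℂ (E1 T) with hedef
  clear_value p u e1
  obtain ⟨q, rfl⟩ : ∃ q, p = a + 1 + q := ⟨p - (a + 1), by omega⟩
  obtain ⟨e, rfl⟩ : ∃ e, n = a + 1 + q + e := ⟨n - (a + 1 + q), by omega⟩
  obtain ⟨f, rfl⟩ : ∃ f, u = a + 1 + q + 1 + f := ⟨u - (a + 1 + q + 1), by omega⟩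
  obtain ⟨g, rfl⟩ : ∃ g, r = a + 1 + q + 1 + f + g := ⟨r - (a + 1 + q + 1 + f), by omega⟩
  have e1' : a + 1 + q + 1 + f + g - (a + 1 + q + 1 + f) = g := by omega
  have e2 : a + 1 + q - a = 1 + q := by omega
  have e3 : a + 1 + q + e + 1 - (a + 1 + q) = e + 1 := by omega
  have e4 : a + 1 + q + e + 2 - (a + 1 + q) = e + 1 + 1 := by omega
  rw [e1', e2, e3] at hup hfull
  have c1 := choose_two_succ (a + 1 + q)
  have c2 := choose_two_succ a
  rcases hP with hP | hP | ⟨h0, hP, hcnt, hab⟩
  · omega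
  · exfalso
    have : 2 * ((a + 1 + q + 1 + f + g) * (a + 1 + q + e) + 2 + (a + 1).choose 2 +
        (a + 1 + q + 1).choose 2) ≤ 2 * (g * (a + 1 + q + e) + (1 + q) * (e + 1) +
        (a + 1 + q + 1 + f) * (a + 1 + q) + (a + 1) * (a + 1 + q + e)) := by omega
    rw [mul_add, mul_add, c1, c2] at this
    have h5 : q * q ≥ q ∨ q = 0 := by
      rcases Nat.eq_zero_or_pos q with h | h
      · right; exact h
      · left; nlinarith
    have h6 : 0 ≤ f * e := Nat.zero_le _
    rcases h5 with h5 | h5 <;> nlinarith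
  · subst h0
    have hlow' : (a + 1 + q + e).multichoose 3 ≤ e1 := by omega
    have h5 : q ≤ q * q := Nat.le_mul_self q
    have h7 : 2 * (f * e) + q * q ≤ q := by
      have h8 : 2 * ((a + 1 + q + 1 + f + g) * (a + 1 + q + e) + 1 + (a + 1).choose 2 +
        (a + 1 + q + 1).choose 2) ≤ 2 * (g * (a + 1 + q + e) + (1 + q) * (e + 1) +
        (a + 1 + q + 1 + f) * (a + 1 + q) + (a + 1) * (a + 1 + q + e)) := by omega
      rw [mul_add, mul_add, c1, c2] at h8
      nlinarith
    have hfe : f * e = 0 := by omega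
    have hqq : q * q = q := by omega
    have hq : q = 0 ∨ q = 1 := by
      rcases Nat.lt_or_ge q 2 with h | h
      · omega
      · nlinarith
    have hF := hfull (by
      have h9 : 2 * (g * (a + 1 + q + e) + (1 + q) * (e + 1) +
          (a + 1 + q + 1 + f) * (a + 1 + q) + (a + 1) * (a + 1 + q + e)) ≤
          2 * ((a + 1 + q + 1 + f + g) * (a + 1 + q + e) + 1 + (a + 1).choose 2 +
        (a + 1 + q + 1).choose 2) := by
        rw [mul_add 2 _ ((a + 1 + q + 1).choose 2), mul_add 2 _ ((a + 1).choose 2), c1, c2]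
        nlinarith
      omega)
    have hfin : (a + 1 + q + e + 2 - (a + 1 + q)).choose 2 + (a + 1 + q + 1 + f) ≤
        a + 1 + q + 1 + f + g := by
      rw [e4]
      rcases Nat.eq_zero_or_pos e with he | he
      · subst he
        have := hlt hab
        simp
        omega
      · have hf0 : f = 0 := by
          rcases Nat.mul_eq_zero.mp hfe with h | h
          · exact h
          · omega
        subst hf0
        rcases hq with rfl | rfl
        · have e5 : a + 1 + 0 + e + 1 - a = e + 1 + 1 := by omega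
          rw [e5] at hcnt
          omega
        · have e5 : a + 1 + 1 + e + 1 - a = e + 1 + 1 + 1 := by omega
          rw [e5] at hcnt
          have e6 : (e + 1 + 1 + 1).choose 2 = (e + 1 + 1).choose 2 + (e + 1 + 1) := by
            rw [Nat.choose_succ_succ' (e + 1 + 1) 1, Nat.choose_one_right, add_comm]
          omega
    have := htie (by omega) hF hfin
    omega

end H80T
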