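import Mathlib
import Pool.Agent.H80T.Defs3

namespace H80T

open Module MvPolynomial

/-- evaluation of forms at a family of points -/
noncomputable def evM {ι : Type} {N : ℕ} (d : ℕ) (z : ι → Fin N → ℂ) :
    H80R.Fm N d →ₗ[ℂ] (ι → ℂ) where
  toFun A := fun i => eval (z i) A.1
  map_add' A B := by
    ext i
    simp
  map_smul' c A := by
    ext i
    simp

/-- values of derivations on the first coordinates of a family of points -/
def EV {ι : Type} {n : ℕ} (z : ι → Fin (n + 1) → ℂ) : Submodule ℂ (ι → Fin n → ℂ) where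
  carrier := {v | ∃ D : Derivation ℚ ℂ ℂ, ∀ i (m : Fin n), v i m = D (z i m.castSucc)}
  add_mem' := by
    rintro v v' ⟨D, h⟩ ⟨D', h'⟩
    exact ⟨D + D', fun i m => by simp [h, h']⟩
  zero_mem' := ⟨0, fun i m => by simp⟩
  smul_mem' := by
    rintro c v ⟨D, h⟩
    exact ⟨c • D, fun i m => by simp [h]⟩

/-- the values at `j` of the elements of `E` vanishing on `S` -/
def vals {ι : Type} {n : ℕ} (E : Submodule ℂ (ι → Fin n → ℂ)) (S : Finset ι) (j : ι) :
    Submodule ℂ (Fin n → ℂ) where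
  carrier := {x | ∃ v ∈ E, (∀ i ∈ S, v i = 0) ∧ v j = x}
  add_mem' := by
    rintro x y ⟨v, h1, h2, h3⟩ ⟨v', h1', h2', h3'⟩
    exact ⟨v + v', E.add_mem h1 h1', fun i hi => by simp [h2 i hi, h2' i hi],
      by simp [h3, h3']⟩
  zero_mem' := ⟨0, E.zero_mem, fun i _ => rfl, rfl⟩
  smul_mem' := by
    rintro c x ⟨v, h1, h2, h3⟩
    exact ⟨c • v, E.smul_mem c h1, fun i hi => by simp [h2 i hi], by simp [h3]⟩

/-- the values on `S` of elements of `E` are arbitrary -/
def FreeOn {ι : Type} {n : ℕ} (E : Submodule ℂ (ι → Fin n → ℂ)) (S : Finset ι) : Prop :=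
  ∀ x : ι → Fin n → ℂ, ∃ v ∈ E, ∀ i ∈ S, v i = x i

variable {n k a b r : ℕ}

/-- normalised summands: the last coordinate is `1` -/
noncomputable def zt (T : H80R.Dec n k a b r) (j : JJ T) : Fin (n + 1) → ℂ :=
  fun l => T.w j.1 l / T.w j.1 (Fin.last n)

/-- values of derivations on all the summands -/
def GG (T : H80R.Dec n k a b r) : Submodule ℂ (Fin r → Fin (n + 1) → ℂ) where
  carrier := {v | ∃ D : Derivation ℚ ℂ ℂ, ∀ j l, v j l = D (T.w j l)}
  add_mem' := by
    rintro v v' ⟨D, h⟩ ⟨D', h'⟩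
    exact ⟨D + D', fun i m => by simp [h, h']⟩
  zero_mem' := ⟨0, fun i m => by simp⟩
  smul_mem' := by
    rintro c v ⟨D, h⟩
    exact ⟨c • D, fun i m => by simp [h]⟩

/-- values of derivations on the summands off the hyperplane -/
def GJ (T : H80R.Dec n k a b r) : Submodule ℂ (JJ T → Fin (n + 1) → ℂ) where
  carrier := {v | ∃ D : Derivation ℚ ℂ ℂ, ∀ j l, v j l = D (T.w j.1 l)}
  add_mem' := by
    rintro v v' ⟨D, h⟩ ⟨D', h'⟩
    exact ⟨D + D', fun i m => by simp [h, h']⟩
  zero_mem' := ⟨0, fun i m => by simp⟩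
  smul_mem' := by
    rintro c v ⟨D, h⟩
    exact ⟨c • D, fun i m => by simp [h]⟩

/-- rank of the evaluations in degree `d` at the normalised summands -/
noncomputable def rho (T : H80R.Dec n k a b r) (d : ℕ) : ℕ :=
  finrank ℂ (LinearMap.range (evM d (zt T)))

end H80T
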