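import Mathlib
import Pool.Agent.H80T.Defs4

/-! CASEA: points with many degrees of freedom impose many conditions. -/

namespace H80T

open Module MvPolynomial

/-- Descent: a linear system with coefficients in a subfield which has a nonzero solution has a
nonzero solution with entries in the subfield. -/
theorem exists_sol_subfield' {ι κ : Type} [Fintype κ] (F : Subfield ℂ) (M : ι → κ → ℂ)
    (hM : ∀ i l, M i l ∈ F) (x : κ → ℂ) (hx : x ≠ 0) (h : ∀ i, ∑ l, M i l * x l = 0) :
    ∃ y : κ → ℂ, y ≠ 0 ∧ (∀ l, y l ∈ F) ∧ ∀ i, ∑ l, M i l * y l = 0 := by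
  obtain ⟨l₀, hl₀⟩ := Function.ne_iff.1 hx
  have h1 : ∃ φ : Module.Dual F ℂ, φ (x l₀) ≠ 0 := by
    by_contra hcon
    push Not at hcon
    exact hl₀ ((Module.forall_dual_apply_eq_zero_iff F (x l₀)).1 hcon)
  obtain ⟨φ, hφ⟩ := h1
  refine ⟨fun l => (φ (x l) : ℂ), ?_, fun l => (φ (x l)).2, fun i => ?_⟩
  · intro hcon
    apply hφ
    have := congrFun hcon l₀
    exact Subtype.ext this
  · have h2 : ∀ l, M i l * (φ (x l) : ℂ) = (φ (M i l * x l) : ℂ) := by
      intro l
      have h3 : M i l * x l = (⟨M i l, hM i l⟩ : F) • x l := rfl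
      rw [h3, map_smul]
      rfl
    simp only [h2]
    have h4 : ∑ l, (φ (M i l * x l) : ℂ) = ((∑ l, φ (M i l * x l) : F) : ℂ) := by
      push_cast
      rfl
    rw [h4, ← map_sum, h i, map_zero]
    rfl

theorem exists_coord_proj {n q : ℕ} (R : Submodule ℂ (Fin n → ℂ)) (hq : q ≤ finrank ℂ R) :
    ∃ f : Fin q → Fin n, Function.Injective f ∧
      ∀ t : Fin q → ℂ, ∃ x ∈ R, ∀ i, x (f i) = t i := by
  classical
  -- the coordinate functionals on `R`
  set e : Fin n → Module.Dual ℂ R := fun i => (LinearMap.proj i).comp R.subtype with he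
  obtain ⟨κ, a, ha, hsp, hli⟩ := exists_linearIndependent' ℂ e
  have hfin : Finite κ := Finite.of_injective a ha
  have := Fintype.ofFinite κ
  have htop : Submodule.span ℂ (Set.range e) = ⊤ := by
    rw [eq_top_iff]
    intro φ _
    obtain ⟨ψ, hψ⟩ := LinearMap.exists_extend φ
    have h1 : φ = ∑ i, ψ (Pi.single i 1) • e i := by
      ext x
      rw [← hψ]
      simp only [LinearMap.comp_apply, Submodule.subtype_apply, LinearMap.sum_apply,
        LinearMap.smul_apply, he, LinearMap.proj_apply, smul_eq_mul]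
      conv_lhs => rw [LinearMap.pi_apply_eq_sum_univ ψ x.1]
      refine Finset.sum_congr rfl fun i _ => ?_
      rw [smul_eq_mul, mul_comm]
      congr 2
      funext j
      rw [Pi.single_apply]
      simp only [eq_comm]
    rw [h1]
    exact Submodule.sum_mem _ fun i _ => Submodule.smul_mem _ _ (Submodule.subset_span ⟨i, rfl⟩)
  have hcard : Fintype.card κ = finrank ℂ R := by
    have h1 := finrank_span_eq_card hli
    rw [hsp, htop, finrank_top, Subspace.dual_finrank_eq] at h1
    exact h1.symm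
  obtain ⟨g⟩ : Nonempty (Fin q ↪ κ) := by
    rw [← Fintype.card_fin q, ← hcard] at hq
    exact Function.Embedding.nonempty_of_card_le hq
  refine ⟨a ∘ g, ha.comp g.injective, ?_⟩
  set G : R →ₗ[ℂ] (Fin q → ℂ) := LinearMap.pi fun i => e (a (g i)) with hG
  have hsurj : LinearMap.range G = ⊤ := by
    by_contra hne
    obtain ⟨φ, hφ0, hφ⟩ := Submodule.exists_le_ker_of_lt_top _ (lt_top_iff_ne_top.mpr hne)
    apply hφ0
    have hli' : LinearIndependent ℂ fun i => e (a (g i)) := hli.comp g g.injective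
    have h1 : ∑ i, φ (Pi.single i 1) • e (a (g i)) = 0 := by
      ext x
      have h2 : φ (G x) = 0 := hφ ⟨x, rfl⟩
      rw [LinearMap.pi_apply_eq_sum_univ φ] at h2
      simp only [LinearMap.sum_apply, LinearMap.smul_apply, smul_eq_mul, LinearMap.zero_apply]
      rw [← h2]
      refine Finset.sum_congr rfl fun i _ => ?_
      rw [smul_eq_mul, mul_comm]
      congr 2
      funext j
      rw [Pi.single_apply]
      simp only [eq_comm]
    have h3 := Fintype.linearIndependent_iff.mp hli' _ h1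
    refine LinearMap.pi_ext' fun i => ?_
    ext
    simpa using h3 i
  intro t
  obtain ⟨x, hx⟩ : t ∈ LinearMap.range G := by rw [hsurj]; exact Submodule.mem_top
  refine ⟨x.1, x.2, fun i => ?_⟩
  exact congrFun hx i

private theorem caseA_deriv {q : ℕ} (F : Subfield ℂ) (D : Derivation ℚ ℂ ℂ)
    (hF : ∀ c ∈ F, D c = 0) (x : Fin (q + 1) → ℂ) (G : MvPolynomial (Fin (q + 1)) F) :
    D (aeval x G) = ∑ l, aeval x (pderiv l G) * D (x l) := by
  induction G using MvPolynomial.induction_on with
  | C a =>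
    have h1 : D (aeval x (C a)) = 0 := by
      rw [aeval_C]
      exact hF _ a.2
    rw [h1]
    symm
    apply Finset.sum_eq_zero
    intro l _
    rw [pderiv_C, map_zero, zero_mul]
  | add p p' hp hp' => simp only [map_add, hp, hp', add_mul, Finset.sum_add_distrib]
  | mul_X p m hp =>
    rw [map_mul, aeval_X, D.leibniz, hp]
    have h1 : ∀ l, aeval x (pderiv l (p * X m)) * D (x l) =
        x m * (aeval x (pderiv l p) * D (x l)) +
          (if l = m then aeval x p * D (x m) else 0) := by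
      intro l
      rw [pderiv_mul, map_add, map_mul, map_mul, aeval_X, pderiv_X]
      by_cases h : l = m
      · subst h
        simp
        ring
      · rw [if_neg h, Pi.single_eq_of_ne (Ne.symm h)]
        simp
        ring
    simp only [h1, Finset.sum_add_distrib, Finset.sum_ite_eq', Finset.mem_univ, if_true,
      smul_eq_mul, ← Finset.mul_sum]
    ring

private theorem caseA_zero {q : ℕ} (F : Subfield ℂ) (x : Fin (q + 1) → ℂ)
    (hlast : x (Fin.last q) = 1)
    (hD : ∀ l : Fin q, ∃ D : Derivation ℚ ℂ ℂ, (∀ c ∈ F, D c = 0) ∧ D (x l.castSucc) = 1 ∧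
      ∀ l' : Fin q, l' ≠ l → D (x l'.castSucc) = 0) :
    ∀ d : ℕ, ∀ G : MvPolynomial (Fin (q + 1)) F, G.IsHomogeneous d → aeval x G = 0 → G = 0 := by
  intro d
  induction d with
  | zero =>
    intro G hG h0
    have h1 := totalDegree_eq_zero_iff_eq_C.mp (Nat.le_zero.mp hG.totalDegree_le)
    rw [h1, aeval_C] at h0
    have h2 : G.coeff 0 = 0 := by
      refine Subtype.ext ?_
      exact h0
    rw [h1, h2, C_0]
  | succ d ih =>
    intro G hG h0
    have h1 : ∀ l : Fin q, pderiv l.castSucc G = 0 := by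
      intro l
      obtain ⟨D, hDF, hDl, hDl'⟩ := hD l
      refine ih _ hG.pderiv ?_
      have h2 := caseA_deriv F D hDF x G
      rw [h0, map_zero, Fin.sum_univ_castSucc, hlast, D.map_one_eq_zero, mul_zero, add_zero,
        Finset.sum_eq_single l] at h2
      · rw [hDl, mul_one] at h2
        exact h2.symm
      · intro l' _ hl'
        rw [hDl' l' hl', mul_zero]
      · intro hcon
        exact absurd (Finset.mem_univ _) hcon
    have hE := hG.sum_X_mul_pderiv
    rw [Fin.sum_univ_castSucc] at hE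
    have h3 : ∑ l : Fin q, X l.castSucc * pderiv l.castSucc G = 0 :=
      Finset.sum_eq_zero fun l _ => by rw [h1 l, mul_zero]
    rw [h3, zero_add] at hE
    have h4 : pderiv (Fin.last q) G = 0 := by
      refine ih _ hG.pderiv ?_
      have h5 := congrArg (aeval x) hE
      rw [map_mul, aeval_X, hlast, one_mul, map_nsmul, h0, smul_zero] at h5
      exact h5
    rw [h4, mul_zero] at hE
    have h6 : ((d + 1 : ℕ) : MvPolynomial (Fin (q + 1)) F) * G = 0 := by
      rw [← nsmul_eq_mul]
      exact hE.symm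
    rcases mul_eq_zero.mp h6 with h7 | h7
    · exact absurd h7 (Nat.cast_ne_zero.mpr (by omega))
    · exact h7

theorem caseA {ι : Type} {n K q : ℕ} (z : ι → Fin (n + 1) → ℂ)
    (hz : ∀ i, z i (Fin.last n) = 1) (S : Finset ι) (j : ι)
    (hspan : ∀ C ∈ H80R.Fm (n + 1) K, (∀ i ∈ S, eval (z i) C = 0) → eval (z j) C = 0)
    (hq : q ≤ finrank ℂ (vals (EV z) S j)) : (q + 1).multichoose K ≤ S.card := by
  classical
  by_contra hcon
  push Not at hcon
  let F : Subfield ℂ :=
    { carrier := {x | ∀ D : Derivation ℚ ℂ ℂ,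
        (∀ i ∈ S, ∀ m : Fin n, D (z i m.castSucc) = 0) → D x = 0}
      mul_mem' := fun {x y} hx hy D hD => by
        rw [D.leibniz, hx D hD, hy D hD, smul_zero, smul_zero, add_zero]
      one_mem' := fun D _ => D.map_one_eq_zero
      add_mem' := fun {x y} hx hy D hD => by
        rw [map_add, hx D hD, hy D hD, add_zero]
      zero_mem' := fun D _ => map_zero D
      neg_mem' := fun {x} hx D hD => by
        rw [map_neg, hx D hD, neg_zero]
      inv_mem' := fun x hx D hD => by
        rw [D.leibniz_inv, hx D hD, smul_zero] }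
  have hFmem : ∀ x, x ∈ F ↔ ∀ D : Derivation ℚ ℂ ℂ,
      (∀ i ∈ S, ∀ m : Fin n, D (z i m.castSucc) = 0) → D x = 0 := fun x => Iff.rfl
  obtain ⟨f, -, hfR⟩ := exists_coord_proj (vals (EV z) S j) hq
  set f' : Fin (q + 1) → Fin (n + 1) := Fin.snoc (fun l => (f l).castSucc) (Fin.last n) with hf'
  have hfl : ∀ l : Fin q, f' l.castSucc = (f l).castSucc := fun l => by
    rw [hf', Fin.snoc_castSucc]
  have hfn : f' (Fin.last q) = Fin.last n := by rw [hf', Fin.snoc_last]
  -- the derivations
  have hD : ∀ l : Fin q, ∃ D : Derivation ℚ ℂ ℂ, (∀ c ∈ F, D c = 0) ∧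
      D ((z j ∘ f') l.castSucc) = 1 ∧
      ∀ l' : Fin q, l' ≠ l → D ((z j ∘ f') l'.castSucc) = 0 := by
    intro l
    obtain ⟨x, ⟨v, ⟨D, hDv⟩, hvS, hvj⟩, hx⟩ := hfR (Pi.single l 1)
    have hDS : ∀ i ∈ S, ∀ m : Fin n, D (z i m.castSucc) = 0 := by
      intro i hi m
      rw [← hDv, hvS i hi]
      rfl
    have hDj : ∀ l' : Fin q, D ((z j ∘ f') l'.castSucc) = (Pi.single l 1 : Fin q → ℂ) l' := by
      intro l'
      rw [Function.comp_apply, hfl, ← hDv, hvj, hx]
    refine ⟨D, fun c hc => hc D hDS, ?_, fun l' hl' => ?_⟩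
    · rw [hDj, Pi.single_eq_same]
    · rw [hDj, Pi.single_eq_of_ne hl']
  -- a nonzero form over the complex numbers
  set ev : H80R.Fm (q + 1) K →ₗ[ℂ] (S → ℂ) := evM K (fun i : S => z i.1 ∘ f') with hev
  have hker : LinearMap.ker ev ≠ ⊥ := by
    refine LinearMap.ker_ne_bot_of_finrank_lt ?_
    rw [finrank_fintype_fun_eq_card, Fintype.card_coe, H80R.finrank_Fm]
    exact hcon
  obtain ⟨A, hA, hA0⟩ := Submodule.exists_mem_ne_zero_of_ne_bot hker
  have hAv : ∀ i : S, eval (z i.1 ∘ f') A.1 = 0 := fun i => congrFun (LinearMap.mem_ker.mp hA) i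
  have hmon : ∀ (w : H80R.Ex (q + 1) K → ℂ) (p : Fin (q + 1) → ℂ),
      eval p (H80R.ofCoef w) = ∑ α : H80R.Ex (q + 1) K,
        eval p (monomial (α : Fin (q + 1) →₀ ℕ) (1 : ℂ)) * w α := by
    intro w p
    rw [H80R.ofCoef, map_sum]
    refine Finset.sum_congr rfl fun α _ => ?_
    rw [smul_eval, mul_comm]
  set x : H80R.Ex (q + 1) K → ℂ := fun α => coeff (α : Fin (q + 1) →₀ ℕ) A.1 with hx
  have hAx : A.1 = H80R.ofCoef x := H80R.eq_ofCoef A.2
  have hx0 : x ≠ 0 := by
    intro h0
    apply hA0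
    apply Subtype.ext
    rw [hAx, h0, H80R.ofCoef]
    simp
  have hzF : ∀ i ∈ S, ∀ l, (z i ∘ f') l ∈ F := by
    intro i hi l
    refine Fin.lastCases ?_ (fun l => ?_) l
    · rw [Function.comp_apply, hfn, hz]
      exact F.one_mem
    · rw [Function.comp_apply, hfl]
      exact fun D hDS => hDS i hi _
  obtain ⟨y, hy0, hyF, hy⟩ := exists_sol_subfield' F
    (fun (i : S) (α : H80R.Ex (q + 1) K) =>
      eval (z i.1 ∘ f') (monomial (α : Fin (q + 1) →₀ ℕ) (1 : ℂ)))
    (fun i α => by
      rw [eval_monomial, one_mul]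
      exact F.toSubring.prod_mem fun l _ => F.pow_mem (hzF i.1 i.2 l) _)
    x hx0 (fun i => by
      rw [← hmon, ← hAx]
      exact hAv i)
  -- the form vanishes at `z j`
  have hzj : eval (z j ∘ f') (H80R.ofCoef y) = 0 := by
    rw [← eval_rename]
    refine hspan _ ?_ ?_
    · exact (mem_homogeneousSubmodule _ _).mpr
        (((mem_homogeneousSubmodule _ _).mp (H80R.ofCoef_mem y)).rename_isHomogeneous)
    · intro i hi
      rw [eval_rename, hmon]
      exact hy ⟨i, hi⟩
  -- the same form over `F`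
  set G : MvPolynomial (Fin (q + 1)) F :=
    ∑ α : H80R.Ex (q + 1) K, monomial (α : Fin (q + 1) →₀ ℕ) (⟨y α, hyF α⟩ : F) with hG
  have hGhom : G.IsHomogeneous K := by
    rw [hG]
    exact IsHomogeneous.sum _ _ _ fun α _ => isHomogeneous_monomial _ (H80R.mem_Ex.mp α.2)
  have hG0 : aeval (z j ∘ f') G = 0 := by
    rw [← hzj, hmon, hG, map_sum]
    refine Finset.sum_congr rfl fun α _ => ?_
    rw [aeval_monomial, eval_monomial, one_mul, mul_comm]
    rfl
  have hGz := caseA_zero F (z j ∘ f') (by rw [Function.comp_apply, hfn, hz]) hD K G hGhom hG0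
  apply hy0
  funext α
  have h1 := congrArg (coeff (α : Fin (q + 1) →₀ ℕ)) hGz
  rw [hG, coeff_sum, Finset.sum_eq_single α] at h1
  · rw [coeff_monomial, if_pos rfl, coeff_zero] at h1
    exact congrArg Subtype.val h1
  · intro β _ hβ
    rw [coeff_monomial, if_neg]
    intro h2
    exact hβ (Subtype.ext h2)
  · intro h2
    exact absurd (Finset.mem_univ _) h2

end H80T
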