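import Mathlib
import Pool.Agent.H80T.Defs4
import Pool.Agent.H80R.Dense
import Pool.Agent.H80R.Core3

/-! FREEK: free points are general points. -/

namespace H80T

open Module MvPolynomial

/-- Jacobian criterion -/
theorem algInd_of_derivations {ι : Type} [Finite ι] (x : ι → ℂ)
    (h : ∀ i, ∃ D : Derivation ℚ ℂ ℂ, D (x i) = 1 ∧ ∀ i', i' ≠ i → D (x i') = 0) :
    AlgebraicIndependent ℚ x := by
  classical
  have _ : Fintype ι := Fintype.ofFinite ι
  rw [algebraicIndependent_iff]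
  have main : ∀ (n : ℕ) (P : MvPolynomial ι ℚ), P.totalDegree ≤ n →
      aeval x P = 0 → P = 0 := by
    intro n
    induction n with
    | zero =>
      intro P hP h0
      rw [Nat.le_zero, totalDegree_eq_zero_iff_eq_C] at hP
      rw [hP] at h0 ⊢
      rw [aeval_C] at h0
      have h1 : coeff 0 P = 0 := (map_eq_zero_iff _ (algebraMap ℚ ℂ).injective).mp h0
      rw [h1, C_0]
    | succ n ih =>
      intro P hP h0
      have hpd : ∀ i, pderiv i P = 0 := by
        intro i
        apply ih _ (H80R.totalDegree_pderiv_lt i n hP)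
        obtain ⟨D, hD1, hD2⟩ := h i
        have h1 : D (aeval x P) = 0 := by rw [h0, map_zero]
        rw [H80R.der_aeval', Finset.sum_eq_single i] at h1
        · rw [hD1, mul_one] at h1
          exact h1
        · intro j _ hj
          rw [hD2 j hj, mul_zero]
        · intro hi
          exact absurd (Finset.mem_univ _) hi
      have h5 := H80R.eq_C_of_pderiv hpd
      rw [h5] at h0 ⊢
      rw [aeval_C] at h0
      have h1 : coeff 0 P = 0 := (map_eq_zero_iff _ (algebraMap ℚ ℂ).injective).mp h0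
      rw [h1, C_0]
  intro P hP
  exact main _ P le_rfl hP

theorem gr_smul_pt {N d : ℕ} {A : MvPolynomial (Fin N) ℂ} (hA : A ∈ H80R.Fm N d) (c : ℂ)
    (v : Fin N → ℂ) (l : Fin N) : H80R.gr (c • v) A l = c ^ (d - 1) * H80R.gr v A l := by
  have h1 : pderiv l A ∈ H80R.Fm N (d - 1) := IsHomogeneous.pderiv (i := l) hA
  exact H80R.eval_smul_form h1 c v

theorem nl_scale {N d y : ℕ} (z : Fin y → Fin N → ℂ) (c : Fin y → ℂ) (hc : ∀ i, c i ≠ 0) :
    H80R.nl N d (fun i => c i • z i) ≤ H80R.nl N d z := by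
  apply Submodule.finrank_mono
  intro A hA
  rw [LinearMap.mem_ker] at hA ⊢
  ext i l
  have h1 := congrFun (congrFun hA i) l
  have h2 : H80R.gr (c i • z i) A.1 l = 0 := h1
  rw [gr_smul_pt A.2] at h2
  exact (mul_eq_zero.1 h2).resolve_left (pow_ne_zero _ (hc i))

theorem nl_affine {n d y : ℕ} (x₀ x : Fin y → Fin n → ℂ)
    (hx : AlgebraicIndependent ℚ (fun p : Fin y × Fin n => x p.1 p.2)) :
    H80R.nl (n + 1) d (fun i => (Fin.snoc (x i) 1 : Fin (n + 1) → ℂ)) ≤
      H80R.nl (n + 1) d (fun i => (Fin.snoc (x₀ i) 1 : Fin (n + 1) → ℂ)) := by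
  classical
  let φ : (Fin y → Fin (n + 1) → ℂ) →
      (H80R.Fm (n + 1) d →ₗ[ℂ] (Fin y × Fin (n + 1) → ℂ)) := fun z =>
    { toFun := fun A p => H80R.gr (z p.1) A.1 p.2
      map_add' := by
        intro A B; ext p; simp [H80R.gr_add]
      map_smul' := by
        intro c A; ext p; simp [H80R.gr_smul] }
  let zz : (Fin y → Fin n → ℂ) → (Fin y → Fin (n + 1) → ℂ) := fun x i => Fin.snoc (x i) 1
  obtain ⟨s, hs1, hs2⟩ := H80R.exists_coords (φ (zz x₀)) Finset.univ
  -- the selected conditions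
  let ψ : (Fin y → Fin (n + 1) → ℂ) → (H80R.Fm (n + 1) d →ₗ[ℂ] (s → ℂ)) := fun z =>
    { toFun := fun A p => H80R.gr (z p.1.1) A.1 p.1.2
      map_add' := by
        intro A B; ext p; simp [H80R.gr_add]
      map_smul' := by
        intro c A; ext p; simp [H80R.gr_smul] }
  have hψ0 : Function.Surjective (ψ (zz x₀)) := by
    intro b
    obtain ⟨A, hA⟩ := hs1 (fun i => if h : i ∈ s then b ⟨i, h⟩ else 0)
    refine ⟨A, ?_⟩
    ext i
    have h1 := hA i.1 i.2
    rw [dif_pos i.2] at h1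
    exact h1
  have hψ : Function.Surjective (ψ (zz x)) := by
    let L : s → List (Fin (n + 1)) := fun p => [p.1.2]
    let pt : s → Fin (n + 1) → MvPolynomial (Fin y × Fin n) ℚ :=
      fun p => Fin.snoc (fun m => X (p.1.1, m)) 1
    have hpt : ∀ (x : Fin y → Fin n → ℂ) (p : s),
        (fun l' => aeval (fun p : Fin y × Fin n => x p.1 p.2) (pt p l')) = zz x p.1.1 := by
      intro x p
      funext l'
      refine Fin.lastCases ?_ (fun m => ?_) l'
      · simp only [pt, zz, Fin.snoc_last, map_one]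
      · simp only [pt, zz, Fin.snoc_castSucc, aeval_X]
    have key : ∀ (x : Fin y → Fin n → ℂ) (A : MvPolynomial (Fin (n + 1)) ℂ) (p : s),
        eval (fun l' => aeval (fun p : Fin y × Fin n => x p.1 p.2) (pt p l'))
          (H80R.dl (L p) A) = H80R.gr (zz x p.1.1) A p.1.2 := by
      intro x A p
      rw [hpt]
      rfl
    intro b
    obtain ⟨A, hA, hA1⟩ := H80R.spec_forms (d := d) L pt
      (fun p : Fin y × Fin n => x₀ p.1 p.2) (by
      intro β
      obtain ⟨A, hA⟩ := hψ0 β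
      refine ⟨A.1, A.2, fun i => ?_⟩
      rw [key]
      exact congrFun hA i) _ hx b
    refine ⟨⟨A, hA⟩, ?_⟩
    ext i
    have h1 := hA1 i
    rw [key] at h1
    exact h1
  -- kernels
  have hk0 : LinearMap.ker (H80R.grL (n + 1) d (zz x₀)) = LinearMap.ker (ψ (zz x₀)) := by
    apply le_antisymm
    · intro A hA
      rw [LinearMap.mem_ker] at hA ⊢
      ext i
      exact congrFun (congrFun hA i.1.1) i.1.2
    · intro A hA
      rw [LinearMap.mem_ker] at hA ⊢
      have h1 := hs2 A (fun i hi => congrFun hA ⟨i, hi⟩)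
      ext i l
      exact h1 (i, l) (Finset.mem_univ _)
  have hk : LinearMap.ker (H80R.grL (n + 1) d (zz x)) ≤ LinearMap.ker (ψ (zz x)) := by
    intro A hA
    rw [LinearMap.mem_ker] at hA ⊢
    ext i
    exact congrFun (congrFun hA i.1.1) i.1.2
  have h1 := LinearMap.finrank_range_add_finrank_ker (ψ (zz x₀))
  have h2 := LinearMap.finrank_range_add_finrank_ker (ψ (zz x))
  rw [LinearMap.range_eq_top.mpr hψ0, finrank_top] at h1
  rw [LinearMap.range_eq_top.mpr hψ, finrank_top] at h2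
  have h3 := Submodule.finrank_mono hk
  show finrank ℂ (LinearMap.ker (H80R.grL (n + 1) d (zz x))) ≤
    finrank ℂ (LinearMap.ker (H80R.grL (n + 1) d (zz x₀)))
  rw [hk0]
  omega

theorem nl_of_free {ι : Type} {n y d w : ℕ} (z : ι → Fin (n + 1) → ℂ)
    (hz : ∀ i, z i (Fin.last n) = 1) (e : Fin y → ι) (he : Function.Injective e)
    (hfree : ∀ x : Fin y → Fin n → ℂ, ∃ v ∈ EV z, ∀ i, v (e i) = x i)
    (h : H80R.Sg (n + 1) d y w) : H80R.nl (n + 1) d (fun i => z (e i)) ≤ w := by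
  classical
  obtain ⟨c, hc⟩ := H80R.exists_algebraicIndependent (Fin y × Fin (n + 1))
  obtain ⟨Z, hZdef⟩ : ∃ Z : Fin y → Fin (n + 1) → ℂ, Z = fun i l => c (i, l) := ⟨_, rfl⟩
  have hZ : H80R.nl (n + 1) d Z ≤ w := by
    apply h
    rw [hZdef]
    exact hc
  have hne : ∀ i, Z i (Fin.last n) ≠ 0 := fun i => by
    rw [hZdef]
    exact hc.ne_zero (i, Fin.last n)
  obtain ⟨x₀, hx₀⟩ : ∃ x₀ : Fin y → Fin n → ℂ,
    x₀ = fun i m => (Z i (Fin.last n))⁻¹ * Z i (Fin.castSucc m) := ⟨_, rfl⟩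
  obtain ⟨x, hx⟩ : ∃ x : Fin y → Fin n → ℂ, x = fun i m => z (e i) m.castSucc := ⟨_, rfl⟩
  have hsc : H80R.nl (n + 1) d (fun i => (Z i (Fin.last n))⁻¹ • Z i) ≤
      H80R.nl (n + 1) d Z :=
    nl_scale Z (fun i => (Z i (Fin.last n))⁻¹) (fun i => inv_ne_zero (hne i))
  have hform : (fun i => (Z i (Fin.last n))⁻¹ • Z i) = fun i =>
      (Fin.snoc (x₀ i) 1 : Fin (n + 1) → ℂ) := by
    funext i l
    refine Fin.lastCases ?_ (fun m => ?_) l
    · rw [Fin.snoc_last, Pi.smul_apply, smul_eq_mul, inv_mul_cancel₀ (hne i)]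
    · rw [Fin.snoc_castSucc, Pi.smul_apply, smul_eq_mul, hx₀]
  rw [hform] at hsc
  have hform2 : (fun i => z (e i)) = fun i => (Fin.snoc (x i) 1 : Fin (n + 1) → ℂ) := by
    funext i l
    refine Fin.lastCases ?_ (fun m => ?_) l
    · rw [Fin.snoc_last, hz]
    · rw [Fin.snoc_castSucc, hx]
  have hai : AlgebraicIndependent ℚ (fun p : Fin y × Fin n => x p.1 p.2) := by
    apply algInd_of_derivations
    rintro ⟨i, m⟩
    obtain ⟨v, ⟨D, hD⟩, hv⟩ := hfree (fun i' m' => if (i', m') = (i, m) then 1 else 0)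
    refine ⟨D, ?_, ?_⟩
    · rw [hx]
      show D (z (e i) m.castSucc) = 1
      rw [← hD, hv]
      exact if_pos rfl
    · rintro ⟨i', m'⟩ hne'
      rw [hx]
      show D (z (e i') m'.castSucc) = 0
      rw [← hD, hv]
      exact if_neg hne'
  rw [hform2]
  have h3 := nl_affine (d := d) x₀ x hai
  exact le_trans (le_trans h3 hsc) hZ

end H80T
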