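import Mathlib
import Pool.Agent.H80T.Defs4

/-! KEYK: derivations applied to the decomposition. -/

namespace H80T

open Module MvPolynomial

variable {n k a b r : ℕ}

theorem statk (T : H80R.Dec n k a b r) {A : MvPolynomial (Fin (n + 1)) ℂ}
    (hA : A ∈ H80R.Fm (n + 1) k) :
    ∑ s, H80R.drF (LL T s) (T.py s) A + ∑ s, eval (QQ T s) A = ∑ j, eval (T.w j) A := by
  have h1 := H80R.ext_forms (N := n + 1) (k := k)
    (∑ s, H80R.drF (LL T s) (T.py s) + ∑ s, H80R.evF (QQ T s))
    (∑ j, H80R.evF (T.w j)) (by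
      intro i
      simp only [LinearMap.add_apply, LinearMap.coe_sum, Finset.sum_apply, H80R.drF_apply,
        H80R.evF_apply, H80R.sum_gr_mon, H80R.eval_mon]
      exact T.hT i) hA
  simpa only [LinearMap.add_apply, LinearMap.coe_sum, Finset.sum_apply,
        H80R.evF_apply] using h1

theorem keyk (T : H80R.Dec n k a b r) (D : Derivation ℚ ℂ ℂ)
    {A : MvPolynomial (Fin (n + 1)) ℂ} (hA : A ∈ H80R.Fm (n + 1) k) :
    ∑ s, (H80R.drF (LL T s) (fun l => D (T.py s l)) A +
      H80R.hsF (LL T s) (T.py s) (fun l => D (LL T s l)) A) +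
      ∑ s, H80R.drF (QQ T s) (fun l => D (QQ T s l)) A =
      ∑ j, H80R.drF (T.w j) (fun l => D (T.w j l)) A := by
  have h1 := H80R.ext_forms (N := n + 1) (k := k)
    (∑ s, (H80R.drF (LL T s) (fun l => D (T.py s l)) +
      H80R.hsF (LL T s) (T.py s) (fun l => D (LL T s l))) +
      ∑ s, H80R.drF (QQ T s) (fun l => D (QQ T s l)))
    (∑ j, H80R.drF (T.w j) (fun l => D (T.w j l))) (by
      intro i
      have h2 := congrArg D (T.hT i)
      rw [map_add, map_sum, map_sum, map_sum] at h2
      simp only [H80R.der_tt, H80R.der_pw] at h2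
      simp only [LinearMap.add_apply, LinearMap.coe_sum, Finset.sum_apply]
      exact h2) hA
  simpa only [LinearMap.add_apply, LinearMap.coe_sum, Finset.sum_apply] using h1

/-- the gradient of a product with the square of the last coordinate -/
theorem keyk_gr (x : Fin (n + 1) → ℂ) (C : MvPolynomial (Fin (n + 1)) ℂ)
    (hx : x (Fin.last n) = 0) : H80R.gr x (C * X (Fin.last n) ^ 2) = 0 := by
  ext l
  simp [H80R.gr, Derivation.leibniz, hx]

theorem relk {K : ℕ} (T : H80R.Dec n (K + 2) a b r) {C : MvPolynomial (Fin (n + 1)) ℂ}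
    (hC : C ∈ H80R.Fm (n + 1) K) :
    ∑ j, T.w j (Fin.last n) ^ 2 * eval (T.w j) C = 0 := by
  have hA : C * X (Fin.last n) ^ 2 ∈ H80R.Fm (n + 1) (K + 2) :=
    IsHomogeneous.mul hC (isHomogeneous_X_pow (R := ℂ) (Fin.last n) 2)
  have h := statk T hA
  have e1 : ∀ s, LL T s (Fin.last n) = 0 := fun s => by simp [LL]
  have e2 : ∀ s, QQ T s (Fin.last n) = 0 := fun s => by simp [QQ]
  simp only [H80R.drF_apply, keyk_gr _ _ (e1 _), Pi.zero_apply, mul_zero,
    Finset.sum_const_zero, map_mul, map_pow, eval_X, e2, zero_pow two_ne_zero, add_zero] at h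
  rw [h]
  exact Finset.sum_congr rfl fun j _ => by ring

theorem drelk {K : ℕ} (T : H80R.Dec n (K + 2) a b r) (D : Derivation ℚ ℂ ℂ)
    {C : MvPolynomial (Fin (n + 1)) ℂ} (hC : C ∈ H80R.Fm (n + 1) K) :
    ∑ j, (2 * T.w j (Fin.last n) * D (T.w j (Fin.last n)) * eval (T.w j) C +
      T.w j (Fin.last n) ^ 2 * H80R.drF (T.w j) (fun l => D (T.w j l)) C) = 0 := by
  have h1 := H80R.ext_forms (N := n + 1) (k := K)
    (∑ j, ((2 * T.w j (Fin.last n) * D (T.w j (Fin.last n))) • H80R.evF (T.w j) +
      (T.w j (Fin.last n) ^ 2) • H80R.drF (T.w j) (fun l => D (T.w j l)))) 0 (by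
      intro i
      have h2 := congrArg D (relk T (H80R.mon_mem i))
      rw [map_sum, map_zero] at h2
      simp only [H80R.eval_mon, Derivation.leibniz, Derivation.leibniz_pow, H80R.der_pw,
        smul_eq_mul] at h2
      simp only [LinearMap.coe_sum, Finset.sum_apply, LinearMap.add_apply, LinearMap.smul_apply,
        smul_eq_mul, H80R.evF_apply, H80R.eval_mon, LinearMap.zero_apply]
      rw [← h2]
      refine Finset.sum_congr rfl fun j _ => ?_
      simp only [nsmul_eq_mul]
      push_cast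
      ring) hC
  simpa only [LinearMap.coe_sum, Finset.sum_apply, LinearMap.add_apply, LinearMap.smul_apply,
        smul_eq_mul, H80R.evF_apply, LinearMap.zero_apply] using h1

/-- the relation at the normalised points -/
theorem relz {K : ℕ} (T : H80R.Dec n (K + 2) a b r) {C : MvPolynomial (Fin (n + 1)) ℂ}
    (hC : C ∈ H80R.Fm (n + 1) K) :
    ∑ j : JJ T, T.w j.1 (Fin.last n) ^ (K + 2) * eval (zt T j) C = 0 := by
  have h := relk T hC
  have h5 : ∑ j : JJ T, T.w j.1 (Fin.last n) ^ 2 * eval (T.w j.1) C =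
      ∑ j, T.w j (Fin.last n) ^ 2 * eval (T.w j) C := by
    rw [← Finset.sum_subtype (Finset.univ.filter (fun j => T.w j (Fin.last n) ≠ 0))
      (by simp) (fun j => T.w j (Fin.last n) ^ 2 * eval (T.w j) C)]
    apply Finset.sum_filter_of_ne
    intro j _ h h0
    apply h
    rw [h0]
    ring
  rw [h] at h5
  refine Eq.trans (Finset.sum_congr rfl fun j _ => ?_) h5
  have h6 : T.w j.1 = T.w j.1 (Fin.last n) • zt T j := by
    ext l
    simp only [zt, Pi.smul_apply, smul_eq_mul]
    field_simp [j.2]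
  have h7 : eval (T.w j.1) C = T.w j.1 (Fin.last n) ^ K * eval (zt T j) C := by
    conv_lhs => rw [h6]
    exact H80R.eval_smul_form hC _ _
  rw [h7]
  ring

/-- the differentiated relation at the normalised points, for forms vanishing there -/
theorem drelz {K : ℕ} (T : H80R.Dec n (K + 2) a b r) (D : Derivation ℚ ℂ ℂ)
    {C : MvPolynomial (Fin (n + 1)) ℂ} (hC : C ∈ H80R.Fm (n + 1) K)
    (h0 : ∀ j, eval (zt T j) C = 0) :
    ∑ j : JJ T, T.w j.1 (Fin.last n) ^ (K + 2) *
      ∑ m : Fin n, D (zt T j m.castSucc) * H80R.gr (zt T j) C m.castSucc = 0 := by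
  have h1 := H80R.ext_forms (N := n + 1) (k := K)
    (∑ j : JJ T, (D (T.w j.1 (Fin.last n) ^ (K + 2)) • H80R.evF (zt T j) +
      (T.w j.1 (Fin.last n) ^ (K + 2)) • H80R.drF (zt T j) (fun l => D (zt T j l)))) 0 (by
      intro i
      have h2 := congrArg D (relz T (H80R.mon_mem i))
      rw [map_sum, map_zero] at h2
      simp only [H80R.eval_mon, Derivation.leibniz, H80R.der_pw,
        smul_eq_mul] at h2
      simp only [LinearMap.coe_sum, Finset.sum_apply, LinearMap.add_apply, LinearMap.smul_apply,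
        smul_eq_mul, H80R.evF_apply, H80R.eval_mon, LinearMap.zero_apply]
      refine Eq.trans (Finset.sum_congr rfl fun j _ => ?_) h2
      ring) hC
  simp only [LinearMap.coe_sum, Finset.sum_apply, LinearMap.add_apply, LinearMap.smul_apply,
        smul_eq_mul, H80R.evF_apply, LinearMap.zero_apply, h0, mul_zero, zero_add,
        H80R.drF_apply] at h1
  refine Eq.trans (Finset.sum_congr rfl fun j _ => ?_) h1
  have h3 : D (zt T j (Fin.last n)) = 0 := by
    have h4 : zt T j (Fin.last n) = 1 := div_self j.2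
    rw [h4]
    exact D.map_one_eq_zero
  rw [Fin.sum_univ_castSucc, h3, zero_mul, add_zero]

end H80T
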