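import Mathlib
import Pool.Agent.H80T.KeyK
import Pool.Agent.H80R.Core3

/-! UPK: upper bounds for the spaces of values of derivations. -/

namespace H80T

open Module MvPolynomial

variable {n K a b r : ℕ}

/-- families supported off `JJ` with vanishing last coordinates -/
def KNk {k : ℕ} (T : H80R.Dec n k a b r) : Submodule ℂ (Fin r → Fin (n + 1) → ℂ) where
  carrier := {v | (∀ j, T.w j (Fin.last n) ≠ 0 → v j = 0) ∧ ∀ j, v j (Fin.last n) = 0}
  add_mem' := fun {x y} hx hy => ⟨fun j hj => by
    rw [Pi.add_apply, hx.1 j hj, hy.1 j hj, add_zero], fun j => by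
    rw [Pi.add_apply, Pi.add_apply, hx.2 j, hy.2 j, add_zero]⟩
  zero_mem' := ⟨fun j _ => rfl, fun j => rfl⟩
  smul_mem' := fun t x hx => ⟨fun j hj => by
    rw [Pi.smul_apply, hx.1 j hj, smul_zero], fun j => by
    rw [Pi.smul_apply, Pi.smul_apply, hx.2 j, smul_zero]⟩

theorem finrank_KNk {k : ℕ} (T : H80R.Dec n k a b r) :
    finrank ℂ (KNk T) ≤ (r - uu T) * n := by
  classical
  let e : KNk T →ₗ[ℂ] ({j : Fin r // ¬ T.w j (Fin.last n) ≠ 0} → Fin n → ℂ) :=
    { toFun := fun v j l => v.1 j.1 l.castSucc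
      map_add' := fun x y => rfl
      map_smul' := fun t x => rfl }
  have hinj : Function.Injective e := by
    intro x y hxy
    apply Subtype.ext
    funext j l
    by_cases hj : T.w j (Fin.last n) ≠ 0
    · rw [x.2.1 j hj, y.2.1 j hj]
    · refine Fin.lastCases ?_ (fun l => ?_) l
      · rw [x.2.2 j, y.2.2 j]
      · exact congrFun (congrFun hxy ⟨j, hj⟩) l
  have h1 := LinearMap.finrank_le_finrank_of_injective hinj
  rw [Module.finrank_pi_fintype] at h1
  simp only [Module.finrank_fin_fun, Finset.sum_const, Finset.card_univ, smul_eq_mul] at h1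
  have h2 : Fintype.card {j : Fin r // ¬ T.w j (Fin.last n) ≠ 0} = r - uu T := by
    rw [Fintype.card_subtype_compl, Fintype.card_fin, uu, Nat.card_eq_fintype_card]
  rwa [h2] at h1

/-- restriction to the summands off the hyperplane -/
def rJ {k : ℕ} (T : H80R.Dec n k a b r) : GG T →ₗ[ℂ] GJ T where
  toFun := fun v => ⟨fun j => v.1 j.1, by
    obtain ⟨D, hD⟩ := v.2
    exact ⟨D, fun j l => hD j.1 l⟩⟩
  map_add' := fun _ _ => rfl
  map_smul' := fun _ _ => rfl

theorem GG_upper {k : ℕ} (T : H80R.Dec n k a b r) :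
    finrank ℂ (GG T) ≤ (r - uu T) * n + finrank ℂ (GJ T) := by
  have h1 := (rJ T).finrank_range_add_finrank_ker
  have h2 : finrank ℂ (LinearMap.range (rJ T)) ≤ finrank ℂ (GJ T) := Submodule.finrank_le _
  have h3 : finrank ℂ (LinearMap.ker (rJ T)) ≤ finrank ℂ (KNk T) := by
    have hmem : ∀ v : LinearMap.ker (rJ T), v.1.1 ∈ KNk T := by
      intro v
      have h0 : ∀ j : JJ T, v.1.1 j.1 = 0 := by
        intro j
        have h1 : rJ T v.1 = 0 := v.2
        exact congrArg (fun z : GJ T => z.1 j) h1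
      refine ⟨fun j hj => h0 ⟨j, hj⟩, fun j => ?_⟩
      by_cases hj : T.w j (Fin.last n) ≠ 0
      · rw [h0 ⟨j, hj⟩]
        rfl
      · rw [not_not] at hj
        obtain ⟨D, hD⟩ := v.1.2
        rw [hD, hj, map_zero]
    let e : LinearMap.ker (rJ T) →ₗ[ℂ] KNk T :=
      { toFun := fun v => ⟨v.1.1, hmem v⟩
        map_add' := fun x y => rfl
        map_smul' := fun t x => rfl }
    refine LinearMap.finrank_le_finrank_of_injective (f := e) (fun x y hxy => ?_)
    apply Subtype.ext
    apply Subtype.ext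
    exact congrArg (fun z : KNk T => z.1) hxy
  have h5 := finrank_KNk T
  omega

theorem sum_JJk {k : ℕ} (T : H80R.Dec n k a b r) [Fintype (JJ T)] (f : Fin r → ℂ)
    (hf : ∀ j, T.w j (Fin.last n) = 0 → f j = 0) : ∑ j : JJ T, f j.1 = ∑ j, f j := by
  classical
  rw [← Finset.sum_subtype (Finset.univ.filter (fun j => T.w j (Fin.last n) ≠ 0))
    (fun x => by simp) f]
  refine Finset.sum_filter_of_ne (fun j _ hj h0 => hj (hf j h0))

/-- passage to the normalised points -/
noncomputable def nJ {k : ℕ} (T : H80R.Dec n k a b r) :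
    GJ T →ₗ[ℂ] (JJ T → Fin n → ℂ) where
  toFun := fun v j m => (v.1 j m.castSucc - v.1 j (Fin.last n) * zt T j m.castSucc) /
    T.w j.1 (Fin.last n)
  map_add' := fun v v' => by
    funext j m
    simp only [Submodule.coe_add, Pi.add_apply]
    ring
  map_smul' := fun t v => by
    funext j m
    simp only [Submodule.coe_smul, Pi.smul_apply, smul_eq_mul, RingHom.id_apply]
    ring

theorem zt_last {k : ℕ} (T : H80R.Dec n k a b r) (j : JJ T) : zt T j (Fin.last n) = 1 :=
  div_self j.2

theorem w_eq_smul {k : ℕ} (T : H80R.Dec n k a b r) (j : JJ T) :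
    T.w j.1 = T.w j.1 (Fin.last n) • zt T j := by
  funext l
  rw [Pi.smul_apply, smul_eq_mul, zt, mul_div_cancel₀ _ j.2]

theorem range_nJ {k : ℕ} (T : H80R.Dec n k a b r) : LinearMap.range (nJ T) ≤ EV (zt T) := by
  rintro _ ⟨⟨v, D, hD⟩, rfl⟩
  refine ⟨D, fun j m => ?_⟩
  have hc := j.2
  show (v j m.castSucc - v j (Fin.last n) * zt T j m.castSucc) / T.w j.1 (Fin.last n) =
    D (T.w j.1 m.castSucc / T.w j.1 (Fin.last n))
  rw [hD, hD, zt]
  have h1 : T.w j.1 m.castSucc =
      (T.w j.1 m.castSucc / T.w j.1 (Fin.last n)) * T.w j.1 (Fin.last n) := by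
    rw [div_mul_cancel₀ _ hc]
  have h2 := congrArg D h1
  rw [Derivation.leibniz, smul_eq_mul, smul_eq_mul] at h2
  rw [h2]
  rw [div_eq_iff hc]
  ring

theorem kernel_rel (T : H80R.Dec n (K + 2) a b r) (v : LinearMap.ker (nJ T))
    {C : MvPolynomial (Fin (n + 1)) ℂ} (hC : C ∈ H80R.Fm (n + 1) K) :
    ∑ j : JJ T, (T.w j.1 (Fin.last n) ^ (K + 1) * v.1.1 j (Fin.last n)) *
      eval (zt T j) C = 0 := by
  obtain ⟨⟨v, D, hD⟩, hker⟩ := v
  have hk : ∀ (j : JJ T) (l : Fin (n + 1)), v j l = v j (Fin.last n) * zt T j l := by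
    intro j l
    refine Fin.lastCases ?_ (fun m => ?_) l
    · rw [zt_last, mul_one]
    · have h1 := congrFun (congrFun (LinearMap.mem_ker.1 hker) j) m
      have h2 : (v j m.castSucc - v j (Fin.last n) * zt T j m.castSucc) /
        T.w j.1 (Fin.last n) = 0 := h1
      rcases div_eq_zero_iff.1 h2 with h3 | h3
      · exact sub_eq_zero.1 h3
      · exact absurd h3 j.2
  have h1 := drelk T D hC
  have h2 := sum_JJk T (fun j => 2 * T.w j (Fin.last n) * D (T.w j (Fin.last n)) *
    eval (T.w j) C + T.w j (Fin.last n) ^ 2 * H80R.drF (T.w j) (fun l => D (T.w j l)) C)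
    (fun j hj => by rw [hj]; ring)
  rw [h1] at h2
  have h3 : ∀ j : JJ T, 2 * T.w j.1 (Fin.last n) * D (T.w j.1 (Fin.last n)) *
      eval (T.w j.1) C + T.w j.1 (Fin.last n) ^ 2 *
        H80R.drF (T.w j.1) (fun l => D (T.w j.1 l)) C =
      ((K + 2 : ℕ) : ℂ) * ((T.w j.1 (Fin.last n) ^ (K + 1) * v j (Fin.last n)) *
        eval (zt T j) C) := by
    intro j
    have e1 : eval (T.w j.1) C = T.w j.1 (Fin.last n) ^ K * eval (zt T j) C := by
      conv_lhs => rw [w_eq_smul T j]
      rw [H80R.eval_smul_form hC]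
    have e2 : T.w j.1 (Fin.last n) * H80R.drF (T.w j.1) (fun l => D (T.w j.1 l)) C =
        v j (Fin.last n) * (K * eval (T.w j.1) C) := by
      rw [H80R.drF_apply, ← H80R.euler hC (T.w j.1), Finset.mul_sum, Finset.mul_sum]
      refine Finset.sum_congr rfl (fun l _ => ?_)
      have e3 : T.w j.1 l = T.w j.1 (Fin.last n) * zt T j l := congrFun (w_eq_smul T j) l
      rw [← hD, hk j l]
      linear_combination (-(v j (Fin.last n) * H80R.gr (T.w j.1) C l)) * e3
    rw [← hD]
    have e4 : T.w j.1 (Fin.last n) ^ 2 * H80R.drF (T.w j.1) (fun l => D (T.w j.1 l)) C =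
        T.w j.1 (Fin.last n) * (v j (Fin.last n) * (K * eval (T.w j.1) C)) := by
      rw [← e2]
      ring
    rw [e4, e1]
    push_cast
    ring
  rw [Finset.sum_congr rfl (fun j _ => h3 j), ← Finset.mul_sum] at h2
  rcases mul_eq_zero.1 h2 with h4 | h4
  · exact absurd h4 (Nat.cast_ne_zero.2 (by omega))
  · exact h4

/-- the functional attached to a family of coefficients -/
noncomputable def fnl {ι : Type} [Fintype ι] : (ι → ℂ) →ₗ[ℂ] Module.Dual ℂ (ι → ℂ) where
  toFun := fun c => ∑ j, c j • LinearMap.proj j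
  map_add' := fun c d => by
    simp only [Pi.add_apply, add_smul, Finset.sum_add_distrib]
  map_smul' := fun t c => by
    simp only [Pi.smul_apply, smul_eq_mul, RingHom.id_apply, Finset.smul_sum, mul_smul]

theorem fnl_apply {ι : Type} [Fintype ι] (c x : ι → ℂ) : fnl c x = ∑ j, c j * x j := by
  show (∑ j, c j • LinearMap.proj j : (ι → ℂ) →ₗ[ℂ] ℂ) x = _
  simp only [LinearMap.sum_apply, LinearMap.smul_apply, LinearMap.proj_apply, smul_eq_mul]

theorem fnl_single {ι : Type} [Fintype ι] [DecidableEq ι] (c : ι → ℂ) (j : ι) :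
    fnl c (Pi.single j 1) = c j := by
  rw [fnl_apply, Finset.sum_eq_single j]
  · simp
  · intro i _ hi
    rw [Pi.single_eq_of_ne hi, mul_zero]
  · intro h
    exact absurd (Finset.mem_univ _) h

theorem GJ_upper (T : H80R.Dec n (K + 2) a b r) :
    finrank ℂ (GJ T) + rho T K ≤ uu T + finrank ℂ (EV (zt T)) := by
  classical
  have h1 := (nJ T).finrank_range_add_finrank_ker
  have h2 : finrank ℂ (LinearMap.range (nJ T)) ≤ finrank ℂ (EV (zt T)) :=
    Submodule.finrank_mono (range_nJ T)
  have h3 := Subspace.finrank_add_finrank_dualAnnihilator_eq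
    (LinearMap.range (evM K (zt T)))
  have hu : uu T = Fintype.card (JJ T) := by
    rw [uu, Nat.card_eq_fintype_card]
  rw [Module.finrank_fintype_fun_eq_card, ← hu] at h3
  have h4 : finrank ℂ (LinearMap.ker (nJ T)) ≤
      finrank ℂ (LinearMap.range (evM K (zt T))).dualAnnihilator := by
    have hmem : ∀ v : LinearMap.ker (nJ T),
        fnl (fun j => T.w j.1 (Fin.last n) ^ (K + 1) * v.1.1 j (Fin.last n)) ∈
          (LinearMap.range (evM K (zt T))).dualAnnihilator := by
      intro v
      rw [Submodule.mem_dualAnnihilator]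
      rintro _ ⟨C, rfl⟩
      rw [fnl_apply]
      exact kernel_rel T v C.2
    let e : LinearMap.ker (nJ T) →ₗ[ℂ] (LinearMap.range (evM K (zt T))).dualAnnihilator :=
      { toFun := fun v =>
          ⟨fnl (fun j => T.w j.1 (Fin.last n) ^ (K + 1) * v.1.1 j (Fin.last n)), hmem v⟩
        map_add' := fun x y => by
          apply Subtype.ext
          refine Eq.trans ?_ (map_add fnl _ _)
          refine congrArg fnl (funext fun j => ?_)
          exact mul_add _ (x.1.1 j (Fin.last n)) (y.1.1 j (Fin.last n))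
        map_smul' := fun t x => by
          apply Subtype.ext
          refine Eq.trans ?_ (map_smul fnl t _)
          refine congrArg fnl (funext fun j => ?_)
          exact mul_left_comm _ t (x.1.1 j (Fin.last n)) }
    have hlast : ∀ (v : LinearMap.ker (nJ T)) (j : JJ T) (l : Fin (n + 1)),
        v.1.1 j l = v.1.1 j (Fin.last n) * zt T j l := by
      intro v j l
      refine Fin.lastCases ?_ (fun m => ?_) l
      · rw [zt_last, mul_one]
      · have h1 := congrFun (congrFun (LinearMap.mem_ker.1 v.2) j) m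
        have h2 : (v.1.1 j m.castSucc - v.1.1 j (Fin.last n) * zt T j m.castSucc) /
          T.w j.1 (Fin.last n) = 0 := h1
        rcases div_eq_zero_iff.1 h2 with h3 | h3
        · exact sub_eq_zero.1 h3
        · exact absurd h3 j.2
    refine LinearMap.finrank_le_finrank_of_injective (f := e) (fun x y hxy => ?_)
    apply Subtype.ext
    apply Subtype.ext
    funext j l
    have h5 := congrArg (fun z : (LinearMap.range (evM K (zt T))).dualAnnihilator =>
      z.1 (Pi.single j 1)) hxy
    have h6 : ∀ z : LinearMap.ker (nJ T), (e z).1 (Pi.single j 1) =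
        T.w j.1 (Fin.last n) ^ (K + 1) * z.1.1 j (Fin.last n) := by
      intro z
      exact fnl_single _ j
    simp only [h6] at h5
    have h7 := mul_left_cancel₀ (pow_ne_zero _ j.2) h5
    rw [hlast x, hlast y, h7]
  have h5 : rho T K = finrank ℂ (LinearMap.range (evM K (zt T))) := rfl
  omega

theorem rho_lt (T : H80R.Dec n (K + 2) a b r) (h : 1 ≤ uu T) : rho T K + 1 ≤ uu T := by
  classical
  have h3 := Subspace.finrank_add_finrank_dualAnnihilator_eq
    (LinearMap.range (evM K (zt T)))
  have hu : uu T = Fintype.card (JJ T) := by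
    rw [uu, Nat.card_eq_fintype_card]
  rw [Module.finrank_fintype_fun_eq_card, ← hu] at h3
  have hcard : 0 < Fintype.card (JJ T) := by omega
  obtain ⟨j⟩ := Fintype.card_pos_iff.1 hcard
  have hmem : fnl (fun j : JJ T => T.w j.1 (Fin.last n) ^ (K + 2)) ∈
      (LinearMap.range (evM K (zt T))).dualAnnihilator := by
    rw [Submodule.mem_dualAnnihilator]
    rintro _ ⟨C, rfl⟩
    rw [fnl_apply]
    exact relz T C.2
  have hne : (⟨_, hmem⟩ : (LinearMap.range (evM K (zt T))).dualAnnihilator) ≠ 0 := by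
    intro h0
    have h1 := congrArg (fun z : (LinearMap.range (evM K (zt T))).dualAnnihilator =>
      z.1 (Pi.single j 1)) h0
    have h2 : T.w j.1 (Fin.last n) ^ (K + 2) = 0 := by
      have h4 := fnl_single (fun j : JJ T => T.w j.1 (Fin.last n) ^ (K + 2)) j
      rw [← h4]
      exact h1
    exact pow_ne_zero _ j.2 h2
  have h4 : 0 < finrank ℂ (LinearMap.range (evM K (zt T))).dualAnnihilator := by
    apply Module.finrank_pos_iff_exists_ne_zero.2
    exact ⟨_, hne⟩
  have h5 : rho T K = finrank ℂ (LinearMap.range (evM K (zt T))) := rfl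
  omega

end H80T
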