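import Mathlib
import Pool.Agent.H80T.KeyK
import Pool.Agent.H80T.UpK
import Pool.Agent.H80T.FreeK

/-! FIB: the fibre bound. -/

namespace H80T

open Module MvPolynomial

variable {n K a b r : ℕ}

/-- orthogonal subspaces -/
theorem finrank_orth {ι : Type} [Fintype ι] (R S : Submodule ℂ (ι → ℂ))
    (h : ∀ x ∈ R, ∀ y ∈ S, ∑ i, x i * y i = 0) :
    finrank ℂ R + finrank ℂ S ≤ Fintype.card ι := by
  classical
  have h3 := Subspace.finrank_add_finrank_dualAnnihilator_eq S
  rw [Module.finrank_fintype_fun_eq_card] at h3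
  have h4 : finrank ℂ R ≤ finrank ℂ S.dualAnnihilator := by
    have hmem : ∀ x : R, fnl x.1 ∈ S.dualAnnihilator := by
      intro x
      rw [Submodule.mem_dualAnnihilator]
      intro y hy
      rw [fnl_apply]
      exact h x.1 x.2 y hy
    let e : R →ₗ[ℂ] S.dualAnnihilator :=
      { toFun := fun x => ⟨fnl x.1, hmem x⟩
        map_add' := fun x y => by
          apply Subtype.ext
          exact map_add fnl x.1 y.1
        map_smul' := fun t x => by
          apply Subtype.ext
          exact map_smul fnl t x.1 }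
    refine LinearMap.finrank_le_finrank_of_injective (f := e) (fun x y hxy => ?_)
    apply Subtype.ext
    funext j
    have h5 := congrArg (fun z : S.dualAnnihilator => z.1 (Pi.single j 1)) hxy
    have h6 : ∀ z : R, (e z).1 (Pi.single j 1) = z.1 j := fun z => fnl_single _ j
    simp only [h6] at h5
    exact h5
  omega

theorem fib (T : H80R.Dec n (K + 2) a b r) {y : ℕ} (e : Fin y → JJ T)
    (he : Function.Injective e) :
    (n + 1).multichoose K + finrank ℂ (EV (zt T)) ≤
      H80R.nl (n + 1) K (fun i => zt T (e i)) + uu T * n + rho T K := by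
  classical
  have hu : uu T = Fintype.card (JJ T) := by
    rw [uu, Nat.card_eq_fintype_card]
  -- forms vanishing at all the points
  have h1 := (evM K (zt T)).finrank_range_add_finrank_ker
  rw [H80R.finrank_Fm] at h1
  have hrho : rho T K = finrank ℂ (LinearMap.range (evM K (zt T))) := rfl
  -- gradients at the selected points
  let g : LinearMap.ker (evM K (zt T)) →ₗ[ℂ] (Fin y × Fin n → ℂ) :=
    { toFun := fun C p => T.w (e p.1).1 (Fin.last n) ^ (K + 2) *
        H80R.gr (zt T (e p.1)) C.1.1 p.2.castSucc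
      map_add' := by
        intro A B; ext p; simp [H80R.gr_add, mul_add]
      map_smul' := by
        intro c A; ext p; simp [H80R.gr_smul]; ring }
  have hg : ∀ C p, g C p = T.w (e p.1).1 (Fin.last n) ^ (K + 2) *
        H80R.gr (zt T (e p.1)) C.1.1 p.2.castSucc := fun _ _ => rfl
  have hev : ∀ (C : LinearMap.ker (evM K (zt T))) j, eval (zt T j) C.1.1 = 0 := fun C j =>
    congrFun (LinearMap.mem_ker.1 C.2) j
  have h2 := H80R.range_ker (LinearMap.ker (evM K (zt T))) g
  have h3 : finrank ℂ (LinearMap.ker g) ≤ H80R.nl (n + 1) K (fun i => zt T (e i)) := by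
    let f : LinearMap.ker g →ₗ[ℂ]
        LinearMap.ker (H80R.grL (n + 1) K (fun i => zt T (e i))) :=
      { toFun := fun C => ⟨C.1.1, by
          rw [LinearMap.mem_ker]
          funext i l
          show H80R.gr (zt T (e i)) C.1.1.1 l = 0
          have h4 : ∀ m : Fin n, H80R.gr (zt T (e i)) C.1.1.1 m.castSucc = 0 := by
            intro m
            have h5 := congrFun (LinearMap.mem_ker.1 C.2) (i, m)
            rw [hg] at h5
            exact (mul_eq_zero.1 h5).resolve_left (pow_ne_zero _ (e i).2)
          refine Fin.lastCases ?_ h4 l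
          have h6 := H80R.euler C.1.1.2 (zt T (e i))
          rw [hev, mul_zero, Fin.sum_univ_castSucc] at h6
          simp only [h4, mul_zero, Finset.sum_const_zero, zero_add] at h6
          rw [zt_last, one_mul] at h6
          exact h6⟩
        map_add' := fun x y => rfl
        map_smul' := fun t x => rfl }
    have hf : Function.Injective f := by
      intro x y hxy
      apply Subtype.ext
      apply Subtype.ext
      exact congrArg (fun z : LinearMap.ker (H80R.grL (n + 1) K (fun i => zt T (e i))) => z.1) hxy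
    exact LinearMap.finrank_le_finrank_of_injective hf
  -- derivation values supported on the selected points
  let q : EV (zt T) →ₗ[ℂ] ({j : JJ T // ¬ j ∈ Set.range e} → Fin n → ℂ) :=
    { toFun := fun v j => v.1 j.1
      map_add' := fun x y => rfl
      map_smul' := fun t x => rfl }
  have hq : ∀ v j, q v j = v.1 j.1 := fun _ _ => rfl
  have h4 := q.finrank_range_add_finrank_ker
  have h5 : finrank ℂ (LinearMap.range q) ≤ (uu T - y) * n := by
    have h6 := Submodule.finrank_le (LinearMap.range q)
    rw [Module.finrank_pi_fintype] at h6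
    simp only [Module.finrank_fin_fun, Finset.sum_const, Finset.card_univ, smul_eq_mul] at h6
    have h7 : Fintype.card {j : JJ T // ¬ j ∈ Set.range e} = uu T - y := by
      rw [Fintype.card_subtype_compl, ← hu]
      congr 1
      rw [← Nat.card_eq_fintype_card]
      have h8 : Nat.card {x : JJ T // x ∈ Set.range e} = Nat.card (Fin y) :=
        Nat.card_congr (Equiv.ofInjective e he).symm
      rw [h8, Nat.card_fin]
    rwa [h7] at h6
  -- restriction to the selected points
  let s : LinearMap.ker q →ₗ[ℂ] (Fin y × Fin n → ℂ) :=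
    { toFun := fun v p => v.1.1 (e p.1) p.2
      map_add' := fun x y => rfl
      map_smul' := fun t x => rfl }
  have hs : ∀ v p, s v p = v.1.1 (e p.1) p.2 := fun _ _ => rfl
  have hvan : ∀ (v : LinearMap.ker q) (j : JJ T), j ∉ Set.range e → v.1.1 j = 0 := by
    intro v j hj
    exact congrFun (LinearMap.mem_ker.1 v.2) ⟨j, hj⟩
  have hsinj : Function.Injective s := by
    intro v v' hvv
    apply Subtype.ext
    apply Subtype.ext
    funext j m
    by_cases hj : j ∈ Set.range e
    · obtain ⟨i, rfl⟩ := hj
      exact congrFun hvv (i, m)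
    · rw [hvan v j hj, hvan v' j hj]
  have h6 : finrank ℂ (LinearMap.range s) = finrank ℂ (LinearMap.ker q) :=
    LinearMap.finrank_range_of_inj hsinj
  have h7 : finrank ℂ (LinearMap.range g) + finrank ℂ (LinearMap.range s) ≤
      Fintype.card (Fin y × Fin n) := by
    apply finrank_orth
    rintro _ ⟨C, rfl⟩ _ ⟨v, rfl⟩
    obtain ⟨D, hD⟩ := v.1.2
    have h8 := drelz T D C.1.2 (hev C)
    have h9 : ∑ j : JJ T, T.w j.1 (Fin.last n) ^ (K + 2) *
        ∑ m : Fin n, D (zt T j m.castSucc) * H80R.gr (zt T j) C.1.1 m.castSucc =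
        ∑ i : Fin y, T.w (e i).1 (Fin.last n) ^ (K + 2) *
        ∑ m : Fin n, D (zt T (e i) m.castSucc) *
          H80R.gr (zt T (e i)) C.1.1 m.castSucc := by
      symm
      apply Finset.sum_of_injOn e he.injOn (by simp)
      · intro j _ hj
        have hj' : j ∉ Set.range e := by
          intro hcon
          apply hj
          simpa using hcon
        have h10 := hvan v j hj'
        have h11 : ∀ m : Fin n, D (zt T j m.castSucc) = 0 := by
          intro m
          rw [← hD, h10]
          rfl
        simp only [h11, zero_mul, Finset.sum_const_zero, mul_zero]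
      · intro i _
        rfl
    rw [h9] at h8
    rw [Fintype.sum_prod_type]
    refine Eq.trans ?_ h8
    refine Finset.sum_congr rfl (fun i _ => ?_)
    rw [Finset.mul_sum]
    refine Finset.sum_congr rfl (fun m _ => ?_)
    rw [hg, hs]
    simp only
    rw [hD]
    ring
  rw [Fintype.card_prod, Fintype.card_fin, Fintype.card_fin] at h7
  have hyu : y ≤ uu T := by
    rw [hu]
    have := Fintype.card_le_of_injective e he
    rwa [Fintype.card_fin] at this
  have h8 : (uu T - y) * n + y * n = uu T * n := by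
    rw [← add_mul, Nat.sub_add_cancel hyu]
  omega

theorem exists_ker_ne {E F : Type*} [AddCommGroup E] [Module ℂ E] [FiniteDimensional ℂ E]
    [AddCommGroup F] [Module ℂ F] [FiniteDimensional ℂ F] (K₁ : Submodule ℂ E)
    (K₂ : Submodule ℂ F) (R : K₁ →ₗ[ℂ] K₂) (h : finrank ℂ K₂ < finrank ℂ K₁) :
    ∃ A, R A = 0 ∧ A ≠ 0 := by
  obtain ⟨A, hA, hA0⟩ := Submodule.exists_mem_ne_zero_of_ne_bot
    (LinearMap.ker_ne_bot_of_finrank_lt h (f := R))
  exact ⟨A, LinearMap.mem_ker.1 hA, hA0⟩

/-- forms of degree `K + 1` singular at the normalised summands -/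
theorem exists_B (T : H80R.Dec n (K + 2) a b r) (hn : 1 ≤ n) (U : ℕ)
    (hU : H80R.nl n (K + 2) (Fin.append T.pl T.pp : Fin (a + b) → Fin n → ℂ) ≤ U)
    (hW : U < H80R.nl (n + 1) (K + 2) T.w) :
    ∃ B ∈ H80R.Fm (n + 1) (K + 1), B ≠ 0 ∧ ∀ j, H80R.gr (zt T j) B = 0 := by
  classical
  have hres : ∀ A : LinearMap.ker (H80R.grL (n + 1) (K + 2) T.w),
      ∀ s, H80R.gr ((Fin.append T.pl T.pp : Fin (a + b) → Fin n → ℂ) s)
        (H80R.res n A.1.1) = 0 := by
    intro A s
    have hA2 : ∀ j, H80R.gr (T.w j) A.1.1 = 0 := fun j =>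
      congrFun (LinearMap.mem_ker.1 A.2) j
    obtain ⟨h2, -, h3⟩ := H80R.tangent_hyper T.pl T.pp T.py T.halg T.w T.hT A.1.2
      (fun j _ => hA2 j) (fun j _ l => by rw [hA2 j]; rfl)
    refine Fin.addCases (fun s => ?_) (fun s => ?_) s
    · rw [Fin.append_left]
      ext m
      rw [← H80R.gr_snoc_castSucc, h2 s]
      rfl
    · rw [Fin.append_right]
      ext m
      rw [← H80R.gr_snoc_castSucc]
      exact h3 s m
  let R : LinearMap.ker (H80R.grL (n + 1) (K + 2) T.w) →ₗ[ℂ]
      LinearMap.ker (H80R.grL n (K + 2) (Fin.append T.pl T.pp : Fin (a + b) → Fin n → ℂ)) :=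
    { toFun := fun A => ⟨⟨H80R.res n A.1.1, H80R.res_mem A.1.2⟩, by
        rw [LinearMap.mem_ker]
        funext s
        exact hres A s⟩
      map_add' := fun x y => by
        apply Subtype.ext
        apply Subtype.ext
        exact map_add (H80R.res n) x.1.1 y.1.1
      map_smul' := fun t x => by
        apply Subtype.ext
        apply Subtype.ext
        exact map_smul (H80R.res n) t x.1.1 }
  have hlt : finrank ℂ (LinearMap.ker (H80R.grL n (K + 2)
      (Fin.append T.pl T.pp : Fin (a + b) → Fin n → ℂ))) <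
      finrank ℂ (LinearMap.ker (H80R.grL (n + 1) (K + 2) T.w)) := lt_of_le_of_lt hU hW
  obtain ⟨A, hA, hA0⟩ := exists_ker_ne _ _ R hlt
  have hr0 : H80R.res n A.1.1 = 0 := by
    have h2 := congrArg Subtype.val hA
    exact congrArg Subtype.val h2
  obtain ⟨B, hB, hAB⟩ := H80R.res_eq_zero_form (d := K + 1) A.1.2 hr0
  refine ⟨B, hB, ?_, ?_⟩
  · rintro rfl
    apply hA0
    apply Subtype.ext
    apply Subtype.ext
    rw [hAB, mul_zero]
    rfl
  · intro j
    have h2 : H80R.gr (T.w j.1) A.1.1 = 0 := congrFun (LinearMap.mem_ker.1 A.2) j.1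
    rw [hAB, ← H80R.lf_last] at h2
    obtain ⟨-, h3⟩ := H80R.gr_zero_of_lf_mul (d := K + 1) _ _
      (by rw [H80R.lf_last, eval_X]; exact j.2) hB h2
    funext l
    have h4 := congrFun h3 l
    rw [w_eq_smul T j, gr_smul_pt hB] at h4
    exact (mul_eq_zero.1 h4).resolve_left (pow_ne_zero _ j.2)

end H80T
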