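import Mathlib
import Pool.Agent.H80T.Defs4

/-! INDEX: dimension counts for families of vectors. -/

namespace H80T

open Module

private theorem vals_top {ι : Type} {n : ℕ} (hn : 1 ≤ n) (E : Submodule ℂ (ι → Fin n → ℂ))
    (S : Finset ι) (j : ι) (h : ¬ finrank ℂ (vals E S j) ≤ n - 1) (x : Fin n → ℂ) :
    ∃ v ∈ E, (∀ i ∈ S, v i = 0) ∧ v j = x := by
  have h1 : finrank ℂ (Fin n → ℂ) ≤ finrank ℂ (vals E S j) := by
    rw [finrank_fin_fun]
    omega
  have h2 : vals E S j = ⊤ := Submodule.eq_top_of_finrank_eq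
    (le_antisymm (Submodule.finrank_le _) h1)
  have h3 : x ∈ vals E S j := by rw [h2]; exact Submodule.mem_top
  exact h3

theorem exists_max_free {ι : Type} [Finite ι] {n : ℕ} (hn : 1 ≤ n)
    (E : Submodule ℂ (ι → Fin n → ℂ)) :
    ∃ S : Finset ι, FreeOn E S ∧ ∀ j ∉ S, finrank ℂ (vals E S j) ≤ n - 1 := by
  classical
  have := Fintype.ofFinite ι
  obtain ⟨S, hS, hmax⟩ := Finset.exists_max_image
    ((Finset.univ : Finset (Finset ι)).filter fun S => FreeOn E S) Finset.card
    ⟨∅, by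
      simp only [Finset.mem_filter, Finset.mem_univ, true_and]
      exact fun x => ⟨0, E.zero_mem, fun i hi => absurd hi (Finset.notMem_empty i)⟩⟩
  simp only [Finset.mem_filter, Finset.mem_univ, true_and] at hS hmax
  refine ⟨S, hS, fun j hj => ?_⟩
  by_contra hcon
  have hins : FreeOn E (insert j S) := by
    intro x
    obtain ⟨v, hv, hvS⟩ := hS x
    obtain ⟨w, hw, hwS, hwj⟩ := vals_top hn E S j hcon (x j - v j)
    refine ⟨v + w, E.add_mem hv hw, fun i hi => ?_⟩
    rcases Finset.mem_insert.mp hi with h | h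
    · rw [h, Pi.add_apply, hwj, add_sub_cancel]
    · rw [Pi.add_apply, hwS i h, add_zero, hvS i h]
  have := hmax _ hins
  rw [Finset.card_insert_of_notMem hj] at this
  omega

/-- the elements of `E` vanishing on `S` -/
private def van {ι : Type} {n : ℕ} (E : Submodule ℂ (ι → Fin n → ℂ)) (S : Finset ι) :
    Submodule ℂ (ι → Fin n → ℂ) where
  carrier := {v | v ∈ E ∧ ∀ i ∈ S, v i = 0}
  add_mem' := by
    rintro v v' ⟨h1, h2⟩ ⟨h1', h2'⟩
    exact ⟨E.add_mem h1 h1', fun i hi => by simp [h2 i hi, h2' i hi]⟩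
  zero_mem' := ⟨E.zero_mem, fun i _ => rfl⟩
  smul_mem' := by
    rintro c v ⟨h1, h2⟩
    exact ⟨E.smul_mem c h1, fun i hi => by simp [h2 i hi]⟩

private theorem van_step {ι : Type} [Fintype ι] [DecidableEq ι] {n : ℕ}
    (E : Submodule ℂ (ι → Fin n → ℂ)) (S : Finset ι) (j : ι) :
    finrank ℂ (van E S) ≤ finrank ℂ (van E (insert j S)) + finrank ℂ (vals E S j) := by
  set f : van E S →ₗ[ℂ] (Fin n → ℂ) := (LinearMap.proj j).comp (van E S).subtype with hf
  have h1 := LinearMap.finrank_range_add_finrank_ker f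
  have h2 : LinearMap.range f ≤ vals E S j := by
    rintro _ ⟨v, rfl⟩
    exact ⟨v.1, v.2.1, v.2.2, rfl⟩
  have h3 : finrank ℂ (LinearMap.range f) ≤ finrank ℂ (vals E S j) := Submodule.finrank_mono h2
  have h4 : finrank ℂ (LinearMap.ker f) ≤ finrank ℂ (van E (insert j S)) := by
    rw [← Submodule.finrank_map_subtype_eq (van E S) (LinearMap.ker f)]
    refine Submodule.finrank_mono ?_
    rintro _ ⟨v, hv, rfl⟩
    refine ⟨v.2.1, fun i hi => ?_⟩
    rcases Finset.mem_insert.mp hi with h | h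
    · rw [h]
      exact hv
    · exact v.2.2 i h
  omega

private theorem vals_mono {ι : Type} {n : ℕ} (E : Submodule ℂ (ι → Fin n → ℂ)) (S S' : Finset ι)
    (h : S ⊆ S') (j : ι) : vals E S' j ≤ vals E S j := by
  rintro x ⟨v, h1, h2, h3⟩
  exact ⟨v, h1, fun i hi => h2 i (h hi), h3⟩

private theorem van_many {ι : Type} [Fintype ι] [DecidableEq ι] {n : ℕ}
    (E : Submodule ℂ (ι → Fin n → ℂ)) (S : Finset ι) (m : ℕ) (U : Finset ι)
    (h : ∀ j ∈ U, finrank ℂ (vals E S j) ≤ m) :
    finrank ℂ (van E S) ≤ finrank ℂ (van E (U ∪ S)) + U.card * m := by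
  induction U using Finset.induction_on with
  | empty => rw [Finset.empty_union, Finset.card_empty, zero_mul, add_zero]
  | insert j U hj ih =>
    have h1 := ih fun i hi => h i (Finset.mem_insert_of_mem hi)
    have h2 := van_step E (U ∪ S) j
    have h3 : finrank ℂ (vals E (U ∪ S) j) ≤ m :=
      (Submodule.finrank_mono (vals_mono E S (U ∪ S) Finset.subset_union_right j)).trans
        (h j (Finset.mem_insert_self _ _))
    rw [Finset.card_insert_of_notMem hj, Finset.insert_union]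
    rw [add_mul, one_mul]
    omega

theorem index_bound {ι : Type} [Fintype ι] [DecidableEq ι] {n : ℕ}
    (E : Submodule ℂ (ι → Fin n → ℂ)) (S₁ S₂ : Finset ι) (h12 : S₁ ⊆ S₂)
    (h1 : ∀ j ∈ S₂, j ∉ S₁ → finrank ℂ (vals E S₁ j) ≤ n - 1)
    (h2 : ∀ j ∉ S₂, finrank ℂ (vals E S₂ j) ≤ n - 2) :
    finrank ℂ E ≤ S₁.card * n + (S₂.card - S₁.card) * (n - 1) +
      (Fintype.card ι - S₂.card) * (n - 2) := by
  have e0 : E ≤ van E ∅ := fun v hv => ⟨hv, fun i hi => absurd hi (Finset.notMem_empty i)⟩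
  have e0' : finrank ℂ E ≤ finrank ℂ (van E ∅) := Submodule.finrank_mono e0
  have e1 := van_many E ∅ n S₁ fun j _ => by
    have := Submodule.finrank_le (vals E ∅ j)
    rwa [finrank_fin_fun] at this
  have e2 := van_many E S₁ (n - 1) (S₂ \ S₁) fun j hj =>
    h1 j (Finset.mem_sdiff.mp hj).1 (Finset.mem_sdiff.mp hj).2
  have e3 := van_many E S₂ (n - 2) (Finset.univ \ S₂) fun j hj =>
    h2 j (Finset.mem_sdiff.mp hj).2
  rw [Finset.union_empty] at e1
  rw [Finset.sdiff_union_of_subset h12, Finset.card_sdiff_of_subset h12] at e2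
  rw [Finset.sdiff_union_of_subset (Finset.subset_univ _),
    Finset.card_sdiff_of_subset (Finset.subset_univ _), Finset.card_univ] at e3
  have e4 : finrank ℂ (van E Finset.univ) = 0 := by
    have : van E Finset.univ = ⊥ := by
      rw [eq_bot_iff]
      rintro v ⟨-, hv⟩
      rw [Submodule.mem_bot]
      funext i
      exact hv i (Finset.mem_univ i)
    rw [this, finrank_bot]
  omega

end H80T
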