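import Mathlib
import Pool.Agent.H80T.KeyK

/-! LOWK: lower bounds for the spaces of values of derivations. -/

namespace H80T

open Module MvPolynomial

variable {n K a b r : ℕ}

namespace LowK

theorem snoc_zero : (Fin.snoc (0 : Fin n → ℂ) 0 : Fin (n + 1) → ℂ) = 0 := by
  ext l
  refine Fin.lastCases ?_ (fun l => ?_) l <;> simp

theorem snoc_single (m : Fin n) (l : Fin (n + 1)) (hl : l ≠ m.castSucc) :
    (Fin.snoc (Pi.single m 1 : Fin n → ℂ) 0 : Fin (n + 1) → ℂ) l = 0 := by
  revert hl
  refine Fin.lastCases ?_ (fun b => ?_) l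
  · simp
  · intro hb
    have : b ≠ m := fun h => hb (by rw [h])
    simp [this]

/-- a form which pairs to zero with the values of all derivations -/
theorem kill {k : ℕ} (T : H80R.Dec n k a b r) {A : MvPolynomial (Fin (n + 1)) ℂ}
    (hA : A ∈ H80R.Fm (n + 1) k)
    (h0 : ∀ D : Derivation ℚ ℂ ℂ, ∑ j, H80R.drF (T.w j) (fun l => D (T.w j l)) A = 0) :
    (∀ s, H80R.gr (LL T s) A = 0) ∧
    (∀ s (m : Fin n), ∑ l, T.py s l * H80R.hs (LL T s) A m.castSucc l = 0) ∧
    (∀ s (m : Fin n), H80R.gr (QQ T s) A m.castSucc = 0) := by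
  classical
  have key : ∀ (cl : Fin a → Fin n → ℂ) (cp : Fin b → Fin n → ℂ) (cy : Fin a → Fin (n + 1) → ℂ),
      ∑ s, (H80R.drF (LL T s) (cy s) A +
        H80R.hsF (LL T s) (T.py s) (Fin.snoc (cl s) 0) A) +
        ∑ s, H80R.drF (QQ T s) (Fin.snoc (cp s) 0) A = 0 := by
    intro cl cp cy
    obtain ⟨D, hD⟩ := H80R.exists_derivation _ T.halg
      (Sum.elim (fun q : Fin a × Fin n => cl q.1 q.2)
      (Sum.elim (fun q : Fin b × Fin n => cp q.1 q.2)
        (fun q : Fin a × Fin (n + 1) => cy q.1 q.2)))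
    have hDl : ∀ s, (fun l => D (LL T s l)) =
        (Fin.snoc (cl s) 0 : Fin (n + 1) → ℂ) := by
      intro s
      ext l
      refine Fin.lastCases ?_ (fun l => ?_) l
      · simp [LL]
      · simp only [Fin.snoc_castSucc, LL]
        exact hD (Sum.inl (s, l))
    have hDp : ∀ s, (fun l => D (QQ T s l)) =
        (Fin.snoc (cp s) 0 : Fin (n + 1) → ℂ) := by
      intro s
      ext l
      refine Fin.lastCases ?_ (fun l => ?_) l
      · simp [QQ]
      · simp only [Fin.snoc_castSucc, QQ]
        exact hD (Sum.inr (Sum.inl (s, l)))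
    have hDy : ∀ s, (fun l => D (T.py s l)) = cy s := by
      intro s
      ext l
      exact hD (Sum.inr (Sum.inr (s, l)))
    have h1 := keyk T D hA
    rw [h0 D] at h1
    simp only [hDl, hDp, hDy] at h1
    exact h1
  refine ⟨?_, ?_, ?_⟩
  · intro s
    ext l
    have h := key 0 0 (Pi.single s (Pi.single l 1))
    simp only [Pi.zero_apply, snoc_zero, H80R.drF_apply, H80R.hsF_apply, mul_zero, zero_mul,
      Finset.sum_const_zero, add_zero] at h
    rw [Finset.sum_eq_single s] at h
    · rw [Finset.sum_eq_single l] at h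
      · simpa using h
      · intro b _ hb
        simp [hb]
      · simp
    · intro b _ hb
      simp [hb]
    · simp
  · intro s m
    have h := key (Pi.single s (Pi.single m 1)) 0 0
    simp only [Pi.zero_apply, snoc_zero, H80R.drF_apply, H80R.hsF_apply, zero_mul,
      Finset.sum_const_zero, add_zero, zero_add] at h
    rw [Finset.sum_eq_single s] at h
    · refine Eq.trans ?_ h
      refine Finset.sum_congr rfl fun l _ => ?_
      congr 1
      rw [Pi.single_eq_same, Finset.sum_eq_single m.castSucc]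
      · simp
      · intro b _ hb
        rw [snoc_single m b hb, mul_zero]
      · simp
    · intro b _ hb
      simp [hb, snoc_zero]
    · simp
  · intro s m
    have h := key 0 (Pi.single s (Pi.single m 1)) 0
    simp only [Pi.zero_apply, snoc_zero, H80R.drF_apply, H80R.hsF_apply, mul_zero, zero_mul,
      Finset.sum_const_zero, add_zero, zero_add] at h
    rw [Finset.sum_eq_single s] at h
    · rw [Pi.single_eq_same, Finset.sum_eq_single m.castSucc] at h
      · simpa using h
      · intro b _ hb
        rw [snoc_single m b hb, zero_mul]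
      · simp
    · intro b _ hb
      simp [hb, snoc_zero]
    · simp

/-- the same for a multiple of the last variable -/
theorem killX {e : ℕ} (T : H80R.Dec n (e + 1) a b r) {B : MvPolynomial (Fin (n + 1)) ℂ}
    (hB : B ∈ H80R.Fm (n + 1) e)
    (h0 : ∀ D : Derivation ℚ ℂ ℂ,
      ∑ j, H80R.drF (T.w j) (fun l => D (T.w j l)) (X (Fin.last n) * B) = 0) (s : Fin a) :
    H80R.gr (T.pl s) (H80R.res n B) = 0 := by
  classical
  have hee := H80R.lf_last n
  have hA : X (Fin.last n) * B ∈ H80R.Fm (n + 1) (e + 1) := by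
    rw [← hee]
    exact H80R.lf_mul_mem _ hB
  obtain ⟨h1, h2, -⟩ := kill T hA h0
  have hy : T.py s (Fin.last n) ≠ 0 := T.halg.ne_zero (Sum.inr (Sum.inr (s, Fin.last n)))
  have hLlast : eval (LL T s) (X (Fin.last n)) = 0 := by
    rw [eval_X]
    simp [LL]
  have hec : ∀ m : Fin n, (Pi.single (Fin.last n) 1 : Fin (n + 1) → ℂ) m.castSucc = 0 := by
    intro m
    simp [(Fin.castSucc_lt_last m).ne]
  ext m
  rw [← H80R.gr_snoc_castSucc]
  have h3 := h2 s m
  have h4 : ∀ l, T.py s l * H80R.hs (LL T s) (X (Fin.last n) * B) m.castSucc l =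
      (T.py s l * (Pi.single (Fin.last n) 1 : Fin (n + 1) → ℂ) l) *
        H80R.gr (LL T s) B m.castSucc := by
    intro l
    rw [← hee, H80R.hs_lf_mul, hee, hec, hLlast]
    ring
  simp only [h4] at h3
  rw [← Finset.sum_mul, Finset.sum_eq_single (Fin.last n)] at h3
  · rw [Pi.single_eq_same, mul_one] at h3
    exact (mul_eq_zero.mp h3).resolve_left hy
  · intro l _ hl
    simp [hl]
  · simp

/-- the pairing with the values of derivations -/
noncomputable def pairG {k : ℕ} (T : H80R.Dec n k a b r) :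
    H80R.Fm (n + 1) k →ₗ[ℂ] Dual ℂ (GG T) where
  toFun A :=
    { toFun := fun v => ∑ j, H80R.drF (T.w j) (v.1 j) A.1
      map_add' := by
        intro v v'
        rw [← Finset.sum_add_distrib]
        refine Finset.sum_congr rfl fun j _ => ?_
        simp only [H80R.drF_apply, Submodule.coe_add, Pi.add_apply, add_mul,
          Finset.sum_add_distrib]
      map_smul' := by
        intro t v
        simp only [RingHom.id_apply, smul_eq_mul]
        rw [Finset.mul_sum]
        refine Finset.sum_congr rfl fun j _ => ?_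
        simp only [H80R.drF_apply, Submodule.coe_smul, Pi.smul_apply, smul_eq_mul,
          Finset.mul_sum, mul_assoc] }
  map_add' A B := by
    ext v
    simp [Finset.sum_add_distrib]
  map_smul' t A := by
    ext v
    simp [Finset.mul_sum]

/-- the pairing of multiples of the last variable with the values of derivations -/
noncomputable def pairJ {e : ℕ} (T : H80R.Dec n (e + 1) a b r) :
    H80R.Fm n e →ₗ[ℂ] Dual ℂ (GJ T) where
  toFun A :=
    { toFun := fun v => ∑ j : JJ T, H80R.drF (T.w j.1) (v.1 j)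
        (X (Fin.last n) * rename Fin.castSucc A.1)
      map_add' := by
        intro v v'
        rw [← Finset.sum_add_distrib]
        refine Finset.sum_congr rfl fun j _ => ?_
        simp only [H80R.drF_apply, Submodule.coe_add, Pi.add_apply, add_mul,
          Finset.sum_add_distrib]
      map_smul' := by
        intro t v
        simp only [RingHom.id_apply, smul_eq_mul]
        rw [Finset.mul_sum]
        refine Finset.sum_congr rfl fun j _ => ?_
        simp only [H80R.drF_apply, Submodule.coe_smul, Pi.smul_apply, smul_eq_mul,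
          Finset.mul_sum, mul_assoc] }
  map_add' A B := by
    ext v
    simp [Finset.sum_add_distrib, mul_add]
  map_smul' t A := by
    ext v
    simp [Finset.mul_sum]

end LowK

open LowK

theorem GG_lower (T : H80R.Dec n (K + 2) a b r) (hn : 1 ≤ n) (U L : ℕ)
    (hU : H80R.nl n (K + 2) (Fin.append T.pl T.pp : Fin (a + b) → Fin n → ℂ) ≤ U)
    (hL : H80R.nl n (K + 1) T.pl ≤ L) :
    (n + 1).multichoose (K + 2) ≤ U + L + (n + 1).multichoose K + finrank ℂ (GG T) := by
  classical
  let K0 : Submodule ℂ (H80R.Fm (n + 1) (K + 2)) := LinearMap.ker (pairG T)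
  let W : Submodule ℂ (MvPolynomial (Fin (n + 1)) ℂ) := K0.map (H80R.Fm (n + 1) (K + 2)).subtype
  have hW1 : finrank ℂ W = finrank ℂ K0 :=
    LinearEquiv.finrank_eq
      (Submodule.equivMapOfInjective _ (Submodule.subtype_injective _) K0).symm
  have hWm : ∀ A ∈ W, A ∈ H80R.Fm (n + 1) (K + 2) ∧ ∀ D : Derivation ℚ ℂ ℂ,
      ∑ j, H80R.drF (T.w j) (fun l => D (T.w j l)) A = 0 := by
    rintro _ ⟨A, hA, rfl⟩
    refine ⟨A.2, fun D => ?_⟩
    have h1 := LinearMap.mem_ker.mp hA
    exact LinearMap.congr_fun h1 ⟨fun j l => D (T.w j l), D, fun j l => rfl⟩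
  have h0 : finrank ℂ (H80R.Fm (n + 1) (K + 2)) ≤ finrank ℂ (GG T) + finrank ℂ K0 := by
    have h1 := LinearMap.finrank_range_add_finrank_ker (pairG T)
    have h2 : finrank ℂ (LinearMap.range (pairG T)) ≤ finrank ℂ (Dual ℂ (GG T)) :=
      Submodule.finrank_le _
    rw [Subspace.dual_finrank_eq] at h2
    change _ ≤ finrank ℂ (GG T) + finrank ℂ (LinearMap.ker (pairG T))
    omega
  rw [H80R.finrank_Fm] at h0
  let W1 : Submodule ℂ (MvPolynomial (Fin (n + 1)) ℂ) :=
    H80R.Fm (n + 1) (K + 1) ⊓ W.comap (LinearMap.mulLeft ℂ (X (Fin.last n)))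
  have h1 := H80R.layer (Fin.append T.pl T.pp : Fin (a + b) → Fin n → ℂ) W W1
    (fun A hA => (hWm A hA).1)
    (by
      intro A hA s
      obtain ⟨hA1, hA2⟩ := hWm A hA
      obtain ⟨h2, -, h3⟩ := kill T hA1 hA2
      refine Fin.addCases (fun s => ?_) (fun s => ?_) s
      · rw [Fin.append_left]
        ext m
        rw [← H80R.gr_snoc_castSucc]
        exact congrFun (h2 s) _
      · rw [Fin.append_right]
        ext m
        rw [← H80R.gr_snoc_castSucc]
        exact h3 s m)
    (fun B hB hXB => ⟨hB, hXB⟩) (fun B hB => hB.1)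
  have h2 := H80R.layer T.pl W1 (H80R.Fm (n + 1) K) (fun A hA => hA.1)
    (fun A hA s => killX T hA.1 (hWm _ hA.2).2 s)
    (fun B hB _ => hB) le_rfl
  rw [H80R.finrank_Fm] at h2
  change _ ≤ H80R.nl n (K + 2) _ + _ at h1
  omega

theorem GJ_lower (T : H80R.Dec n (K + 2) a b r) (hn : 1 ≤ n) (L : ℕ)
    (hL : H80R.nl n (K + 1) T.pl ≤ L) :
    n.multichoose (K + 1) ≤ L + finrank ℂ (GJ T) := by
  classical
  have h0 : finrank ℂ (H80R.Fm n (K + 1)) ≤
      finrank ℂ (GJ T) + finrank ℂ (LinearMap.ker (pairJ T)) := by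
    have h1 := LinearMap.finrank_range_add_finrank_ker (pairJ T)
    have h2 : finrank ℂ (LinearMap.range (pairJ T)) ≤ finrank ℂ (Dual ℂ (GJ T)) :=
      Submodule.finrank_le _
    rw [Subspace.dual_finrank_eq] at h2
    omega
  rw [H80R.finrank_Fm] at h0
  have h1 : finrank ℂ (LinearMap.ker (pairJ T)) ≤ H80R.nl n (K + 1) T.pl := by
    apply Submodule.finrank_mono
    intro A hA
    rw [LinearMap.mem_ker]
    funext s
    change H80R.gr (T.pl s) A.1 = 0
    rw [← H80R.res_rename A.1]
    refine killX T (MvPolynomial.IsHomogeneous.rename_isHomogeneous (f := Fin.castSucc) A.2) (fun D => ?_) s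
    have h2 := LinearMap.congr_fun (LinearMap.mem_ker.mp hA)
      ⟨fun j l => D (T.w j.1 l), D, fun j l => rfl⟩
    change ∑ j : JJ T, H80R.drF (T.w j.1) (fun l => D (T.w j.1 l))
      (X (Fin.last n) * rename Fin.castSucc A.1) = 0 at h2
    rw [← h2]
    symm
    have h3 : ∑ j ∈ Finset.univ.filter (fun j => T.w j (Fin.last n) ≠ 0),
        H80R.drF (T.w j) (fun l => D (T.w j l)) (X (Fin.last n) * rename Fin.castSucc A.1) =
        ∑ j : JJ T, H80R.drF (T.w j.1) (fun l => D (T.w j.1 l))
          (X (Fin.last n) * rename Fin.castSucc A.1) :=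
      Finset.sum_subtype _ (by simp) _
    rw [← h3]
    apply Finset.sum_subset (Finset.subset_univ _)
    intro j _ hj
    have hj' : T.w j (Fin.last n) = 0 := by
      by_contra h
      exact hj (by simp [h])
    rw [H80R.drF_apply]
    apply Finset.sum_eq_zero
    intro l _
    rw [← H80R.lf_last, H80R.gr_lf_mul, H80R.lf_last, eval_X, hj', zero_mul, add_zero]
    refine Fin.lastCases ?_ (fun l => ?_) l
    · rw [hj', map_zero, zero_mul]
    · simp
  omega

end H80T
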