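import Mathlib
import Pool.Agent.H80T.LowK
import Pool.Agent.H80T.UpK
import Pool.Agent.H80T.Index
import Pool.Agent.H80T.CaseA
import Pool.Agent.H80T.FreeK
import Pool.Agent.H80T.Fib

/-! ASMK: assembly, `k ≥ 4`. -/

namespace H80T

open Module MvPolynomial

section evaluations

variable {ι : Type} {N d : ℕ}

/-- evaluations on `S` are independent -/
def SurjOn (d : ℕ) (z : ι → Fin N → ℂ) (S : Finset ι) : Prop :=
  ∀ t : ι → ℂ, ∃ C ∈ H80R.Fm N d, ∀ i ∈ S, eval (z i) C = t i

theorem SurjOn.insert [DecidableEq ι] {z : ι → Fin N → ℂ} {S : Finset ι} (h : SurjOn d z S) {j : ι}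
    (hj : ¬ ∀ C ∈ H80R.Fm N d, (∀ i ∈ S, eval (z i) C = 0) → eval (z j) C = 0) :
    SurjOn d z (insert j S) := by
  push Not at hj
  obtain ⟨C₀, hC₀, h0, hne⟩ := hj
  intro t
  obtain ⟨C, hC, hCt⟩ := h t
  refine ⟨C + ((t j - eval (z j) C) / eval (z j) C₀) • C₀,
    Submodule.add_mem _ hC (Submodule.smul_mem _ _ hC₀), fun i hi => ?_⟩
  rw [map_add, smul_eval]
  rcases Finset.mem_insert.mp hi with rfl | hi
  · field_simp
    ring
  · rw [h0 i hi, mul_zero, add_zero, hCt i hi]

theorem finrank_range_ev [Fintype ι] {z : ι → Fin N → ℂ} {S : Finset ι} (h : SurjOn d z S)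
    (hS : ∀ j, ∀ C ∈ H80R.Fm N d, (∀ i ∈ S, eval (z i) C = 0) → eval (z j) C = 0) :
    finrank ℂ (LinearMap.range (evM d z)) = S.card := by
  classical
  let g : (ι → ℂ) →ₗ[ℂ] (S → ℂ) := LinearMap.funLeft ℂ ℂ (fun i : S => i.1)
  let f : LinearMap.range (evM d z) →ₗ[ℂ] (S → ℂ) := g ∘ₗ (LinearMap.range (evM d z)).subtype
  have hf : Function.Bijective f := by
    constructor
    · rw [← LinearMap.ker_eq_bot, Submodule.eq_bot_iff]
      rintro ⟨x, ⟨C, rfl⟩⟩ hx
      have h1 : ∀ i : S, eval (z i.1) C.1 = 0 := fun i => congrFun (LinearMap.mem_ker.mp hx) i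
      apply Subtype.ext
      ext j
      exact hS j C.1 C.2 (fun i hi => h1 ⟨i, hi⟩)
    · intro t
      obtain ⟨C, hC, hCt⟩ := h (fun i => if hi : i ∈ S then t ⟨i, hi⟩ else 0)
      refine ⟨⟨evM d z ⟨C, hC⟩, ⟨_, rfl⟩⟩, ?_⟩
      ext i
      change eval (z i.1) C = t i
      rw [hCt i.1 i.2, dif_pos i.2]
  rw [(LinearEquiv.ofBijective f hf).finrank_eq, finrank_fintype_fun_eq_card, Fintype.card_coe]

end evaluations

variable {n K a b r : ℕ}

theorem uu_pos {k : ℕ} (T : H80R.Dec n k a b r) (hn : 1 ≤ n) (hk : 1 ≤ k) (ha : 1 ≤ a) :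
    1 ≤ uu T := by
  by_contra hcon
  have h0 : Nat.card (JJ T) = 0 := by
    have : uu T = 0 := by omega
    exact this
  rw [Nat.card_eq_zero] at h0
  have h1 : IsEmpty (JJ T) := h0.resolve_right (fun h => by
    exact h.not_finite inferInstance)
  have h2 := (T.sing hn (e := 0) (by omega) (B := 1) (isHomogeneous_one _ _)
    (fun j hj => (h1.false ⟨j, hj⟩).elim) ⟨0, by omega⟩).1
  rw [map_one, map_one] at h2
  exact one_ne_zero h2

theorem rankK (T : H80R.Dec n (K + 2) a b r) (hn : 2 ≤ n) (ha : 1 ≤ a)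
    (U L X ε : ℕ)
    (hU : H80R.nl n (K + 2) (Fin.append T.pl T.pp : Fin (a + b) → Fin n → ℂ) ≤ U)
    (hL : H80R.nl n (K + 1) T.pl ≤ L)
    (hW : U < H80R.nl (n + 1) (K + 2) T.w)
    (hε : r * n + U + L ≤ n.multichoose (K + 2) + n.multichoose (K + 1) + ε)
    (hX : H80R.Sg (n + 1) (K + 1) X 0) (hXε : X + ε ≤ n.multichoose K) :
    ∃ y, y < X ∧ y + 1 ≤ uu T ∧ uu T ≤ y + ε ∧
      n.multichoose (K + 1) ≤ L + uu T * (n - 1) + y ∧
      ∀ w, H80R.Sg (n + 1) K y w → (n + 1).multichoose K ≤ w + uu T + ε := by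
  classical
  have hz := zt_last T
  have hu0 := uu_pos T (by omega) (by omega) ha
  have hur : uu T ≤ r := by
    unfold uu
    rw [Nat.card_eq_fintype_card]
    exact (Fintype.card_subtype_le _).trans (by simp)
  have hcard : Fintype.card (JJ T) = uu T := by
    unfold uu
    rw [Nat.card_eq_fintype_card]
  have g1 := GG_lower T (by omega) U L hU hL
  have g2 := GG_upper T
  have g3 := GJ_upper T
  have g4 := GJ_lower T (by omega) L hL
  have g5 := rho_lt T hu0
  obtain ⟨B, hB, hB0, hBz⟩ := exists_B T (by omega) U hU hW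
  obtain ⟨S₁, hS₁, hS₁m⟩ := exists_max_free (by omega : 1 ≤ n) (EV (zt T))
  -- the kill number
  have hfree : ∀ (y : ℕ) (e : Fin y → JJ T), Function.Injective e → (∀ i, e i ∈ S₁) →
      ∀ x : Fin y → Fin n → ℂ, ∃ v ∈ EV (zt T), ∀ i, v (e i) = x i := by
    intro y e he heS x
    obtain ⟨v, hv, hvx⟩ := hS₁ (fun j => if h : ∃ i, e i = j then x h.choose else 0)
    refine ⟨v, hv, fun i => ?_⟩
    rw [hvx _ (heS i)]
    have h1 : ∃ i', e i' = e i := ⟨i, rfl⟩
    rw [dif_pos h1, he h1.choose_spec]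
  have hyX : S₁.card < X := by
    by_contra hcon
    push Not at hcon
    obtain ⟨S, hS, hSc⟩ := Finset.exists_subset_card_eq hcon
    let e : Fin X → JJ T := fun i => (S.equivFinOfCardEq hSc).symm i
    have he : Function.Injective e :=
      Subtype.val_injective.comp (S.equivFinOfCardEq hSc).symm.injective
    have h1 := nl_of_free (zt T) hz e he
      (hfree X e he (fun i => hS ((S.equivFinOfCardEq hSc).symm i).2)) hX
    have h2 : H80R.nl (n + 1) (K + 1) (fun i => zt T (e i)) = 0 := by omega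
    have h3 : (⟨B, hB⟩ : H80R.Fm (n + 1) (K + 1)) ∈
        LinearMap.ker (H80R.grL (n + 1) (K + 1) (fun i => zt T (e i))) := by
      rw [LinearMap.mem_ker]
      funext i
      exact hBz (e i)
    have h4 : LinearMap.ker (H80R.grL (n + 1) (K + 1) (fun i => zt T (e i))) = ⊥ :=
      Submodule.finrank_eq_zero.mp h2
    rw [h4, Submodule.mem_bot] at h3
    exact hB0 (congrArg Subtype.val h3)
  -- evaluations at the free points are independent
  have hmono : n.multichoose K ≤ (n + 1).multichoose K := by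
    rcases K with _ | K
    · simp
    · rw [Nat.multichoose_succ_succ]
      omega
  have hsurj : ∀ S ⊆ S₁, SurjOn K (zt T) S := by
    intro S
    induction S using Finset.induction_on with
    | empty =>
      intro _ t
      exact ⟨0, Submodule.zero_mem _, by simp⟩
    | insert j S hj ih =>
      intro hSS
      have hS' : S ⊆ S₁ := fun i hi => hSS (Finset.mem_insert_of_mem hi)
      apply (ih hS').insert
      intro hspan
      have hv : vals (EV (zt T)) S j = ⊤ := by
        rw [eq_top_iff]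
        intro x _
        obtain ⟨v, hv, hvx⟩ := hS₁ (fun i => if i = j then x else 0)
        refine ⟨v, hv, fun i hi => ?_, ?_⟩
        · rw [hvx i (hS' hi), if_neg]
          rintro rfl
          exact hj hi
        · rw [hvx j (hSS (Finset.mem_insert_self _ _)), if_pos rfl]
      have h1 := caseA (q := n) (zt T) hz S j hspan (by
        rw [hv, finrank_top, finrank_fin_fun])
      have h2 : S.card < S₁.card := by
        have h3 := Finset.card_le_card hSS
        rw [Finset.card_insert_of_notMem hj] at h3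
        omega
      omega
  -- a maximal independent set containing `S₁`
  obtain ⟨S₂, hS₂, hS₂max⟩ : ∃ S₂ : Finset (JJ T), (S₁ ⊆ S₂ ∧ SurjOn K (zt T) S₂) ∧
      ∀ S', (S₁ ⊆ S' ∧ SurjOn K (zt T) S') → S'.card ≤ S₂.card := by
    have hfin : Set.Finite {S : Finset (JJ T) | S₁ ⊆ S ∧ SurjOn K (zt T) S} := Set.toFinite _
    obtain ⟨S₂, h1, h2⟩ := Set.exists_max_image _ (fun S : Finset (JJ T) => S.card) hfin
      ⟨S₁, Finset.Subset.refl _, hsurj S₁ (Finset.Subset.refl _)⟩
    exact ⟨S₂, h1, h2⟩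
  have hspan2 : ∀ j ∉ S₂, ∀ C ∈ H80R.Fm (n + 1) K, (∀ i ∈ S₂, eval (zt T i) C = 0) →
      eval (zt T j) C = 0 := by
    intro j hj
    by_contra hcon
    have h1 := hS₂max (insert j S₂) ⟨hS₂.1.trans (Finset.subset_insert _ _), hS₂.2.insert hcon⟩
    rw [Finset.card_insert_of_notMem hj] at h1
    omega
  have hρ : rho T K = S₂.card := by
    apply finrank_range_ev hS₂.2
    intro j C hC h
    by_cases hj : j ∈ S₂
    · exact h j hj
    · exact hspan2 j hj C hC h
  have hy1 : S₁.card ≤ S₂.card := Finset.card_le_card hS₂.1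
  have hy2 : S₂.card ≤ uu T := by
    rw [← hcard]
    exact Finset.card_le_univ _
  -- first bound
  have b1 := index_bound (EV (zt T)) S₁ Finset.univ (Finset.subset_univ _)
    (fun j _ hj => hS₁m j hj) (fun j hj => absurd (Finset.mem_univ j) hj)
  rw [Finset.card_univ, hcard, Nat.sub_self, zero_mul, add_zero] at b1
  have hM : (n + 1).multichoose (K + 2) = n.multichoose (K + 2) + n.multichoose (K + 1) +
      (n + 1).multichoose K := by
    rw [Nat.multichoose_succ_succ n (K + 1), Nat.multichoose_succ_succ n K]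
    ring
  set y := S₁.card with hy
  set ρ := rho T K with hρdef
  set u := uu T with hu
  set e := finrank ℂ (EV (zt T)) with he
  have hρ' : S₂.card = ρ := hρ.symm
  rw [hρ'] at hy1 hy2
  obtain ⟨m, rfl⟩ : ∃ m, n = m + 2 := ⟨n - 2, by omega⟩
  obtain ⟨f, hf⟩ : ∃ f, r = u + f := ⟨r - u, by omega⟩
  have i1 : u * (m + 2) + ρ ≤ ε + u + e := by
    have h1 : (r - u) * (m + 2) = f * (m + 2) := by
      rw [hf, Nat.add_sub_cancel_left]
    have h2 : r * (m + 2) = u * (m + 2) + f * (m + 2) := by rw [hf, add_mul]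
    omega
  have e1 : m + 2 - 1 = m + 1 := by omega
  have e2 : m + 2 - 2 = m := by omega
  rw [e1] at b1
  have hρy : ρ ≤ y + ε := by
    obtain ⟨g, hg⟩ : ∃ g, u = y + g := ⟨u - y, by omega⟩
    have h1 : u - y = g := by omega
    rw [h1] at b1
    have h2 : u * (m + 2) = y * (m + 2) + g * (m + 1) + g := by rw [hg]; ring
    omega
  -- case A is impossible
  have hcaseA : ∀ j ∉ S₂, finrank ℂ (vals (EV (zt T)) S₂ j) ≤ m + 2 - 2 := by
    intro j hj
    by_contra hcon
    have h1 : (m + 2).multichoose K ≤ S₂.card :=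
      caseA (q := m + 1) (zt T) hz S₂ j (hspan2 j hj) (by omega)
    omega
  have b2 := index_bound (EV (zt T)) S₁ S₂ hS₂.1 (fun j _ hj => hS₁m j hj) hcaseA
  rw [hcard, hρ', e1, e2] at b2
  obtain ⟨g, hg⟩ : ∃ g, ρ = y + g := ⟨ρ - y, by omega⟩
  obtain ⟨h, hh⟩ : ∃ h, u = ρ + h := ⟨u - ρ, by omega⟩
  have e3 : ρ - y = g := by omega
  have e4 : u - ρ = h := by omega
  have b2' : e ≤ y * (m + 2) + g * (m + 1) + h * m := by
    have h1 := b2
    rw [← hy, e3, e4] at h1
    exact h1
  have e5 : u * (m + 2) = y * (m + 2) + g * (m + 1) + h * m + g + 2 * h := by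
    rw [hh, hg]; ring
  have huy : u ≤ y + ε := by omega
  refine ⟨y, hyX, by omega, huy, ?_, ?_⟩
  · rw [e1]
    have e6 : u * (m + 1) = y * (m + 2) + g * (m + 1) + h * m + h - y := by
      have : u * (m + 1) + y = y * (m + 2) + g * (m + 1) + h * m + h := by
        rw [hh, hg]; ring
      omega
    have h7 : y ≤ y * (m + 2) := Nat.le_mul_of_pos_right _ (by omega)
    omega
  · intro w hw
    let e' : Fin y → JJ T := fun i => (S₁.equivFin).symm i
    have he' : Function.Injective e' := Subtype.val_injective.comp S₁.equivFin.symm.injective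
    have h1 := fib T e' he'
    have h2 := nl_of_free (zt T) hz e' he'
      (hfree y e' he' (fun i => (S₁.equivFin.symm i).2)) hw
    rw [← hu, ← hρdef, ← he] at h1
    omega

end H80T
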