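import Mathlib
import Pool.Agent.H80T.Defs2
import Pool.Agent.H80T.Defs3
import Pool.Agent.H80T.SymD

/-! BRIDGE: from cubic tensors to polynomials. -/

namespace H80T

open MvPolynomial Module H80R

/-- the tensor of third derivatives -/
noncomputable def bten {N : ℕ} (F : MvPolynomial (Fin N) ℂ) : Fin N → Fin N → Fin N → ℂ :=
  fun a b c => eval 0 (pderiv a (pderiv b (pderiv c F)))

theorem bridge_comm {N : ℕ} (a b : Fin N) (F : MvPolynomial (Fin N) ℂ) :
    pderiv a (pderiv b F) = pderiv b (pderiv a F) :=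
  H80R.pderiv_comm' a b F

theorem bridge_sym {N : ℕ} (F : MvPolynomial (Fin N) ℂ) : Sym3 (bten F) := by
  refine ⟨fun a b c => ?_, fun a b c => ?_⟩
  · unfold bten
    rw [bridge_comm a b]
  · unfold bten
    rw [bridge_comm b c]

theorem bridge_const {N : ℕ} {G : MvPolynomial (Fin N) ℂ} (hG : G ∈ Fm N 0) (v : Fin N → ℂ) :
    eval v G = eval 0 G := by
  have h1 : G.totalDegree = 0 := by
    have := (show G.IsHomogeneous 0 from hG).totalDegree_le
    omega
  rw [totalDegree_eq_zero_iff_eq_C] at h1
  rw [h1, eval_C, eval_C]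

theorem bridge_tri {N : ℕ} {F : MvPolynomial (Fin N) ℂ} (hF : F ∈ Fm N 3) (v u : Fin N → ℂ) :
    tri (bten F) v v u = ∑ c, u c * (2 * gr v F c) := by
  have h1 : ∀ b c, ∑ a, bten F a b c * v a = gr v (pderiv c F) b := by
    intro b c
    have h2 : pderiv b (pderiv c F) ∈ Fm N 1 := pderiv_mem (pderiv_mem hF c) b
    have h3 := euler h2 v
    have h4 : gr v (pderiv c F) b = eval v (pderiv b (pderiv c F)) := rfl
    rw [h4]
    rw [Nat.cast_one, one_mul] at h3
    rw [← h3]
    refine Finset.sum_congr rfl fun a _ => ?_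
    have h5 : gr v (pderiv b (pderiv c F)) a = bten F a b c := by
      unfold bten
      exact bridge_const (pderiv_mem h2 a) v
    rw [h5]
    ring
  have h2 : ∀ c, ∑ b, v b * gr v (pderiv c F) b = 2 * gr v F c := by
    intro c
    have h3 := euler (pderiv_mem hF c) v
    rw [h3]
    rfl
  calc tri (bten F) v v u = ∑ a, ∑ b, ∑ c, bten F a b c * (v a * v b * u c) := rfl
    _ = ∑ b, ∑ c, ∑ a, bten F a b c * (v a * v b * u c) := by
        rw [Finset.sum_comm]
        refine Finset.sum_congr rfl fun b _ => ?_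
        rw [Finset.sum_comm]
    _ = ∑ b, ∑ c, (v b * u c) * gr v (pderiv c F) b := by
        refine Finset.sum_congr rfl fun b _ => Finset.sum_congr rfl fun c _ => ?_
        rw [← h1, Finset.mul_sum]
        refine Finset.sum_congr rfl fun a _ => ?_
        ring
    _ = ∑ c, u c * (2 * gr v F c) := by
        rw [Finset.sum_comm]
        refine Finset.sum_congr rfl fun c _ => ?_
        rw [← h2, Finset.mul_sum]
        refine Finset.sum_congr rfl fun b _ => ?_
        ring

/-- double point conditions only -/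
def dpt {N a : ℕ} (z : Fin a → Fin N → ℂ) : Submodule ℂ (Fin N → Fin N → Fin N → ℂ) where
  carrier := {A | Sym3 A ∧ ∀ s u, tri A (z s) (z s) u = 0}
  add_mem' := fun hA hB => ⟨hA.1.add hB.1, fun s u => by rw [tri_add, hA.2, hB.2, add_zero]⟩
  zero_mem' := ⟨Sym3.zero, fun _ _ => tri_zero _ _ _⟩
  smul_mem' := fun t _ hA => ⟨hA.1.smul t, fun s u => by rw [tri_smul, hA.2, mul_zero]⟩

theorem bridge_nl {N a : ℕ} (z : Fin a → Fin N → ℂ) : nl N 3 z ≤ finrank ℂ (dpt z) := by
  let f : LinearMap.ker (grL N 3 z) →ₗ[ℂ] dpt z :=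
    { toFun := fun F => ⟨bten F.1.1, bridge_sym _, fun s u => by
        have h1 : gr (z s) F.1.1 = 0 := congrFun (LinearMap.mem_ker.1 F.2) s
        rw [bridge_tri F.1.2, h1]
        simp⟩
      map_add' := by
        intro F G
        ext a b c
        simp [bten]
      map_smul' := by
        intro t F
        ext a b c
        simp [bten] }
  refine LinearMap.finrank_le_finrank_of_injective (f := f) ?_
  intro F G hFG
  have h1 : bten F.1.1 = bten G.1.1 := congrArg Subtype.val hFG
  have hm : F.1.1 - G.1.1 ∈ Fm N 3 := Submodule.sub_mem _ F.1.2 G.1.2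
  have h5 : bten (F.1.1 - G.1.1) = 0 := by
    have h6 : bten (F.1.1 - G.1.1) = bten F.1.1 - bten G.1.1 := by
      ext a b c
      simp [bten]
    rw [h6, h1, sub_self]
  have h2 : F.1.1 - G.1.1 = 0 := by
    refine MvPolynomial.funext fun v => ?_
    rw [map_zero]
    refine ev_zero_of_gr hm v ?_
    ext l
    have h3 := bridge_tri hm v (Pi.single l 1)
    rw [h5, tri_zero] at h3
    simp only [Pi.single_apply, ite_mul, one_mul, zero_mul, Finset.sum_ite_eq', Finset.mem_univ,
      if_true] at h3
    have h4 := (mul_eq_zero.1 h3.symm).resolve_left two_ne_zero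
    exact h4
  exact Subtype.ext (Subtype.ext (sub_eq_zero.1 h2))

/-- enumeration of the pairs of vertices in the same class -/
theorem bridge_pairs (bs : List ℕ) : ∃ (ι : Type) (_ : Fintype ι) (f : ι → VT bs × VT bs),
    Fintype.card ι = pairs bs ∧ ∀ v w, VE bs v w → v ≠ w → ∃ i, f i = (v, w) ∨ f i = (w, v) := by
  induction bs with
  | nil => exact ⟨Empty, inferInstance, fun i => i.elim, by simp [pairs], fun v => v.elim⟩
  | cons b bs ih =>
    obtain ⟨ι, hι, f, hf1, hf2⟩ := ih
    let P2 : Finset (Finset (Fin b)) := Finset.powersetCard 2 Finset.univ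
    have hne : ∀ s : P2, s.1.Nonempty := by
      intro s
      have h1 := (Finset.mem_powersetCard.1 s.2).2
      exact Finset.card_pos.1 (by omega)
    refine ⟨P2 ⊕ ι, inferInstance, Sum.elim (fun s => (Sum.inl (s.1.min' (hne s)),
      Sum.inl (s.1.max' (hne s)))) (fun i => (Sum.inr (f i).1, Sum.inr (f i).2)), ?_, ?_⟩
    · rw [Fintype.card_sum, hf1, Fintype.card_coe, Finset.card_powersetCard, Finset.card_univ,
        Fintype.card_fin]
      simp [pairs]
    · intro v w hvw hne'
      match v, w, hvw, hne' with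
      | .inl v, .inl w, _, hne' =>
        have hvw' : v ≠ w := fun h => hne' (by rw [h])
        have hs : ({v, w} : Finset (Fin b)) ∈ P2 :=
          Finset.mem_powersetCard.2 ⟨Finset.subset_univ _, Finset.card_pair hvw'⟩
        refine ⟨Sum.inl ⟨{v, w}, hs⟩, ?_⟩
        rcases lt_or_gt_of_ne hvw' with h | h
        · left
          have e1 : ({v, w} : Finset (Fin b)).min' (hne ⟨_, hs⟩) = v := by
            rw [Finset.min'_pair]
            exact min_eq_left h.le
          have e2 : ({v, w} : Finset (Fin b)).max' (hne ⟨_, hs⟩) = w := by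
            rw [Finset.max'_pair]
            exact max_eq_right h.le
          simp only [Sum.elim_inl]
          rw [e1, e2]
        · right
          have e1 : ({v, w} : Finset (Fin b)).min' (hne ⟨_, hs⟩) = w := by
            rw [Finset.min'_pair]
            exact min_eq_right h.le
          have e2 : ({v, w} : Finset (Fin b)).max' (hne ⟨_, hs⟩) = v := by
            rw [Finset.max'_pair]
            exact max_eq_left h.le
          simp only [Sum.elim_inl]
          rw [e1, e2]
      | .inr v, .inr w, hvw, hne' =>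
        have hvw' : v ≠ w := fun h => hne' (by rw [h])
        obtain ⟨i, hi⟩ := hf2 v w hvw hvw'
        refine ⟨Sum.inr i, ?_⟩
        simp only [Sum.elim_inr]
        rcases hi with hi | hi
        · left
          rw [hi]
        · right
          rw [hi]
      | .inl _, .inr _, hvw, _ => exact hvw.elim
      | .inr _, .inl _, hvw, _ => exact hvw.elim

theorem bridge_neg {j : ℕ} (A : Fin j → Fin j → Fin j → ℂ) (u : Fin j → ℂ) :
    tri A (-u) (-u) (-u) = -tri A u u u := by
  simp only [tri, Pi.neg_apply, ← Finset.sum_neg_distrib]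
  refine Finset.sum_congr rfl fun a _ => Finset.sum_congr rfl fun b _ =>
    Finset.sum_congr rfl fun c _ => ?_
  ring

theorem bridge_zero {j : ℕ} (A : Fin j → Fin j → Fin j → ℂ) : tri A 0 0 0 = 0 := by
  simp [tri]

/-- the value at a triple of vectors as a linear functional -/
noncomputable def bridgeL {j : ℕ} (u : Fin j → ℂ) :
    (Fin j → Fin j → Fin j → ℂ) →ₗ[ℂ] ℂ where
  toFun A := tri A u u u
  map_add' A B := tri_add A B u u u
  map_smul' t A := tri_smul t A u u u

theorem GoodL.sg {j x d : ℕ} {bs : List ℕ} (h : GoodL j x bs [] d) :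
    H80R.Sg j 3 x (d + pairs bs) := by
  obtain ⟨-, P, Y, H, h1⟩ := h
  refine Sg_of_exists ⟨fun s => P (Sum.inr s), ?_⟩
  refine (bridge_nl _).trans ?_
  obtain ⟨ι, hι, f, hf1, hf2⟩ := bridge_pairs bs
  have h2 := finrank_le_add_card (dpt (fun s : Fin x => P (Sum.inr s)))
    (Sys (VE bs) (liftR (Fin (x - List.sum [])) (VE [])) P Y H)
    (fun i : ι => bridgeL (H (f i).1 - H (f i).2)) (by
      intro A hA hA2
      refine ⟨hA.1, ?_, ?_, ?_⟩
      · rintro (s | s) u
        · exact s.elim
        · exact hA.2 s u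
      · intro v w hvw
        by_cases hne : v = w
        · rw [hne, sub_self]
          exact bridge_zero A
        · obtain ⟨i, hi | hi⟩ := hf2 v w hvw hne
          · have h3 : tri A (H (f i).1 - H (f i).2) (H (f i).1 - H (f i).2)
              (H (f i).1 - H (f i).2) = 0 := hA2 i
            rw [hi] at h3
            exact h3
          · have h3 : tri A (H (f i).1 - H (f i).2) (H (f i).1 - H (f i).2)
              (H (f i).1 - H (f i).2) = 0 := hA2 i
            rw [hi] at h3
            have h4 : H v - H w = -(H w - H v) := by rw [neg_sub]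
            rw [h4, bridge_neg]
            simp only at h3
            rw [h3, neg_zero]
      · rintro (s | s) t hst
        · exact s.elim
        · exact hst.elim)
  rw [hf1] at h2
  omega

/-- removing a double point -/
theorem Sg_remove {N d a w : ℕ} (h : H80R.Sg N d (a + 1) w) : H80R.Sg N d a (w + N) := by
  obtain ⟨v, hv⟩ := exists_algebraicIndependent (Fin (a + 1) × Fin N)
  have h1 := h (fun s l => v (s, l)) hv
  refine Sg_of_exists ⟨fun s l => v (s.castSucc, l), ?_⟩
  let L : Fin N → (Fm N d) →ₗ[ℂ] ℂ := fun l =>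
    { toFun := fun A => gr (fun l => v (Fin.last a, l)) A.1 l
      map_add' := fun A B => by
        show gr _ (A.1 + B.1) l = _
        rw [gr_add]
        rfl
      map_smul' := fun t A => by
        show gr _ (t • A.1) l = _
        rw [gr_smul]
        rfl }
  have h2 := finrank_le_add_card (LinearMap.ker (grL N d (fun s l => v (s.castSucc, l))))
    (LinearMap.ker (grL N d (fun s l => v (s, l)))) L (by
      intro A hA hA2
      rw [LinearMap.mem_ker] at hA ⊢
      ext s l
      refine Fin.lastCases ?_ (fun s => ?_) s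
      · exact hA2 l
      · exact congrFun (congrFun hA s) l)
  rw [Fintype.card_fin] at h2
  unfold nl at h1 ⊢
  omega

/-- the quadratic form of a matrix, as a polynomial -/
noncomputable def bridgeQ {N : ℕ} (B : Fin N → Fin N → ℂ) : MvPolynomial (Fin N) ℂ :=
  ∑ b, X b * lf (B b)

/-- the cubic form of a tensor, as a polynomial -/
noncomputable def bridgeC {N : ℕ} (A : Fin N → Fin N → Fin N → ℂ) : MvPolynomial (Fin N) ℂ :=
  ∑ a, X a * bridgeQ (A a)

theorem bridgeQ_mem {N : ℕ} (B : Fin N → Fin N → ℂ) : bridgeQ B ∈ Fm N 2 := by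
  refine Submodule.sum_mem _ fun b _ => ?_
  exact mul_mem_Fm (isHomogeneous_X ℂ b) (lf_mem _)

theorem bridgeC_mem {N : ℕ} (A : Fin N → Fin N → Fin N → ℂ) : bridgeC A ∈ Fm N 3 := by
  refine Submodule.sum_mem _ fun b _ => ?_
  exact mul_mem_Fm (isHomogeneous_X ℂ b) (bridgeQ_mem _)

theorem bridgeL_pd {N : ℕ} (j : Fin N) (P : Fin N → MvPolynomial (Fin N) ℂ) :
    pderiv j (∑ b, X b * P b) = P j + ∑ b, X b * pderiv j (P b) := by
  rw [map_sum]
  simp only [Derivation.leibniz, pderiv_X, smul_eq_mul]
  rw [Finset.sum_add_distrib, add_comm]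
  congr 1
  simp [Pi.single_apply]

theorem bridgeQ_pd {N : ℕ} (j : Fin N) (B : Fin N → Fin N → ℂ) (hB : ∀ b c, B b c = B c b) :
    pderiv j (bridgeQ B) = 2 * lf (B j) := by
  unfold bridgeQ
  rw [bridgeL_pd]
  have h1 : ∑ b, X b * pderiv j (lf (B b)) = lf (B j) := by
    unfold lf
    refine Finset.sum_congr rfl fun b _ => ?_
    have := pderiv_lf (B b) j
    unfold lf at this
    rw [this, hB b j, mul_comm]
  rw [h1]
  ring

theorem bridgeC_pd {N : ℕ} (k : Fin N) (A : Fin N → Fin N → Fin N → ℂ) (hA : Sym3 A) :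
    pderiv k (bridgeC A) = 3 * bridgeQ (A k) := by
  unfold bridgeC
  rw [bridgeL_pd]
  have h1 : ∑ b, X b * pderiv k (bridgeQ (A b)) = 2 * bridgeQ (A k) := by
    unfold bridgeQ
    rw [Finset.mul_sum]
    refine Finset.sum_congr rfl fun b _ => ?_
    have h2 := bridgeQ_pd k (A b) (fun c d => (hA.2 b c d))
    unfold bridgeQ at h2
    rw [h2]
    have h3 : A b k = A k b := by
      funext c
      exact hA.1 b k c
    rw [h3]
    ring
  rw [h1]
  ring

theorem bten_bridgeC {N : ℕ} (A : Fin N → Fin N → Fin N → ℂ) (hA : Sym3 A) :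
    bten (bridgeC A) = (6 : ℂ) • A := by
  funext a b c
  unfold bten
  rw [bridgeC_pd c A hA]
  have e3 : (3 : MvPolynomial (Fin N) ℂ) = C 3 := (map_ofNat C 3).symm
  have e2 : (2 : MvPolynomial (Fin N) ℂ) = C 2 := (map_ofNat C 2).symm
  rw [e3, pderiv_C_mul, bridgeQ_pd b (A c) (hA.2 c), e2, pderiv_C_mul, pderiv_C_mul, pderiv_lf]
  simp only [eval_mul, eval_C, Pi.smul_apply, smul_eq_mul]
  have h1 : A c b a = A a b c := by
    rw [hA.1 c b a, hA.2 b c a, hA.1 b a c]
  rw [h1]
  ring

theorem nl3_eq {N a : ℕ} (z : Fin a → Fin N → ℂ) : H80R.nl N 3 z = finrank ℂ (dpS z) := by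
  refine le_antisymm (bridge_nl z) ?_
  let f : dpS z →ₗ[ℂ] LinearMap.ker (grL N 3 z) :=
    { toFun := fun A => ⟨⟨bridgeC A.1, bridgeC_mem _⟩, by
        rw [LinearMap.mem_ker]
        ext s l
        have h1 := bridge_tri (bridgeC_mem A.1) (z s) (Pi.single l 1)
        rw [bten_bridgeC A.1 A.2.1, tri_smul, A.2.2 s, mul_zero] at h1
        simp only [Pi.single_apply, ite_mul, one_mul, zero_mul, Finset.sum_ite_eq',
          Finset.mem_univ, if_true] at h1
        exact (mul_eq_zero.1 h1.symm).resolve_left two_ne_zero⟩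
      map_add' := by
        intro A B
        apply Subtype.ext
        apply Subtype.ext
        show bridgeC (A.1 + B.1) = bridgeC A.1 + bridgeC B.1
        simp only [bridgeC, bridgeQ, lf, Pi.add_apply, map_add, add_mul, mul_add,
          Finset.sum_add_distrib]
      map_smul' := by
        intro t A
        apply Subtype.ext
        apply Subtype.ext
        show bridgeC (t • A.1) = t • bridgeC A.1
        simp only [bridgeC, bridgeQ, lf, Pi.smul_apply, smul_eq_mul, map_mul,
          MvPolynomial.smul_eq_C_mul, Finset.mul_sum]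
        refine Finset.sum_congr rfl fun a _ => Finset.sum_congr rfl fun b _ =>
          Finset.sum_congr rfl fun c _ => ?_
        ring }
  refine LinearMap.finrank_le_finrank_of_injective (f := f) ?_
  intro A B hAB
  have h1 : bridgeC A.1 = bridgeC B.1 := congrArg (fun F => F.1.1) hAB
  have h2 : (6 : ℂ) • A.1 = (6 : ℂ) • B.1 := by
    rw [← bten_bridgeC A.1 A.2.1, ← bten_bridgeC B.1 B.2.1, h1]
  refine Subtype.ext ?_
  have h3 := congrArg (fun T => (6 : ℂ)⁻¹ • T) h2
  simpa [smul_smul] using h3

end H80T
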