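import Mathlib
import Pool.Agent.H80T.Defs
import Pool.Agent.H80R.Spec

/-! SEMI: semicontinuity of the dimension of the solution space of a linear system whose
coefficients are polynomials with rational coefficients in the parameters. -/

namespace H80T

open MvPolynomial Module

theorem semi_finrank_eq {W W' : Type*} [AddCommGroup W] [Module ℂ W] [AddCommGroup W']
    [Module ℂ W'] (e : W ≃ₗ[ℂ] W') (S : Submodule ℂ W) (S' : Submodule ℂ W')
    (h : ∀ x, x ∈ S ↔ e x ∈ S') : finrank ℂ S = finrank ℂ S' := by
  have h1 : S.map (e : W →ₗ[ℂ] W') = S' := by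
    ext y
    constructor
    · rintro ⟨x, hx, rfl⟩
      exact (h x).1 hx
    · intro hy
      refine ⟨e.symm y, ?_, by simp⟩
      exact (h _).2 (by simpa using hy)
  rw [← h1]
  exact (LinearEquiv.finrank_map_eq e S).symm

theorem semi_sum {K : Type} [Fintype K] (q : K) [∀ x : K, Decidable (x = q)] (f : K → ℂ) :
    (∑ x, if x = q then f x else 0) = f q := by
  rw [Finset.sum_eq_single q (fun x _ hx => if_neg hx) (fun h => absurd (Finset.mem_univ _) h),
    if_pos rfl]

theorem ker_semi {τ ι κ : Type} [Fintype ι] [Fintype κ] (M : Matrix ι κ (MvPolynomial τ ℚ))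
    (c₀ c : τ → ℂ) (hc : AlgebraicIndependent ℚ c) :
    finrank ℂ (LinearMap.ker (M.map (aeval c)).mulVecLin) ≤
      finrank ℂ (LinearMap.ker (M.map (aeval c₀)).mulVecLin) := by
  classical
  set M0 : Matrix ι κ ℂ := M.map (aeval c₀) with hM0
  set M1 : Matrix ι κ ℂ := M.map (aeval c) with hM1
  obtain ⟨κ', a, ha, hsp, hli⟩ := exists_linearIndependent' ℂ (fun i : ι => M0 i)
  have hfin : Finite κ' := Finite.of_injective a ha
  have : Fintype κ' := Fintype.ofFinite κ'
  -- the rank at the special point
  have hr0 : finrank ℂ (LinearMap.range M0.mulVecLin) = Fintype.card κ' := by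
    have h1 : M0.rank = finrank ℂ (Submodule.span ℂ (Set.range M0.row)) :=
      Matrix.rank_eq_finrank_span_row M0
    have h2 : Submodule.span ℂ (Set.range M0.row) =
        Submodule.span ℂ (Set.range ((fun i : ι => M0 i) ∘ a)) := by
      rw [hsp]
      rfl
    have h3 := finrank_span_eq_card hli
    rw [h2, h3] at h1
    exact h1
  -- the submatrix
  set N : Matrix κ' κ (MvPolynomial τ ℚ) := M.submatrix a id with hN
  have hN0 : (N.map (aeval c₀) : Matrix κ' κ ℂ).rank = Fintype.card κ' := by
    have h1 : LinearIndependent ℂ (N.map (aeval c₀) : Matrix κ' κ ℂ).row := hli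
    exact h1.rank_matrix
  have hsurj0 : ∀ b : κ' → ℂ, ∃ x : κ → ℂ, (N.map (aeval c₀)).mulVec x = b := by
    have h1 : LinearMap.range (N.map (aeval c₀) : Matrix κ' κ ℂ).mulVecLin = ⊤ := by
      apply Submodule.eq_top_of_finrank_eq
      have h2 : finrank ℂ (LinearMap.range (N.map (aeval c₀) : Matrix κ' κ ℂ).mulVecLin) =
          Fintype.card κ' := hN0
      rw [h2, Module.finrank_fintype_fun_eq_card]
    intro b
    have h2 : b ∈ LinearMap.range (N.map (aeval c₀) : Matrix κ' κ ℂ).mulVecLin := by
      rw [h1]; trivial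
    obtain ⟨x, hx⟩ := h2
    exact ⟨x, hx⟩
  have hsurj := H80R.spec N c₀ hsurj0 c hc
  have hr1 : finrank ℂ (LinearMap.range (N.map (aeval c) : Matrix κ' κ ℂ).mulVecLin) =
      Fintype.card κ' := by
    have h1 : LinearMap.range (N.map (aeval c) : Matrix κ' κ ℂ).mulVecLin = ⊤ := by
      rw [LinearMap.range_eq_top]
      intro b
      obtain ⟨x, hx⟩ := hsurj b
      exact ⟨x, hx⟩
    rw [h1, finrank_top, Module.finrank_fintype_fun_eq_card]
  -- rank and nullity
  have k0 := M0.mulVecLin.finrank_range_add_finrank_ker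
  have k1 := (N.map (aeval c) : Matrix κ' κ ℂ).mulVecLin.finrank_range_add_finrank_ker
  have hker : LinearMap.ker M1.mulVecLin ≤
      LinearMap.ker (N.map (aeval c) : Matrix κ' κ ℂ).mulVecLin := by
    intro x hx
    rw [LinearMap.mem_ker] at hx ⊢
    funext i
    exact congrFun hx (a i)
  have hle := Submodule.finrank_mono hker
  omega

theorem TSys_semi {j : ℕ} {ι τ : Type} [Fintype ι] (U V W : ι → Fin j → MvPolynomial τ ℚ)
    (c₀ c : τ → ℂ) (hc : AlgebraicIndependent ℚ c) :
    finrank ℂ (TSys (fun i l => aeval c (U i l)) (fun i l => aeval c (V i l))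
      (fun i l => aeval c (W i l))) ≤
    finrank ℂ (TSys (fun i l => aeval c₀ (U i l)) (fun i l => aeval c₀ (V i l))
      (fun i l => aeval c₀ (W i l))) := by
  classical
  let K : Type := Fin j × Fin j × Fin j
  let M : Matrix (ι ⊕ (K ⊕ K)) K (MvPolynomial τ ℚ) := fun r x =>
    match r with
    | .inl i => U i x.1 * V i x.2.1 * W i x.2.2
    | .inr (.inl q) => (if x = q then 1 else 0) - (if x = (q.2.1, q.1, q.2.2) then 1 else 0)
    | .inr (.inr q) => (if x = q then 1 else 0) - (if x = (q.1, q.2.2, q.2.1) then 1 else 0)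
  let e : (Fin j → Fin j → Fin j → ℂ) ≃ₗ[ℂ] (K → ℂ) :=
    { toFun := fun A x => A x.1 x.2.1 x.2.2
      invFun := fun A a b c => A (a, b, c)
      left_inv := fun _ => rfl
      right_inv := fun _ => rfl
      map_add' := fun _ _ => rfl
      map_smul' := fun _ _ => rfl }
  have key : ∀ c : τ → ℂ, finrank ℂ (TSys (fun i l => aeval c (U i l)) (fun i l => aeval c (V i l))
      (fun i l => aeval c (W i l))) = finrank ℂ (LinearMap.ker (M.map (aeval c)).mulVecLin) := by
    intro c
    refine semi_finrank_eq e _ _ fun A => ?_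
    have h1 : ∀ i, (M.map (aeval c)).mulVec (e A) (.inl i) =
        tri A (fun l => aeval c (U i l)) (fun l => aeval c (V i l)) (fun l => aeval c (W i l)) := by
      intro i
      simp only [Matrix.mulVec, dotProduct, tri]
      rw [Fintype.sum_prod_type]
      refine Finset.sum_congr rfl fun a _ => ?_
      rw [Fintype.sum_prod_type]
      refine Finset.sum_congr rfl fun b _ => ?_
      refine Finset.sum_congr rfl fun d _ => ?_
      show aeval c (U i a * V i b * W i d) * A a b d = _
      rw [map_mul, map_mul]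
      ring
    have h2 : ∀ q : K, (M.map (aeval c)).mulVec (e A) (.inr (.inl q)) =
        A q.1 q.2.1 q.2.2 - A q.2.1 q.1 q.2.2 := by
      intro q
      have h3 : ∀ x : K, (M.map (aeval c)) (.inr (.inl q)) x =
          (if x = q then (1 : ℂ) else 0) - (if x = (q.2.1, q.1, q.2.2) then 1 else 0) := by
        intro x
        show aeval c ((if x = q then 1 else 0) - (if x = (q.2.1, q.1, q.2.2) then 1 else 0) :
          MvPolynomial τ ℚ) = _
        rw [map_sub]
        split_ifs <;> simp
      simp only [Matrix.mulVec, dotProduct, h3, sub_mul, Finset.sum_sub_distrib, ite_mul, one_mul,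
        zero_mul]
      exact congrArg₂ (fun x y : ℂ => x - y) (semi_sum _ _) (semi_sum _ _)
    have h4 : ∀ q : K, (M.map (aeval c)).mulVec (e A) (.inr (.inr q)) =
        A q.1 q.2.1 q.2.2 - A q.1 q.2.2 q.2.1 := by
      intro q
      have h3 : ∀ x : K, (M.map (aeval c)) (.inr (.inr q)) x =
          (if x = q then (1 : ℂ) else 0) - (if x = (q.1, q.2.2, q.2.1) then 1 else 0) := by
        intro x
        show aeval c ((if x = q then 1 else 0) - (if x = (q.1, q.2.2, q.2.1) then 1 else 0) :
          MvPolynomial τ ℚ) = _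
        rw [map_sub]
        split_ifs <;> simp
      simp only [Matrix.mulVec, dotProduct, h3, sub_mul, Finset.sum_sub_distrib, ite_mul, one_mul,
        zero_mul]
      exact congrArg₂ (fun x y : ℂ => x - y) (semi_sum _ _) (semi_sum _ _)
    rw [LinearMap.mem_ker]
    constructor
    · rintro ⟨⟨s1, s2⟩, h5⟩
      funext r
      rcases r with i | q | q
      · exact (h1 i).trans (h5 i)
      · refine (h2 q).trans ?_
        show _ = (0 : ℂ)
        rw [s1 q.1 q.2.1 q.2.2, sub_self]
      · refine (h4 q).trans ?_
        show _ = (0 : ℂ)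
        rw [s2 q.1 q.2.1 q.2.2, sub_self]
    · intro h
      refine ⟨⟨fun a b d => ?_, fun a b d => ?_⟩, fun i => ?_⟩
      · have := (h2 (a, b, d)).symm.trans (congrFun h (.inr (.inl (a, b, d))))
        exact sub_eq_zero.1 this
      · have := (h4 (a, b, d)).symm.trans (congrFun h (.inr (.inr (a, b, d))))
        exact sub_eq_zero.1 this
      · exact (h1 i).symm.trans (congrFun h (.inl i))
  rw [key c, key c₀]
  exact ker_semi M c₀ c hc

theorem BSys_semi {W ι τ : Type} [Fintype W] [Fintype ι] (U V : ι → W → MvPolynomial τ ℚ)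
    (c₀ c : τ → ℂ) (hc : AlgebraicIndependent ℚ c) :
    finrank ℂ (BSys (fun i l => aeval c (U i l)) (fun i l => aeval c (V i l))) ≤
    finrank ℂ (BSys (fun i l => aeval c₀ (U i l)) (fun i l => aeval c₀ (V i l))) := by
  classical
  let K : Type := W × W
  let M : Matrix (ι ⊕ K) K (MvPolynomial τ ℚ) := fun r x =>
    match r with
    | .inl i => U i x.1 * V i x.2
    | .inr q => (if x = q then 1 else 0) - (if x = (q.2, q.1) then 1 else 0)
  let e : (W → W → ℂ) ≃ₗ[ℂ] (K → ℂ) :=
    { toFun := fun A x => A x.1 x.2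
      invFun := fun A a b => A (a, b)
      left_inv := fun _ => rfl
      right_inv := fun _ => rfl
      map_add' := fun _ _ => rfl
      map_smul' := fun _ _ => rfl }
  have key : ∀ c : τ → ℂ, finrank ℂ (BSys (fun i l => aeval c (U i l))
      (fun i l => aeval c (V i l))) = finrank ℂ (LinearMap.ker (M.map (aeval c)).mulVecLin) := by
    intro c
    refine semi_finrank_eq e _ _ fun A => ?_
    have h1 : ∀ i, (M.map (aeval c)).mulVec (e A) (.inl i) =
        bil A (fun l => aeval c (U i l)) (fun l => aeval c (V i l)) := by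
      intro i
      simp only [Matrix.mulVec, dotProduct, bil]
      rw [Fintype.sum_prod_type]
      refine Finset.sum_congr rfl fun a _ => ?_
      refine Finset.sum_congr rfl fun b _ => ?_
      show aeval c (U i a * V i b) * A a b = _
      rw [map_mul]
      ring
    have h2 : ∀ q : K, (M.map (aeval c)).mulVec (e A) (.inr q) = A q.1 q.2 - A q.2 q.1 := by
      intro q
      have h3 : ∀ x : K, (M.map (aeval c)) (.inr q) x =
          (if x = q then (1 : ℂ) else 0) - (if x = (q.2, q.1) then 1 else 0) := by
        intro x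
        show aeval c ((if x = q then 1 else 0) - (if x = (q.2, q.1) then 1 else 0) :
          MvPolynomial τ ℚ) = _
        rw [map_sub]
        split_ifs <;> simp
      simp only [Matrix.mulVec, dotProduct, h3, sub_mul, Finset.sum_sub_distrib, ite_mul, one_mul,
        zero_mul]
      exact congrArg₂ (fun x y : ℂ => x - y) (semi_sum _ _) (semi_sum _ _)
    rw [LinearMap.mem_ker]
    constructor
    · rintro ⟨s1, h5⟩
      funext r
      rcases r with i | q
      · exact (h1 i).trans (h5 i)
      · refine (h2 q).trans ?_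
        show _ = (0 : ℂ)
        rw [s1 q.1 q.2, sub_self]
    · intro h
      refine ⟨fun a b => ?_, fun i => ?_⟩
      · have := (h2 (a, b)).symm.trans (congrFun h (.inr (a, b)))
        exact sub_eq_zero.1 this
      · exact (h1 i).symm.trans (congrFun h (.inl i))
  rw [key c, key c₀]
  exact ker_semi M c₀ c hc

end H80T
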