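import Mathlib
import Pool.Agent.H80T.Semi

/-! GEN: `Good` and `QGood` hold for all general parameters. -/

namespace H80T

open MvPolynomial Module

theorem tri_third {j : ℕ} (A : Fin j → Fin j → Fin j → ℂ) (u v w : Fin j → ℂ) :
    tri A u v w = ∑ m, w m * tri A u v (fun l => if l = m then 1 else 0) := by
  unfold tri
  simp only [mul_ite, mul_one, mul_zero, Finset.sum_ite_eq', Finset.mem_univ, if_true,
    Finset.mul_sum]
  symm
  rw [Finset.sum_comm]
  refine Finset.sum_congr rfl fun a _ => ?_
  rw [Finset.sum_comm]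
  refine Finset.sum_congr rfl fun b _ => ?_
  refine Finset.sum_congr rfl fun m _ => ?_
  ring

theorem bil_second {W : Type} [Fintype W] [DecidableEq W] (B : W → W → ℂ) (u v : W → ℂ) :
    bil B u v = ∑ m, v m * bil B u (fun l => if l = m then 1 else 0) := by
  unfold bil
  simp only [mul_ite, mul_one, mul_zero, Finset.sum_ite_eq', Finset.mem_univ, if_true,
    Finset.mul_sum]
  rw [Finset.sum_comm]
  refine Finset.sum_congr rfl fun m _ => ?_
  refine Finset.sum_congr rfl fun a _ => ?_
  ring

section good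

variable {j : ℕ} {D V : Type} (E : V → V → Prop) (F : D → D → Prop)

/-- index type of the conditions -/
abbrev GI (j : ℕ) (E : V → V → Prop) (F : D → D → Prop) : Type :=
  (D × Fin j) ⊕ ({p : V × V // E p.1 p.2} ⊕ {p : D × D // F p.1 p.2})

/-- index type of the parameters -/
abbrev GT (j : ℕ) (D V : Type) : Type := (D × Fin j) ⊕ ((D × Fin j) ⊕ (V × Fin j))

noncomputable def gU : GI j E F → Fin j → MvPolynomial (GT j D V) ℚ
  | .inl q => fun l => X (.inl (q.1, l))
  | .inr (.inl q) => fun l => X (.inr (.inr (q.1.1, l))) - X (.inr (.inr (q.1.2, l)))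
  | .inr (.inr q) => fun l => X (.inl (q.1.1, l))

noncomputable def gV : GI j E F → Fin j → MvPolynomial (GT j D V) ℚ
  | .inl q => fun l => X (.inl (q.1, l))
  | .inr (.inl q) => fun l => X (.inr (.inr (q.1.1, l))) - X (.inr (.inr (q.1.2, l)))
  | .inr (.inr q) => fun l => X (.inl (q.1.2, l))

noncomputable def gW : GI j E F → Fin j → MvPolynomial (GT j D V) ℚ
  | .inl q => fun l => if l = q.2 then 1 else 0
  | .inr (.inl q) => fun l => X (.inr (.inr (q.1.1, l))) - X (.inr (.inr (q.1.2, l)))
  | .inr (.inr q) => fun l => X (.inr (.inl (q.1.1, l))) - X (.inr (.inl (q.1.2, l)))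

theorem tsys_eq_sys (P Y : D → Fin j → ℂ) (H : V → Fin j → ℂ) :
    TSys (fun i l => aeval (Sum.elim (fun q : D × Fin j => P q.1 q.2)
      (Sum.elim (fun q : D × Fin j => Y q.1 q.2) (fun q : V × Fin j => H q.1 q.2))) (gU E F i l))
      (fun i l => aeval (Sum.elim (fun q : D × Fin j => P q.1 q.2)
      (Sum.elim (fun q : D × Fin j => Y q.1 q.2) (fun q : V × Fin j => H q.1 q.2))) (gV E F i l))
      (fun i l => aeval (Sum.elim (fun q : D × Fin j => P q.1 q.2)
      (Sum.elim (fun q : D × Fin j => Y q.1 q.2) (fun q : V × Fin j => H q.1 q.2))) (gW E F i l)) =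
      Sys E F P Y H := by
  ext A
  constructor
  · rintro ⟨hs, hA⟩
    refine ⟨hs, ?_, ?_, ?_⟩
    · intro s u
      rw [tri_third]
      refine Finset.sum_eq_zero fun m _ => ?_
      have h := hA (.inl (s, m))
      have h2 : tri A (P s) (P s) (fun l => if l = m then 1 else 0) = 0 := by
        convert h using 2
        · funext l; simp [gU]
        · funext l; simp [gV]
        · funext l; by_cases hl : l = m <;> simp [gW, hl]
      rw [h2, mul_zero]
    · intro v w h0
      have h := hA (.inr (.inl ⟨(v, w), h0⟩))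
      convert h using 2
      · funext l; simp [gU]
      · funext l; simp [gV]
      · funext l; simp [gW]
    · intro s t h0
      have h := hA (.inr (.inr ⟨(s, t), h0⟩))
      convert h using 2
      · funext l; simp [gU]
      · funext l; simp [gV]
      · funext l; simp [gW]
  · rintro ⟨hs, h1, h2, h3⟩
    refine ⟨hs, ?_⟩
    rintro (q | q | q)
    · have h := h1 q.1 (fun l => if l = q.2 then 1 else 0)
      convert h using 2
      · funext l; simp [gU]
      · funext l; simp [gV]
      · funext l; by_cases hl : l = q.2 <;> simp [gW, hl]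
    · have h := h2 q.1.1 q.1.2 q.2
      convert h using 2
      · funext l; simp [gU]
      · funext l; simp [gV]
      · funext l; simp [gW]
    · have h := h3 q.1.1 q.1.2 q.2
      convert h using 2
      · funext l; simp [gU]
      · funext l; simp [gV]
      · funext l; simp [gW]

end good

theorem Good.generic {j d : ℕ} {D V : Type} [Fintype D] [Fintype V] {E : V → V → Prop}
    {F : D → D → Prop} (h : Good j D V E F d) (P Y : D → Fin j → ℂ) (H : V → Fin j → ℂ)
    (halg : AlgebraicIndependent ℚ (Sum.elim (fun q : D × Fin j => P q.1 q.2)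
      (Sum.elim (fun q : D × Fin j => Y q.1 q.2) (fun q : V × Fin j => H q.1 q.2)))) :
    finrank ℂ (Sys E F P Y H) ≤ d := by
  classical
  obtain ⟨P₀, Y₀, H₀, h₀⟩ := h
  rw [← tsys_eq_sys E F P₀ Y₀ H₀] at h₀
  rw [← tsys_eq_sys E F P Y H]
  exact (TSys_semi (gU E F) (gV E F) (gW E F) _ _ halg).trans h₀

section qgood

variable {j : ℕ} {D O V : Type} (Eo : V → V → Prop) (Fo : D → D → Prop) (col : V → ℕ)

/-- index type of the conditions -/
abbrev QI (j : ℕ) (O : Type) (Eo : V → V → Prop) (Fo : D → D → Prop) : Type :=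
  (O × Fin (j + 1)) ⊕ (D ⊕ ({p : V × V // Eo p.1 p.2} ⊕ {p : D × D // Fo p.1 p.2}))

/-- index type of the parameters -/
abbrev QT (j : ℕ) (O D V : Type) : Type := (O × Fin j) ⊕ ((D × Fin j) ⊕ (V × Fin j))

/-- add a last coordinate -/
noncomputable def sn {R : Type} {j : ℕ} (f : Fin j → R) (a : R) : Fin (j + 1) → R :=
  Fin.snoc (α := fun _ => R) f a

theorem aeval_sn {τ : Type} {j : ℕ} (c : τ → ℂ) (f : Fin j → MvPolynomial τ ℚ)
    (a : MvPolynomial τ ℚ) (l : Fin (j + 1)) :
    aeval c (sn f a l) = sn (fun m => aeval c (f m)) (aeval c a) l := by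
  unfold sn
  refine Fin.lastCases ?_ (fun m => ?_) l
  · simp
  · simp

noncomputable def qU : QI j O Eo Fo → Fin (j + 1) → MvPolynomial (QT j O D V) ℚ
  | .inl q => sn (fun l => X (.inl (q.1, l))) 1
  | .inr (.inl s) => sn (fun l => X (.inr (.inl (s, l)))) 0
  | .inr (.inr (.inl q)) => fun l => sn (fun l => X (.inr (.inr (q.1.1, l)))) (col q.1.1 : _) l -
      sn (fun l => X (.inr (.inr (q.1.2, l)))) (col q.1.2 : _) l
  | .inr (.inr (.inr q)) => sn (fun l => X (.inr (.inl (q.1.1, l)))) 0

noncomputable def qV : QI j O Eo Fo → Fin (j + 1) → MvPolynomial (QT j O D V) ℚ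
  | .inl q => fun l => if l = q.2 then 1 else 0
  | .inr (.inl s) => sn (fun l => X (.inr (.inl (s, l)))) 0
  | .inr (.inr (.inl q)) => fun l => sn (fun l => X (.inr (.inr (q.1.1, l)))) (col q.1.1 : _) l -
      sn (fun l => X (.inr (.inr (q.1.2, l)))) (col q.1.2 : _) l
  | .inr (.inr (.inr q)) => sn (fun l => X (.inr (.inl (q.1.2, l)))) 0

theorem bsys_eq_qs (h : O → Fin j → ℂ) (P : D → Fin j → ℂ) (H : V → Fin j → ℂ) :
    BSys (fun i l => aeval (Sum.elim (fun q : O × Fin j => h q.1 q.2)
      (Sum.elim (fun q : D × Fin j => P q.1 q.2) (fun q : V × Fin j => H q.1 q.2)))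
        (qU (j := j) (O := O) Eo Fo col i l))
      (fun i l => aeval (Sum.elim (fun q : O × Fin j => h q.1 q.2)
      (Sum.elim (fun q : D × Fin j => P q.1 q.2) (fun q : V × Fin j => H q.1 q.2)))
        (qV (j := j) (O := O) Eo Fo col i l)) =
      QS Eo Fo col h P H := by
  classical
  ext B
  constructor
  · rintro ⟨hs, hB⟩
    refine ⟨hs, ?_, ?_, ?_, ?_⟩
    · intro o u
      rw [bil_second]
      refine Finset.sum_eq_zero fun m _ => ?_
      have h1 := hB (.inl (o, m))
      have h2 : bil B (Fin.snoc (h o) 1) (fun l => if l = m then 1 else 0) = 0 := by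
        convert h1 using 2
        · funext l; simp only [qU, aeval_sn, aeval_X, map_one, Sum.elim_inl]; rfl
        · funext l; by_cases hl : l = m <;> simp [qV, hl]
      rw [h2, mul_zero]
    · intro s
      have h1 := hB (.inr (.inl s))
      convert h1 using 2
      · funext l; simp only [qU, aeval_sn, aeval_X, map_zero, Sum.elim_inl, Sum.elim_inr]; rfl
      · funext l; simp only [qV, aeval_sn, aeval_X, map_zero, Sum.elim_inl, Sum.elim_inr]; rfl
    · intro v w h0
      have h1 := hB (.inr (.inr (.inl ⟨(v, w), h0⟩)))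
      convert h1 using 2
      · funext l; simp only [qU, map_sub, aeval_sn, aeval_X, map_natCast, Sum.elim_inr]; rfl
      · funext l; simp only [qV, map_sub, aeval_sn, aeval_X, map_natCast, Sum.elim_inr]; rfl
    · intro s t h0
      have h1 := hB (.inr (.inr (.inr ⟨(s, t), h0⟩)))
      convert h1 using 2
      · funext l; simp only [qU, aeval_sn, aeval_X, map_zero, Sum.elim_inl, Sum.elim_inr]; rfl
      · funext l; simp only [qV, aeval_sn, aeval_X, map_zero, Sum.elim_inl, Sum.elim_inr]; rfl
  · rintro ⟨hs, h1, h2, h3, h4⟩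
    refine ⟨hs, ?_⟩
    rintro (q | s | q | q)
    · have h5 := h1 q.1 (fun l => if l = q.2 then 1 else 0)
      convert h5 using 2
      · funext l; simp only [qU, aeval_sn, aeval_X, map_one, Sum.elim_inl]; rfl
      · funext l; by_cases hl : l = q.2 <;> simp [qV, hl]
    · have h5 := h2 s
      convert h5 using 2
      · funext l; simp only [qU, aeval_sn, aeval_X, map_zero, Sum.elim_inl, Sum.elim_inr]; rfl
      · funext l; simp only [qV, aeval_sn, aeval_X, map_zero, Sum.elim_inl, Sum.elim_inr]; rfl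
    · have h5 := h3 q.1.1 q.1.2 q.2
      convert h5 using 2
      · funext l; simp only [qU, map_sub, aeval_sn, aeval_X, map_natCast, Sum.elim_inr]; rfl
      · funext l; simp only [qV, map_sub, aeval_sn, aeval_X, map_natCast, Sum.elim_inr]; rfl
    · have h5 := h4 q.1.1 q.1.2 q.2
      convert h5 using 2
      · funext l; simp only [qU, aeval_sn, aeval_X, map_zero, Sum.elim_inl, Sum.elim_inr]; rfl
      · funext l; simp only [qV, aeval_sn, aeval_X, map_zero, Sum.elim_inl, Sum.elim_inr]; rfl

end qgood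

theorem QGood.generic {j d : ℕ} {D O V : Type} [Fintype D] [Fintype O] [Fintype V]
    {Eo : V → V → Prop} {Fo : D → D → Prop} {col : V → ℕ} (hq : QGood j D O V Eo Fo col d)
    (h : O → Fin j → ℂ) (P : D → Fin j → ℂ) (H : V → Fin j → ℂ)
    (halg : AlgebraicIndependent ℚ (Sum.elim (fun q : O × Fin j => h q.1 q.2)
      (Sum.elim (fun q : D × Fin j => P q.1 q.2) (fun q : V × Fin j => H q.1 q.2)))) :
    finrank ℂ (QS Eo Fo col h P H) ≤ d := by
  classical
  obtain ⟨h₁, P₀, H₀, h₀⟩ := hq
  rw [← bsys_eq_qs Eo Fo col h₁ P₀ H₀] at h₀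
  rw [← bsys_eq_qs Eo Fo col h P H]
  exact (BSys_semi (qU (j := j) (O := O) Eo Fo col) (qV (j := j) (O := O) Eo Fo col) _ _ halg).trans h₀

end H80T
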