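import Mathlib
import Pool.Agent.H80T.Defs2
import Pool.Agent.H80T.Gen

/-! BRIDGE2: from `GoodL` to `TahLe`. -/

namespace H80T

open MvPolynomial Module

private theorem br2_tri_third {j : ℕ} (A : Fin j → Fin j → Fin j → ℂ) (u v w : Fin j → ℂ) :
    tri A u v w = ∑ k, w k * tri A u v (Pi.single k 1) := by
  have h1 : ∀ k, tri A u v (Pi.single k 1) = ∑ a, ∑ b, A a b k * (u a * v b) := by
    intro k
    simp only [tri]
    refine Finset.sum_congr rfl fun a _ => Finset.sum_congr rfl fun b _ => ?_
    rw [Finset.sum_eq_single k]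
    · simp
    · intro c _ hc
      simp [Pi.single_eq_of_ne hc]
    · simp
  rw [Finset.sum_congr rfl fun k _ => by rw [h1 k]]
  simp only [tri, Finset.mul_sum]
  symm
  rw [Finset.sum_comm]
  refine Finset.sum_congr rfl fun a _ => ?_
  rw [Finset.sum_comm]
  refine Finset.sum_congr rfl fun b _ => ?_
  refine Finset.sum_congr rfl fun c _ => ?_
  ring

private theorem br2_all_iff {j : ℕ} (A : Fin j → Fin j → Fin j → ℂ) (u v : Fin j → ℂ) :
    (∀ w, tri A u v w = 0) ↔ ∀ k, tri A u v (fun l => if l = k then 1 else 0) = 0 := by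
  constructor
  · intro h k
    exact h _
  · intro h w
    rw [br2_tri_third]
    refine Finset.sum_eq_zero fun k _ => ?_
    have h1 : (Pi.single k 1 : Fin j → ℂ) = fun l => if l = k then 1 else 0 := by
      funext l
      rw [Pi.single_apply]
    rw [h1, h k, mul_zero]

/-- the functional `A ↦ A(x, y, z)` -/
private def br2L {j : ℕ} (x y z : Fin j → ℂ) : (Fin j → Fin j → Fin j → ℂ) →ₗ[ℂ] ℂ where
  toFun A := tri A x y z
  map_add' A B := tri_add A B _ _ _
  map_smul' t A := tri_smul t A _ _ _

private theorem br2_finrank_le {M : Type} [AddCommGroup M] [Module ℂ M] [FiniteDimensional ℂ M]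
    (S T : Submodule ℂ M) {ι : Type} [Fintype ι] (f : ι → M →ₗ[ℂ] ℂ)
    (hT : ∀ x ∈ S, (∀ i, f i x = 0) → x ∈ T) :
    finrank ℂ S ≤ finrank ℂ T + Fintype.card ι := by
  let φ : S →ₗ[ℂ] (ι → ℂ) := (LinearMap.pi f).comp S.subtype
  have h1 := LinearMap.finrank_range_add_finrank_ker φ
  have h2 : finrank ℂ (LinearMap.range φ) ≤ Fintype.card ι :=
    (Submodule.finrank_le _).trans (by simp)
  have h3 : finrank ℂ (LinearMap.ker φ) ≤ finrank ℂ T := by
    let g : LinearMap.ker φ →ₗ[ℂ] T :=
      (S.subtype.comp (LinearMap.ker φ).subtype).codRestrict T (fun x => by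
        apply hT
        · exact x.1.2
        · intro i
          exact congrFun (LinearMap.mem_ker.1 x.2) i)
    apply LinearMap.finrank_le_finrank_of_injective (f := g)
    intro x y hxy
    apply Subtype.ext
    apply Subtype.ext
    have h4 := congrArg Subtype.val hxy
    exact h4
  omega

section semi

variable {n a b : ℕ}

/-- the parameters -/
private def par (l : Fin a → Fin n → ℂ) (p : Fin b → Fin n → ℂ) (y : Fin a → Fin (n + 1) → ℂ) :
    (Fin a × Fin n) ⊕ ((Fin b × Fin n) ⊕ (Fin a × Fin (n + 1))) → ℂ :=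
  Sum.elim (fun q : Fin a × Fin n => l q.1 q.2)
      (Sum.elim (fun q : Fin b × Fin n => p q.1 q.2)
        (fun q : Fin a × Fin (n + 1) => y q.1 q.2))

private noncomputable def UU (n a b : ℕ) : (Fin a × Fin n) ⊕ ((Fin b × Fin n) ⊕ (Fin a × Fin a)) →
    Fin n → MvPolynomial ((Fin a × Fin n) ⊕ ((Fin b × Fin n) ⊕ (Fin a × Fin (n + 1)))) ℚ
  | .inl q, m => X (.inl (q.1, m))
  | .inr (.inl q), m => X (.inr (.inl (q.1, m)))
  | .inr (.inr q), m => X (.inl (q.1, m))

private noncomputable def VV (n a b : ℕ) : (Fin a × Fin n) ⊕ ((Fin b × Fin n) ⊕ (Fin a × Fin a)) →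
    Fin n → MvPolynomial ((Fin a × Fin n) ⊕ ((Fin b × Fin n) ⊕ (Fin a × Fin (n + 1)))) ℚ
  | .inl q, m => X (.inl (q.1, m))
  | .inr (.inl q), m => X (.inr (.inl (q.1, m)))
  | .inr (.inr q), m => X (.inl (q.2, m))

private noncomputable def WW (n a b : ℕ) : (Fin a × Fin n) ⊕ ((Fin b × Fin n) ⊕ (Fin a × Fin a)) →
    Fin n → MvPolynomial ((Fin a × Fin n) ⊕ ((Fin b × Fin n) ⊕ (Fin a × Fin (n + 1)))) ℚ
  | .inl q, m => if m = q.2 then 1 else 0
  | .inr (.inl q), m => if m = q.2 then 1 else 0
  | .inr (.inr q), m => X (.inr (.inr (q.2, Fin.last n))) * X (.inr (.inr (q.1, m.castSucc))) -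
      X (.inr (.inr (q.1, Fin.last n))) * X (.inr (.inr (q.2, m.castSucc)))

private theorem tahS_eq (l : Fin a → Fin n → ℂ) (p : Fin b → Fin n → ℂ)
    (y : Fin a → Fin (n + 1) → ℂ) :
    tahS l p y = TSys (fun i m => aeval (par l p y) (UU n a b i m))
      (fun i m => aeval (par l p y) (VV n a b i m)) (fun i m => aeval (par l p y) (WW n a b i m)) := by
  have e1 : ∀ (s : Fin a) (k : Fin n), (fun m => aeval (par l p y) (UU n a b (.inl (s, k)) m)) = l s := by
    intro s k; funext m; simp [UU, par]
  have e2 : ∀ (s : Fin a) (k : Fin n), (fun m => aeval (par l p y) (VV n a b (.inl (s, k)) m)) = l s := by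
    intro s k; funext m; simp [VV, par]
  have e3 : ∀ (s : Fin a) (k : Fin n), (fun m => aeval (par l p y) (WW n a b (.inl (s, k)) m)) =
      fun m => if m = k then (1 : ℂ) else 0 := by
    intro s k; funext m; simp only [WW]; split_ifs <;> simp
  have f1 : ∀ (s : Fin b) (k : Fin n),
      (fun m => aeval (par l p y) (UU n a b (.inr (.inl (s, k))) m)) = p s := by
    intro s k; funext m; simp [UU, par]
  have f2 : ∀ (s : Fin b) (k : Fin n),
      (fun m => aeval (par l p y) (VV n a b (.inr (.inl (s, k))) m)) = p s := by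
    intro s k; funext m; simp [VV, par]
  have f3 : ∀ (s : Fin b) (k : Fin n),
      (fun m => aeval (par l p y) (WW n a b (.inr (.inl (s, k))) m)) =
      fun m => if m = k then (1 : ℂ) else 0 := by
    intro s k; funext m; simp only [WW]; split_ifs <;> simp
  have g1 : ∀ (s t : Fin a),
      (fun m => aeval (par l p y) (UU n a b (.inr (.inr (s, t))) m)) = l s := by
    intro s t; funext m; simp [UU, par]
  have g2 : ∀ (s t : Fin a),
      (fun m => aeval (par l p y) (VV n a b (.inr (.inr (s, t))) m)) = l t := by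
    intro s t; funext m; simp [VV, par]
  have g3 : ∀ (s t : Fin a),
      (fun m => aeval (par l p y) (WW n a b (.inr (.inr (s, t))) m)) =
      fun m => y t (Fin.last n) * y s m.castSucc - y s (Fin.last n) * y t m.castSucc := by
    intro s t; funext m; simp [WW, par]
  ext A
  constructor
  · rintro ⟨h0, h1, h2, h3⟩
    refine ⟨h0, ?_⟩
    rintro (⟨s, k⟩ | ⟨s, k⟩ | ⟨s, t⟩)
    · change tri A (fun m => aeval (par l p y) (UU n a b (.inl (s, k)) m))
        (fun m => aeval (par l p y) (VV n a b (.inl (s, k)) m))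
        (fun m => aeval (par l p y) (WW n a b (.inl (s, k)) m)) = 0
      rw [e1, e2, e3]
      exact h1 s _
    · change tri A (fun m => aeval (par l p y) (UU n a b (.inr (.inl (s, k))) m))
        (fun m => aeval (par l p y) (VV n a b (.inr (.inl (s, k))) m))
        (fun m => aeval (par l p y) (WW n a b (.inr (.inl (s, k))) m)) = 0
      rw [f1, f2, f3]
      exact h2 s _
    · change tri A (fun m => aeval (par l p y) (UU n a b (.inr (.inr (s, t))) m))
        (fun m => aeval (par l p y) (VV n a b (.inr (.inr (s, t))) m))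
        (fun m => aeval (par l p y) (WW n a b (.inr (.inr (s, t))) m)) = 0
      rw [g1, g2, g3]
      exact h3 s t
  · rintro ⟨h0, h⟩
    refine ⟨h0, fun s => ?_, fun s => ?_, fun s t => ?_⟩
    · rw [br2_all_iff]
      intro k
      have h1 : tri A (fun m => aeval (par l p y) (UU n a b (.inl (s, k)) m))
        (fun m => aeval (par l p y) (VV n a b (.inl (s, k)) m))
        (fun m => aeval (par l p y) (WW n a b (.inl (s, k)) m)) = 0 := h (.inl (s, k))
      rwa [e1, e2, e3] at h1
    · rw [br2_all_iff]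
      intro k
      have h1 : tri A (fun m => aeval (par l p y) (UU n a b (.inr (.inl (s, k))) m))
        (fun m => aeval (par l p y) (VV n a b (.inr (.inl (s, k))) m))
        (fun m => aeval (par l p y) (WW n a b (.inr (.inl (s, k))) m)) = 0 := h (.inr (.inl (s, k)))
      rwa [f1, f2, f3] at h1
    · have h1 : tri A (fun m => aeval (par l p y) (UU n a b (.inr (.inr (s, t))) m))
        (fun m => aeval (par l p y) (VV n a b (.inr (.inr (s, t))) m))
        (fun m => aeval (par l p y) (WW n a b (.inr (.inr (s, t))) m)) = 0 := h (.inr (.inr (s, t)))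
      rwa [g1, g2, g3] at h1

private theorem tahS_semi (l l₀ : Fin a → Fin n → ℂ) (p p₀ : Fin b → Fin n → ℂ)
    (y y₀ : Fin a → Fin (n + 1) → ℂ) (hc : AlgebraicIndependent ℚ (par l p y)) :
    finrank ℂ (tahS l p y) ≤ finrank ℂ (tahS l₀ p₀ y₀) := by
  rw [tahS_eq, tahS_eq]
  exact TSys_semi (UU n a b) (VV n a b) (WW n a b) (par l₀ p₀ y₀) (par l p y) hc

end semi

/-- unordered pairs of distinct vertices of the same class -/
private def PT : List ℕ → Type
  | [] => Empty
  | b :: bs => {z : Sym2 (Fin b) // ¬ z.IsDiag} ⊕ PT bs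

private noncomputable instance instFintypePT : (bs : List ℕ) → Fintype (PT bs)
  | [] => inferInstanceAs (Fintype Empty)
  | b :: bs => by
    have : Fintype (PT bs) := instFintypePT bs
    exact inferInstanceAs (Fintype ({z : Sym2 (Fin b) // ¬ z.IsDiag} ⊕ PT bs))

private theorem card_PT (bs : List ℕ) : Fintype.card (PT bs) = pairs bs := by
  induction bs with
  | nil => rfl
  | cons b bs ih =>
    have h1 : pairs (b :: bs) = b.choose 2 + pairs bs := by simp [pairs]
    have h2 : Fintype.card (PT (b :: bs)) =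
        Fintype.card {z : Sym2 (Fin b) // ¬ z.IsDiag} + Fintype.card (PT bs) :=
      Fintype.card_sum
    rw [h1, h2, ih, Sym2.card_subtype_not_diag, Fintype.card_fin]

private noncomputable def ends : (bs : List ℕ) → PT bs → VT bs × VT bs
  | [], e => Empty.elim e
  | _ :: _, .inl z => (.inl (Quot.out z.1).1, .inl (Quot.out z.1).2)
  | _ :: bs, .inr z => (.inr (ends bs z).1, .inr (ends bs z).2)

private theorem ends_spec : ∀ (bs : List ℕ) (v w : VT bs), VE bs v w →
    v = w ∨ ∃ z, ends bs z = (v, w) ∨ ends bs z = (w, v)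
  | [], v, _, _ => Empty.elim v
  | b :: bs, .inl i, .inl k, _ => by
    by_cases hik : i = k
    · left; rw [hik]
    · right
      refine ⟨.inl ⟨s(i, k), by simpa using hik⟩, ?_⟩
      have h1 : s((Quot.out s(i, k)).1, (Quot.out s(i, k)).2) = s(i, k) := Quot.out_eq _
      rw [Sym2.eq_iff] at h1
      simp only [ends]
      rcases h1 with ⟨h1, h2⟩ | ⟨h1, h2⟩
      · left; rw [h1, h2]
      · right; rw [h1, h2]
  | b :: bs, .inl i, .inr k, h => h.elim
  | b :: bs, .inr i, .inl k, h => h.elim
  | b :: bs, .inr i, .inr k, h => by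
    rcases ends_spec bs i k h with h1 | ⟨z, hz⟩
    · left; rw [h1]
    · right
      refine ⟨.inr z, ?_⟩
      simp only [ends]
      rcases hz with hz | hz
      · left; rw [hz]
      · right; rw [hz]

theorem GoodL.tah {n a b d : ℕ} {bs : List ℕ} (h : GoodL n (a + b) bs [a] d) :
    TahLe n a b (d + pairs bs) := by
  obtain ⟨-, P, Y, H, hd⟩ := h
  intro l p y halg
  have hab : b = a + b - [a].sum := by simp
  let l₀ : Fin a → Fin n → ℂ := fun s => P (.inl (.inl s))
  let p₀ : Fin b → Fin n → ℂ := fun s => P (.inr (Fin.cast hab s))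
  let y₀ : Fin a → Fin (n + 1) → ℂ := fun s => Fin.snoc (Y (.inl (.inl s))) 1
  refine (tahS_semi l l₀ p p₀ y y₀ halg).trans ?_
  have h1 := br2_finrank_le (tahS l₀ p₀ y₀) (Sys (VE bs) (liftR (Fin (a + b - [a].sum)) (VE [a])) P Y H)
    (ι := PT bs) (fun z => br2L (H (ends bs z).1 - H (ends bs z).2) (H (ends bs z).1 - H (ends bs z).2)
      (H (ends bs z).1 - H (ends bs z).2)) (by
      rintro A ⟨h0, hl, hp, hy⟩ hz
      refine ⟨h0, ?_, ?_, ?_⟩
      · rintro ((s | s) | s) u
        · exact hl s u
        · exact Empty.elim s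
        · have h2 := hp (Fin.cast hab.symm s) u
          simpa [p₀] using h2
      · intro v w hvw
        rcases ends_spec bs v w hvw with h2 | ⟨z, h2 | h2⟩
        · rw [h2, sub_self]
          simp [tri]
        · have h3 : tri A (H (ends bs z).1 - H (ends bs z).2) (H (ends bs z).1 - H (ends bs z).2)
            (H (ends bs z).1 - H (ends bs z).2) = 0 := hz z
          rw [h2] at h3
          exact h3
        · have h3 : tri A (H (ends bs z).1 - H (ends bs z).2) (H (ends bs z).1 - H (ends bs z).2)
            (H (ends bs z).1 - H (ends bs z).2) = 0 := hz z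
          rw [h2] at h3
          have h4 : tri A (H v - H w) (H v - H w) (H v - H w) =
              - tri A (H w - H v) (H w - H v) (H w - H v) := by
            simp only [tri, Pi.sub_apply, ← Finset.sum_neg_distrib]
            refine Finset.sum_congr rfl fun i _ => Finset.sum_congr rfl fun j _ =>
              Finset.sum_congr rfl fun k _ => ?_
            ring
          rw [h4]
          simp only [] at h3
          rw [h3, neg_zero]
      · rintro ((s | s) | s) ((t | t) | t) hst
        · have h2 := hy s t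
          simp only [y₀, Fin.snoc_last, Fin.snoc_castSucc, one_mul] at h2
          exact h2
        · exact Empty.elim t
        · exact hst.elim
        · exact Empty.elim s
        · exact Empty.elim s
        · exact Empty.elim s
        · exact hst.elim
        · exact hst.elim
        · exact hst.elim)
  rw [card_PT] at h1
  omega

theorem TahLe.drop {n a b t : ℕ} (h : TahLe n a (b + 1) t) : TahLe n a b (t + n) := by
  intro l p y halg
  obtain ⟨v, hv⟩ := H80R.exists_algebraicIndependent
    ((Fin a × Fin n) ⊕ ((Fin (b + 1) × Fin n) ⊕ (Fin a × Fin (n + 1))))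
  let l' : Fin a → Fin n → ℂ := fun s k => v (.inl (s, k))
  let p' : Fin (b + 1) → Fin n → ℂ := fun s k => v (.inr (.inl (s, k)))
  let y' : Fin a → Fin (n + 1) → ℂ := fun s k => v (.inr (.inr (s, k)))
  have halg' : AlgebraicIndependent ℚ (Sum.elim (fun q : Fin a × Fin n => l' q.1 q.2)
      (Sum.elim (fun q : Fin (b + 1) × Fin n => p' q.1 q.2)
        (fun q : Fin a × Fin (n + 1) => y' q.1 q.2))) := by
    convert hv using 1
    ext (q | q | q) <;> rfl
  have h1 := h l' p' y' halg'
  refine (tahS_semi l l' p (fun s => p' s.castSucc) y y' halg).trans ?_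
  have h2 := br2_finrank_le (tahS l' (fun s => p' s.castSucc) y') (tahS l' p' y') (ι := Fin n)
    (fun k => br2L (p' (Fin.last b)) (p' (Fin.last b)) (fun m => if m = k then 1 else 0)) (by
      rintro A ⟨h0, hl, hp, hy⟩ hz
      refine ⟨h0, hl, fun s => ?_, hy⟩
      refine Fin.lastCases ?_ (fun i => ?_) s
      · rw [br2_all_iff]
        exact hz
      · exact hp i)
  rw [Fintype.card_fin] at h2
  omega

/-- the cubic polynomial of a cubic tensor -/
private noncomputable def pol {n : ℕ} (A : Fin n → Fin n → Fin n → ℂ) : MvPolynomial (Fin n) ℂ :=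
  ∑ a, ∑ b, ∑ c, C (A a b c) * (X a * X b * X c)

private theorem pol_mem {n : ℕ} (A : Fin n → Fin n → Fin n → ℂ) : pol A ∈ H80R.Fm n 3 := by
  refine Submodule.sum_mem _ fun a _ => Submodule.sum_mem _ fun b _ => Submodule.sum_mem _ fun c _ => ?_
  have h1 : (X a * X b * X c : MvPolynomial (Fin n) ℂ).IsHomogeneous 3 :=
    ((isHomogeneous_X ℂ a).mul (isHomogeneous_X ℂ b)).mul (isHomogeneous_X ℂ c)
  have h2 := (isHomogeneous_C (Fin n) (A a b c)).mul h1
  simpa using h2

private theorem tri_comm12 {n : ℕ} {A : Fin n → Fin n → Fin n → ℂ} (hA : Sym3 A) (u v w : Fin n → ℂ) :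
    tri A u v w = tri A v u w := by
  simp only [tri]
  rw [Finset.sum_comm]
  refine Finset.sum_congr rfl fun a _ => Finset.sum_congr rfl fun b _ =>
    Finset.sum_congr rfl fun c _ => ?_
  rw [hA.1 b a c]; ring

private theorem tri_comm23 {n : ℕ} {A : Fin n → Fin n → Fin n → ℂ} (hA : Sym3 A) (u v w : Fin n → ℂ) :
    tri A u v w = tri A u w v := by
  simp only [tri]
  refine Finset.sum_congr rfl fun a _ => ?_
  rw [Finset.sum_comm]
  refine Finset.sum_congr rfl fun b _ =>
    Finset.sum_congr rfl fun c _ => ?_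
  rw [hA.2 a c b]; ring

private theorem gr_pol {n : ℕ} {A : Fin n → Fin n → Fin n → ℂ} (hA : Sym3 A) (z : Fin n → ℂ) (k : Fin n) :
    H80R.gr z (pol A) k = 3 * tri A z z (Pi.single k 1) := by
  have h1 : H80R.gr z (pol A) k = tri A (Pi.single k 1) z z + tri A z (Pi.single k 1) z +
      tri A z z (Pi.single k 1) := by
    simp only [H80R.gr, pol, tri, map_sum, ← Finset.sum_add_distrib]
    refine Finset.sum_congr rfl fun a _ => Finset.sum_congr rfl fun b _ =>
      Finset.sum_congr rfl fun c _ => ?_
    simp only [Derivation.leibniz, pderiv_C, pderiv_X, smul_eq_mul, mul_zero, add_zero, map_mul,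
      map_add, eval_C, eval_X, Pi.single_apply, apply_ite (eval z), map_one, map_zero]
    ring
  rw [h1, tri_comm12 hA (Pi.single k 1) z z, tri_comm23 hA z (Pi.single k 1) z]
  ring

private noncomputable def polL (n : ℕ) : (Fin n → Fin n → Fin n → ℂ) →ₗ[ℂ] H80R.Fm n 3 where
  toFun A := ⟨pol A, pol_mem A⟩
  map_add' A B := by
    apply Subtype.ext
    simp only [pol, Submodule.coe_add, Pi.add_apply, map_add, add_mul, Finset.sum_add_distrib]
  map_smul' t A := by
    apply Subtype.ext
    simp only [pol, Submodule.coe_smul, Pi.smul_apply, smul_eq_mul, map_mul, RingHom.id_apply,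
      Finset.smul_sum, MvPolynomial.smul_eq_C_mul, mul_assoc]

private theorem polL_inj {n : ℕ} {A : Fin n → Fin n → Fin n → ℂ} (hA : Sym3 A) (h : polL n A = 0) :
    A = 0 := by
  have h0 : pol A = 0 := congrArg Subtype.val h
  have h1 : ∀ z k, tri A z z (Pi.single k 1) = 0 := by
    intro z k
    have h2 := gr_pol hA z k
    rw [h0] at h2
    have h3 : H80R.gr z (0 : MvPolynomial (Fin n) ℂ) k = 0 := by simp [H80R.gr]
    rw [h3] at h2
    have h4 : (3 : ℂ) ≠ 0 := by norm_num
    exact (mul_eq_zero.1 h2.symm).resolve_left h4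
  have h2 : ∀ u v k, tri A u v (Pi.single k 1) = 0 := by
    intro u v k
    have e1 := h1 (u + v) k
    have e2 : tri A (u + v) (u + v) (Pi.single k 1) = tri A u u (Pi.single k 1) +
        tri A u v (Pi.single k 1) + (tri A v u (Pi.single k 1) + tri A v v (Pi.single k 1)) := by
      simp only [tri, ← Finset.sum_add_distrib, Pi.add_apply]
      refine Finset.sum_congr rfl fun a _ => Finset.sum_congr rfl fun b _ =>
        Finset.sum_congr rfl fun c _ => ?_
      ring
    rw [e1, h1, h1, tri_comm12 hA v u] at e2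
    linear_combination (-1 / 2 : ℂ) * e2
  funext a b c
  have h3 := h2 (Pi.single a 1) (Pi.single b 1) c
  simp only [tri] at h3
  rw [Finset.sum_eq_single a, Finset.sum_eq_single b, Finset.sum_eq_single c] at h3
  · simpa using h3
  · intro x _ hx; simp [Pi.single_eq_of_ne hx]
  · simp
  · intro x _ hx; simp [Pi.single_eq_of_ne hx]
  · simp
  · intro x _ hx; simp [Pi.single_eq_of_ne hx]
  · simp

/-- for `a = 1` there are no pair conditions -/
theorem TahLe.of_sg {n b w : ℕ} (h : H80R.Sg n 3 (1 + b) w) : TahLe n 1 b w := by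
  intro l p y halg
  let z : Fin (1 + b) → Fin n → ℂ := Fin.append l p
  let f : Fin (1 + b) × Fin n → (Fin 1 × Fin n) ⊕ ((Fin b × Fin n) ⊕ (Fin 1 × Fin (n + 1))) :=
    fun q => Sum.elim (fun s => Sum.inl (s, q.2)) (fun s => Sum.inr (Sum.inl (s, q.2)))
      (finSumFinEquiv.symm q.1)
  have hf : Function.Injective f := by
    rintro ⟨q1, q2⟩ ⟨r1, r2⟩ hqr
    simp only [f] at hqr
    have key : finSumFinEquiv.symm q1 = finSumFinEquiv.symm r1 ∧ q2 = r2 := by
      revert hqr
      generalize finSumFinEquiv.symm q1 = x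
      generalize finSumFinEquiv.symm r1 = x'
      intro hqr
      rcases x with s | s <;> rcases x' with t | t <;> simp at hqr ⊢ <;> exact hqr
    rw [finSumFinEquiv.symm.injective key.1, key.2]
  have hz : AlgebraicIndependent ℚ (fun q : Fin (1 + b) × Fin n => z q.1 q.2) := by
    have h1 := halg.comp f hf
    convert h1 using 1
    funext ⟨q1, q2⟩
    obtain ⟨r, rfl⟩ := finSumFinEquiv.surjective q1
    rcases r with s | s
    · simp [z, f]
    · simp [z, f]
  refine le_trans ?_ (h z hz)
  have hker : ∀ A : tahS l p y, polL n A.1 ∈ LinearMap.ker (H80R.grL n 3 z) := by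
    rintro ⟨A, h0, hl, hp, hy⟩
    rw [LinearMap.mem_ker]
    funext s k
    change H80R.gr (z s) (pol A) k = 0
    rw [gr_pol h0]
    obtain ⟨r, rfl⟩ := finSumFinEquiv.surjective s
    rcases r with s | s
    · have h1 : z (finSumFinEquiv (Sum.inl s)) = l s := by simp [z]
      rw [h1, hl, mul_zero]
    · have h1 : z (finSumFinEquiv (Sum.inr s)) = p s := by simp [z]
      rw [h1, hp, mul_zero]
  unfold H80R.nl
  let g : tahS l p y →ₗ[ℂ] LinearMap.ker (H80R.grL n 3 z) :=
    ((polL n).comp (tahS l p y).subtype).codRestrict _ hker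
  apply LinearMap.finrank_le_finrank_of_injective (f := g)
  apply (injective_iff_map_eq_zero g).2
  rintro ⟨A, hA⟩ hgA
  apply Subtype.ext
  exact polL_inj hA.1 (congrArg Subtype.val hgA)

end H80T
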