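import Mathlib
import Pool.Agent.H80T.Defs2

namespace H80T

/-- `C(j+2,3)`, the dimension of the space of cubic forms in `j` variables -/
def c3 (j : ℕ) : ℕ := j * (j + 1) * (j + 2) / 6

/-- `C(g,2)` -/
def t2 (g : ℕ) : ℕ := g * (g - 1) / 2

/-- size of the main class in the canonical chain -/
def AL (j : ℕ) : ℕ := XX (j + 1) - XX j

/-- number of simple conditions passed in the canonical chain -/
def NU (j : ℕ) : ℕ := c3 j - j * XX j - t2 (AL j)

/-- search for the largest `g` with `t2 g ≤ v` -/
def lgA : ℕ → ℕ → ℕ → ℕ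
  | 0, g, _ => g
  | f + 1, g, v => if t2 (g + 1) ≤ v then lgA f (g + 1) v else g

/-- greedy representation of a number as a sum of numbers `t2 g` -/
def repA : ℕ → ℕ → List ℕ
  | 0, _ => []
  | f + 1, v => if v = 0 then [] else lgA v 1 v :: repA f (v - t2 (lgA v 1 v))

/-- greedy representation of a number as a sum of numbers `t2 g` -/
def rep (v : ℕ) : List ℕ := repA v v

/-- number of simple conditions passed at the top step -/
def IN (n al : ℕ) : ℕ := c3 (n - 1) - (n - 1) * XX (n - 1) - t2 al

/-- numerical conditions for the top step -/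
def TopOK (n x a s : ℕ) : Prop :=
  XX (n - 1) + 1 ≤ x ∧ a ≤ XX (n - 2) ∧ a + s + (x - XX (n - 1)) ≤ n ∧
    c3 n ≤ n * x + t2 a + s ∧
    t2 (n + 1 - (x - XX (n - 1))) ≤ XX (n - 1) + t2 a + s ∧
    (rep (IN n (x - XX (n - 1)))).sum ≤ a ∧
    (x - XX (n - 1)) + (rep (IN n (x - XX (n - 1)))).sum + AL (n - 2) ≤ n ∧
    (rep (NU (n - 2))).sum ≤ x - XX (n - 1)

instance (n x a s : ℕ) : Decidable (TopOK n x a s) := by
  unfold TopOK
  infer_instance

/-- the generic number of summands of cubic forms in `n + 1` variables, by dimension count -/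
def gg (n : ℕ) : ℕ := (c3 (n + 1) + n) / (n + 1)

end H80T
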