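import Mathlib
import Pool.Agent.H80T.Defs6

/-! REP: representations as sums of numbers `t2 g`. -/

namespace H80T

theorem t2_eq (g : ℕ) : t2 g = g.choose 2 := by
  rw [Nat.choose_two_right]; rfl

theorem t2_succ (g : ℕ) : t2 (g + 1) = t2 g + g := by
  rw [t2_eq, t2_eq, Nat.choose_succ_succ' g 1, Nat.choose_one_right]
  ring

private theorem Rep_six (j : ℕ) : 6 * (j + 2).choose 3 = j * (j + 1) * (j + 2) := by
  induction j with
  | zero => rfl
  | succ j ih =>
    have h1 : (j + 1 + 2).choose 3 = (j + 2).choose 2 + (j + 2).choose 3 :=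
      Nat.choose_succ_succ' (j + 2) 2
    have h2 : 2 * (j + 2).choose 2 = (j + 2) * (j + 1) := by
      have := Nat.choose_two_right (j + 2)
      have h3 : (j + 2) * (j + 2 - 1) = (j + 2) * (j + 1) := by congr 1
      rw [h3] at this
      rw [this]
      apply Nat.mul_div_cancel'
      rw [mul_comm]
      exact (Nat.even_mul_succ_self (j + 1)).two_dvd
    rw [h1, mul_add, ih]
    have h4 : 6 * (j + 2).choose 2 = 3 * (2 * (j + 2).choose 2) := by ring
    rw [h4, h2]
    ring

private theorem Rep_c3 (j : ℕ) : c3 j = (j + 2).choose 3 := by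
  unfold c3
  rw [← Rep_six]
  exact Nat.mul_div_cancel_left _ (by norm_num)

theorem c3_eq (j : ℕ) : c3 j = j.multichoose 3 := by
  rw [Rep_c3, Nat.multichoose_eq]
  rfl

theorem c3_succ (j : ℕ) : c3 (j + 1) = c3 j + t2 (j + 2) := by
  rw [Rep_c3, Rep_c3, t2_eq]
  have h1 : (j + 1 + 2).choose 3 = (j + 2).choose 2 + (j + 2).choose 3 :=
    Nat.choose_succ_succ' (j + 2) 2
  rw [h1, add_comm]

private theorem Rep_t2_mono {a b : ℕ} (h : a ≤ b) : t2 a ≤ t2 b := by
  induction b, h using Nat.le_induction with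
  | base => exact le_rfl
  | succ b _ ih => rw [t2_succ]; omega

private theorem Rep_lgA (f g v : ℕ) (h1 : t2 g ≤ v) (h2 : v < t2 (g + 1 + f)) :
    g ≤ lgA f g v ∧ t2 (lgA f g v) ≤ v ∧ v < t2 (lgA f g v + 1) := by
  induction f generalizing g with
  | zero => exact ⟨le_rfl, h1, h2⟩
  | succ f ih =>
    simp only [lgA]
    split_ifs with h
    · obtain ⟨i1, i2, i3⟩ := ih (g + 1) h (by
        have : g + 1 + 1 + f = g + 1 + (f + 1) := by ring
        rw [this]; exact h2)
      exact ⟨by omega, i2, i3⟩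
    · exact ⟨le_rfl, h1, not_le.1 h⟩

private theorem Rep_big (v : ℕ) : v < t2 (1 + 1 + v) := by
  induction v with
  | zero => decide
  | succ v ih =>
    have : 1 + 1 + (v + 1) = (1 + 1 + v) + 1 := by ring
    rw [this, t2_succ]; omega

private theorem Rep_spec (v : ℕ) (hv : 1 ≤ v) :
    2 ≤ lgA v 1 v ∧ t2 (lgA v 1 v) ≤ v ∧ v < t2 (lgA v 1 v + 1) := by
  obtain ⟨_, h2, h3⟩ := Rep_lgA v 1 v (by simp [t2]) (Rep_big v)
  refine ⟨?_, h2, h3⟩
  by_contra h
  have h4 : lgA v 1 v + 1 ≤ 2 := by omega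
  have h5 := Rep_t2_mono h4
  have : t2 2 = 1 := rfl
  omega

private theorem Rep_t2_pos {g : ℕ} (h : 2 ≤ g) : 1 ≤ t2 g := by
  have := Rep_t2_mono h
  have : t2 2 = 1 := rfl
  omega

private theorem Rep_fuel (w : ℕ) : ∀ f f', w ≤ f → w ≤ f' → repA f w = repA f' w := by
  induction w using Nat.strong_induction_on with
  | _ w ih =>
    intro f f' hf hf'
    rcases Nat.eq_zero_or_pos w with rfl | hw
    · cases f <;> cases f' <;> simp [repA]
    · obtain ⟨f, rfl⟩ : ∃ k, f = k + 1 := ⟨f - 1, by omega⟩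
      obtain ⟨f', rfl⟩ : ∃ k, f' = k + 1 := ⟨f' - 1, by omega⟩
      have hne : w ≠ 0 := by omega
      simp only [repA, hne, if_false]
      have hp := Rep_t2_pos (Rep_spec w hw).1
      rw [ih (w - t2 (lgA w 1 w)) (by omega) f f' (by omega) (by omega)]

/-- the greedy step -/
private theorem Rep_step (v : ℕ) (hv : 1 ≤ v) :
    rep v = lgA v 1 v :: rep (v - t2 (lgA v 1 v)) := by
  unfold rep
  obtain ⟨f, hf⟩ : ∃ k, v = k + 1 := ⟨v - 1, by omega⟩
  have hne : v ≠ 0 := by omega
  have hp := Rep_t2_pos (Rep_spec v hv).1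
  have h1 : repA v v = repA (f + 1) v := by rw [← hf]
  rw [h1]
  simp only [repA, hne, if_false]
  rw [Rep_fuel (v - t2 (lgA v 1 v)) f (v - t2 (lgA v 1 v)) (by omega) le_rfl]

private theorem Rep_zero : rep 0 = [] := rfl

theorem pairs_rep (v : ℕ) : pairs (rep v) = v := by
  induction v using Nat.strong_induction_on with
  | _ v ih =>
    rcases Nat.eq_zero_or_pos v with rfl | hv
    · rfl
    · rw [Rep_step v hv]
      have hs := Rep_spec v hv
      have hp := Rep_t2_pos hs.1
      have := ih (v - t2 (lgA v 1 v)) (by omega)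
      simp only [pairs, List.map_cons, List.sum_cons] at this ⊢
      rw [this]
      have h1 := t2_eq (lgA v 1 v)
      omega

private theorem Rep_sum0 (v : ℕ) : (rep v).sum ≤ 2 * v := by
  induction v using Nat.strong_induction_on with
  | _ v ih =>
    rcases Nat.eq_zero_or_pos v with rfl | hv
    · simp [Rep_zero]
    · rw [Rep_step v hv, List.sum_cons]
      have hs := Rep_spec v hv
      have hp := Rep_t2_pos hs.1
      have h1 := ih (v - t2 (lgA v 1 v)) (by omega)
      have h2 : ∀ g, 2 ≤ g → g ≤ 2 * t2 g := by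
        intro g hg
        induction g, hg using Nat.le_induction with
        | base => decide
        | succ g hg ih => rw [t2_succ]; omega
      have h3 := h2 _ hs.1
      omega

theorem rep_sum1 {v g : ℕ} (h : v < t2 (g + 1)) : (rep v).sum ≤ 3 * g := by
  rcases Nat.eq_zero_or_pos v with rfl | hv
  · simp [Rep_zero]
  · rw [Rep_step v hv, List.sum_cons]
    obtain ⟨s1, s2, s3⟩ := Rep_spec v hv
    rw [t2_succ] at s3
    have h1 := Rep_sum0 (v - t2 (lgA v 1 v))
    have h2 : lgA v 1 v ≤ g := by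
      by_contra hcon
      have := Rep_t2_mono (show g + 1 ≤ lgA v 1 v by omega)
      omega
    omega

theorem rep_sum2 {v g h : ℕ} (h1 : v < t2 (g + 1)) (h2 : g ≤ t2 (h + 1)) :
    (rep v).sum ≤ g + 3 * h := by
  rcases Nat.eq_zero_or_pos v with rfl | hv
  · simp [Rep_zero]
  · rw [Rep_step v hv, List.sum_cons]
    obtain ⟨s1, s2, s3⟩ := Rep_spec v hv
    rw [t2_succ] at s3
    have h3 : lgA v 1 v ≤ g := by
      by_contra hcon
      have := Rep_t2_mono (show g + 1 ≤ lgA v 1 v by omega)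
      omega
    have h4 := rep_sum1 (v := v - t2 (lgA v 1 v)) (g := h) (by omega)
    omega

end H80T
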