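import Mathlib
import Pool.Agent.H80T.Rep

/-! CANA: arithmetic of the canonical chain. -/

namespace H80T

theorem XX_le (j : ℕ) : 18 * XX j ≤ 3 * j ^ 2 + 8 * j + 7 := by
  unfold XX
  exact Nat.mul_div_le _ _

theorem lt_XX (j : ℕ) : 3 * j ^ 2 + 8 * j + 7 < 18 * XX j + 18 := by
  unfold XX
  omega

private theorem CanA_sq (j : ℕ) : 3 * (j + 1) ^ 2 + 8 * (j + 1) + 7 =
    (3 * j ^ 2 + 8 * j + 7) + (6 * j + 11) := by ring

private theorem CanA_mono (j : ℕ) : XX j ≤ XX (j + 1) := by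
  have h1 := XX_le j
  have h2 := lt_XX (j + 1)
  rw [CanA_sq] at h2
  omega

theorem XX_succ (j : ℕ) : XX (j + 1) = XX j + AL j := by
  have := CanA_mono j
  unfold AL
  omega

theorem AL_le (j : ℕ) : 18 * AL j ≤ 6 * j + 28 := by
  have h1 := XX_le (j + 1)
  have h2 := lt_XX j
  rw [CanA_sq] at h1
  have := XX_succ j
  omega

theorem le_AL (j : ℕ) : 6 * j ≤ 18 * AL j + 6 := by
  have h1 := XX_le j
  have h2 := lt_XX (j + 1)
  rw [CanA_sq] at h2
  have := XX_succ j
  omega

private theorem CanA_t2 (g : ℕ) : 2 * t2 g + g = g * g := by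
  induction g with
  | zero => rfl
  | succ g ih =>
    rw [t2_succ]
    have : (g + 1) * (g + 1) = g * g + 2 * g + 1 := by ring
    omega

private theorem CanA_c3 (j : ℕ) : 6 * c3 j = j * (j + 1) * (j + 2) := by
  induction j with
  | zero => rfl
  | succ j ih =>
    rw [c3_succ, mul_add, ih]
    have h := CanA_t2 (j + 2)
    have : 6 * t2 (j + 2) + 3 * (j + 2) = 3 * ((j + 2) * (j + 2)) := by rw [← h]; ring
    nlinarith

private theorem CanA_XX (q s : ℕ) : XX (18 * q + s) = 54 * q ^ 2 + 6 * q * s + 8 * q + XX s := by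
  unfold XX
  have : 3 * (18 * q + s) ^ 2 + 8 * (18 * q + s) + 7 =
      (3 * s ^ 2 + 8 * s + 7) + 18 * (54 * q ^ 2 + 6 * q * s + 8 * q) := by ring
  rw [this, Nat.add_mul_div_left _ _ (by norm_num)]
  ring

private theorem CanA_AL (q s : ℕ) : AL (18 * q + s) = 6 * q + AL s := by
  have h1 := XX_succ (18 * q + s)
  have h2 := XX_succ s
  rw [show 18 * q + s + 1 = 18 * q + (s + 1) by ring, CanA_XX, CanA_XX] at h1
  have h3 : 6 * q * (s + 1) = 6 * q * s + 6 * q := by ring
  omega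

/-- both bounds for the difference -/
private theorem CanA_main (j : ℕ) :
    j * XX j + t2 (AL j) ≤ c3 j ∧ c3 j ≤ j * XX j + t2 (AL j) + j := by
  obtain ⟨q, s, hs, rfl⟩ : ∃ q s, s < 18 ∧ j = 18 * q + s :=
    ⟨j / 18, j % 18, Nat.mod_lt _ (by norm_num), (Nat.div_add_mod j 18).symm⟩
  have hc := CanA_c3 (18 * q + s)
  have ht := CanA_t2 (AL (18 * q + s))
  rw [CanA_XX]
  rw [CanA_AL] at ht ⊢
  set C := c3 (18 * q + s) with hC
  set U := t2 (6 * q + AL s) with hU
  clear_value C U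
  interval_cases s
  all_goals
    simp only [AL, XX] at ht ⊢
    norm_num at ht hc ⊢
    constructor
    · nlinarith [hc, ht]
    · nlinarith [hc, ht]

theorem NU_spec (j : ℕ) : j * XX j + t2 (AL j) + NU j = c3 j := by
  have := (CanA_main j).1
  unfold NU
  omega

theorem NU_le (j : ℕ) : NU j ≤ j := by
  have := (CanA_main j).2
  unfold NU
  omega

private theorem CanA_dec1 : ∀ j ∈ List.range' 27 300, (rep (NU j)).sum ≤ AL (j + 1) := by
  decide +kernel

private theorem CanA_dec2 : ∀ j ∈ List.range' 27 300,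
    AL (j + 1) + (rep (NU (j + 1))).sum + AL j ≤ j + 2 := by
  decide +kernel

private theorem CanA_rep {j : ℕ} (hj : 300 ≤ j) : (rep (NU j)).sum ≤ 3 * (j / 12) := by
  apply rep_sum1
  have h1 := NU_le j
  have h2 := CanA_t2 (j / 12 + 1)
  set m := j / 12 with hm
  have h3 : j < 12 * (m + 1) := by omega
  have h4 : 25 ≤ m := by omega
  nlinarith

theorem canon_c1 {j : ℕ} (hj : 27 ≤ j) : (rep (NU j)).sum ≤ AL (j + 1) := by
  rcases lt_or_ge j 300 with h | h
  · exact CanA_dec1 j (by rw [List.mem_range'_1]; omega)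
  · have h1 := CanA_rep h
    have h2 := le_AL (j + 1)
    omega

theorem canon_c2 {j : ℕ} (hj : 27 ≤ j) :
    AL (j + 1) + (rep (NU (j + 1))).sum + AL j ≤ j + 2 := by
  rcases lt_or_ge j 300 with h | h
  · exact CanA_dec2 j (by rw [List.mem_range'_1]; omega)
  · have h1 := CanA_rep (show 300 ≤ j + 1 by omega)
    have h2 := AL_le (j + 1)
    have h3 := AL_le j
    omega

/-- the count identity for the flag step -/
theorem count_id {j x α : ℕ} (hα : α ≤ j + 2) :
    c3 (j + 1) + t2 α + (j + 1) * x = c3 j + t2 (j + 2 - α) + (j + 1) * (x + α) := by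
  obtain ⟨β, hβ⟩ : ∃ β, j + 2 = α + β := ⟨j + 2 - α, by omega⟩
  have h0 : j + 2 - α = β := by omega
  rw [h0, c3_succ]
  have h1 := CanA_t2 (j + 2)
  have h2 := CanA_t2 α
  have h3 := CanA_t2 β
  rw [hβ] at h1 ⊢
  have h4 : j + 1 = α + β - 1 := by omega
  have h5 : (j + 1) * (x + α) = (j + 1) * x + (j + 1) * α := by ring
  have h6 : (j + 1) * α + α = (α + β) * α := by
    have : j + 1 + 1 = α + β := by omega
    rw [← this]; ring
  rw [h5]
  nlinarith

end H80T
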