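import Mathlib
import Pool.Agent.H80T.SymD

/-! SPLB: splitting of braid classes. -/

namespace H80T

open Module

theorem card_VT (bs : List ℕ) : Fintype.card (VT bs) = bs.sum := by
  induction bs with
  | nil =>
    have : Fintype.card (VT []) = Fintype.card Empty := Fintype.card_congr (Equiv.refl _)
    rw [this]
    simp
  | cons b bs ih =>
    have : Fintype.card (VT (b :: bs)) = Fintype.card (Fin b ⊕ VT bs) :=
      Fintype.card_congr (Equiv.refl _)
    rw [this, Fintype.card_sum, Fintype.card_fin, ih, List.sum_cons]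

/-- index of the class of a vertex -/
def cls : (bs : List ℕ) → VT bs → ℕ
  | [], _ => 0
  | _ :: _, .inl _ => 0
  | _ :: bs, .inr v => cls bs v + 1

theorem cls_lt : ∀ (bs : List ℕ) (v : VT bs), cls bs v < bs.length
  | [], v => Empty.elim v
  | _ :: _, .inl _ => by simp [cls]
  | _ :: bs, .inr v => by
    have := cls_lt bs v
    simp only [cls, List.length_cons]
    omega

theorem VE_iff : ∀ (bs : List ℕ) (v w : VT bs), VE bs v w ↔ cls bs v = cls bs w
  | [], v, _ => Empty.elim v
  | _ :: _, .inl _, .inl _ => by simp [cls, VE]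
  | _ :: _, .inl _, .inr _ => by simp [cls, VE]
  | _ :: _, .inr _, .inl _ => by simp [cls, VE]
  | _ :: bs, .inr v, .inr w => by
    have := VE_iff bs v w
    simp only [cls, VE, Nat.add_right_cancel_iff]
    exact this

/-- unordered pairs of vertices in the same class -/
theorem exists_pairIdx (l : List ℕ) :
    ∃ (ι : Type) (_ : Fintype ι) (f : ι → VT l × VT l), Fintype.card ι = pairs l ∧
      ∀ v w, VE l v w → v ≠ w → ∃ i, f i = (v, w) ∨ f i = (w, v) := by
  classical
  induction l with
  | nil => exact ⟨Empty, inferInstance, fun i => i.elim, by simp [pairs], fun v => Empty.elim v⟩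
  | cons b l ih =>
    obtain ⟨ι, _, f, hc, hf⟩ := ih
    refine ⟨{a : Sym2 (Fin b) // ¬ a.IsDiag} ⊕ ι, inferInstance,
      Sum.elim (fun i => (Sum.inl i.1.out.1, Sum.inl i.1.out.2))
        (fun i => (Sum.inr (f i).1, Sum.inr (f i).2)), ?_, ?_⟩
    · rw [Fintype.card_sum, Sym2.card_subtype_not_diag, hc]
      simp [pairs]
    · rintro (v | v) (w | w) hvw hne
      · have hne' : v ≠ w := fun h => hne (by rw [h])
        refine ⟨.inl ⟨s(v, w), by simpa using hne'⟩, ?_⟩
        have h1 : s((s(v, w)).out.1, (s(v, w)).out.2) = s(v, w) := by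
          have := Quot.out_eq (s(v, w))
          exact this
        rw [Sym2.eq_iff] at h1
        rcases h1 with ⟨h1, h2⟩ | ⟨h1, h2⟩
        · left
          simp [h1, h2]
        · right
          simp [h1, h2]
      · exact absurd hvw (by simp [VE])
      · exact absurd hvw (by simp [VE])
      · have hne' : v ≠ w := fun h => hne (by rw [h])
        obtain ⟨i, hi⟩ := hf v w hvw hne'
        refine ⟨.inr i, ?_⟩
        rcases hi with hi | hi
        · left
          simp [hi]
        · right
          simp [hi]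

theorem exists_vtApp (l bs : List ℕ) : ∃ φ : VT (l ++ bs) → VT l ⊕ VT bs,
    Function.Injective φ ∧ ∀ v w, VE (l ++ bs) v w →
      (∃ x y, φ v = .inl x ∧ φ w = .inl y ∧ VE l x y) ∨
      (∃ x y, φ v = .inr x ∧ φ w = .inr y ∧ VE bs x y) := by
  induction l with
  | nil => exact ⟨fun v => .inr v, fun v w h => Sum.inr_injective h,
      fun v w h => Or.inr ⟨v, w, rfl, rfl, h⟩⟩
  | cons b l ih =>
    obtain ⟨φ, hφ, hE⟩ := ih
    let g : VT l ⊕ VT bs → VT (b :: l) ⊕ VT bs := Sum.map (fun v => Sum.inr v) id
    have hg : Function.Injective g := Sum.map_injective.2 ⟨Sum.inr_injective, Function.injective_id⟩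
    let φ' : VT (b :: l ++ bs) → VT (b :: l) ⊕ VT bs :=
      fun v => match (v : Fin b ⊕ VT (l ++ bs)) with
        | .inl a => .inl (.inl a)
        | .inr v => g (φ v)
    refine ⟨φ', ?_, ?_⟩
    · rintro (v | v) (w | w) h
      · have h' : (Sum.inl (Sum.inl v) : VT (b :: l) ⊕ VT bs) = Sum.inl (Sum.inl w) := h
        have := Sum.inl_injective (Sum.inl_injective h')
        rw [this]
      · exfalso
        have h' : (Sum.inl (Sum.inl v) : VT (b :: l) ⊕ VT bs) = g (φ w) := h
        cases hw : φ w with
        | inl x =>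
          rw [hw] at h'
          have h2 := Sum.inl_injective h'
          cases h2
        | inr x =>
          rw [hw] at h'
          cases h'
      · exfalso
        have h' : g (φ v) = (Sum.inl (Sum.inl w) : VT (b :: l) ⊕ VT bs) := h
        cases hw : φ v with
        | inl x =>
          rw [hw] at h'
          have h2 := Sum.inl_injective h'
          cases h2
        | inr x =>
          rw [hw] at h'
          cases h'
      · have h' : g (φ v) = g (φ w) := h
        have := hφ (hg h')
        rw [this]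
    · rintro (v | v) (w | w) h
      · exact Or.inl ⟨.inl v, .inl w, rfl, rfl, trivial⟩
      · exact absurd h (by simp [VE])
      · exact absurd h (by simp [VE])
      · rcases hE v w h with ⟨x, y, hx, hy, hxy⟩ | ⟨x, y, hx, hy, hxy⟩
        · refine Or.inl ⟨.inr x, .inr y, ?_, ?_, hxy⟩
          · change g (φ v) = _
            rw [hx]
            rfl
          · change g (φ w) = _
            rw [hy]
            rfl
        · refine Or.inr ⟨x, y, ?_, ?_, hxy⟩
          · change g (φ v) = _
            rw [hx]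
            rfl
          · change g (φ w) = _
            rw [hy]
            rfl

/-- the splitting of one class -/
theorem spl_one (l : List ℕ) (b : ℕ) (hl : l.sum ≤ b) :
    ∃ (e : VT l → Fin b) (cl : Fin b → ℕ) (ι : Type) (_ : Fintype ι) (f : ι → Fin b × Fin b),
      Function.Injective e ∧ (∀ v w, VE l v w → cl (e v) = cl (e w)) ∧
      Fintype.card ι = pairs l ∧
      ∀ a a', a ≠ a' → cl a = cl a' → ∃ i, f i = (a, a') ∨ f i = (a', a) := by
  classical
  have hcard : Fintype.card (VT l) ≤ Fintype.card (Fin b) := by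
    rw [card_VT, Fintype.card_fin]
    exact hl
  obtain ⟨e⟩ := Function.Embedding.nonempty_of_card_le hcard
  obtain ⟨ι, hι, f, hc, hf⟩ := exists_pairIdx l
  refine ⟨e, fun a => if h : ∃ v, e v = a then cls l h.choose else l.length + a.val, ι, hι,
    fun i => (e (f i).1, e (f i).2), e.injective, ?_, hc, ?_⟩
  · intro v w hvw
    have hv : ∃ v', e v' = e v := ⟨v, rfl⟩
    have hw : ∃ v', e v' = e w := ⟨w, rfl⟩
    have h1 : hv.choose = v := e.injective hv.choose_spec
    have h2 : hw.choose = w := e.injective hw.choose_spec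
    simp only [dif_pos hv, dif_pos hw]
    rw [h1, h2]
    exact (VE_iff l v w).1 hvw
  · intro a a' hne hcl
    simp only at hcl
    by_cases h : ∃ v, e v = a
    · by_cases h' : ∃ v, e v = a'
      · rw [dif_pos h, dif_pos h'] at hcl
        have hE := (VE_iff l _ _).2 hcl
        have h1 := h.choose_spec
        have h2 := h'.choose_spec
        have hne' : h.choose ≠ h'.choose := fun hh => hne (by rw [← h1, ← h2, hh])
        obtain ⟨i, hi⟩ := hf _ _ hE hne'
        refine ⟨i, ?_⟩
        rcases hi with hi | hi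
        · left
          simp only [hi, h1, h2]
        · right
          simp only [hi, h1, h2]
      · exfalso
        rw [dif_pos h, dif_neg h'] at hcl
        have := cls_lt l h.choose
        omega
    · by_cases h' : ∃ v, e v = a'
      · exfalso
        rw [dif_neg h, dif_pos h'] at hcl
        have := cls_lt l h'.choose
        omega
      · exfalso
        rw [dif_neg h, dif_neg h'] at hcl
        apply hne
        apply Fin.ext
        omega

theorem bil_reindex {W W' : Type} [Fintype W] [Fintype W'] (e : W ≃ W') (B : W' → W' → ℂ)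
    (x y : W' → ℂ) :
    bil (fun a b => B (e a) (e b)) (fun a => x (e a)) (fun a => y (e a)) = bil B x y := by
  unfold bil
  rw [← e.sum_comp]
  refine Finset.sum_congr rfl fun a _ => ?_
  rw [← e.sum_comp]

theorem bil_inl {W₁ W₂ : Type} [Fintype W₁] [Fintype W₂] (B : W₁ ⊕ W₂ → W₁ ⊕ W₂ → ℂ)
    (x y : W₁ → ℂ) :
    bil (fun a b => B (.inl a) (.inl b)) x y = bil B (Sum.elim x 0) (Sum.elim y 0) := by
  simp [bil, Fintype.sum_sum_type]

theorem bil_inr {W₁ W₂ : Type} [Fintype W₁] [Fintype W₂] (B : W₁ ⊕ W₂ → W₁ ⊕ W₂ → ℂ)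
    (x y : W₂ → ℂ) :
    bil (fun a b => B (.inr a) (.inr b)) x y = bil B (Sum.elim 0 x) (Sum.elim 0 y) := by
  simp [bil, Fintype.sum_sum_type]

theorem finrank_le_of_reindex {W W' : Type} [Fintype W] [Fintype W'] (e : W ≃ W')
    (S : Submodule ℂ (W' → W' → ℂ)) (S' : Submodule ℂ (W → W → ℂ))
    (h : ∀ B ∈ S, (fun a b => B (e a) (e b)) ∈ S') : finrank ℂ S ≤ finrank ℂ S' := by
  let L : (W' → W' → ℂ) →ₗ[ℂ] (W → W → ℂ) :=
    { toFun := fun B a b => B (e a) (e b)
      map_add' := fun _ _ => rfl
      map_smul' := fun _ _ => rfl }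
  have hL : Function.Injective L := by
    intro B B' hBB
    funext a b
    have := congrFun (congrFun hBB (e.symm a)) (e.symm b)
    simpa [L] using this
  rw [(Submodule.equivMapOfInjective L hL S).finrank_eq]
  apply Submodule.finrank_mono
  rintro _ ⟨B, hB, rfl⟩
  exact h B hB

theorem elim_sub_inl {W₁ W₂ : Type} (x y : W₁ → ℂ) :
    (Sum.elim (x - y) (0 : W₂ → ℂ) : W₁ ⊕ W₂ → ℂ) =
      Sum.elim x (0 : W₂ → ℂ) - Sum.elim y (0 : W₂ → ℂ) := by
  funext a
  cases a <;> simp

theorem elim_sub_inr {W₁ W₂ : Type} (x y : W₂ → ℂ) :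
    (Sum.elim (0 : W₁ → ℂ) (x - y) : W₁ ⊕ W₂ → ℂ) =
      Sum.elim (0 : W₁ → ℂ) x - Sum.elim (0 : W₁ → ℂ) y := by
  funext a
  cases a <;> simp

/-- `bil` as a linear map in the form -/
def bilL {W : Type} [Fintype W] (x y : W → ℂ) : (W → W → ℂ) →ₗ[ℂ] ℂ where
  toFun B := bil B x y
  map_add' B B' := bil_add B B' x y
  map_smul' t B := bil_smul t B x y

theorem bil_neg_neg {W : Type} [Fintype W] (B : W → W → ℂ) (x y : W → ℂ) :
    bil B (-x) (-y) = bil B x y := by
  simp [bil]

/-- the vectors of a splitted braid class -/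
private def braidVec (b : ℕ) (a : Fin b) (i : Fin (b - 1)) : ℂ :=
  if a.val = i.val + 1 then 1 else 0

private theorem braid_one_zero {b : ℕ} (B : Fin (b - 1) → Fin (b - 1) → ℂ)
    (hs : ∀ a a', B a a' = B a' a)
    (h : ∀ a a' : Fin b, a ≠ a' →
      bil B (braidVec b a - braidVec b a') (braidVec b a - braidVec b a') = 0) : B = 0 := by
  classical
  have hb : ∀ i : Fin (b - 1), 0 < b := fun i => by
    have := i.2
    omega
  -- the vertex `0` has the vector `0`
  have key0 : ∀ i : Fin (b - 1), braidVec b ⟨0, hb i⟩ = 0 := by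
    intro i
    funext j
    simp [braidVec]
  have key1 : ∀ i : Fin (b - 1), braidVec b ⟨i.val + 1, by omega⟩ = Pi.single i 1 := by
    intro i
    funext j
    simp only [braidVec, Pi.single_apply, Nat.add_right_cancel_iff]
    congr 1
    simp only [eq_iff_iff]
    exact ⟨fun h => (Fin.ext h).symm, fun h => by rw [h]⟩
  have e2 : ∀ i j : Fin (b - 1), bil B (Pi.single i 1) (Pi.single j 1) = B i j := by
    intro i j
    simp [bil, Pi.single_apply, Finset.sum_ite_eq']
  have diag : ∀ i, B i i = 0 := by
    intro i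
    have h1 := h ⟨i.val + 1, by omega⟩ ⟨0, hb i⟩ (by simp)
    rw [key0 i, key1 i, sub_zero, e2] at h1
    exact h1
  funext i j
  by_cases hij : i = j
  · subst hij
    exact diag i
  · have hv : i.val ≠ j.val := fun h => hij (Fin.ext h)
    have h1 := h ⟨i.val + 1, by omega⟩ ⟨j.val + 1, by omega⟩ (by simpa using hv)
    rw [key1 i, key1 j] at h1
    have h2 : bil B (Pi.single i 1 - Pi.single j 1) (Pi.single i 1 - Pi.single j 1) =
        B i i - B i j - B j i + B j j := by
      have e3 : bil B (Pi.single i 1 - Pi.single j 1) (Pi.single i 1 - Pi.single j 1) =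
          bil B (Pi.single i 1) (Pi.single i 1) - bil B (Pi.single i 1) (Pi.single j 1) -
          bil B (Pi.single j 1) (Pi.single i 1) + bil B (Pi.single j 1) (Pi.single j 1) := by
        simp only [bil, Pi.sub_apply, ← Finset.sum_sub_distrib, ← Finset.sum_add_distrib]
        refine Finset.sum_congr rfl fun a _ => Finset.sum_congr rfl fun c _ => ?_
        ring
      rw [e3, e2, e2, e2, e2]
    rw [h2, diag i, diag j, hs j i] at h1
    have h3 : B i j = 0 := by
      have : -(2 * B i j) = 0 := by linear_combination h1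
      simpa using this
    exact h3

private theorem braid_one {l : List ℕ} {b : ℕ} {cl : Fin b → ℕ} {ι : Type} [Fintype ι]
    {f : ι → Fin b × Fin b} (hc : Fintype.card ι = pairs l)
    (hf : ∀ a a', a ≠ a' → cl a = cl a' → ∃ i, f i = (a, a') ∨ f i = (a', a)) :
    finrank ℂ (braidSp (fun _ _ : Fin b => True) cl (braidVec b)) ≤ pairs l := by
  have h := finrank_le_add_card (braidSp (fun _ _ : Fin b => True) cl (braidVec b)) ⊥
    (fun i => bilL (braidVec b (f i).1 - braidVec b (f i).2)
      (braidVec b (f i).1 - braidVec b (f i).2)) ?_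
  · rw [finrank_bot, zero_add, hc] at h
    exact h
  · intro B hB h0
    rw [Submodule.mem_bot]
    refine braid_one_zero B hB.1 fun a a' hne => ?_
    by_cases hcl : cl a = cl a'
    · obtain ⟨i, hi | hi⟩ := hf a a' hne hcl
      · have := h0 i
        rw [hi] at this
        exact this
      · have := h0 i
        rw [hi] at this
        have h2 : bil B (braidVec b a' - braidVec b a) (braidVec b a' - braidVec b a) = 0 := this
        rw [← neg_sub (braidVec b a) (braidVec b a'), bil_neg_neg] at h2
        exact h2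
    · exact hB.2 a a' trivial hcl

private theorem choose_aux (c b : ℕ) :
    (c + b + 1).choose 2 = (c + 1).choose 2 + (b + 1).choose 2 + c * b := by
  have h1 : ∀ x : ℕ, (x + 1).choose 2 * 2 = (x + 1) * x := by
    intro x
    have := Nat.triangle_succ x
    rw [Nat.choose_two_right]
    have h2 : Even ((x + 1) * x) := by
      rw [mul_comm]
      exact Nat.even_mul_succ_self x
    simpa using Nat.div_mul_cancel h2.two_dvd
  have e1 := h1 (c + b)
  have e2 := h1 c
  have e3 := h1 b
  nlinarith

private theorem dataB_aux {bs' bs : List ℕ} {c : ℕ} (h : Spl 1 bs' bs c) :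
    ∃ (W : Type) (_ : Fintype W) (ψ : VT bs' → VT bs) (col : VT bs → ℕ) (u : VT bs → W → ℂ),
      Fintype.card W = c ∧ Function.Injective ψ ∧
      (∀ v w, VE bs' v w → VE bs (ψ v) (ψ w) ∧ col (ψ v) = col (ψ w)) ∧
      finrank ℂ (braidSp (VE bs) col u) + pairs bs ≤ (c + 1).choose 2 + pairs bs' := by
  classical
  induction h with
  | nil =>
    refine ⟨Empty, inferInstance, id, fun _ => 0, fun _ _ => 0, by simp,
      Function.injective_id, fun v => Empty.elim v, ?_⟩
    have : Subsingleton (braidSp (VE []) (fun _ => 0) (fun (_ : VT []) (_ : Empty) => (0 : ℂ))) :=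
      ⟨fun x y => Subtype.ext (funext fun a => Empty.elim a)⟩
    rw [finrank_zero_of_subsingleton]
    simp
  | @keep b bs' bs c h ih =>
    obtain ⟨W, _, ψ, col, u, hc, hψ, hE, hd⟩ := ih
    refine ⟨W, inferInstance, Sum.map id ψ, Sum.elim (fun _ => 0) col,
      Sum.elim (fun _ => 0) u, hc, Sum.map_injective.2 ⟨Function.injective_id, hψ⟩, ?_, ?_⟩
    · rintro (v | v) (w | w) hvw
      · exact ⟨trivial, rfl⟩
      · exact absurd hvw (by simp [VE])
      · exact absurd hvw (by simp [VE])
      · exact hE v w hvw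
    · have h1 : braidSp (VE (b :: bs)) (Sum.elim (fun _ => 0) col : VT (b :: bs) → ℕ)
          (Sum.elim (fun _ => 0) u : VT (b :: bs) → W → ℂ) ≤ braidSp (VE bs) col u := by
        intro B hB
        exact ⟨hB.1, fun v w hvw hne => hB.2 (Sum.inr v) (Sum.inr w) hvw hne⟩
      have h2 := Submodule.finrank_mono h1
      have h3 : ∀ l, pairs (b :: l) = b.choose 2 + pairs l := fun l => by simp [pairs]
      rw [h3, h3]
      omega
  | @split l b hl bs' bs c h ih =>
    obtain ⟨W, _, ψ, col, u, hc, hψ, hE, hd⟩ := ih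
    obtain ⟨e, cl, ι, _, f, he, hecl, hcard, hf⟩ := spl_one l b hl
    obtain ⟨φ, hφ, hφE⟩ := exists_vtApp l bs'
    refine ⟨W ⊕ Fin (b - 1), inferInstance, fun v => Sum.map e ψ (φ v),
      Sum.elim cl col, Sum.elim (fun a => Sum.elim 0 (braidVec b a)) (fun v => Sum.elim (u v) 0),
      by simp [hc], (Sum.map_injective.2 ⟨he, hψ⟩).comp hφ, ?_, ?_⟩
    · intro v w hvw
      rcases hφE v w hvw with ⟨x, y, hx, hy, hxy⟩ | ⟨x, y, hx, hy, hxy⟩
      · have gen : ∀ p q : Fin b ⊕ VT bs, p = .inl (e x) → q = .inl (e y) →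
            VE (b :: bs) p q ∧ Sum.elim cl col p = Sum.elim cl col q := by
          rintro _ _ rfl rfl
          exact ⟨trivial, hecl x y hxy⟩
        have e1 : Sum.map e ψ (φ v) = Sum.inl (e x) := by rw [hx]; rfl
        have e2 : Sum.map e ψ (φ w) = Sum.inl (e y) := by rw [hy]; rfl
        exact gen _ _ e1 e2
      · have gen : ∀ p q : Fin b ⊕ VT bs, p = .inr (ψ x) → q = .inr (ψ y) →
            VE (b :: bs) p q ∧ Sum.elim cl col p = Sum.elim cl col q := by
          rintro _ _ rfl rfl
          exact hE x y hxy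
        have e1 : Sum.map e ψ (φ v) = Sum.inr (ψ x) := by rw [hx]; rfl
        have e2 : Sum.map e ψ (φ w) = Sum.inr (ψ y) := by rw [hy]; rfl
        exact gen _ _ e1 e2
    · have h1 := finrank_blocks
        (braidSp (VE (b :: bs)) (Sum.elim cl col : VT (b :: bs) → ℕ)
          (Sum.elim (fun a => Sum.elim 0 (braidVec b a)) (fun v => Sum.elim (u v) 0) :
            VT (b :: bs) → W ⊕ Fin (b - 1) → ℂ))
        (braidSp (VE bs) col u) (braidSp (fun _ _ : Fin b => True) cl (braidVec b))
        (fun B hB => hB.1) ?_ ?_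
      · have h2 := braid_one (cl := cl) hcard hf
        rw [hc, Fintype.card_fin] at h1
        have h3 : ∀ l, pairs (b :: l) = b.choose 2 + pairs l := fun l => by simp [pairs]
        have h4 : pairs (l ++ bs') = pairs l + pairs bs' := by simp [pairs]
        rw [h3, h4, choose_aux]
        have h5 : (b - 1 + 1).choose 2 = b.choose 2 := by
          rcases b with _ | b
          · simp
          · simp
        rw [h5]
        omega
      · intro B hB
        refine ⟨fun a a' => hB.1 _ _, fun v w hvw hne => ?_⟩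
        have h2 := hB.2 (Sum.inr v) (Sum.inr w) hvw hne
        rw [bil_inl, elim_sub_inl]
        exact h2
      · intro B hB
        refine ⟨fun a a' => hB.1 _ _, fun v w hvw hne => ?_⟩
        have h2 := hB.2 (Sum.inl v) (Sum.inl w) trivial hne
        rw [bil_inr, elim_sub_inr]
        exact h2

theorem Spl.dataB {bs' bs : List ℕ} {c : ℕ} (h : Spl 1 bs' bs c) :
    ∃ (ψ : VT bs' → VT bs) (col : VT bs → ℕ) (u : VT bs → Fin c → ℂ),
      Function.Injective ψ ∧
      (∀ v w, VE bs' v w → VE bs (ψ v) (ψ w) ∧ col (ψ v) = col (ψ w)) ∧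
      finrank ℂ (braidSp (VE bs) col u) + pairs bs ≤ (c + 1).choose 2 + pairs bs' := by
  obtain ⟨W, _, ψ, col, u, hc, hψ, hE, hd⟩ := dataB_aux h
  have e : W ≃ Fin c := Fintype.equivFinOfCardEq hc
  refine ⟨ψ, col, fun v a => u v (e.symm a), hψ, hE, le_trans (Nat.add_le_add_right ?_ _) hd⟩
  refine finrank_le_of_reindex e _ _ fun B hB => ⟨fun a b => hB.1 _ _, fun v w hvw hne => ?_⟩
  have h1 := hB.2 v w hvw hne
  rw [← bil_reindex e] at h1
  have e3 : (fun a => ((fun a => u v (e.symm a)) - fun a => u w (e.symm a)) (e a)) =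
      u v - u w := by
    funext a
    simp
  rw [e3] at h1
  exact h1

end H80T
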