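import Mathlib
import Pool.Agent.H80T.SplB

/-! QGOOD: the residual system at special parameters. -/

namespace H80T

open Module

/-- Restriction of a bilinear form that vanishes on the last coordinate and on a block. -/
theorem qgood_bil_restrict {j : ℕ} {K W : Type} [Fintype K] [Fintype W] (e : Fin j ≃ K ⊕ W)
    (B : Fin (j + 1) → Fin (j + 1) → ℂ) (hsym : ∀ a b, B a b = B b a)
    (hlast : ∀ b, B (Fin.last j) b = 0) (hK : ∀ k b, B (e.symm (.inl k)).castSucc b = 0)
    (X Y : Fin j → ℂ) (t t' : ℂ) :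
    bil B (Fin.snoc X t : Fin (j + 1) → ℂ) (Fin.snoc Y t' : Fin (j + 1) → ℂ) =
      bil (fun a b : W => B (e.symm (.inr a)).castSucc (e.symm (.inr b)).castSucc)
        (fun a => X (e.symm (.inr a))) (fun b => Y (e.symm (.inr b))) := by
  have hlast' : ∀ b, B b (Fin.last j) = 0 := fun b => by rw [hsym, hlast]
  have hK' : ∀ k b, B b (e.symm (.inl k)).castSucc = 0 := fun k b => by rw [hsym, hK]
  have h1 : ∀ f : Fin j → ℂ, ∑ a, f a = (∑ k, f (e.symm (.inl k))) + ∑ a, f (e.symm (.inr a)) := by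
    intro f
    rw [← Equiv.sum_comp e.symm, Fintype.sum_sum_type]
  unfold bil
  rw [Fin.sum_univ_castSucc]
  simp only [hlast, zero_mul, Finset.sum_const_zero, add_zero]
  rw [h1]
  have h2 : ∑ k, ∑ b, B (e.symm (.inl k)).castSucc b *
      ((Fin.snoc X t : Fin (j + 1) → ℂ) (e.symm (.inl k)).castSucc *
        (Fin.snoc Y t' : Fin (j + 1) → ℂ) b) = 0 := by
    simp only [hK, zero_mul, Finset.sum_const_zero]
  rw [h2, zero_add]
  refine Finset.sum_congr rfl fun a _ => ?_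
  rw [Fin.sum_univ_castSucc, hlast', zero_mul, add_zero, h1]
  simp only [hK', zero_mul, Finset.sum_const_zero, zero_add, Fin.snoc_castSucc]

theorem qgood_bil_inl {W₁ W₂ : Type} [Fintype W₁] [Fintype W₂] (B : W₁ ⊕ W₂ → W₁ ⊕ W₂ → ℂ)
    (x y : W₁ → ℂ) :
    bil B (Sum.elim x (fun _ => 0)) (Sum.elim y (fun _ => 0)) =
      bil (fun a b => B (.inl a) (.inl b)) x y := by
  unfold bil
  simp [Fintype.sum_sum_type]

theorem qgood_bil_inr {W₁ W₂ : Type} [Fintype W₁] [Fintype W₂] (B : W₁ ⊕ W₂ → W₁ ⊕ W₂ → ℂ)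
    (x y : W₂ → ℂ) :
    bil B (Sum.elim (fun _ => 0) x) (Sum.elim (fun _ => 0) y) =
      bil (fun a b => B (.inr a) (.inr b)) x y := by
  unfold bil
  simp [Fintype.sum_sum_type]

/-- The restriction of matrices to a subset of indices. -/
def qgood_res {X W : Type} (f : W → X) : (X → X → ℂ) →ₗ[ℂ] (W → W → ℂ) where
  toFun B a b := B (f a) (f b)
  map_add' _ _ := rfl
  map_smul' _ _ := rfl

/-- The space of symmetric matrices on three blocks. -/
def qgood_S {c₁ c₂ ρ : ℕ} (S₁ : Submodule ℂ (Fin c₁ → Fin c₁ → ℂ))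
    (S₂ : Submodule ℂ (Fin c₂ → Fin c₂ → ℂ)) :
    Submodule ℂ (Fin c₁ ⊕ (Fin c₂ ⊕ Fin ρ) → Fin c₁ ⊕ (Fin c₂ ⊕ Fin ρ) → ℂ) :=
  SM _ ⊓ (S₁.comap (qgood_res Sum.inl) ⊓ S₂.comap (qgood_res (Sum.inr ∘ Sum.inl)))

theorem qgood_finrank_S {c₁ c₂ ρ : ℕ} (S₁ : Submodule ℂ (Fin c₁ → Fin c₁ → ℂ))
    (S₂ : Submodule ℂ (Fin c₂ → Fin c₂ → ℂ)) :
    finrank ℂ (qgood_S (ρ := ρ) S₁ S₂) ≤ finrank ℂ S₁ + (finrank ℂ S₂ + (ρ + 1).choose 2 +
      c₂ * ρ) + c₁ * (c₂ + ρ) := by
  have h1 := finrank_blocks (qgood_S (ρ := ρ) S₁ S₂) S₁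
    (SM (Fin c₂ ⊕ Fin ρ) ⊓ S₂.comap (qgood_res Sum.inl))
    (fun B hB => hB.1) (fun B hB => hB.2.1) (fun B hB => ⟨fun a b => hB.1 _ _, hB.2.2⟩)
  have h2 := finrank_blocks (SM (Fin c₂ ⊕ Fin ρ) ⊓ S₂.comap (qgood_res Sum.inl)) S₂
    (SM (Fin ρ)) (fun B hB => hB.1) (fun B hB => hB.2) (fun B hB a b => hB.1 _ _)
  rw [finrank_SM] at h2
  simp only [Fintype.card_fin, Fintype.card_sum] at h1 h2
  omega

theorem qgood_choose (a b c : ℕ) :
    (a + 1).choose 2 + ((b + 1).choose 2 + (c + 1).choose 2 + b * c) + a * (b + c) =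
      (a + b + c + 1).choose 2 := by
  have h : ∀ m : ℕ, 2 * (m + 1).choose 2 = (m + 1) * m := by
    intro m
    have := Nat.triangle_succ m
    rw [Nat.choose_two_right, Nat.add_sub_cancel]
    exact Nat.mul_div_cancel' (by rw [mul_comm]; exact (Nat.even_mul_succ_self m).two_dvd)
  have h1 := h a
  have h2 := h b
  have h3 := h c
  have h4 := h (a + b + c)
  nlinarith

theorem qgood_of_spl {j x α s : ℕ} {bs' bs gs' gs : List ℕ} {c₁ c₂ : ℕ} (hα : 1 ≤ α)
    (hx : gs.sum ≤ x) (hc : c₁ + c₂ + α ≤ j + 1)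
    (hs : (j + 2 - α).choose 2 + pairs bs' + pairs gs' ≤ s + x + pairs bs + pairs gs)
    (col : VT bs → ℕ) (u : VT bs → Fin c₁ → ℂ)
    (hB : finrank ℂ (braidSp (VE bs) col u) + pairs bs ≤ (c₁ + 1).choose 2 + pairs bs')
    (colF : VT gs → ℕ) (act : VT gs → Prop) (u' : VT gs → Fin c₂ → ℂ)
    (hact : ∀ v w, VE gs v w → colF v ≠ colF w → act v ∧ act w)
    (hcard : Nat.card {v // act v} = c₂)
    (hG : finrank ℂ (pairSp (VE gs) colF act u') + c₂ + pairs gs ≤
      (c₂ + 1).choose 2 + pairs gs') :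
    QGood j (VT gs ⊕ Fin (x - gs.sum)) (Fin α) (VT bs)
      (fun v w => VE bs v w ∧ col v ≠ col w)
      (fun s t => liftR (Fin (x - gs.sum)) (VE gs) s t ∧
        Sum.elim colF (fun _ => 0) s ≠ Sum.elim colF (fun _ => 0) t) col s := by
  classical
  obtain ⟨ρ, hρ⟩ : ∃ ρ, j = (α - 1) + (c₁ + (c₂ + ρ)) := ⟨j - ((α - 1) + (c₁ + c₂)), by omega⟩
  -- the coordinates
  have e : Fin j ≃ Fin (α - 1) ⊕ (Fin c₁ ⊕ (Fin c₂ ⊕ Fin ρ)) :=
    Fintype.equivOfCardEq (by simp; exact hρ)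
  -- the general vectors
  obtain ⟨g, S', hS', hfin⟩ := exists_general
    (qgood_S (ρ := ρ) (braidSp (VE bs) col u) (pairSp (VE gs) colF act u'))
    (fun B hB => hB.1) (Fintype.card ({v : VT gs // ¬ act v} ⊕ Fin (x - gs.sum)))
  have eN := Fintype.equivFin ({v : VT gs // ¬ act v} ⊕ Fin (x - gs.sum))
  have hcardN : Fintype.card ({v : VT gs // ¬ act v} ⊕ Fin (x - gs.sum)) + c₂ = x := by
    have h1 : Fintype.card {v : VT gs // act v} + Fintype.card {v : VT gs // ¬ act v} =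
        gs.sum := by
      rw [← Fintype.card_sum, Fintype.card_congr (Equiv.sumCompl act), card_VT]
    rw [Nat.card_eq_fintype_card] at hcard
    rw [Fintype.card_sum, Fintype.card_fin]
    omega
  -- the parameters
  let h : Fin α → Fin j → ℂ := fun o i =>
    Sum.elim (fun k : Fin (α - 1) => if k.val + 1 = o.val then 1 else 0) (fun _ => 0) (e i)
  let H : VT bs → Fin j → ℂ := fun v i =>
    Sum.elim (fun _ => 0) (Sum.elim (u v) (fun _ => 0)) (e i)
  let P : VT gs ⊕ Fin (x - gs.sum) → Fin j → ℂ := fun s i =>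
    Sum.elim (fun _ => 0)
      (Sum.elim (fun v => if hv : act v then
          Sum.elim (fun _ => 0) (Sum.elim (u' v) (fun _ => 0))
        else g (eN (.inl ⟨v, hv⟩))) (fun k => g (eN (.inr k))) s :
          Fin c₁ ⊕ (Fin c₂ ⊕ Fin ρ) → ℂ) (e i)
  refine ⟨h, P, H, ?_⟩
  -- properties of the forms of the system
  have hprop : ∀ B, InQS (fun v w => VE bs v w ∧ col v ≠ col w)
      (fun s t => liftR (Fin (x - gs.sum)) (VE gs) s t ∧
        Sum.elim colF (fun _ => 0) s ≠ Sum.elim colF (fun _ => 0) t) col h P H B →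
      (∀ b, B (Fin.last j) b = 0) ∧ (∀ k b, B (e.symm (.inl k)).castSucc b = 0) := by
    intro B hB
    have hl : ∀ b, B (Fin.last j) b = 0 := by
      intro b
      have h1 := hB.van ⟨0, hα⟩ (Pi.single b 1)
      have h2 : h ⟨0, hα⟩ = fun _ => 0 := by
        funext i
        simp only [h]
        rcases e i with k | w
        · simp
        · simp
      rw [h2] at h1
      unfold bil at h1
      rw [Fin.sum_univ_castSucc] at h1
      simpa [Pi.single_apply] using h1
    refine ⟨hl, ?_⟩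
    intro k b
    have hk : k.val + 1 < α := by have := k.2; omega
    have h1 := hB.van ⟨k.val + 1, hk⟩ (Pi.single b 1)
    have h2 : h ⟨k.val + 1, hk⟩ = Pi.single (e.symm (.inl k)) 1 := by
      funext i
      by_cases hi : i = e.symm (.inl k)
      · subst hi
        simp [h]
      · have hi' : e i ≠ .inl k := fun h' => hi (by rw [← h', Equiv.symm_apply_apply])
        rw [Pi.single_eq_of_ne hi]
        simp only [h]
        rcases hei : e i with k' | w
        · have hkk : k' ≠ k := fun h' => hi' (by rw [hei, h'])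
          have : k'.val ≠ k.val := fun h' => hkk (Fin.ext h')
          simp [this]
        · simp
    rw [h2] at h1
    unfold bil at h1
    rw [Fin.sum_univ_castSucc] at h1
    simpa [Pi.single_apply, hl] using h1
  have hsnoc : ∀ (X Y : Fin j → ℂ) (t t' : ℂ),
      (Fin.snoc X t - Fin.snoc Y t' : Fin (j + 1) → ℂ) = Fin.snoc (X - Y) (t - t') := by
    intro X Y t t'
    funext i
    refine Fin.lastCases ?_ (fun i => ?_) i
    · simp
    · simp
  have hHe : ∀ v w, (fun a => (H v - H w) (e.symm (.inr a))) =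
      Sum.elim (u v - u w) (fun _ : Fin c₂ ⊕ Fin ρ => 0) := by
    intro v w
    funext a
    simp only [Pi.sub_apply, H, Equiv.apply_symm_apply, Sum.elim_inr]
    rcases a with a | a <;> simp
  have hPa : ∀ v, act v → (fun a => P (.inl v) (e.symm (.inr a))) =
      Sum.elim (fun _ => 0) (Sum.elim (u' v) (fun _ => 0)) := by
    intro v hv
    funext a
    simp only [P, Equiv.apply_symm_apply, Sum.elim_inr, Sum.elim_inl, dif_pos hv]
  have hPn : ∀ v (hv : ¬ act v), (fun a => P (.inl v) (e.symm (.inr a))) =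
      g (eN (.inl ⟨v, hv⟩)) := by
    intro v hv
    funext a
    simp only [P, Equiv.apply_symm_apply, Sum.elim_inr, Sum.elim_inl, dif_neg hv]
  have hPr : ∀ k, (fun a => P (.inr k) (e.symm (.inr a))) = g (eN (.inr k)) := by
    intro k
    funext a
    simp only [P, Equiv.apply_symm_apply, Sum.elim_inr]
  let Φ : (Fin (j + 1) → Fin (j + 1) → ℂ) →ₗ[ℂ]
      (Fin c₁ ⊕ (Fin c₂ ⊕ Fin ρ) → Fin c₁ ⊕ (Fin c₂ ⊕ Fin ρ) → ℂ) :=
    qgood_res (fun a => (e.symm (.inr a)).castSucc)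
  have hmem : ∀ B, B ∈ QS (fun v w => VE bs v w ∧ col v ≠ col w)
      (fun s t => liftR (Fin (x - gs.sum)) (VE gs) s t ∧
        Sum.elim colF (fun _ => 0) s ≠ Sum.elim colF (fun _ => 0) t) col h P H → Φ B ∈ S' := by
    intro B hB
    have hB' : InQS (fun v w => VE bs v w ∧ col v ≠ col w)
      (fun s t => liftR (Fin (x - gs.sum)) (VE gs) s t ∧
        Sum.elim colF (fun _ => 0) s ≠ Sum.elim colF (fun _ => 0) t) col h P H B := hB
    obtain ⟨hl, hk⟩ := hprop B hB'
    have hres := qgood_bil_restrict e B hB'.sym hl hk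
    refine (hS' (Φ B)).2 ⟨⟨fun a b => hB'.sym _ _, ⟨fun a b => hB'.sym _ _, ?_⟩,
      ⟨fun a b => hB'.sym _ _, ?_, ?_⟩⟩, ?_⟩
    · intro v w hvw hcol
      have h1 := hB'.brd v w ⟨hvw, hcol⟩
      rw [hsnoc, hres, hHe, qgood_bil_inl] at h1
      exact h1
    · intro v hv
      have h1 := hB'.dbl (.inl v)
      rw [hres, hPa v hv, qgood_bil_inr, qgood_bil_inl] at h1
      exact h1
    · intro v w hvw hcol
      have h1 := hB'.par (.inl v) (.inl w) ⟨hvw, hcol⟩
      obtain ⟨hv, hw⟩ := hact v w hvw hcol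
      rw [hres, hPa v hv, hPa w hw, qgood_bil_inr, qgood_bil_inl] at h1
      exact h1
    · intro i
      obtain ⟨y, rfl⟩ := eN.surjective i
      rcases y with ⟨v, hv⟩ | k
      · have h1 := hB'.dbl (.inl v)
        rw [hres, hPn v hv] at h1
        exact h1
      · have h1 := hB'.dbl (.inr k)
        rw [hres, hPr k] at h1
        exact h1
  have hinj : ∀ B, B ∈ QS (fun v w => VE bs v w ∧ col v ≠ col w)
      (fun s t => liftR (Fin (x - gs.sum)) (VE gs) s t ∧
        Sum.elim colF (fun _ => 0) s ≠ Sum.elim colF (fun _ => 0) t) col h P H →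
      Φ B = 0 → B = 0 := by
    intro B hB h0
    have hB' : InQS (fun v w => VE bs v w ∧ col v ≠ col w)
      (fun s t => liftR (Fin (x - gs.sum)) (VE gs) s t ∧
        Sum.elim colF (fun _ => 0) s ≠ Sum.elim colF (fun _ => 0) t) col h P H B := hB
    obtain ⟨hl, hk⟩ := hprop B hB'
    have hrow : ∀ a b, (a = Fin.last j ∨ ∃ k, a = (e.symm (.inl k)).castSucc) → B a b = 0 := by
      rintro a b (rfl | ⟨k, rfl⟩)
      · exact hl b
      · exact hk k b
    have hcase : ∀ a : Fin (j + 1), (a = Fin.last j ∨ ∃ k, a = (e.symm (.inl k)).castSucc) ∨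
        ∃ w, a = (e.symm (.inr w)).castSucc := by
      intro a
      refine Fin.lastCases (Or.inl (Or.inl rfl)) (fun i => ?_) a
      rcases hi : e i with k | w
      · exact Or.inl (Or.inr ⟨k, by rw [← hi, Equiv.symm_apply_apply]⟩)
      · exact Or.inr ⟨w, by rw [← hi, Equiv.symm_apply_apply]⟩
    funext a b
    rcases hcase a with ha | ⟨w, rfl⟩
    · exact hrow a b ha
    · rcases hcase b with hb | ⟨w', rfl⟩
      · rw [hB'.sym]; exact hrow b _ hb
      · exact congrFun (congrFun h0 w) w'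
  let Ψ : QS (fun v w => VE bs v w ∧ col v ≠ col w)
      (fun s t => liftR (Fin (x - gs.sum)) (VE gs) s t ∧
        Sum.elim colF (fun _ => 0) s ≠ Sum.elim colF (fun _ => 0) t) col h P H →ₗ[ℂ] S' :=
    (Φ.domRestrict _).codRestrict S' (fun B => hmem B.1 B.2)
  have hΨ : Function.Injective Ψ := by
    rw [← LinearMap.ker_eq_bot, LinearMap.ker_eq_bot']
    intro B hB0
    have h1 : Φ B.1 = 0 := congrArg Subtype.val hB0
    exact Subtype.ext (hinj B.1 B.2 h1)
  have hle := LinearMap.finrank_le_finrank_of_injective hΨ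
  refine hle.trans (hfin.trans ?_)
  have h1 := qgood_finrank_S (ρ := ρ) (braidSp (VE bs) col u) (pairSp (VE gs) colF act u')
  have h2 := qgood_choose c₁ c₂ ρ
  have h3 : c₁ + c₂ + ρ + 1 = j + 2 - α := by omega
  rw [h3] at h2
  omega

end H80T
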