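import Mathlib
import Pool.Agent.H80T.SymD
import Pool.Agent.H80T.SplB

/-! SPLG: splitting of pair classes. -/

namespace H80T

open Module

private theorem bil_single {b : ℕ} (B : Fin b → Fin b → ℂ) (i j : Fin b) :
    bil B (Pi.single i 1) (Pi.single j 1) = B i j := by
  simp [bil, Pi.single_apply, Finset.sum_ite_eq']

private theorem pair_one {l : List ℕ} {b : ℕ} {cl : Fin b → ℕ} {ι : Type} [Fintype ι]
    {f : ι → Fin b × Fin b} (hc : Fintype.card ι = pairs l)
    (hf : ∀ a a', a ≠ a' → cl a = cl a' → ∃ i, f i = (a, a') ∨ f i = (a', a)) :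
    finrank ℂ (pairSp (fun _ _ : Fin b => True) cl (fun _ => True)
      (fun a : Fin b => (Pi.single a 1 : Fin b → ℂ))) ≤ pairs l := by
  have h := finrank_le_add_card (pairSp (fun _ _ : Fin b => True) cl (fun _ => True)
      (fun a : Fin b => (Pi.single a 1 : Fin b → ℂ))) ⊥
    (fun i => bilL (Pi.single (f i).1 1) (Pi.single (f i).2 1)) ?_
  · rw [finrank_bot, zero_add, hc] at h
    exact h
  · intro B hB h0
    rw [Submodule.mem_bot]
    obtain ⟨hs, hd, hp⟩ := hB
    have h00 : ∀ i, B (f i).1 (f i).2 = 0 := by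
      intro i
      have h1 : bil B (Pi.single (f i).1 1) (Pi.single (f i).2 1) = 0 := h0 i
      rw [bil_single] at h1
      exact h1
    funext a a'
    by_cases hne : a = a'
    · subst hne
      have h1 := hd a trivial
      rw [bil_single] at h1
      exact h1
    · by_cases hcl : cl a = cl a'
      · obtain ⟨i, hi | hi⟩ := hf a a' hne hcl
        · have := h00 i
          rw [hi] at this
          exact this
        · have := h00 i
          rw [hi] at this
          have h2 : B a' a = 0 := this
          rw [hs a a', h2]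
          rfl
      · have h1 := hp a a' trivial hcl
        rw [bil_single] at h1
        exact h1

private theorem choose_aux (c b : ℕ) :
    (c + b + 1).choose 2 = (c + 1).choose 2 + (b.choose 2 + b) + c * b := by
  have h1 : ∀ x : ℕ, (x + 1).choose 2 * 2 = (x + 1) * x := by
    intro x
    rw [Nat.choose_two_right]
    have h2 : Even ((x + 1) * x) := by
      rw [mul_comm]
      exact Nat.even_mul_succ_self x
    simpa using Nat.div_mul_cancel h2.two_dvd
  have h2 : (b + 1).choose 2 = b.choose 2 + b := by
    rw [Nat.choose_succ_succ' b 1, Nat.choose_one_right, add_comm]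
  have e1 := h1 (c + b)
  have e2 := h1 c
  have e3 := h1 b
  rw [← h2]
  nlinarith

private theorem card_act (b : ℕ) (bs : List ℕ) (q : Fin b → Prop) (act : VT bs → Prop) :
    Nat.card {v : VT (b :: bs) // (Sum.elim q act : VT (b :: bs) → Prop) v} =
      Nat.card {a // q a} + Nat.card {v // act v} := by
  have e : {v : VT (b :: bs) // (Sum.elim q act : VT (b :: bs) → Prop) v} ≃
      {a // q a} ⊕ {v // act v} := Equiv.subtypeSum
  have : Finite (VT bs) := Finite.of_fintype _
  rw [Nat.card_congr e, Nat.card_sum]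

private theorem dataG_aux {gs' gs : List ℕ} {c : ℕ} (h : Spl 0 gs' gs c) :
    ∃ (W : Type) (_ : Fintype W) (ψ : VT gs' → VT gs) (col : VT gs → ℕ) (act : VT gs → Prop)
      (u : VT gs → W → ℂ),
      Fintype.card W = c ∧ Function.Injective ψ ∧
      (∀ v w, VE gs' v w → VE gs (ψ v) (ψ w) ∧ col (ψ v) = col (ψ w)) ∧
      (∀ v w, VE gs v w → col v ≠ col w → act v ∧ act w) ∧
      Nat.card {v // act v} = c ∧
      finrank ℂ (pairSp (VE gs) col act u) + c + pairs gs ≤ (c + 1).choose 2 + pairs gs' := by
  classical
  induction h with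
  | nil =>
    refine ⟨Empty, inferInstance, id, fun _ => 0, fun _ => False, fun _ _ => 0, by simp,
      Function.injective_id, fun v => Empty.elim v, fun v => Empty.elim v, by simp, ?_⟩
    have : Subsingleton (pairSp (VE []) (fun _ => 0) (fun _ => False)
        (fun (_ : VT []) (_ : Empty) => (0 : ℂ))) :=
      ⟨fun x y => Subtype.ext (funext fun a => Empty.elim a)⟩
    rw [finrank_zero_of_subsingleton]
    simp
  | @keep b gs' gs c h ih =>
    obtain ⟨W, _, ψ, col, act, u, hc, hψ, hE, hact, hcard, hd⟩ := ih
    refine ⟨W, inferInstance, Sum.map id ψ, Sum.elim (fun _ => 0) col,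
      Sum.elim (fun _ => False) act,
      Sum.elim (fun _ => 0) u, hc, Sum.map_injective.2 ⟨Function.injective_id, hψ⟩, ?_, ?_, ?_, ?_⟩
    · rintro (v | v) (w | w) hvw
      · exact ⟨trivial, rfl⟩
      · exact absurd hvw (by simp [VE])
      · exact absurd hvw (by simp [VE])
      · exact hE v w hvw
    · rintro (v | v) (w | w) hvw hne
      · exact absurd rfl hne
      · exact absurd hvw (by simp [VE])
      · exact absurd hvw (by simp [VE])
      · exact hact v w hvw hne
    · have := card_act b gs (fun _ => False) act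
      rw [hcard] at this
      refine this.trans ?_
      simp
    · have h1 : pairSp (VE (b :: gs)) (Sum.elim (fun _ => 0) col : VT (b :: gs) → ℕ)
          (Sum.elim (fun _ => False) act : VT (b :: gs) → Prop)
          (Sum.elim (fun _ => 0) u : VT (b :: gs) → W → ℂ) ≤ pairSp (VE gs) col act u := by
        intro B hB
        exact ⟨hB.1, fun v hv => hB.2.1 (Sum.inr v) hv,
          fun v w hvw hne => hB.2.2 (Sum.inr v) (Sum.inr w) hvw hne⟩
      have h2 := Submodule.finrank_mono h1
      have h3 : ∀ l, pairs (b :: l) = b.choose 2 + pairs l := fun l => by simp [pairs]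
      rw [h3, h3]
      omega
  | @split l b hl gs' gs c h ih =>
    obtain ⟨W, _, ψ, col, act, u, hc, hψ, hE, hact, hcard', hd⟩ := ih
    obtain ⟨e, cl, ι, _, f, he, hecl, hcard, hf⟩ := spl_one l b hl
    obtain ⟨φ, hφ, hφE⟩ := exists_vtApp l gs'
    refine ⟨W ⊕ Fin b, inferInstance, fun v => Sum.map e ψ (φ v),
      Sum.elim cl col, Sum.elim (fun _ => True) act,
      Sum.elim (fun a => Sum.elim 0 (Pi.single a 1)) (fun v => Sum.elim (u v) 0),
      by simp [hc], (Sum.map_injective.2 ⟨he, hψ⟩).comp hφ, ?_, ?_, ?_, ?_⟩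
    · intro v w hvw
      rcases hφE v w hvw with ⟨x, y, hx, hy, hxy⟩ | ⟨x, y, hx, hy, hxy⟩
      · have gen : ∀ p q : Fin b ⊕ VT gs, p = .inl (e x) → q = .inl (e y) →
            VE (b :: gs) p q ∧ Sum.elim cl col p = Sum.elim cl col q := by
          rintro _ _ rfl rfl
          exact ⟨trivial, hecl x y hxy⟩
        have e1 : Sum.map e ψ (φ v) = Sum.inl (e x) := by rw [hx]; rfl
        have e2 : Sum.map e ψ (φ w) = Sum.inl (e y) := by rw [hy]; rfl
        exact gen _ _ e1 e2
      · have gen : ∀ p q : Fin b ⊕ VT gs, p = .inr (ψ x) → q = .inr (ψ y) →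
            VE (b :: gs) p q ∧ Sum.elim cl col p = Sum.elim cl col q := by
          rintro _ _ rfl rfl
          exact hE x y hxy
        have e1 : Sum.map e ψ (φ v) = Sum.inr (ψ x) := by rw [hx]; rfl
        have e2 : Sum.map e ψ (φ w) = Sum.inr (ψ y) := by rw [hy]; rfl
        exact gen _ _ e1 e2
    · rintro (v | v) (w | w) hvw hne
      · exact ⟨trivial, trivial⟩
      · exact absurd hvw (by simp [VE])
      · exact absurd hvw (by simp [VE])
      · exact hact v w hvw hne
    · have := card_act b gs (fun _ => True) act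
      rw [hcard'] at this
      refine this.trans ?_
      have h1 : Nat.card {_a : Fin b // True} = b := by
        rw [Nat.card_congr (Equiv.subtypeUnivEquiv fun _ => trivial)]
        simp
      rw [h1]
      omega
    · have h1 := finrank_blocks
        (pairSp (VE (b :: gs)) (Sum.elim cl col : VT (b :: gs) → ℕ)
          (Sum.elim (fun _ => True) act : VT (b :: gs) → Prop)
          (Sum.elim (fun a => Sum.elim 0 (Pi.single a 1)) (fun v => Sum.elim (u v) 0) :
            VT (b :: gs) → W ⊕ Fin b → ℂ))
        (pairSp (VE gs) col act u) (pairSp (fun _ _ : Fin b => True) cl (fun _ => True)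
          (fun a : Fin b => (Pi.single a 1 : Fin b → ℂ)))
        (fun B hB => hB.1) ?_ ?_
      · have h2 := pair_one (cl := cl) hcard hf
        rw [hc, Fintype.card_fin] at h1
        have h3 : ∀ l, pairs (b :: l) = b.choose 2 + pairs l := fun l => by simp [pairs]
        have h4 : pairs (l ++ gs') = pairs l + pairs gs' := by simp [pairs]
        rw [h3, h4, Nat.sub_zero, choose_aux]
        omega
      · intro B hB
        refine ⟨fun a a' => hB.1 _ _, fun v hv => ?_, fun v w hvw hne => ?_⟩
        · have h2 := hB.2.1 (Sum.inr v) hv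
          rw [bil_inl]
          exact h2
        · have h2 := hB.2.2 (Sum.inr v) (Sum.inr w) hvw hne
          rw [bil_inl]
          exact h2
      · intro B hB
        refine ⟨fun a a' => hB.1 _ _, fun v hv => ?_, fun v w hvw hne => ?_⟩
        · have h2 := hB.2.1 (Sum.inl v) trivial
          rw [bil_inr]
          exact h2
        · have h2 := hB.2.2 (Sum.inl v) (Sum.inl w) trivial hne
          rw [bil_inr]
          exact h2

theorem Spl.dataG {gs' gs : List ℕ} {c : ℕ} (h : Spl 0 gs' gs c) :
    ∃ (ψ : VT gs' → VT gs) (col : VT gs → ℕ) (act : VT gs → Prop) (u : VT gs → Fin c → ℂ),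
      Function.Injective ψ ∧
      (∀ v w, VE gs' v w → VE gs (ψ v) (ψ w) ∧ col (ψ v) = col (ψ w)) ∧
      (∀ v w, VE gs v w → col v ≠ col w → act v ∧ act w) ∧
      Nat.card {v // act v} = c ∧
      finrank ℂ (pairSp (VE gs) col act u) + c + pairs gs ≤ (c + 1).choose 2 + pairs gs' := by
  obtain ⟨W, _, ψ, col, act, u, hc, hψ, hE, hact, hcard, hd⟩ := dataG_aux h
  have e : W ≃ Fin c := Fintype.equivFinOfCardEq hc
  refine ⟨ψ, col, act, fun v a => u v (e.symm a), hψ, hE, hact, hcard,
    le_trans (Nat.add_le_add_right (Nat.add_le_add_right ?_ _) _) hd⟩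
  have e3 : ∀ v, (fun a => (fun a => u v (e.symm a)) (e a)) = u v := by
    intro v
    funext a
    simp
  refine finrank_le_of_reindex e _ _ fun B hB => ⟨fun a b => hB.1 _ _, fun v hv => ?_,
    fun v w hvw hne => ?_⟩
  · have h1 := hB.2.1 v hv
    rw [← bil_reindex e, e3] at h1
    exact h1
  · have h1 := hB.2.2 v w hvw hne
    rw [← bil_reindex e, e3, e3] at h1
    exact h1

end H80T
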