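import Mathlib
import Pool.Agent.H80T.Gen
import Pool.Agent.H80R.Deriv

/-! STEP: the flag step on graphs. -/

namespace H80T

open MvPolynomial Module

/-! ### elementary identities for `tri` and `bil` -/

theorem tri_add1 {j : ℕ} (A : Fin j → Fin j → Fin j → ℂ) (u u' v w : Fin j → ℂ) :
    tri A (u + u') v w = tri A u v w + tri A u' v w := by
  simp only [tri, Pi.add_apply, ← Finset.sum_add_distrib]
  refine Finset.sum_congr rfl fun a _ => Finset.sum_congr rfl fun b _ =>
    Finset.sum_congr rfl fun c _ => ?_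
  ring

theorem tri_add2 {j : ℕ} (A : Fin j → Fin j → Fin j → ℂ) (u v v' w : Fin j → ℂ) :
    tri A u (v + v') w = tri A u v w + tri A u v' w := by
  simp only [tri, Pi.add_apply, ← Finset.sum_add_distrib]
  refine Finset.sum_congr rfl fun a _ => Finset.sum_congr rfl fun b _ =>
    Finset.sum_congr rfl fun c _ => ?_
  ring

theorem tri_add3 {j : ℕ} (A : Fin j → Fin j → Fin j → ℂ) (u v w w' : Fin j → ℂ) :
    tri A u v (w + w') = tri A u v w + tri A u v w' := by
  simp only [tri, Pi.add_apply, ← Finset.sum_add_distrib]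
  refine Finset.sum_congr rfl fun a _ => Finset.sum_congr rfl fun b _ =>
    Finset.sum_congr rfl fun c _ => ?_
  ring

theorem tri_sub1 {j : ℕ} (A : Fin j → Fin j → Fin j → ℂ) (u u' v w : Fin j → ℂ) :
    tri A (u - u') v w = tri A u v w - tri A u' v w := by
  have h := tri_add1 A (u - u') u' v w
  rw [sub_add_cancel] at h
  rw [h]; ring

theorem tri_sub2 {j : ℕ} (A : Fin j → Fin j → Fin j → ℂ) (u v v' w : Fin j → ℂ) :
    tri A u (v - v') w = tri A u v w - tri A u v' w := by
  have h := tri_add2 A u (v - v') v' w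
  rw [sub_add_cancel] at h
  rw [h]; ring

theorem tri_sub3 {j : ℕ} (A : Fin j → Fin j → Fin j → ℂ) (u v w w' : Fin j → ℂ) :
    tri A u v (w - w') = tri A u v w - tri A u v w' := by
  have h := tri_add3 A u v (w - w') w'
  rw [sub_add_cancel] at h
  rw [h]; ring

theorem Sym3.tri12 {j : ℕ} {A : Fin j → Fin j → Fin j → ℂ} (hA : Sym3 A) (u v w : Fin j → ℂ) :
    tri A u v w = tri A v u w := by
  unfold tri
  rw [Finset.sum_comm]
  refine Finset.sum_congr rfl fun a _ => Finset.sum_congr rfl fun b _ =>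
    Finset.sum_congr rfl fun c _ => ?_
  rw [hA.1 b a c]; ring

theorem Sym3.tri23 {j : ℕ} {A : Fin j → Fin j → Fin j → ℂ} (hA : Sym3 A) (u v w : Fin j → ℂ) :
    tri A u v w = tri A u w v := by
  unfold tri
  refine Finset.sum_congr rfl fun a _ => ?_
  rw [Finset.sum_comm]
  refine Finset.sum_congr rfl fun b _ => Finset.sum_congr rfl fun c _ => ?_
  rw [hA.2 a c b]; ring

/-- the restriction of a cubic form to the first `j` coordinates -/
def resT (j : ℕ) : (Fin (j + 1) → Fin (j + 1) → Fin (j + 1) → ℂ) →ₗ[ℂ]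
    (Fin j → Fin j → Fin j → ℂ) where
  toFun A := fun a b c => A a.castSucc b.castSucc c.castSucc
  map_add' _ _ := rfl
  map_smul' _ _ := rfl

theorem tri_resT {j : ℕ} (A : Fin (j + 1) → Fin (j + 1) → Fin (j + 1) → ℂ)
    (u v w : Fin j → ℂ) :
    tri (resT j A) u v w = tri A (Fin.snoc u 0) (Fin.snoc v 0) (Fin.snoc w 0) := by
  simp [tri, resT, Fin.sum_univ_castSucc]

/-- the residual factor -/
noncomputable def kap {j : ℕ} (b c : Fin (j + 1)) : ℂ :=
  if b = Fin.last j then (if c = Fin.last j then 1 / 3 else 1 / 2)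
  else (if c = Fin.last j then 1 / 2 else 1)

/-- the residual quadratic form -/
noncomputable def resB (j : ℕ) : (Fin (j + 1) → Fin (j + 1) → Fin (j + 1) → ℂ) →ₗ[ℂ]
    (Fin (j + 1) → Fin (j + 1) → ℂ) where
  toFun A := fun b c => A (Fin.last j) b c * kap b c
  map_add' A B := by
    ext b c
    simp only [Pi.add_apply]
    ring
  map_smul' t A := by
    ext b c
    simp only [Pi.smul_apply, smul_eq_mul, RingHom.id_apply]
    ring

theorem kap_symm {j : ℕ} (b c : Fin (j + 1)) : kap b c = kap c b := by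
  unfold kap
  split_ifs <;> rfl

theorem resB_symm {j : ℕ} {A : Fin (j + 1) → Fin (j + 1) → Fin (j + 1) → ℂ} (hA : Sym3 A)
    (b c : Fin (j + 1)) : resB j A b c = resB j A c b := by
  show A (Fin.last j) b c * kap b c = A (Fin.last j) c b * kap c b
  rw [hA.2 _ b c, kap_symm]

/-- indicator of the last coordinate -/
noncomputable def xl {j : ℕ} (a : Fin (j + 1)) : ℂ := if a = Fin.last j then 1 else 0

theorem entry_eq {j : ℕ} {A : Fin (j + 1) → Fin (j + 1) → Fin (j + 1) → ℂ} (hA : Sym3 A)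
    (h0 : resT j A = 0) (a b c : Fin (j + 1)) :
    A a b c = xl a * resB j A b c + xl b * resB j A a c + xl c * resB j A a b := by
  have hres : ∀ a b c : Fin j, A a.castSucc b.castSucc c.castSucc = 0 := fun a b c =>
    congrFun (congrFun (congrFun h0 a) b) c
  have hne : ∀ a : Fin j, a.castSucc ≠ Fin.last j := fun a => (Fin.castSucc_lt_last a).ne
  show A a b c = xl a * (A (Fin.last j) b c * kap b c) + xl b * (A (Fin.last j) a c * kap a c) +
    xl c * (A (Fin.last j) a b * kap a b)
  refine Fin.lastCases ?_ (fun a => ?_) a <;> refine Fin.lastCases ?_ (fun b => ?_) b <;>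
    refine Fin.lastCases ?_ (fun c => ?_) c
  · simp [xl, kap]; ring
  · simp [xl, kap, hne]; ring
  · simp only [xl, kap, hne, if_true, if_false]
    rw [hA.2 (Fin.last j) b.castSucc (Fin.last j)]; ring
  · simp only [xl, kap, hne, if_true, if_false]; ring
  · simp only [xl, kap, hne, if_true, if_false]
    rw [hA.1 a.castSucc (Fin.last j) (Fin.last j), hA.2 (Fin.last j) a.castSucc (Fin.last j)]; ring
  · simp only [xl, kap, hne, if_true, if_false]
    rw [hA.1 a.castSucc (Fin.last j) c.castSucc]; ring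
  · simp only [xl, kap, hne, if_true, if_false]
    rw [hA.2 a.castSucc b.castSucc (Fin.last j), hA.1 a.castSucc (Fin.last j) b.castSucc]; ring
  · simp only [xl, kap, hne, if_false]
    rw [hres]; ring

theorem tri_eq_bil {j : ℕ} {A : Fin (j + 1) → Fin (j + 1) → Fin (j + 1) → ℂ} (hA : Sym3 A)
    (h0 : resT j A = 0) (u v w : Fin (j + 1) → ℂ) :
    tri A u v w = u (Fin.last j) * bil (resB j A) v w + v (Fin.last j) * bil (resB j A) u w +
      w (Fin.last j) * bil (resB j A) u v := by
  set B := resB j A with hB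
  have e1 : ∑ a, ∑ b, ∑ c, (xl a * B b c) * (u a * v b * w c) =
      u (Fin.last j) * bil B v w := by
    unfold bil
    rw [Finset.sum_eq_single (Fin.last j)]
    · rw [Finset.mul_sum]
      refine Finset.sum_congr rfl fun b _ => ?_
      rw [Finset.mul_sum]
      refine Finset.sum_congr rfl fun c _ => ?_
      simp only [xl, if_true]; ring
    · intro a _ ha
      refine Finset.sum_eq_zero fun b _ => Finset.sum_eq_zero fun c _ => ?_
      simp only [xl, ha, if_false]; ring
    · intro h; exact absurd (Finset.mem_univ _) h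
  have e2 : ∑ a, ∑ b, ∑ c, (xl b * B a c) * (u a * v b * w c) =
      v (Fin.last j) * bil B u w := by
    unfold bil
    rw [Finset.mul_sum]
    refine Finset.sum_congr rfl fun a _ => ?_
    rw [Finset.sum_eq_single (Fin.last j)]
    · rw [Finset.mul_sum]
      refine Finset.sum_congr rfl fun c _ => ?_
      simp only [xl, if_true]; ring
    · intro b _ hb
      refine Finset.sum_eq_zero fun c _ => ?_
      simp only [xl, hb, if_false]; ring
    · intro h; exact absurd (Finset.mem_univ _) h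
  have e3 : ∑ a, ∑ b, ∑ c, (xl c * B a b) * (u a * v b * w c) =
      w (Fin.last j) * bil B u v := by
    unfold bil
    rw [Finset.mul_sum]
    refine Finset.sum_congr rfl fun a _ => ?_
    rw [Finset.mul_sum]
    refine Finset.sum_congr rfl fun b _ => ?_
    rw [Finset.sum_eq_single (Fin.last j)]
    · simp only [xl, if_true]; ring
    · intro c _ hc
      simp only [xl, hc, if_false]; ring
    · intro h; exact absurd (Finset.mem_univ _) h
  rw [← e1, ← e2, ← e3, ← Finset.sum_add_distrib, ← Finset.sum_add_distrib]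
  unfold tri
  refine Finset.sum_congr rfl fun a _ => ?_
  rw [← Finset.sum_add_distrib, ← Finset.sum_add_distrib]
  refine Finset.sum_congr rfl fun b _ => ?_
  rw [← Finset.sum_add_distrib, ← Finset.sum_add_distrib]
  refine Finset.sum_congr rfl fun c _ => ?_
  rw [entry_eq hA h0 a b c]
  ring

theorem bil_symm {j : ℕ} {B : Fin j → Fin j → ℂ} (hB : ∀ a b, B a b = B b a)
    (u v : Fin j → ℂ) : bil B u v = bil B v u := by
  unfold bil
  rw [Finset.sum_comm]
  refine Finset.sum_congr rfl fun a _ => Finset.sum_congr rfl fun b _ => ?_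
  rw [hB b a]; ring

/-- dimension count: restriction and kernel -/
theorem finrank_step {j d d' : ℕ} (S : Submodule ℂ (Fin (j + 1) → Fin (j + 1) → Fin (j + 1) → ℂ))
    (T : Submodule ℂ (Fin j → Fin j → Fin j → ℂ)) (Q : Submodule ℂ (Fin (j + 1) → Fin (j + 1) → ℂ))
    (hS : ∀ A ∈ S, Sym3 A) (h1 : ∀ A ∈ S, resT j A ∈ T)
    (h2 : ∀ A ∈ S, resT j A = 0 → resB j A ∈ Q) (hT : finrank ℂ T ≤ d) (hQ : finrank ℂ Q ≤ d') :
    finrank ℂ S ≤ d + d' := by
  let ρ : S →ₗ[ℂ] (Fin j → Fin j → Fin j → ℂ) := (resT j).comp S.subtype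
  have hr : LinearMap.range ρ ≤ T := by
    rintro _ ⟨A, rfl⟩
    exact h1 A.1 A.2
  let g : LinearMap.ker ρ →ₗ[ℂ] Q :=
    LinearMap.codRestrict Q (((resB j).comp S.subtype).comp (LinearMap.ker ρ).subtype) (fun A =>
      h2 A.1.1 A.1.2 (LinearMap.mem_ker.mp A.2))
  have hg : Function.Injective g := by
    intro A B hAB
    have hA0 : resB j A.1.1 = resB j B.1.1 := congrArg Subtype.val hAB
    have hA1 : resT j A.1.1 = 0 := LinearMap.mem_ker.mp A.2
    have hB1 : resT j B.1.1 = 0 := LinearMap.mem_ker.mp B.2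
    refine Subtype.ext (Subtype.ext ?_)
    funext a b c
    rw [entry_eq (hS _ A.1.2) hA1 a b c, entry_eq (hS _ B.1.2) hB1 a b c, hA0]
  have h3 := LinearMap.finrank_range_add_finrank_ker ρ
  have h4 := LinearMap.finrank_le_finrank_of_injective hg
  have h5 := Submodule.finrank_mono hr
  omega

theorem Good.step {j d d' : ℕ} {D O V : Type} [Fintype D] [Fintype O] [Fintype V]
    (E : V → V → Prop) (F : D → D → Prop) (col : V → ℕ) (colF : D → ℕ)
    (hT : Good j D (V ⊕ O) (joinR O (fun v w => E v w ∧ col v = col w))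
      (fun s t => F s t ∧ colF s = colF t) d)
    (hQ : QGood j D O V (fun v w => E v w ∧ col v ≠ col w)
      (fun s t => F s t ∧ colF s ≠ colF t) col d') :
    Good (j + 1) (D ⊕ O) V E (liftR O F) (d + d') := by
  obtain ⟨x, hx⟩ := H80R.exists_algebraicIndependent
    ((D × Fin j) ⊕ ((D × Fin j) ⊕ ((V × Fin j) ⊕ (O × Fin j))))
  let P : D → Fin j → ℂ := fun s i => x (.inl (s, i))
  let Y : D → Fin j → ℂ := fun s i => x (.inr (.inl (s, i)))
  let H : V → Fin j → ℂ := fun s i => x (.inr (.inr (.inl (s, i))))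
  let h : O → Fin j → ℂ := fun s i => x (.inr (.inr (.inr (s, i))))
  have hT' := hT.generic P Y (Sum.elim H h) (by
    let e : (D × Fin j) ⊕ ((D × Fin j) ⊕ ((V ⊕ O) × Fin j)) →
        (D × Fin j) ⊕ ((D × Fin j) ⊕ ((V × Fin j) ⊕ (O × Fin j))) :=
      Sum.elim Sum.inl (Sum.elim (fun q => .inr (.inl q))
        (fun q => Sum.elim (fun v => .inr (.inr (.inl (v, q.2))))
          (fun o => .inr (.inr (.inr (o, q.2)))) q.1))
    have he : Function.Injective e := by
      rintro (⟨s, i⟩ | ⟨s, i⟩ | ⟨s | s, i⟩) (⟨s', i'⟩ | ⟨s', i'⟩ | ⟨s' | s', i'⟩) hh <;>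
        simp_all [e]
    have := hx.comp e he
    convert this using 1
    ext q
    rcases q with ⟨s, i⟩ | ⟨s, i⟩ | ⟨s | s, i⟩ <;> rfl)
  have hQ' := hQ.generic h P H (by
    let e : (O × Fin j) ⊕ ((D × Fin j) ⊕ (V × Fin j)) →
        (D × Fin j) ⊕ ((D × Fin j) ⊕ ((V × Fin j) ⊕ (O × Fin j))) :=
      Sum.elim (fun q => .inr (.inr (.inr q))) (Sum.elim (fun q => .inl q)
        (fun q => .inr (.inr (.inl q))))
    have he : Function.Injective e := by
      rintro (⟨s, i⟩ | ⟨s, i⟩ | ⟨s, i⟩) (⟨s', i'⟩ | ⟨s', i'⟩ | ⟨s', i'⟩) hh <;>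
        simp_all [e]
    have := hx.comp e he
    convert this using 1
    ext q
    rcases q with ⟨s, i⟩ | ⟨s, i⟩ | ⟨s, i⟩ <;> rfl)
  let P1 : D ⊕ O → Fin (j + 1) → ℂ := Sum.elim (fun s => Fin.snoc (P s) 0) (fun o => Fin.snoc (h o) 1)
  let Y1 : D ⊕ O → Fin (j + 1) → ℂ := Sum.elim (fun s => Fin.snoc (Y s) (colF s : ℂ)) (fun _ => 0)
  let H1 : V → Fin (j + 1) → ℂ := fun v => Fin.snoc (H v) (col v : ℂ)
  refine ⟨P1, Y1, H1, ?_⟩
  have hsub : ∀ (u v : Fin j → ℂ) (a b : ℂ), (Fin.snoc u a : Fin (j + 1) → ℂ) - Fin.snoc v b =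
      Fin.snoc (u - v) (a - b) := by
    intro u v a b
    ext i
    refine Fin.lastCases ?_ (fun i => ?_) i <;> simp
  refine finrank_step _ _ _ (fun A hA => hA.sym) ?_ ?_ hT' hQ'
  · intro A hA
    have hs : Sym3 A := hA.sym
    refine ⟨⟨fun a b c => hs.1 _ _ _, fun a b c => hs.2 _ _ _⟩, ?_, ?_, ?_⟩
    · intro s u
      rw [tri_resT]
      exact hA.dbl (.inl s) _
    · rintro (v | o) (w | o') hvw
      · obtain ⟨hvw, hcol⟩ := hvw
        have h1 := hA.brd v w hvw
        rw [tri_resT]
        have h2 : H1 v - H1 w = Fin.snoc (H v - H w) 0 := by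
          show (Fin.snoc (H v) (col v : ℂ) : Fin (j + 1) → ℂ) - Fin.snoc (H w) (col w : ℂ) = _
          rw [hsub, hcol, sub_self]
        rw [h2] at h1
        exact h1
      · exact hvw.elim
      · exact hvw.elim
      · rw [tri_resT]
        have h2 : (Fin.snoc (h o - h o') 0 : Fin (j + 1) → ℂ) =
            Fin.snoc (h o) 1 - Fin.snoc (h o') 1 := by
          rw [hsub, sub_self]
        show tri A (Fin.snoc (h o - h o') 0) (Fin.snoc (h o - h o') 0)
          (Fin.snoc (h o - h o') 0) = 0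
        rw [h2]
        have d1 : ∀ u, tri A (Fin.snoc (h o) 1) (Fin.snoc (h o) 1) u = 0 := hA.dbl (.inr o)
        have d2 : ∀ u, tri A (Fin.snoc (h o') 1) (Fin.snoc (h o') 1) u = 0 := hA.dbl (.inr o')
        simp only [tri_sub1, tri_sub2, tri_sub3]
        rw [d1, d1, d2, d2, hs.tri23 (Fin.snoc (h o) 1) (Fin.snoc (h o') 1) (Fin.snoc (h o) 1), d1,
          hs.tri12 (Fin.snoc (h o) 1) (Fin.snoc (h o') 1) (Fin.snoc (h o') 1),
          hs.tri23 (Fin.snoc (h o') 1) (Fin.snoc (h o) 1) (Fin.snoc (h o') 1), d2,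
          hs.tri12 (Fin.snoc (h o') 1) (Fin.snoc (h o) 1) (Fin.snoc (h o) 1),
          hs.tri23 (Fin.snoc (h o) 1) (Fin.snoc (h o') 1) (Fin.snoc (h o) 1), d1]
        ring
    · rintro s t ⟨hst, hcol⟩
      have h1 := hA.par (.inl s) (.inl t) hst
      rw [tri_resT]
      have h2 : Y1 (.inl s) - Y1 (.inl t) = Fin.snoc (Y s - Y t) 0 := by
        show (Fin.snoc (Y s) (colF s : ℂ) : Fin (j + 1) → ℂ) - Fin.snoc (Y t) (colF t : ℂ) = _
        rw [hsub, hcol, sub_self]
      rw [h2] at h1
      exact h1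
  · intro A hA h0
    have hs : Sym3 A := hA.sym
    have hB := resB_symm hs
    have key := tri_eq_bil hs h0
    refine ⟨hB, ?_, ?_, ?_, ?_⟩
    · intro o
      have d1 : ∀ u, tri A (Fin.snoc (h o) 1) (Fin.snoc (h o) 1) u = 0 := hA.dbl (.inr o)
      have h1 := d1 (Fin.snoc (h o) 1)
      rw [key] at h1
      simp only [Fin.snoc_last] at h1
      have h2 : bil (resB j A) (Fin.snoc (h o) 1) (Fin.snoc (h o) 1) = 0 := by
        linear_combination (1 / 3 : ℂ) * h1
      intro u
      have h3 := d1 u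
      rw [key, h2] at h3
      simp only [Fin.snoc_last] at h3
      linear_combination (1 / 2 : ℂ) * h3
    · intro s
      have d1 : ∀ u, tri A (Fin.snoc (P s) 0) (Fin.snoc (P s) 0) u = 0 := hA.dbl (.inl s)
      have h1 := d1 (Fin.snoc 0 1)
      rw [key] at h1
      simpa using h1
    · rintro v w ⟨hvw, hcol⟩
      have h1 := hA.brd v w hvw
      have h2 : (H1 v - H1 w) (Fin.last j) = (col v : ℂ) - col w := by
        simp [H1]
      rw [key, h2] at h1
      have h3 : (col v : ℂ) - col w ≠ 0 := by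
        rw [sub_ne_zero]
        exact_mod_cast hcol
      have h4 : 3 * ((col v : ℂ) - col w) * bil (resB j A) (H1 v - H1 w) (H1 v - H1 w) = 0 := by
        linear_combination h1
      rcases mul_eq_zero.mp h4 with h5 | h5
      · rcases mul_eq_zero.mp h5 with h6 | h6
        · norm_num at h6
        · exact absurd h6 h3
      · exact h5
    · rintro s t ⟨hst, hcol⟩
      have h1 := hA.par (.inl s) (.inl t) hst
      have h2 : (Y1 (.inl s) - Y1 (.inl t)) (Fin.last j) = (colF s : ℂ) - colF t := by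
        simp [Y1]
      rw [key, h2] at h1
      have h3 : (colF s : ℂ) - colF t ≠ 0 := by
        rw [sub_ne_zero]
        exact_mod_cast hcol
      have h4 : P1 (.inl s) (Fin.last j) = 0 := by simp [P1]
      have h5 : P1 (.inl t) (Fin.last j) = 0 := by simp [P1]
      rw [h4, h5] at h1
      have h6 : ((colF s : ℂ) - colF t) * bil (resB j A) (P1 (.inl s)) (P1 (.inl t)) = 0 := by
        linear_combination h1
      rcases mul_eq_zero.mp h6 with h7 | h7
      · exact absurd h7 h3
      · exact h7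

end H80T
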