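import Mathlib
import Pool.Agent.H80T.Step
import Pool.Agent.H80T.SplG
import Pool.Agent.H80T.QGood

/-! LSTEP: the flag step for lists of classes. -/

namespace H80T

open Module

theorem Good.mono {j d : ℕ} {D V D' V' : Type} {E : V → V → Prop} {F : D → D → Prop}
    {E' : V' → V' → Prop} {F' : D' → D' → Prop} (h : Good j D V E F d)
    (φ : D → D') (ψ : V → V') (hφ : Function.Injective φ) (hψ : Function.Injective ψ)
    (hE : ∀ v w, E v w → E' (ψ v) (ψ w)) (hF : ∀ s t, F s t → F' (φ s) (φ t)) :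
    Good j D' V' E' F' d := by
  obtain ⟨P, Y, H, hd⟩ := h
  refine ⟨Function.extend φ P 0, Function.extend φ Y 0, Function.extend ψ H 0, ?_⟩
  refine le_trans (Submodule.finrank_mono ?_) hd
  intro A hA
  have hA' : InSys E' F' (Function.extend φ P 0) (Function.extend φ Y 0)
    (Function.extend ψ H 0) A := hA
  show InSys E F P Y H A
  refine ⟨hA'.sym, ?_, ?_, ?_⟩
  · intro s u
    have := hA'.dbl (φ s) u
    rwa [hφ.extend_apply] at this
  · intro v w hvw
    have := hA'.brd (ψ v) (ψ w) (hE v w hvw)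
    rwa [hψ.extend_apply, hψ.extend_apply] at this
  · intro s t hst
    have := hA'.par (φ s) (φ t) (hF s t hst)
    rwa [hφ.extend_apply, hφ.extend_apply, hφ.extend_apply, hφ.extend_apply] at this

/-- an injective map on the first summand extends to the whole type if the cardinalities agree -/
private theorem lstep_extend {S T : Type} [Fintype S] [Fintype T] {m : ℕ} (f : S → T)
    (hf : Function.Injective f) (h : Fintype.card S + m = Fintype.card T) :
    ∃ g : S ⊕ Fin m → T, Function.Injective g ∧ ∀ s, g (.inl s) = f s := by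
  classical
  have h1 : Fintype.card {t : T // t ∉ Set.range f} = m := by
    have h2 := Fintype.card_subtype_compl (fun t => t ∈ Set.range f)
    have h3 : Fintype.card {t : T // t ∈ Set.range f} = Fintype.card S :=
      Set.card_range_of_injective hf
    rw [h3] at h2
    rw [h2]
    omega
  let e : Fin m ≃ {t : T // t ∉ Set.range f} := (Fintype.equivFinOfCardEq h1).symm
  refine ⟨Sum.elim f (fun i => (e i).1), ?_, fun s => rfl⟩
  apply Function.Injective.sumElim hf
  · exact Subtype.val_injective.comp e.injective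
  · intro s i hsi
    exact (e i).2 ⟨s, hsi⟩

theorem GoodL.step {j x α d s : ℕ} {bs bs' gs gs' : List ℕ} {c₁ c₂ : ℕ}
    (h : GoodL j x (α :: bs') gs' d) (hα : 1 ≤ α) (hb : Spl 1 bs' bs c₁)
    (hg : Spl 0 gs' gs c₂) (hx : gs.sum ≤ x) (hc : c₁ + c₂ + α ≤ j + 1)
    (hs : (j + 2 - α).choose 2 + pairs bs' + pairs gs' ≤ s + x + pairs bs + pairs gs) :
    GoodL (j + 1) (x + α) bs gs (d + s) := by
  obtain ⟨ψ, col, u, hψ, hψE, hB⟩ := hb.dataB
  obtain ⟨ψ', colF, act, u', hψ', hψE', hact, hcard, hG⟩ := hg.dataG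
  have hQ := qgood_of_spl hα hx hc hs col u hB colF act u' hact hcard hG
  obtain ⟨hx', hT0⟩ := h
  obtain ⟨φ, hφ, hφl⟩ := lstep_extend (m := x - gs'.sum)
    (fun v : VT gs' => (Sum.inl (ψ' v) : VT gs ⊕ Fin (x - gs.sum)))
    (fun v w hvw => hψ' (Sum.inl_injective hvw)) (by
      rw [Fintype.card_sum, card_VT, card_VT, Fintype.card_fin]
      omega)
  have hT : Good j (VT gs ⊕ Fin (x - gs.sum)) (VT bs ⊕ Fin α)
      (joinR (Fin α) (fun v w => VE bs v w ∧ col v = col w))
      (fun s t => liftR (Fin (x - gs.sum)) (VE gs) s t ∧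
        Sum.elim colF (fun _ => 0) s = Sum.elim colF (fun _ => 0) t) d := by
    refine Good.mono hT0 φ
      (Sum.elim Sum.inr (fun v => Sum.inl (ψ v)) : Fin α ⊕ VT bs' → VT bs ⊕ Fin α) hφ ?_ ?_ ?_
    · apply Function.Injective.sumElim Sum.inr_injective
      · intro v w hvw
        exact hψ (Sum.inl_injective hvw)
      · intro a b hab
        exact absurd hab (by simp)
    · intro v w hvw
      match v, w, hvw with
      | .inl a, .inl b, _ => exact trivial
      | .inr a, .inr b, hab => exact hψE a b hab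
    · intro v w hvw
      match v, w, hvw with
      | .inl a, .inl b, hab =>
        rw [hφl, hφl]
        exact hψE' a b hab
  have hstep := Good.step (VE bs) (liftR (Fin (x - gs.sum)) (VE gs)) col
    (Sum.elim colF (fun _ => 0)) hT hQ
  refine ⟨by omega, ?_⟩
  have hcardeq : (x - gs.sum) + α = x + α - gs.sum := by omega
  refine Good.mono hstep (fun q => Sum.map id (fun i => Fin.cast hcardeq (finSumFinEquiv i))
      (Equiv.sumAssoc (VT gs) (Fin (x - gs.sum)) (Fin α) q)) id ?_
    Function.injective_id (fun _ _ h => h) ?_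
  · refine Function.Injective.comp ?_ (Equiv.injective _)
    apply Function.Injective.sumMap Function.injective_id
    exact (Fin.cast_injective hcardeq).comp finSumFinEquiv.injective
  · intro v w hvw
    match v, w, hvw with
    | .inl (.inl a), .inl (.inl b), hab => exact hab

theorem GoodL.zero {x : ℕ} {bs gs : List ℕ} (h : gs.sum ≤ x) : GoodL 0 x bs gs 0 := by
  refine ⟨h, 0, 0, 0, ?_⟩
  rw [finrank_zero_of_subsingleton]

/-- the space of all forms in one variable is one dimensional -/
private theorem lstep_one (S : Submodule ℂ (Fin 1 → Fin 1 → Fin 1 → ℂ)) : finrank ℂ S ≤ 1 := by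
  refine (Submodule.finrank_le S).trans ?_
  rw [Module.finrank_pi_fintype]
  simp [Module.finrank_pi_fintype]

private theorem lstep_bot (S : Submodule ℂ (Fin 1 → Fin 1 → Fin 1 → ℂ))
    (h : ∀ A ∈ S, A 0 0 0 = 0) : finrank ℂ S ≤ 0 := by
  have h1 : S = ⊥ := by
    rw [eq_bot_iff]
    intro A hA
    rw [Submodule.mem_bot]
    funext a b c
    rw [Subsingleton.elim a 0, Subsingleton.elim b 0, Subsingleton.elim c 0]
    exact h A hA
  rw [h1]
  exact (finrank_bot ℂ _).le

private theorem lstep_pairs : ∀ bs : List ℕ, 1 ≤ pairs bs → ∃ v w : VT bs, v ≠ w ∧ VE bs v w := by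
  intro bs
  induction bs with
  | nil =>
    intro h
    simp [pairs] at h
  | cons b bs ih =>
    intro h
    by_cases hb : 2 ≤ b
    · refine ⟨Sum.inl ⟨0, by omega⟩, Sum.inl ⟨1, by omega⟩, ?_, trivial⟩
      intro hc
      have := Sum.inl_injective hc
      simp at this
    · have h1 : b.choose 2 = 0 := Nat.choose_eq_zero_of_lt (by omega)
      have h2 : pairs (b :: bs) = b.choose 2 + pairs bs := by simp [pairs]
      obtain ⟨v, w, hvw, hE⟩ := ih (by omega)
      exact ⟨Sum.inr v, Sum.inr w, fun hc => hvw (Sum.inr_injective hc), hE⟩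

theorem GoodL.one {x : ℕ} {bs gs : List ℕ} (h : gs.sum ≤ x) (hx : 1 ≤ x ∨ 1 ≤ pairs bs) :
    GoodL 1 x bs gs 0 := by
  refine ⟨h, ?_⟩
  rcases hx with hx | hx
  · refine ⟨fun _ _ => 1, 0, 0, ?_⟩
    apply lstep_bot
    intro A hA
    have hne : Nonempty (VT gs ⊕ Fin (x - gs.sum)) := by
      rw [← Fintype.card_pos_iff, Fintype.card_sum, card_VT, Fintype.card_fin]
      omega
    have hA' : InSys _ _ _ _ _ A := hA
    have h1 := hA'.dbl hne.some (fun _ => 1)
    simpa [tri] using h1
  · obtain ⟨v, w, hvw, hE⟩ := lstep_pairs bs hx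
    refine ⟨0, 0, fun v _ => ((Fintype.equivFin (VT bs) v : ℕ) : ℂ), ?_⟩
    apply lstep_bot
    intro A hA
    have hA' : InSys _ _ _ _ _ A := hA
    have h1 := hA'.brd v w hE
    have h2 : ((Fintype.equivFin (VT bs) v : ℕ) : ℂ) - ((Fintype.equivFin (VT bs) w : ℕ) : ℂ) ≠ 0 := by
      rw [sub_ne_zero]
      intro hc
      apply hvw
      have : (Fintype.equivFin (VT bs) v : ℕ) = (Fintype.equivFin (VT bs) w : ℕ) := by
        exact_mod_cast hc
      exact (Fintype.equivFin (VT bs)).injective (Fin.ext this)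
    simpa [tri, h2] using h1

theorem GoodL.one' {x : ℕ} {bs gs : List ℕ} (h : gs.sum ≤ x) : GoodL 1 x bs gs 1 :=
  ⟨h, 0, 0, 0, lstep_one _⟩

theorem GoodL.mono {j x x' : ℕ} {bs gs : List ℕ} {d d' : ℕ} (h : GoodL j x bs gs d)
    (hx : x ≤ x') (hd : d ≤ d') : GoodL j x' bs gs d' := by
  obtain ⟨h1, h2⟩ := h
  refine ⟨h1.trans hx, ?_⟩
  have h3 : Good j (VT gs ⊕ Fin (x' - gs.sum)) (VT bs) (VE bs)
    (liftR (Fin (x' - gs.sum)) (VE gs)) d := by
    refine Good.mono h2 (Sum.map id (Fin.castLE (by omega))) id ?_ Function.injective_id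
      (fun _ _ h => h) ?_
    · exact Function.Injective.sumMap Function.injective_id (Fin.castLE_injective _)
    · intro v w hvw
      match v, w, hvw with
      | .inl a, .inl b, hab => exact hab
  obtain ⟨P, Y, H, h4⟩ := h3
  exact ⟨P, Y, H, h4.trans hd⟩

end H80T
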