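import Mathlib
import Pool.Agent.H80T.LStep

/-! CERT: checking certificates. -/

namespace H80T

theorem applySpl_spec {e : ℕ} {bs : List ℕ} {os : List (Option (List ℕ))} {bs' : List ℕ} {c : ℕ}
    (h : applySpl e bs os = some (bs', c)) : Spl e bs' bs c := by
  induction bs generalizing os bs' c with
  | nil =>
    simp only [applySpl, Option.some.injEq, Prod.mk.injEq] at h
    obtain ⟨rfl, rfl⟩ := h
    exact Spl.nil
  | cons b bs ih =>
    match os, h with
    | [], h =>
      simp only [applySpl, Option.map_eq_some_iff, Prod.mk.injEq] at h
      obtain ⟨⟨l, c'⟩, h1, rfl, rfl⟩ := h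
      exact Spl.split [] b (by simp) (ih h1)
    | none :: os, h =>
      simp only [applySpl, Option.map_eq_some_iff, Prod.mk.injEq] at h
      obtain ⟨⟨l, c'⟩, h1, rfl, rfl⟩ := h
      exact Spl.keep b (ih h1)
    | some l :: os, h =>
      simp only [applySpl] at h
      split_ifs at h with hl
      simp only [Option.map_eq_some_iff, Prod.mk.injEq] at h
      obtain ⟨⟨l', c'⟩, h1, rfl, rfl⟩ := h
      exact Spl.split l b hl (ih h1)

theorem runC_spec {j x : ℕ} {bs gs : List ℕ}
    {L : List (ℕ × List (Option (List ℕ)) × List (Option (List ℕ)))} {d : ℕ}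
    (h : runC j x bs gs L = some d) : GoodL j x bs gs d := by
  have hone : ∀ {x : ℕ} {bs gs : List ℕ} {d : ℕ}, runC 1 x bs gs [] = some d →
      GoodL 1 x bs gs d := by
    intro x bs gs d h
    simp only [runC] at h
    split_ifs at h with h1 h2
    · rw [Option.some.injEq] at h
      subst h
      exact GoodL.one h1 h2
    · rw [Option.some.injEq] at h
      subst h
      exact GoodL.one' h1
  have hzero : ∀ {x : ℕ} {bs gs : List ℕ}
      {L : List (ℕ × List (Option (List ℕ)) × List (Option (List ℕ)))} {d : ℕ},
      runC 0 x bs gs L = some d → GoodL 0 x bs gs d := by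
    intro x bs gs L d h
    unfold runC at h
    split_ifs at h with h1
    rw [Option.some.injEq] at h
    subst h
    exact GoodL.zero h1
  induction L generalizing j x bs gs d with
  | nil =>
    match j, h with
    | 0, h => exact hzero h
    | 1, h => exact hone h
    | j + 2, h => simp [runC] at h
  | cons q L ih =>
    obtain ⟨α, o₁, o₂⟩ := q
    match j, h with
    | 0, h => exact hzero h
    | j + 1, h =>
      unfold runC at h
      cases h1 : applySpl 1 bs o₁ with
      | none => simp [h1] at h
      | some p1 =>
        cases h2 : applySpl 0 gs o₂ with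
        | none => simp [h1, h2] at h
        | some p2 =>
          obtain ⟨bs', c₁⟩ := p1
          obtain ⟨gs', c₂⟩ := p2
          simp only [h1, h2] at h
          split_ifs at h with h3
          simp only [Option.map_eq_some_iff] at h
          obtain ⟨d', h4, rfl⟩ := h
          obtain ⟨ha, hb, hc, hd⟩ := h3
          have h5 := GoodL.step (s := (j + 2 - α).choose 2 + pairs bs' + pairs gs' -
            (x - α + pairs bs + pairs gs)) (ih h4) ha (applySpl_spec h1) (applySpl_spec h2) hc hd
            (by omega)
          rwa [Nat.sub_add_cancel hb] at h5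

end H80T
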