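import Mathlib
import Pool.Agent.H80T.CanA
import Pool.Agent.H80T.Cert

/-! CANON: the canonical chain. -/

namespace H80T

theorem pairs_cons (b : ℕ) (l : List ℕ) : pairs (b :: l) = t2 b + pairs l := by
  simp [pairs, t2_eq]

theorem spl_kill (e : ℕ) (l : List ℕ) : ∃ c, c ≤ l.sum ∧ Spl e [] l c := by
  induction l with
  | nil => exact ⟨0, le_rfl, Spl.nil⟩
  | cons b l ih =>
    obtain ⟨c, hc, h⟩ := ih
    refine ⟨c + (b - e), ?_, Spl.split [] b (by simp) h⟩
    rw [List.sum_cons]
    omega

/-- split the first class, kill the others -/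
theorem spl_first {e b : ℕ} {l rest : List ℕ} (hl : l.sum ≤ b) :
    ∃ c, c ≤ rest.sum ∧ Spl e l (b :: rest) (c + (b - e)) := by
  obtain ⟨c, hc, h⟩ := spl_kill e rest
  have h1 := Spl.split l b hl h
  rw [List.append_nil] at h1
  exact ⟨c, hc, h1⟩

theorem canon_base : GoodL 27 (XX 27) (AL 27 :: rep (NU 27)) [] 0 := by
  have h : runC 27 (XX 27) (AL 27 :: rep (NU 27)) [] [(9, [some [], none, some [2]], []),
    (9, [some [5], some [3], none], []), (8, [some [], some [], none, none], []),
    (9, [some [5], some [], some []], []), (7, [some [], some [2]], []),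
    (8, [some [], some []], []), (8, [some [4, 4]], []), (6, [some [], some [3], some [2]], []),
    (7, [some [], none, some []], []), (6, [some [2], some [2]], []),
    (6, [some [], some [], none], []), (6, [some [3, 2], none], []),
    (5, [some [], none, some [], none], []), (5, [some [], none, some []], []),
    (5, [some [4], some []], []), (4, [some [3], some [2, 2]], []),
    (4, [some [], none, some [], none], []), (4, [none, some [], some []], []),
    (3, [some [3], some [2, 2]], []), (3, [some [], none, some [], none], []),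
    (2, [some [], some [], none], []), (3, [none, none], []),
    (1, [some [], some [], some []], []), (2, [some []], []), (1, [some []], []),
    (1, [some []], [])] = some 0 := by decide +kernel
  exact runC_spec h

theorem AL_pos {j : ℕ} (hj : 27 ≤ j) : 1 ≤ AL j := by
  have := le_AL j
  omega

theorem canon_step {j : ℕ} (hj : 27 ≤ j) (h : GoodL j (XX j) (AL j :: rep (NU j)) [] 0) :
    GoodL (j + 1) (XX (j + 1)) (AL (j + 1) :: rep (NU (j + 1))) [] 0 := by
  obtain ⟨c, hc, hb⟩ := spl_first (e := 1) (rest := rep (NU (j + 1))) (canon_c1 hj)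
  have h1 := AL_pos hj
  have h2 := AL_pos (j := j + 1) (by omega)
  have h3 := canon_c2 hj
  have h4 := NU_spec j
  have h5 := NU_spec (j + 1)
  have h6 := AL_le j
  have h7 := count_id (j := j) (x := XX j) (α := AL j) (by omega)
  have h8 := XX_succ j
  rw [h8]
  refine GoodL.step (s := 0) h h1 hb Spl.nil (by simp) (by omega) ?_
  rw [pairs_cons, pairs_rep, pairs_rep, ← t2_eq]
  rw [← h8] at h7
  have h9 : (j + 1) * XX j = j * XX j + XX j := by ring
  omega

theorem canon {j : ℕ} (hj : 27 ≤ j) : GoodL j (XX j) (AL j :: rep (NU j)) [] 0 := by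
  induction j, hj using Nat.le_induction with
  | base => exact canon_base
  | succ j hj ih => exact canon_step hj ih

end H80T
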