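import Mathlib
import Pool.Agent.H80T.Defs3

/-! DECEX: closedness gives decompositions. -/

namespace H80T

open Topology MvPolynomial H80R

theorem exists_dec {n k a b r : ℕ} (hn : 1 ≤ n) (ha : 1 ≤ a) (hab : 2 * a + b ≤ r)
    (hcl : IsClosed[H80R.projTop (n + 1) (k + 1)] (H80R.Y (n + 1) (k + 1) r)) :
    Nonempty (H80R.Dec n (k + 1) a b r) := by
  classical
  obtain ⟨v, hv⟩ := exists_algebraicIndependent
    ((Fin a × Fin n) ⊕ ((Fin b × Fin n) ⊕ (Fin a × Fin (n + 1))))
  let pl : Fin a → Fin n → ℂ := fun s l => v (Sum.inl (s, l))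
  let pp : Fin b → Fin n → ℂ := fun s l => v (Sum.inr (Sum.inl (s, l)))
  let py : Fin a → Fin (n + 1) → ℂ := fun s l => v (Sum.inr (Sum.inr (s, l)))
  have halg : AlgebraicIndependent ℚ (Sum.elim (fun q : Fin a × Fin n => pl q.1 q.2)
      (Sum.elim (fun q : Fin b × Fin n => pp q.1 q.2)
        (fun q : Fin a × Fin (n + 1) => py q.1 q.2))) := by
    convert hv using 1
    ext (q | q | q) <;> rfl
  have hle : n + 1 ≤ n + 1 := le_rfl
  let xL : Fin a → Fin (n + 1) → ℂ := fun s => pad (Fin.snoc (pl s) 0 : Fin (n + 1) → ℂ)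
  let yL : Fin a → Fin (n + 1) → ℂ := fun s => pad (py s)
  let zL : Fin b → Fin (n + 1) → ℂ := fun s => pad (Fin.snoc (pp s) 0 : Fin (n + 1) → ℂ)
  -- the tensor does not vanish
  have hne : ∑ s, ttS (k + 1) (xL s) (yL s) + ∑ s, tpow (k + 1) (zL s) ≠ 0 := by
    intro h0
    let T : Dec n (k + 1) a b 0 :=
      { pl := pl
        pp := pp
        py := py
        halg := halg
        w := fun j => j.elim0
        hT := by
          intro i
          have h1 := congrArg (fun T : SymT (n + 1) (k + 1) =>
            T.1 (fun j => Fin.castLE hle (i j))) h0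
          simp only [Submodule.coe_add, AddSubmonoidClass.coe_finsetSum, Pi.add_apply,
            Finset.sum_apply] at h1
          have h2 : ∑ s, tt (k + 1) (xL s) (yL s) (fun j => Fin.castLE hle (i j)) +
            ∑ s, pw (k + 1) (zL s) (fun j => Fin.castLE hle (i j)) = 0 := h1
          simp only [xL, yL, zL, tt_pad hle, pw_pad hle] at h2
          rw [h2]
          simp }
    have h1 := (T.sing hn (e := 0) (by omega) (B := 1) (isHomogeneous_one _ _)
      (fun j => j.elim0) ⟨0, by omega⟩).1
    rw [map_one, map_one] at h1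
    exact one_ne_zero h1
  obtain ⟨w, hw⟩ := closed_imp (by omega) hcl hab xL yL zL hne
  let T : Dec n (k + 1) a b r :=
    { pl := pl
      pp := pp
      py := py
      halg := halg
      w := fun j l => w j (Fin.castLE hle l)
      hT := by
        intro i
        have h1 := hw (fun j => Fin.castLE hle (i j))
        simp only [xL, yL, zL, tt_pad hle, pw_pad hle] at h1
        exact h1 }
  exact ⟨T⟩

end H80T
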