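import Mathlib
import Pool.Agent.H80T.Defs6

namespace H80T

/-- general double points impose independent conditions on forms of degree `k` in `N`
variables -/
def Ex (N k : ℕ) : Prop := ∀ x, H80R.Sg N k x (N.multichoose k - N * x)

/-- the same for at most `x₀` points -/
def ExTo (N k x₀ : ℕ) : Prop :=
  N * x₀ ≤ N.multichoose k ∧ ∀ x ≤ x₀, H80R.Sg N k x (N.multichoose k - N * x)

end H80T
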