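import Mathlib
import Pool.Agent.H80T.Defs4

namespace H80T

open Module MvPolynomial

/-- forms singular at the points `P` and vanishing at the points `z` -/
def trS {v m : ℕ} (N d : ℕ) (P : Fin v → Fin N → ℂ) (z : Fin m → Fin N → ℂ) :
    Submodule ℂ (MvPolynomial (Fin N) ℂ) where
  carrier := {A | A ∈ H80R.Fm N d ∧ (∀ s, H80R.gr (P s) A = 0) ∧ ∀ i, eval (z i) A = 0}
  add_mem' := by
    rintro A B ⟨h1, h2, h3⟩ ⟨h1', h2', h3'⟩
    exact ⟨Submodule.add_mem _ h1 h1', fun s => by rw [H80R.gr_add, h2, h2', add_zero],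
      fun i => by rw [map_add, h3, h3', add_zero]⟩
  zero_mem' := by
    refine ⟨Submodule.zero_mem _, fun s => ?_, fun i => map_zero _⟩
    ext l
    simp [H80R.gr]
  smul_mem' := by
    rintro c A ⟨h1, h2, h3⟩
    exact ⟨Submodule.smul_mem _ c h1, fun s => by rw [H80R.gr_smul, h2, smul_zero],
      fun i => by rw [smul_eval, h3, mul_zero]⟩

/-- forms vanishing at the points `P` of the hyperplane, singular at the points `Q`, and whose
restriction to the hyperplane is singular at the points `z` of the hyperplane -/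
def rsS {v α m : ℕ} (N d : ℕ) (P : Fin v → Fin N → ℂ) (Q : Fin α → Fin (N + 1) → ℂ)
    (z : Fin m → Fin N → ℂ) : Submodule ℂ (MvPolynomial (Fin (N + 1)) ℂ) where
  carrier := {B | B ∈ H80R.Fm (N + 1) d ∧
    (∀ s, eval (Fin.snoc (P s) 0 : Fin (N + 1) → ℂ) B = 0) ∧ (∀ i, H80R.gr (Q i) B = 0) ∧
    ∀ i (l : Fin N), H80R.gr (Fin.snoc (z i) 0 : Fin (N + 1) → ℂ) B l.castSucc = 0}
  add_mem' := by
    rintro A B ⟨h1, h2, h3, h4⟩ ⟨h1', h2', h3', h4'⟩
    exact ⟨Submodule.add_mem _ h1 h1', fun s => by rw [map_add, h2, h2', add_zero],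
      fun i => by rw [H80R.gr_add, h3, h3', add_zero],
      fun i l => by rw [H80R.gr_add, Pi.add_apply, h4, h4', add_zero]⟩
  zero_mem' := by
    refine ⟨Submodule.zero_mem _, fun s => map_zero _, fun i => ?_, fun i l => ?_⟩
    · ext l
      simp [H80R.gr]
    · simp [H80R.gr]
  smul_mem' := by
    rintro c A ⟨h1, h2, h3, h4⟩
    exact ⟨Submodule.smul_mem _ c h1, fun s => by rw [smul_eval, h2, mul_zero],
      fun i => by rw [H80R.gr_smul, h3, smul_zero],
      fun i l => by rw [H80R.gr_smul, Pi.smul_apply, h4, smul_zero]⟩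

end H80T
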