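import Mathlib
import Pool.Agent.H80T.Defs5

/-! DHLIM: the degeneration in the differential Horace step. -/

namespace H80T

open Module MvPolynomial

private theorem lim_semi {V E : Type*} [AddCommGroup V] [Module ℂ V] [FiniteDimensional ℂ V]
    [NormedAddCommGroup E] [NormedSpace ℂ E] [FiniteDimensional ℂ E] (L : ℂ → V →ₗ[ℂ] E)
    (hL : ∀ x, Continuous fun t => L t x) :
    ∃ t : ℂ, t ≠ 0 ∧ finrank ℂ (LinearMap.ker (L t)) ≤ finrank ℂ (LinearMap.ker (L 0)) := by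
  set r := finrank ℂ (LinearMap.range (L 0)) with hr
  let b : Basis (Fin r) ℂ (LinearMap.range (L 0)) := finBasis ℂ _
  choose v hv using fun i => (b i).2
  have hli0 : LinearIndependent ℂ fun i => L 0 (v i) := by
    have h1 := b.linearIndependent.map' (LinearMap.range (L 0)).subtype
      (Submodule.ker_subtype _)
    have h2 : (fun i => L 0 (v i)) = (LinearMap.range (L 0)).subtype ∘ b := by
      funext i
      exact hv i
    rw [h2]
    exact h1
  have hopen : IsOpen {t : ℂ | LinearIndependent ℂ fun i => L t (v i)} := by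
    have hc : Continuous fun t : ℂ => (fun i => L t (v i) : Fin r → E) :=
      continuous_pi fun i => hL (v i)
    exact isOpen_setOfPred_linearIndependent.preimage hc
  have hev : ∀ᶠ t in nhdsWithin (0 : ℂ) {0}ᶜ, LinearIndependent ℂ fun i => L t (v i) :=
    nhdsWithin_le_nhds (hopen.mem_nhds hli0)
  obtain ⟨t, ht, ht0⟩ := (hev.and self_mem_nhdsWithin).exists
  refine ⟨t, ht0, ?_⟩
  have h1 := LinearMap.finrank_range_add_finrank_ker (L t)
  have h2 := LinearMap.finrank_range_add_finrank_ker (L 0)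
  have h3 : r ≤ finrank ℂ (LinearMap.range (L t)) := by
    have h4 : LinearIndependent ℂ fun i => (⟨L t (v i), ⟨v i, rfl⟩⟩ : LinearMap.range (L t)) :=
      LinearIndependent.of_comp (LinearMap.range (L t)).subtype ht
    have h5 := h4.fintype_card_le_finrank
    rwa [Fintype.card_fin] at h5
  omega

private theorem lim_two {V A B : Type*} [AddCommGroup V] [Module ℂ V] [FiniteDimensional ℂ V]
    [AddCommGroup A] [Module ℂ A] [AddCommGroup B] [Module ℂ B] (W : Submodule ℂ V)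
    (T : Submodule ℂ A) (R : Submodule ℂ B) [FiniteDimensional ℂ T] [FiniteDimensional ℂ R]
    (f : V →ₗ[ℂ] A) (g : V →ₗ[ℂ] B) (hf : ∀ x ∈ W, f x ∈ T)
    (hg : ∀ x ∈ W, f x = 0 → g x ∈ R) (hinj : ∀ x, f x = 0 → g x = 0 → x = 0) :
    finrank ℂ W ≤ finrank ℂ T + finrank ℂ R := by
  let F : W →ₗ[ℂ] T := LinearMap.codRestrict T (f ∘ₗ W.subtype) fun x => hf x.1 x.2
  have h1 := LinearMap.finrank_range_add_finrank_ker F
  have h2 : finrank ℂ (LinearMap.range F) ≤ finrank ℂ T := Submodule.finrank_le _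
  have h3 : finrank ℂ (LinearMap.ker F) ≤ finrank ℂ R := by
    have hz : ∀ x : LinearMap.ker F, f x.1.1 = 0 := fun x =>
      congrArg Subtype.val (LinearMap.mem_ker.mp x.2)
    let G : LinearMap.ker F →ₗ[ℂ] R :=
      LinearMap.codRestrict R (g ∘ₗ W.subtype ∘ₗ (LinearMap.ker F).subtype)
        fun x => hg x.1.1 x.1.2 (hz x)
    apply LinearMap.finrank_le_finrank_of_injective (f := G)
    rw [← LinearMap.ker_eq_bot, eq_bot_iff]
    intro x hx
    have h4 : g x.1.1 = 0 := congrArg Subtype.val (LinearMap.mem_ker.mp hx)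
    rw [Submodule.mem_bot]
    exact Subtype.ext (Subtype.ext (hinj x.1.1 (hz x) h4))
  omega

private theorem lim_gr_rename {N : ℕ} (p : Fin (N + 1) → ℂ) (a : MvPolynomial (Fin N) ℂ)
    (l : Fin N) : H80R.gr p (rename Fin.castSucc a) l.castSucc =
      H80R.gr (p ∘ Fin.castSucc) a l := by
  rw [H80R.gr, H80R.gr, ← eval_rename]
  congr 1
  induction a using MvPolynomial.induction_on with
  | C c => simp
  | add p q hp hq => simp only [map_add, hp, hq]
  | mul_X p n hp =>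
    rw [map_mul, rename_X, Derivation.leibniz, Derivation.leibniz, hp]
    simp only [smul_eq_mul, map_add, map_mul, rename_X]
    congr 1
    by_cases h : n = l
    · subst h; simp
    · simp [pderiv_X, Pi.single_apply, h]

private theorem lim_gr_rename_last {N : ℕ} (p : Fin (N + 1) → ℂ) (a : MvPolynomial (Fin N) ℂ) :
    H80R.gr p (rename Fin.castSucc a) (Fin.last N) = 0 := by
  rw [H80R.gr]
  have h1 : pderiv (Fin.last N) (rename Fin.castSucc a) = 0 := by
    induction a using MvPolynomial.induction_on with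
    | C c => simp
    | add p q hp hq => simp only [map_add, hp, hq, add_zero]
    | mul_X p n hp =>
      rw [map_mul, rename_X, Derivation.leibniz, hp]
      simp [pderiv_X, Pi.single_apply, (Fin.castSucc_lt_last n).ne]
  rw [h1, map_zero]

private theorem lim_gr_X {N : ℕ} (p : Fin (N + 1) → ℂ) (B : MvPolynomial (Fin (N + 1)) ℂ)
    (l : Fin N) : H80R.gr p (X (Fin.last N) * B) l.castSucc =
      p (Fin.last N) * H80R.gr p B l.castSucc := by
  rw [← H80R.lf_last, H80R.gr_lf_mul, Pi.single_eq_of_ne (Fin.castSucc_lt_last l).ne, zero_mul,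
    zero_add, H80R.lf_last, eval_X]

private theorem lim_gr_X_last {N : ℕ} (p : Fin (N + 1) → ℂ) (B : MvPolynomial (Fin (N + 1)) ℂ) :
    H80R.gr p (X (Fin.last N) * B) (Fin.last N) =
      eval p B + p (Fin.last N) * H80R.gr p B (Fin.last N) := by
  rw [← H80R.lf_last, H80R.gr_lf_mul, Pi.single_eq_same, one_mul, H80R.lf_last, eval_X]

private theorem lim_snoc_comp {N : ℕ} (y : Fin N → ℂ) (t : ℂ) :
    (Fin.snoc y t : Fin (N + 1) → ℂ) ∘ Fin.castSucc = y := by
  funext l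
  simp

/-- the index set of the conditions -/
private abbrev Kap (N v α m : ℕ) : Type :=
  (Fin v × Fin N) ⊕ Fin v ⊕ (Fin α × Fin (N + 1)) ⊕ (Fin m × Fin N) ⊕ Fin m

variable {V₁ V₂ : Type*} [AddCommGroup V₁] [Module ℂ V₁] [AddCommGroup V₂] [Module ℂ V₂]

/-- the conditions -/
private noncomputable def cond {N v α m : ℕ} (e₁ : V₁ →ₗ[ℂ] MvPolynomial (Fin N) ℂ)
    (e₂ : V₂ →ₗ[ℂ] MvPolynomial (Fin (N + 1)) ℂ) (P : Fin v → Fin N → ℂ)
    (Q : Fin α → Fin (N + 1) → ℂ) (z : Fin m → Fin N → ℂ) (t : ℂ) :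
    (V₁ × V₂) →ₗ[ℂ] (Kap N v α m → ℂ) where
  toFun x := Sum.elim (fun q => H80R.gr (P q.1) (e₁ x.1) q.2)
    (Sum.elim (fun s => eval (Fin.snoc (P s) 0 : Fin (N + 1) → ℂ) (e₂ x.2))
    (Sum.elim (fun q => t * H80R.gr (Q q.1) (rename Fin.castSucc (e₁ x.1)) q.2 +
        H80R.gr (Q q.1) (X (Fin.last N) * (e₂ x.2)) q.2)
    (Sum.elim (fun q => H80R.gr (z q.1) (e₁ x.1) q.2 +
        H80R.gr (Fin.snoc (z q.1) t : Fin (N + 1) → ℂ) (e₂ x.2) q.2.castSucc)
      (fun i => eval (Fin.snoc (z i) t : Fin (N + 1) → ℂ) (e₂ x.2) +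
        t * H80R.gr (Fin.snoc (z i) t : Fin (N + 1) → ℂ) (e₂ x.2) (Fin.last N)))))
  map_add' x y := by
    funext κ
    rcases κ with q | q | q | q | q
    · simp [H80R.gr_add]
    · simp
    · simp only [Sum.elim_inr, Sum.elim_inl, Pi.add_apply, Prod.fst_add, Prod.snd_add,
        map_add, mul_add, H80R.gr_add]
      ring
    · simp only [Sum.elim_inr, Sum.elim_inl, Pi.add_apply, Prod.fst_add, Prod.snd_add,
        map_add, H80R.gr_add]
      ring
    · simp only [Sum.elim_inr, Pi.add_apply, Prod.snd_add, map_add, H80R.gr_add]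
      ring
  map_smul' c x := by
    funext κ
    rcases κ with q | q | q | q | q
    · simp [H80R.gr_smul]
    · simp
    · simp only [Sum.elim_inr, Sum.elim_inl, Pi.smul_apply, Prod.smul_fst, Prod.smul_snd,
        map_smul, mul_smul_comm, H80R.gr_smul, smul_eq_mul, RingHom.id_apply]
      ring
    · simp only [Sum.elim_inr, Sum.elim_inl, Pi.smul_apply, Prod.smul_fst, Prod.smul_snd,
        map_smul, H80R.gr_smul, smul_eq_mul, RingHom.id_apply]
      ring
    · simp only [Sum.elim_inr, Pi.smul_apply, Prod.smul_snd, map_smul,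
        smul_eval, H80R.gr_smul, smul_eq_mul, RingHom.id_apply]
      ring

private theorem cond_cont {N v α m : ℕ} (e₁ : V₁ →ₗ[ℂ] MvPolynomial (Fin N) ℂ)
    (e₂ : V₂ →ₗ[ℂ] MvPolynomial (Fin (N + 1)) ℂ) (P : Fin v → Fin N → ℂ)
    (Q : Fin α → Fin (N + 1) → ℂ) (z : Fin m → Fin N → ℂ)
    (x : V₁ × V₂) :
    Continuous fun t => cond e₁ e₂ P Q z t x := by
  have hev : ∀ (i : Fin m) (A : MvPolynomial (Fin (N + 1)) ℂ),
      Continuous fun t : ℂ => eval (Fin.snoc (z i) t : Fin (N + 1) → ℂ) A := fun i A =>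
    (MvPolynomial.continuous_eval A).comp (H80R.continuous_snoc (z i))
  refine continuous_pi fun κ => ?_
  rcases κ with q | q | q | q | q
  · exact continuous_const
  · exact continuous_const
  · exact (continuous_id.mul continuous_const).add continuous_const
  · exact continuous_const.add (hev _ _)
  · exact (hev _ _).add (continuous_id.mul (hev _ _))

/-- the kernel at `t = 0` -/
private theorem cond_zero {N d v α m : ℕ} [FiniteDimensional ℂ V₁] [FiniteDimensional ℂ V₂]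
    (e₁ : V₁ →ₗ[ℂ] MvPolynomial (Fin N) ℂ) (e₂ : V₂ →ₗ[ℂ] MvPolynomial (Fin (N + 1)) ℂ)
    (he₁ : ∀ x, e₁ x ∈ H80R.Fm N (d + 2)) (he₂ : ∀ x, e₂ x ∈ H80R.Fm (N + 1) (d + 1))
    (hi₁ : ∀ x, e₁ x = 0 → x = 0) (hi₂ : ∀ x, e₂ x = 0 → x = 0)
    (P : Fin v → Fin N → ℂ)
    (Q : Fin α → Fin (N + 1) → ℂ) (z : Fin m → Fin N → ℂ) (hQ : ∀ i, Q i (Fin.last N) ≠ 0) :
    finrank ℂ (LinearMap.ker (cond e₁ e₂ P Q z 0)) ≤
      finrank ℂ (trS N (d + 2) P z) + finrank ℂ (rsS N (d + 1) P Q z) := by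
  have hT : trS N (d + 2) P z ≤ H80R.Fm N (d + 2) := fun A hA => hA.1
  have hR : rsS N (d + 1) P Q z ≤ H80R.Fm (N + 1) (d + 1) := fun A hA => hA.1
  have hTfd : FiniteDimensional ℂ (trS N (d + 2) P z) := Submodule.finiteDimensional_of_le hT
  have hRfd : FiniteDimensional ℂ (rsS N (d + 1) P Q z) := Submodule.finiteDimensional_of_le hR
  set W := LinearMap.ker (cond e₁ e₂ P Q z 0) with hW
  -- consequences of the conditions
  have c1 : ∀ x ∈ W, ∀ s, H80R.gr (P s) (e₁ x.1) = 0 := by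
    intro x hx s
    ext l
    exact congrFun (LinearMap.mem_ker.mp hx) (Sum.inl (s, l))
  have c2 : ∀ x ∈ W, ∀ s, eval (Fin.snoc (P s) 0 : Fin (N + 1) → ℂ) (e₂ x.2) = 0 :=
    fun x hx s => congrFun (LinearMap.mem_ker.mp hx) (Sum.inr (Sum.inl s))
  have c3 : ∀ x ∈ W, ∀ i, H80R.gr (Q i) (e₂ x.2) = 0 := by
    intro x hx i
    have h1 : H80R.gr (Q i) (H80R.lf (Pi.single (Fin.last N) 1 : Fin (N + 1) → ℂ) *
        (e₂ x.2)) = 0 := by
      rw [H80R.lf_last]
      funext l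
      have h2 : (0 : ℂ) * H80R.gr (Q i) (rename Fin.castSucc (e₁ x.1)) l +
          H80R.gr (Q i) (X (Fin.last N) * (e₂ x.2)) l = 0 :=
        congrFun (LinearMap.mem_ker.mp hx) (Sum.inr (Sum.inr (Sum.inl (i, l))))
      rw [zero_mul, zero_add] at h2
      exact h2
    refine (H80R.gr_zero_of_lf_mul _ (Q i) ?_ (he₂ x.2) h1).2
    rw [H80R.lf_last, eval_X]
    exact hQ i
  have c4 : ∀ x ∈ W, ∀ i l, H80R.gr (z i) (e₁ x.1) l +
      H80R.gr (Fin.snoc (z i) 0 : Fin (N + 1) → ℂ) (e₂ x.2) l.castSucc = 0 := fun x hx i l =>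
    congrFun (LinearMap.mem_ker.mp hx) (Sum.inr (Sum.inr (Sum.inr (Sum.inl (i, l)))))
  have c5 : ∀ x ∈ W, ∀ i, eval (Fin.snoc (z i) 0 : Fin (N + 1) → ℂ) (e₂ x.2) = 0 := by
    intro x hx i
    have h2 : eval (Fin.snoc (z i) 0 : Fin (N + 1) → ℂ) (e₂ x.2) +
        0 * H80R.gr (Fin.snoc (z i) 0 : Fin (N + 1) → ℂ) (e₂ x.2) (Fin.last N) = 0 :=
      congrFun (LinearMap.mem_ker.mp hx) (Sum.inr (Sum.inr (Sum.inr (Sum.inr i))))
    rw [zero_mul, add_zero] at h2
    exact h2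
  have c6 : ∀ x ∈ W, ∀ i, eval (z i) (e₁ x.1) = 0 := by
    intro x hx i
    have h1 := H80R.euler (he₁ x.1) (z i)
    have h2 := H80R.euler (he₂ x.2) (Fin.snoc (z i) 0 : Fin (N + 1) → ℂ)
    rw [Fin.sum_univ_castSucc, c5 x hx i, mul_zero] at h2
    simp only [Fin.snoc_castSucc, Fin.snoc_last, zero_mul, add_zero] at h2
    have h3 : ∑ l, z i l * H80R.gr (z i) (e₁ x.1) l = 0 := by
      have h4 : ∀ l, z i l * H80R.gr (z i) (e₁ x.1) l =
          -(z i l * H80R.gr (Fin.snoc (z i) 0 : Fin (N + 1) → ℂ) (e₂ x.2) l.castSucc) := by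
        intro l
        linear_combination (z i l) * c4 x hx i l
      rw [Finset.sum_congr rfl fun l _ => h4 l, Finset.sum_neg_distrib, h2, neg_zero]
    rw [h3] at h1
    have h5 : ((d + 2 : ℕ) : ℂ) ≠ 0 := Nat.cast_ne_zero.mpr (by omega)
    exact (mul_eq_zero.mp h1.symm).resolve_left h5
  refine lim_two W (trS N (d + 2) P z) (rsS N (d + 1) P Q z)
    (e₁ ∘ₗ LinearMap.fst ℂ V₁ V₂) (e₂ ∘ₗ LinearMap.snd ℂ V₁ V₂) ?_ ?_ ?_
  · intro x hx
    change e₁ x.1 ∈ trS N (d + 2) P z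
    exact ⟨he₁ x.1, c1 x hx, c6 x hx⟩
  · intro x hx h4
    have h4' : e₁ x.1 = 0 := h4
    change e₂ x.2 ∈ rsS N (d + 1) P Q z
    refine ⟨he₂ x.2, c2 x hx, c3 x hx, fun i l => ?_⟩
    have h5 := c4 x hx i l
    rw [h4'] at h5
    have h6 : H80R.gr (z i) (0 : MvPolynomial (Fin N) ℂ) l = 0 := by simp [H80R.gr]
    rw [h6, zero_add] at h5
    exact h5
  · exact fun x h4 h5 => Prod.ext (hi₁ _ h4) (hi₂ _ h5)

private theorem limit_abs {N d v α m : ℕ} [FiniteDimensional ℂ V₁] [FiniteDimensional ℂ V₂]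
    (e₁ : V₁ →ₗ[ℂ] MvPolynomial (Fin N) ℂ) (e₂ : V₂ →ₗ[ℂ] MvPolynomial (Fin (N + 1)) ℂ)
    (he₁ : ∀ x, e₁ x ∈ H80R.Fm N (d + 2)) (he₂ : ∀ x, e₂ x ∈ H80R.Fm (N + 1) (d + 1))
    (hi₁ : ∀ x, e₁ x = 0 → x = 0) (hi₂ : ∀ x, e₂ x = 0 → x = 0)
    (hs₁ : ∀ A ∈ H80R.Fm N (d + 2), ∃ x, e₁ x = A)
    (hs₂ : ∀ A ∈ H80R.Fm (N + 1) (d + 1), ∃ x, e₂ x = A)
    (P : Fin v → Fin N → ℂ) (Q : Fin α → Fin (N + 1) → ℂ)
    (z : Fin m → Fin N → ℂ) (hQ : ∀ i, Q i (Fin.last N) ≠ 0) :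
    ∃ t : ℂ, H80R.nl (N + 1) (d + 2)
      (Fin.append (Fin.append (fun i => (Fin.snoc (P i) 0 : Fin (N + 1) → ℂ)) Q :
        Fin (v + α) → Fin (N + 1) → ℂ) (fun i => (Fin.snoc (z i) t : Fin (N + 1) → ℂ)) :
        Fin (v + α + m) → Fin (N + 1) → ℂ) ≤
      finrank ℂ (trS N (d + 2) P z) + finrank ℂ (rsS N (d + 1) P Q z) := by
  obtain ⟨t, ht0, ht⟩ := lim_semi (fun t => cond e₁ e₂ P Q z t) (cond_cont e₁ e₂ P Q z)
  refine ⟨t, le_trans ?_ (ht.trans (cond_zero e₁ e₂ he₁ he₂ hi₁ hi₂ P Q z hQ))⟩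
  set pts : Fin (v + α + m) → Fin (N + 1) → ℂ :=
    Fin.append (Fin.append (fun i => (Fin.snoc (P i) 0 : Fin (N + 1) → ℂ)) Q :
      Fin (v + α) → Fin (N + 1) → ℂ) (fun i => (Fin.snoc (z i) t : Fin (N + 1) → ℂ)) with hpts
  have hp1 : ∀ s, pts (Fin.castAdd m (Fin.castAdd α s)) = Fin.snoc (P s) 0 := fun s => by
    rw [hpts, Fin.append_left, Fin.append_left]
  have hp2 : ∀ s, pts (Fin.castAdd m (Fin.natAdd v s)) = Q s := fun s => by
    rw [hpts, Fin.append_left, Fin.append_right]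
  have hp3 : ∀ s, pts (Fin.natAdd (v + α) s) = Fin.snoc (z s) t := fun s => by
    rw [hpts, Fin.append_right]
  let Ψ : (V₁ × V₂) →ₗ[ℂ] MvPolynomial (Fin (N + 1)) ℂ :=
    { toFun := fun x => t • rename Fin.castSucc (e₁ x.1) + X (Fin.last N) * e₂ x.2
      map_add' := fun x y => by
        simp only [Prod.fst_add, Prod.snd_add, map_add, smul_add, mul_add]
        ring
      map_smul' := fun c x => by
        simp only [Prod.smul_fst, Prod.smul_snd, map_smul, mul_smul_comm,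
          RingHom.id_apply, smul_add]
        rw [smul_comm] }
  let Φ : (V₁ × V₂) →ₗ[ℂ] H80R.Fm (N + 1) (d + 2) := LinearMap.codRestrict _ Ψ (fun x => by
    refine Submodule.add_mem _ (Submodule.smul_mem _ _ ?_) ?_
    · exact (mem_homogeneousSubmodule _ _).mpr
        (((mem_homogeneousSubmodule _ _).mp (he₁ x.1)).rename_isHomogeneous)
    · rw [← H80R.lf_last]
      exact H80R.lf_mul_mem _ (he₂ x.2))
  have hΦ : ∀ x, (Φ x).1 = t • rename Fin.castSucc (e₁ x.1) + X (Fin.last N) * e₂ x.2 :=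
    fun x => rfl
  have hgr : ∀ x p l, H80R.gr p (Φ x).1 l = t * H80R.gr p (rename Fin.castSucc (e₁ x.1)) l +
      H80R.gr p (X (Fin.last N) * (e₂ x.2)) l := by
    intro x p l
    rw [hΦ, H80R.gr_add, H80R.gr_smul]
    rfl
  have hle : LinearMap.ker (H80R.grL (N + 1) (d + 2) pts) ≤
      (LinearMap.ker (cond e₁ e₂ P Q z t)).map Φ := by
    intro A hA
    -- decomposition of `A`
    have hres := H80R.res_mem A.2
    have hsub : A.1 - rename Fin.castSucc (H80R.res N A.1) ∈ H80R.Fm (N + 1) (d + 1 + 1) := by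
      refine Submodule.sub_mem _ A.2 ?_
      exact (mem_homogeneousSubmodule _ _).mpr
        (((mem_homogeneousSubmodule _ _).mp hres).rename_isHomogeneous)
    obtain ⟨B, hB, hAB⟩ := H80R.res_eq_zero_form hsub (by
      rw [map_sub, H80R.res_rename, sub_self])
    obtain ⟨x₁, hx₁⟩ := hs₁ _ (Submodule.smul_mem _ t⁻¹ hres)
    obtain ⟨x₂, hx₂⟩ := hs₂ _ hB
    set x : V₁ × V₂ := (x₁, x₂) with hx
    have hxA : Φ x = A := by
      apply Subtype.ext
      rw [hΦ, hx]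
      simp only [hx₁, hx₂, map_smul]
      rw [smul_smul, mul_inv_cancel₀ ht0, one_smul, ← hAB]
      ring
    have hg : ∀ s l, H80R.gr (pts s) (Φ x).1 l = 0 := by
      intro s l
      rw [hxA]
      exact congrFun (congrFun (LinearMap.mem_ker.mp hA) s) l
    refine ⟨x, ?_, hxA⟩
    rw [SetLike.mem_coe, LinearMap.mem_ker]
    funext κ
    rcases κ with q | q | q | q | q
    · have h1 := hg (Fin.castAdd m (Fin.castAdd α q.1)) q.2.castSucc
      rw [hgr, hp1, lim_gr_rename, lim_snoc_comp, lim_gr_X, Fin.snoc_last, zero_mul,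
        add_zero] at h1
      exact (mul_eq_zero.mp h1).resolve_left ht0
    · have h1 := hg (Fin.castAdd m (Fin.castAdd α q)) (Fin.last N)
      rw [hgr, hp1, lim_gr_rename_last, lim_gr_X_last, Fin.snoc_last, zero_mul, mul_zero,
        zero_add, add_zero] at h1
      exact h1
    · have h1 := hg (Fin.castAdd m (Fin.natAdd v q.1)) q.2
      rw [hgr, hp2] at h1
      exact h1
    · have h1 := hg (Fin.natAdd (v + α) q.1) q.2.castSucc
      rw [hgr, hp3, lim_gr_rename, lim_snoc_comp, lim_gr_X, Fin.snoc_last, ← mul_add] at h1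
      exact (mul_eq_zero.mp h1).resolve_left ht0
    · have h1 := hg (Fin.natAdd (v + α) q) (Fin.last N)
      rw [hgr, hp3, lim_gr_rename_last, lim_gr_X_last, Fin.snoc_last, mul_zero,
        zero_add] at h1
      exact h1
  exact (Submodule.finrank_mono hle).trans (Submodule.finrank_map_le _ _)

theorem limit_step {N d v α m : ℕ} (P : Fin v → Fin N → ℂ) (Q : Fin α → Fin (N + 1) → ℂ)
    (z : Fin m → Fin N → ℂ) (hQ : ∀ i, Q i (Fin.last N) ≠ 0) :
    ∃ t : ℂ, H80R.nl (N + 1) (d + 2)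
      (Fin.append (Fin.append (fun i => (Fin.snoc (P i) 0 : Fin (N + 1) → ℂ)) Q :
        Fin (v + α) → Fin (N + 1) → ℂ) (fun i => (Fin.snoc (z i) t : Fin (N + 1) → ℂ)) :
        Fin (v + α + m) → Fin (N + 1) → ℂ) ≤
      finrank ℂ (trS N (d + 2) P z) + finrank ℂ (rsS N (d + 1) P Q z) :=
  limit_abs (H80R.Fm N (d + 2)).subtype (H80R.Fm (N + 1) (d + 1)).subtype
    (fun x => x.2) (fun x => x.2) (fun _ h => Subtype.ext h) (fun _ h => Subtype.ext h)
    (fun A hA => ⟨⟨A, hA⟩, rfl⟩) (fun A hA => ⟨⟨A, hA⟩, rfl⟩) P Q z hQ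

end H80T
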