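import Mathlib
import Pool.Agent.H80T.Defs5

/-! Semicontinuity of the dimension of spaces of forms defined by linear conditions with
coefficients which are polynomials in parameters (used in DHTR, GLACT, DHRES). -/

namespace H80T

open Module MvPolynomial

/-- linear conditions on forms -/
noncomputable def gsemi_map {ι : Type*} {N : ℕ} (d : ℕ) (L : ι → List (Fin N))
    (p : ι → Fin N → ℂ) : H80R.Fm N d →ₗ[ℂ] (ι → ℂ) where
  toFun A i := eval (p i) (H80R.dl (L i) A.1)
  map_add' A B := by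
    ext i
    simp
  map_smul' c A := by
    ext i
    simp

theorem gsemi_apply {ι : Type*} {N : ℕ} (d : ℕ) (L : ι → List (Fin N))
    (p : ι → Fin N → ℂ) (A : H80R.Fm N d) (i : ι) :
    gsemi_map d L p A i = eval (p i) (H80R.dl (L i) A.1) := rfl

theorem gsemi {τ ι : Type*} [Fintype ι] [DecidableEq ι] {N d : ℕ} (L : ι → List (Fin N))
    (pt : ι → Fin N → MvPolynomial τ ℚ) (c₀ c : τ → ℂ) (hc : AlgebraicIndependent ℚ c) :
    finrank ℂ (LinearMap.ker (gsemi_map d L (fun i l => aeval c (pt i l)))) ≤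
      finrank ℂ (LinearMap.ker (gsemi_map d L (fun i l => aeval c₀ (pt i l)))) := by
  classical
  obtain ⟨s, hs1, hs2⟩ := H80R.exists_coords
    (gsemi_map d L (fun i l => aeval c₀ (pt i l))) Finset.univ
  let ψ : (τ → ℂ) → (H80R.Fm N d →ₗ[ℂ] (s → ℂ)) := fun e =>
    gsemi_map d (fun i : s => L i.1) (fun i l => aeval e (pt i.1 l))
  have hψ0 : Function.Surjective (ψ c₀) := by
    intro b
    obtain ⟨A, hA⟩ := hs1 (fun i => if h : i ∈ s then b ⟨i, h⟩ else 0)
    refine ⟨A, ?_⟩
    ext i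
    have h1 := hA i.1 i.2
    rw [dif_pos i.2] at h1
    exact h1
  have hψ : Function.Surjective (ψ c) := by
    intro b
    obtain ⟨A, hA, hA1⟩ := H80R.spec_forms (d := d) (fun i : s => L i.1)
      (fun i : s => pt i.1) c₀ (by
      intro β
      obtain ⟨A, hA⟩ := hψ0 β
      exact ⟨A.1, A.2, fun i => congrFun hA i⟩) c hc b
    exact ⟨⟨A, hA⟩, funext hA1⟩
  have hk0 : LinearMap.ker (gsemi_map d L (fun i l => aeval c₀ (pt i l))) =
      LinearMap.ker (ψ c₀) := by
    apply le_antisymm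
    · intro A hA
      rw [LinearMap.mem_ker] at hA ⊢
      ext i
      exact congrFun hA i.1
    · intro A hA
      rw [LinearMap.mem_ker] at hA ⊢
      have h1 := hs2 A (fun i hi => congrFun hA ⟨i, hi⟩)
      ext i
      exact h1 i (Finset.mem_univ _)
  have hk : LinearMap.ker (gsemi_map d L (fun i l => aeval c (pt i l))) ≤
      LinearMap.ker (ψ c) := by
    intro A hA
    rw [LinearMap.mem_ker] at hA ⊢
    ext i
    exact congrFun hA i.1
  have h1 := LinearMap.finrank_range_add_finrank_ker (ψ c₀)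
  have h2 := LinearMap.finrank_range_add_finrank_ker (ψ c)
  rw [LinearMap.range_eq_top.mpr hψ0, finrank_top] at h1
  rw [LinearMap.range_eq_top.mpr hψ, finrank_top] at h2
  have h3 := Submodule.finrank_mono hk
  rw [hk0]
  omega

/-- a space of forms defined as a kernel -/
theorem gsemi_finrank {N d : ℕ} {E : Type*} [AddCommGroup E] [Module ℂ E]
    (S : Submodule ℂ (MvPolynomial (Fin N) ℂ)) (Φ : H80R.Fm N d →ₗ[ℂ] E)
    (hS : ∀ A, A ∈ S ↔ ∃ h : A ∈ H80R.Fm N d, Φ ⟨A, h⟩ = 0) :
    finrank ℂ S = finrank ℂ (LinearMap.ker Φ) := by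
  have h1 : S = (LinearMap.ker Φ).map (H80R.Fm N d).subtype := by
    ext A
    rw [hS, Submodule.mem_map]
    constructor
    · rintro ⟨h, h2⟩
      exact ⟨⟨A, h⟩, h2, rfl⟩
    · rintro ⟨⟨B, hB⟩, h2, rfl⟩
      exact ⟨hB, h2⟩
  rw [h1]
  exact Submodule.finrank_map_subtype_eq _ _

end H80T
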