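import Mathlib
import Pool.Agent.H80T.Defs5
import Pool.Agent.H80T.GSemi

/-! DHTR: the trace part of the differential Horace step. -/

namespace H80T

open Module MvPolynomial

theorem dhtr_semi {N d v m : ℕ} (P P₀ : Fin v → Fin N → ℂ) (z z₀ : Fin m → Fin N → ℂ)
    (halg : AlgebraicIndependent ℚ (Sum.elim (fun q : Fin v × Fin N => P q.1 q.2)
      (fun q : Fin m × Fin N => z q.1 q.2))) :
    finrank ℂ (trS N d P z) ≤ finrank ℂ (trS N d P₀ z₀) := by
  classical
  let τ := (Fin v × Fin N) ⊕ (Fin m × Fin N)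
  let ι := (Fin v × Fin N) ⊕ Fin m
  let L : ι → List (Fin N) := Sum.elim (fun p => [p.2]) (fun _ => [])
  let pt : ι → Fin N → MvPolynomial τ ℚ :=
    Sum.elim (fun p m => X (Sum.inl (p.1, m))) (fun j m => X (Sum.inr (j, m)))
  have key : ∀ (P : Fin v → Fin N → ℂ) (z : Fin m → Fin N → ℂ),
      finrank ℂ (trS N d P z) = finrank ℂ (LinearMap.ker (gsemi_map d L
        (fun i l => aeval (Sum.elim (fun q : Fin v × Fin N => P q.1 q.2)
      (fun q : Fin m × Fin N => z q.1 q.2)) (pt i l)))) := by
    intro P z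
    apply gsemi_finrank
    intro A
    constructor
    · rintro ⟨h, h1, h2⟩
      refine ⟨h, ?_⟩
      ext (⟨s, l⟩ | j)
      · rw [gsemi_apply]
        have := congrFun (h1 s) l
        simpa [pt, L, H80R.gr] using this
      · rw [gsemi_apply]
        simpa [pt, L] using h2 j
    · rintro ⟨h, h1⟩
      refine ⟨h, fun s => ?_, fun j => ?_⟩
      · ext l
        have := congrFun h1 (Sum.inl (s, l))
        rw [gsemi_apply] at this
        simpa [pt, L, H80R.gr] using this
      · have := congrFun h1 (Sum.inr j)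
        rw [gsemi_apply] at this
        simpa [pt, L] using this
  rw [key, key]
  exact gsemi L pt _ _ halg

/-- general points impose independent conditions, up to the dimension of the space -/
theorem dhtr_simple {N : ℕ} (W : Submodule ℂ (MvPolynomial (Fin N) ℂ))
    [FiniteDimensional ℂ W] (m : ℕ) :
    ∃ R : Fin m → Fin N → ℂ, ∀ (S : Submodule ℂ (MvPolynomial (Fin N) ℂ)),
      (∀ A, A ∈ S → A ∈ W ∧ ∀ j, eval (R j) A = 0) → finrank ℂ S ≤ finrank ℂ W - m := by
  classical
  obtain ⟨R, hR⟩ := H80R.exists_simple W (min m (finrank ℂ W)) (min_le_right _ _)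
  refine ⟨fun j => if h : j.1 < min m (finrank ℂ W) then R ⟨j.1, h⟩ else 0, fun S hS => ?_⟩
  let φ : W →ₗ[ℂ] (Fin (min m (finrank ℂ W)) → ℂ) :=
    { toFun := fun A j => eval (R j) A.1
      map_add' := by
        intro A B; ext j; simp
      map_smul' := by
        intro c A; ext j; simp }
  have hφ : Function.Surjective φ := by
    intro c
    obtain ⟨A, hA, hA1⟩ := hR c
    exact ⟨⟨A, hA⟩, funext hA1⟩
  have h1 := LinearMap.finrank_range_add_finrank_ker φ
  rw [LinearMap.range_eq_top.mpr hφ, finrank_top, Module.finrank_fin_fun] at h1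
  have h2 : finrank ℂ S ≤ finrank ℂ (LinearMap.ker φ) := by
    let f : S →ₗ[ℂ] W := Submodule.inclusion (fun A hA => (hS A hA).1)
    let f' : S →ₗ[ℂ] LinearMap.ker φ := LinearMap.codRestrict (LinearMap.ker φ) f (by
      intro A
      rw [LinearMap.mem_ker]
      ext j
      have h3 := (hS A.1 A.2).2 ⟨j.1, lt_of_lt_of_le j.2 (min_le_left _ _)⟩
      simp only [dif_pos j.2] at h3
      exact h3)
    apply LinearMap.finrank_le_finrank_of_injective (f := f')
    intro A B hAB
    have h4 : f A = f B := congrArg Subtype.val hAB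
    have h5 : (f A : MvPolynomial (Fin N) ℂ) = f B := congrArg Subtype.val h4
    exact Subtype.ext h5
  omega

theorem trace_gen {N d v m w : ℕ} (h : H80R.Sg N d v w) (P : Fin v → Fin N → ℂ)
    (z : Fin m → Fin N → ℂ)
    (halg : AlgebraicIndependent ℚ (Sum.elim (fun q : Fin v × Fin N => P q.1 q.2)
      (fun q : Fin m × Fin N => z q.1 q.2))) :
    finrank ℂ (trS N d P z) ≤ w - m := by
  classical
  have hP : AlgebraicIndependent ℚ (fun q : Fin v × Fin N => P q.1 q.2) := by
    have := halg.comp Sum.inl Sum.inl_injective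
    exact this
  have hw := h P hP
  let K := LinearMap.ker (H80R.grL N d P)
  let W := K.map (H80R.Fm N d).subtype
  have hW1 : finrank ℂ W = H80R.nl N d P := Submodule.finrank_map_subtype_eq _ _
  obtain ⟨R, hR⟩ := dhtr_simple W m
  refine (dhtr_semi P P z R halg).trans ?_
  refine (hR _ (fun A hA => ?_)).trans (by omega)
  obtain ⟨h1, h2, h3⟩ := hA
  refine ⟨⟨⟨A, h1⟩, ?_, rfl⟩, h3⟩
  show H80R.grL N d P ⟨A, h1⟩ = 0
  ext s l
  exact congrFun (h2 s) l

end H80T
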