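import Mathlib
import Pool.Agent.H80T.Defs5
import Pool.Agent.H80T.GSemi

/-! GLACT: linear changes of coordinates. -/

namespace H80T

open Module MvPolynomial

/-- substitution of linear forms -/
noncomputable def glact_sub {N : ℕ} (g : (Fin N → ℂ) →ₗ[ℂ] (Fin N → ℂ)) :
    MvPolynomial (Fin N) ℂ →ₐ[ℂ] MvPolynomial (Fin N) ℂ :=
  aeval (fun l => ∑ m, C (g (Pi.single m 1) l) * X m)

theorem glact_coord {N : ℕ} (g : (Fin N → ℂ) →ₗ[ℂ] (Fin N → ℂ)) (v : Fin N → ℂ) (l : Fin N) :
    ∑ m, g (Pi.single m 1) l * v m = g v l := by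
  have h : v = ∑ m, v m • (Pi.single m 1 : Fin N → ℂ) := by
    ext j
    simp [Finset.sum_apply, Pi.single_apply]
  conv_rhs => rw [h]
  rw [map_sum, Finset.sum_apply]
  refine Finset.sum_congr rfl fun m _ => ?_
  rw [map_smul, Pi.smul_apply, smul_eq_mul, mul_comm]

theorem glact_eval {N : ℕ} (g : (Fin N → ℂ) →ₗ[ℂ] (Fin N → ℂ)) (v : Fin N → ℂ)
    (A : MvPolynomial (Fin N) ℂ) : eval v (glact_sub g A) = eval (g v) A := by
  have h : (aeval v : MvPolynomial (Fin N) ℂ →ₐ[ℂ] ℂ).comp (glact_sub g) =
      (aeval (g v) : MvPolynomial (Fin N) ℂ →ₐ[ℂ] ℂ) := by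
    apply MvPolynomial.algHom_ext
    intro l
    rw [AlgHom.comp_apply, glact_sub, aeval_X, aeval_X, map_sum, ← glact_coord]
    refine Finset.sum_congr rfl fun m _ => ?_
    rw [map_mul, aeval_X, algHom_C]
    simp
  have h2 := congrArg (fun f : MvPolynomial (Fin N) ℂ →ₐ[ℂ] ℂ => f A) h
  simpa [aeval_eq_eval] using h2

theorem glact_pderiv {N : ℕ} (g : (Fin N → ℂ) →ₗ[ℂ] (Fin N → ℂ)) (m : Fin N)
    (A : MvPolynomial (Fin N) ℂ) :
    pderiv m (glact_sub g A) = ∑ l, C (g (Pi.single m 1) l) * glact_sub g (pderiv l A) := by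
  classical
  have hX : ∀ n, pderiv m (glact_sub g (X n)) = C (g (Pi.single m 1) n) := by
    intro n
    rw [glact_sub, aeval_X, map_sum, Finset.sum_eq_single m]
    · simp
    · intro b _ hb
      rw [Derivation.leibniz, pderiv_X_of_ne hb]
      simp
    · simp
  induction A using MvPolynomial.induction_on with
  | C a => simp [glact_sub]
  | add p q hp hq =>
    simp only [map_add, hp, hq, mul_add, Finset.sum_add_distrib]
  | mul_X p n hp =>
    rw [map_mul, Derivation.leibniz, hp, hX]
    simp only [Derivation.leibniz, smul_eq_mul, map_add, map_mul, mul_add,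
      Finset.sum_add_distrib, Finset.mul_sum]
    congr 1
    · rw [Finset.sum_eq_single n]
      · simp
        ring
      · intro b _ hb
        rw [pderiv_X_of_ne hb.symm]
        simp
      · simp
    · exact Finset.sum_congr rfl fun l _ => by ring

theorem glact_gr {N : ℕ} (g : (Fin N → ℂ) →ₗ[ℂ] (Fin N → ℂ)) (v : Fin N → ℂ)
    (A : MvPolynomial (Fin N) ℂ) (m : Fin N) :
    H80R.gr v (glact_sub g A) m = ∑ l, g (Pi.single m 1) l * H80R.gr (g v) A l := by
  simp only [H80R.gr]
  rw [glact_pderiv, map_sum]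
  refine Finset.sum_congr rfl fun l _ => ?_
  rw [map_mul, eval_C, glact_eval]

theorem glact_mem {N d : ℕ} (g : (Fin N → ℂ) →ₗ[ℂ] (Fin N → ℂ)) {A : MvPolynomial (Fin N) ℂ}
    (hA : A ∈ H80R.Fm N d) : glact_sub g A ∈ H80R.Fm N d := by
  have h := IsHomogeneous.aeval (φ := A) (m := d) (n := 1) hA
    (fun l => ∑ m, C (g (Pi.single m 1) l) * X m) (by
      intro l
      refine IsHomogeneous.sum _ _ _ fun m _ => ?_
      have := (isHomogeneous_C (Fin N) (g (Pi.single m 1) l)).mul (isHomogeneous_X ℂ m)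
      rwa [zero_add] at this)
  rw [one_mul] at h
  exact h

theorem glact_nl_le {N d a : ℕ} (g : (Fin N → ℂ) →ₗ[ℂ] (Fin N → ℂ))
    (hg : Function.Surjective g) (z : Fin a → Fin N → ℂ) :
    H80R.nl N d (fun s => g (z s)) ≤ H80R.nl N d z := by
  let f : LinearMap.ker (H80R.grL N d (fun s => g (z s))) →ₗ[ℂ]
      LinearMap.ker (H80R.grL N d z) :=
    { toFun := fun A => ⟨⟨glact_sub g A.1.1, glact_mem g A.1.2⟩, by
        rw [LinearMap.mem_ker]
        ext s m
        have h1 : H80R.gr (g (z s)) A.1.1 = 0 := congrFun (LinearMap.mem_ker.mp A.2) s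
        show H80R.gr (z s) (glact_sub g A.1.1) m = 0
        rw [glact_gr, h1]
        simp⟩
      map_add' := by
        intro A B
        apply Subtype.ext
        apply Subtype.ext
        exact map_add _ _ _
      map_smul' := by
        intro c A
        apply Subtype.ext
        apply Subtype.ext
        exact map_smul _ _ _ }
  apply LinearMap.finrank_le_finrank_of_injective (f := f)
  intro A B hAB
  have h1 : glact_sub g A.1.1 = glact_sub g B.1.1 :=
    congrArg (fun x : LinearMap.ker (H80R.grL N d z) => x.1.1) hAB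
  apply Subtype.ext
  apply Subtype.ext
  apply MvPolynomial.funext
  intro v
  obtain ⟨w, rfl⟩ := hg v
  rw [← glact_eval, ← glact_eval, h1]

/-- invariance under invertible linear maps -/
theorem nl_linear {N d a : ℕ} (g : (Fin N → ℂ) ≃ₗ[ℂ] (Fin N → ℂ)) (z : Fin a → Fin N → ℂ) :
    H80R.nl N d (fun s => g (z s)) = H80R.nl N d z := by
  apply le_antisymm
  · exact glact_nl_le g.toLinearMap g.surjective z
  · have h := glact_nl_le (d := d) g.symm.toLinearMap g.symm.surjective (fun s => g (z s))
    simpa using h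

/-- a linear change of coordinates moving `m ≤ N` vectors to the last coordinate hyperplane -/
theorem glact_exists {N m : ℕ} (hm : m ≤ N) (u : Fin m → Fin (N + 1) → ℂ) :
    ∃ g : (Fin (N + 1) → ℂ) ≃ₗ[ℂ] (Fin (N + 1) → ℂ), ∀ i, g (u i) (Fin.last N) = 0 := by
  classical
  have h1 : Submodule.span ℂ (Set.range u) < ⊤ := by
    rw [lt_top_iff_ne_top]
    intro h
    have h2 := finrank_range_le_card (R := ℂ) u
    rw [Set.finrank, h, finrank_top, Module.finrank_fin_fun, Fintype.card_fin] at h2
    omega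
  obtain ⟨φ, hφ, hle⟩ := Submodule.exists_le_ker_of_lt_top _ h1
  have h3 : ∃ l0, φ (Pi.single l0 1) ≠ 0 := by
    by_contra hcon
    push Not at hcon
    apply hφ
    apply LinearMap.pi_ext
    intro i x
    have : (Pi.single i x : Fin (N + 1) → ℂ) = x • Pi.single i 1 := by
      rw [← Pi.single_smul, smul_eq_mul, mul_one]
    rw [this, map_smul, hcon i]
    simp
  obtain ⟨l0, hl0⟩ := h3
  let T : (Fin (N + 1) → ℂ) →ₗ[ℂ] (Fin (N + 1) → ℂ) :=
    { toFun := fun v l => if l = Fin.last N then φ v else v (Equiv.swap l0 (Fin.last N) l)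
      map_add' := by
        intro v w
        ext l
        simp only [map_add, Pi.add_apply]
        split_ifs <;> rfl
      map_smul' := by
        intro c v
        ext l
        simp only [map_smul, Pi.smul_apply, smul_eq_mul, RingHom.id_apply]
        split_ifs <;> rfl }
  have hT : Function.Injective T := by
    rw [← LinearMap.ker_eq_bot, LinearMap.ker_eq_bot']
    intro v hv
    have h4 : ∀ l, l ≠ l0 → v l = 0 := by
      intro l hl
      have h5 := congrFun hv (Equiv.swap l0 (Fin.last N) l)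
      have h6 : Equiv.swap l0 (Fin.last N) l ≠ Fin.last N := by
        intro h7
        rw [Equiv.swap_apply_eq_iff, Equiv.swap_apply_right] at h7
        exact hl h7
      have h8 : T v (Equiv.swap l0 (Fin.last N) l) =
          if Equiv.swap l0 (Fin.last N) l = Fin.last N then φ v else
            v (Equiv.swap l0 (Fin.last N) (Equiv.swap l0 (Fin.last N) l)) := rfl
      rw [h8, if_neg h6, Equiv.swap_apply_self] at h5
      exact h5
    have h5 : v = v l0 • (Pi.single l0 1 : Fin (N + 1) → ℂ) := by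
      ext l
      by_cases hl : l = l0
      · subst hl
        simp
      · rw [h4 l hl]
        simp [hl]
    have h6 : φ v = 0 := by
      have h7 := congrFun hv (Fin.last N)
      have h8 : T v (Fin.last N) = if Fin.last N = Fin.last N then φ v else
            v (Equiv.swap l0 (Fin.last N) (Fin.last N)) := rfl
      rw [h8, if_pos rfl] at h7
      exact h7
    rw [h5, map_smul, smul_eq_mul] at h6
    have h7 := (mul_eq_zero.mp h6).resolve_right hl0
    rw [h5, h7, zero_smul]
  refine ⟨LinearEquiv.ofInjectiveEndo T hT, fun i => ?_⟩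
  have h9 : LinearEquiv.ofInjectiveEndo T hT (u i) = T (u i) := rfl
  rw [h9]
  have h8 : T (u i) (Fin.last N) = if Fin.last N = Fin.last N then φ (u i) else
            u i (Equiv.swap l0 (Fin.last N) (Fin.last N)) := rfl
  rw [h8, if_pos rfl]
  exact hle (Submodule.subset_span ⟨i, rfl⟩)

theorem glact_nl_ge {N d r : ℕ} (w : Fin r → Fin N → ℂ) :
    N.multichoose d ≤ H80R.nl N d w + N * r := by
  have h1 := LinearMap.finrank_range_add_finrank_ker (H80R.grL N d w)
  rw [H80R.finrank_Fm] at h1
  have h2 : Module.finrank ℂ (LinearMap.range (H80R.grL N d w)) ≤ N * r := by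
    have := Submodule.finrank_le (LinearMap.range (H80R.grL N d w))
    refine this.trans ?_
    rw [Module.finrank_pi_fintype]
    simp [mul_comm]
  have h3 : H80R.nl N d w = Module.finrank ℂ (LinearMap.ker (H80R.grL N d w)) := rfl
  omega

theorem glact_semi {N d α m : ℕ} (Q Q₀ : Fin α → Fin (N + 1) → ℂ) (z z₀ : Fin m → Fin N → ℂ)
    (halg : AlgebraicIndependent ℚ (Sum.elim (fun q : Fin α × Fin (N + 1) => Q q.1 q.2)
      (fun q : Fin m × Fin N => z q.1 q.2))) :
    H80R.nl (N + 1) d (Fin.append Q (fun i => (Fin.snoc (z i) 0 : Fin (N + 1) → ℂ)) :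
      Fin (α + m) → Fin (N + 1) → ℂ) ≤
    H80R.nl (N + 1) d (Fin.append Q₀ (fun i => (Fin.snoc (z₀ i) 0 : Fin (N + 1) → ℂ)) :
      Fin (α + m) → Fin (N + 1) → ℂ) := by
  classical
  let τ := (Fin α × Fin (N + 1)) ⊕ (Fin m × Fin N)
  let ι := Fin (α + m) × Fin (N + 1)
  let L : ι → List (Fin (N + 1)) := fun p => [p.2]
  let pt : ι → Fin (N + 1) → MvPolynomial τ ℚ := fun p =>
    (Fin.append (fun i l => X (Sum.inl (i, l))) (fun j => Fin.snoc (fun l => X (Sum.inr (j, l))) 0) :
      Fin (α + m) → Fin (N + 1) → MvPolynomial τ ℚ) p.1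
  have key : ∀ (Q : Fin α → Fin (N + 1) → ℂ) (z : Fin m → Fin N → ℂ),
      H80R.nl (N + 1) d (Fin.append Q (fun i => (Fin.snoc (z i) 0 : Fin (N + 1) → ℂ)) :
      Fin (α + m) → Fin (N + 1) → ℂ) = finrank ℂ (LinearMap.ker (gsemi_map d L
        (fun i l => aeval (Sum.elim (fun q : Fin α × Fin (N + 1) => Q q.1 q.2)
      (fun q : Fin m × Fin N => z q.1 q.2)) (pt i l)))) := by
    intro Q z
    have hpt : ∀ (s : Fin (α + m)) (j : Fin (N + 1)),
        (fun l => aeval (Sum.elim (fun q : Fin α × Fin (N + 1) => Q q.1 q.2)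
      (fun q : Fin m × Fin N => z q.1 q.2)) (pt (s, j) l)) =
        (Fin.append Q (fun i => (Fin.snoc (z i) 0 : Fin (N + 1) → ℂ)) :
          Fin (α + m) → Fin (N + 1) → ℂ) s := by
      intro s j
      ext l
      refine Fin.addCases (fun s => ?_) (fun s => ?_) s
      · simp [pt]
      · refine Fin.lastCases ?_ (fun l => ?_) l
        · simp [pt]
        · simp [pt]
    have hker : LinearMap.ker (H80R.grL (N + 1) d
        (Fin.append Q (fun i => (Fin.snoc (z i) 0 : Fin (N + 1) → ℂ)) :
          Fin (α + m) → Fin (N + 1) → ℂ)) = LinearMap.ker (gsemi_map d L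
        (fun i l => aeval (Sum.elim (fun q : Fin α × Fin (N + 1) => Q q.1 q.2)
      (fun q : Fin m × Fin N => z q.1 q.2)) (pt i l))) := by
      ext A
      rw [LinearMap.mem_ker, LinearMap.mem_ker]
      constructor
      · intro h
        ext ⟨s, l⟩
        rw [gsemi_apply, hpt]
        exact congrFun (congrFun h s) l
      · intro h
        ext s l
        have h1 := congrFun h (s, l)
        rw [gsemi_apply, hpt] at h1
        exact h1
    unfold H80R.nl
    rw [hker]
  rw [key, key]
  exact gsemi L pt _ _ halg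

/-- `α` general points and `m ≤ N` general points of the hyperplane impose independent conditions
if `α + m` general points do. -/
theorem gs_hyper {N d α m : ℕ} (hm : m ≤ N)
    (h : H80R.Sg (N + 1) d (α + m) ((N + 1).multichoose d - (N + 1) * (α + m)))
    (h' : (N + 1) * (α + m) ≤ (N + 1).multichoose d)
    (Q : Fin α → Fin (N + 1) → ℂ) (z : Fin m → Fin N → ℂ)
    (halg : AlgebraicIndependent ℚ (Sum.elim (fun q : Fin α × Fin (N + 1) => Q q.1 q.2)
      (fun q : Fin m × Fin N => z q.1 q.2))) :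
    H80R.nl (N + 1) d (Fin.append Q (fun i => (Fin.snoc (z i) 0 : Fin (N + 1) → ℂ)) :
      Fin (α + m) → Fin (N + 1) → ℂ) = (N + 1).multichoose d - (N + 1) * (α + m) := by
  classical
  apply le_antisymm
  · obtain ⟨v, hv⟩ := H80R.exists_algebraicIndependent (Fin (α + m) × Fin (N + 1))
    let ζ : Fin (α + m) → Fin (N + 1) → ℂ := fun s l => v (s, l)
    have h1 : H80R.nl (N + 1) d ζ ≤ (N + 1).multichoose d - (N + 1) * (α + m) := h ζ hv
    obtain ⟨g, hg⟩ := glact_exists hm (fun i => ζ (Fin.natAdd α i))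
    have h2 := nl_linear (d := d) g ζ
    have h3 : (fun s => g (ζ s)) = (Fin.append (fun i => g (ζ (Fin.castAdd m i)))
        (fun i => (Fin.snoc (fun l : Fin N => g (ζ (Fin.natAdd α i)) l.castSucc) 0 :
          Fin (N + 1) → ℂ)) : Fin (α + m) → Fin (N + 1) → ℂ) := by
      ext s l
      refine Fin.addCases (fun s => ?_) (fun s => ?_) s
      · rw [Fin.append_left]
      · rw [Fin.append_right]
        refine Fin.lastCases ?_ (fun l => ?_) l
        · rw [Fin.snoc_last]
          exact hg s
        · rw [Fin.snoc_castSucc]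
    have h4 := glact_semi (d := d) Q (fun i => g (ζ (Fin.castAdd m i))) z
      (fun i l => g (ζ (Fin.natAdd α i)) l.castSucc) halg
    rw [← h3, h2] at h4
    exact h4.trans h1
  · have h1 := glact_nl_ge (d := d) (Fin.append Q (fun i => (Fin.snoc (z i) 0 :
      Fin (N + 1) → ℂ)) : Fin (α + m) → Fin (N + 1) → ℂ)
    omega

end H80T
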