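import Mathlib
import Pool.Agent.H80T.GlAct
import Pool.Agent.H80T.DhTr

/-! DHRES: the residual part of the differential Horace step. -/

namespace H80T

open Module MvPolynomial

theorem dhres_semi {N d v α m : ℕ} (P P₀ : Fin v → Fin N → ℂ) (Q Q₀ : Fin α → Fin (N + 1) → ℂ)
    (z z₀ : Fin m → Fin N → ℂ)
    (halg : AlgebraicIndependent ℚ (Sum.elim (fun q : Fin v × Fin N => P q.1 q.2)
      (Sum.elim (fun q : Fin α × Fin (N + 1) => Q q.1 q.2)
        (fun q : Fin m × Fin N => z q.1 q.2)))) :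
    finrank ℂ (rsS N d P Q z) ≤ finrank ℂ (rsS N d P₀ Q₀ z₀) := by
  classical
  let τ := (Fin v × Fin N) ⊕ ((Fin α × Fin (N + 1)) ⊕ (Fin m × Fin N))
  let ι := Fin v ⊕ ((Fin α × Fin (N + 1)) ⊕ (Fin m × Fin N))
  let L : ι → List (Fin (N + 1)) :=
    Sum.elim (fun _ => []) (Sum.elim (fun p => [p.2]) (fun p => [p.2.castSucc]))
  let pt : ι → Fin (N + 1) → MvPolynomial τ ℚ :=
    Sum.elim (fun s => Fin.snoc (fun l => X (Sum.inl (s, l))) 0)
      (Sum.elim (fun p l => X (Sum.inr (Sum.inl (p.1, l))))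
        (fun p => Fin.snoc (fun l => X (Sum.inr (Sum.inr (p.1, l)))) 0))
  have key : ∀ (P : Fin v → Fin N → ℂ) (Q : Fin α → Fin (N + 1) → ℂ) (z : Fin m → Fin N → ℂ),
      finrank ℂ (rsS N d P Q z) = finrank ℂ (LinearMap.ker (gsemi_map d L
        (fun i l => aeval (Sum.elim (fun q : Fin v × Fin N => P q.1 q.2)
      (Sum.elim (fun q : Fin α × Fin (N + 1) => Q q.1 q.2)
        (fun q : Fin m × Fin N => z q.1 q.2))) (pt i l)))) := by
    intro P Q z
    have h1 : ∀ s : Fin v, (fun l => aeval (Sum.elim (fun q : Fin v × Fin N => P q.1 q.2)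
      (Sum.elim (fun q : Fin α × Fin (N + 1) => Q q.1 q.2)
        (fun q : Fin m × Fin N => z q.1 q.2))) (pt (Sum.inl s) l)) =
        (Fin.snoc (P s) 0 : Fin (N + 1) → ℂ) := by
      intro s
      ext l
      refine Fin.lastCases ?_ (fun l => ?_) l
      · simp [pt]
      · simp [pt]
    have h2 : ∀ p : Fin α × Fin (N + 1), (fun l => aeval (Sum.elim
        (fun q : Fin v × Fin N => P q.1 q.2)
      (Sum.elim (fun q : Fin α × Fin (N + 1) => Q q.1 q.2)
        (fun q : Fin m × Fin N => z q.1 q.2))) (pt (Sum.inr (Sum.inl p)) l)) = Q p.1 := by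
      intro p
      ext l
      simp [pt]
    have h3 : ∀ p : Fin m × Fin N, (fun l => aeval (Sum.elim
        (fun q : Fin v × Fin N => P q.1 q.2)
      (Sum.elim (fun q : Fin α × Fin (N + 1) => Q q.1 q.2)
        (fun q : Fin m × Fin N => z q.1 q.2))) (pt (Sum.inr (Sum.inr p)) l)) =
        (Fin.snoc (z p.1) 0 : Fin (N + 1) → ℂ) := by
      intro p
      ext l
      refine Fin.lastCases ?_ (fun l => ?_) l
      · simp [pt]
      · simp [pt]
    apply gsemi_finrank
    intro A
    constructor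
    · rintro ⟨h, e1, e2, e3⟩
      refine ⟨h, ?_⟩
      ext (s | ⟨i, l⟩ | ⟨i, l⟩)
      · rw [gsemi_apply, h1]
        exact e1 s
      · rw [gsemi_apply, h2]
        exact congrFun (e2 i) l
      · rw [gsemi_apply, h3]
        exact e3 i l
    · rintro ⟨h, e⟩
      refine ⟨h, fun s => ?_, fun i => ?_, fun i l => ?_⟩
      · have := congrFun e (Sum.inl s)
        rw [gsemi_apply, h1] at this
        exact this
      · ext l
        have := congrFun e (Sum.inr (Sum.inl (i, l)))
        rw [gsemi_apply, h2] at this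
        exact this
      · have := congrFun e (Sum.inr (Sum.inr (i, l)))
        rw [gsemi_apply, h3] at this
        exact this
  rw [key, key]
  exact gsemi L pt _ _ halg

/-- dropping the conditions `gr (z_i, 0) B last = 0` -/
theorem dhres_bb {N d α m : ℕ} (Q : Fin α → Fin (N + 1) → ℂ) (z : Fin m → Fin N → ℂ)
    (h' : (N + 1) * (α + m) ≤ (N + 1).multichoose d)
    (h : H80R.nl (N + 1) d (Fin.append Q (fun i => (Fin.snoc (z i) 0 : Fin (N + 1) → ℂ)) :
      Fin (α + m) → Fin (N + 1) → ℂ) = (N + 1).multichoose d - (N + 1) * (α + m))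
    (P : Fin 0 → Fin N → ℂ) :
    finrank ℂ (rsS N d P Q z) ≤ (N + 1).multichoose d - (N + 1) * α - N * m := by
  classical
  -- the full system is surjective
  let Z : Fin (α + m) → Fin (N + 1) → ℂ :=
    Fin.append Q (fun i => (Fin.snoc (z i) 0 : Fin (N + 1) → ℂ))
  have h1 := LinearMap.finrank_range_add_finrank_ker (H80R.grL (N + 1) d Z)
  rw [H80R.finrank_Fm] at h1
  have h2 : finrank ℂ (LinearMap.ker (H80R.grL (N + 1) d Z)) =
    (N + 1).multichoose d - (N + 1) * (α + m) := h
  have hfin : finrank ℂ (Fin (α + m) → Fin (N + 1) → ℂ) = (N + 1) * (α + m) := by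
    rw [Module.finrank_pi_fintype]
    simp [mul_comm]
  have hsurj : Function.Surjective (H80R.grL (N + 1) d Z) := by
    rw [← LinearMap.range_eq_top]
    apply Submodule.eq_top_of_finrank_eq
    rw [hfin]
    omega
  -- the smaller system
  let ι := (Fin α × Fin (N + 1)) ⊕ (Fin m × Fin N)
  let Ψ : H80R.Fm (N + 1) d →ₗ[ℂ] (ι → ℂ) :=
    { toFun := fun A => Sum.elim (fun p => H80R.gr (Q p.1) A.1 p.2)
        (fun p => H80R.gr (Fin.snoc (z p.1) 0 : Fin (N + 1) → ℂ) A.1 p.2.castSucc)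
      map_add' := by
        intro A B
        ext (p | p)
        · simp [H80R.gr_add]
        · simp [H80R.gr_add]
      map_smul' := by
        intro c A
        ext (p | p)
        · simp [H80R.gr_smul]
        · simp [H80R.gr_smul] }
  have hΨ : Function.Surjective Ψ := by
    intro b
    obtain ⟨A, hA⟩ := hsurj (Fin.append (fun i l => b (Sum.inl (i, l)))
      (fun j => (Fin.snoc (fun l => b (Sum.inr (j, l))) 0 : Fin (N + 1) → ℂ)))
    refine ⟨A, ?_⟩
    ext (⟨i, l⟩ | ⟨j, l⟩)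
    · have h3 := congrFun (congrFun hA (Fin.castAdd m i)) l
      have h4 : H80R.gr (Z (Fin.castAdd m i)) A.1 l =
        (Fin.append (fun i l => b (Sum.inl (i, l)))
      (fun j => (Fin.snoc (fun l => b (Sum.inr (j, l))) 0 : Fin (N + 1) → ℂ)) :
        Fin (α + m) → Fin (N + 1) → ℂ) (Fin.castAdd m i) l := h3
      simp only [Z, Fin.append_left] at h4
      exact h4
    · have h3 := congrFun (congrFun hA (Fin.natAdd α j)) l.castSucc
      have h4 : H80R.gr (Z (Fin.natAdd α j)) A.1 l.castSucc =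
        (Fin.append (fun i l => b (Sum.inl (i, l)))
      (fun j => (Fin.snoc (fun l => b (Sum.inr (j, l))) 0 : Fin (N + 1) → ℂ)) :
        Fin (α + m) → Fin (N + 1) → ℂ) (Fin.natAdd α j) l.castSucc := h3
      simp only [Z, Fin.append_right, Fin.snoc_castSucc] at h4
      exact h4
  have h5 := LinearMap.finrank_range_add_finrank_ker Ψ
  rw [LinearMap.range_eq_top.mpr hΨ, finrank_top, H80R.finrank_Fm] at h5
  have h6 : finrank ℂ (ι → ℂ) = (N + 1) * α + N * m := by
    simp [ι, mul_comm]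
  have h7 : finrank ℂ (rsS N d P Q z) = finrank ℂ (LinearMap.ker Ψ) := by
    apply gsemi_finrank
    intro A
    constructor
    · rintro ⟨h, e1, e2, e3⟩
      refine ⟨h, ?_⟩
      ext (⟨i, l⟩ | ⟨i, l⟩)
      · exact congrFun (e2 i) l
      · exact e3 i l
    · rintro ⟨h, e⟩
      refine ⟨h, fun s => s.elim0, fun i => ?_, fun i l => ?_⟩
      · ext l
        exact congrFun e (Sum.inl (i, l))
      · exact congrFun e (Sum.inr (i, l))
  rw [h7]
  omega

theorem resid_gen {N d v α m w : ℕ} (hm : m ≤ N)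
    (h : H80R.Sg (N + 1) (d + 1) (α + m) ((N + 1).multichoose (d + 1) - (N + 1) * (α + m)))
    (h' : (N + 1) * (α + m) ≤ (N + 1).multichoose (d + 1))
    (hw : H80R.Sg (N + 1) d α w)
    (P : Fin v → Fin N → ℂ) (Q : Fin α → Fin (N + 1) → ℂ) (z : Fin m → Fin N → ℂ)
    (halg : AlgebraicIndependent ℚ (Sum.elim (fun q : Fin v × Fin N => P q.1 q.2)
      (Sum.elim (fun q : Fin α × Fin (N + 1) => Q q.1 q.2)
        (fun q : Fin m × Fin N => z q.1 q.2)))) :
    finrank ℂ (rsS N (d + 1) P Q z) ≤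
      max ((N + 1).multichoose (d + 1) - (N + 1) * α - N * m - v) w := by
  classical
  have hQz : AlgebraicIndependent ℚ (Sum.elim (fun q : Fin α × Fin (N + 1) => Q q.1 q.2)
      (fun q : Fin m × Fin N => z q.1 q.2)) := halg.comp Sum.inr Sum.inr_injective
  have hQ : AlgebraicIndependent ℚ (fun q : Fin α × Fin (N + 1) => Q q.1 q.2) :=
    hQz.comp Sum.inl Sum.inl_injective
  have hQlast : ∀ i, Q i (Fin.last N) ≠ 0 := fun i => hQ.ne_zero (i, Fin.last N)
  have h1 := gs_hyper hm h h' Q z hQz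
  have h2 := dhres_bb Q z h' h1 (fun s => s.elim0)
  have hwQ := hw Q hQ
  set BB := rsS N (d + 1) (fun s : Fin 0 => (s.elim0 : Fin N → ℂ)) Q z with hBB
  have hBBle : BB ≤ H80R.Fm (N + 1) (d + 1) := fun A hA => hA.1
  have hBBfd : FiniteDimensional ℂ BB := Submodule.finiteDimensional_of_le hBBle
  -- restriction to the hyperplane
  let W : Submodule ℂ (MvPolynomial (Fin N) ℂ) := BB.map (H80R.res N).toLinearMap
  have hWfd : FiniteDimensional ℂ W := inferInstance
  let f : BB →ₗ[ℂ] W := (H80R.res N).toLinearMap.restrict (fun A hA => ⟨A, hA, rfl⟩)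
  have hf : Function.Surjective f := by
    rintro ⟨_, A, hA, rfl⟩
    exact ⟨⟨A, hA⟩, rfl⟩
  have h3 := LinearMap.finrank_range_add_finrank_ker f
  rw [LinearMap.range_eq_top.mpr hf, finrank_top] at h3
  -- the kernel of the restriction
  have h4 : finrank ℂ (LinearMap.ker f) ≤ w := by
    refine le_trans ?_ hwQ
    have hex : ∀ A : LinearMap.ker f, ∃ B : LinearMap.ker (H80R.grL (N + 1) d Q),
        (A.1.1 : MvPolynomial (Fin (N + 1)) ℂ) = X (Fin.last N) * B.1.1 := by
      rintro ⟨⟨A, hA⟩, hAf⟩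
      have h5 : H80R.res N A = 0 := congrArg Subtype.val (LinearMap.mem_ker.mp hAf)
      obtain ⟨B, hB, hAB⟩ := H80R.res_eq_zero_form hA.1 h5
      refine ⟨⟨⟨B, hB⟩, ?_⟩, hAB⟩
      rw [LinearMap.mem_ker]
      ext1 i
      have h6 : H80R.gr (Q i) (H80R.lf (Pi.single (Fin.last N) 1 : Fin (N + 1) → ℂ) * B) = 0 := by
        rw [H80R.lf_last, ← hAB]
        exact hA.2.2.1 i
      have h7 : eval (Q i) (H80R.lf (Pi.single (Fin.last N) 1 : Fin (N + 1) → ℂ)) ≠ 0 := by
        rw [H80R.lf_last, eval_X]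
        exact hQlast i
      exact (H80R.gr_zero_of_lf_mul _ (Q i) h7 hB h6).2
    let g : LinearMap.ker (H80R.grL (N + 1) d Q) →ₗ[ℂ] MvPolynomial (Fin (N + 1)) ℂ :=
      (LinearMap.mulLeft ℂ (X (Fin.last N))) ∘ₗ (H80R.Fm (N + 1) d).subtype ∘ₗ
        (LinearMap.ker (H80R.grL (N + 1) d Q)).subtype
    have h8 : (LinearMap.ker f).map BB.subtype ≤ LinearMap.range g := by
      rintro _ ⟨A, hA, rfl⟩
      obtain ⟨B, hB⟩ := hex ⟨A, hA⟩
      exact ⟨B, hB.symm⟩
    have h9 : finrank ℂ (LinearMap.range g) ≤ finrank ℂ (LinearMap.ker (H80R.grL (N + 1) d Q)) :=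
      LinearMap.finrank_range_le g
    have h10 : FiniteDimensional ℂ (LinearMap.range g) := inferInstance
    have h11 := Submodule.finrank_mono h8
    rw [Submodule.finrank_map_subtype_eq] at h11
    exact h11.trans h9
  -- general points of the hyperplane
  obtain ⟨R, hR⟩ := dhtr_simple W v
  refine (dhres_semi P R Q Q z z halg).trans ?_
  -- the space for the points `R`
  let S := rsS N (d + 1) R Q z
  have hSBB : ∀ A ∈ S, A ∈ BB := fun A hA => ⟨hA.1, fun s => s.elim0, hA.2.2.1, hA.2.2.2⟩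
  have hSfd : FiniteDimensional ℂ S :=
    Submodule.finiteDimensional_of_le (S₂ := BB) hSBB
  let T : Submodule ℂ (MvPolynomial (Fin N) ℂ) := S.map (H80R.res N).toLinearMap
  have hT : finrank ℂ T ≤ finrank ℂ W - v := by
    apply hR
    rintro _ ⟨A, hA, rfl⟩
    refine ⟨⟨A, hSBB A hA, rfl⟩, fun j => ?_⟩
    show eval (R j) (H80R.res N A) = 0
    rw [H80R.eval_res]
    exact hA.2.1 j
  let f' : S →ₗ[ℂ] T := (H80R.res N).toLinearMap.restrict (fun A hA => ⟨A, hA, rfl⟩)
  have hf' : Function.Surjective f' := by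
    rintro ⟨_, A, hA, rfl⟩
    exact ⟨⟨A, hA⟩, rfl⟩
  have h12 := LinearMap.finrank_range_add_finrank_ker f'
  rw [LinearMap.range_eq_top.mpr hf', finrank_top] at h12
  have h13 : finrank ℂ (LinearMap.ker f') ≤ finrank ℂ (LinearMap.ker f) := by
    let e : LinearMap.ker f' →ₗ[ℂ] LinearMap.ker f :=
      { toFun := fun A => ⟨⟨A.1.1, hSBB _ A.1.2⟩, by
          rw [LinearMap.mem_ker]
          apply Subtype.ext
          have h17 : f' A.1 = 0 := LinearMap.mem_ker.mp A.2
          have h18 : (f' A.1 : MvPolynomial (Fin N) ℂ) = 0 := by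
            rw [h17]
            rfl
          exact h18⟩
        map_add' := fun A B => rfl
        map_smul' := fun c A => rfl }
    apply LinearMap.finrank_le_finrank_of_injective (f := e)
    intro A B hAB
    have h14 : (A.1.1 : MvPolynomial (Fin (N + 1)) ℂ) = B.1.1 :=
      congrArg (fun x : LinearMap.ker f => (x.1.1 : MvPolynomial (Fin (N + 1)) ℂ)) hAB
    exact Subtype.ext (Subtype.ext h14)
  have h15 : finrank ℂ S = finrank ℂ (rsS N (d + 1) R Q z) := rfl
  rw [← h15]
  have h16 : finrank ℂ BB ≤ (N + 1).multichoose (d + 1) - (N + 1) * α - N * m := h2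
  rcases le_total v (finrank ℂ W) with hv | hv
  · refine le_trans ?_ (le_max_left _ _)
    omega
  · refine le_trans ?_ (le_max_right _ _)
    omega

end H80T
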