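import Mathlib
import Pool.Agent.H80T.DhTr
import Pool.Agent.H80T.DhRes
import Pool.Agent.H80T.DhLim

/-! DH: the differential Horace step. -/

namespace H80T

open Module MvPolynomial

theorem dhorace {N d v α m w₁ w₂ : ℕ} (hm : m ≤ N) (h1 : H80R.Sg N (d + 2) v w₁)
    (h : H80R.Sg (N + 1) (d + 1) (α + m) ((N + 1).multichoose (d + 1) - (N + 1) * (α + m)))
    (h' : (N + 1) * (α + m) ≤ (N + 1).multichoose (d + 1))
    (h2 : H80R.Sg (N + 1) d α w₂) :
    H80R.Sg (N + 1) (d + 2) (v + α + m)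
      ((w₁ - m) + max ((N + 1).multichoose (d + 1) - (N + 1) * α - N * m - v) w₂) := by
  obtain ⟨x, hx⟩ := H80R.exists_algebraicIndependent
    ((Fin v × Fin N) ⊕ ((Fin α × Fin (N + 1)) ⊕ (Fin m × Fin N)))
  have halgR : AlgebraicIndependent ℚ
      (Sum.elim (fun q : Fin v × Fin N => (fun s l => x (Sum.inl (s, l)) : Fin v → Fin N → ℂ) q.1 q.2)
      (Sum.elim (fun q : Fin α × Fin (N + 1) =>
        (fun s l => x (Sum.inr (Sum.inl (s, l))) : Fin α → Fin (N + 1) → ℂ) q.1 q.2)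
        (fun q : Fin m × Fin N =>
          (fun s l => x (Sum.inr (Sum.inr (s, l))) : Fin m → Fin N → ℂ) q.1 q.2))) := by
    have h3 : (Sum.elim (fun q : Fin v × Fin N =>
        (fun s l => x (Sum.inl (s, l)) : Fin v → Fin N → ℂ) q.1 q.2)
      (Sum.elim (fun q : Fin α × Fin (N + 1) =>
        (fun s l => x (Sum.inr (Sum.inl (s, l))) : Fin α → Fin (N + 1) → ℂ) q.1 q.2)
        (fun q : Fin m × Fin N =>
          (fun s l => x (Sum.inr (Sum.inr (s, l))) : Fin m → Fin N → ℂ) q.1 q.2))) = x := by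
      funext q
      rcases q with q | q | q <;> rfl
    rw [h3]
    exact hx
  have halgT : AlgebraicIndependent ℚ
      (Sum.elim (fun q : Fin v × Fin N => (fun s l => x (Sum.inl (s, l)) : Fin v → Fin N → ℂ) q.1 q.2)
        (fun q : Fin m × Fin N =>
          (fun s l => x (Sum.inr (Sum.inr (s, l))) : Fin m → Fin N → ℂ) q.1 q.2)) := by
    have h3 := hx.comp (Sum.elim (fun q : Fin v × Fin N => Sum.inl q)
      (fun q : Fin m × Fin N => Sum.inr (Sum.inr q)) : (Fin v × Fin N) ⊕ (Fin m × Fin N) →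
        (Fin v × Fin N) ⊕ ((Fin α × Fin (N + 1)) ⊕ (Fin m × Fin N))) (by
      rintro (a | a) (b | b) hab <;> simp at hab ⊢ <;> exact hab)
    convert h3 using 1
    funext q
    rcases q with q | q <;> rfl
  have hQ : ∀ i, (fun s l => x (Sum.inr (Sum.inl (s, l))) : Fin α → Fin (N + 1) → ℂ) i
      (Fin.last N) ≠ 0 := fun i => hx.ne_zero _
  obtain ⟨t, ht⟩ := limit_step (N := N) (d := d)
    (fun s l => x (Sum.inl (s, l)) : Fin v → Fin N → ℂ)
    (fun s l => x (Sum.inr (Sum.inl (s, l))) : Fin α → Fin (N + 1) → ℂ)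
    (fun s l => x (Sum.inr (Sum.inr (s, l))) : Fin m → Fin N → ℂ) hQ
  refine H80R.Sg_of_exists ⟨_, ht.trans ?_⟩
  exact add_le_add (trace_gen h1 _ _ halgT) (resid_gen hm h h' h2 _ _ _ halgR)

end H80T
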