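import Mathlib
import Pool.Agent.H80T.Canon
import Pool.Agent.H80T.Bridge

/-! SMALL3: certificates for cubic forms in few variables. -/

namespace H80T

/-- check a certificate -/
def chk (j x : ℕ) (bs gs : List ℕ)
    (L : List (ℕ × List (Option (List ℕ)) × List (Option (List ℕ)))) (S : ℕ) : Bool :=
  match runC j x bs gs L with
  | some d => decide (d ≤ S)
  | none => false

theorem chk_spec {j x : ℕ} {bs gs : List ℕ}
    {L : List (ℕ × List (Option (List ℕ)) × List (Option (List ℕ)))} {S : ℕ}
    (h : chk j x bs gs L S = true) : GoodL j x bs gs S := by
  unfold chk at h
  split at h
  · rename_i d hd
    exact (runC_spec hd).mono le_rfl (of_decide_eq_true h)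
  · exact absurd h (by simp)

/-- certificates for `XX N` double points -/
def cInd : ℕ → List (ℕ × List (Option (List ℕ)) × List (Option (List ℕ)))
  | 1 => []
  | 2 => [(1, [], [])]
  | 3 => [(2, [], []), (1, [some []], [])]
  | 4 => [(2, [], []), (1, [some []], []), (1, [some []], [])]
  | 5 => [(3, [], []), (1, [some []], []), (1, [some []], []), (1, [some []], [])]
  | 6 => [(3, [], []), (2, [some [2]], []), (1, [some [], some []], []), (2, [some []], []),
    (1, [some []], [])]
  | 7 => [(3, [], []), (2, [some []], []), (2, [some []], []), (2, [some []], []), (1,
    [some []], []), (1, [some []], [])]
  | 8 => [(4, [], []), (2, [some []], []), (3, [some []], []), (2, [some []], []), (1,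
    [some []], []), (1, [some []], []), (1, [some []], [])]
  | 9 => [(4, [], []), (3, [some [2]], []), (3, [some [], none], []), (3, [some [2], none],
    []), (1, [some [], some [], some []], []), (1, [some []], []), (1, [some []], []), (1,
    [some []], [])]
  | 10 => [(4, [], []), (3, [some []], []), (3, [some []], []), (3, [some [2]], []), (2,
    [some [], some []], []), (2, [some []], []), (2, [some []], []), (1, [some []], []), (1,
    [some []], [])]
  | 11 => [(5, [], []), (3, [some []], []), (4, [some [2]], []), (3, [some [2], none], []), (2,
    [some [], some [], some []], []), (3, [some []], []), (2, [some []], []), (1, [some []],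
    []), (1, [some []], []), (1, [some []], [])]
  | 12 => [(5, [], []), (4, [some [2, 2]], []), (3, [some [], some [], some []], []), (4,
    [some [2]], []), (3, [some [2], none], []), (2, [some [], some [], some []], []), (3,
    [some []], []), (2, [some []], []), (1, [some []], []), (1, [some []], []), (1, [some []],
    [])]
  | 13 => [(6, [], []), (4, [some [3]], []), (4, [some [], some [2]], []), (4, [some [2],
    none], []), (3, [some [], some [], some []], []), (3, [some []], []), (3, [some []], []),
    (3, [some [2]], []), (1, [some [], some []], []), (1, [some []], []), (1, [some []], []),
    (1, [some []], [])]
  | 14 => [(6, [], []), (4, [some []], []), (5, [some [2, 2]], []), (3, [some [], some [],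
    some []], []), (4, [some []], []), (3, [some []], []), (3, [some []], []), (3, [some [2]],
    []), (2, [some [], some []], []), (2, [some []], []), (2, [some []], []), (1, [some []],
    []), (1, [some []], [])]
  | 15 => [(6, [], []), (5, [some [3]], []), (4, [some [], some []], []), (5, [some [2, 2]],
    []), (3, [some [], some [], some []], []), (4, [some []], []), (3, [some []], []), (3,
    [some []], []), (3, [some [2]], []), (2, [some [], some []], []), (2, [some []], []), (2,
    [some []], []), (1, [some []], []), (1, [some []], [])]
  | 16 => [(7, [], []), (5, [some [3, 2]], []), (5, [some [], some [2], none], []), (4,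
    [some [], some [], some []], []), (5, [some [2, 2]], []), (3, [some [], some [], some []],
    []), (4, [some []], []), (3, [some []], []), (3, [some []], []), (3, [some [2]], []), (2,
    [some [], some []], []), (2, [some []], []), (2, [some []], []), (1, [some []], []), (1,
    [some []], [])]
  | 17 => [(7, [], []), (5, [some []], []), (6, [some [3]], []), (4, [some [], some []], []),
    (5, [some []], []), (4, [some []], []), (4, [some []], []), (4, [some [2, 2]], []), (3,
    [some [], some [], none], []), (3, [some [], some []], []), (3, [some [2]], []), (2,
    [some [], some []], []), (2, [some []], []), (2, [some []], []), (1, [some []], []), (1,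
    [some []], [])]
  | 18 => [(8, [], []), (5, [some []], []), (6, [some []], []), (5, [some []], []), (5,
    [some []], []), (5, [some [2, 2]], []), (4, [some [], some [], some []], []), (4,
    [some []], []), (4, [some [2]], []), (3, [some [], some []], []), (3, [some []], []), (3,
    [some []], []), (3, [some [2]], []), (1, [some [], some []], []), (1, [some []], []), (1,
    [some []], []), (1, [some []], [])]
  | 19 => [(8, [], []), (6, [some [3, 2, 2]], []), (6, [some [], none, some [], some []], []),
    (5, [some [], some []], []), (6, [some [3]], []), (4, [some [], some []], []), (5,
    [some []], []), (4, [some []], []), (4, [some []], []), (4, [some [2, 2]], []), (3,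
    [some [], some [], none], []), (3, [some [], some []], []), (3, [some [2]], []), (2,
    [some [], some []], []), (2, [some []], []), (2, [some []], []), (1, [some []], []), (1,
    [some []], [])]
  | 20 => [(9, [], []), (6, [some [3, 2, 2]], []), (6, [some [], some [], some [], some []],
    []), (6, [some []], []), (6, [some [2, 2]], []), (5, [some [], some [], some []], []), (5,
    [some []], []), (5, [some [2]], []), (4, [some [], some []], []), (4, [some []], []), (4,
    [some []], []), (3, [some []], []), (2, [some []], []), (3, [some []], []), (3, [some [2]],
    []), (1, [some [], some []], []), (1, [some []], []), (1, [some []], []), (1, [some []],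
    [])]
  | 21 => [(9, [], []), (6, [some []], []), (7, [some []], []), (6, [some []], []), (6,
    [some []], []), (6, [some [3]], []), (5, [some [], some [2]], []), (5, [some [], some []],
    []), (5, [some [2, 2]], []), (4, [some [], some [], some []], []), (4, [some []], []), (4,
    [some [2]], []), (3, [some [], some []], []), (3, [some []], []), (3, [some []], []), (3,
    [some [2]], []), (1, [some [], some []], []), (1, [some []], []), (1, [some []], []), (1,
    [some []], [])]
  | 22 => [(9, [], []), (7, [some [3, 2, 2]], []), (7, [some [], some [], none, none], []), (7,
    [some [3], none, none], []), (6, [some [], some [], none, none], []), (6, [some [],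
    some [], some []], []), (6, [some [2, 2]], []), (5, [some [], some [], some []], []), (5,
    [some []], []), (5, [some [2]], []), (4, [some [], some []], []), (4, [some []], []), (4,
    [some []], []), (3, [some []], []), (2, [some []], []), (3, [some []], []), (3, [some [2]],
    []), (1, [some [], some []], []), (1, [some []], []), (1, [some []], []), (1, [some []],
    [])]
  | 23 => [(10, [], []), (7, [some [4]], []), (7, [some [], some []], []), (7, [some []], []),
    (7, [some [3]], []), (6, [some [], some []], []), (6, [some []], []), (6, [some [2, 2]],
    []), (5, [some [], some [], some []], []), (5, [some []], []), (5, [some [2]], []), (4,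
    [some [], some []], []), (4, [some []], []), (4, [some []], []), (3, [some []], []), (2,
    [some []], []), (3, [some []], []), (3, [some [2]], []), (1, [some [], some []], []), (1,
    [some []], []), (1, [some []], []), (1, [some []], [])]
  | 24 => [(10, [], []), (7, [some []], []), (8, [some []], []), (7, [some []], []), (7,
    [some []], []), (7, [some [3, 2]], []), (6, [some [], some [2], none], []), (6, [some [],
    some [], some []], []), (6, [some [3]], []), (5, [some [], some [2]], []), (5, [some [],
    some []], []), (5, [some [2, 2]], []), (4, [some [], some [], some []], []), (4, [some []],
    []), (4, [some [2]], []), (3, [some [], some []], []), (3, [some []], []), (3, [some []],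
    []), (3, [some [2]], []), (1, [some [], some []], []), (1, [some []], []), (1, [some []],
    []), (1, [some []], [])]
  | 25 => [(11, [], []), (7, [some []], []), (9, [some [3, 2]], []), (7, [some [], some [],
    none], []), (8, [some [3], none], []), (6, [some [], some [], some []], []), (7, [some []],
    []), (6, [some []], []), (6, [some []], []), (6, [some [2, 2]], []), (5, [some [], some [],
    some []], []), (5, [some []], []), (5, [some [2]], []), (4, [some [], some []], []), (4,
    [some []], []), (4, [some []], []), (3, [some []], []), (2, [some []], []), (3, [some []],
    []), (3, [some [2]], []), (1, [some [], some []], []), (1, [some []], []), (1, [some []],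
    []), (1, [some []], [])]
  | 26 => [(11, [], []), (8, [some [4, 2]], []), (8, [some [], some [], some []], []), (8,
    [some []], []), (8, [some [3, 2]], []), (7, [some [], some [], none], []), (7, [some [],
    some []], []), (7, [some [3]], []), (6, [some [], some []], []), (6, [some []], []), (6,
    [some [2, 2]], []), (5, [some [], some [], some []], []), (5, [some []], []), (5,
    [some [2]], []), (4, [some [], some []], []), (4, [some []], []), (4, [some []], []), (3,
    [some []], []), (2, [some []], []), (3, [some []], []), (3, [some [2]], []), (1, [some [],
    some []], []), (1, [some []], []), (1, [some []], []), (1, [some []], [])]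
  | _ => []

/-- certificates for `gg n + 1` double points in `n + 1` variables -/
def cKill : ℕ → List (ℕ × List (Option (List ℕ)) × List (Option (List ℕ)))
  | 3 => [(2, [], []), (1, [none], []), (1, [some [], none], [])]
  | 4 => [(2, [], []), (1, [some []], []), (1, [some []], []), (1, [some []], [])]
  | 5 => [(3, [], []), (1, [some []], []), (1, [some []], []), (1, [some []], []), (1,
    [some []], [])]
  | 6 => [(3, [], []), (2, [some [2]], []), (2, [none, none], []), (1, [some [], none, none],
    []), (1, [some [], none, none], []), (1, [some [], none, none], [])]
  | 7 => [(4, [], []), (2, [some [2]], []), (2, [some [], some []], []), (2, [none], []), (1,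
    [some [], none], []), (1, [some [], none], []), (1, [some [], none], [])]
  | 8 => [(4, [], []), (3, [some [3]], []), (2, [some [2], some [2]], []), (2, [some [], none,
    none], []), (1, [some [], some [], none], []), (1, [some [], none], []), (1, [some [],
    none], []), (1, [some [], none], [])]
  | 9 => [(5, [], []), (3, [some [3, 2]], []), (3, [some [], none, none], []), (2, [some [],
    some [2], none], []), (2, [some [], some [], none], []), (2, [none, none], []), (1,
    [some [], none, none], []), (1, [some [], none, none], []), (1, [some [], none, none], [])]
  | 10 => [(5, [], []), (3, [some [2]], []), (4, [none, none], []), (2, [some [], some [2],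
    none], []), (3, [none, none, none], []), (1, [some [], some [], some [], some []], []), (2,
    [some []], []), (1, [none], []), (1, [some [], none], []), (1, [some [], none], [])]
  | 11 => [(6, [], []), (3, [some [2, 2]], []), (4, [none, some [], some []], []), (3,
    [some [3], some [2]], []), (2, [some [], some [], some []], []), (3, [none], []), (2,
    [none, some []], []), (1, [none, some [2]], []), (1, [some [], none, none], []), (1,
    [some [], none, none], []), (1, [some [], none, none], [])]
  | 12 => [(6, [], []), (4, [some [3, 2]], []), (4, [some [], none, none], []), (3, [some [],
    some [], none], []), (4, [none, none], []), (2, [some [], some [2], none], []), (3, [none,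
    none, none], []), (1, [some [], some [], some [], some []], []), (2, [some []], []), (1,
    [none], []), (1, [some [], none], []), (1, [some [], none], [])]
  | 13 => [(7, [], []), (4, [some [4]], []), (4, [some [], some [2, 2]], []), (4, [some [],
    none, none], []), (4, [some [3], none, none], []), (3, [some [], none, none, none], []),
    (2, [some [], some [], some [], some []], []), (3, [none], []), (2, [some [2], none], []),
    (1, [some [], some [], some []], []), (1, [some []], []), (1, [some []], []), (1,
    [some []], [])]
  | 14 => [(7, [], []), (4, [some [2, 2]], []), (5, [some [3], some [], some []], []), (4,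
    [some [3], some [2]], []), (4, [some [3], some [2], none], []), (3, [some [], none,
    some [], some []], []), (3, [some [2], some [2]], []), (3, [none, some [], none], []), (2,
    [some [], none, none], []), (1, [some [], some [], none], []), (1, [some [], none], []),
    (1, [some [], none], []), (1, [some [], none], []), (1, [some [], none], [])]
  | 15 => [(7, [], []), (5, [some [4]], []), (5, [some [], none], []), (4, [some [], some [2,
    2]], []), (5, [none, some [], some []], []), (3, [some [], some [3]], []), (4, [none,
    some [2]], []), (3, [some [3], some [2], none], []), (2, [some [], some [], some [], none],
    []), (3, [none, none], []), (1, [some [], some [], some []], []), (2, [some []], []), (1,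
    [none], []), (1, [some [], none], []), (1, [some [], none], [])]
  | 16 => [(8, [], []), (5, [some [4, 2]], []), (5, [some [], some [2], none], []), (5,
    [some [], none, none], []), (5, [some [4], some [], some []], []), (4, [some [], none],
    []), (4, [some [], none], []), (3, [some [], some [3]], []), (3, [some [], some [2]], []),
    (3, [some [2], none], []), (2, [some [], some [], none], []), (2, [some [], none], []), (1,
    [some [], some []], []), (1, [some []], []), (1, [some []], []), (1, [some []], [])]
  | 17 => [(8, [], []), (5, [some [2, 2]], []), (6, [some [3], some [], some []], []), (5,
    [some [3], some [2]], []), (5, [some [3], some [2], none], []), (4, [some [], some [],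
    none, none], []), (4, [some [], some [], some []], []), (4, [some [2, 2]], []), (3,
    [some [], some [], none], []), (3, [some [], none], []), (3, [none, none], []), (1,
    [some [], some [], some []], []), (2, [some []], []), (1, [none], []), (1, [some [], none],
    []), (1, [some [], none], []), (1, [some [], none], [])]
  | 18 => [(9, [], []), (5, [some [2, 2]], []), (7, [some [4], some [], none], []), (5,
    [some [], none, none], []), (5, [some [], some [2], none], []), (5, [some [], none, none],
    []), (5, [some [4], some [], some []], []), (4, [some [], none], []), (4, [some [], none],
    []), (3, [some [], some [3]], []), (3, [some [], some [2]], []), (3, [some [2], none], []),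
    (2, [some [], some [], none], []), (2, [some [], none], []), (1, [some [], some []], []),
    (1, [some []], []), (1, [some []], []), (1, [some []], [])]
  | 19 => [(9, [], []), (6, [some [4, 2, 2]], []), (6, [some [], some [], none, none], []), (6,
    [some [], none, none], []), (6, [some [4], some [], none], []), (5, [some [], none, none],
    []), (5, [some [], none, none], []), (4, [some [], some [3], some []], []), (4, [some [],
    some []], []), (4, [some [2]], []), (4, [some [3], none], []), (3, [some [3], some [2],
    none], []), (2, [some [], some [], some [], none], []), (3, [none, none], []), (1,
    [some [], some [], some []], []), (2, [some []], []), (1, [none], []), (1, [some [], none],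
    []), (1, [some [], none], [])]
  | 20 => [(10, [], []), (6, [some [5]], []), (7, [some [], none], []), (6, [some [], none],
    []), (6, [some [], none], []), (5, [some [3], some [2, 2]], []), (5, [some [], some [],
    some [], none], []), (5, [some [2], none], []), (5, [some [4], some [], none], []), (3,
    [some [], some [], some []], []), (5, [none], []), (3, [some [3, 2], some [2]], []), (3,
    [some [], none, some [], none], []), (2, [some [], some [], none], []), (2, [some [],
    some []], []), (2, [none], []), (1, [none, none], []), (1, [some [], none, none], []), (1,
    [some [], none, none], []), (1, [some [], none, none], [])]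
  | 21 => [(10, [], []), (6, [some [2, 2]], []), (8, [some [4], none, none], []), (6, [some [],
    none, none, none], []), (6, [some [], some [], none, none], []), (6, [some [], none, none],
    []), (6, [some [4], some [], none], []), (5, [some [], none, none], []), (5, [some [],
    none, none], []), (4, [some [], some [3], some []], []), (4, [some [], some []], []), (4,
    [some [2]], []), (4, [some [3], none], []), (3, [some [3], some [2], none], []), (2,
    [some [], some [], some [], none], []), (3, [none, none], []), (1, [some [], some [],
    some []], []), (2, [some []], []), (1, [none], []), (1, [some [], none], []), (1, [some [],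
    none], [])]
  | 22 => [(10, [], []), (7, [some [4, 3]], []), (7, [some [], some [2], some [2]], []), (7,
    [some [], none, none], []), (7, [some [4], none, none], []), (6, [some [], none, none,
    none], []), (6, [some [], none, none, none], []), (5, [some [], some [3], some [],
    some []], []), (6, [some [4], some [2]], []), (4, [some [], some [3], some []], []), (5,
    [some [3], some [2]], []), (4, [some [3], some [2], none], []), (4, [none, some [],
    some [], some []], []), (3, [some [3], some [2]], []), (3, [some [], none, some []], []),
    (2, [some [], some []], []), (3, [none], []), (1, [some [], some []], []), (1, [some []],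
    []), (1, [some []], []), (1, [some []], []), (1, [some []], [])]
  | 23 => [(11, [], []), (7, [some [5, 2]], []), (8, [some [], none, none], []), (7, [some [],
    none, none], []), (7, [some [], none, none], []), (6, [some [], some [3, 2], none], []),
    (6, [some [], some [], some [], some []], []), (6, [some [2]], []), (6, [some [4], none],
    []), (5, [some [4], some [2], none], []), (4, [some [], some [], some [], some []], []),
    (5, [some [2, 2]], []), (4, [some [3], some [], none], []), (4, [none, some [], some []],
    []), (3, [some [3], some [2, 2]], []), (3, [some [], none, none, none], []), (2, [some [],
    none, some [], some []], []), (2, [some [], none], []), (1, [none, some [2]], []), (1,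
    [some [], none, none], []), (1, [some [], none, none], []), (1, [some [], none, none], []),
    (1, [some [], none, none], [])]
  | 24 => [(11, [], []), (7, [some [2, 2]], []), (9, [some [4, 3], some [], some []], []), (7,
    [some [], none, none], []), (7, [some [], some [2], some [2]], []), (7, [some [], none,
    none], []), (7, [some [4], none, none], []), (6, [some [], none, none, none], []), (6,
    [some [], none, none, none], []), (5, [some [], some [3], some [], some []], []), (6,
    [some [4], some [2]], []), (4, [some [], some [3], some []], []), (5, [some [3], some [2]],
    []), (4, [some [3], some [2], none], []), (4, [none, some [], some [], some []], []), (3,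
    [some [3], some [2]], []), (3, [some [], none, some []], []), (2, [some [], some []], []),
    (3, [none], []), (1, [some [], some []], []), (1, [some []], []), (1, [some []], []), (1,
    [some []], []), (1, [some []], [])]
  | 25 => [(12, [], []), (7, [some [3]], []), (9, [some [], none], []), (8, [some [5],
    some []], []), (7, [some [], some [2, 2]], []), (8, [some [4], none, none], []), (6,
    [some [], some [], some [], none], []), (7, [some [], none], []), (6, [some [], none], []),
    (6, [some [], none], []), (6, [some [4], some []], []), (5, [some [], none], []), (5,
    [some [], none], []), (4, [some [], some [2, 2]], []), (5, [none, some [], some []], []),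
    (3, [some [], some [3]], []), (4, [none, some [2]], []), (3, [some [3], some [2], none],
    []), (2, [some [], some [], some [], none], []), (3, [none, none], []), (1, [some [],
    some [], some []], []), (2, [some []], []), (1, [none], []), (1, [some [], none], []), (1,
    [some [], none], [])]
  | 26 => [(12, [], []), (8, [some [4, 4]], []), (9, [some [], none, none], []), (8, [some [],
    none, none], []), (8, [some [], none, none], []), (7, [some [], some [3], some [2, 2]],
    []), (8, [some [5], some [], none, none], []), (6, [some [], some [4], some [], some []],
    []), (7, [some [4], some [2]], []), (6, [some [4], some [2], none], []), (6, [some [4],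
    some [3], some [], some []], []), (5, [some [], some [2, 2], none], []), (5, [some [],
    none, none, some []], []), (5, [some [3], some [], none], []), (4, [some [], some [2],
    none], []), (4, [some [], some [], none], []), (4, [some [3], none], []), (3, [some [],
    none, none], []), (3, [none, some [2], none], []), (2, [some [], none, some [], none], []),
    (1, [some [], some [], some []], []), (1, [some []], []), (1, [some []], []), (1,
    [some []], []), (1, [some []], []), (1, [some []], [])]
  | 27 => [(13, [], []), (8, [some [5, 3]], []), (9, [some [], some [3], some [2]], []), (9,
    [some [5], some [], none], []), (8, [some [], none, some []], []), (8, [some [4],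
    some [3]], []), (7, [some [], some [], some [2]], []), (8, [some [4], none], []), (6,
    [some [], some [], some []], []), (7, [some []], []), (6, [some []], []), (6, [some []],
    []), (6, [some [3, 2]], []), (5, [some [], none, none], []), (5, [some [], none, none],
    []), (4, [some [], some [], some []], []), (5, [some [3]], []), (3, [some [], some []],
    []), (4, [some [2]], []), (3, [some [2], none], []), (3, [none, some [], some []], []), (2,
    [some [2], some [2]], []), (2, [some [], none, none], []), (1, [some [], some [], none],
    []), (1, [some [], none], []), (1, [some [], none], []), (1, [some [], none], [])]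
  | 28 => [(13, [], []), (8, [some [3]], []), (10, [some [], none], []), (9, [some [5],
    some [2]], []), (8, [some [], some [2], none], []), (9, [some [4, 3], some [], some []],
    []), (7, [some [], some [], some [2]], []), (8, [some [], none], []), (7, [some [], none],
    []), (7, [some [], none], []), (7, [some [4], none], []), (6, [some [], none, none], []),
    (6, [some [], none, none], []), (5, [some [], some [2], none], []), (6, [some [4], some [],
    none], []), (4, [some [], some [3], some []], []), (5, [some [3], some [2]], []), (4,
    [some [3], some [2], none], []), (4, [none, some [], some [], some []], []), (3, [some [3],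
    some [2]], []), (3, [some [], none, some []], []), (2, [some [], some []], []), (3, [none],
    []), (1, [some [], some []], []), (1, [some []], []), (1, [some []], []), (1, [some []],
    []), (1, [some []], [])]
  | 29 => [(13, [], []), (9, [some [5, 3]], []), (10, [some [], none, none], []), (9, [some [],
    none, none], []), (9, [some [], none, none], []), (8, [some [], some [3, 2], some [2]],
    []), (9, [some [5], none, some [], some []], []), (7, [some [], some [4], some []], []),
    (8, [some [4], some [2]], []), (7, [some [4], some [2], none], []), (7, [some [4],
    some [3], some [], some []], []), (6, [some [], some [3], some [2]], []), (6, [some [],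
    some [], some []], []), (6, [some [2, 2]], []), (6, [some [4, 2], none, none], []), (4,
    [some [], some [], some [], some [], none], []), (5, [some [], some []], []), (5,
    [some [4]], []), (3, [some [], some [2]], []), (4, [some [2], none], []), (3, [some [3],
    some [], some []], []), (3, [none, some [2]], []), (2, [some [], none, none], []), (1,
    [some [], some [], none], []), (1, [some [], none], []), (1, [some [], none], []), (1,
    [some [], none], []), (1, [some [], none], []), (1, [some [], none], [])]
  | _ => []

/-- certificates for `gg n` double points in `n + 1` variables -/
def cDir : ℕ → List (ℕ × List (Option (List ℕ)) × List (Option (List ℕ)))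
  | 3 => [(2, [], []), (1, [some []], []), (1, [some []], [])]
  | 5 => [(3, [], []), (2, [some [2]], []), (1, [some [], some []], []), (1, [some []], []),
    (1, [some []], [])]
  | 8 => [(4, [], []), (3, [some [3]], []), (2, [some [], some [2]], []), (2, [some [],
    some []], []), (2, [none], []), (1, [some [], none], []), (1, [some [], none], []), (1,
    [some [], none], [])]
  | 10 => [(5, [], []), (4, [some [4]], []), (3, [some [3], some [2, 2]], []), (3, [some [],
    none, some [], none], []), (2, [some [], some [], none], []), (3, [none, none], []), (1,
    [some [], some [], some []], []), (2, [some []], []), (1, [some []], []), (1, [some []],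
    [])]
  | 11 => [(6, [], []), (3, [some [2]], []), (4, [some [], none], []), (3, [some [], none],
    []), (3, [some [], none], []), (3, [none, some []], []), (2, [some [], none], []), (1,
    [some [], some []], []), (2, [some []], []), (1, [none], []), (1, [some [], none], [])]
  | 14 => [(7, [], []), (4, [some [2]], []), (5, [some [], none], []), (4, [some [], none],
    []), (4, [some [], none], []), (4, [some [3], none], []), (3, [some [], none, none], []),
    (3, [some [], none, none], []), (2, [some [], some [2], none], []), (2, [some [], some [],
    none], []), (2, [none, none], []), (1, [some [], none, none], []), (1, [some [], none,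
    none], []), (1, [some [], none, none], [])]
  | 17 => [(8, [], []), (5, [some [2]], []), (6, [some [], none], []), (5, [some [], none],
    []), (5, [some [], none], []), (5, [some [3, 2], none], []), (4, [some [], none, none,
    none], []), (4, [some [], none, none, none], []), (3, [some [], some [], none, none], []),
    (3, [some [], some [], some []], []), (3, [some [2]], []), (2, [some [], some []], []), (2,
    [some []], []), (2, [none], []), (1, [none, none], []), (1, [some [], none, none], []), (1,
    [some [], none, none], [])]
  | 20 => [(10, [], []), (6, [some [4, 3]], []), (7, [some [4], some [2], some [2]], []), (6,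
    [some [], none, some [], none], []), (6, [some [], none, some []], []), (5, [some [],
    some []], []), (6, [some [3, 2]], []), (5, [some [4], some [2], none], []), (4, [some [],
    some [3], some [], some []], []), (5, [none, some []], []), (3, [some [], some [2, 2]],
    []), (4, [some [], none, none], []), (3, [some [], none, none], []), (3, [some [], none,
    none], []), (2, [some [], some [], some []], []), (3, [none], []), (1, [some [], some []],
    []), (2, [some []], []), (1, [none], []), (1, [some [], none], [])]
  | 23 => [(11, [], []), (7, [some [5]], []), (8, [some [4], some [3]], []), (7, [some [4],
    some [2], some [2]], []), (7, [some [], none, some [], none], []), (6, [some [], some [],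
    some []], []), (7, [some [3, 2]], []), (6, [some [4], none, some []], []), (5, [some [],
    some [], none], []), (6, [some [4], some [2]], []), (4, [some [], some [2], none], []), (5,
    [some [], none, none], []), (4, [some [], none, none], []), (4, [some [], none, none], []),
    (4, [some [3], none, none], []), (3, [some [], none, none, none], []), (2, [some [],
    some [], some [], some []], []), (3, [none], []), (2, [some [2], none], []), (1, [some [],
    some [], some []], []), (1, [some []], []), (1, [some []], []), (1, [some []], [])]
  | 26 => [(12, [], []), (8, [some [5, 2]], []), (9, [some [], none, some []], []), (8,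
    [some [4], some [3]], []), (8, [some [4], some [2], some [2]], []), (7, [some [], some [],
    some [], some []], []), (8, [some [4]], []), (7, [some [5], some [2, 2]], []), (6,
    [some [], some [3], none, none], []), (7, [some [5], some [], some [], some []], []), (5,
    [some [], some [3, 2]], []), (6, [some [], none, none], []), (5, [some [], none, none],
    []), (5, [some [], none, none], []), (4, [some [], some [], some []], []), (5, [some [3]],
    []), (3, [some [], some []], []), (4, [some [2]], []), (3, [some [2], none], []), (3,
    [none, some [], some []], []), (2, [some [2], some [2]], []), (2, [some [], none, none],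
    []), (1, [some [], some [], none], []), (1, [some [], none], []), (1, [some [], none], []),
    (1, [some [], none], [])]
  | 29 => [(13, [], []), (9, [some [4, 4]], []), (10, [some [5], some [], some [2]], []), (9,
    [some [], none, some []], []), (9, [some [4], some [3]], []), (8, [some [], some [],
    some []], []), (9, [some [4, 2]], []), (8, [some [5], some [3], none], []), (7, [some [],
    some [4], some [], some []], []), (8, [some [5], some [2, 2]], []), (6, [some [], some [3],
    none, none], []), (7, [some [], none, none, none], []), (6, [some [], none, none, none],
    []), (6, [some [], none, none, none], []), (5, [some [], some [], some [], some []], []),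
    (6, [some [3, 2]], []), (4, [some [], some [], some []], []), (5, [some [2]], []), (4,
    [some [2], none], []), (4, [some [3], some [], some []], []), (3, [some [], some [2]], []),
    (3, [some [], some []], []), (3, [some [2]], []), (2, [some [], none], []), (2, [none,
    none], []), (1, [some [], none, none], []), (1, [some [], none, none], []), (1, [some [],
    none, none], []), (1, [some [], none, none], [])]
  | _ => []

/-- number of tangent vectors for `gg n` summands, `0` for the direct certificate -/
def aG : ℕ → ℕ
  | 4 => 2
  | 6 => 3
  | 7 => 3
  | 9 => 4
  | 12 => 5
  | 13 => 6
  | 15 => 7
  | 16 => 7
  | 18 => 8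
  | 19 => 8
  | 21 => 9
  | 22 => 10
  | 24 => 10
  | 25 => 11
  | 27 => 12
  | 28 => 12
  | _ => 0

/-- certificates with `aG n` tangent vectors, `gg n` summands -/
def cG : ℕ → List (ℕ × List (Option (List ℕ)) × List (Option (List ℕ)))
  | 4 => [(2, [], [none]), (1, [none], [some []]), (1, [some [], none], [])]
  | 6 => [(2, [], [some []]), (2, [some []], []), (2, [none], []), (1, [some [], none], []),
    (1, [some [], none], [])]
  | 7 => [(3, [], [some [2]]), (2, [some []], [none]), (2, [some []], [none]), (1, [some []],
    [some []]), (1, [some []], []), (1, [some []], [])]
  | 9 => [(3, [], [some []]), (3, [some []], []), (3, [some [2]], []), (2, [some [], none],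
    []), (2, [some [], none], []), (1, [some [], some []], []), (1, [some []], []), (1,
    [some []], [])]
  | 12 => [(4, [], [some []]), (4, [some []], []), (4, [some [3]], []), (3, [some [], none],
    []), (3, [some [], none], []), (2, [some [], some [2]], []), (2, [some [], some []], []),
    (2, [none], []), (1, [some [], none], []), (1, [some [], none], []), (1, [some [], none],
    [])]
  | 13 => [(4, [], [some []]), (5, [some [3]], []), (4, [some [4], some []], []), (3, [some [],
    some [2, 2]], []), (4, [none, some [], none], []), (2, [some [], some [], none], []), (3,
    [some [], none], []), (2, [some [], none], []), (2, [some [], none], []), (1, [some [],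
    some []], []), (1, [some []], []), (1, [some []], [])]
  | 15 => [(5, [], [some [3, 2, 2]]), (5, [some []], [none, some [], none]), (5, [some [4]],
    [some [], none]), (4, [some [], none], [some []]), (4, [some [3], some [2, 2]], []), (3,
    [some [], some [], some [], none], []), (4, [none, some []], []), (2, [some [], some []],
    []), (3, [some []], []), (2, [some []], []), (2, [some []], []), (2, [none], []), (1,
    [some [], none], []), (1, [some [], none], [])]
  | 16 => [(5, [], [some []]), (6, [some [3, 2]], []), (5, [some [4], some [2], none], []), (4,
    [some [], some [3], some [], some []], []), (5, [none, some []], []), (3, [some [],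
    some [2, 2]], []), (4, [some [], none, none], []), (3, [some [], none, none], []), (3,
    [some [], none, none], []), (2, [some [], some [], some []], []), (3, [none], []), (1,
    [some [], some []], []), (2, [some []], []), (1, [none], []), (1, [some [], none], [])]
  | 18 => [(6, [], [some [4]]), (6, [some [3]], [some [2, 2]]), (6, [some [4], none], [some [],
    some []]), (5, [some [4], some [2], some [2]], []), (5, [some [], none, some [], none],
    []), (4, [some [], some [2], none], []), (5, [some [3], none, none], []), (3, [some [],
    some [], some [], none], []), (4, [some [], none], []), (3, [some [], none], []), (3,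
    [some [], none], []), (3, [none, some []], []), (2, [some [], none], []), (1, [some [],
    some []], []), (2, [some []], []), (1, [none], []), (1, [some [], none], [])]
  | 19 => [(6, [], [some []]), (7, [some [3, 2]], []), (6, [some [4], none, some []], []), (5,
    [some [], some [], none], []), (6, [some [4], some [2]], []), (4, [some [], some [2],
    none], []), (5, [some [], none, none], []), (4, [some [], none, none], []), (4, [some [],
    none, none], []), (4, [some [3], none, none], []), (3, [some [], none, none, none], []),
    (2, [some [], some [], some [], some []], []), (3, [none], []), (2, [some [2], none], []),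
    (1, [some [], some [], some []], []), (1, [some []], []), (1, [some []], []), (1,
    [some []], [])]
  | 21 => [(7, [], [some [4, 2]]), (7, [some []], [none, some []]), (7, [some [5]],
    [some [2]]), (6, [some [], none], [some []]), (6, [some [4], some [3]], []), (5, [some [],
    some [], none], []), (6, [some [4], some [2]], []), (4, [some [], some [2], none], []), (5,
    [some [], none, none], []), (4, [some [], none, none], []), (4, [some [], none, none], []),
    (4, [some [3], none, none], []), (3, [some [], none, none, none], []), (2, [some [],
    some [], some [], some []], []), (3, [none], []), (2, [some [2], none], []), (1, [some [],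
    some [], some []], []), (1, [some []], []), (1, [some []], []), (1, [some []], [])]
  | 22 => [(7, [], [some [4, 2, 2]]), (7, [some []], [some [], some [], some []]), (8,
    [some [5, 2]], []), (6, [some [], none, some []], []), (6, [some [], some [3]], []), (6,
    [some [2], some [2]], []), (6, [some [4], some [], some []], []), (5, [some [3], some [2,
    2]], []), (5, [some [], none, some [], none], []), (5, [some [4], some [], none], []), (4,
    [some [], none, some []], []), (4, [some [3], some [2, 2]], []), (3, [some [], some [],
    some [], none], []), (4, [none, some []], []), (2, [some [], some []], []), (3, [some []],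
    []), (2, [some []], []), (2, [some []], []), (2, [none], []), (1, [some [], none], []), (1,
    [some [], none], [])]
  | 24 => [(8, [], [some [4, 2, 2]]), (8, [some []], [none, some [], none]), (8, [some [5]],
    [some [3], some []]), (7, [some [5], some [2]], [some [2]]), (7, [some [], none, some []],
    [none]), (6, [some [], some [3]], [none]), (7, [some [4], none], [some []]), (5, [some [],
    some [], none], []), (6, [some [], none], []), (5, [some [], none], []), (5, [some [],
    none], []), (5, [some [4], some [2]], []), (4, [some [], none, none], []), (3, [some [],
    some [], some []], []), (4, [some [2]], []), (3, [some [2], none], []), (3, [none, some [],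
    some []], []), (2, [some [2], some [2]], []), (2, [some [], none, none], []), (1, [some [],
    some [], none], []), (1, [some [], none], []), (1, [some [], none], []), (1, [some [],
    none], [])]
  | 25 => [(8, [], [some [4, 3]]), (8, [some []], [some [], some []]), (9, [some [5, 3]], []),
    (7, [some [5], some [2], some [2]], []), (7, [some [], some [3], some [], none], []), (7,
    [some [], none, some []], []), (7, [some [4, 2], some [2]], []), (6, [some [], none,
    some [], none], []), (6, [some [], none, some []], []), (5, [some [], some []], []), (6,
    [some [3, 2]], []), (5, [some [4], some [2], none], []), (4, [some [], some [3], some [],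
    some []], []), (5, [none, some []], []), (3, [some [], some [2, 2]], []), (4, [some [],
    none, none], []), (3, [some [], none, none], []), (3, [some [], none, none], []), (2,
    [some [], some [], some []], []), (3, [none], []), (1, [some [], some []], []), (2,
    [some []], []), (1, [none], []), (1, [some [], none], [])]
  | 27 => [(8, [], [some [2]]), (10, [some [4, 2]], [none]), (8, [some [], none, some []],
    [none]), (9, [some [5], some [3]], [some []]), (7, [some [], some [3], some [2]], []), (8,
    [some [], none, some []], []), (7, [some [2], some [2]], []), (7, [some [], some [], none],
    []), (7, [some [4], some []], []), (6, [some [3], some [2, 2]], []), (6, [some [], none,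
    some [], none], []), (6, [some [4], some [2], none], []), (5, [some [], none, some [],
    none], []), (5, [some [], none, some []], []), (4, [some [], some [2]], []), (5, [some [3],
    none], []), (3, [some [], some [], some []], []), (4, [some []], []), (3, [some []], []),
    (3, [some []], []), (3, [some [2]], []), (2, [some [], none], []), (2, [some [], none],
    []), (1, [some [], some []], []), (1, [some []], []), (1, [some []], [])]
  | 28 => [(9, [], [some [5]]), (9, [some []], [some []]), (10, [some [6]], []), (8, [some [5],
    some [3, 2]], []), (8, [some [], some [3], some [2], none], []), (8, [some [], none,
    some [], none], []), (8, [some [5], some [], some []], []), (7, [some [4], some [3]], []),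
    (7, [some [4], some [2], some [2]], []), (6, [some [], some [], some [], none], []), (7,
    [some [4], some []], []), (5, [some [], some []], []), (6, [some []], []), (5, [some []],
    []), (5, [some []], []), (5, [some [3, 2]], []), (4, [some [], none, none], []), (4,
    [some [], none, none], []), (3, [some [], some [], none], []), (4, [none, none], []), (2,
    [some [], some [2], none], []), (3, [none, none, none], []), (1, [some [], some [],
    some [], some []], []), (2, [some []], []), (1, [none], []), (1, [some [], none], []), (1,
    [some [], none], [])]
  | _ => []

/-- number of tangent vectors for `gg n - 1` summands -/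
def aH : ℕ → ℕ
  | 3 => 1
  | 4 => 1
  | 5 => 2
  | 6 => 2
  | 7 => 2
  | 8 => 3
  | 9 => 3
  | 10 => 3
  | 11 => 5
  | 12 => 4
  | 13 => 4
  | 14 => 6
  | 15 => 5
  | 16 => 6
  | 17 => 7
  | 18 => 6
  | 19 => 7
  | 20 => 8
  | 21 => 8
  | 22 => 8
  | 23 => 10
  | 24 => 9
  | 25 => 9
  | 26 => 11
  | 27 => 10
  | 28 => 11
  | 29 => 12
  | _ => 0

/-- bounds for the dimension for `gg n - 1` summands -/
def sH : ℕ → ℕ
  | 3 => 1
  | 4 => 1
  | 5 => 0
  | 6 => 3
  | 7 => 2
  | 8 => 0
  | 9 => 4
  | 10 => 2
  | 11 => 3
  | 12 => 4
  | 13 => 1
  | 14 => 4
  | 15 => 3
  | 16 => 9
  | 17 => 4
  | 18 => 1
  | 19 => 8
  | 20 => 2
  | 21 => 11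
  | 22 => 6
  | 23 => 7
  | 24 => 9
  | 25 => 3
  | 26 => 8
  | 27 => 6
  | 28 => 16
  | 29 => 7
  | _ => 0

/-- certificates with `aH n` tangent vectors, `gg n - 1` summands -/
def cH : ℕ → List (ℕ × List (Option (List ℕ)) × List (Option (List ℕ)))
  | 3 => [(2, [], []), (1, [some []], [])]
  | 4 => [(2, [], []), (1, [some []], []), (1, [some []], [])]
  | 5 => [(2, [], [some []]), (2, [none], []), (1, [some [], none], []), (1, [some [], none],
    [])]
  | 6 => [(3, [], [none]), (1, [some []], [some []]), (2, [some []], []), (1, [some []], []),
    (1, [some []], [])]
  | 7 => [(3, [], [some []]), (2, [some []], []), (2, [some []], []), (1, [some []], []), (1,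
    [some []], []), (1, [some []], [])]
  | 8 => [(3, [], [some []]), (3, [some [2]], []), (2, [some [], none], []), (2, [some [],
    none], []), (1, [some [], some []], []), (1, [some []], []), (1, [some []], [])]
  | 9 => [(4, [], [some [2]]), (2, [some []], [some []]), (3, [some []], []), (2, [some []],
    []), (2, [some []], []), (1, [some []], []), (1, [some []], []), (1, [some []], [])]
  | 10 => [(4, [], [some []]), (3, [some []], []), (3, [some []], []), (2, [some []], []), (3,
    [none], []), (1, [some [], some []], []), (2, [some []], []), (1, [none], []), (1,
    [some [], none], [])]
  | 11 => [(4, [], [some [3]]), (3, [some []], [some []]), (4, [some [2]], []), (2, [some [],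
    some []], []), (3, [some []], []), (2, [some []], []), (2, [some []], []), (2, [none], []),
    (1, [some [], none], []), (1, [some [], none], [])]
  | 12 => [(5, [], [some [3]]), (3, [some []], [some []]), (4, [some []], []), (3, [some []],
    []), (3, [some []], []), (2, [some []], []), (2, [some []], []), (2, [none], []), (1,
    [some [], none], []), (1, [some [], none], []), (1, [some [], none], [])]
  | 13 => [(5, [], [some []]), (4, [some []], []), (4, [some []], []), (4, [some [3]], []), (3,
    [some [], none], []), (3, [some [], none], []), (2, [some [], some [2]], []), (2, [some [],
    some []], []), (2, [none], []), (1, [some [], none], []), (1, [some [], none], []), (1,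
    [some [], none], [])]
  | 14 => [(5, [], [some [3, 2]]), (4, [some []], [some [], some []]), (5, [some [3]], []), (3,
    [some [], some []], []), (4, [some []], []), (3, [some []], []), (3, [some []], []), (2,
    [some []], []), (3, [none], []), (1, [some [], some []], []), (2, [some []], []), (1,
    [none], []), (1, [some [], none], [])]
  | 15 => [(6, [], [some [3, 2]]), (4, [some []], [some [], some []]), (5, [some []], []), (4,
    [some []], []), (4, [some []], []), (4, [some [3]], []), (3, [some [], none], []), (2,
    [some [], some []], []), (3, [none], []), (2, [some [2], none], []), (1, [some [], some [],
    some []], []), (1, [some []], []), (1, [some []], []), (1, [some []], [])]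
  | 16 => [(6, [], [some [3, 2]]), (5, [some []], [none, some []]), (5, [some [2]],
    [some [2]]), (4, [some [], some []], [some []]), (5, [some [3]], []), (3, [some [],
    some []], []), (4, [some []], []), (3, [some []], []), (3, [some []], []), (2, [some []],
    []), (2, [some []], []), (2, [none], []), (1, [some [], none], []), (1, [some [], none],
    []), (1, [some [], none], [])]
  | 17 => [(6, [], [some [3, 2, 2]]), (6, [some [4]], [none, some [], some []]), (4, [some [],
    some []], [some []]), (6, [some [3]], []), (4, [some [], none], []), (4, [some [],
    some []], []), (4, [some []], []), (4, [some [3]], []), (3, [some [], none], []), (3,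
    [some [], none], []), (2, [some [], some [2]], []), (2, [some [], some []], []), (2,
    [none], []), (1, [some [], none], []), (1, [some [], none], []), (1, [some [], none], [])]
  | 18 => [(7, [], [some [3, 2]]), (6, [some [4]], [none, some []]), (5, [some [], some []],
    [none]), (6, [some [4]], [some [2]]), (4, [some [], some [2]], [none]), (5, [some [],
    none], [none]), (4, [some [], none], [none]), (4, [some [], none], [none]), (3, [some [],
    some []], [some []]), (4, [none], []), (2, [some [], some [2]], []), (3, [none, none], []),
    (2, [none, some [], some []], []), (1, [none, some []], []), (1, [some [], none], []), (1,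
    [some [], none], []), (1, [some [], none], [])]
  | 19 => [(7, [], [some [3, 2, 2]]), (6, [some []], [none, some [], none]), (6, [some []],
    [none, some []]), (5, [some []], [some []]), (6, [some [3, 2]], []), (4, [some [], some [],
    some []], []), (5, [some []], []), (4, [some []], []), (4, [some []], []), (3, [some []],
    []), (4, [none], []), (2, [some [], some [2]], []), (3, [none, none], []), (1, [some [],
    some [], some []], []), (2, [some []], []), (1, [none], []), (1, [some [], none], []), (1,
    [some [], none], [])]
  | 20 => [(7, [], [some [4]]), (6, [some []], [some []]), (7, [some [3, 2]], []), (6,
    [some [4], none, some []], []), (5, [some [], some [], none], []), (6, [some [4],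
    some [2]], []), (4, [some [], some [2], none], []), (5, [some [], none, none], []), (4,
    [some [], none, none], []), (4, [some [], none, none], []), (3, [some [], some [],
    some []], []), (4, [none], []), (2, [some [], some [2]], []), (3, [none, none], []), (2,
    [none, some [], some []], []), (1, [none, some []], []), (1, [some [], none], []), (1,
    [some [], none], []), (1, [some [], none], [])]
  | 21 => [(7, [], [some []]), (7, [some []], []), (7, [some [3, 2, 2]], []), (6, [some [],
    none, some [], none], []), (6, [some [], none, some []], []), (5, [some [], some []], []),
    (6, [some [3, 2]], []), (4, [some [], some [], some []], []), (5, [some []], []), (4,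
    [some []], []), (4, [some []], []), (3, [some []], []), (3, [some []], []), (3, [some [2]],
    []), (2, [some [], some []], []), (2, [some []], []), (2, [none], []), (1, [none, none],
    []), (1, [some [], none, none], []), (1, [some [], none, none], [])]
  | 22 => [(8, [], [some [4]]), (7, [some [3]], [some [2, 2]]), (7, [some [], none], [some [],
    none]), (6, [some [], some []], [some []]), (7, [some [3, 2]], []), (5, [some [], some [],
    some []], []), (6, [some []], []), (5, [some []], []), (5, [some []], []), (5, [some [3,
    2]], []), (4, [some [], none, none], []), (4, [some [], none, none], []), (3, [some [],
    some [], none], []), (3, [some [], some []], []), (3, [some [2]], []), (2, [some [],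
    some []], []), (2, [some []], []), (2, [none], []), (1, [none, none], []), (1, [some [],
    none, none], []), (1, [some [], none, none], [])]
  | 23 => [(7, [], [some []]), (8, [some []], []), (7, [some []], []), (7, [some []], []), (7,
    [some [3, 2, 2]], []), (6, [some [], none, some [], none], []), (6, [some [], none,
    some []], []), (5, [some [], some []], []), (6, [some [3, 2]], []), (4, [some [], some [],
    some []], []), (5, [some []], []), (4, [some []], []), (4, [some []], []), (4, [some [3]],
    []), (3, [some [], none], []), (3, [some [], none], []), (2, [some [], some [2]], []), (2,
    [some [], some []], []), (2, [none], []), (1, [some [], none], []), (1, [some [], none],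
    []), (1, [some [], none], [])]
  | 24 => [(8, [], [some []]), (8, [some []], []), (8, [some [4]], []), (7, [some [3], some [2,
    2]], []), (7, [some [], none, some [], none], []), (6, [some [], some [], some []], []),
    (8, [none], []), (4, [some [], some [3]], []), (6, [some [], some []], []), (5, [some []],
    []), (5, [some []], []), (5, [some [3, 2]], []), (4, [some [], none, none], []), (3,
    [some [], some [], some []], []), (4, [some [2]], []), (3, [some [2], none], []), (3,
    [none, some [], some []], []), (2, [some [2], some [2]], []), (2, [some [], none, none],
    []), (1, [some [], some [], none], []), (1, [some [], none], []), (1, [some [], none], []),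
    (1, [some [], none], [])]
  | 25 => [(9, [], [some [4, 2]]), (8, [some []], [none, some []]), (8, [some [3]], [some [2,
    2]]), (7, [some [], some []], [some [], some []]), (8, [some [4]], []), (7, [some [5],
    some [2, 2]], []), (6, [some [], some [3], none, none], []), (7, [some [5], some [],
    some [], some []], []), (5, [some [], some [3, 2]], []), (6, [some [], none, none], []),
    (5, [some [], none, none], []), (5, [some [], none, none], []), (4, [some [], some [],
    some []], []), (5, [some [3]], []), (3, [some [], some []], []), (4, [some [2]], []), (3,
    [some [2], none], []), (3, [none, some [], some []], []), (2, [some [2], some [2]], []),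
    (2, [some [], none, none], []), (1, [some [], some [], none], []), (1, [some [], none],
    []), (1, [some [], none], []), (1, [some [], none], [])]
  | 26 => [(8, [], [some []]), (9, [some []], []), (8, [some []], []), (8, [some []], []), (8,
    [some [4]], []), (7, [some [3], some [2, 2]], []), (7, [some [], none, some [], none], []),
    (6, [some [], some [], some []], []), (7, [some [3, 2]], []), (5, [some [], some [],
    some []], []), (6, [some []], []), (5, [some []], []), (5, [some []], []), (5, [some [3,
    2]], []), (4, [some [], none, none], []), (4, [some [], none, none], []), (3, [some [],
    some [], none], []), (4, [none, none], []), (2, [some [], some [2], none], []), (3, [none,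
    none, none], []), (1, [some [], some [], some [], some []], []), (2, [some []], []), (1,
    [none], []), (1, [some [], none], []), (1, [some [], none], [])]
  | 27 => [(9, [], [some []]), (9, [some []], []), (9, [some [4, 2]], []), (8, [some [], none,
    some []], []), (8, [some [3], some [2, 2]], []), (7, [some [], some [], some [], some []],
    []), (8, [some [4]], []), (6, [some [], some []], []), (7, [some []], []), (6, [some []],
    []), (6, [some []], []), (6, [some [3, 2]], []), (5, [some [], none, none], []), (5,
    [some [], none, none], []), (4, [some [], some [], some []], []), (5, [some [3]], []), (3,
    [some [], some []], []), (4, [some [2]], []), (3, [some [2], none], []), (3, [none,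
    some [], some []], []), (2, [some [2], some [2]], []), (2, [some [], none, none], []), (1,
    [some [], some [], none], []), (1, [some [], none], []), (1, [some [], none], []), (1,
    [some [], none], [])]
  | 28 => [(9, [], [some []]), (10, [some [4, 2]], []), (8, [some [], some [], some []], []),
    (9, [some []], []), (8, [some []], []), (8, [some []], []), (8, [some [4]], []), (7,
    [some [3], some [2, 2]], []), (7, [some [], none, some [], none], []), (6, [some [],
    some [], some []], []), (6, [some []], []), (6, [some []], []), (6, [some [3, 2]], []), (5,
    [some [], none, none], []), (5, [some [], none, none], []), (4, [some [], some [],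
    some []], []), (5, [some [3]], []), (3, [some [], some []], []), (4, [some [2]], []), (3,
    [some [2], none], []), (3, [none, some [], some []], []), (2, [some [2], some [2]], []),
    (2, [some [], none, none], []), (1, [some [], some [], none], []), (1, [some [], none],
    []), (1, [some [], none], []), (1, [some [], none], [])]
  | 29 => [(9, [], [some []]), (10, [some []], []), (9, [some []], []), (9, [some []], []), (9,
    [some [4, 2]], []), (8, [some [], none, some []], []), (8, [some [3], some [2, 2]], []),
    (7, [some [], some [], some [], some []], []), (8, [some [4]], []), (6, [some [], some []],
    []), (7, [some []], []), (6, [some []], []), (6, [some []], []), (6, [some [3, 2]], []),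
    (5, [some [], none, none], []), (5, [some [], none, none], []), (4, [some [], some [],
    some []], []), (5, [some [3]], []), (3, [some [], some []], []), (4, [some [2]], []), (3,
    [some [2], none], []), (3, [none, some [], some []], []), (2, [some [2], some [2]], []),
    (2, [some [], none, none], []), (1, [some [], some [], none], []), (1, [some [], none],
    []), (1, [some [], none], []), (1, [some [], none], [])]
  | _ => []

/-- pair classes for `a` tangent vectors -/
def gsf (a : ℕ) : List ℕ := if a = 1 then [] else [a]

theorem ind_small : ∀ N ∈ List.range' 1 26, chk N (XX N) [] [] (cInd N) (c3 N - N * XX N) := by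
  decide +kernel

theorem kill_small : ∀ n ∈ List.range' 3 27, chk (n + 1) (gg n + 1) [] [] (cKill n) 0 := by
  decide +kernel

theorem g_small : ∀ n ∈ List.range' 3 27,
    (aG n = 0 ∧ chk (n + 1) (gg n) [] [] (cDir n) 0) ∨
    (1 ≤ aG n ∧ aG n ≤ n ∧ 2 * aG n ≤ gg n ∧ n + aG n ≤ gg n ∧
      (gg n * n + 2 + t2 (aG n + 1) ≤ c3 n + (aG n + 1) * n ∨
      (gg n * n + 1 + t2 (aG n + 1) ≤ c3 n + (aG n + 1) * n ∧
        aG n + 2 + t2 (n + 1 - aG n) ≤ gg n)) ∧
      chk n (gg n - aG n) [] [aG n] (cG n) 0) := by
  decide +kernel

theorem h_small : ∀ n ∈ List.range' 3 27,
    1 ≤ aH n ∧ aH n + 1 ≤ n ∧ 2 * aH n ≤ XX n + 2 ∧ 2 * aH n ≤ gg n - 1 ∧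
    sH n + (gg n - 1) * (n + 1) < c3 (n + 1) ∧
    (gg n - 1) * n + 2 + sH n + t2 (aH n + 1) ≤ c3 n + (aH n + 1) * n ∧
    chk n (gg n - 1 - aH n) [] (gsf (aH n)) (cH n) (sH n) := by
  decide +kernel

theorem good_3 : GoodL 3 4 [] [] 0 :=
  chk_spec (S := 0) (L := [(1, [], []), (1, [some []], [])]) (by decide +kernel)

theorem good_4 : GoodL 4 5 [] [] 0 :=
  chk_spec (S := 0) (L := [(2, [], []), (1, [some []], []), (1, [some []], [])]) (by decide +kernel)

theorem good_6 : GoodL 6 10 [] [] 0 :=
  chk_spec (S := 0) (L := [(3, [], []), (2, [some [2]], []), (1, [some [], some []], []), (1, [some []], []), (1, [some []], [])]) (by decide +kernel)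

end H80T
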