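import Mathlib
import Pool.Agent.H80T.CanA

/-! Common estimates for the numerical conditions for the top step. -/

namespace H80T

namespace TopAux

theorem six_c3 (n : ℕ) : 6 * c3 n = n * (n + 1) * (n + 2) := by
  unfold c3
  apply Nat.mul_div_cancel'
  apply Nat.dvd_of_mod_eq_zero
  have h : n % 6 < 6 := Nat.mod_lt _ (by norm_num)
  rw [Nat.mul_mod, Nat.mul_mod n, Nat.add_mod n 1, Nat.add_mod n 2]
  interval_cases (n % 6) <;> rfl

theorem two_t2 (g : ℕ) : 2 * t2 g = g * (g - 1) := by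
  unfold t2
  exact Nat.mul_div_cancel' (Nat.even_mul_pred_self g).two_dvd

theorem two_t2_int (g : ℕ) : 2 * (t2 g : ℤ) = g * (g - 1) := by
  have h := two_t2 g
  rcases Nat.eq_zero_or_pos g with h0 | h0
  · subst h0
    simp [t2]
  · obtain ⟨k, rfl⟩ : ∃ k, g = k + 1 := ⟨g - 1, by omega⟩
    rw [Nat.add_sub_cancel] at h
    have h' : 2 * (t2 (k + 1) : ℤ) = (k + 1 : ℤ) * k := by exact_mod_cast h
    rw [h']
    push_cast
    ring

theorem gg_cases {n : ℕ} (hn : 5 ≤ n) :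
    6 * gg n = (n + 2) * (n + 3) ∨ 6 * gg n = (n + 2) * (n + 3) + 4 := by
  have h1 : (n + 1) * gg n ≤ c3 (n + 1) + n := Nat.mul_div_le _ _
  have h2 : c3 (n + 1) + n < (n + 1) * (gg n + 1) := by
    unfold gg
    exact Nat.lt_mul_div_succ _ (Nat.succ_pos n)
  have h3 := six_c3 (n + 1)
  set K := (n + 2) * (n + 3) with hK
  have h3' : 6 * c3 (n + 1) = (n + 1) * K := by
    rw [h3, hK]
    ring
  have h4 : 6 * gg n < K + 6 := by
    by_contra hcon
    push Not at hcon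
    have h5 : (n + 1) * (K + 6) ≤ (n + 1) * (6 * gg n) := Nat.mul_le_mul_left _ hcon
    have h6 : (n + 1) * (K + 6) = (n + 1) * K + 6 * n + 6 := by ring
    have h7 : (n + 1) * (6 * gg n) = 6 * ((n + 1) * gg n) := by ring
    omega
  have h5 : K ≤ 6 * gg n := by
    by_contra hcon
    push Not at hcon
    have h5 : (n + 1) * (6 * gg n + 1) ≤ (n + 1) * K := Nat.mul_le_mul_left _ hcon
    have h6 : (n + 1) * (6 * gg n + 1) = 6 * ((n + 1) * gg n) + n + 1 := by ring
    have h7 : (n + 1) * (gg n + 1) = (n + 1) * gg n + n + 1 := by ring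
    omega
  have h6 : K % 6 = 0 ∨ K % 6 = 2 := by
    rw [hK]
    have h : n % 6 < 6 := Nat.mod_lt _ (by norm_num)
    rw [Nat.mul_mod, Nat.add_mod n 3, Nat.add_mod n 2]
    interval_cases (n % 6) <;> simp
  omega

theorem a_lower {n a D : ℤ} (hn : 300 ≤ n) (_ha0 : 0 ≤ a) (hD1 : 2 * n ^ 2 - 2 * n ≤ D)
    (h2 : D < 6 * (a + 1) * n - 3 * a * (a + 1)) : 41 * n ≤ 100 * a := by
  by_contra hcon
  push Not at hcon
  have h3 : 0 ≤ (41 * n - 100 * a) * (600 * n - 300 - 123 * n - 300 * a) := by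
    apply mul_nonneg <;> linarith
  nlinarith

theorem a_upper {n a D : ℤ} (hn : 300 ≤ n) (han : a ≤ n) (hD2 : D ≤ 2 * n ^ 2 + 8 * n + 6)
    (h1 : 6 * a * n + 3 * a - 3 * a ^ 2 ≤ D) : 100 * a ≤ 44 * n := by
  by_contra hcon
  push Not at hcon
  have h3 : 0 ≤ (100 * a - 44 * n) * (600 * n + 300 - 132 * n - 300 * a) := by
    apply mul_nonneg <;> linarith
  nlinarith

theorem al_ex {n x a : ℕ} (hn : 300 ≤ n) (ha1 : 41 * n ≤ 100 * a) (ha2 : 100 * a ≤ 44 * n)
    (h1 : (n + 2) * (n + 3) ≤ 6 * (x + a) + 6) (h2 : 6 * (x + a) ≤ (n + 2) * (n + 3) + 10) :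
    ∃ al, x = XX (n - 1) + al ∧ 281 * n ≤ 1000 * al ∧ 100 * al ≤ 33 * n := by
  obtain ⟨m, rfl⟩ : ∃ m, n = m + 1 := ⟨n - 1, by omega⟩
  rw [Nat.add_sub_cancel]
  have h3 := XX_le m
  have h4 := lt_XX m
  have h5 : (m + 1 + 2) * (m + 1 + 3) = m ^ 2 + 7 * m + 12 := by ring
  rw [h5] at h1 h2
  generalize m ^ 2 = q at *
  exact ⟨x - XX m, by omega, by omega, by omega⟩

theorem topOK_of {n x a s : ℕ} (hn : 300 ≤ n) (ha1 : 41 * n ≤ 100 * a)
    (ha2 : 100 * a ≤ 44 * n)
    (h1 : (n + 2) * (n + 3) ≤ 6 * (x + a) + 6) (h2 : 6 * (x + a) ≤ (n + 2) * (n + 3) + 10)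
    (hs : s ≤ 1) (h4 : c3 n ≤ n * x + t2 a + s) : TopOK n x a s := by
  obtain ⟨al, hx, hb1, hb2⟩ := al_ex hn ha1 ha2 h1 h2
  clear h1 h2
  have hal : x - XX (n - 1) = al := by omega
  unfold TopOK
  rw [hal]
  obtain ⟨m, rfl⟩ : ∃ m, n = m + 1 := ⟨n - 1, by omega⟩
  have e1 : m + 1 - 1 = m := rfl
  have e2 : m + 1 - 2 = m - 1 := rfl
  rw [e1] at hx
  rw [e1, e2]
  have hX1 := XX_le m
  have hX2 := lt_XX m
  have hY2 := lt_XX (m - 1)
  have hc := six_c3 m
  have ht := two_t2_int al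
  -- the number of conditions on the hyperplane
  have hgap : t2 al + m * XX m ≤ c3 m := by
    have h5 : (6 : ℤ) * c3 m = m * (m + 1) * (m + 2) := by exact_mod_cast hc
    have h6 : (18 : ℤ) * XX m ≤ 3 * m ^ 2 + 8 * m + 7 := by exact_mod_cast hX1
    have h7 : (100 : ℤ) * al ≤ 33 * (m + 1) := by exact_mod_cast hb2
    have h8 : (299 : ℤ) ≤ m := by omega
    have h9 : (0 : ℤ) ≤ al := by positivity
    have h10 : (m : ℤ) * (18 * XX m) ≤ m * (3 * m ^ 2 + 8 * m + 7) :=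
      mul_le_mul_of_nonneg_left h6 (by positivity)
    have h11 : (al : ℤ) * (al - 1) * 10000 ≤ 33 * (m + 1) * (33 * (m + 1) - 100) := by
      have h12 : 0 ≤ (33 * (m + 1) - 100 * (al : ℤ)) * (33 * (m + 1) + 100 * al - 100) := by
        apply mul_nonneg <;> linarith
      nlinarith
    have h12 : ((t2 al + m * XX m : ℕ) : ℤ) ≤ (c3 m : ℤ) := by
      push_cast
      nlinarith
    exact_mod_cast h12
  have hIN : IN (m + 1) al < t2 ((m + 1) / 5 + 1) := by
    have h5 : IN (m + 1) al + t2 al + m * XX m = c3 m := by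
      unfold IN
      rw [e1]
      omega
    set g := (m + 1) / 5 with hg
    have h6 : m + 1 ≤ 5 * g + 4 := by omega
    have ht' := two_t2_int (g + 1)
    have h7 : (m : ℤ) + 1 ≤ 5 * g + 4 := by exact_mod_cast h6
    have h8 : (299 : ℤ) ≤ m := by omega
    have h9 : (6 : ℤ) * c3 m = m * (m + 1) * (m + 2) := by exact_mod_cast hc
    have h10 : (3 : ℤ) * m ^ 2 + 8 * m + 7 < 18 * XX m + 18 := by exact_mod_cast hX2
    have h10' : (3 : ℤ) * m ^ 2 + 8 * m + 7 + 1 ≤ 18 * XX m + 18 := h10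
    have h11 : (m : ℤ) * (3 * m ^ 2 + 8 * m + 7 + 1) ≤ m * (18 * XX m + 18) :=
      mul_le_mul_of_nonneg_left h10' (by positivity)
    have h12 : (IN (m + 1) al : ℤ) + t2 al + m * XX m = c3 m := by exact_mod_cast h5
    have h13 : (281 : ℤ) * (m + 1) ≤ 1000 * al := by exact_mod_cast hb1
    have h14 : 281 * (m + 1) * (281 * (m + 1) - 1000) ≤ (al : ℤ) * (al - 1) * 1000000 := by
      have h15 : 0 ≤ (1000 * (al : ℤ) - 281 * (m + 1)) * (281 * (m + 1) + 1000 * al - 1000) := by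
        apply mul_nonneg <;> linarith
      nlinarith
    have h15 : ((m : ℤ) - 3) * (m + 2) ≤ 25 * (g * (g + 1)) := by
      have h16 : 0 ≤ (5 * (g : ℤ) + 3 - m) * (5 * g + 8 + m - 5) := by
        apply mul_nonneg <;> linarith
      nlinarith
    have h16 : (IN (m + 1) al : ℤ) < t2 (g + 1) := by
      push_cast at ht'
      nlinarith
    exact_mod_cast h16
  have hg2 : (m + 1) / 5 ≤ t2 ((m + 1) / 25 + 1) := by
    set h := (m + 1) / 25 with hh
    have h6 : m + 1 ≤ 25 * h + 24 := by omega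
    have ht' := two_t2 (h + 1)
    rw [Nat.add_sub_cancel] at ht'
    have h7 : 12 ≤ h := by omega
    have h8 : 12 * h ≤ h * h := Nat.mul_le_mul_right h h7
    have h9 : (h + 1) * h = h * h + h := by ring
    omega
  have hrep := rep_sum2 hIN hg2
  have hNU : NU (m - 1) < t2 ((m + 1) / 12 + 1) := by
    have h5 := NU_le (m - 1)
    set h := (m + 1) / 12 with hh
    have h6 : m + 1 ≤ 12 * h + 11 := by omega
    have ht' := two_t2 (h + 1)
    rw [Nat.add_sub_cancel] at ht'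
    have h7 : 25 ≤ h := by omega
    have h8 : 25 * h ≤ h * h := Nat.mul_le_mul_right h h7
    have h9 : (h + 1) * h = h * h + h := by ring
    omega
  have hrep2 := rep_sum1 hNU
  have hAL := AL_le (m - 1)
  refine ⟨by omega, ?_, by omega, h4, ?_, by omega, by omega, by omega⟩
  · -- `a ≤ XX (m - 1)`
    have h5 : 299 * (m - 1) ≤ (m - 1) ^ 2 + (m - 1) := by
      have h6 : 298 * (m - 1) ≤ (m - 1) * (m - 1) := Nat.mul_le_mul_right _ (by omega)
      have h7 : (m - 1) ^ 2 = (m - 1) * (m - 1) := by ring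
      omega
    generalize (m - 1) ^ 2 = q at *
    omega
  · -- the count identity
    have h5 := count_id (j := m) (x := XX m) (α := al) (by omega)
    have h6 : m + 1 + 1 - al = m + 2 - al := rfl
    rw [h6]
    rw [hx] at h4
    have h7 : (m + 1) * XX m = m * XX m + XX m := by ring
    omega

/-- search for the largest `a` with `a n - t2 a ≤ R` -/
def srch : ℕ → ℕ → ℕ → ℕ → ℕ
  | 0, a, _, _ => a
  | f + 1, a, n, R => if (a + 1) * n ≤ R + t2 (a + 1) then srch f (a + 1) n R else a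

/-- search for the smallest `b ≥ a` with `t2 (n + 2 - b) + b ≤ g + 1` -/
def srchB : ℕ → ℕ → ℕ → ℕ → ℕ
  | 0, a, _, _ => a
  | f + 1, a, n, g => if t2 (n + 2 - a) + a ≤ g + 1 then a else srchB f (a + 1) n g

/-- the last argument with a property -/
theorem exists_last {P : ℕ → Prop} {n : ℕ} (h0 : P 0) (hn : ¬ P n) :
    ∃ a, a < n ∧ P a ∧ ¬ P (a + 1) := by
  by_contra hcon
  push Not at hcon
  have h : ∀ a, a ≤ n → P a := by
    intro a
    induction a with
    | zero => exact fun _ => h0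
    | succ a ih => exact fun ha => hcon a (by omega) (ih (by omega))
  exact hn (h n le_rfl)

end TopAux

end H80T
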