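import Mathlib
import Pool.Agent.H80T.TopAux

/-! TOPA: numerical conditions for the top step, `gg n` summands. -/

namespace H80T

namespace TopA

open TopAux

/-- the conditions for a given `a` -/
def CondA (n a : ℕ) : Prop :=
  1 ≤ a ∧ a + 2 ≤ n ∧ 2 * a ≤ gg n ∧ n + a ≤ gg n ∧
    (gg n * n + 2 + t2 (a + 1) ≤ c3 n + (a + 1) * n ∨
      (gg n * n + 1 + t2 (a + 1) ≤ c3 n + (a + 1) * n ∧ a + 2 + t2 (n + 1 - a) ≤ gg n)) ∧
    TopOK n (gg n - a) a 0

instance (n a : ℕ) : Decidable (CondA n a) := by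
  unfold CondA
  infer_instance

theorem small : ∀ n < 300, 30 ≤ n → CondA n (srch n 0 n (gg n * n - c3 n)) := by
  decide +kernel

theorem large {n : ℕ} (hn : 300 ≤ n) : ∃ a, CondA n a := by
  have hG := gg_cases (n := n) (by omega)
  have hc := six_c3 n
  set G := gg n with hGdef
  have hc' : (6 : ℤ) * c3 n = n * (n + 1) * (n + 2) := by exact_mod_cast hc
  have hG1 : ((n : ℤ) + 2) * (n + 3) ≤ 6 * G := by
    rcases hG with h | h
    · have : (6 : ℤ) * G = (n + 2) * (n + 3) := by exact_mod_cast h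
      omega
    · have : (6 : ℤ) * G = (n + 2) * (n + 3) + 4 := by exact_mod_cast h
      omega
  have hG2 : (6 : ℤ) * G ≤ ((n : ℤ) + 2) * (n + 3) + 4 := by
    rcases hG with h | h
    · have : (6 : ℤ) * G = (n + 2) * (n + 3) := by exact_mod_cast h
      omega
    · have : (6 : ℤ) * G = (n + 2) * (n + 3) + 4 := by exact_mod_cast h
      omega
  have hn' : (300 : ℤ) ≤ n := by exact_mod_cast hn
  have hGn1 : (n : ℤ) * (((n : ℤ) + 2) * (n + 3)) ≤ n * (6 * G) :=
    mul_le_mul_of_nonneg_left hG1 (by positivity)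
  have hGn2 : (n : ℤ) * (6 * G) ≤ n * (((n : ℤ) + 2) * (n + 3) + 4) :=
    mul_le_mul_of_nonneg_left hG2 (by positivity)
  obtain ⟨a, han, hPa, hPa1⟩ := exists_last (P := fun a => a * n + c3 n ≤ G * n + t2 a) (n := n)
    (by
      have h : ((0 * n + c3 n : ℕ) : ℤ) ≤ ((G * n + t2 0 : ℕ) : ℤ) := by
        have ht := two_t2_int 0
        push_cast at ht ⊢
        nlinarith
      exact_mod_cast h)
    (by
      intro h
      have h' : (n : ℤ) * n + c3 n ≤ G * n + t2 n := by exact_mod_cast h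
      have ht := two_t2_int n
      nlinarith)
  have hPa' : (a : ℤ) * n + c3 n ≤ G * n + t2 a := by exact_mod_cast hPa
  have hPa1' : (G : ℤ) * n + t2 (a + 1) + 1 ≤ (a + 1) * n + c3 n := by
    have h := not_le.1 hPa1
    have h' : G * n + t2 (a + 1) + 1 ≤ (a + 1) * n + c3 n := h
    exact_mod_cast h'
  have hta := two_t2_int a
  have hta1 := two_t2_int (a + 1)
  push_cast at hta1
  have h1 := a_upper (n := n) (a := a) (D := 6 * G * n - n * (n + 1) * (n + 2)) hn'
    (by exact_mod_cast han.le) (by nlinarith) (by nlinarith)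
  have h2 := a_lower (n := n) (a := a) (D := 6 * G * n - n * (n + 1) * (n + 2)) hn'
    (by positivity) (by nlinarith) (by nlinarith)
  have h1' : 100 * a ≤ 44 * n := by exact_mod_cast h1
  have h2' : 41 * n ≤ 100 * a := by exact_mod_cast h2
  have hsq : 300 * n ≤ n * n := Nat.mul_le_mul_right n hn
  have hKn : (n + 2) * (n + 3) = n * n + 5 * n + 6 := by ring
  have h3 : n + a ≤ G := by omega
  refine ⟨a, by omega, by omega, by omega, h3, ?_, ?_⟩
  · by_cases h : G * n + 2 + t2 (a + 1) ≤ c3 n + (a + 1) * n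
    · exact Or.inl h
    · refine Or.inr ⟨?_, ?_⟩
      · have h' : G * n + 1 + t2 (a + 1) ≤ c3 n + (a + 1) * n := by
          have h5 := not_le.1 hPa1
          have h6 : G * n + t2 (a + 1) < (a + 1) * n + c3 n := h5
          omega
        exact h'
      · have h5 : (G : ℤ) * n + 1 + t2 (a + 1) = c3 n + (a + 1) * n := by
          have h6 := not_le.1 hPa1
          have h7 : G * n + t2 (a + 1) < (a + 1) * n + c3 n := h6
          have h8 : G * n + 1 + t2 (a + 1) = c3 n + (a + 1) * n := by omega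
          exact_mod_cast h8
        have ht := two_t2_int (n + 1 - a)
        have h9 : ((n + 1 - a : ℕ) : ℤ) = n + 1 - a := by
          rw [Nat.cast_sub (by omega)]
          push_cast
          ring
        rw [h9] at ht
        have h10 : (a : ℤ) + 2 + t2 (n + 1 - a) ≤ G := by nlinarith
        exact_mod_cast h10
  · apply topOK_of hn h2' h1' (by omega) (by omega) (by norm_num)
    have h8 : a * n + c3 n ≤ G * n + t2 a := hPa
    obtain ⟨x, hx⟩ : ∃ x, G = x + a := ⟨G - a, by omega⟩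
    have h9 : G - a = x := by omega
    rw [h9]
    rw [hx, Nat.add_mul, Nat.mul_comm x n] at h8
    omega

end TopA

theorem optA {n : ℕ} (hn : 30 ≤ n) : ∃ a, 1 ≤ a ∧ a + 2 ≤ n ∧ 2 * a ≤ gg n ∧ n + a ≤ gg n ∧
    (gg n * n + 2 + t2 (a + 1) ≤ c3 n + (a + 1) * n ∨
      (gg n * n + 1 + t2 (a + 1) ≤ c3 n + (a + 1) * n ∧ a + 2 + t2 (n + 1 - a) ≤ gg n)) ∧
    TopOK n (gg n - a) a 0 := by
  rcases lt_or_ge n 300 with h | h
  · exact ⟨_, TopA.small n h hn⟩
  · exact TopA.large h

end H80T
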