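import Mathlib
import Pool.Agent.H80T.TopAux

/-! TOPB: numerical conditions for the top step, `gg n + 1` double points in `n + 1` variables. -/

namespace H80T

namespace TopB

open TopAux

/-- the conditions for a given `al` -/
def CondB (n al : ℕ) : Prop :=
  1 ≤ al ∧ al ≤ n + 1 ∧ al ≤ gg n + 1 ∧
    t2 (n + 2 - al) ≤ gg n + 1 - al ∧ TopOK n (gg n + 1 - al) al 0

instance (n a : ℕ) : Decidable (CondB n a) := by
  unfold CondB
  infer_instance

theorem small : ∀ n < 300, 30 ≤ n → CondB n (srchB n 1 n (gg n)) := by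
  decide +kernel

theorem large {n : ℕ} (hn : 300 ≤ n) : ∃ a, CondB n a := by
  have hG := gg_cases (n := n) (by omega)
  have hc := six_c3 n
  set G := gg n with hGdef
  have hc' : (6 : ℤ) * c3 n = n * (n + 1) * (n + 2) := by exact_mod_cast hc
  have hG1 : ((n : ℤ) + 2) * (n + 3) ≤ 6 * G := by
    rcases hG with h | h
    · have : (6 : ℤ) * G = (n + 2) * (n + 3) := by exact_mod_cast h
      omega
    · have : (6 : ℤ) * G = (n + 2) * (n + 3) + 4 := by exact_mod_cast h
      omega
  have hG2 : (6 : ℤ) * G ≤ ((n : ℤ) + 2) * (n + 3) + 4 := by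
    rcases hG with h | h
    · have : (6 : ℤ) * G = (n + 2) * (n + 3) := by exact_mod_cast h
      omega
    · have : (6 : ℤ) * G = (n + 2) * (n + 3) + 4 := by exact_mod_cast h
      omega
  have hn' : (300 : ℤ) ≤ n := by exact_mod_cast hn
  obtain ⟨b, hbn, hPb, hPb1⟩ := exists_last
    (P := fun b => G + 1 < t2 (n + 2 - b) + b) (n := n)
    (by
      have h : ((G + 1 : ℕ) : ℤ) < ((t2 (n + 2 - 0) + 0 : ℕ) : ℤ) := by
        have ht := two_t2_int (n + 2)
        rw [Nat.sub_zero]
        push_cast at ht ⊢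
        nlinarith
      exact_mod_cast h)
    (by
      intro h
      have h1 : n + 2 - n = 2 := by omega
      have h' : G + 1 < t2 (n + 2 - n) + n := h
      rw [h1] at h'
      have h2 : t2 2 = 1 := rfl
      rw [h2] at h'
      have hsq : 300 * n ≤ n * n := Nat.mul_le_mul_right n hn
      have hKn : (n + 2) * (n + 3) = n * n + 5 * n + 6 := by ring
      omega)
  obtain ⟨c, hbc⟩ : ∃ c, n = b + c := ⟨n - b, by omega⟩
  have hb1 : G + 1 < t2 (n + 2 - b) + b := hPb
  have hb2 : t2 (n + 2 - (b + 1)) + (b + 1) ≤ G + 1 := not_lt.1 hPb1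
  have e1 : n + 2 - b = c + 2 := by omega
  have e2 : n + 2 - (b + 1) = c + 1 := by omega
  rw [e1] at hb1
  rw [e2] at hb2
  have ht1 := two_t2_int (c + 2)
  have ht2 := two_t2_int (c + 1)
  push_cast at ht1 ht2
  have hb1' : (G : ℤ) + 2 ≤ t2 (c + 2) + b := by exact_mod_cast hb1
  have hb2' : (t2 (c + 1) : ℤ) + (b + 1) ≤ G + 1 := by exact_mod_cast hb2
  have hbc' : (n : ℤ) = b + c := by exact_mod_cast hbc
  have hlow : 41 * n ≤ 100 * (b + 1) := by
    by_contra hcon
    push Not at hcon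
    have h1 : (100 : ℤ) * (b + 1) < 41 * n := by exact_mod_cast hcon
    have h2 : (59 : ℤ) * n < 100 * (c - 1) := by linarith
    have h3 : (0 : ℤ) ≤ (100 * (c - 1) - 59 * n) * (100 * (c - 1) + 59 * n) := by
      apply mul_nonneg <;> linarith
    nlinarith
  have hup : 100 * (b + 1) ≤ 44 * n := by
    by_contra hcon
    push Not at hcon
    have h1 : (44 : ℤ) * n < 100 * (b + 1) := by exact_mod_cast hcon
    have h2 : (100 : ℤ) * (c - 1) < 56 * n := by linarith
    have h0 : (1 : ℤ) ≤ c := by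
      have : 1 ≤ c := by omega
      exact_mod_cast this
    have h3 : (0 : ℤ) ≤ (56 * n - 100 * (c - 1)) * (56 * n + 100 * (c - 1)) := by
      apply mul_nonneg <;> linarith
    nlinarith
  have hsq : 300 * n ≤ n * n := Nat.mul_le_mul_right n hn
  have hKn : (n + 2) * (n + 3) = n * n + 5 * n + 6 := by ring
  have hbG : b + 1 ≤ G := by omega
  obtain ⟨x, hx⟩ : ∃ x, G + 1 = x + (b + 1) := ⟨G - b, by omega⟩
  have hx' : G + 1 - (b + 1) = x := by omega
  refine ⟨b + 1, by omega, by omega, by omega, ?_, ?_⟩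
  · rw [e2, hx']
    omega
  · rw [hx']
    apply topOK_of hn hlow hup (by omega) (by omega) (by norm_num)
    have hta := two_t2_int (b + 1)
    push_cast at hta
    have hxi : (G : ℤ) + 1 = x + (b + 1) := by exact_mod_cast hx
    have h1 : (n : ℤ) * (((n : ℤ) + 2) * (n + 3)) ≤ n * (6 * G) :=
      mul_le_mul_of_nonneg_left hG1 (by positivity)
    have h5 : ((c3 n : ℕ) : ℤ) ≤ ((n * x + t2 (b + 1) + 0 : ℕ) : ℤ) := by
      push_cast
      have hxe : (x : ℤ) = G - b := by linarith
      rw [hxe]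
      have hce : (c : ℤ) = n - b := by linarith
      rw [hce] at ht1
      nlinarith
    exact_mod_cast h5

end TopB

theorem optB {n : ℕ} (hn : 30 ≤ n) : ∃ al, 1 ≤ al ∧ al ≤ n + 1 ∧ al ≤ gg n + 1 ∧
    t2 (n + 2 - al) ≤ gg n + 1 - al ∧ TopOK n (gg n + 1 - al) al 0 := by
  rcases lt_or_ge n 300 with h | h
  · exact ⟨_, TopB.small n h hn⟩
  · exact TopB.large h

end H80T
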