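import Mathlib
import Pool.Agent.H80T.TopAux

/-! TOPC: numerical conditions for the top step, `gg n - 1` summands. -/

namespace H80T

namespace TopC

open TopAux

/-- the conditions for given `a`, `s` -/
def CondC (n a s : ℕ) : Prop :=
  s ≤ 1 ∧ 1 ≤ a ∧ a + 1 ≤ n ∧ 2 * a ≤ XX n + 2 ∧
    s + (gg n - 1) * (n + 1) < c3 (n + 1) ∧
    (gg n - 1) * n + 2 + s + t2 (a + 1) ≤ c3 n + (a + 1) * n ∧
    TopOK n (gg n - 1 - a) a s

instance (n a s : ℕ) : Decidable (CondC n a s) := by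
  unfold CondC
  infer_instance

/-- the witness -/
def wit (n : ℕ) : ℕ × ℕ :=
  let a := srch n 0 n ((gg n - 1) * n - c3 n)
  if (gg n - 1) * n + 2 + t2 (a + 1) ≤ c3 n + (a + 1) * n then (a, 0) else (a + 1, 1)

theorem small : ∀ n < 300, 30 ≤ n → CondC n (wit n).1 (wit n).2 := by
  decide +kernel

theorem large {n : ℕ} (hn : 300 ≤ n) : ∃ a s, CondC n a s := by
  have hG := gg_cases (n := n) (by omega)
  have hc := six_c3 n
  have hsq : 300 * n ≤ n * n := Nat.mul_le_mul_right n hn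
  have hKn : (n + 2) * (n + 3) = n * n + 5 * n + 6 := by ring
  obtain ⟨G, hGG⟩ : ∃ G, gg n = G + 1 := ⟨gg n - 1, by omega⟩
  have hG' : gg n - 1 = G := by omega
  unfold CondC
  rw [hG']
  rw [hGG] at hG
  have hc' : (6 : ℤ) * c3 n = n * (n + 1) * (n + 2) := by exact_mod_cast hc
  have hG1 : ((n : ℤ) + 2) * (n + 3) ≤ 6 * (G + 1) := by
    rcases hG with h | h
    · have : (6 : ℤ) * (G + 1) = (n + 2) * (n + 3) := by exact_mod_cast h
      omega
    · have : (6 : ℤ) * (G + 1) = (n + 2) * (n + 3) + 4 := by exact_mod_cast h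
      omega
  have hG2 : (6 : ℤ) * (G + 1) ≤ ((n : ℤ) + 2) * (n + 3) + 4 := by
    rcases hG with h | h
    · have : (6 : ℤ) * (G + 1) = (n + 2) * (n + 3) := by exact_mod_cast h
      omega
    · have : (6 : ℤ) * (G + 1) = (n + 2) * (n + 3) + 4 := by exact_mod_cast h
      omega
  have hn' : (300 : ℤ) ≤ n := by exact_mod_cast hn
  have hGn1 : (n : ℤ) * (((n : ℤ) + 2) * (n + 3)) ≤ n * (6 * (G + 1)) :=
    mul_le_mul_of_nonneg_left hG1 (by positivity)
  have hGn2 : (n : ℤ) * (6 * (G + 1)) ≤ n * (((n : ℤ) + 2) * (n + 3) + 4) :=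
    mul_le_mul_of_nonneg_left hG2 (by positivity)
  obtain ⟨a, han, hPa, hPa1⟩ := exists_last (P := fun a => a * n + c3 n ≤ G * n + t2 a) (n := n)
    (by
      have h : ((0 * n + c3 n : ℕ) : ℤ) ≤ ((G * n + t2 0 : ℕ) : ℤ) := by
        have ht := two_t2_int 0
        push_cast at ht ⊢
        nlinarith
      exact_mod_cast h)
    (by
      intro h
      have h' : (n : ℤ) * n + c3 n ≤ G * n + t2 n := by exact_mod_cast h
      have ht := two_t2_int n
      nlinarith)
  have hPa0 : a * n + c3 n ≤ G * n + t2 a := hPa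
  have hPa10 : G * n + t2 (a + 1) + 1 ≤ (a + 1) * n + c3 n := not_le.1 hPa1
  have hPa' : (a : ℤ) * n + c3 n ≤ G * n + t2 a := by exact_mod_cast hPa0
  have hPa1' : (G : ℤ) * n + t2 (a + 1) + 1 ≤ (a + 1) * n + c3 n := by exact_mod_cast hPa10
  have hta := two_t2_int a
  have hta1 := two_t2_int (a + 1)
  push_cast at hta1
  have h2 := a_lower (n := n) (a := a) (D := 6 * G * n - n * (n + 1) * (n + 2)) hn'
    (by positivity) (by nlinarith) (by nlinarith)
  have h2' : 41 * n ≤ 100 * a := by exact_mod_cast h2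
  have h1 := a_upper (n := n) (a := a) (D := 6 * G * n - n * (n + 1) * (n + 2)) hn'
    (by exact_mod_cast han.le) (by nlinarith) (by nlinarith)
  have h1' : 100 * a ≤ 44 * n := by exact_mod_cast h1
  have hX := lt_XX n
  have hn2 : n ^ 2 = n * n := sq n
  have hcount : 1 + G * (n + 1) < c3 (n + 1) := by
    have h3 := six_c3 (n + 1)
    have h3' : (6 : ℤ) * c3 (n + 1) = (n + 1) * (n + 1 + 1) * (n + 1 + 2) := by exact_mod_cast h3
    have h4 : ((n : ℤ) + 1) * (6 * (G + 1)) ≤ (n + 1) * (((n : ℤ) + 2) * (n + 3) + 4) :=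
      mul_le_mul_of_nonneg_left hG2 (by positivity)
    have h5 : (1 : ℤ) + G * (n + 1) < c3 (n + 1) := by nlinarith
    exact_mod_cast h5
  by_cases h : G * n + 2 + t2 (a + 1) ≤ c3 n + (a + 1) * n
  · refine ⟨a, 0, by omega, by omega, by omega, by omega, by omega, by omega, ?_⟩
    obtain ⟨x, hx⟩ : ∃ x, G = x + a := ⟨G - a, by omega⟩
    have h9 : G - a = x := by omega
    rw [h9]
    apply topOK_of hn h2' h1' (by omega) (by omega) (by norm_num)
    have h8 := hPa0
    rw [hx, Nat.add_mul, Nat.mul_comm x n] at h8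
    omega
  · have heq : G * n + 1 + t2 (a + 1) = c3 n + (a + 1) * n := by omega
    have heq' : (G : ℤ) * n + 1 + t2 (a + 1) = c3 n + (a + 1) * n := by exact_mod_cast heq
    have h3 := a_upper (n := n) (a := a + 1) (D := 6 * G * n - n * (n + 1) * (n + 2) + 6) hn'
      (by exact_mod_cast han) (by nlinarith) (by nlinarith)
    have h3' : 100 * (a + 1) ≤ 44 * n := by exact_mod_cast h3
    have ht2 : t2 (a + 1 + 1) = t2 (a + 1) + (a + 1) := t2_succ (a + 1)
    refine ⟨a + 1, 1, le_rfl, by omega, by omega, by omega, by omega, ?_, ?_⟩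
    · rw [ht2]
      have h4 : (a + 1 + 1) * n = (a + 1) * n + n := by ring
      omega
    · obtain ⟨x, hx⟩ : ∃ x, G = x + (a + 1) := ⟨G - (a + 1), by omega⟩
      have h9 : G - (a + 1) = x := by omega
      rw [h9]
      apply topOK_of hn (by omega) h3' (by omega) (by omega) le_rfl
      have h8 := heq
      rw [hx, Nat.add_mul, Nat.mul_comm x n] at h8
      omega

end TopC

theorem optC {n : ℕ} (hn : 30 ≤ n) : ∃ a s, s ≤ 1 ∧ 1 ≤ a ∧ a + 1 ≤ n ∧ 2 * a ≤ XX n + 2 ∧
    s + (gg n - 1) * (n + 1) < c3 (n + 1) ∧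
    (gg n - 1) * n + 2 + s + t2 (a + 1) ≤ c3 n + (a + 1) * n ∧
    TopOK n (gg n - 1 - a) a s := by
  rcases lt_or_ge n 300 with h | h
  · exact ⟨_, _, TopC.small n h hn⟩
  · exact TopC.large h

end H80T
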