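import Mathlib
import Pool.Agent.H80T.Canon

/-! TOPS: the top step. -/

namespace H80T

theorem in_spec (n al : ℕ) :
    c3 (n - 1) ≤ (n - 1) * XX (n - 1) + t2 al + IN n al := by
  unfold IN
  omega

/-- the level below the top, with the simple conditions in pair classes -/
theorem top_mid_p {m al : ℕ} (hm : 27 ≤ m) (h1 : 1 ≤ al) (h7 : (rep (NU m)).sum ≤ al)
    (h6 : al + (rep (IN (m + 2) al)).sum + AL m ≤ m + 2)
    (hx : (rep (IN (m + 2) al)).sum ≤ XX m) :
    GoodL (m + 1) (XX (m + 1)) [al] (rep (IN (m + 2) al)) 0 := by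
  obtain ⟨c, hc, hb⟩ := spl_first (e := 1) (rest := []) h7
  obtain ⟨c', hc', hb'⟩ := spl_kill 0 (rep (IN (m + 2) al))
  have h2 := AL_pos hm
  have h4 := NU_spec m
  have h5 := in_spec (m + 2) al
  have h9 := AL_le m
  have h7' := count_id (j := m) (x := XX m) (α := AL m) (by omega)
  have h8 := XX_succ m
  have hc0 : c = 0 := by simpa using hc
  rw [h8]
  refine GoodL.step (s := 0) (canon hm) h2 hb hb' hx (by omega) ?_
  rw [pairs_cons, pairs_rep, pairs_rep, ← t2_eq]
  rw [← h8] at h7'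
  have e1 : m + 2 - 1 = m + 1 := by omega
  rw [e1] at h5
  have h10 : (m + 1) * XX m = m * XX m + XX m := by ring
  have h11 : pairs [] = 0 := rfl
  omega

/-- the level below the top, with the simple conditions in braid classes -/
theorem top_mid_b {m al : ℕ} (hm : 27 ≤ m) (h1 : 1 ≤ al) (h7 : (rep (NU m)).sum ≤ al)
    (h6 : al + (rep (IN (m + 2) al)).sum + AL m ≤ m + 2) :
    GoodL (m + 1) (XX (m + 1)) (al :: rep (IN (m + 2) al)) [] 0 := by
  obtain ⟨c, hc, hb⟩ := spl_first (e := 1) (rest := rep (IN (m + 2) al)) h7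
  have h2 := AL_pos hm
  have h4 := NU_spec m
  have h5 := in_spec (m + 2) al
  have h9 := AL_le m
  have h7' := count_id (j := m) (x := XX m) (α := AL m) (by omega)
  have h8 := XX_succ m
  rw [h8]
  refine GoodL.step (s := 0) (canon hm) h2 hb Spl.nil (by simp) (by omega) ?_
  rw [pairs_cons, pairs_rep, pairs_rep, ← t2_eq]
  rw [← h8] at h7'
  have e1 : m + 2 - 1 = m + 1 := by omega
  rw [e1] at h5
  have h10 : (m + 1) * XX m = m * XX m + XX m := by ring
  have h11 : pairs [] = 0 := rfl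
  omega

/-- the slack inequality at the top -/
theorem top_slack {m x a s : ℕ} (hx : XX (m + 1) ≤ x) (hal : x - XX (m + 1) ≤ m + 3)
    (h4 : c3 (m + 2) ≤ (m + 2) * x + t2 a + s)
    (h5 : t2 (m + 3 - (x - XX (m + 1))) ≤ XX (m + 1) + t2 a + s) :
    t2 (m + 3 - (x - XX (m + 1))) + IN (m + 2) (x - XX (m + 1)) ≤ XX (m + 1) + t2 a + s := by
  obtain ⟨al, rfl⟩ : ∃ al, x = XX (m + 1) + al := ⟨x - XX (m + 1), by omega⟩
  rw [Nat.add_sub_cancel_left] at hal h5 ⊢
  have h6 := count_id (j := m + 1) (x := XX (m + 1)) (α := al) (by omega)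
  have e2 : m + 1 + 1 = m + 2 := by omega
  have e3 : m + 1 + 2 - al = m + 3 - al := by omega
  rw [e2, e3] at h6
  unfold IN
  have e4 : m + 2 - 1 = m + 1 := by omega
  rw [e4]
  have h10 : (m + 2) * XX (m + 1) = (m + 1) * XX (m + 1) + XX (m + 1) := by ring
  omega

theorem top_p {n x a : ℕ} (hn : 29 ≤ n) (h : TopOK n x a 0) : GoodL n x [] [a] 0 := by
  obtain ⟨m, rfl⟩ : ∃ m, n = m + 2 := ⟨n - 2, by omega⟩
  obtain ⟨h1, h2, h3, h4, h5, h6, h7, h8⟩ := h
  have e1 : m + 2 - 1 = m + 1 := by omega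
  have e2 : m + 2 - 2 = m := by omega
  have e3 : m + 2 + 1 = m + 3 := by omega
  simp only [e1, e2, e3] at h1 h2 h3 h5 h6 h7 h8
  have hmid := top_mid_p (m := m) (al := x - XX (m + 1)) (by omega) (by omega) h8 h7 (by omega)
  have hsl := top_slack (by omega) (by omega) h4 h5
  have hXX := XX_succ m
  obtain ⟨c, hc, hb⟩ := spl_first (e := 0) (rest := []) h6
  have hc0 : c = 0 := by simpa using hc
  have hx : x = XX (m + 1) + (x - XX (m + 1)) := by omega
  have key := GoodL.step (s := 0) (bs := []) (bs' := []) hmid (by omega) Spl.nil hb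
    (by simp; omega) (by omega) (by
      rw [pairs_cons, pairs_rep, ← t2_eq]
      have h11 : pairs [] = 0 := rfl
      have e4 : m + 1 + 2 = m + 3 := by omega
      rw [e4]
      omega)
  rw [← hx] at key
  exact key

theorem top_p1 {n x a : ℕ} (hn : 29 ≤ n) (h : TopOK n x a 1) : GoodL n x [2] [a] 0 := by
  obtain ⟨m, rfl⟩ : ∃ m, n = m + 2 := ⟨n - 2, by omega⟩
  obtain ⟨h1, h2, h3, h4, h5, h6, h7, h8⟩ := h
  have e1 : m + 2 - 1 = m + 1 := by omega
  have e2 : m + 2 - 2 = m := by omega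
  have e3 : m + 2 + 1 = m + 3 := by omega
  simp only [e1, e2, e3] at h1 h2 h3 h5 h6 h7 h8
  have hmid := top_mid_p (m := m) (al := x - XX (m + 1)) (by omega) (by omega) h8 h7 (by omega)
  have hsl := top_slack (by omega) (by omega) h4 h5
  have hXX := XX_succ m
  obtain ⟨c, hc, hb⟩ := spl_first (e := 0) (rest := []) h6
  have hc0 : c = 0 := by simpa using hc
  have hx : x = XX (m + 1) + (x - XX (m + 1)) := by omega
  have hs2 : Spl 1 [] [2] (0 + (2 - 1)) := by
    have := Spl.split (e := 1) [] 2 (by simp) Spl.nil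
    simpa using this
  have key := GoodL.step (s := 0) (bs := [2]) (bs' := []) hmid (by omega) hs2 hb
    (by simp; omega) (by omega) (by
      rw [pairs_cons, pairs_cons, pairs_rep, ← t2_eq]
      have h11 : pairs [] = 0 := rfl
      have h12 : t2 2 = 1 := rfl
      have e4 : m + 1 + 2 = m + 3 := by omega
      rw [e4]
      omega)
  rw [← hx] at key
  exact key

theorem top_b {n x a : ℕ} (hn : 29 ≤ n) (h : TopOK n x a 0) : GoodL n x [a] [] 0 := by
  obtain ⟨m, rfl⟩ : ∃ m, n = m + 2 := ⟨n - 2, by omega⟩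
  obtain ⟨h1, h2, h3, h4, h5, h6, h7, h8⟩ := h
  have e1 : m + 2 - 1 = m + 1 := by omega
  have e2 : m + 2 - 2 = m := by omega
  have e3 : m + 2 + 1 = m + 3 := by omega
  simp only [e1, e2, e3] at h1 h2 h3 h5 h6 h7 h8
  have hmid := top_mid_b (m := m) (al := x - XX (m + 1)) (by omega) (by omega) h8 h7
  have hsl := top_slack (by omega) (by omega) h4 h5
  obtain ⟨c, hc, hb⟩ := spl_first (e := 1) (rest := []) h6
  have hc0 : c = 0 := by simpa using hc
  have hx : x = XX (m + 1) + (x - XX (m + 1)) := by omega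
  have key := GoodL.step (s := 0) (gs := []) (gs' := []) hmid (by omega) hb Spl.nil
    (by simp) (by omega) (by
      rw [pairs_cons, pairs_rep, ← t2_eq]
      have h11 : pairs [] = 0 := rfl
      have e4 : m + 1 + 2 = m + 3 := by omega
      rw [e4]
      omega)
  rw [← hx] at key
  exact key

end H80T
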