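import Mathlib
import Pool.Agent.H80T.TopS
import Pool.Agent.H80T.Small3
import Pool.Agent.H80T.TopA
import Pool.Agent.H80T.TopB
import Pool.Agent.H80T.TopC
import Pool.Agent.H80T.Bridge2

/-! OPT3: the options for cubic forms. -/

namespace H80T

open Module

theorem cub_ind {N : ℕ} (hN : 1 ≤ N) :
    H80R.Sg N 3 (XX N) (N.multichoose 3 - N * XX N) := by
  rw [← c3_eq]
  rcases Nat.lt_or_ge N 27 with h | h
  · have h1 := chk_spec (ind_small N (by rw [List.mem_range'_1]; omega))
    have h2 := h1.sg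
    have h3 : pairs [] = 0 := rfl
    rw [h3, add_zero] at h2
    exact h2
  · have h1 := (canon h).sg
    rw [pairs_cons, pairs_rep] at h1
    have h2 := NU_spec N
    have h3 : 0 + (t2 (AL N) + NU N) = c3 N - N * XX N := by omega
    rw [h3] at h1
    exact h1

theorem kill_good {n : ℕ} (hn : 3 ≤ n) : GoodL (n + 1) (gg n + 1) [] [] 0 := by
  rcases Nat.lt_or_ge n 30 with h | h
  · exact chk_spec (kill_small n (by rw [List.mem_range'_1]; omega))
  · obtain ⟨al, h1, h2, h3, h4, h5⟩ := optB h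
    have h6 := top_b (by omega) h5
    have key := GoodL.step (s := 0) (bs := []) (bs' := []) (gs := []) (gs' := []) h6 h1
      Spl.nil Spl.nil (by simp) (by omega) (by
        rw [← t2_eq]
        omega)
    have h7 : gg n + 1 - al + al = gg n + 1 := by omega
    rw [h7] at key
    exact key

theorem cub_kill {n r : ℕ} (hn : 3 ≤ n) (hr : gg n + 1 ≤ r) : H80R.Sg (n + 1) 3 r 0 := by
  have h := (kill_good hn).sg
  exact H80R.Sg_le h hr

theorem TahLe.drops {n a b t : ℕ} (k : ℕ) (h : TahLe n a (b + k) t) :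
    TahLe n a b (t + k * n) := by
  induction k generalizing t with
  | zero => simpa using h
  | succ k ih =>
    have h1 := ih (t := t + n) (TahLe.drop h)
    have h2 : t + n + k * n = t + (k + 1) * n := by ring
    rw [h2] at h1
    exact h1

/-- the options for cubic forms in `n + 1` variables and `r` summands -/
def Opt3 (n r : ℕ) : Prop :=
  ∃ a b t, 1 ≤ a ∧ a ≤ n ∧ 2 * a + b = r ∧ TahLe n a b t ∧
    (t + r * (n + 1) < (n + 1).multichoose 3 ∨ t = 0) ∧
    (a = n ∨ r * n + 2 + t + (a + 1).choose 2 ≤ n.multichoose 3 + (a + 1) * n ∨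
      (t = 0 ∧ r * n + 1 + (a + 1).choose 2 ≤ n.multichoose 3 + (a + 1) * n ∧
        a + 2 + (n + 1 - a).choose 2 ≤ r ∧ n ≤ a + b))

/-- few summands -/
theorem opt3_low {n r : ℕ} (hn : 3 ≤ n) (hr : 2 ≤ r) (hr' : r ≤ XX n + 1) : Opt3 n r := by
  have h1 := cub_ind (N := n) (by omega)
  have h2 : ∀ k, k ≤ XX n → H80R.Sg n 3 (XX n - k) (n.multichoose 3 - n * XX n + k * n) := by
    intro k
    induction k with
    | zero => intro _; simpa using h1
    | succ k ih =>
      intro hk
      have h3 := ih (by omega)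
      have h4 : XX n - k = (XX n - (k + 1)) + 1 := by omega
      rw [h4] at h3
      have h5 := Sg_remove h3
      have h6 : n.multichoose 3 - n * XX n + k * n + n =
          n.multichoose 3 - n * XX n + (k + 1) * n := by ring
      rw [h6] at h5
      exact h5
  obtain ⟨k, hk⟩ : ∃ k, XX n = (r - 1) + k := ⟨XX n - (r - 1), by omega⟩
  have h3 := h2 k (by omega)
  have h4 : XX n - k = 1 + (r - 2) := by omega
  rw [h4] at h3
  have h5 := TahLe.of_sg h3
  have hspec := NU_spec n
  rw [← c3_eq] at h5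
  have e1 : n * XX n = (r - 1) * n + k * n := by rw [hk]; ring
  have e2 : n * XX n ≤ c3 n := by omega
  have e3 : c3 n - n * XX n + k * n + (r - 1) * n = c3 n := by omega
  obtain ⟨r', rfl⟩ : ∃ r', r = r' + 2 := ⟨r - 2, by omega⟩
  have e4 : (r' + 2 - 1) * n = r' * n + n := by
    have : r' + 2 - 1 = r' + 1 := by omega
    rw [this]; ring
  refine ⟨1, r' + 2 - 2, _, le_rfl, by omega, by omega, h5, ?_, Or.inr (Or.inl ?_)⟩
  · left
    rw [← c3_eq, c3_succ]
    have h6 : t2 (n + 2) = t2 (n + 1) + (n + 1) := t2_succ _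
    have h7 : t2 (n + 1) = t2 n + n := t2_succ _
    have e5 : (r' + 2) * (n + 1) = (r' * n + n) + n + r' + 2 := by ring
    have h8 := XX_le n
    -- `r' + 1 ≤ XX n` and `18 XX n ≤ 3 n² + 8 n + 7`
    have h9 : 2 * t2 n + n = n * n := by
      rw [t2_eq, Nat.choose_two_right]
      obtain ⟨m, rfl⟩ : ∃ m, n = m + 1 := ⟨n - 1, by omega⟩
      rw [Nat.add_sub_cancel]
      have := Nat.even_mul_succ_self m
      have h10 : 2 * ((m + 1) * m / 2) = (m + 1) * m := by
        apply Nat.mul_div_cancel'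
        rw [mul_comm]
        exact this.two_dvd
      rw [h10]
      ring
    have h10 : 3 * n ^ 2 = 3 * (n * n) := by ring
    rw [h10] at h8
    have h11 : 3 * n ≤ n * n := Nat.mul_le_mul_right n hn
    rw [e4] at e3
    rw [e5]
    omega
  · have e6 : (r' + 2) * n = (r' * n + n) + n := by ring
    rw [e4] at e3
    rw [← c3_eq, e6]
    have h12 : (1 + 1).choose 2 = 1 := rfl
    rw [h12]
    have e7 : (1 + 1) * n = 2 * n := rfl
    rw [e7]
    omega

theorem opt3_g {n : ℕ} (hn : 3 ≤ n) : H80R.Sg (n + 1) 3 (gg n) 0 ∨ Opt3 n (gg n) := by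
  rcases Nat.lt_or_ge n 30 with h | h
  · rcases g_small n (by rw [List.mem_range'_1]; omega) with ⟨-, h1⟩ | ⟨h1, h2, h3, h4, h5, h6⟩
    · left
      exact (chk_spec h1).sg
    · right
      have h7 := chk_spec h6
      have e1 : gg n - aG n = aG n + (gg n - 2 * aG n) := by omega
      rw [e1] at h7
      have h8 := h7.tah
      have h9 : 0 + pairs [] = 0 := rfl
      rw [h9] at h8
      refine ⟨aG n, gg n - 2 * aG n, 0, h1, h2, by omega, h8, Or.inr rfl, ?_⟩
      rw [← t2_eq, ← c3_eq, ← t2_eq]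
      rcases h5 with h5 | h5
      · right; left; omega
      · right; right
        refine ⟨rfl, h5.1, h5.2, by omega⟩
  · right
    obtain ⟨a, h1, h2, h3, h4, h5, h6⟩ := optA h
    have h7 := top_p (by omega) h6
    have e1 : gg n - a = a + (gg n - 2 * a) := by omega
    rw [e1] at h7
    have h8 := h7.tah
    have h9 : 0 + pairs [] = 0 := rfl
    rw [h9] at h8
    refine ⟨a, gg n - 2 * a, 0, h1, by omega, by omega, h8, Or.inr rfl, ?_⟩
    rw [← t2_eq, ← c3_eq, ← t2_eq]
    rcases h5 with h5 | h5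
    · right; left; omega
    · right; right
      refine ⟨rfl, h5.1, h5.2, by omega⟩

/-- the option for `gg n - 1` summands -/
theorem opt3_h {n : ℕ} (hn : 3 ≤ n) : ∃ a t, 1 ≤ a ∧ a + 1 ≤ n ∧ 2 * a ≤ XX n + 2 ∧
    t + (gg n - 1) * (n + 1) < c3 (n + 1) ∧
    (gg n - 1) * n + 2 + t + t2 (a + 1) ≤ c3 n + (a + 1) * n ∧ 2 * a ≤ gg n - 1 ∧
    TahLe n a (gg n - 1 - 2 * a) t := by
  rcases Nat.lt_or_ge n 30 with h | h
  · obtain ⟨h1, h2, h3, h4, h5, h6, h7⟩ := h_small n (by rw [List.mem_range'_1]; omega)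
    refine ⟨aH n, sH n, h1, h2, h3, h5, h6, h4, ?_⟩
    have h8 := chk_spec h7
    have e1 : gg n - 1 - aH n = aH n + (gg n - 1 - 2 * aH n) := by omega
    rw [e1] at h8
    unfold gsf at h8
    split at h8
    · rename_i h9
      have h10 := h8.sg
      have h11 : pairs [] = 0 := rfl
      rw [h11, add_zero] at h10
      rw [h9] at h10 ⊢
      exact TahLe.of_sg h10
    · have h10 := h8.tah
      have h11 : pairs [] = 0 := rfl
      rw [h11, add_zero] at h10
      exact h10
  · obtain ⟨a, s, hs, h1, h2, h3, h4, h5, h6⟩ := optC h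
    have h7 : 2 * a ≤ gg n - 1 := by
      have h8 : XX (n - 1) + 1 ≤ gg n - 1 - a := h6.1
      have h9 : a ≤ XX (n - 2) := h6.2.1
      have h10 := XX_succ (n - 2)
      have e1 : n - 2 + 1 = n - 1 := by omega
      rw [e1] at h10
      omega
    refine ⟨a, s, h1, h2, h3, h4, h5, h7, ?_⟩
    have e1 : gg n - 1 - a = a + (gg n - 1 - 2 * a) := by omega
    rw [e1] at h6
    rcases Nat.eq_zero_or_pos s with hs0 | hs0
    · subst hs0
      have h8 := (top_p (by omega) h6).tah
      have h9 : 0 + pairs [] = 0 := rfl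
      rw [h9] at h8
      exact h8
    · obtain rfl : s = 1 := by omega
      have h8 := (top_p1 (by omega) h6).tah
      have h9 : 0 + pairs [2] = 1 := rfl
      rw [h9] at h8
      exact h8

theorem opt3 {n r : ℕ} (hn : 3 ≤ n) (hr : 2 ≤ r) : H80R.Sg (n + 1) 3 r 0 ∨ Opt3 n r := by
  rcases Nat.lt_or_ge (gg n) r with h | h
  · exact Or.inl (cub_kill hn h)
  rcases Nat.eq_or_lt_of_le h with h | h
  · rw [h]
    exact opt3_g hn
  rcases Nat.lt_or_ge r (XX n + 2) with h' | h'
  · exact Or.inr (opt3_low hn hr (by omega))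
  · right
    obtain ⟨a, t, h1, h2, h3, h4, h5, h6, h7⟩ := opt3_h hn
    obtain ⟨k, hk⟩ : ∃ k, gg n - 1 = r + k := ⟨gg n - 1 - r, by omega⟩
    rw [hk] at h4 h5 h7
    have e1 : r + k - 2 * a = (r - 2 * a) + k := by omega
    rw [e1] at h7
    have h8 := h7.drops
    have e2 : (r + k) * (n + 1) = r * (n + 1) + k * n + k := by ring
    have e3 : (r + k) * n = r * n + k * n := by ring
    refine ⟨a, r - 2 * a, _, h1, by omega, by omega, h8, Or.inl ?_, Or.inr (Or.inl ?_)⟩
    · rw [← c3_eq]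
      omega
    · rw [← c3_eq, ← t2_eq]
      omega

end H80T
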