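import Mathlib
import Pool.Agent.H80T.Defs7
import Pool.Agent.H80T.Dh
import Pool.Agent.H80T.Bridge
import Pool.Agent.H80R.Small
import Pool.Agent.H80T.Opt3

/-! EXL: basic facts on general double points. -/

namespace H80T

open MvPolynomial Module

theorem Sg_sub {N d b w : ℕ} (k : ℕ) (h : H80R.Sg N d (b + k) w) :
    H80R.Sg N d b (w + N * k) := by
  induction k generalizing w with
  | zero => simpa using h
  | succ k ih =>
    have h1 := ih (w := w + N) (Sg_remove h)
    have h2 : w + N + N * k = w + N * (k + 1) := by ring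
    rw [h2] at h1
    exact h1

theorem exTo_of {N k q : ℕ} (h0 : N * q ≤ N.multichoose k)
    (h1 : H80R.Sg N k q (N.multichoose k - N * q)) : ExTo N k q := by
  refine ⟨h0, fun x hx => ?_⟩
  obtain ⟨t, rfl⟩ := Nat.exists_eq_add_of_le hx
  have h2 := Sg_sub t h1
  refine H80R.Sg_mono h2 ?_
  rw [mul_add] at h0 ⊢
  omega

theorem ex_of_two {N k q : ℕ} (h0 : N * q ≤ N.multichoose k)
    (h1 : H80R.Sg N k q (N.multichoose k - N * q)) (h2 : H80R.Sg N k (q + 1) 0) : Ex N k := by
  intro x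
  rcases Nat.lt_or_ge q x with h | h
  · exact H80R.Sg_mono (H80R.Sg_le h2 h) (Nat.zero_le _)
  · exact (exTo_of h0 h1).2 x h

theorem Ex.to {N k x₀ : ℕ} (h : Ex N k) (h0 : N * x₀ ≤ N.multichoose k) : ExTo N k x₀ :=
  ⟨h0, fun x _ => h x⟩

theorem ExTo.mono {N k x₀ x₁ : ℕ} (h : ExTo N k x₁) (h0 : x₀ ≤ x₁) : ExTo N k x₀ :=
  ⟨(Nat.mul_le_mul_left _ h0).trans h.1, fun x hx => h.2 x (hx.trans h0)⟩

/-- the canonical differential Horace step -/
theorem dh_canon {N d x v m α w₂ : ℕ} (hm : m ≤ N)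
    (hv : N.multichoose (d + 2) = N * v + m) (hx : x = v + m + α)
    (h1 : H80R.Sg N (d + 2) v m)
    (h : H80R.Sg (N + 1) (d + 1) (α + m) ((N + 1).multichoose (d + 1) - (N + 1) * (α + m)))
    (h' : (N + 1) * (α + m) ≤ (N + 1).multichoose (d + 1))
    (h2 : H80R.Sg (N + 1) d α w₂)
    (hw : w₂ ≤ (N + 1).multichoose (d + 2) - (N + 1) * x) :
    H80R.Sg (N + 1) (d + 2) x ((N + 1).multichoose (d + 2) - (N + 1) * x) := by
  have key := dhorace hm h1 h h' h2
  have e1 : v + α + m = x := by omega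
  rw [e1] at key
  refine H80R.Sg_mono key ?_
  rw [Nat.sub_self, zero_add]
  refine max_le ?_ hw
  have e2 : (N + 1).multichoose (d + 2) =
      N.multichoose (d + 2) + (N + 1).multichoose (d + 1) := Nat.multichoose_succ_succ N (d + 1)
  rw [e2, hv, hx]
  have e3 : (N + 1) * (v + m + α) = (N * v + m) + v + N * m + (N + 1) * α := by ring
  rw [e3]
  omega

theorem quad {N : ℕ} : ∀ x, x ≤ N → H80R.Sg N 2 x ((N + 1 - x).choose 2) := by
  intro x
  induction x with
  | zero =>
    intro _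
    have h := H80R.Sg_zero N 2
    rw [Nat.multichoose_eq] at h
    exact h
  | succ x ih =>
    intro hx
    have h1 := ih (by omega)
    obtain ⟨m, hm⟩ : ∃ m, N - x = m + 1 := ⟨N - x - 1, by omega⟩
    have e1 : N + 1 - x = m + 2 := by omega
    have e2 : N + 1 - (x + 1) = m + 1 := by omega
    rw [e1] at h1
    have e3 : (m + 2).choose 2 = (m + 1).choose 2 + (m + 1) := by
      rw [Nat.choose_succ_succ' (m + 1) 1, Nat.choose_one_right, add_comm]
    have h2 := H80R.Sg_step (m := m) (by norm_num) h1 (by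
      rw [Nat.multichoose_eq]
      have e4 : m + 2 - 1 = m + 1 := by omega
      rw [e4, e3]
      omega)
    rw [e2]
    refine H80R.Sg_mono h2 ?_
    omega

theorem quad_zero {N x : ℕ} (hx : N ≤ x) : H80R.Sg N 2 x 0 := by
  have h := quad (N := N) N le_rfl
  have e : N + 1 - N = 1 := by omega
  rw [e] at h
  exact H80R.Sg_le h hx

theorem bin {k : ℕ} (hk : 1 ≤ k) : Ex 2 k := by
  intro x
  have h0 : (2 : ℕ).multichoose k = k + 1 := by
    rw [Nat.multichoose_eq]
    have : 2 + k - 1 = k + 1 := by omega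
    rw [this, Nat.choose_succ_self_right]
  rw [h0]
  induction x with
  | zero =>
    have h := H80R.Sg_zero 2 k
    rw [h0] at h
    exact h
  | succ x ih =>
    rcases Nat.lt_or_ge (k + 1 - 2 * x) 2 with h | h
    · rcases Nat.eq_zero_or_pos (k + 1 - 2 * x) with h3 | h3
      · rw [h3] at ih
        exact H80R.Sg_mono (H80R.Sg_add ih 1) (by omega)
      · have h4 := H80R.Sg_step (m := 0) hk ih (by
          obtain ⟨k', rfl⟩ : ∃ k', k = k' + 1 := ⟨k - 1, by omega⟩
          rw [Nat.multichoose_zero_succ]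
          exact h3)
        exact H80R.Sg_mono h4 (by omega)
    · have h4 := H80R.Sg_step (m := 1) hk ih (by
        rw [Nat.multichoose_one]
        omega)
      exact H80R.Sg_mono h4 (by omega)

theorem cub_exTo (N : ℕ) (hN : 1 ≤ N) : ExTo N 3 (XX N) := by
  have h := NU_spec N
  rw [c3_eq] at h
  exact exTo_of (by omega) (cub_ind hN)

theorem nl_zero_iff {N d a : ℕ} (z : Fin a → Fin N → ℂ) :
    H80R.nl N d z = 0 ↔ ∀ A ∈ H80R.Fm N d, (∀ s, H80R.gr (z s) A = 0) → A = 0 := by
  unfold H80R.nl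
  rw [Submodule.finrank_eq_zero, Submodule.eq_bot_iff]
  constructor
  · intro h A hA hs
    have h1 := h ⟨A, hA⟩ (by
      rw [LinearMap.mem_ker]
      funext s
      exact hs s)
    exact congrArg Subtype.val h1
  · intro h A hA
    rw [LinearMap.mem_ker] at hA
    exact Subtype.ext (h A.1 A.2 (fun s => congrFun hA s))

/-- lower degrees -/
theorem Sg_down {N d a : ℕ} (hN : 1 ≤ N) (hd : 1 ≤ d) (h : H80R.Sg N (d + 1) a 0) :
    H80R.Sg N d a 0 := by
  intro z hz
  have h1 := (nl_zero_iff z).mp (Nat.le_zero.mp (h z hz))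
  refine Nat.le_zero.mpr ((nl_zero_iff z).mpr fun A hA hs => ?_)
  obtain ⟨d', rfl⟩ : ∃ d', d = d' + 1 := ⟨d - 1, by omega⟩
  have h5 := h1 (X ⟨0, hN⟩ * A) (by
      have := H80R.mul_mem_Fm (isHomogeneous_X ℂ (⟨0, hN⟩ : Fin N)) hA
      rw [add_comm 1 (d' + 1)] at this
      exact this) (fun s => by
      funext l
      rw [H80R.gr_mul', H80R.ev_zero_of_gr hA (z s) (hs s), hs s]
      simp)
  rcases mul_eq_zero.mp h5 with h7 | h7
  · exact absurd h7 (X_ne_zero _)
  · exact h7

theorem Sg_down_le {N a : ℕ} (hN : 1 ≤ N) {d d' : ℕ} (hd : 1 ≤ d) (hdd : d ≤ d')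
    (h : H80R.Sg N d' a 0) : H80R.Sg N d a 0 := by
  induction d', hdd using Nat.le_induction with
  | base => exact h
  | succ d' hd' ih => exact ih (Sg_down hN (by omega) h)

end H80T
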