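import Mathlib
import Pool.Agent.H80T.AsmK
import Pool.Agent.H80T.DecEx
import Pool.Agent.H80T.ExL
import Pool.Agent.H80R.MainN
import Pool.Agent.H80R.Dense3

/-! COV: consequences of closedness in degree at least four. -/

namespace H80T

open Topology Module MvPolynomial

theorem dec_append {n k a b r : ℕ} (T : H80R.Dec n k a b r) {d U : ℕ}
    (hU : H80R.Sg n d (a + b) U) :
    H80R.nl n d (Fin.append T.pl T.pp : Fin (a + b) → Fin n → ℂ) ≤ U := by
  apply hU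
  let φ : Fin (a + b) × Fin n → (Fin a × Fin n) ⊕ ((Fin b × Fin n) ⊕ (Fin a × Fin (n + 1))) :=
    fun q => Sum.elim (fun s => Sum.inl (s, q.2)) (fun s => Sum.inr (Sum.inl (s, q.2)))
      (finSumFinEquiv.symm q.1)
  have hφ : Function.Injective φ := by
    rintro ⟨s, l⟩ ⟨s', l'⟩ h
    revert h
    refine Fin.addCases (fun s => ?_) (fun s => ?_) s <;>
    refine Fin.addCases (fun s' => ?_) (fun s' => ?_) s' <;>
    · simp [φ]
  have h3 := T.halg.comp φ hφ
  convert h3 using 1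
  ext ⟨s, l⟩
  refine Fin.addCases (fun s => ?_) (fun s => ?_) s
  · simp [φ]
  · simp [φ]

theorem dec_pl {n k a b r : ℕ} (T : H80R.Dec n k a b r) {d L : ℕ}
    (hL : H80R.Sg n d a L) : H80R.nl n d T.pl ≤ L := by
  apply hL
  have h4 := T.halg.comp (fun q : Fin a × Fin n => Sum.inl q) (by
    intro q q' h
    simpa using h)
  exact h4

theorem cov_core {n K r a U L X ε : ℕ} (hn : 2 ≤ n) (ha : 1 ≤ a) (har : 2 * a ≤ r)
    (hcl : IsClosed[H80R.projTop (n + 1) (K + 2)] (H80R.Y (n + 1) (K + 2) r))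
    (hne : H80R.Y (n + 1) (K + 2) r ≠ Set.univ)
    (hU : H80R.Sg n (K + 2) (r - a) U) (hL : H80R.Sg n (K + 1) a L)
    (hW : U = 0 ∨ U + r * (n + 1) < (n + 1).multichoose (K + 2))
    (hε : r * n + U + L ≤ n.multichoose (K + 2) + n.multichoose (K + 1) + ε)
    (hX : H80R.Sg (n + 1) (K + 1) X 0) (hXε : X + ε ≤ n.multichoose K) :
    ∃ T : H80R.Dec n (K + 2) a (r - 2 * a) r, ∃ y, y < X ∧ y + 1 ≤ uu T ∧ uu T ≤ y + ε ∧
      n.multichoose (K + 1) ≤ L + uu T * (n - 1) + y ∧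
      ∀ w, H80R.Sg (n + 1) K y w → (n + 1).multichoose K ≤ w + uu T + ε := by
  obtain ⟨T⟩ := exists_dec (n := n) (k := K + 1) (a := a) (b := r - 2 * a) (by omega) ha
    (by omega) hcl
  have e1 : r - a = a + (r - 2 * a) := by omega
  rw [e1] at hU
  have hnl : H80R.nl (n + 1) (K + 2) T.w ≠ 0 := fun h0 => hne (H80R.univ_of_nl ⟨T.w, h0⟩ hcl)
  have hge := H80R.nl_ge (d := K + 2) T.w
  have hcomm : (n + 1) * r = r * (n + 1) := mul_comm _ _
  refine ⟨T, rankK T hn ha U L X ε (dec_append T hU) (dec_pl T hL) ?_ hε hX hXε⟩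
  rcases hW with hW | hW <;> omega

theorem cov_zero {n K r a U L X : ℕ} (hn : 2 ≤ n) (ha : 1 ≤ a) (har : 2 * a ≤ r)
    (hcl : IsClosed[H80R.projTop (n + 1) (K + 2)] (H80R.Y (n + 1) (K + 2) r))
    (hU : H80R.Sg n (K + 2) (r - a) U) (hL : H80R.Sg n (K + 1) a L)
    (hW : U = 0 ∨ U + r * (n + 1) < (n + 1).multichoose (K + 2))
    (hε : r * n + U + L ≤ n.multichoose (K + 2) + n.multichoose (K + 1))
    (hX : H80R.Sg (n + 1) (K + 1) X 0) (hXε : X ≤ n.multichoose K) :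
    H80R.Y (n + 1) (K + 2) r = Set.univ := by
  by_contra hne
  obtain ⟨T, y, h1, h2, h3, -⟩ := cov_core (ε := 0) hn ha har hcl hne hU hL hW hε hX hXε
  omega

theorem cov_kill {n K r a U : ℕ} (hn : 1 ≤ n) (ha : 1 ≤ a) (har : 2 * a ≤ r)
    (hcl : IsClosed[H80R.projTop (n + 1) (K + 2)] (H80R.Y (n + 1) (K + 2) r))
    (hU : H80R.Sg n (K + 2) (r - a) U) (hL : H80R.Sg n (K + 1) a 0)
    (hW : U = 0 ∨ U + r * (n + 1) < (n + 1).multichoose (K + 2)) :
    H80R.Y (n + 1) (K + 2) r = Set.univ := by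
  by_contra hne
  have e1 : r - a = a + (r - 2 * a) := by omega
  rw [e1] at hU
  obtain ⟨w, hw⟩ := H80R.closed_hyper (k := K + 1) (b := r - 2 * a) hn le_rfl ha (by omega) hcl
    (fun _ => 0) (fun i hi => Sg_down_le hn (by omega) (by omega) hL) U hU
  rw [Finset.sum_const_zero, add_zero] at hw
  have hw' : H80R.nl (n + 1) (K + 2) w ≤ U := hw
  have hnl : H80R.nl (n + 1) (K + 2) w ≠ 0 := fun h0 => hne (H80R.univ_of_nl ⟨w, h0⟩ hcl)
  have hge := H80R.nl_ge (d := K + 2) w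
  have hcomm : (n + 1) * r = r * (n + 1) := mul_comm _ _
  rcases hW with hW | hW <;> omega

theorem cov_univ {N k r : ℕ} (hcl : IsClosed[H80R.projTop N k] (H80R.Y N k r))
    (h : H80R.Sg N k r 0) : H80R.Y N k r = Set.univ := by
  obtain ⟨v, hv⟩ := H80R.exists_algebraicIndependent (Fin r × Fin N)
  refine H80R.univ_of_nl ⟨fun s l => v (s, l), ?_⟩ hcl
  have := h (fun s l => v (s, l)) hv
  omega

end H80T
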