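import Mathlib
import Pool.Agent.H80T.Defs7

/-! COVG4: inequalities for binomial coefficients. -/

namespace H80T

theorem covG4_mc2 (n : ℕ) : 2 * n.multichoose 2 = n * (n + 1) := by
  rw [Nat.multichoose_eq]
  rcases Nat.eq_zero_or_pos n with h | h
  · subst h
    simp
  · have h1 : n + 2 - 1 = n + 1 := by omega
    rw [h1, Nat.choose_two_right, Nat.add_sub_cancel,
      Nat.mul_div_cancel' ((Nat.even_mul_succ_self n).two_dvd.trans (by rw [mul_comm]))]
    ring

theorem covG4_step (n k : ℕ) :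
    (k + 1) * n.multichoose (k + 1) = (n + k) * n.multichoose k := by
  rcases Nat.eq_zero_or_pos n with h | h
  · subst h
    rcases Nat.eq_zero_or_pos k with h | h
    · subst h
      simp
    · obtain ⟨j, rfl⟩ : ∃ j, k = j + 1 := ⟨k - 1, by omega⟩
      simp
  · rw [Nat.multichoose_eq, Nat.multichoose_eq]
    have h1 : n + (k + 1) - 1 = n + k := by omega
    have h2 : n + k - 1 = (n - 1) + k := by omega
    have h3 : n + k = (n - 1 + k) + 1 := by omega
    rw [h1, h2]
    have h4 := Nat.add_one_mul_choose_eq (n - 1 + k) k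
    rw [← h3] at h4
    rw [h4]
    ring

theorem covG4_mc3 (n : ℕ) : 6 * n.multichoose 3 = n * (n + 1) * (n + 2) := by
  have h1 := covG4_step n 2
  have h2 := covG4_mc2 n
  calc 6 * n.multichoose 3 = 2 * ((2 + 1) * n.multichoose (2 + 1)) := by ring
    _ = (n + 2) * (2 * n.multichoose 2) := by rw [h1]; ring
    _ = _ := by rw [h2]; ring

theorem covG4_mc4 (n : ℕ) : 24 * n.multichoose 4 = n * (n + 1) * (n + 2) * (n + 3) := by
  have h1 := covG4_step n 3
  have h2 := covG4_mc3 n
  calc 24 * n.multichoose 4 = 6 * ((3 + 1) * n.multichoose (3 + 1)) := by ring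
    _ = (n + 3) * (6 * n.multichoose 3) := by rw [h1]; ring
    _ = _ := by rw [h2]; ring

theorem covG4 {n : ℕ} (hn : 10 ≤ n) :
    n + n.multichoose 4 / n + 1 < (n + 1).multichoose 3 ∧
    gg n + n ≤ n.multichoose 2 ∧
    ((n + 1).multichoose 4 - 1) / (n + 1) ≤ n.multichoose 4 / n + XX n ∧
    (n + 1) * (n.multichoose 4 / n + 1 + n) + n ≤ (n + 1).multichoose 4 + 1 ∧
    gg n + 2 * (n - 1) < (n + 1).multichoose 2 := by
  have h4 := covG4_mc4 n
  have h3 := covG4_mc3 (n + 1)
  have h2 := covG4_mc2 n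
  have h4' := covG4_mc4 (n + 1)
  have h2' := covG4_mc2 (n + 1)
  have hn0 : 0 < n := by omega
  have ha1 : n * (n.multichoose 4 / n) ≤ n.multichoose 4 := Nat.mul_div_le _ _
  have ha2 : n.multichoose 4 < n * (n.multichoose 4 / n + 1) := Nat.lt_mul_div_succ _ hn0
  generalize n.multichoose 4 / n = a at *
  generalize n.multichoose 4 = M4 at *
  generalize (n + 1).multichoose 3 = C3 at *
  generalize n.multichoose 2 = C2 at *
  generalize (n + 1).multichoose 2 = C2' at *
  have hA1 : 24 * a ≤ (n + 1) * (n + 2) * (n + 3) := by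
    have : n * (24 * a) ≤ n * ((n + 1) * (n + 2) * (n + 3)) := by
      calc n * (24 * a) = 24 * (n * a) := by ring
        _ ≤ 24 * M4 := by omega
        _ = _ := by rw [h4]; ring
    exact Nat.le_of_mul_le_mul_left this hn0
  have hA2 : (n + 1) * (n + 2) * (n + 3) < 24 * (a + 1) := by
    have : n * ((n + 1) * (n + 2) * (n + 3)) < n * (24 * (a + 1)) := by
      calc n * ((n + 1) * (n + 2) * (n + 3)) = 24 * M4 := by rw [h4]; ring
        _ < 24 * (n * (a + 1)) := by omega
        _ = _ := by ring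
    exact Nat.lt_of_mul_lt_mul_left this
  -- gg
  have hg : 6 * gg n ≤ (n + 2) * (n + 3) + 5 := by
    have h5 : (n + 1) * gg n ≤ c3 (n + 1) + n := Nat.mul_div_le _ _
    have h6 : 6 * c3 (n + 1) ≤ (n + 1) * (n + 1 + 1) * (n + 1 + 2) := Nat.mul_div_le _ _
    have h7 : (n + 1) * (6 * gg n) < (n + 1) * ((n + 2) * (n + 3) + 6) := by
      calc (n + 1) * (6 * gg n) = 6 * ((n + 1) * gg n) := by ring
        _ ≤ 6 * c3 (n + 1) + 6 * n := by omega
        _ ≤ (n + 1) * (n + 1 + 1) * (n + 1 + 2) + 6 * n := by omega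
        _ < (n + 1) * (n + 1 + 1) * (n + 1 + 2) + 6 * (n + 1) := by omega
        _ = _ := by ring
    have := Nat.lt_of_mul_lt_mul_left h7
    omega
  have hX : 3 * n ^ 2 + 8 * n + 7 < 18 * (XX n + 1) := by
    have := Nat.lt_mul_div_succ (3 * n ^ 2 + 8 * n + 7) (show 0 < 18 by norm_num)
    unfold XX
    exact this
  refine ⟨?_, ?_, ?_, ?_, ?_⟩
  · nlinarith
  · nlinarith
  · have hb : (n + 1) * (((n + 1).multichoose 4 - 1) / (n + 1)) ≤ (n + 1).multichoose 4 - 1 :=
      Nat.mul_div_le _ _
    generalize ((n + 1).multichoose 4 - 1) / (n + 1) = b at *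
    generalize (n + 1).multichoose 4 = M4' at *
    have hM : 0 < M4' := by
      rcases Nat.eq_zero_or_pos M4' with h | h
      · exfalso
        rw [h] at h4'
        have : 0 < (n + 1) * (n + 1 + 1) * (n + 1 + 2) * (n + 1 + 3) := by positivity
        omega
      · exact h
    have hB : 24 * b < (n + 2) * (n + 3) * (n + 4) := by
      have : (n + 1) * (24 * b) < (n + 1) * ((n + 2) * (n + 3) * (n + 4)) := by
        calc (n + 1) * (24 * b) = 24 * ((n + 1) * b) := by ring
          _ ≤ 24 * (M4' - 1) := by omega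
          _ < 24 * M4' := by omega
          _ = _ := by rw [h4']; ring
      exact Nat.lt_of_mul_lt_mul_left this
    have h8 : (n + 2) * (n + 3) * (n + 4) = (n + 1) * (n + 2) * (n + 3) + 3 * (n * n) + 15 * n + 18 := by
      ring
    have h9 : 10 * n ≤ n * n := Nat.mul_le_mul_right n hn
    have h10 : 3 * n ^ 2 = 3 * (n * n) := by ring
    rw [h8] at hB
    rw [h10] at hX
    generalize (n + 1) * (n + 2) * (n + 3) = Q at *
    generalize n * n = s at *
    omega
  · nlinarith
  · have h9 : 10 * n ≤ n * n := Nat.mul_le_mul_right n hn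
    have h10 : (n + 2) * (n + 3) = n * n + 5 * n + 6 := by ring
    have h11 : (n + 1) * (n + 1 + 1) = n * n + 3 * n + 2 := by ring
    rw [h10] at hg
    rw [h11] at h2'
    generalize n * n = s at *
    omega

end H80T
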