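import Mathlib
import Pool.Agent.H80T.Defs7

/-! NUMG: inequalities for binomial coefficients. -/

namespace H80T

theorem numG_L1 (N k : ℕ) (hN : 1 ≤ N) :
    (k + 1) * N.multichoose (k + 1) = N * (N + 1).multichoose k := by
  obtain ⟨n, rfl⟩ : ∃ n, N = n + 1 := ⟨N - 1, by omega⟩
  rw [Nat.multichoose_eq, Nat.multichoose_eq]
  have h1 : n + 1 + (k + 1) - 1 = n + k + 1 := by omega
  have h2 : n + 1 + 1 + k - 1 = n + k + 1 := by omega
  rw [h1, h2]
  have h := Nat.choose_succ_right_eq (n + k + 1) k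
  have h3 : n + k + 1 - k = n + 1 := by omega
  rw [h3] at h
  rw [mul_comm, h, mul_comm]

theorem numG_L2 (N k : ℕ) (hN : 1 ≤ N) :
    (N + k) * N.multichoose k = N * (N + 1).multichoose k := by
  obtain ⟨n, rfl⟩ : ∃ n, N = n + 1 := ⟨N - 1, by omega⟩
  rw [Nat.multichoose_eq, Nat.multichoose_eq]
  have h1 : n + 1 + k - 1 = n + k := by omega
  have h2 : n + 1 + 1 + k - 1 = n + k + 1 := by omega
  rw [h1, h2]
  have h := Nat.choose_mul_succ_eq (n + k) k
  have h3 : n + k + 1 - k = n + 1 := by omega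
  rw [h3] at h
  have h4 : n + 1 + k = n + k + 1 := by omega
  rw [h4, mul_comm, h, mul_comm]

theorem numG_L4 (N k : ℕ) (hN : 1 ≤ N) :
    (N + k) * N.multichoose k = (k + 1) * N.multichoose (k + 1) := by
  rw [numG_L1 N k hN, numG_L2 N k hN]

theorem numG_mono (N k j : ℕ) (hN : 1 ≤ N) : N.multichoose k ≤ N.multichoose (k + j) := by
  induction j with
  | zero => exact le_rfl
  | succ j ih =>
    refine ih.trans ?_
    have h := numG_L4 N (k + j) hN
    have h1 : (k + j + 1) * N.multichoose (k + j) ≤ (k + j + 1) * N.multichoose (k + j + 1) := by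
      rw [← h]
      exact Nat.mul_le_mul (by omega) le_rfl
    exact Nat.le_of_mul_le_mul_left h1 (by omega)

theorem numG_two (N : ℕ) (hN : 1 ≤ N) : 2 * N.multichoose 2 = N * (N + 1) := by
  have h := numG_L4 N 1 hN
  rw [Nat.multichoose_one_right] at h
  norm_num at h
  rw [← h]
  ring

theorem numG_three (N : ℕ) (hN : 1 ≤ N) : 6 * N.multichoose 3 = N * (N + 1) * (N + 2) := by
  have h := numG_L4 N 2 hN
  have h2 := numG_two N hN
  norm_num at h
  calc 6 * N.multichoose 3 = 2 * (3 * N.multichoose 3) := by ring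
    _ = 2 * ((N + 2) * N.multichoose 2) := by rw [← h]
    _ = (2 * N.multichoose 2) * (N + 2) := by ring
    _ = _ := by rw [h2]

theorem numG_four (N : ℕ) (hN : 1 ≤ N) :
    24 * N.multichoose 4 = N * (N + 1) * (N + 2) * (N + 3) := by
  have h := numG_L4 N 3 hN
  have h2 := numG_three N hN
  norm_num at h
  calc 24 * N.multichoose 4 = 6 * (4 * N.multichoose 4) := by ring
    _ = 6 * ((N + 3) * N.multichoose 3) := by rw [← h]
    _ = (6 * N.multichoose 3) * (N + 3) := by ring
    _ = _ := by rw [h2]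

theorem numG_five (N : ℕ) (hN : 1 ≤ N) :
    120 * N.multichoose 5 = N * (N + 1) * (N + 2) * (N + 3) * (N + 4) := by
  have h := numG_L4 N 4 hN
  have h2 := numG_four N hN
  norm_num at h
  calc 120 * N.multichoose 5 = 24 * (5 * N.multichoose 5) := by ring
    _ = 24 * ((N + 4) * N.multichoose 4) := by rw [← h]
    _ = (24 * N.multichoose 4) * (N + 4) := by ring
    _ = _ := by rw [h2]

/-- `G ≥ k N` -/
theorem numG_G (N K : ℕ) (hN : 2 ≤ N) (hK : 3 ≤ K) :
    (K + 2) * N ≤ (N + 1).multichoose K := by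
  induction K, hK using Nat.le_induction with
  | base =>
    have h := numG_three (N + 1) (by omega)
    nlinarith [mul_self_nonneg (N - 2 : ℤ), Nat.mul_le_mul hN hN]
  | succ K hK ih =>
    have h := numG_L4 (N + 1) K (by omega)
    have h1 : (K + 1) * ((K + 1 + 2) * N) ≤ (K + 1) * (N + 1).multichoose (K + 1) := by
      rw [← h]
      calc (K + 1) * ((K + 1 + 2) * N) ≤ (K + 2) * ((K + 1 + 2) * N) :=
            Nat.mul_le_mul (by omega) le_rfl
        _ = (K + 3) * ((K + 2) * N) := by ring
        _ ≤ (N + 1 + K) * (N + 1).multichoose K := Nat.mul_le_mul (by omega) ih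
    exact Nat.le_of_mul_le_mul_left h1 (by omega)

theorem numG {N k : ℕ} (hN : 2 ≤ N) (hk : 5 ≤ k) (h : 7 ≤ k ∨ 3 ≤ N) :
    2 * N ≤ N.multichoose k / N ∧
    (N + 1).multichoose (k - 2) + N.multichoose k / N + N * (N.multichoose k % N) ≤
      (N + 1).multichoose (k - 1) := by
  constructor
  · rw [Nat.le_div_iff_mul_le (by omega)]
    by_cases hN3 : 3 ≤ N
    · have h1 := numG_mono N 5 (k - 5) (by omega)
      have h2 : 5 + (k - 5) = k := by omega
      rw [h2] at h1
      refine le_trans ?_ h1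
      have h3 := numG_five N (by omega)
      obtain ⟨n, rfl⟩ : ∃ n, N = n + 3 := ⟨N - 3, by omega⟩
      have h4 : 120 * (2 * (n + 3) * (n + 3)) ≤ 120 * (n + 3).multichoose 5 := by
        rw [h3]
        have h5 : 240 * (n + 3) ≤ (n + 3 + 1) * (n + 3 + 2) * (n + 3 + 3) * (n + 3 + 4) := by
          ring_nf
          nlinarith [sq_nonneg n]
        calc 120 * (2 * (n + 3) * (n + 3)) = (n + 3) * (240 * (n + 3)) := by ring
          _ ≤ (n + 3) * ((n + 3 + 1) * (n + 3 + 2) * (n + 3 + 3) * (n + 3 + 4)) :=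
            Nat.mul_le_mul le_rfl h5
          _ = _ := by ring
      exact Nat.le_of_mul_le_mul_left h4 (by norm_num)
    · have hN2 : N = 2 := by omega
      subst hN2
      rw [Nat.multichoose_two]
      omega
  · obtain ⟨K, rfl⟩ : ∃ K, k = K + 2 := ⟨k - 2, by omega⟩
    have e1 : K + 2 - 2 = K := by omega
    have e2 : K + 2 - 1 = K + 1 := by omega
    rw [e1, e2]
    have hG := numG_G N K hN (by omega)
    have hR1 := numG_L1 N (K + 1) (by omega)
    have hR2 := numG_L4 (N + 1) K (by omega)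
    have hdm := Nat.div_add_mod (N.multichoose (K + 2)) N
    have hm := Nat.mod_lt (N.multichoose (K + 2)) (by omega : 0 < N)
    set A := N.multichoose (K + 2) with hA
    set P := (N + 1).multichoose (K + 1) with hP
    set G := (N + 1).multichoose K with hGd
    set v := A / N with hv
    set m := A % N with hmd
    have hkv : (K + 2) * v ≤ P := by
      have h1 : N * ((K + 2) * v) ≤ N * P := by
        have h2 : (K + 1 + 1) * A = N * P := hR1
        rw [← h2, ← hdm]
        have : (K + 1 + 1) * (N * v + m) = N * ((K + 2) * v) + (K + 2) * m := by ring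
        rw [this]
        exact Nat.le_add_right _ _
      exact Nat.le_of_mul_le_mul_left h1 (by omega)
    have hR2' : (N + 1 + K) * G = (K + 1) * P := hR2
    -- multiply by `k (N + k - 1)`
    have key : ((K + 2) * (N + 1 + K)) * (G + v + N * m) ≤ ((K + 2) * (N + 1 + K)) * P := by
      have h1 : ((K + 2) * (N + 1 + K)) * G = (K + 2) * ((K + 1) * P) := by
        rw [← hR2']; ring
      have h2 : ((K + 2) * (N + 1 + K)) * v ≤ (N + 1 + K) * P := by
        calc ((K + 2) * (N + 1 + K)) * v = (N + 1 + K) * ((K + 2) * v) := by ring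
          _ ≤ (N + 1 + K) * P := Nat.mul_le_mul le_rfl hkv
      have h3 : ((K + 2) * (N + 1 + K)) * (N * m) ≤ (N - 1) * ((K + 1) * P) := by
        calc ((K + 2) * (N + 1 + K)) * (N * m) = m * ((N + 1 + K) * ((K + 2) * N)) := by ring
          _ ≤ (N - 1) * ((N + 1 + K) * G) :=
            Nat.mul_le_mul (by omega) (Nat.mul_le_mul le_rfl hG)
          _ = (N - 1) * ((K + 1) * P) := by rw [hR2']
      obtain ⟨n, hn⟩ : ∃ n, N = n + 1 := ⟨N - 1, by omega⟩
      have h4 : N - 1 = n := by omega
      rw [h4] at h3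
      calc ((K + 2) * (N + 1 + K)) * (G + v + N * m)
          = ((K + 2) * (N + 1 + K)) * G + ((K + 2) * (N + 1 + K)) * v +
            ((K + 2) * (N + 1 + K)) * (N * m) := by ring
        _ ≤ (K + 2) * ((K + 1) * P) + (N + 1 + K) * P + n * ((K + 1) * P) :=
            Nat.add_le_add (Nat.add_le_add h1.le h2) h3
        _ = ((K + 2) * (N + 1 + K)) * P := by rw [hn]; ring
    exact Nat.le_of_mul_le_mul_left key (by positivity)

end H80T
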