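import Mathlib
import Pool.Agent.H80T.Defs7
import Pool.Agent.H80T.NumG

/-! COVG: inequalities for binomial coefficients. -/

namespace H80T

theorem covG {n k : ℕ} (hk : 5 ≤ k) (hn : k ≤ n + 1) (h : 6 ≤ k ∨ 10 ≤ n) :
    n + n.multichoose k / n + 1 < (n + 1).multichoose (k - 1) ∧
    (n + 1).multichoose (k - 1) / (n + 1) + n ≤ n.multichoose (k - 2) ∧
    n.multichoose (k - 1) / n + 1 ≤ n.multichoose k / n ∧
    (n + 1) * (n.multichoose k / n + 1 + n) + n ≤ (n + 1).multichoose k + 1 ∧
    2 * ((n + 1).multichoose (k - 1) / (n + 1)) + 6 * n ≤ (n + 1).multichoose (k - 2) := by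
  have hn5 : 5 ≤ n := by omega
  obtain ⟨K, rfl⟩ : ∃ K, k = K + 1 := ⟨k - 1, by omega⟩
  have hK4 : 4 ≤ K := by omega
  have hKn : K ≤ n := by omega
  have e1 : K + 1 - 1 = K := by omega
  have e2 : K + 1 - 2 = K - 1 := by omega
  rw [e1, e2]
  obtain ⟨J, rfl⟩ : ∃ J, K = J + 1 := ⟨K - 1, by omega⟩
  have e3 : J + 1 - 1 = J := by omega
  rw [e3]
  have hR1 := numG_L1 n (J + 1) (by omega)
  have hR2 := numG_L4 (n + 1) J (by omega)
  have hR3 := numG_L2 n J (by omega)
  have hM := Nat.multichoose_succ_succ n (J + 1)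
  obtain ⟨l, hl⟩ : ∃ l, n = l + 1 := ⟨n - 1, by omega⟩
  have hPas : n.multichoose (J + 1 + 1) = l.multichoose (J + 1 + 1) + n.multichoose (J + 1) := by
    rw [hl]
    exact Nat.multichoose_succ_succ l (J + 1)
  have hl2 : n ≤ l.multichoose (J + 1 + 1) := by
    have h1 := numG_mono l 2 J (by omega)
    have h2 := numG_two l (by omega)
    have h3 : 2 + J = J + 1 + 1 := by omega
    rw [h3] at h1
    refine le_trans ?_ h1
    have h4 : 2 * n ≤ 2 * l.multichoose 2 := by
      rw [h2, hl]
      exact Nat.mul_le_mul (by omega) le_rfl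
    omega
  have hP4 : (n + 1).multichoose 4 ≤ (n + 1).multichoose (J + 1) := by
    have h1 := numG_mono (n + 1) 4 (J - 3) (by omega)
    have h2 : 4 + (J - 3) = J + 1 := by omega
    rwa [h2] at h1
  have hP4' := numG_four (n + 1) (by omega)
  have hG3 : n.multichoose 3 ≤ n.multichoose J := by
    have h1 := numG_mono n 3 (J - 3) (by omega)
    have h2 : 3 + (J - 3) = J := by omega
    rwa [h2] at h1
  have hG3' := numG_three n (by omega)
  have hdm := Nat.div_add_mod (n.multichoose (J + 1 + 1)) n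
  have hwle := Nat.div_mul_le_self ((n + 1).multichoose (J + 1)) (n + 1)
  set A := n.multichoose (J + 1 + 1) with hA
  set P := (n + 1).multichoose (J + 1) with hP
  set G := (n + 1).multichoose J with hGd
  set G' := n.multichoose J with hG'
  set v := A / n with hv
  set m := A % n with hmd
  set w := P / (n + 1) with hw
  have hkv : (J + 1 + 1) * v ≤ P := by
    have h1 : n * ((J + 1 + 1) * v) ≤ n * P := by
      rw [← hR1, ← hdm]
      have : (J + 1 + 1) * (n * v + m) = n * ((J + 1 + 1) * v) + (J + 1 + 1) * m := by ring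
      rw [this]
      exact Nat.le_add_right _ _
    exact Nat.le_of_mul_le_mul_left h1 (by omega)
  have hnv : n * v ≤ A := by omega
  have h5v : 5 * v ≤ P := le_trans (Nat.mul_le_mul (by omega) le_rfl) hkv
  -- `4 P ≥ 5 n (n+3)`
  have h4P : 5 * (n * (n + 3)) ≤ 4 * P := by
    have h1 : 24 * (5 * (n * (n + 3))) ≤ 24 * (4 * (n + 1).multichoose 4) := by
      have h2 : 24 * (4 * (n + 1).multichoose 4) =
          4 * ((n + 1) * (n + 1 + 1) * (n + 1 + 2) * (n + 1 + 3)) := by
        rw [← hP4']; ring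
      rw [h2]
      have h3 : 30 * n ≤ (n + 1) * (n + 1 + 1) * (n + 1 + 3) := by
        obtain ⟨a, ha⟩ : ∃ a, n = a + 5 := ⟨n - 5, by omega⟩
        rw [ha]
        exact Nat.le.intro (by ring :
          30 * (a + 5) + (a ^ 3 + 22 * a ^ 2 + 129 * a + 228) = _)
      calc 24 * (5 * (n * (n + 3))) = 4 * ((30 * n) * (n + 3)) := by ring
        _ ≤ 4 * (((n + 1) * (n + 1 + 1) * (n + 1 + 3)) * (n + 3)) :=
          Nat.mul_le_mul le_rfl (Nat.mul_le_mul h3 le_rfl)
        _ = _ := by ring
    have h2 := Nat.le_of_mul_le_mul_left h1 (by norm_num)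
    exact h2.trans (Nat.mul_le_mul le_rfl hP4)
  have hvP : v + n * (n + 3) ≤ P := by
    omega
  have hn1 : 1 * (n + 3) ≤ n * (n + 3) := Nat.mul_le_mul (by omega) le_rfl
  refine ⟨?_, ?_, ?_, ?_, ?_⟩
  · omega
  · -- (2)
    have h3G : 10 * n ≤ 3 * G' := by
      have h1 : 2 * (10 * n) ≤ 2 * (3 * n.multichoose 3) := by
        have h2 : 2 * (3 * n.multichoose 3) = n * (n + 1) * (n + 2) := by rw [← hG3']; ring
        rw [h2]
        obtain ⟨a, ha⟩ : ∃ a, n = a + 5 := ⟨n - 5, by omega⟩
        rw [ha]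
        exact Nat.le.intro (by ring :
          2 * (10 * (a + 5)) + ((a + 5) * (a ^ 2 + 13 * a + 22)) = _)
      have h2 := Nat.le_of_mul_le_mul_left h1 (by norm_num)
      exact h2.trans (Nat.mul_le_mul le_rfl hG3)
    have hpoly : 10 * ((n + 1 + J) * (n + J)) ≤ 7 * ((J + 1) * (n * (n + 1))) := by
      obtain ⟨a, ha⟩ : ∃ a, n = a + 5 := ⟨n - 5, by omega⟩
      obtain ⟨b, hb⟩ : ∃ b, J = b + 3 := ⟨J - 3, by omega⟩
      obtain ⟨c, hc⟩ : ∃ c, n = (J + 1) + c := ⟨n - (J + 1), by omega⟩
      have hz : ((10 * ((n + 1 + J) * (n + J)) : ℕ) : ℤ) ≤ ((7 * ((J + 1) * (n * (n + 1))) : ℕ) : ℤ) := by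
        push_cast
        have ha' : (n : ℤ) = a + 5 := by exact_mod_cast ha
        have hb' : (J : ℤ) = b + 3 := by exact_mod_cast hb
        have hc' : (n : ℤ) = (J + 1) + c := by exact_mod_cast hc
        have ha0 : (0 : ℤ) ≤ a := by positivity
        have hb0 : (0 : ℤ) ≤ b := by positivity
        have hc0 : (0 : ℤ) ≤ c := by positivity
        have hc'' : (c : ℤ) = a + 5 - (b + 4) := by linarith
        have hid : 7 * (((J : ℤ) + 1) * ((n : ℤ) * (n + 1))) =
            10 * (((n : ℤ) + 1 + J) * (n + J)) + (10 * (b * c) + b * (7 * a ^ 2 + 47 * a + 30) +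
              (18 * a ^ 2 + 138 * a + 120)) := by
          rw [hc'', ha', hb']
          ring
        have hpos : (0 : ℤ) ≤ 10 * (b * c) + b * (7 * a ^ 2 + 47 * a + 30) +
              (18 * a ^ 2 + 138 * a + 120) := by positivity
        linarith
      exact_mod_cast hz
    have key : (n * (J + 1)) * P ≤ (n * (J + 1)) * ((n + 1) * (G' - n)) := by
      obtain ⟨g, hg⟩ : ∃ g, G' = g + n := ⟨G' - n, by omega⟩
      have h1 : G' - n = g := by omega
      rw [h1]
      have h2 : 10 * G' ≤ 10 * g + 3 * G' := by omega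
      have h3 : 7 * G' ≤ 10 * g := by omega
      have h4 : (n * (J + 1)) * P = ((n + 1 + J) * (n + J)) * G' := by
        calc (n * (J + 1)) * P = n * ((J + 1) * P) := by ring
          _ = n * ((n + 1 + J) * G) := by rw [hR2]
          _ = (n + 1 + J) * (n * G) := by ring
          _ = (n + 1 + J) * ((n + J) * G') := by rw [hR3]
          _ = _ := by ring
      rw [h4]
      have h5 : 10 * (((n + 1 + J) * (n + J)) * G') ≤ 10 * ((n * (J + 1)) * ((n + 1) * g)) := by
        calc 10 * (((n + 1 + J) * (n + J)) * G') = (10 * ((n + 1 + J) * (n + J))) * G' := by ring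
          _ ≤ (7 * ((J + 1) * (n * (n + 1)))) * G' := Nat.mul_le_mul hpoly le_rfl
          _ = ((J + 1) * (n * (n + 1))) * (7 * G') := by ring
          _ ≤ ((J + 1) * (n * (n + 1))) * (10 * g) := Nat.mul_le_mul le_rfl h3
          _ = _ := by ring
      exact Nat.le_of_mul_le_mul_left h5 (by norm_num)
    have h1 : P ≤ (n + 1) * (G' - n) :=
      Nat.le_of_mul_le_mul_left key (Nat.mul_pos (by omega) (by omega))
    have h2 : w ≤ G' - n := by
      have h3 : (n + 1) * w ≤ (n + 1) * (G' - n) := by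
        rw [mul_comm (n + 1) w]
        exact hwle.trans h1
      exact Nat.le_of_mul_le_mul_left h3 (by omega)
    omega
  · -- (3)
    have h1 : n.multichoose (J + 1) + n ≤ A := by omega
    have h2 : (n.multichoose (J + 1) + n) / n ≤ A / n := Nat.div_le_div_right h1
    rwa [Nat.add_div_right _ (by omega : 0 < n)] at h2
  · -- (4)
    rw [hM]
    have h1 : (n + 1) * (v + 1 + n) + n = n * v + v + n * (n + 3) + 1 := by ring
    rw [h1]
    omega
  · -- (5)
    have hKK : 6 * (n * ((n + 1) * (n + 1 + J))) + 2 * (P * (n + 1 + J)) ≤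
        (n + 1) * ((J + 1) * P) := by
      by_cases hJ : J = 3
      · subst hJ
        have hn10 : 10 ≤ n := by omega
        have hPe : P = (n + 1).multichoose 4 := rfl
        rw [← hPe] at hP4'
        obtain ⟨a, ha⟩ : ∃ a, n = a + 10 := ⟨n - 10, by omega⟩
        have hq : 72 * n ≤ (n + 3) * (n + 2) * (n - 2) := by
          have : n - 2 = a + 8 := by omega
          rw [this, ha]
          exact Nat.le.intro (by ring :
            72 * (a + 10) + (a ^ 3 + 33 * a ^ 2 + 284 * a + 528) = _)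
        have h1 : 12 * (6 * (n * ((n + 1) * (n + 1 + 3)))) ≤ 12 * (2 * ((n - 2) * P)) := by
          calc 12 * (6 * (n * ((n + 1) * (n + 1 + 3))))
              = ((n + 1) * (n + 4)) * (72 * n) := by ring
            _ ≤ ((n + 1) * (n + 4)) * ((n + 3) * (n + 2) * (n - 2)) :=
              Nat.mul_le_mul le_rfl hq
            _ = (n - 2) * ((n + 1) * (n + 1 + 1) * (n + 1 + 2) * (n + 1 + 3)) := by ring
            _ = (n - 2) * (24 * P) := by rw [hP4']
            _ = 12 * (2 * ((n - 2) * P)) := by ring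
        have h2 := Nat.le_of_mul_le_mul_left h1 (by norm_num)
        have h3 : n - 2 = a + 8 := by omega
        rw [h3] at h2
        rw [ha] at h2 ⊢
        calc 6 * ((a + 10) * ((a + 10 + 1) * (a + 10 + 1 + 3))) + 2 * (P * (a + 10 + 1 + 3))
            ≤ 2 * ((a + 8) * P) + 2 * (P * (a + 10 + 1 + 3)) := Nat.add_le_add_right h2 _
          _ = (a + 10 + 1) * ((3 + 1) * P) := by ring
      · have hP5 : (n + 1).multichoose 5 ≤ P := by
          have h1 := numG_mono (n + 1) 5 (J - 4) (by omega)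
          have h2 : 5 + (J - 4) = J + 1 := by omega
          rwa [h2] at h1
        have hP5' := numG_five (n + 1) (by omega)
        obtain ⟨a, ha⟩ : ∃ a, n = a + 5 := ⟨n - 5, by omega⟩
        obtain ⟨b, hb⟩ : ∃ b, J = b + 4 := ⟨J - 4, by omega⟩
        -- `P ≥ 6 (n+1)(n+5) n / (3 n - 5)`, in the form needed
        have hbase : 6 * (n * (n + 5)) * (n + 1) ≤ (3 * a + 10) * P := by
          have h1 : 120 * (6 * (n * (n + 5)) * (n + 1)) ≤ 120 * ((3 * a + 10) * P) := by
            have h2 : 720 * n ≤ (n + 2) * (n + 3) * (n + 4) * (3 * a + 10) := by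
              rw [ha]
              exact Nat.le.intro (by ring :
                720 * (a + 5) + (3 * a ^ 4 + 82 * a ^ 3 + 813 * a ^ 2 + 2702 * a + 1440) = _)
            calc 120 * (6 * (n * (n + 5)) * (n + 1)) = ((n + 1) * (n + 5)) * (720 * n) := by ring
              _ ≤ ((n + 1) * (n + 5)) * ((n + 2) * (n + 3) * (n + 4) * (3 * a + 10)) :=
                Nat.mul_le_mul le_rfl h2
              _ = (3 * a + 10) * ((n + 1) * (n + 1 + 1) * (n + 1 + 2) * (n + 1 + 3) *
                  (n + 1 + 4)) := by ring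
              _ = (3 * a + 10) * (120 * (n + 1).multichoose 5) := by rw [hP5']
              _ = 120 * ((3 * a + 10) * (n + 1).multichoose 5) := by ring
              _ ≤ 120 * ((3 * a + 10) * P) :=
                Nat.mul_le_mul le_rfl (Nat.mul_le_mul le_rfl hP5)
          exact Nat.le_of_mul_le_mul_left h1 (by norm_num)
        -- slope: `6 n (n+1) ≤ (n-1) P`
        have hslope : 6 * (n * (n + 1)) ≤ (a + 4) * P := by
          have h1 : 24 * (6 * (n * (n + 1))) ≤ 24 * (3 * (n + 1).multichoose 4) := by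
            have h2 : 24 * (3 * (n + 1).multichoose 4) =
                3 * ((n + 1) * (n + 1 + 1) * (n + 1 + 2) * (n + 1 + 3)) := by
              rw [← hP4']; ring
            rw [h2]
            have h3 : 48 * n ≤ (n + 2) * (n + 3) * (n + 4) := by
              rw [ha]
              exact Nat.le.intro (by ring :
                48 * (a + 5) + (a ^ 3 + 24 * a ^ 2 + 143 * a + 264) = _)
            calc 24 * (6 * (n * (n + 1))) = 3 * ((n + 1) * (48 * n)) := by ring
              _ ≤ 3 * ((n + 1) * ((n + 2) * (n + 3) * (n + 4))) :=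
                Nat.mul_le_mul le_rfl (Nat.mul_le_mul le_rfl h3)
              _ = _ := by ring
          have h2 := Nat.le_of_mul_le_mul_left h1 (by norm_num)
          exact (h2.trans (Nat.mul_le_mul le_rfl hP4)).trans (Nat.mul_le_mul (by omega) le_rfl)
        rw [ha, hb]
        rw [ha] at hbase hslope
        have hs2 := Nat.mul_le_mul (le_refl b) hslope
        calc 6 * ((a + 5) * ((a + 5 + 1) * (a + 5 + 1 + (b + 4)))) +
              2 * (P * (a + 5 + 1 + (b + 4)))
            = 6 * ((a + 5) * (a + 5 + 5)) * (a + 5 + 1) + b * (6 * ((a + 5) * (a + 5 + 1))) +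
              2 * (P * (a + 5 + 1 + (b + 4))) := by ring
          _ ≤ (3 * a + 10) * P + b * ((a + 4) * P) + 2 * (P * (a + 5 + 1 + (b + 4))) :=
            Nat.add_le_add_right (Nat.add_le_add hbase hs2) _
          _ = (a + 5 + 1) * ((b + 4 + 1) * P) := by ring
    have h1 : (2 * w + 6 * n) * ((n + 1) * (n + 1 + J)) ≤ G * ((n + 1) * (n + 1 + J)) := by
      have h2 : G * ((n + 1) * (n + 1 + J)) = (n + 1) * ((J + 1) * P) := by
        rw [← hR2]; ring
      rw [h2]
      calc (2 * w + 6 * n) * ((n + 1) * (n + 1 + J))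
          = 2 * ((w * (n + 1)) * (n + 1 + J)) + 6 * (n * ((n + 1) * (n + 1 + J))) := by ring
        _ ≤ 2 * (P * (n + 1 + J)) + 6 * (n * ((n + 1) * (n + 1 + J))) :=
          Nat.add_le_add (Nat.mul_le_mul le_rfl (Nat.mul_le_mul hwle le_rfl)) le_rfl
        _ ≤ _ := by rw [add_comm]; exact hKK
    exact Nat.le_of_mul_le_mul_right h1 (by positivity)

end H80T
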