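import Mathlib
import Pool.Agent.H80T.Defs7

/-! NUM4: inequalities for binomial coefficients. -/

namespace H80T

theorem num4_mc (N : ℕ) : 24 * N.multichoose 4 = N * (N + 1) * (N + 2) * (N + 3) := by
  have h := Nat.descFactorial_eq_factorial_mul_choose (N + 3) 4
  have h1 : (N + 3).descFactorial 4 = N * (N + 1) * (N + 2) * (N + 3) := by
    simp only [Nat.descFactorial]
    have e1 : N + 3 - 3 = N := by omega
    have e2 : N + 3 - 2 = N + 1 := by omega
    have e3 : N + 3 - 1 = N + 2 := by omega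
    have e4 : N + 3 - 0 = N + 3 := by omega
    rw [e1, e2, e3, e4]
    ring
  have h2 : N.multichoose 4 = (N + 3).choose 4 := by
    rw [Nat.multichoose_eq]
    rfl
  have h3 : Nat.factorial 4 = 24 := rfl
  rw [h2, ← h1, h, h3]

theorem num4 {N : ℕ} (hN : 10 ≤ N) :
    (N + 1) * (N + 1 + N.multichoose 4 / N + N.multichoose 4 % N) ≤ (N + 1).multichoose 4 ∧
    (N + 1).multichoose 4 / (N + 1) + 1 ≤ N.multichoose 4 / N + XX (N + 1) := by
  have hM := num4_mc N
  have hM' := num4_mc (N + 1)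
  have hd := Nat.div_add_mod (N.multichoose 4) N
  have hm := Nat.mod_lt (N.multichoose 4) (show 0 < N by omega)
  have hd' := Nat.mul_div_le ((N + 1).multichoose 4) (N + 1)
  have hX := Nat.div_add_mod (3 * (N + 1) ^ 2 + 8 * (N + 1) + 7) 18
  have hX' := Nat.mod_lt (3 * (N + 1) ^ 2 + 8 * (N + 1) + 7) (show 0 < 18 by norm_num)
  have hXX : XX (N + 1) = (3 * (N + 1) ^ 2 + 8 * (N + 1) + 7) / 18 := by
    rfl
  rw [hXX]
  generalize hv : N.multichoose 4 / N = v at *
  generalize hmm : N.multichoose 4 % N = m at *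
  generalize hv' : (N + 1).multichoose 4 / (N + 1) = v' at *
  generalize hY : (3 * (N + 1) ^ 2 + 8 * (N + 1) + 7) / 18 = Y at *
  generalize hYm : (3 * (N + 1) ^ 2 + 8 * (N + 1) + 7) % 18 = y at *
  have h1 : 24 * v ≤ (N + 1) * (N + 2) * (N + 3) := by
    have h2 : N * (24 * v) ≤ N * ((N + 1) * (N + 2) * (N + 3)) := by nlinarith
    exact Nat.le_of_mul_le_mul_left h2 (by omega)
  have h2 : (N + 1) * (N + 2) * (N + 3) < 24 * (v + 1) := by
    have h3 : N * ((N + 1) * (N + 2) * (N + 3)) < N * (24 * (v + 1)) := by nlinarith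
    exact Nat.lt_of_mul_lt_mul_left h3
  have h3 : 24 * v' ≤ (N + 2) * (N + 3) * (N + 4) := by
    have h4 : (N + 1) * (24 * v') ≤ (N + 1) * ((N + 2) * (N + 3) * (N + 4)) := by nlinarith
    exact Nat.le_of_mul_le_mul_left h4 (by omega)
  constructor
  · rcases Nat.eq_or_lt_of_le hN with h10 | h11
    · subst h10
      have e1 : (10 : ℕ).multichoose 4 = 715 := by
        have := num4_mc 10
        omega
      have e2 : (10 + 1 : ℕ).multichoose 4 = 1001 := by
        have := num4_mc (10 + 1)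
        omega
      rw [e1] at hv hmm
      rw [e2, ← hv, ← hmm]
      norm_num
    · obtain ⟨k, rfl⟩ : ∃ k, N = k + 11 := ⟨N - 11, by omega⟩
      have h5 : 24 * (k + 11 + 1 + v + m) ≤ (k + 11 + 2) * (k + 11 + 3) * (k + 11 + 4) := by
        nlinarith
      have h6 := Nat.mul_le_mul_left (k + 11 + 1) h5
      nlinarith
  · obtain ⟨k, rfl⟩ : ∃ k, N = k + 10 := ⟨N - 10, by omega⟩
    by_contra hcon
    push Not at hcon
    nlinarith

end H80T
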