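import Mathlib
import Pool.Agent.H80T.Defs7

/-! NUM5: inequalities for binomial coefficients. -/

namespace H80T

private theorem num5_fac (n k : ℕ) : k.factorial * n.multichoose k = n.ascFactorial k := by
  rw [Nat.multichoose_eq, Nat.ascFactorial_eq_factorial_mul_choose']

theorem num5 {N : ℕ} (hN : 4 ≤ N) :
    (N + 1) * (gg N + 1 + N.multichoose 5 / N + N.multichoose 5 % N) ≤ (N + 1).multichoose 5 ∧
    N.multichoose 5 % N + 2 * N + 2 ≤ N.multichoose 5 / N := by
  rcases Nat.eq_or_lt_of_le hN with rfl | hN4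
  · simp only [Nat.multichoose_eq]; decide
  have h5 := num5_fac N 5
  have h5' := num5_fac (N + 1) 5
  simp only [Nat.ascFactorial, Nat.factorial] at h5 h5'
  -- gg
  have hg : 6 * gg N ≤ (N + 2) * (N + 3) + 5 := by
    have h5 : (N + 1) * gg N ≤ c3 (N + 1) + N := Nat.mul_div_le _ _
    have h6 : 6 * c3 (N + 1) ≤ (N + 1) * (N + 1 + 1) * (N + 1 + 2) := Nat.mul_div_le _ _
    have h7 : (N + 1) * (6 * gg N) < (N + 1) * ((N + 2) * (N + 3) + 6) := by
      calc (N + 1) * (6 * gg N) = 6 * ((N + 1) * gg N) := by ring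
        _ ≤ 6 * c3 (N + 1) + 6 * N := by omega
        _ ≤ (N + 1) * (N + 1 + 1) * (N + 1 + 2) + 6 * N := by omega
        _ < (N + 1) * (N + 1 + 1) * (N + 1 + 2) + 6 * (N + 1) := by omega
        _ = _ := by ring
    have := Nat.lt_of_mul_lt_mul_left h7
    omega
  have hv := Nat.div_add_mod (N.multichoose 5) N
  have hm := Nat.mod_lt (N.multichoose 5) (show N > 0 by omega)
  generalize N.multichoose 5 / N = v at *
  generalize N.multichoose 5 % N = m at *
  generalize N.multichoose 5 = M at *
  generalize (N + 1).multichoose 5 = Q at *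
  generalize gg N = g at *
  have hv1 : 120 * v ≤ (N + 1) * (N + 2) * (N + 3) * (N + 4) := by
    have h1 : N * (120 * v) ≤ N * ((N + 1) * (N + 2) * (N + 3) * (N + 4)) := by
      calc N * (120 * v) = 120 * (N * v) := by ring
        _ ≤ 120 * M := by omega
        _ = _ := by linarith
    exact Nat.le_of_mul_le_mul_left h1 (by omega)
  constructor
  · have h1 : 30 * (g + 1 + m) ≤ (N + 2) * (N + 3) * (N + 4) := by
      have h2 : 30 * (g + 1 + m) ≤ 5 * ((N + 2) * (N + 3) + 5) + 30 * N := by omega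
      have h3 : 5 * ((N + 2) * (N + 3) + 5) + 30 * N ≤ (N + 2) * (N + 3) * (N + 4) := by
        obtain ⟨n, rfl⟩ := Nat.exists_eq_add_of_le hN4
        nlinarith [Nat.zero_le n, Nat.zero_le (n * n), Nat.zero_le (n * n * n)]
      exact h2.trans h3
    have h4 : 120 * ((N + 1) * (g + 1 + v + m)) ≤ 120 * Q := by
      calc 120 * ((N + 1) * (g + 1 + v + m))
          = (N + 1) * (4 * (30 * (g + 1 + m)) + 120 * v) := by ring
        _ ≤ (N + 1) * (4 * ((N + 2) * (N + 3) * (N + 4)) +
            (N + 1) * (N + 2) * (N + 3) * (N + 4)) :=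
            Nat.mul_le_mul_left _ (Nat.add_le_add (Nat.mul_le_mul_left _ h1) hv1)
        _ = 120 * Q := by linarith
    omega
  · have h1 : N * (m + 2 * N + 2) ≤ N * v := by
      have h2 : 120 * (3 * N * N + 2 * N) ≤ 120 * M := by
        have h3 : 120 * (3 * N + 2) ≤ (N + 1) * (N + 2) * (N + 3) * (N + 4) := by
          obtain ⟨n, rfl⟩ := Nat.exists_eq_add_of_le hN4
          nlinarith [Nat.zero_le n, Nat.zero_le (n * n), Nat.zero_le (n * n * n),
            Nat.zero_le (n * n * n * n)]
        calc 120 * (3 * N * N + 2 * N) = N * (120 * (3 * N + 2)) := by ring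
          _ ≤ N * ((N + 1) * (N + 2) * (N + 3) * (N + 4)) := Nat.mul_le_mul_left _ h3
          _ = _ := by linarith
      have h4 : N * m + m ≤ N * N := by
        have h5 : m + 1 ≤ N := hm
        nlinarith
      nlinarith
    exact Nat.le_of_mul_le_mul_left h1 (by omega)

end H80T
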