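import Mathlib
import Pool.Agent.H80T.Defs7

/-! NUM6: inequalities for binomial coefficients. -/

namespace H80T

private theorem num6_fac (n k : ℕ) : k.factorial * n.multichoose k = n.ascFactorial k := by
  rw [Nat.multichoose_eq, Nat.ascFactorial_eq_factorial_mul_choose']

theorem num6 {N : ℕ} (hN : 3 ≤ N) :
    (N + 1) * ((N + 1).multichoose 4 / (N + 1) + 2 + N.multichoose 6 / N +
      N.multichoose 6 % N) ≤ (N + 1).multichoose 6 := by
  rcases Nat.eq_or_lt_of_le hN with rfl | hN4
  · simp only [Nat.multichoose_eq]; decide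
  have h4 := num6_fac (N + 1) 4
  have h5 := num6_fac (N + 1) 5
  have h6 := num6_fac N 6
  simp only [Nat.ascFactorial, Nat.factorial] at h4 h5 h6
  rw [Nat.multichoose_succ_succ N 5]
  generalize (N + 1).multichoose 4 = c at *
  generalize (N + 1).multichoose 5 = P at *
  generalize N.multichoose 6 = M at *
  have hP : 5 * P = (N + 5) * c := by nlinarith
  have hM : 6 * M = N * P := by nlinarith
  have hv := Nat.div_add_mod M N
  have hm := Nat.mod_lt M (show N > 0 by omega)
  have hq := Nat.mul_div_le c (N + 1)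
  generalize M / N = v at *
  generalize M % N = m at *
  generalize c / (N + 1) = q at *
  have h6v : 6 * v ≤ P := by
    have h1 : N * (6 * v) ≤ N * P := by
      rw [← hM]
      nlinarith
    exact Nat.le_of_mul_le_mul_left h1 (by omega)
  have hNm : N * m + N ≤ N * N := by nlinarith
  have hc : 6 * (N * N) + 6 * N + 12 + c ≤ N * c := by
    obtain ⟨n, rfl⟩ := Nat.exists_eq_add_of_le hN4
    have h1 : 24 * (6 * ((3 + 1 + n) * (3 + 1 + n)) + 6 * (3 + 1 + n) + 12 + c) ≤
        (3 + 1 + n) * (24 * c) := by
      have h2 : 24 * c = (3 + 1 + n + 1) * (3 + 1 + n + 2) * (3 + 1 + n + 3) * (3 + 1 + n + 4) := by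
        nlinarith
      nlinarith [Nat.zero_le n, Nat.zero_le (n * n), Nat.zero_le (n * n * n),
        Nat.zero_le (n * n * n * n), Nat.zero_le (n * n * n * n * n)]
    nlinarith
  nlinarith

end H80T
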