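import Mathlib
import Pool.Agent.H80T.ExL

/-! SM: small cases, degrees four to six. -/

namespace H80T

theorem dhx {N d v α m w₁ w₂ : ℕ} (x w : ℕ) (hm : m ≤ N) (h1 : H80R.Sg N (d + 2) v w₁)
    (h : ExTo (N + 1) (d + 1) (α + m))
    (h2 : H80R.Sg (N + 1) d α w₂) (hx : v + α + m = x)
    (hw : (w₁ - m) + max ((N + 1).multichoose (d + 1) - (N + 1) * α - N * m - v) w₂ ≤ w) :
    H80R.Sg (N + 1) (d + 2) x w := by
  have h3 := dhorace hm h1 (h.2 _ le_rfl) h.1 h2
  rw [hx] at h3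
  exact H80R.Sg_mono h3 hw

theorem cubTo {N x : ℕ} (hN : 1 ≤ N) (hx : x ≤ XX N) : ExTo N 3 x := (cub_exTo N hN).mono hx

theorem s3_4 : H80R.Sg 3 4 4 3 := H80R.Sg_sgc (n := 3) (e := 4) (by norm_num) 4
theorem s3_5 : H80R.Sg 3 4 5 1 := H80R.Sg_sgc (n := 3) (e := 4) (by norm_num) 5
theorem s3_6 : H80R.Sg 3 4 6 0 := H80R.Sg_sgc (n := 3) (e := 4) (by norm_num) 6

theorem s4_8 : H80R.Sg 4 4 8 3 :=
  dhx (α := 4) (m := 0) (w₂ := 0) 8 3 (by norm_num) s3_4 (cubTo (by norm_num) (by decide))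
    (quad_zero (by norm_num)) (by norm_num) (by simp [Nat.multichoose_eq]; decide)
theorem s4_9 : H80R.Sg 4 4 9 1 :=
  dhx (α := 4) (m := 0) (w₂ := 0) 9 1 (by norm_num) s3_5 (cubTo (by norm_num) (by decide))
    (quad_zero (by norm_num)) (by norm_num) (by simp [Nat.multichoose_eq]; decide)
theorem s4_10 : H80R.Sg 4 4 10 0 :=
  dhx (α := 4) (m := 0) (w₂ := 0) 10 0 (by norm_num) s3_6 (cubTo (by norm_num) (by decide))
    (quad_zero (by norm_num)) (by norm_num) (by simp [Nat.multichoose_eq]; decide)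

theorem s5_13 : H80R.Sg 5 4 13 5 :=
  dhx (α := 5) (m := 0) (w₂ := 0) 13 5 (by norm_num) s4_8 (cubTo (by norm_num) (by decide))
    (quad_zero (by norm_num)) (by norm_num) (by simp [Nat.multichoose_eq]; decide)
theorem s5_14 : H80R.Sg 5 4 14 2 :=
  dhx (α := 5) (m := 0) (w₂ := 0) 14 2 (by norm_num) s4_9 (cubTo (by norm_num) (by decide))
    (quad_zero (by norm_num)) (by norm_num) (by simp [Nat.multichoose_eq]; decide)
theorem s5_15 : H80R.Sg 5 4 15 0 :=
  dhx (α := 5) (m := 0) (w₂ := 0) 15 0 (by norm_num) s4_10 (cubTo (by norm_num) (by decide))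
    (quad_zero (by norm_num)) (by norm_num) (by simp [Nat.multichoose_eq]; decide)

theorem s6_20 : H80R.Sg 6 4 20 6 :=
  dhx (α := 7) (m := 0) (w₂ := 0) 20 6 (by norm_num) s5_13 (cubTo (by norm_num) (by decide))
    (quad_zero (by norm_num)) (by norm_num) (by simp [Nat.multichoose_eq]; decide)
theorem s6_21 : H80R.Sg 6 4 21 2 :=
  dhx (α := 7) (m := 0) (w₂ := 0) 21 2 (by norm_num) s5_14 (cubTo (by norm_num) (by decide))
    (quad_zero (by norm_num)) (by norm_num) (by simp [Nat.multichoose_eq]; decide)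
theorem s6_22 : H80R.Sg 6 4 22 0 :=
  dhx (α := 7) (m := 0) (w₂ := 0) 22 0 (by norm_num) s5_15 (cubTo (by norm_num) (by decide))
    (quad_zero (by norm_num)) (by norm_num) (by simp [Nat.multichoose_eq]; decide)

theorem s7_29 : H80R.Sg 7 4 29 7 :=
  dhx (α := 9) (m := 0) (w₂ := 0) 29 7 (by norm_num) s6_20 (cubTo (by norm_num) (by decide))
    (quad_zero (by norm_num)) (by norm_num) (by simp [Nat.multichoose_eq]; decide)
theorem s7_30 : H80R.Sg 7 4 30 2 :=
  dhx (α := 9) (m := 0) (w₂ := 0) 30 2 (by norm_num) s6_21 (cubTo (by norm_num) (by decide))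
    (quad_zero (by norm_num)) (by norm_num) (by simp [Nat.multichoose_eq]; decide)
theorem s7_31 : H80R.Sg 7 4 31 0 :=
  dhx (α := 9) (m := 0) (w₂ := 0) 31 0 (by norm_num) s6_22 (cubTo (by norm_num) (by decide))
    (quad_zero (by norm_num)) (by norm_num) (by simp [Nat.multichoose_eq]; decide)

theorem s8_40 : H80R.Sg 8 4 40 10 :=
  dhx (α := 11) (m := 0) (w₂ := 0) 40 10 (by norm_num) s7_29 (cubTo (by norm_num) (by decide))
    (quad_zero (by norm_num)) (by norm_num) (by simp [Nat.multichoose_eq]; decide)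
theorem s8_41 : H80R.Sg 8 4 41 3 :=
  dhx (α := 8) (m := 4) (w₂ := 0) 41 3 (by norm_num) s7_29 (cubTo (by norm_num) (by decide))
    (quad_zero (by norm_num)) (by norm_num) (by simp [Nat.multichoose_eq]; decide)
theorem s8_42 : H80R.Sg 8 4 42 0 :=
  dhx (α := 10) (m := 2) (w₂ := 0) 42 0 (by norm_num) s7_30 (cubTo (by norm_num) (by decide))
    (quad_zero (by norm_num)) (by norm_num) (by simp [Nat.multichoose_eq]; decide)

theorem s9_54 : H80R.Sg 9 4 54 9 :=
  dhx (α := 13) (m := 1) (w₂ := 0) 54 9 (by norm_num) s8_40 (cubTo (by norm_num) (by decide))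
    (quad_zero (by norm_num)) (by norm_num) (by simp [Nat.multichoose_eq]; decide)
theorem s9_55 : H80R.Sg 9 4 55 1 :=
  dhx (α := 12) (m := 2) (w₂ := 0) 55 1 (by norm_num) s8_41 (cubTo (by norm_num) (by decide))
    (quad_zero (by norm_num)) (by norm_num) (by simp [Nat.multichoose_eq]; decide)
theorem s9_56 : H80R.Sg 9 4 56 0 :=
  dhx (α := 14) (m := 0) (w₂ := 0) 56 0 (by norm_num) s8_42 (cubTo (by norm_num) (by decide))
    (quad_zero (by norm_num)) (by norm_num) (by simp [Nat.multichoose_eq]; decide)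

theorem s10_71 : H80R.Sg 10 4 71 5 :=
  dhx (α := 13) (m := 4) (w₂ := 0) 71 5 (by norm_num) s9_54 (cubTo (by norm_num) (by decide))
    (quad_zero (by norm_num)) (by norm_num) (by simp [Nat.multichoose_eq]; decide)
theorem s10_72 : H80R.Sg 10 4 72 0 :=
  dhx (α := 16) (m := 1) (w₂ := 0) 72 0 (by norm_num) s9_55 (cubTo (by norm_num) (by decide))
    (quad_zero (by norm_num)) (by norm_num) (by simp [Nat.multichoose_eq]; decide)

end H80T
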