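import Mathlib
import Pool.Agent.H80T.Sm
import Pool.Agent.H80T.NumG
import Pool.Agent.H80T.Num4
import Pool.Agent.H80T.Num5
import Pool.Agent.H80T.Num6

/-! EXALL: general double points impose independent conditions in degree at least five. -/

namespace H80T

theorem ex_step {N d w₂ : ℕ} (h1 : Ex N (d + 2))
    (hα : N.multichoose (d + 2) / N + N.multichoose (d + 2) % N ≤
      (N + 1).multichoose (d + 2) / (N + 1)) (hN : 1 ≤ N)
    (hB : ExTo (N + 1) (d + 1)
      ((N + 1).multichoose (d + 2) / (N + 1) + 1 - N.multichoose (d + 2) / N))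
    (h2 : H80R.Sg (N + 1) d ((N + 1).multichoose (d + 2) / (N + 1) -
      N.multichoose (d + 2) / N - N.multichoose (d + 2) % N) w₂)
    (hw : w₂ ≤ (N + 1).multichoose (d + 2) % (N + 1))
    (h2' : H80R.Sg (N + 1) d ((N + 1).multichoose (d + 2) / (N + 1) + 1 -
      N.multichoose (d + 2) / N - N.multichoose (d + 2) % N) 0) :
    Ex (N + 1) (d + 2) := by
  have hm : N.multichoose (d + 2) % N < N := Nat.mod_lt _ hN
  have hv := Nat.div_add_mod (N.multichoose (d + 2)) N
  have hq := Nat.div_add_mod ((N + 1).multichoose (d + 2)) (N + 1)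
  have he : (N + 1).multichoose (d + 2) % (N + 1) < N + 1 := Nat.mod_lt _ (by omega)
  have hS := h1 (N.multichoose (d + 2) / N)
  set v := N.multichoose (d + 2) / N with hvdef
  set m := N.multichoose (d + 2) % N with hmdef
  set q := (N + 1).multichoose (d + 2) / (N + 1) with hqdef
  set e := (N + 1).multichoose (d + 2) % (N + 1) with hedef
  have h3 : N.multichoose (d + 2) - N * v = m := by omega
  rw [h3] at hS
  apply ex_of_two (q := q) (by omega)
  · apply dh_canon (v := v) (m := m) (α := q - v - m) (w₂ := w₂) (by omega) hv.symm (by omega) hS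
      (hB.2 _ (by omega)) (hB.mono (by omega)).1 h2
    omega
  · have h4 := dh_canon (x := q + 1) (v := v) (m := m) (α := q + 1 - v - m) (w₂ := 0) (by omega)
      hv.symm (by omega) hS (hB.2 _ (by omega)) (hB.mono (by omega)).1 h2' (Nat.zero_le _)
    refine H80R.Sg_mono h4 ?_
    have h5 : (N + 1) * (q + 1) = (N + 1) * q + (N + 1) := by ring
    omega

/-- consequences of the inequalities for the canonical step -/
theorem canon_ineq {N d : ℕ} (hN : 2 ≤ N)
    (h1 : 2 * N ≤ N.multichoose (d + 2) / N)
    (h2 : (N + 1).multichoose d + N.multichoose (d + 2) / N + N * (N.multichoose (d + 2) % N) ≤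
      (N + 1).multichoose (d + 1)) :
    N.multichoose (d + 2) / N + N.multichoose (d + 2) % N ≤
      (N + 1).multichoose (d + 2) / (N + 1) ∧
    (N + 1) * ((N + 1).multichoose (d + 2) / (N + 1) + 1 - N.multichoose (d + 2) / N) ≤
      (N + 1).multichoose (d + 1) ∧
    (N + 1).multichoose d ≤ (N + 1) * ((N + 1).multichoose (d + 2) / (N + 1) -
      N.multichoose (d + 2) / N - N.multichoose (d + 2) % N) +
      (N + 1).multichoose (d + 2) % (N + 1) := by
  have hm : N.multichoose (d + 2) % N < N := Nat.mod_lt _ (by omega)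
  have hv := Nat.div_add_mod (N.multichoose (d + 2)) N
  have hq := Nat.div_add_mod ((N + 1).multichoose (d + 2)) (N + 1)
  have he : (N + 1).multichoose (d + 2) % (N + 1) < N + 1 := Nat.mod_lt _ (by omega)
  have e2 : (N + 1).multichoose (d + 2) =
      N.multichoose (d + 2) + (N + 1).multichoose (d + 1) := Nat.multichoose_succ_succ N (d + 1)
  set v := N.multichoose (d + 2) / N with hvdef
  set m := N.multichoose (d + 2) % N with hmdef
  set q := (N + 1).multichoose (d + 2) / (N + 1) with hqdef
  set e := (N + 1).multichoose (d + 2) % (N + 1) with hedef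
  set P := (N + 1).multichoose (d + 1)
  have h3 : v + m ≤ q := by
    rw [hqdef, Nat.le_div_iff_mul_le (by omega)]
    have h4 : (v + m) * (N + 1) = N * v + m + v + N * m := by ring
    omega
  obtain ⟨α, hα⟩ : ∃ α, q = v + m + α := ⟨q - (v + m), by omega⟩
  have h5 : (N + 1) * q = N * v + v + N * m + m + (N + 1) * α := by rw [hα]; ring
  refine ⟨h3, ?_, ?_⟩
  · have h6 : q + 1 - v = m + α + 1 := by omega
    have h7 : (N + 1) * (m + α + 1) = N * m + m + (N + 1) * α + N + 1 := by ring
    rw [h6, h7]
    omega
  · have h6 : q - v - m = α := by omega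
    rw [h6]
    omega

theorem ex_step6 {N d : ℕ} (hN : 2 ≤ N) (h0 : Ex N (d + 2)) (hE1 : Ex (N + 1) (d + 1))
    (hE2 : Ex (N + 1) d) (h1 : 2 * N ≤ N.multichoose (d + 2) / N)
    (h2 : (N + 1).multichoose d + N.multichoose (d + 2) / N + N * (N.multichoose (d + 2) % N) ≤
      (N + 1).multichoose (d + 1)) : Ex (N + 1) (d + 2) := by
  obtain ⟨c1, c2, c3⟩ := canon_ineq hN h1 h2
  have he : (N + 1).multichoose (d + 2) % (N + 1) < N + 1 := Nat.mod_lt _ (by omega)
  apply ex_step h0 c1 (by omega) (hE1.to c2) (hE2 _)
  · omega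
  · refine H80R.Sg_mono (hE2 _) ?_
    set v := N.multichoose (d + 2) / N
    set m := N.multichoose (d + 2) % N
    set q := (N + 1).multichoose (d + 2) / (N + 1)
    have h6 : q + 1 - v - m = (q - v - m) + 1 := by omega
    have h7 : (N + 1) * (q + 1 - v - m) = (N + 1) * (q - v - m) + (N + 1) := by
      rw [h6]; ring
    omega

theorem ex10_4 : Ex 10 4 := by
  apply ex_of_two (q := 71) (by rw [Nat.multichoose_eq]; decide)
  · have h := s10_71
    rw [show (10 : ℕ).multichoose 4 - 10 * 71 = 5 by rw [Nat.multichoose_eq]; decide]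
    exact h
  · exact s10_72

theorem ex4 {N : ℕ} (hN : 10 ≤ N) : Ex N 4 := by
  induction N, hN using Nat.le_induction with
  | base => exact ex10_4
  | succ N hN ih =>
    obtain ⟨h1, h2⟩ := num4 hN
    set v := N.multichoose 4 / N with hv
    set m := N.multichoose 4 % N with hm
    have h3 : N + 1 + v + m ≤ (N + 1).multichoose 4 / (N + 1) := by
      rw [Nat.le_div_iff_mul_le (by omega), mul_comm]
      exact h1
    exact ex_step (d := 2) (w₂ := 0) ih
      (show v + m ≤ (N + 1).multichoose 4 / (N + 1) by omega) (by omega)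
      (show ExTo (N + 1) 3 ((N + 1).multichoose 4 / (N + 1) + 1 - v) from
        cubTo (by omega) (by omega))
      (show H80R.Sg (N + 1) 2 ((N + 1).multichoose 4 / (N + 1) - v - m) 0 from
        quad_zero (by omega))
      (Nat.zero_le _)
      (show H80R.Sg (N + 1) 2 ((N + 1).multichoose 4 / (N + 1) + 1 - v - m) 0 from
        quad_zero (by omega))

theorem exTo4 {N : ℕ} (hN : 3 ≤ N) : ExTo N 4 (N.multichoose 4 / N - 1) := by
  rcases Nat.lt_or_ge N 10 with h | h
  · have key : ∀ q w : ℕ, N * q + w = N.multichoose 4 → H80R.Sg N 4 q w →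
        N.multichoose 4 / N - 1 ≤ q → ExTo N 4 (N.multichoose 4 / N - 1) := by
      intro q w h1 h2 h3
      have h4 : N.multichoose 4 - N * q = w := by omega
      refine (exTo_of (q := q) (by omega) ?_).mono h3
      rw [h4]
      exact h2
    interval_cases N
    · exact key 4 3 (by rw [Nat.multichoose_eq]; decide) s3_4 (by rw [Nat.multichoose_eq]; decide)
    · exact key 8 3 (by rw [Nat.multichoose_eq]; decide) s4_8 (by rw [Nat.multichoose_eq]; decide)
    · exact key 13 5 (by rw [Nat.multichoose_eq]; decide) s5_13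
        (by rw [Nat.multichoose_eq]; decide)
    · exact key 20 6 (by rw [Nat.multichoose_eq]; decide) s6_20
        (by rw [Nat.multichoose_eq]; decide)
    · exact key 29 7 (by rw [Nat.multichoose_eq]; decide) s7_29
        (by rw [Nat.multichoose_eq]; decide)
    · exact key 40 10 (by rw [Nat.multichoose_eq]; decide) s8_40
        (by rw [Nat.multichoose_eq]; decide)
    · exact key 54 9 (by rw [Nat.multichoose_eq]; decide) s9_54
        (by rw [Nat.multichoose_eq]; decide)
  · apply (ex4 h).to
    have h1 := Nat.mul_div_le (N.multichoose 4) N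
    have h2 : N * (N.multichoose 4 / N - 1) ≤ N * (N.multichoose 4 / N) :=
      Nat.mul_le_mul_left _ (Nat.sub_le _ _)
    omega

theorem kill4 {N : ℕ} (hN : 3 ≤ N) : H80R.Sg N 4 (N.multichoose 4 / N + 2) 0 := by
  rcases Nat.lt_or_ge N 10 with h | h
  · interval_cases N
    · exact H80R.Sg_le s3_6 (by rw [Nat.multichoose_eq]; decide)
    · exact H80R.Sg_le s4_10 (by rw [Nat.multichoose_eq]; decide)
    · exact H80R.Sg_le s5_15 (by rw [Nat.multichoose_eq]; decide)
    · exact H80R.Sg_le s6_22 (by rw [Nat.multichoose_eq]; decide)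
    · exact H80R.Sg_le s7_31 (by rw [Nat.multichoose_eq]; decide)
    · exact H80R.Sg_le s8_42 (by rw [Nat.multichoose_eq]; decide)
    · exact H80R.Sg_le s9_56 (by rw [Nat.multichoose_eq]; decide)
  · refine H80R.Sg_mono (ex4 h _) ?_
    have h1 := Nat.div_add_mod (N.multichoose 4) N
    have h2 := Nat.mod_lt (N.multichoose 4) (show 0 < N by omega)
    rw [mul_add]
    omega

theorem ex3_5 : Ex 3 5 := by
  apply ex_of_two (q := 7) (by rw [Nat.multichoose_eq]; decide)
  · have h : H80R.Sg 3 5 7 0 :=
      dhx (N := 2) (d := 3) (v := 3) (α := 4) (m := 0) (w₁ := 0) (w₂ := 0) 7 0 (by norm_num)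
        (H80R.Sg_mono (bin (by norm_num) 3) (by rw [Nat.multichoose_eq]; decide))
        ((exTo4 le_rfl).mono (by rw [Nat.multichoose_eq]; decide))
        good_3.sg (by norm_num) (by simp [Nat.multichoose_eq]; decide)
    exact H80R.Sg_mono h (Nat.zero_le _)
  · exact dhx (N := 2) (d := 3) (v := 4) (α := 4) (m := 0) (w₁ := 0) (w₂ := 0) 8 0 (by norm_num)
        (H80R.Sg_mono (bin (by norm_num) 4) (by rw [Nat.multichoose_eq]; decide))
        ((exTo4 le_rfl).mono (by rw [Nat.multichoose_eq]; decide))
        good_3.sg (by norm_num) (by simp [Nat.multichoose_eq]; decide)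

theorem ex4_5 : Ex 4 5 := by
  have h : H80R.Sg 4 5 14 0 :=
    dhx (N := 3) (d := 3) (v := 7) (α := 7) (m := 0) (w₁ := 0) (w₂ := 0) 14 0 (by norm_num)
      (H80R.Sg_mono (ex3_5 7) (by rw [Nat.multichoose_eq]; decide))
      ((exTo4 (N := 4) (by norm_num)).mono (by rw [Nat.multichoose_eq]; decide))
      (cub_kill (n := 3) le_rfl (by decide)) (by norm_num) (by simp [Nat.multichoose_eq]; decide)
  apply ex_of_two (q := 14) (by rw [Nat.multichoose_eq]; decide)
  · exact H80R.Sg_mono h (Nat.zero_le _)
  · exact H80R.Sg_le h (by norm_num)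

theorem ex5 {N : ℕ} (hN : 2 ≤ N) : Ex N 5 := by
  rcases Nat.lt_or_ge N 4 with h | h
  · interval_cases N
    · exact bin (by norm_num)
    · exact ex3_5
  · clear hN
    induction N, h using Nat.le_induction with
    | base => exact ex4_5
    | succ N hN ih =>
      obtain ⟨h1, h2⟩ := num5 hN
      obtain ⟨g1, g2⟩ := numG (N := N) (k := 5) (by omega) le_rfl (Or.inr (by omega))
      obtain ⟨c1, c2, c3⟩ := canon_ineq (d := 3) (by omega) g1 g2
      have hvm := Nat.div_add_mod (N.multichoose 5) N
      have hq := Nat.div_add_mod ((N + 1).multichoose 5) (N + 1)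
      have e2 : (N + 1).multichoose 5 =
        N.multichoose 5 + (N + 1).multichoose 4 := Nat.multichoose_succ_succ N 4
      set v := N.multichoose 5 / N with hv
      set m := N.multichoose 5 % N with hm
      set q := (N + 1).multichoose 5 / (N + 1) with hqdef
      have h3 : gg N + 1 + v + m ≤ q := by
        rw [hqdef, Nat.le_div_iff_mul_le (by omega), mul_comm]
        exact h1
      have h4 : q + 1 - v ≤ (N + 1).multichoose 4 / (N + 1) - 1 := by
        have h5 : q + 2 - v ≤ (N + 1).multichoose 4 / (N + 1) := by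
          rw [Nat.le_div_iff_mul_le (by omega)]
          obtain ⟨α, hα⟩ : ∃ α, q = v + α := ⟨q - v, by omega⟩
          have h6 : q + 2 - v = α + 2 := by omega
          have h7 : (N + 1) * q = N * v + v + (N + 1) * α := by rw [hα]; ring
          have h8 : (α + 2) * (N + 1) = (N + 1) * α + 2 * N + 2 := by ring
          rw [h6, h8]
          omega
        omega
      exact ex_step (d := 3) (w₂ := 0) ih c1 (by omega) ((exTo4 (by omega)).mono h4)
        (show H80R.Sg (N + 1) 3 (q - v - m) 0 from cub_kill (by omega) (by omega))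
        (Nat.zero_le _)
        (show H80R.Sg (N + 1) 3 (q + 1 - v - m) 0 from cub_kill (by omega) (by omega))

theorem ex3_6 : Ex 3 6 := by
  apply ex_of_two (q := 9) (by rw [Nat.multichoose_eq]; decide)
  · have h : H80R.Sg 3 6 9 1 :=
      dhx (N := 2) (d := 4) (v := 3) (α := 6) (m := 0) (w₁ := 1) (w₂ := 0) 9 1 (by norm_num)
        (H80R.Sg_mono (bin (by norm_num) 3) (by rw [Nat.multichoose_eq]; decide))
        (ex3_5.to (by rw [Nat.multichoose_eq]; decide))
        s3_6 (by norm_num) (by simp [Nat.multichoose_eq]; decide)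
    rw [show (3 : ℕ).multichoose 6 - 3 * 9 = 1 by rw [Nat.multichoose_eq]; decide]
    exact h
  · exact dhx (N := 2) (d := 4) (v := 4) (α := 6) (m := 0) (w₁ := 0) (w₂ := 0) 10 0 (by norm_num)
        (H80R.Sg_mono (bin (by norm_num) 4) (by rw [Nat.multichoose_eq]; decide))
        (ex3_5.to (by rw [Nat.multichoose_eq]; decide))
        s3_6 (by norm_num) (by simp [Nat.multichoose_eq]; decide)

theorem ex6 {N : ℕ} (hN : 2 ≤ N) : Ex N 6 := by
  rcases Nat.lt_or_ge N 3 with h | h
  · interval_cases N
    exact bin (by norm_num)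
  · clear hN
    induction N, h using Nat.le_induction with
    | base => exact ex3_6
    | succ N hN ih =>
      have h1 := num6 hN
      obtain ⟨g1, g2⟩ := numG (N := N) (k := 6) (by omega) (by omega) (Or.inr (by omega))
      obtain ⟨c1, c2, c3⟩ := canon_ineq (d := 4) (by omega) g1 g2
      set v := N.multichoose 6 / N with hv
      set m := N.multichoose 6 % N with hm
      set q := (N + 1).multichoose 6 / (N + 1) with hqdef
      have h3 : (N + 1).multichoose 4 / (N + 1) + 2 + v + m ≤ q := by
        rw [hqdef, Nat.le_div_iff_mul_le (by omega), mul_comm]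
        exact h1
      have hk := kill4 (N := N + 1) (by omega)
      exact ex_step (d := 4) (w₂ := 0) ih c1 (by omega) ((ex5 (by omega)).to c2)
        (show H80R.Sg (N + 1) 4 (q - v - m) 0 from H80R.Sg_le hk (by omega))
        (Nat.zero_le _)
        (show H80R.Sg (N + 1) 4 (q + 1 - v - m) 0 from H80R.Sg_le hk (by omega))

/-- **General double points impose independent conditions in degree at least five.** -/
theorem ex_ge5 : ∀ k, 5 ≤ k → ∀ N, 2 ≤ N → Ex N k := by
  intro k
  induction k using Nat.strong_induction_on with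
  | _ k ihk =>
    intro hk N hN
    rcases Nat.lt_or_ge k 7 with h | h
    · interval_cases k
      · exact ex5 hN
      · exact ex6 hN
    · obtain ⟨d, rfl⟩ : ∃ d, k = d + 2 := ⟨k - 2, by omega⟩
      induction N, hN using Nat.le_induction with
      | base => exact bin (by omega)
      | succ N hN ih =>
        obtain ⟨g1, g2⟩ := numG (N := N) (k := d + 2) hN (by omega) (Or.inl h)
        have e1 : d + 2 - 2 = d := by omega
        have e2 : d + 2 - 1 = d + 1 := by omega
        rw [e1, e2] at g2
        exact ex_step6 hN ih (ihk (d + 1) (by omega) (by omega) (N + 1) (by omega))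
          (ihk d (by omega) (by omega) (N + 1) (by omega)) g1 g2

end H80T
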