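import Mathlib
import Pool.Agent.H80T.Cov
import Pool.Agent.H80T.ExAll
import Pool.Agent.H80T.CovG

/-! COVGEN: the general case. -/

namespace H80T

open Topology

theorem le_mc {n j : ℕ} : n ≤ n.multichoose (j + 1) := by
  induction n with
  | zero => simp
  | succ n ih =>
    rw [Nat.multichoose_succ_succ]
    have := H80R.mc_pos (n := n + 1) (by omega) j
    omega

theorem half_le (G N : ℕ) (hN : 1 ≤ N) : G / (2 * N) ≤ G / N := by
  apply Nat.div_le_div_left (by omega) (by omega)

theorem ex_of {N K : ℕ} (hN : 2 ≤ N) (h : 5 ≤ K ∨ (K = 4 ∧ 10 ≤ N)) : Ex N K := by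
  rcases h with h | ⟨rfl, h⟩
  · exact ex_ge5 K h N hN
  · exact ex4 h

theorem half_ex {N K : ℕ} (hN : 4 ≤ N) (hK : 3 ≤ K) :
    ExTo N K (N.multichoose K / (2 * N)) := by
  rcases Nat.lt_or_ge K 5 with h | h
  · interval_cases K
    · apply (cub_exTo N (by omega)).mono
      have h1 := lt_XX N
      rw [← c3_eq]
      have h2 : 6 * c3 N = N * (N + 1) * (N + 2) := by
        rw [c3_eq, Nat.multichoose_eq]
        have e : N + 3 - 1 = N + 2 := by omega
        rw [e]
        have h3 := Nat.choose_mul_factorial_mul_factorial (n := N + 2) (k := 3) (by omega)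
        have e2 : N + 2 - 3 = N - 1 := by omega
        rw [e2] at h3
        have h4 : (N + 2).factorial = (N + 2) * ((N + 1) * (N * (N - 1).factorial)) := by
          rw [Nat.factorial_succ, Nat.factorial_succ]
          congr 2
          exact (Nat.mul_factorial_pred (by omega)).symm
        rw [h4] at h3
        have h5 : Nat.factorial 3 = 6 := rfl
        rw [h5] at h3
        have h6 : 0 < (N - 1).factorial := Nat.factorial_pos _
        apply Nat.eq_of_mul_eq_mul_right h6
        linarith
      rw [Nat.div_le_iff_le_mul_add_pred (by omega)]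
      have h7 : 3 * N ^ 2 + 8 * N + 7 ≤ 18 * XX N + 17 := by omega
      nlinarith
    · apply (exTo4 (by omega)).mono
      have h1 : N * 2 ≤ N.multichoose 4 := by
        obtain ⟨m, rfl⟩ : ∃ m, N = m + 1 := ⟨N - 1, by omega⟩
        have h3 : (m + 1).multichoose 4 = m.multichoose 4 + (m + 1).multichoose 3 :=
          Nat.multichoose_succ_succ m 3
        have h2 : m ≤ m.multichoose 4 := le_mc (j := 3)
        have h4 : (m + 1).multichoose 3 = m.multichoose 3 + (m + 1).multichoose 2 :=
          Nat.multichoose_succ_succ m 2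
        have h5 : m ≤ m.multichoose 3 := le_mc (j := 2)
        have h6 : m + 1 ≤ (m + 1).multichoose 2 := le_mc (j := 1)
        omega
      have h2 : 2 ≤ N.multichoose 4 / N := by
        rw [Nat.le_div_iff_mul_le (by omega)]
        omega
      have h3 : N.multichoose 4 / (2 * N) = N.multichoose 4 / N / 2 := by
        rw [mul_comm, Nat.div_div_eq_div_mul]
      rw [h3]
      omega
  · apply (ex_ge5 K h N (by omega)).to
    have h1 := Nat.mul_div_le (N.multichoose K) N
    have h2 := Nat.mul_le_mul_left N (half_le (N.multichoose K) N (by omega))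
    omega

theorem cov_gen {n K r : ℕ} (hK : 3 ≤ K) (hn : K + 1 ≤ n) (h : 4 ≤ K ∨ 10 ≤ n) (hr : 2 ≤ r)
    (hcl : IsClosed[H80R.projTop (n + 1) (K + 2)] (H80R.Y (n + 1) (K + 2) r)) :
    H80R.Y (n + 1) (K + 2) r = Set.univ := by
  have hEA : Ex n (K + 2) := ex_of (by omega) (by omega)
  have hEB : Ex n (K + 1) := ex_of (by omega) (by omega)
  have hEP : Ex (n + 1) (K + 1) := ex_of (by omega) (by omega)
  have hEM : Ex (n + 1) (K + 2) := ex_of (by omega) (by omega)
  have hEG := half_ex (N := n + 1) (K := K) (by omega) hK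
  obtain ⟨f1, f2, f3, f4, f5⟩ := covG (n := n) (k := K + 2) (by omega) (by omega) (by omega)
  have e1 : K + 2 - 1 = K + 1 := by omega
  have e2 : K + 2 - 2 = K := by omega
  rw [e1] at f1 f2 f3 f5
  rw [e2] at f2 f5
  have hBn : n ≤ n.multichoose (K + 1) := le_mc
  have hM : (n + 1).multichoose (K + 2) = n.multichoose (K + 2) + (n + 1).multichoose (K + 1) :=
    Nat.multichoose_succ_succ n (K + 1)
  have hA := Nat.div_add_mod (n.multichoose (K + 2)) n
  have hηn : n.multichoose (K + 2) % n < n := Nat.mod_lt _ (by omega)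
  have hB := Nat.div_add_mod (n.multichoose (K + 1)) n
  have hηB : n.multichoose (K + 1) % n < n := Nat.mod_lt _ (by omega)
  have hP := Nat.div_add_mod ((n + 1).multichoose (K + 1)) (n + 1)
  have hPm : (n + 1).multichoose (K + 1) % (n + 1) < n + 1 := Nat.mod_lt _ (by omega)
  have hG := Nat.div_add_mod ((n + 1).multichoose K) (2 * (n + 1))
  have hGm : (n + 1).multichoose K % (2 * (n + 1)) < 2 * (n + 1) := Nat.mod_lt _ (by omega)
  set A := n.multichoose (K + 2)
  set B := n.multichoose (K + 1)
  set P := (n + 1).multichoose (K + 1)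
  set M := (n + 1).multichoose (K + 2)
  set G := (n + 1).multichoose K
  set q := A / n
  set η := A % n
  set q' := B / n
  set x₀ := P / (n + 1)
  set y₀ := G / (2 * (n + 1))
  -- the kill number
  have hX : H80R.Sg (n + 1) (K + 1) (x₀ + 1) 0 := by
    refine H80R.Sg_mono (hEP _) ?_
    have : (n + 1) * (x₀ + 1) = (n + 1) * x₀ + (n + 1) := by ring
    omega
  have hq : H80R.Sg n (K + 2) q η := H80R.Sg_mono (hEA q) (by omega)
  have hq1 : H80R.Sg n (K + 2) (q + 1) 0 := by
    refine H80R.Sg_mono (hEA _) ?_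
    have : n * (q + 1) = n * q + n := by ring
    omega
  have hq'1 : H80R.Sg n (K + 1) (q' + 1) 0 := by
    refine H80R.Sg_mono (hEB _) ?_
    have : n * (q' + 1) = n * q' + n := by ring
    omega
  clear_value q η q' x₀ y₀
  rcases Nat.lt_or_ge (r * (n + 1)) M with h0 | h0
  swap
  · apply cov_univ hcl
    refine H80R.Sg_mono (hEM r) ?_
    rw [mul_comm] at h0
    omega
  rcases Nat.lt_or_ge (q + 1) r with h1 | h1
  swap
  · -- one tangent vector
    obtain ⟨s, rfl⟩ : ∃ s, r = s + 1 := ⟨r - 1, by omega⟩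
    have h2 : n * s ≤ n * q := Nat.mul_le_mul_left _ (by omega)
    have h3 : (s + 1) * (n + 1) = n * s + n + s + 1 := by ring
    have h4 : (s + 1) * n = n * s + n := by ring
    refine cov_zero (a := 1) (U := A - n * s) (L := B - n * 1) (by omega) le_rfl (by omega) hcl
      (hEA s) (hEB 1) (Or.inr ?_) ?_ hX (by omega)
    · rw [h3]
      omega
    · rw [h4]
      omega
  by_cases hW : η = 0 ∨ η + r * (n + 1) < M
  · rcases Nat.lt_or_ge (q + q') r with h2 | h2
    · -- the kill case
      refine cov_kill (a := q' + 1) (U := η) (by omega) (by omega) (by omega) hcl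
        (H80R.Sg_le hq (by omega)) hq'1 hW
    · obtain ⟨a, rfl⟩ : ∃ a, r = q + a := ⟨r - q, by omega⟩
      have h3 : n * a ≤ n * q' := Nat.mul_le_mul_left _ (by omega)
      have h4 : (q + a) * n = n * q + n * a := by ring
      have e3 : q + a - a = q := by omega
      refine cov_zero (a := a) (U := η) (L := B - n * a) (by omega) (by omega) (by omega) hcl
        (by rw [e3]; exact hq) (hEB a) hW ?_ hX (by omega)
      rw [h4]
      omega
  · push Not at hW
    obtain ⟨hη0, hW⟩ := hW
    have hnr : q + 1 + n ≤ r := by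
      by_contra hcon
      have h2 : (r + 1) * (n + 1) ≤ (q + 1 + n) * (n + 1) := Nat.mul_le_mul_right _ (by omega)
      have h3 : (r + 1) * (n + 1) = r * (n + 1) + (n + 1) := by ring
      have h4 : (q + 1 + n) * (n + 1) = (n + 1) * (q + 1 + n) := by ring
      omega
    rcases Nat.lt_or_ge (r - (q + 1)) (q' + 1) with h2 | h2
    swap
    · exact cov_kill (a := q' + 1) (U := 0) (by omega) (by omega) (by omega) hcl
        (H80R.Sg_le hq1 (by omega)) hq'1 (Or.inl rfl)
    obtain ⟨a, rfl⟩ : ∃ a, r = q + 1 + a := ⟨r - (q + 1), by omega⟩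
    have h3 : n * a ≤ n * q' := Nat.mul_le_mul_left _ (by omega)
    have h4 : (q + 1 + a) * n = n * q + n + n * a := by ring
    have e3 : q + 1 + a - a = q + 1 := by omega
    by_contra hne
    obtain ⟨T, y, y1, y2, y3, y4, y5⟩ := cov_core (a := a) (U := 0) (L := B - n * a)
      (ε := n - η) (by omega) (by omega) (by omega) hcl hne (by rw [e3]; exact hq1) (hEB a)
      (Or.inl rfl) (by rw [h4]; omega) hX (by omega)
    set u := uu T
    obtain ⟨n', rfl⟩ : ∃ n', n = n' + 1 := ⟨n - 1, by omega⟩
    have e4 : n' + 1 - 1 = n' := by omega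
    rw [e4] at y4
    have h5 : (n' + 1) * a ≤ u * n' + y := by omega
    have h6 : u * n' ≤ (y + n') * n' := Nat.mul_le_mul_right _ (by omega)
    have hy2 : 2 ≤ y := by
      by_contra hcon
      have h7 : (n' + 1) * (n' + 1) ≤ (n' + 1) * a := Nat.mul_le_mul_left _ (by omega)
      have h8 : (y + n') * n' ≤ (1 + n') * n' := Nat.mul_le_mul_right _ (by omega)
      have h9 : (n' + 1) * (n' + 1) = (1 + n') * n' + n' + 1 := by ring
      omega
    rcases Nat.lt_or_ge y₀ y with h7 | h7
    · have h8 := y5 _ (H80R.Sg_le (hEG.2 _ le_rfl) (le_of_lt h7))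
      have h9 := hEG.1
      have h10 : 2 * (n' + 1 + 1) * y₀ = 2 * ((n' + 1 + 1) * y₀) := by ring
      omega
    · have h8 := y5 _ (hEG.2 y h7)
      have h9 : (n' + 1 + 1) * y ≤ (n' + 1 + 1) * y₀ := Nat.mul_le_mul_left _ h7
      have h10 := hEG.1
      have h11 : (n' + 1 + 1) * y = n' * y + y + y := by ring
      have h12 : n' * 2 ≤ n' * y := Nat.mul_le_mul_left _ hy2
      omega

end H80T
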