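import Mathlib
import Pool.Agent.H80T.CovGen
import Pool.Agent.H80T.CovG4

/-! COVGEN4: degree four, at least eleven variables. -/

namespace H80T

open Topology

theorem two_choose (m : ℕ) : 2 * (m + 1).choose 2 = m * (m + 1) := by
  rw [Nat.choose_two_right, Nat.add_sub_cancel, mul_comm (m + 1) m]
  exact Nat.mul_div_cancel' (Nat.even_mul_succ_self m).two_dvd

theorem cov_gen4 {n r : ℕ} (hn : 10 ≤ n) (hr : 2 ≤ r)
    (hcl : IsClosed[H80R.projTop (n + 1) 4] (H80R.Y (n + 1) 4 r)) :
    H80R.Y (n + 1) 4 r = Set.univ := by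
  have hEA : Ex n 4 := ex4 hn
  have hEM : Ex (n + 1) 4 := ex4 (by omega)
  have hEB := cub_exTo n (by omega)
  obtain ⟨f1, f2, f3, f4, f5⟩ := covG4 (n := n) hn
  have hBn : n ≤ n.multichoose 3 := le_mc (j := 2)
  have hM : (n + 1).multichoose 4 = n.multichoose 4 + (n + 1).multichoose 3 :=
    Nat.multichoose_succ_succ n 3
  have hA := Nat.div_add_mod (n.multichoose 4) n
  have hηn : n.multichoose 4 % n < n := Nat.mod_lt _ (by omega)
  have hXX1 : 1 ≤ XX n := by
    have := lt_XX n
    omega
  have hX : H80R.Sg (n + 1) (2 + 1) (gg n + 1) 0 := cub_kill (by omega) le_rfl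
  have hMd := Nat.div_add_mod ((n + 1).multichoose 4 - 1) (n + 1)
  have hMm : ((n + 1).multichoose 4 - 1) % (n + 1) < n + 1 := Nat.mod_lt _ (by omega)
  have hG2 : (n + 1).multichoose 2 = (n + 2).choose 2 := by
    rw [Nat.multichoose_eq]
    congr 1
  have hEB1 := hEB.1
  set A := n.multichoose 4
  set B := n.multichoose 3
  set P := (n + 1).multichoose 3
  set M := (n + 1).multichoose 4
  set q := A / n
  set η := A % n
  set μ := (M - 1) / (n + 1)
  clear_value q η μ
  have hq : H80R.Sg n 4 q η := H80R.Sg_mono (hEA q) (by omega)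
  have hq1 : H80R.Sg n 4 (q + 1) 0 := by
    refine H80R.Sg_mono (hEA _) ?_
    have : n * (q + 1) = n * q + n := by ring
    omega
  rcases Nat.lt_or_ge (r * (n + 1)) M with h0 | h0
  swap
  · apply cov_univ hcl
    refine H80R.Sg_mono (hEM r) ?_
    rw [mul_comm] at h0
    omega
  have hrμ : r ≤ μ := by
    by_contra hcon
    have h2 : (μ + 1) * (n + 1) ≤ r * (n + 1) := Nat.mul_le_mul_right _ (by omega)
    have h3 : (μ + 1) * (n + 1) = (n + 1) * μ + (n + 1) := by ring
    omega
  rcases Nat.lt_or_ge (q + 1) r with h1 | h1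
  swap
  · obtain ⟨s, rfl⟩ : ∃ s, r = s + 1 := ⟨r - 1, by omega⟩
    have h2 : n * s ≤ n * q := Nat.mul_le_mul_left _ (by omega)
    have h3 : (s + 1) * (n + 1) = n * s + n + s + 1 := by ring
    have h4 : (s + 1) * n = n * s + n := by ring
    refine cov_zero (K := 2) (a := 1) (U := A - n * s) (L := B - n * 1) (by omega) le_rfl
      (by omega) hcl (hEA s) (hEB.2 1 hXX1) (Or.inr ?_) ?_ hX (by omega)
    · rw [h3]
      show A - n * s + (n * s + n + s + 1) < M
      omega
    · rw [h4]
      show n * s + n + (A - n * s) + (B - n * 1) ≤ A + B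
      omega
  by_cases hW : η = 0 ∨ η + r * (n + 1) < M
  · obtain ⟨a, rfl⟩ : ∃ a, r = q + a := ⟨r - q, by omega⟩
    have h3 : n * a ≤ n * XX n := Nat.mul_le_mul_left _ (by omega)
    have h4 : (q + a) * n = n * q + n * a := by ring
    have e3 : q + a - a = q := by omega
    have hXq : XX n ≤ q := by
      by_contra hcon
      have h5 : (q + 1) * (n + 1) ≤ XX n * (n + 1) := Nat.mul_le_mul_right _ (by omega)
      have h6 : n * (q + 1) ≤ n * XX n := Nat.mul_le_mul_left _ (by omega)
      have h7 : n * (q + 1) = n * q + n := by ring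
      have h8 : n.multichoose 4 = (n - 1).multichoose 4 + n.multichoose 3 := by
        obtain ⟨m, rfl⟩ : ∃ m, n = m + 1 := ⟨n - 1, by omega⟩
        exact Nat.multichoose_succ_succ m 3
      have h9 : A = (n - 1).multichoose 4 + B := h8
      omega
    refine cov_zero (K := 2) (a := a) (U := η) (L := B - n * a) (by omega) (by omega) (by omega)
      hcl (by rw [e3]; exact hq) (hEB.2 a (by omega)) hW ?_ hX (by omega)
    rw [h4]
    show n * q + n * a + η + (B - n * a) ≤ A + B
    omega
  · push Not at hW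
    obtain ⟨hη0, hW⟩ := hW
    have hnr : q + 1 + n ≤ r := by
      by_contra hcon
      have h2 : (r + 1) * (n + 1) ≤ (q + 1 + n) * (n + 1) := Nat.mul_le_mul_right _ (by omega)
      have h3 : (r + 1) * (n + 1) = r * (n + 1) + (n + 1) := by ring
      have h4 : (q + 1 + n) * (n + 1) = (n + 1) * (q + 1 + n) := by ring
      omega
    obtain ⟨a, rfl⟩ : ∃ a, r = q + 1 + a := ⟨r - (q + 1), by omega⟩
    have h3 : n * a ≤ n * XX n := Nat.mul_le_mul_left _ (by omega)
    have h4 : (q + 1 + a) * n = n * q + n + n * a := by ring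
    have e3 : q + 1 + a - a = q + 1 := by omega
    have hXq : XX n ≤ q := by
      by_contra hcon
      have h6 : n * (q + 1) ≤ n * XX n := Nat.mul_le_mul_left _ (by omega)
      have h7 : n * (q + 1) = n * q + n := by ring
      have h8 : n.multichoose 4 = (n - 1).multichoose 4 + n.multichoose 3 := by
        obtain ⟨m, rfl⟩ : ∃ m, n = m + 1 := ⟨n - 1, by omega⟩
        exact Nat.multichoose_succ_succ m 3
      have h9 : A = (n - 1).multichoose 4 + B := h8
      omega
    by_contra hne
    obtain ⟨T, y, y1, y2, y3, y4, y5⟩ := cov_core (K := 2) (a := a) (U := 0) (L := B - n * a)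
      (ε := n - η) (by omega) (by omega) (by omega) hcl hne (by rw [e3]; exact hq1)
      (hEB.2 a (by omega)) (Or.inl rfl)
      (by
        rw [h4]
        show n * q + n + n * a + 0 + (B - n * a) ≤ A + B + (n - η)
        omega) hX (by omega)
    have y4' : B ≤ (B - n * a) + uu T * (n - 1) + y := y4
    set u := uu T
    obtain ⟨n', rfl⟩ : ∃ n', n = n' + 1 := ⟨n - 1, by omega⟩
    have e4 : n' + 1 - 1 = n' := by omega
    rw [e4] at y4'
    have h5 : (n' + 1) * a ≤ u * n' + y := by omega
    have h6 : u * n' ≤ (y + n') * n' := Nat.mul_le_mul_right _ (by omega)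
    have hy2 : 2 ≤ y := by
      by_contra hcon
      have h7 : (n' + 1) * (n' + 1) ≤ (n' + 1) * a := Nat.mul_le_mul_left _ (by omega)
      have h8 : (y + n') * n' ≤ (1 + n') * n' := Nat.mul_le_mul_right _ (by omega)
      have h9 : (n' + 1) * (n' + 1) = (1 + n') * n' + n' + 1 := by ring
      omega
    rcases Nat.lt_or_ge (n' + 1 + 1) y with h7 | h7
    · have h8 := y5 _ (quad_zero (N := n' + 1 + 1) (le_of_lt h7))
      omega
    · have h8 := y5 _ (quad y h7)
      rw [hG2] at h8
      obtain ⟨m, hm⟩ : ∃ m, n' + 1 + 1 = y + m := ⟨n' + 1 + 1 - y, by omega⟩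
      have e5 : n' + 1 + 1 + 1 - y = m + 1 := by omega
      rw [e5, show n' + 1 + 2 = n' + 1 + 1 + 1 from rfl] at h8
      have c1 := two_choose m
      have c2 := two_choose (n' + 1 + 1)
      obtain ⟨z, rfl⟩ : ∃ z, y = z + 2 := ⟨y - 2, by omega⟩
      have e6 : n' = z + m := by omega
      subst e6
      have h9 : (z + m + 1 + 1) * (z + m + 1 + 1 + 1) = m * (m + 1) +
        (2 * (z * m) + 4 * m + z * z + 5 * z + 6) := by ring
      have h10 : 0 ≤ z * m := Nat.zero_le _
      have h11 : z ≤ z * z := Nat.le_mul_self z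
      omega

end H80T
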