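import Mathlib
import Pool.Agent.H80T.CovGen4

/-! COVFIN: finitely many remaining cases. -/

namespace H80T

open Topology

/-- the numerical check for `r` summands and `a` tangent vectors -/
def covOK (n M A B G G' X : ℕ) (fU fL fW : ℕ → ℕ) (r a : ℕ) : Bool :=
  decide (1 ≤ a) && (decide (2 * a ≤ r) &&
    ((decide (fU (r - a) = 0) || decide (fU (r - a) + r * (n + 1) < M)) &&
      (decide (fL a = 0) ||
        (decide (X + (r * n + fU (r - a) + fL a - (A + B)) ≤ G') &&
          (decide (r * n + fU (r - a) + fL a - (A + B) = 0) ||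
            (List.range X).all (fun y =>
              !(decide (B ≤ fL a + (y + (r * n + fU (r - a) + fL a - (A + B))) * (n - 1) + y) &&
                decide (G ≤ fW y + y + 2 * (r * n + fU (r - a) + fL a - (A + B))))))))))

theorem covOK_spec {n K M A B G G' X : ℕ} {fU fL fW : ℕ → ℕ} {r a : ℕ} (hn : 2 ≤ n)
    (hM : (n + 1).multichoose (K + 2) = M) (hA : n.multichoose (K + 2) = A)
    (hB : n.multichoose (K + 1) = B) (hG : (n + 1).multichoose K = G)
    (hG' : n.multichoose K = G') (hfU : ∀ x, H80R.Sg n (K + 2) x (fU x))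
    (hfL : ∀ x, H80R.Sg n (K + 1) x (fL x)) (hfW : ∀ x, H80R.Sg (n + 1) K x (fW x))
    (hX : H80R.Sg (n + 1) (K + 1) X 0)
    (hcl : IsClosed[H80R.projTop (n + 1) (K + 2)] (H80R.Y (n + 1) (K + 2) r))
    (h : covOK n M A B G G' X fU fL fW r a = true) :
    H80R.Y (n + 1) (K + 2) r = Set.univ := by
  unfold covOK at h
  simp only [Bool.and_eq_true, Bool.or_eq_true, decide_eq_true_eq, List.all_eq_true,
    List.mem_range, Bool.not_eq_true', Bool.and_eq_false_iff, decide_eq_false_iff_not] at h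
  obtain ⟨h1, h2, h3, h4⟩ := h
  rcases h4 with h4 | ⟨h4, h5⟩
  · have h5 := hfL a
    rw [h4] at h5
    exact cov_kill (by omega) h1 h2 hcl (hfU _) h5 (by rw [hM]; exact h3)
  · by_contra hne
    obtain ⟨T, y, y1, y2, y3, y4, y5⟩ := cov_core (ε := r * n + fU (r - a) + fL a - (A + B)) hn
      h1 h2 hcl hne (hfU _) (hfL a) (by rw [hM]; exact h3) (by rw [hA, hB]; omega) hX
      (by rw [hG']; exact h4)
    have h6 := y5 _ (hfW y)
    rw [hG] at h6
    rw [hB] at y4
    have h7 : uu T * (n - 1) ≤ (y + (r * n + fU (r - a) + fL a - (A + B))) * (n - 1) :=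
      Nat.mul_le_mul_right _ y3
    rcases h5 with h5 | h5
    · omega
    · rcases h5 y y1 with h8 | h8 <;> omega

/-- kill numbers, cubic forms -/
def k3 (N : ℕ) : ℕ := if N = 3 then 4 else if N = 4 then 5 else if N = 6 then 10 else
  gg (N - 1) + 1

/-- bounds for cubic forms -/
def S3 (N x : ℕ) : ℕ := if x ≤ XX N then c3 N - N * x else if k3 N ≤ x then 0 else
  min (c3 N - N * XX N) (N * (k3 N - x))

theorem k3_spec {N : ℕ} (hN : 3 ≤ N) : H80R.Sg N 3 (k3 N) 0 := by
  unfold k3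
  split_ifs with h1 h2 h3
  · subst h1; exact good_3.sg
  · subst h2; exact good_4.sg
  · subst h3; exact good_6.sg
  · have e : N = (N - 1) + 1 := by omega
    have h := cub_kill (n := N - 1) (r := gg (N - 1) + 1) (by omega) le_rfl
    rw [← e] at h
    exact h

theorem S3_spec {N : ℕ} (hN : 3 ≤ N) (x : ℕ) : H80R.Sg N 3 x (S3 N x) := by
  have hE := cub_exTo N (by omega)
  unfold S3
  split_ifs with h1 h2
  · rw [c3_eq]
    exact hE.2 x h1
  · exact H80R.Sg_le (k3_spec hN) h2
  · rcases min_cases (c3 N - N * XX N) (N * (k3 N - x)) with ⟨h, -⟩ | ⟨h, -⟩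
    · rw [h, c3_eq]
      exact H80R.Sg_le (hE.2 _ le_rfl) (by omega)
    · rw [h]
      have h3 := k3_spec hN
      have e : k3 N = x + (k3 N - x) := by omega
      rw [e] at h3
      have h4 := Sg_sub _ h3
      rw [zero_add] at h4
      exact h4

/-- last exact number of points, quartic forms -/
def q4 : ℕ → ℕ
  | 3 => 4
  | 4 => 8
  | 5 => 13
  | 6 => 20
  | 7 => 29
  | 8 => 40
  | 9 => 54
  | _ => 71

/-- value at the next number of points -/
def w4 : ℕ → ℕ
  | 3 => 1
  | 4 => 1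
  | 5 => 2
  | 6 => 2
  | 7 => 2
  | 8 => 3
  | 9 => 1
  | _ => 0

/-- bounds for quartic forms, at most ten variables -/
def S4 (N x : ℕ) : ℕ := if x ≤ q4 N then N * (N + 1) * (N + 2) * (N + 3) / 24 - N * x else
  if x = q4 N + 1 then w4 N else 0

theorem S4_spec {N : ℕ} (hN : 3 ≤ N) (hN' : N ≤ 10) (x : ℕ) : H80R.Sg N 4 x (S4 N x) := by
  have key : ∀ q v w : ℕ, N * q + v = N.multichoose 4 → H80R.Sg N 4 q v →
      H80R.Sg N 4 (q + 1) w → H80R.Sg N 4 (q + 2) 0 →
      H80R.Sg N 4 x (if x ≤ q then N.multichoose 4 - N * x else if x = q + 1 then w else 0) := by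
    intro q v w h0 h1 h2 h3
    split_ifs with h4 h5
    · refine (exTo_of (q := q) (by omega) ?_).2 x h4
      have e : N.multichoose 4 - N * q = v := by omega
      rw [e]
      exact h1
    · rw [h5]
      exact h2
    · exact H80R.Sg_le h3 (by omega)
  unfold S4
  interval_cases N
  · have := key 4 3 1 (by rw [Nat.multichoose_eq]; decide) s3_4 s3_5 s3_6
    rw [Nat.multichoose_eq] at this
    exact this
  · have := key 8 3 1 (by rw [Nat.multichoose_eq]; decide) s4_8 s4_9 s4_10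
    rw [Nat.multichoose_eq] at this
    exact this
  · have := key 13 5 2 (by rw [Nat.multichoose_eq]; decide) s5_13 s5_14 s5_15
    rw [Nat.multichoose_eq] at this
    exact this
  · have := key 20 6 2 (by rw [Nat.multichoose_eq]; decide) s6_20 s6_21 s6_22
    rw [Nat.multichoose_eq] at this
    exact this
  · have := key 29 7 2 (by rw [Nat.multichoose_eq]; decide) s7_29 s7_30 s7_31
    rw [Nat.multichoose_eq] at this
    exact this
  · have := key 40 10 3 (by rw [Nat.multichoose_eq]; decide) s8_40 s8_41 s8_42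
    rw [Nat.multichoose_eq] at this
    exact this
  · have := key 54 9 1 (by rw [Nat.multichoose_eq]; decide) s9_54 s9_55 s9_56
    rw [Nat.multichoose_eq] at this
    exact this
  · have := key 71 5 0 (by rw [Nat.multichoose_eq]; decide) s10_71 s10_72
      (H80R.Sg_le s10_72 (by norm_num))
    rw [Nat.multichoose_eq] at this
    exact this

/-- kill numbers, quartic forms -/
def k4 (N : ℕ) : ℕ := if w4 N = 0 then q4 N + 1 else q4 N + 2

theorem k4_spec {N : ℕ} (hN : 3 ≤ N) (hN' : N ≤ 10) : H80R.Sg N 4 (k4 N) 0 := by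
  have h := S4_spec hN hN' (k4 N)
  have e : S4 N (k4 N) = 0 := by
    interval_cases N <;> rfl
  rw [e] at h
  exact h

/-- bounds for quadratic forms -/
def S2 (N x : ℕ) : ℕ := if x ≤ N then t2 (N + 1 - x) else 0

theorem S2_spec (N x : ℕ) : H80R.Sg N 2 x (S2 N x) := by
  unfold S2
  split_ifs with h
  · rw [t2_eq]
    exact quad x h
  · exact quad_zero (by omega)

/-- all candidates -/
def covAny (n M A B G G' X q : ℕ) (fU fL fW : ℕ → ℕ) (r : ℕ) : Bool :=
  covOK n M A B G G' X fU fL fW r 1 || (covOK n M A B G G' X fU fL fW r (r - q) ||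
    (covOK n M A B G G' X fU fL fW r (r - q - 1) || covOK n M A B G G' X fU fL fW r (r - q + 1)))

theorem covAny_spec {n K M A B G G' X q : ℕ} {fU fL fW : ℕ → ℕ} {r : ℕ} (hn : 2 ≤ n)
    (hM : (n + 1).multichoose (K + 2) = M) (hA : n.multichoose (K + 2) = A)
    (hB : n.multichoose (K + 1) = B) (hG : (n + 1).multichoose K = G)
    (hG' : n.multichoose K = G') (hfU : ∀ x, H80R.Sg n (K + 2) x (fU x))
    (hfL : ∀ x, H80R.Sg n (K + 1) x (fL x)) (hfW : ∀ x, H80R.Sg (n + 1) K x (fW x))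
    (hX : H80R.Sg (n + 1) (K + 1) X 0)
    (hcl : IsClosed[H80R.projTop (n + 1) (K + 2)] (H80R.Y (n + 1) (K + 2) r))
    (h : covAny n M A B G G' X q fU fL fW r = true) :
    H80R.Y (n + 1) (K + 2) r = Set.univ := by
  unfold covAny at h
  simp only [Bool.or_eq_true] at h
  rcases h with h | h | h | h <;>
    exact covOK_spec hn hM hA hB hG hG' hfU hfL hfW hX hcl h

/-- data for degree four: `M`, `A`, `B`, `G`, `G'` -/
theorem check4 : ∀ n ∈ List.range' 3 7, ∀ r ∈ List.range (k4 (n + 1)), 2 ≤ r →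
    (n = 3 ∧ r = 9) ∨ (n = 4 ∧ r = 14) ∨ (n = 5 ∧ r = 21) ∨
    covAny n ((n + 1) * (n + 2) * (n + 3) * (n + 4) / 24) (n * (n + 1) * (n + 2) * (n + 3) / 24)
      (c3 n) (t2 (n + 2)) (t2 (n + 1)) (k3 (n + 1)) (n * (n + 1) * (n + 2) * (n + 3) / 24 / n)
      (S4 n) (S3 n) (S2 (n + 1)) r = true := by
  decide +kernel

theorem check5 : ∀ n ∈ List.range' 4 6,
    ∀ r ∈ List.range ((n + 1) * (n + 2) * (n + 3) * (n + 4) * (n + 5) / 120 / (n + 1) + 1),
    2 ≤ r →
    covAny n ((n + 1) * (n + 2) * (n + 3) * (n + 4) * (n + 5) / 120)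
      (n * (n + 1) * (n + 2) * (n + 3) * (n + 4) / 120)
      (n * (n + 1) * (n + 2) * (n + 3) / 24) (c3 (n + 1)) (c3 n) (k4 (n + 1))
      (n * (n + 1) * (n + 2) * (n + 3) * (n + 4) / 120 / n)
      (fun x => n * (n + 1) * (n + 2) * (n + 3) * (n + 4) / 120 - n * x) (S4 n) (S3 (n + 1)) r =
      true ∨ (n + 1) * (n + 2) * (n + 3) * (n + 4) * (n + 5) / 120 ≤ r * (n + 1) := by
  decide +kernel

end H80T
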