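import Mathlib
import Pool.Agent.H80T.Opt3
import Pool.Agent.H80T.Asm3
import Pool.Agent.H80T.DecEx
import Pool.Agent.H80T.Bridge
import Pool.Agent.H80R.MainN
import Pool.Agent.H80R.Dense3

/-! CUBIC: the case `k = 3`. -/

namespace H80T

open Topology Module H80R

theorem exists_nl_zero {N d r : ℕ} (h : H80R.Sg N d r 0) :
    ∃ w₀ : Fin r → Fin N → ℂ, H80R.nl N d w₀ = 0 := by
  obtain ⟨v, hv⟩ := H80R.exists_algebraicIndependent (Fin r × Fin N)
  refine ⟨fun s l => v (s, l), ?_⟩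
  have := h (fun s l => v (s, l)) hv
  omega

theorem cubic_univ {n r : ℕ} (hn : 3 ≤ n) (hr : 2 ≤ r)
    (hcl : IsClosed[H80R.projTop (n + 1) 3] (H80R.Y (n + 1) 3 r)) :
    H80R.Y (n + 1) 3 r = Set.univ := by
  rcases opt3 hn hr with h | h
  · exact H80R.univ_of_nl (exists_nl_zero h) hcl
  · obtain ⟨a, b, t, h1, h2, h3, h4, h5, h6⟩ := h
    by_contra hne
    obtain ⟨T⟩ := exists_dec (n := n) (k := 2) (a := a) (b := b) (by omega) h1 (by omega) hcl
    have ht := h4 T.pl T.pp T.py T.halg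
    have hnl : H80R.nl (n + 1) 3 T.w ≠ 0 := fun h0 => hne (H80R.univ_of_nl ⟨T.w, h0⟩ hcl)
    have hge := H80R.nl_ge (d := 3) T.w
    have heq := nl3_eq T.w
    have hcomm : (n + 1) * r = r * (n + 1) := mul_comm _ _
    refine rank3 T h1 h2 t ht ?_ h6
    rcases h5 with h5 | h5 <;> omega

end H80T
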