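import Mathlib
import Pool.Agent.H80T.KeyK
import Pool.Agent.H80T.Geo3

/-! ISO4: for `k = 4` the summands off the hyperplane span an isotropic space. -/

namespace H80T

open Module MvPolynomial

variable {n a b r : ℕ}

theorem iso4_li {k : ℕ} (T : H80R.Dec n k a b r) (ha : a ≤ n) : LinearIndependent ℂ (LL T) := by
  have h := li_pl T ha
  refine LinearIndependent.of_comp (LinearMap.funLeft ℂ ℂ (Fin.castSucc : Fin n → Fin (n + 1))) ?_
  convert h using 1
  funext s
  ext l
  simp [LL, LinearMap.funLeft]

theorem iso4_contract (T : H80R.Dec n 4 a b r) {B : MvPolynomial (Fin (n + 1)) ℂ}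
    (hB : B ∈ H80R.Fm (n + 1) 3) :
    ∑ s, T.py s (Fin.last n) * eval (LL T s) B = ∑ j, T.w j (Fin.last n) * eval (T.w j) B := by
  classical
  have hA : B * X (Fin.last n) ∈ H80R.Fm (n + 1) 4 :=
    IsHomogeneous.mul hB (isHomogeneous_X ℂ (Fin.last n))
  have h := statk T hA
  have e1 : ∀ s, LL T s (Fin.last n) = 0 := fun s => by simp [LL]
  have e2 : ∀ s, QQ T s (Fin.last n) = 0 := fun s => by simp [QQ]
  have h1 : ∀ s, H80R.drF (LL T s) (T.py s) (B * X (Fin.last n)) =
      T.py s (Fin.last n) * eval (LL T s) B := by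
    intro s
    rw [H80R.drF_apply, Finset.sum_eq_single (Fin.last n)]
    · simp [H80R.gr, Derivation.leibniz, e1]
    · intro l _ hl
      simp [H80R.gr, Derivation.leibniz, e1, pderiv_X, hl]
    · simp
  simp only [h1, map_mul, eval_X, e2, mul_zero, Finset.sum_const_zero, add_zero] at h
  rw [h]
  exact Finset.sum_congr rfl fun j _ => by ring

theorem iso4 (T : H80R.Dec n 4 a b r) (han : a ≤ n) : 2 * a ≤ uu T := by
  classical
  have hcard : uu T = Fintype.card (JJ T) := Nat.card_eq_fintype_card
  let Om : Matrix (JJ T) (Fin (n + 1)) ℂ :=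
    Matrix.of fun j l => T.w j.1 (Fin.last n) * T.w j.1 l
  have hsub : ∀ f : Fin r → ℂ, (∀ j, T.w j (Fin.last n) = 0 → f j = 0) →
      ∑ j : JJ T, f j.1 = ∑ j, f j := by
    intro f hf
    rw [← Finset.sum_subtype (Finset.univ.filter (fun j => T.w j (Fin.last n) ≠ 0))
      (by simp) f]
    apply Finset.sum_filter_of_ne
    intro j _ h h0
    exact h (hf j h0)
  have h1 : Om.transpose * Om = 0 := by
    ext l m
    simp only [Matrix.mul_apply, Matrix.transpose_apply, Om, Matrix.of_apply, Matrix.zero_apply]
    have h2 := relk T (C := X l * X m) (IsHomogeneous.mul (isHomogeneous_X ℂ l)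
      (isHomogeneous_X ℂ m))
    rw [hsub (fun j => T.w j (Fin.last n) * T.w j l * (T.w j (Fin.last n) * T.w j m))]
    · refine Eq.trans (Finset.sum_congr rfl fun j _ => ?_) h2
      simp only [map_mul, eval_X]
      ring
    · intro j hj
      rw [hj]
      ring
  have h2 := Matrix.rank_add_rank_le_card_of_mul_eq_zero h1
  rw [Matrix.rank_transpose] at h2
  suffices h3 : a ≤ Om.transpose.rank by
    rw [Matrix.rank_transpose] at h3
    omega
  obtain ⟨th, hth⟩ := H80R.exists_dual_family (iso4_li T han)
  have h4 : finrank ℂ (Submodule.span ℂ (Set.range (LL T))) = a := by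
    rw [finrank_span_eq_card (iso4_li T han), Fintype.card_fin]
  rw [Matrix.rank]
  calc a = finrank ℂ (Submodule.span ℂ (Set.range (LL T))) := h4.symm
    _ ≤ _ := by
      apply Submodule.finrank_mono
      rw [Submodule.span_le]
      rintro _ ⟨s, rfl⟩
      have hne : T.py s (Fin.last n) ≠ 0 := T.halg.ne_zero (Sum.inr (Sum.inr (s, Fin.last n)))
      have h5 : T.py s (Fin.last n) • LL T s =
          Om.transpose.mulVecLin (fun j : JJ T => (∑ l, th s l * T.w j.1 l) ^ 2) := by
        ext l
        have h6 := iso4_contract T (B := H80R.lf (th s) * H80R.lf (th s) * X l)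
          (IsHomogeneous.mul (IsHomogeneous.mul (H80R.lf_mem _) (H80R.lf_mem _))
            (isHomogeneous_X ℂ l))
        simp only [map_mul, H80R.eval_lf, eval_X] at h6
        rw [Finset.sum_eq_single s] at h6
        · rw [hth s s, if_pos rfl] at h6
          rw [Matrix.mulVecLin_apply]
          simp only [Matrix.mulVec, dotProduct, Matrix.transpose_apply, Om, Matrix.of_apply,
            Pi.smul_apply, smul_eq_mul]
          rw [hsub (fun j => T.w j (Fin.last n) * T.w j l * (∑ l, th s l * T.w j l) ^ 2)]
          · refine Eq.trans (Eq.trans ?_ h6) (Finset.sum_congr rfl fun j _ => ?_)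
            · ring
            · ring
          · intro j hj
            rw [hj]
            ring
        · intro t _ hts
          rw [hth t s, if_neg hts]
          ring
        · simp
      rw [SetLike.mem_coe]
      refine (Submodule.smul_mem_iff _ hne).mp ?_
      rw [h5]
      exact LinearMap.mem_range_self _ _

end H80T
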