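import Mathlib
import Pool.Agent.H80T.Iso4

/-! ISO4B: the case of `n + 1` tangent vectors. -/

namespace H80T

open Module MvPolynomial

variable {n b r : ℕ}

/-- the first `n` of the `n + 1` general points are linearly independent -/
theorem iso4b_li {k : ℕ} (T : H80R.Dec n k (n + 1) b r) :
    LinearIndependent ℂ (fun i : Fin n => LL T i.castSucc) := by
  classical
  have h1 := geo3_det _ (geo3_alg T)
    (fun i : Fin n => (Sum.inl i.castSucc : Fin (n + 1) ⊕ Fin b))
    (fun i j h => Fin.castSucc_injective n (Sum.inl_injective h)) id Function.injective_id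
  have h2 : LinearIndependent ℂ (fun i : Fin n => (fun j : Fin n => T.pl i.castSucc j)) :=
    Matrix.linearIndependent_rows_of_det_ne_zero h1
  refine LinearIndependent.of_comp (LinearMap.funLeft ℂ ℂ (Fin.castSucc : Fin n → Fin (n + 1))) ?_
  convert h2 using 1
  funext s
  ext l
  simp [LL, LinearMap.funLeft]

theorem iso4b (T : H80R.Dec n 4 (n + 1) b r) (hn : 1 ≤ n) : 2 * (n - 1) ≤ uu T := by
  classical
  have hcard : uu T = Fintype.card (JJ T) := Nat.card_eq_fintype_card
  let Om : Matrix (JJ T) (Fin (n + 1)) ℂ :=
    Matrix.of fun j l => T.w j.1 (Fin.last n) * T.w j.1 l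
  have hsub : ∀ f : Fin r → ℂ, (∀ j, T.w j (Fin.last n) = 0 → f j = 0) →
      ∑ j : JJ T, f j.1 = ∑ j, f j := by
    intro f hf
    rw [← Finset.sum_subtype (Finset.univ.filter (fun j => T.w j (Fin.last n) ≠ 0))
      (by simp) f]
    apply Finset.sum_filter_of_ne
    intro j _ h h0
    exact h (hf j h0)
  have h1 : Om.transpose * Om = 0 := by
    ext l m
    simp only [Matrix.mul_apply, Matrix.transpose_apply, Om, Matrix.of_apply, Matrix.zero_apply]
    have h2 := relk T (C := X l * X m) (IsHomogeneous.mul (isHomogeneous_X ℂ l)
      (isHomogeneous_X ℂ m))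
    rw [hsub (fun j => T.w j (Fin.last n) * T.w j l * (T.w j (Fin.last n) * T.w j m))]
    · refine Eq.trans (Finset.sum_congr rfl fun j _ => ?_) h2
      simp only [map_mul, eval_X]
      ring
    · intro j hj
      rw [hj]
      ring
  have h2 := Matrix.rank_add_rank_le_card_of_mul_eq_zero h1
  rw [Matrix.rank_transpose] at h2
  suffices h3 : n ≤ Om.transpose.rank + 1 by
    rw [Matrix.rank_transpose] at h3
    omega
  have hli := iso4b_li T
  obtain ⟨th, hth⟩ := H80R.exists_dual_family hli
  have h4 : finrank ℂ (Submodule.span ℂ (Set.range (fun i : Fin n => LL T i.castSucc))) = n := by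
    rw [finrank_span_eq_card hli, Fintype.card_fin]
  rw [Matrix.rank]
  calc n = finrank ℂ (Submodule.span ℂ (Set.range (fun i : Fin n => LL T i.castSucc))) := h4.symm
    _ ≤ finrank ℂ ((LinearMap.range Om.transpose.mulVecLin ⊔
          Submodule.span ℂ {LL T (Fin.last n)} : Submodule ℂ (Fin (n + 1) → ℂ))) := by
      apply Submodule.finrank_mono
      rw [Submodule.span_le]
      rintro _ ⟨s, rfl⟩
      have hne : T.py s.castSucc (Fin.last n) ≠ 0 :=
        T.halg.ne_zero (Sum.inr (Sum.inr (s.castSucc, Fin.last n)))
      have h5 : T.py s.castSucc (Fin.last n) • LL T s.castSucc =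
          Om.transpose.mulVecLin (fun j : JJ T => (∑ l, th s l * T.w j.1 l) ^ 2) -
          (T.py (Fin.last n) (Fin.last n) * (∑ l, th s l * LL T (Fin.last n) l) ^ 2) •
            LL T (Fin.last n) := by
        ext l
        have h6 := iso4_contract T (B := H80R.lf (th s) * H80R.lf (th s) * X l)
          (IsHomogeneous.mul (IsHomogeneous.mul (H80R.lf_mem _) (H80R.lf_mem _))
            (isHomogeneous_X ℂ l))
        simp only [map_mul, H80R.eval_lf, eval_X] at h6
        rw [Fin.sum_univ_castSucc, Finset.sum_eq_single s] at h6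
        · rw [hth s s, if_pos rfl] at h6
          rw [Pi.sub_apply, Matrix.mulVecLin_apply]
          simp only [Matrix.mulVec, dotProduct, Matrix.transpose_apply, Om, Matrix.of_apply,
            Pi.smul_apply, smul_eq_mul]
          rw [hsub (fun j => T.w j (Fin.last n) * T.w j l * (∑ l, th s l * T.w j l) ^ 2)]
          · rw [eq_sub_iff_add_eq]
            refine Eq.trans (Eq.trans ?_ h6) (Finset.sum_congr rfl fun j _ => ?_)
            · ring
            · ring
          · intro j hj
            rw [hj]
            ring
        · intro t _ hts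
          rw [hth t s, if_neg hts]
          ring
        · simp
      rw [SetLike.mem_coe]
      refine (Submodule.smul_mem_iff _ hne).mp ?_
      rw [h5]
      exact Submodule.sub_mem _ (Submodule.mem_sup_left (LinearMap.mem_range_self _ _))
        (Submodule.mem_sup_right (Submodule.smul_mem _ _ (Submodule.mem_span_singleton_self _)))
    _ ≤ _ := by
      refine (Submodule.finrank_add_le_finrank_add_finrank _ _).trans ?_
      exact Nat.add_le_add_left (finrank_span_le_card {LL T (Fin.last n)} |>.trans (by simp)) _

end H80T
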