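import Mathlib
import Pool.Agent.H80T.Defs5

/-! SPEC4: a special tensor of order four. -/

namespace H80T

open Topology MvPolynomial

/-- a quadratic form in terms of its constant second derivatives -/
theorem spec4_quad {N : ℕ} {q : MvPolynomial (Fin N) ℂ} (hq : q ∈ H80R.Fm N 2) :
    ∃ H : Fin N → Fin N → ℂ, (∀ l m, H l m = H m l) ∧
      (∀ v l, H80R.gr v q l = ∑ m, H l m * v m) ∧
      ∀ v, 2 * eval v q = ∑ l, ∑ m, H l m * (v l * v m) := by
  have h1 : ∀ l m, ∃ c : ℂ, pderiv m (pderiv l q) = C c := by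
    intro l m
    have h2 : pderiv m (pderiv l q) ∈ homogeneousSubmodule (Fin N) ℂ 0 :=
      H80R.pderiv_mem (d := 0) (H80R.pderiv_mem (d := 1) hq l) m
    rw [homogeneousSubmodule_zero] at h2
    obtain ⟨c, hc⟩ := Submodule.mem_one.mp h2
    exact ⟨c, hc.symm⟩
  choose H hH using h1
  have hgr : ∀ v l, H80R.gr v q l = ∑ m, H l m * v m := by
    intro v l
    have h2 := H80R.euler (d := 1) (H80R.pderiv_mem (d := 1) hq l) v
    simp only [H80R.gr, hH, eval_C] at h2
    simp only [H80R.gr]
    rw [Nat.cast_one, one_mul] at h2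
    rw [← h2]
    exact Finset.sum_congr rfl fun m _ => mul_comm _ _
  refine ⟨H, ?_, hgr, ?_⟩
  · intro l m
    have h2 : (C (H l m) : MvPolynomial (Fin N) ℂ) = C (H m l) := by
      rw [← hH, ← hH, H80R.pderiv_comm']
    exact C_injective _ _ h2
  · intro v
    have h2 := H80R.euler (d := 2) hq v
    simp only [hgr] at h2
    have h3 : ((2 : ℕ) : ℂ) = 2 := by norm_num
    rw [h3] at h2
    rw [← h2]
    refine Finset.sum_congr rfl fun l _ => ?_
    rw [Finset.mul_sum]
    exact Finset.sum_congr rfl fun m _ => by ring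

theorem special4 {n : ℕ} (hn : 1 ≤ n)
    (hcl : IsClosed[H80R.projTop (n + 1) 4] (H80R.Y (n + 1) 4 (2 * n + n.choose 2))) : False := by
  classical
  let PS2 : Finset (Finset (Fin n)) := Finset.powersetCard 2 Finset.univ
  have hcard : PS2.card = n.choose 2 := by simp [PS2]
  let e := PS2.equivFinOfCardEq hcard
  let x : Fin n → Fin (n + 1) → ℂ := fun s => Pi.single s.castSucc 1
  let y : Fin n → Fin (n + 1) → ℂ := fun _ => Pi.single (Fin.last n) 1
  let zS : Finset (Fin n) → Fin (n + 1) → ℂ := fun S => ∑ i ∈ S, Pi.single i.castSucc 1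
  let z : Fin (n.choose 2) → Fin (n + 1) → ℂ := fun j => zS (e.symm j).1
  let T0 : MvPolynomial (Fin (n + 1)) ℂ →ₗ[ℂ] ℂ :=
    ∑ s, H80R.drF (x s) (y s) + ∑ s, H80R.evF (z s)
  let i0 : Fin n := ⟨0, hn⟩
  have hx : ∀ (s : Fin n) (l : Fin n), x s l.castSucc = if l = s then 1 else 0 := by
    intro s l
    simp [x, Pi.single_apply]
  have hxl : ∀ s : Fin n, x s (Fin.last n) = 0 := by
    intro s
    have : Fin.last n ≠ s.castSucc := (Fin.castSucc_lt_last s).ne'
    simp [x, this]
  have hzS : ∀ (S : Finset (Fin n)) (l : Fin n), zS S l.castSucc = if l ∈ S then 1 else 0 := by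
    intro S l
    simp [zS, Finset.sum_apply, Pi.single_apply]
  have hzSl : ∀ (S : Finset (Fin n)), zS S (Fin.last n) = 0 := by
    intro S
    simp only [zS, Finset.sum_apply]
    exact Finset.sum_eq_zero fun s _ => hxl s
  have hT0 : ∀ A, T0 A = ∑ s, H80R.gr (x s) A (Fin.last n) + ∑ S ∈ PS2, eval (zS S) A := by
    intro A
    simp only [T0, LinearMap.add_apply, LinearMap.coe_sum, Finset.sum_apply, H80R.drF_apply,
      H80R.evF_apply]
    congr 1
    · refine Finset.sum_congr rfl fun s _ => ?_
      simp [y, Pi.single_apply]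
    · rw [← Finset.sum_coe_sort PS2, ← Equiv.sum_comp e]
      refine Finset.sum_congr rfl fun s _ => ?_
      simp [z]
  have hT1 : T0 (X (Fin.last n) * X i0.castSucc ^ 3) = 1 := by
    rw [hT0]
    have h1 : ∀ s, H80R.gr (x s) (X (Fin.last n) * X i0.castSucc ^ 3) (Fin.last n) =
        if i0 = s then 1 else 0 := by
      intro s
      have h2 : i0.castSucc ≠ Fin.last n := (Fin.castSucc_lt_last i0).ne
      simp only [H80R.gr, Derivation.leibniz, Derivation.leibniz_pow, pderiv_X_self,
        pderiv_X_of_ne h2, smul_eq_mul, map_add, map_mul, eval_X, hxl, map_pow, hx]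
      split_ifs <;> simp
    simp only [h1, map_mul, eval_X, hzSl, zero_mul, Finset.sum_const_zero, add_zero]
    simp
  have hne : ∑ s, H80R.ttS 4 (x s) (y s) + ∑ s, H80R.tpow 4 (z s) ≠ 0 := by
    intro h0
    have h1 := H80R.ext_forms (N := n + 1) (k := 4) T0 0 (by
      intro i
      have h2 := congrFun (congrArg Subtype.val h0) i
      have h3 : ∑ s, (H80R.ttS 4 (x s) (y s)).1 i + ∑ s, (H80R.tpow 4 (z s)).1 i = 0 := by
        simpa using h2
      simp only [T0, LinearMap.add_apply, LinearMap.coe_sum, Finset.sum_apply, H80R.drF_apply,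
        H80R.evF_apply, H80R.sum_gr_mon, H80R.eval_mon, LinearMap.zero_apply]
      exact h3) (A := X (Fin.last n) * X i0.castSucc ^ 3)
      (H80R.mul_mem_Fm (d := 1) (e := 3) (isHomogeneous_X ℂ _) (isHomogeneous_X_pow _ _))
    rw [hT1] at h1
    exact one_ne_zero h1
  obtain ⟨w, hw⟩ := H80R.closed_imp (by norm_num) hcl le_rfl x y z hne
  have hTw : ∀ A ∈ H80R.Fm (n + 1) 4, T0 A = ∑ j, eval (w j) A := by
    intro A hA
    have h1 := H80R.ext_forms (N := n + 1) (k := 4) T0 (∑ j, H80R.evF (w j)) (by
      intro i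
      simp only [T0, LinearMap.add_apply, LinearMap.coe_sum, Finset.sum_apply, H80R.drF_apply,
        H80R.evF_apply, H80R.sum_gr_mon, H80R.eval_mon]
      exact hw i) hA
    rw [h1]
    simp only [LinearMap.coe_sum, Finset.sum_apply, H80R.evF_apply]
  -- a quadratic form vanishing at the summands
  have hdim : Module.finrank ℂ (Fin (2 * n + n.choose 2) → ℂ) <
      Module.finrank ℂ (H80R.Fm (n + 1) 2) := by
    rw [H80R.finrank_Fm, Module.finrank_fin_fun]
    have h1 : (n + 1).multichoose 2 = (n + 2).choose 2 := by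
      rw [Nat.multichoose_eq]
      congr 1
    rw [h1]
    have h2 : (n + 2).choose 2 = (n + 1) + (n + (n.choose 2)) := by
      rw [Nat.choose_succ_succ' (n + 1) 1, Nat.choose_one_right, Nat.choose_succ_succ' n 1,
        Nat.choose_one_right]
    omega
  have hker := LinearMap.ker_ne_bot_of_finrank_lt (f := evM 2 w) hdim
  obtain ⟨⟨q, hq⟩, hqk, hq0⟩ := Submodule.exists_mem_ne_zero_of_ne_bot hker
  have hqw : ∀ j, eval (w j) q = 0 := fun j => congrFun (LinearMap.mem_ker.mp hqk) j
  obtain ⟨H, hHs, hHg, hHe⟩ := spec4_quad hq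
  have hTq : ∀ q' ∈ H80R.Fm (n + 1) 2,
      ∑ s, (eval (x s) q * H80R.gr (x s) q' (Fin.last n) +
        eval (x s) q' * H80R.gr (x s) q (Fin.last n)) +
      ∑ S ∈ PS2, eval (zS S) q * eval (zS S) q' = 0 := by
    intro q' hq'
    have h1 := hTw (q * q') (H80R.mul_mem_Fm (d := 2) (e := 2) hq hq')
    rw [hT0] at h1
    simp only [H80R.gr_mul', map_mul, hqw, zero_mul, Finset.sum_const_zero] at h1
    exact h1
  have hX2 : ∀ l m : Fin (n + 1), (X l * X m : MvPolynomial (Fin (n + 1)) ℂ) ∈
      H80R.Fm (n + 1) 2 := fun l m =>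
    H80R.mul_mem_Fm (d := 1) (e := 1) (isHomogeneous_X ℂ _) (isHomogeneous_X ℂ _)
  have hgX : ∀ (v : Fin (n + 1) → ℂ) (l m k : Fin (n + 1)), H80R.gr v (X l * X m) k =
      v l * (if k = m then 1 else 0) + v m * (if k = l then 1 else 0) := by
    intro v l m k
    simp only [H80R.gr, Derivation.leibniz, pderiv_X, smul_eq_mul, map_add, map_mul, eval_X,
      Pi.single_apply]
    congr 1
    · congr 1
      by_cases h : k = m
      · simp [h]
      · simp [h, Ne.symm h]
    · congr 1
      by_cases h : k = l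
      · simp [h]
      · simp [h, Ne.symm h]
  have hcl' : ∀ l : Fin n, (Fin.last n = l.castSucc) = False := by
    intro l
    simp [(Fin.castSucc_lt_last l).ne']
  -- step 1
  have h1 : ∀ s, eval (x s) q = 0 := by
    intro s
    have h := hTq (X (Fin.last n) * X s.castSucc) (hX2 _ _)
    simp only [hgX, map_mul, eval_X, hxl, hzSl, hx, hcl', if_false, if_true, zero_mul, mul_zero,
      zero_add, add_zero, mul_one, Finset.sum_const_zero] at h
    simpa using h
  -- step 2
  have h2 : ∀ S ∈ PS2, eval (zS S) q = 0 := by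
    intro S hS
    obtain ⟨i, j, hij, rfl⟩ := Finset.card_eq_two.mp (Finset.mem_powersetCard.mp hS).2
    have h := hTq (X i.castSucc * X j.castSucc) (hX2 _ _)
    simp only [hgX, map_mul, eval_X, hzS, hx, hcl', if_false, mul_zero,
      zero_add, add_zero] at h
    rw [Finset.sum_eq_zero, zero_add, Finset.sum_eq_single {i, j}] at h
    · simpa using h
    · intro S' hS' hne'
      have h3 : ¬ (i ∈ S' ∧ j ∈ S') := by
        rintro ⟨hi, hj⟩
        apply hne'
        symm
        apply Finset.eq_of_subset_of_card_le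
        · intro t ht
          rcases Finset.mem_insert.mp ht with h | h
          · rwa [h]
          · rwa [Finset.mem_singleton.mp h]
        · rw [Finset.card_pair hij, (Finset.mem_powersetCard.mp hS').2]
      by_cases hi : i ∈ S'
      · have hj : j ∉ S' := fun hj => h3 ⟨hi, hj⟩
        simp [hj]
      · simp [hi]
    · intro hn'
      exact absurd hS hn'
    · intro s _
      by_cases hi : i = s
      · subst hi
        simp [hij.symm]
      · simp [hi]
  -- step 3
  have h3 : ∀ s, H80R.gr (x s) q (Fin.last n) = 0 := by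
    intro s
    have h := hTq (X s.castSucc * X s.castSucc) (hX2 _ _)
    rw [Finset.sum_eq_zero (s := PS2)] at h
    · simp only [hgX, map_mul, eval_X, hx, hcl', if_false, mul_zero,
        zero_add, add_zero, h1] at h
      rw [Finset.sum_eq_single s] at h
      · simpa using h
      · intro t _ hts
        simp [hts.symm]
      · simp
    · intro S hS
      rw [h2 S hS, zero_mul]
  -- the coefficients
  have hxx : ∀ s (l : Fin (n + 1)), x s l = if l = s.castSucc then 1 else 0 := by
    intro s l
    simp [x, Pi.single_apply]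
  have g1 : ∀ s : Fin n, H s.castSucc s.castSucc = 0 := by
    intro s
    have h := hHe (x s)
    rw [h1, mul_zero] at h
    rw [h]
    simp [hxx]
  have g2 : ∀ i j : Fin n, H i.castSucc j.castSucc = 0 := by
    intro i j
    by_cases hij : i = j
    · rw [hij]
      exact g1 j
    · have hS : ({i, j} : Finset (Fin n)) ∈ PS2 :=
        Finset.mem_powersetCard.mpr ⟨Finset.subset_univ _, Finset.card_pair hij⟩
      have h := hHe (zS {i, j})
      rw [h2 _ hS, mul_zero] at h
      have h4 : ∀ l, zS {i, j} l = (if l = i.castSucc then 1 else 0) +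
          (if l = j.castSucc then 1 else 0) := by
        intro l
        simp only [zS]
        rw [Finset.sum_pair hij]
        simp [Pi.single_apply]
      simp only [h4, add_mul, mul_add, Finset.sum_add_distrib] at h
      simp [g1] at h
      have h5 := hHs j.castSucc i.castSucc
      rw [h5] at h
      have h6 : (2 : ℂ) * H i.castSucc j.castSucc = 0 := by
        rw [h]
        ring
      exact (mul_eq_zero.mp h6).resolve_left two_ne_zero
  have g3 : ∀ i : Fin n, H (Fin.last n) i.castSucc = 0 := by
    intro i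
    have h := h3 i
    rw [hHg] at h
    simpa [hxx] using h
  have g4 : ∀ v, 2 * eval v q = H (Fin.last n) (Fin.last n) * (v (Fin.last n) * v (Fin.last n)) := by
    intro v
    rw [hHe, Fin.sum_univ_castSucc, Fin.sum_univ_castSucc]
    rw [Finset.sum_eq_zero, zero_add, Finset.sum_eq_zero, zero_add]
    · intro m _
      rw [g3, zero_mul]
    · intro l _
      rw [Fin.sum_univ_castSucc, Finset.sum_eq_zero, zero_add, hHs, g3, zero_mul]
      intro m _
      rw [g2, zero_mul]
  have g5 : H (Fin.last n) (Fin.last n) ≠ 0 := by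
    intro h0
    apply hq0
    apply Subtype.ext
    apply MvPolynomial.funext
    intro v
    have h := g4 v
    rw [h0, zero_mul] at h
    have h5 := (mul_eq_zero.mp h).resolve_left two_ne_zero
    rw [h5]
    simp
  have g6 : ∀ j, w j (Fin.last n) = 0 := by
    intro j
    have h := g4 (w j)
    rw [hqw, mul_zero] at h
    have h5 := (mul_eq_zero.mp h.symm).resolve_left g5
    exact mul_self_eq_zero.mp h5
  have h7 := hTw (X (Fin.last n) * X i0.castSucc ^ 3)
    (H80R.mul_mem_Fm (d := 1) (e := 3) (isHomogeneous_X ℂ _) (isHomogeneous_X_pow _ _))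
  rw [hT1] at h7
  simp [g6] at h7

end H80T
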