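import Mathlib
import Pool.Agent.H80T.CovFin
import Pool.Agent.H80T.Iso4b
import Pool.Agent.H80T.Spec4
import Pool.Agent.H80T.Cubic
import Pool.Agent.H80R.Mono

/-! FINALF: the final assembly. -/

namespace H80T

open Topology

theorem fin_21 (hcl : IsClosed[H80R.projTop 6 4] (H80R.Y 6 4 21)) :
    H80R.Y 6 4 21 = Set.univ := by
  by_contra hne
  have hL : H80R.Sg 5 3 6 5 := by
    have h := (cub_exTo 5 (by norm_num)).2 6 (by decide)
    rw [← c3_eq] at h
    exact h
  obtain ⟨T, y, y1, y2, y3, y4, y5⟩ := cov_core (n := 5) (K := 2) (r := 21) (a := 6) (U := 0)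
    (L := 5) (X := 10) (ε := 5) (by norm_num) (by norm_num) (by norm_num) hcl hne s5_15 hL
    (Or.inl rfl) (by rw [Nat.multichoose_eq, Nat.multichoose_eq]; decide) good_6.sg
    (by rw [Nat.multichoose_eq]; decide)
  have h8 := iso4b T (by norm_num)
  have h1 := y5 _ (S2_spec 6 y)
  have e1 : (5 + 1 : ℕ).multichoose 2 = 21 := by rw [Nat.multichoose_eq]; decide
  have e2 : (5 : ℕ).multichoose (2 + 1) = 35 := by rw [Nat.multichoose_eq]; decide
  rw [e1] at h1
  rw [e2] at y4
  have h9 : ∀ y < 10, 3 ≤ y → S2 6 y + y + 10 < 21 := by decide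
  have h10 := h9 y y1 (by omega)
  omega

theorem fin4 {n r : ℕ} (hn : 3 ≤ n) (hn' : n ≤ 9) (hr : 2 ≤ r)
    (hcl : IsClosed[H80R.projTop (n + 1) 4] (H80R.Y (n + 1) 4 r)) :
    H80R.Y (n + 1) 4 r = Set.univ := by
  rcases Nat.lt_or_ge r (k4 (n + 1)) with h | h
  · rcases check4 n (by rw [List.mem_range'_1]; omega) r (List.mem_range.mpr h) hr with
      ⟨rfl, rfl⟩ | ⟨rfl, rfl⟩ | ⟨rfl, rfl⟩ | hc
    · exact (special4 (n := 3) (by norm_num) hcl).elim
    · exact (special4 (n := 4) (by norm_num) hcl).elim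
    · exact fin_21 hcl
    · have m4 : ∀ m : ℕ, m ∈ List.range' 3 8 →
          (m + 4 - 1).choose 4 = m * (m + 1) * (m + 2) * (m + 3) / 24 := by decide +kernel
      refine covAny_spec (K := 2) (by omega) ?_ ?_ (c3_eq n).symm ?_ ?_
        (S4_spec hn (by omega)) (S3_spec hn) (S2_spec _) (k3_spec (by omega)) hcl hc
      · rw [Nat.multichoose_eq]
        exact m4 (n + 1) (by rw [List.mem_range'_1]; omega)
      · rw [Nat.multichoose_eq]
        exact m4 n (by rw [List.mem_range'_1]; omega)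
      · rw [t2_eq, Nat.multichoose_eq]
        rfl
      · rw [t2_eq, Nat.multichoose_eq]
        rfl
  · exact cov_univ hcl (H80R.Sg_le (k4_spec (by omega) (by omega)) h)

theorem fin5 {n r : ℕ} (hn : 4 ≤ n) (hn' : n ≤ 9) (hr : 2 ≤ r)
    (hcl : IsClosed[H80R.projTop (n + 1) 5] (H80R.Y (n + 1) 5 r)) :
    H80R.Y (n + 1) 5 r = Set.univ := by
  have m5 : ∀ m : ℕ, m ∈ List.range' 3 8 →
      (m + 5 - 1).choose 5 = m * (m + 1) * (m + 2) * (m + 3) * (m + 4) / 120 := by decide +kernel
  have m4 : ∀ m : ℕ, m ∈ List.range' 3 8 →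
      (m + 4 - 1).choose 4 = m * (m + 1) * (m + 2) * (m + 3) / 24 := by decide +kernel
  have hM : (n + 1).multichoose 5 =
      (n + 1) * (n + 2) * (n + 3) * (n + 4) * (n + 5) / 120 := by
    rw [Nat.multichoose_eq]
    exact m5 (n + 1) (by rw [List.mem_range'_1]; omega)
  have hA : n.multichoose 5 = n * (n + 1) * (n + 2) * (n + 3) * (n + 4) / 120 := by
    rw [Nat.multichoose_eq]
    exact m5 n (by rw [List.mem_range'_1]; omega)
  have hEM : Ex (n + 1) 5 := ex5 (by omega)
  have hEA : Ex n 5 := ex5 (by omega)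
  by_cases h0 : (n + 1) * (n + 2) * (n + 3) * (n + 4) * (n + 5) / 120 ≤ r * (n + 1)
  · apply cov_univ hcl
    refine H80R.Sg_mono (hEM r) ?_
    rw [hM, mul_comm (n + 1) r]
    omega
  · have h1 : r < (n + 1) * (n + 2) * (n + 3) * (n + 4) * (n + 5) / 120 / (n + 1) + 1 := by
      rw [Nat.lt_succ_iff, Nat.le_div_iff_mul_le (by omega)]
      exact (not_le.mp h0).le
    rcases check5 n (by rw [List.mem_range'_1]; omega) r (List.mem_range.mpr h1) hr with hc | hc
    · refine covAny_spec (K := 3) (by omega) hM hA ?_ (c3_eq (n + 1)).symm (c3_eq n).symm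
        ?_ (S4_spec (by omega) (by omega)) (S3_spec (by omega)) (k4_spec (by omega) (by omega))
        hcl hc
      · rw [Nat.multichoose_eq]
        exact m4 n (by rw [List.mem_range'_1]; omega)
      · intro x
        rw [← hA]
        exact hEA x
    · exact absurd hc h0

/-- **The case of at least `k` variables, at least four.** -/
theorem main_large {n k r : ℕ} (hk : 3 ≤ k) (hn : k ≤ n + 1) (hn3 : 3 ≤ n) (hr : 2 ≤ r)
    (hcl : IsClosed[H80R.projTop (n + 1) k] (H80R.Y (n + 1) k r)) :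
    H80R.Y (n + 1) k r = Set.univ := by
  rcases Nat.lt_or_ge k 6 with h | h
  · interval_cases k
    · exact cubic_univ hn3 hr hcl
    · rcases Nat.lt_or_ge n 10 with h' | h'
      · exact fin4 hn3 (by omega) hr hcl
      · exact cov_gen4 h' hr hcl
    · rcases Nat.lt_or_ge n 10 with h' | h'
      · exact fin5 (by omega) (by omega) hr hcl
      · exact cov_gen (K := 3) le_rfl (by omega) (Or.inr h') hr hcl
  · obtain ⟨K, rfl⟩ : ∃ K, k = K + 2 := ⟨k - 2, by omega⟩
    exact cov_gen (K := K) (by omega) (by omega) (Or.inl (by omega)) hr hcl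

/-- **Main theorem.** For `k ≥ 3` and `r ≥ 2` the set `Y_r` is closed only if it is
everything. -/
theorem main_final {N k r : ℕ} (hk : 3 ≤ k) (hr : 2 ≤ r)
    (hcl : IsClosed[H80R.projTop N k] (H80R.Y N k r)) : H80R.Y N k r = Set.univ := by
  rcases Nat.lt_or_ge (max 3 (k - 1)) N with h | h
  · obtain ⟨n, rfl⟩ : ∃ n, N = n + 1 := ⟨N - 1, by omega⟩
    exact main_large hk (by omega) (by omega) hr hcl
  · by_contra hne
    have e : min N (max 3 (k - 1)) = N := by omega
    exact H80R.main (N := N) hk hr (by rw [e]; exact hne) hcl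

end H80T
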